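import Pool.Agent.H366.ZC.Base
import Pool.Agent.H366.GF.AI1

/-! # The circle method identity over the integers -/

set_option autoImplicit false

namespace Pool.Agent.H366.ZC

open Pool.Agent.H366.GF (Ex ExC Ex_mono Ex_nonneg Ex_const ExC_const Ex_add Ex_sub Ex_mul_left
  Ex_mul_right ExC_mul_left ExC_mul_right Ex_sum ExC_sum Ex_comm ExC_comm Ex_equiv ExC_equiv Ex_prod
  norm_ExC_le Ex_sq_le norm_ExC_sq_le Ex_ofReal Ex_pw pw_pw card_ne card_neC)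

namespace AIN

lemma conj_ExC {α : Type} [Fintype α] (f : α → ℂ) :
    (starRingEnd ℂ) (ExC f) = ExC fun x => (starRingEnd ℂ) (f x) := by
  rw [ExC, ExC, map_div₀, map_sum, map_natCast]

/-- the difference of the two sides, divided by `q` -/
def Gz {s : ℕ} (q u d : ℕ) (M : Fin 3 → ℕ) (v : Fin 3 → Fin s → ℕ) (ρ : ℤ)
    (z : Fin 3 → Fin s → Fin (2 ^ d)) : ℤ :=
  ρ + ff q u d (M 0) (v 0) (z 0) - ff q u d (M 1) (v 1) (z 1) - ff q u d (M 2) (v 2) (z 2)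

lemma exists_rho {s q : ℕ} {M : Fin 3 → ℕ} {v : Fin 3 → Fin s → ℕ} (h : Rel s q M v) :
    ∃ ρ : ℤ, ((M 0 * ∏ i, v 0 i : ℕ) : ℤ) -
      ((M 1 * ∏ i, v 1 i + M 2 * ∏ i, v 2 i : ℕ) : ℤ) = q * ρ := by
  unfold Rel at h
  obtain ⟨c, hc⟩ := (Nat.modEq_iff_dvd.1 h.symm)
  exact ⟨c, hc⟩

lemma diff_eq {s q u d : ℕ} (hq : 0 < q) {M : Fin 3 → ℕ} {v : Fin 3 → Fin s → ℕ} {ρ : ℤ}
    (hρ : ((M 0 * ∏ i, v 0 i : ℕ) : ℤ) -
      ((M 1 * ∏ i, v 1 i + M 2 * ∏ i, v 2 i : ℕ) : ℤ) = q * ρ)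
    (z : Fin 3 → Fin s → Fin (2 ^ d)) :
    ((M 0 * ∏ i, zz q u d (v 0) (z 0) i : ℕ) : ℤ) -
      ((M 1 * ∏ i, zz q u d (v 1) (z 1) i + M 2 * ∏ i, zz q u d (v 2) (z 2) i : ℕ) : ℤ) =
      q * Gz q u d M v ρ z := by
  have h0 := ff_spec (u := u) (M := M 0) (v := v 0) hq (z 0)
  have h1 := ff_spec (u := u) (M := M 1) (v := v 1) hq (z 1)
  have h2 := ff_spec (u := u) (M := M 2) (v := v 2) hq (z 2)
  have h0' : ((M 0 * ∏ i, zz q u d (v 0) (z 0) i : ℕ) : ℤ) = ((M 0 * ∏ i, v 0 i : ℕ) : ℤ) +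
    q * ff q u d (M 0) (v 0) (z 0) := by rw [h0]; push_cast; ring
  have h1' : ((M 1 * ∏ i, zz q u d (v 1) (z 1) i : ℕ) : ℤ) = ((M 1 * ∏ i, v 1 i : ℕ) : ℤ) +
    q * ff q u d (M 1) (v 1) (z 1) := by rw [h1]; push_cast; ring
  have h2' : ((M 2 * ∏ i, zz q u d (v 2) (z 2) i : ℕ) : ℤ) = ((M 2 * ∏ i, v 2 i : ℕ) : ℤ) +
    q * ff q u d (M 2) (v 2) (z 2) := by rw [h2]; push_cast; ring
  rw [Nat.cast_add] at hρ ⊢
  rw [h0', h1', h2']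
  unfold Gz
  linear_combination hρ

lemma side_le {κ Λ μ q e₀ u : ℕ} {M : Fin 3 → ℕ} (hC : Ctx κ Λ μ q e₀ u M) {s d : ℕ}
    {v : Fin 3 → Fin s → ℕ} (hv : ∀ X, SlotOK q (v X)) (z : Fin 3 → Fin s → Fin (2 ^ d))
    (X : Fin 3) : M X * ∏ i, zz q u d (v X) (z X) i ≤ 2 ^ (μ + s * (d + e₀)) := by
  have h2 := prod_zz_le hC.qe (hv X) (z X) Finset.univ
  rw [Finset.card_univ, Fintype.card_fin] at h2
  rw [pow_add]
  exact Nat.mul_le_mul (hC.Mle X) h2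

lemma Gz_le {κ Λ μ q e₀ u : ℕ} {M : Fin 3 → ℕ} (hC : Ctx κ Λ μ q e₀ u M) {s d : ℕ}
    {v : Fin 3 → Fin s → ℕ} (hv : ∀ X, SlotOK q (v X)) {ρ : ℤ}
    (hρ : ((M 0 * ∏ i, v 0 i : ℕ) : ℤ) -
      ((M 1 * ∏ i, v 1 i + M 2 * ∏ i, v 2 i : ℕ) : ℤ) = q * ρ)
    (z : Fin 3 → Fin s → Fin (2 ^ d)) :
    |Gz q u d M v ρ z| ≤ 2 * 2 ^ (μ + s * (d + e₀)) := by
  have h := diff_eq (u := u) (d := d) hC.qpos hρ z
  have h0 := side_le hC hv z 0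
  have h1 := side_le hC hv z 1
  have h2 := side_le hC hv z 2
  have hq : (1 : ℤ) ≤ q := by exact_mod_cast hC.qpos
  have h3 : |Gz q u d M v ρ z| ≤ |(q : ℤ) * Gz q u d M v ρ z| := by
    rw [abs_mul, abs_of_nonneg (by linarith : (0 : ℤ) ≤ q)]
    nlinarith [abs_nonneg (Gz q u d M v ρ z)]
  refine h3.trans ?_
  rw [← h, abs_le]
  zify at h0 h1 h2
  push_cast
  have hp0 : (0 : ℤ) ≤ (M 0 : ℤ) * ∏ i, (zz q u d (v 0) (z 0) i : ℤ) := by positivity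
  have hp1 : (0 : ℤ) ≤ (M 1 : ℤ) * ∏ i, (zz q u d (v 1) (z 1) i : ℤ) := by positivity
  have hp2 : (0 : ℤ) ≤ (M 2 : ℤ) * ∏ i, (zz q u d (v 2) (z 2) i : ℤ) := by positivity
  constructor <;> linarith

lemma TL_eq (s μ e₀ d : ℕ) : TL s μ e₀ d = 4 * 2 ^ (μ + s * (d + e₀)) := by
  unfold TL; rw [pow_add]; ring

lemma KS_le {s μ e₀ d : ℕ} (hd : 8 ≤ d) (hs : 1 ≤ s) : 8 * KS s μ e₀ d ≤ TL s μ e₀ d := by
  unfold KS TL
  have h1 : 3 * (d / 8) ≤ s * (d + e₀) := by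
    have : d + e₀ ≤ s * (d + e₀) := Nat.le_mul_of_pos_left _ hs
    omega
  have h2 : μ + s * (d + e₀) + 2 = (μ + s * (d + e₀) + 2 - 3 * (d / 8)) + 3 * (d / 8) := by omega
  have h3 : 2 ^ (μ + s * (d + e₀) + 2) =
    2 ^ (μ + s * (d + e₀) + 2 - 3 * (d / 8)) * 2 ^ (3 * (d / 8)) := by rw [← pow_add, ← h2]
  rw [h3]
  have h4 : 2 ^ 3 ≤ 2 ^ (3 * (d / 8)) := Nat.pow_le_pow_right (by norm_num) (by omega)
  nlinarith [Nat.zero_le (2 ^ (μ + s * (d + e₀) + 2 - 3 * (d / 8)))]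

lemma KS_mul {s μ e₀ d : ℕ} (hs : 1 ≤ s) : KS s μ e₀ d * 2 ^ (3 * (d / 8)) = TL s μ e₀ d := by
  unfold KS TL
  have h1 : 3 * (d / 8) ≤ s * (d + e₀) := by
    have : d + e₀ ≤ s * (d + e₀) := Nat.le_mul_of_pos_left _ hs
    omega
  rw [← pow_add]
  congr 1
  omega

open Classical in
lemma Wt_eq {s q u d : ℕ} (hq : 0 < q) {M : Fin 3 → ℕ} {v : Fin 3 → Fin s → ℕ} {ρ : ℤ}
    (hρ : ((M 0 * ∏ i, v 0 i : ℕ) : ℤ) -
      ((M 1 * ∏ i, v 1 i + M 2 * ∏ i, v 2 i : ℕ) : ℤ) = q * ρ)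
    (z : Fin 3 → Fin s → Fin (2 ^ d)) :
    Wt s q u d M v z = NN s q u d (M 0) * (if Gz q u d M v ρ z = 0 then 1 else 0) := by
  have h := diff_eq (u := u) (d := d) hq hρ z
  have hiff : (M 0 * ∏ i, zz q u d (v 0) (z 0) i =
      M 1 * ∏ i, zz q u d (v 1) (z 1) i + M 2 * ∏ i, zz q u d (v 2) (z 2) i) ↔
      Gz q u d M v ρ z = 0 := by
    constructor
    · intro h1
      rw [h1, sub_self] at h
      have := h.symm
      rw [mul_eq_zero] at this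
      rcases this with h2 | h2
      · exact absurd h2 (by exact_mod_cast hq.ne')
      · exact h2
    · intro h1
      rw [h1, mul_zero, sub_eq_zero] at h
      exact_mod_cast h
  unfold Wt
  by_cases h0 : Gz q u d M v ρ z = 0
  · rw [if_pos (hiff.2 h0), if_pos h0, mul_one]
  · rw [if_neg (fun h => h0 (hiff.1 h)), if_neg h0, mul_zero]

open Classical in
lemma Ws_eq {s q u d K : ℕ} (hq : 0 < q) {M : Fin 3 → ℕ} {v : Fin 3 → Fin s → ℕ} {ρ : ℤ}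
    (hρ : ((M 0 * ∏ i, v 0 i : ℕ) : ℤ) -
      ((M 1 * ∏ i, v 1 i + M 2 * ∏ i, v 2 i : ℕ) : ℤ) = q * ρ)
    (z : Fin 3 → Fin s → Fin (2 ^ d)) :
    Ws s q u d K M v z = NN s q u d (M 0) *
      ((if |Gz q u d M v ρ z| ≤ (K : ℤ) then 1 else 0) / (2 * K + 1)) := by
  have h := diff_eq (u := u) (d := d) hq hρ z
  have hq' : (0 : ℤ) < q := by exact_mod_cast hq
  have hiff : (|((M 0 * ∏ i, zz q u d (v 0) (z 0) i : ℕ) : ℤ) -
    ((M 1 * ∏ i, zz q u d (v 1) (z 1) i + M 2 * ∏ i, zz q u d (v 2) (z 2) i : ℕ) : ℤ)| ≤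
      ((q * K : ℕ) : ℤ)) ↔ |Gz q u d M v ρ z| ≤ (K : ℤ) := by
    rw [h, abs_mul, abs_of_pos hq', Nat.cast_mul]
    exact ⟨fun h => le_of_mul_le_mul_left h hq', fun h => mul_le_mul_of_nonneg_left h hq'.le⟩
  unfold Ws
  by_cases h0 : |Gz q u d M v ρ z| ≤ (K : ℤ)
  · rw [if_pos (hiff.2 h0), if_pos h0]; ring
  · rw [if_neg (fun h => h0 (hiff.1 h)), if_neg h0]; ring

/-- the Fourier coefficients of the smoothing -/
noncomputable def Kh (K T a : ℕ) : ℂ :=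
  (∑ h ∈ Finset.Icc (-(K : ℤ)) K, (starRingEnd ℂ) (e ((a : ℝ) * (h : ℝ) / (T : ℝ)))) / (2 * K + 1)

lemma card_Icc_K (K : ℕ) : (Finset.Icc (-(K : ℤ)) K).card = 2 * K + 1 := by
  rw [Int.card_Icc]; omega

lemma norm_Kh_le (K T a : ℕ) : ‖Kh K T a‖ ≤ 1 := by
  unfold Kh
  rw [norm_div]
  have h1 : ‖(2 * (K : ℂ) + 1)‖ = 2 * K + 1 := by
    have : (2 * (K : ℂ) + 1) = ((2 * K + 1 : ℕ) : ℂ) := by push_cast; ring
    rw [this, Complex.norm_natCast]; push_cast; ring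
  rw [h1, div_le_one (by positivity)]
  refine (norm_sum_le _ _).trans ?_
  have h2 : ∀ h ∈ Finset.Icc (-(K : ℤ)) K,
    ‖(starRingEnd ℂ) (e ((a : ℝ) * (h : ℝ) / (T : ℝ)))‖ = 1 := by
    intro h _
    rw [RCLike.norm_conj, norm_e]
  rw [Finset.sum_congr rfl h2, Finset.sum_const, card_Icc_K]
  simp

lemma norm_one_sub_e (x : ℝ) : ‖1 - e x‖ ≤ 2 * Real.pi * |x| := by
  unfold e
  have h : (2 * Real.pi * x * Complex.I : ℂ) = ((2 * Real.pi * x : ℝ) : ℂ) * Complex.I := by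
    push_cast; ring
  rw [h, norm_sub_rev, mul_comm _ Complex.I]
  refine (Real.norm_exp_I_mul_ofReal_sub_one_le).trans ?_
  rw [Real.norm_eq_abs, abs_mul, abs_mul, abs_of_pos Real.pi_pos, abs_of_pos (by norm_num : (0:ℝ) < 2)]

/-- the frequencies close to `0` -/
lemma one_sub_Kh_le {K T a : ℕ} (hT : 0 < T) (w : ℝ) (hw : 0 ≤ w)
    (h : (a : ℝ) ≤ w ∨ (T : ℝ) - a ≤ w ∧ a ≤ T) :
    ‖1 - Kh K T a‖ ≤ 2 * Real.pi * (w * K / T) := by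
  have hT' : (0 : ℝ) < T := by exact_mod_cast hT
  unfold Kh
  have h1 : (1 : ℂ) = (∑ h ∈ Finset.Icc (-(K : ℤ)) K, (1 : ℂ)) / (2 * K + 1) := by
    rw [Finset.sum_const, card_Icc_K]
    have : (2 * (K : ℂ) + 1) ≠ 0 := by
      have : (2 * (K : ℂ) + 1) = ((2 * K + 1 : ℕ) : ℂ) := by push_cast; ring
      rw [this]
      exact Nat.cast_ne_zero.2 (by omega)
    simp [this]
  have h3 : ‖(2 * (K : ℂ) + 1)‖ = 2 * K + 1 := by
    have : (2 * (K : ℂ) + 1) = ((2 * K + 1 : ℕ) : ℂ) := by push_cast; ring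
    rw [this, Complex.norm_natCast]; push_cast; ring
  have h2 : (1 : ℂ) - (∑ h ∈ Finset.Icc (-(K : ℤ)) K,
      (starRingEnd ℂ) (e ((a : ℝ) * (h : ℝ) / (T : ℝ)))) / (2 * K + 1) =
      (∑ h ∈ Finset.Icc (-(K : ℤ)) K, (1 - (starRingEnd ℂ) (e ((a : ℝ) * (h : ℝ) / (T : ℝ))))) /
        (2 * K + 1) := by
    rw [Finset.sum_sub_distrib, sub_div, ← h1]
  rw [h2, norm_div, h3, div_le_iff₀ (by positivity)]
  refine (norm_sum_le _ _).trans ?_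
  have h4 : ∀ h ∈ Finset.Icc (-(K : ℤ)) K,
    ‖1 - (starRingEnd ℂ) (e ((a : ℝ) * (h : ℝ) / (T : ℝ)))‖ ≤ 2 * Real.pi * (w * K / T) := by
    intro h' hh
    rw [Finset.mem_Icc] at hh
    have hh' : |(h' : ℝ)| ≤ K := by
      rw [abs_le]
      exact ⟨by exact_mod_cast hh.1, by exact_mod_cast hh.2⟩
    rw [← e_neg]
    rcases h with h | h
    · refine (norm_one_sub_e _).trans ?_
      refine mul_le_mul_of_nonneg_left ?_ (by positivity)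
      rw [abs_neg, abs_div, abs_mul, abs_of_pos hT', Nat.abs_cast]
      gcongr
    · have h5 : e (-((a : ℝ) * (h' : ℝ) / (T : ℝ))) =
          e (((T : ℝ) - a) * (h' : ℝ) / (T : ℝ)) := by
        have : ((T : ℝ) - a) * (h' : ℝ) / (T : ℝ) = -((a : ℝ) * (h' : ℝ) / (T : ℝ)) + (h' : ℤ) := by
          field_simp
          ring
        rw [this, e_add_int]
      rw [h5]
      refine (norm_one_sub_e _).trans ?_
      refine mul_le_mul_of_nonneg_left ?_ (by positivity)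
      have h6 : 0 ≤ (T : ℝ) - a := by
        have : (a : ℝ) ≤ T := by exact_mod_cast h.2
        linarith
      rw [abs_div, abs_mul, abs_of_pos hT', abs_of_nonneg h6]
      have := h.1
      gcongr
  refine (Finset.sum_le_sum h4).trans ?_
  rw [Finset.sum_const, card_Icc_K, nsmul_eq_mul]
  push_cast
  linarith

lemma ind_zero {T : ℕ} {G : ℤ} (hT : 0 < T) (hG : |G| < T) :
    ((if G = 0 then 1 else 0 : ℝ) : ℂ) =
      (∑ a ∈ Finset.range T, e ((a : ℝ) * (G : ℝ) / (T : ℝ))) / T := by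
  rw [sum_e T hT G]
  have hT' : (T : ℂ) ≠ 0 := by exact_mod_cast hT.ne'
  have hiff : (T : ℤ) ∣ G ↔ G = 0 := by
    constructor
    · intro h
      exact Int.eq_zero_of_abs_lt_dvd h hG
    · rintro rfl
      exact dvd_zero _
  by_cases h : G = 0
  · rw [if_pos h, if_pos (hiff.2 h), div_self hT']; simp
  · rw [if_neg h, if_neg (fun h' => h (hiff.1 h'))]; simp

lemma ind_K {T K : ℕ} {G : ℤ} (hT : 0 < T) (hG : |G| + K < T) :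
    (((if |G| ≤ (K : ℤ) then 1 else 0) / (2 * K + 1) : ℝ) : ℂ) =
      (∑ a ∈ Finset.range T, Kh K T a * e ((a : ℝ) * (G : ℝ) / (T : ℝ))) / T := by
  have h1 : ∀ h ∈ Finset.Icc (-(K : ℤ)) K, ((if G - h = 0 then 1 else 0 : ℝ) : ℂ) =
      (∑ a ∈ Finset.range T, e ((a : ℝ) * ((G - h : ℤ) : ℝ) / (T : ℝ))) / T := by
    intro h hh
    rw [Finset.mem_Icc] at hh
    refine ind_zero hT ?_
    have : |h| ≤ K := abs_le.2 hh
    exact lt_of_le_of_lt (abs_sub _ _) (by linarith)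
  have h2 : ∑ h ∈ Finset.Icc (-(K : ℤ)) K, ((if G - h = 0 then 1 else 0 : ℝ) : ℂ) =
      ((if |G| ≤ (K : ℤ) then 1 else 0 : ℝ) : ℂ) := by
    rw [← Complex.ofReal_sum]
    congr 1
    have : ∀ h : ℤ, (if G - h = 0 then (1 : ℝ) else 0) = if G = h then 1 else 0 := by
      intro h
      simp only [sub_eq_zero]
    simp only [this]
    rw [Finset.sum_ite_eq]
    by_cases h : |G| ≤ (K : ℤ)
    · rw [if_pos h, if_pos (Finset.mem_Icc.2 (abs_le.1 h))]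
    · rw [if_neg h, if_neg fun h' => h (abs_le.2 (Finset.mem_Icc.1 h'))]
  have h3 : ((((if |G| ≤ (K : ℤ) then 1 else 0) / (2 * K + 1) : ℝ)) : ℂ) =
    ((if |G| ≤ (K : ℤ) then 1 else 0 : ℝ) : ℂ) / (2 * K + 1) := by
    push_cast; rfl
  rw [h3, ← h2, Finset.sum_congr rfl h1, ← Finset.sum_div, Finset.sum_comm, div_right_comm]
  congr 1
  rw [Finset.sum_div]
  refine Finset.sum_congr rfl fun a _ => ?_
  unfold Kh
  rw [div_mul_eq_mul_div, Finset.sum_mul]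
  congr 1
  refine Finset.sum_congr rfl fun h _ => ?_
  have : (a : ℝ) * ((G - h : ℤ) : ℝ) / (T : ℝ) =
    (a : ℝ) * (G : ℝ) / (T : ℝ) - (a : ℝ) * (h : ℝ) / (T : ℝ) := by push_cast; ring
  rw [this, e_sub, mul_comm]

/-- the identity of the circle method -/
lemma diff_W {κ Λ μ q e₀ u : ℕ} {M : Fin 3 → ℕ} (hC : Ctx κ Λ μ q e₀ u M) {s d : ℕ} (hs : 1 ≤ s)
    (hd : 8 ≤ d)
    {v : Fin 3 → Fin s → ℕ} (hv : ∀ X, SlotOK q (v X)) {ρ : ℤ}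
    (hρ : ((M 0 * ∏ i, v 0 i : ℕ) : ℤ) -
      ((M 1 * ∏ i, v 1 i + M 2 * ∏ i, v 2 i : ℕ) : ℤ) = q * ρ)
    (z : Fin 3 → Fin s → Fin (2 ^ d)) :
    ((Wt s q u d M v z - Ws s q u d (KS s μ e₀ d) M v z : ℝ) : ℂ) =
      ∑ a ∈ Finset.range (TL s μ e₀ d), ((NN s q u d (M 0) / (TL s μ e₀ d : ℝ) : ℝ) : ℂ) *
        ((1 - Kh (KS s μ e₀ d) (TL s μ e₀ d) a) * e ((a : ℝ) * (ρ : ℝ) / (TL s μ e₀ d : ℝ))) *
        (e ((a : ℝ) * (ff q u d (M 0) (v 0) (z 0) : ℝ) / (TL s μ e₀ d : ℝ)) *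
        (starRingEnd ℂ) (e ((a : ℝ) * (ff q u d (M 1) (v 1) (z 1) : ℝ) / (TL s μ e₀ d : ℝ))) *
        (starRingEnd ℂ) (e ((a : ℝ) * (ff q u d (M 2) (v 2) (z 2) : ℝ) / (TL s μ e₀ d : ℝ)))) := by
  set T := TL s μ e₀ d with hT
  set K := KS s μ e₀ d with hK
  have hT0 : 0 < T := TL_pos _ _ _ _
  have hG := Gz_le hC hv hρ z
  have hTe := TL_eq s μ e₀ d
  have hKe := KS_le (μ := μ) (e₀ := e₀) hd hs
  have hK4 : |Gz q u d M v ρ z| + K < T := by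
    have h1 : ((2 ^ (μ + s * (d + e₀)) : ℕ) : ℤ) = 2 ^ (μ + s * (d + e₀)) := by push_cast; rfl
    have h2 : (T : ℤ) = 4 * 2 ^ (μ + s * (d + e₀)) := by rw [hT, hTe]; push_cast; rfl
    have h3 : (8 : ℤ) * K ≤ T := by exact_mod_cast hKe
    have h4 : (0 : ℤ) < T := by exact_mod_cast hT0
    linarith
  have hG' : |Gz q u d M v ρ z| < T := by
    have : (0 : ℤ) ≤ K := Nat.cast_nonneg _
    linarith
  rw [Wt_eq hC.qpos hρ z, Ws_eq hC.qpos hρ z, ← mul_sub]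
  have e1 : ((NN s q u d (M 0) * ((if Gz q u d M v ρ z = 0 then 1 else 0) -
      (if |Gz q u d M v ρ z| ≤ (K : ℤ) then 1 else 0) / (2 * K + 1)) : ℝ) : ℂ) =
      (NN s q u d (M 0) : ℂ) * (((if Gz q u d M v ρ z = 0 then 1 else 0 : ℝ) : ℂ) -
      (((if |Gz q u d M v ρ z| ≤ (K : ℤ) then 1 else 0) / (2 * K + 1) : ℝ) : ℂ)) := by
    push_cast; rfl
  rw [e1, ind_zero hT0 hG', ind_K hT0 hK4, ← sub_div, ← Finset.sum_sub_distrib, mul_div_assoc',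
    Finset.mul_sum, Finset.sum_div]
  refine Finset.sum_congr rfl fun a _ => ?_
  have e2 : (a : ℝ) * ((Gz q u d M v ρ z : ℤ) : ℝ) / (T : ℝ) =
      (a : ℝ) * (ρ : ℝ) / (T : ℝ) + ((a : ℝ) * (ff q u d (M 0) (v 0) (z 0) : ℝ) / (T : ℝ) -
      (a : ℝ) * (ff q u d (M 1) (v 1) (z 1) : ℝ) / (T : ℝ) -
      (a : ℝ) * (ff q u d (M 2) (v 2) (z 2) : ℝ) / (T : ℝ)) := by
    unfold Gz; push_cast; ring
  rw [e2, e_add, e_sub, e_sub]
  push_cast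
  ring

/-- averaged -/
lemma diff_AW {κ Λ μ q e₀ u : ℕ} {M : Fin 3 → ℕ} (hC : Ctx κ Λ μ q e₀ u M) {s d : ℕ} (hs : 1 ≤ s)
    (hd : 8 ≤ d)
    {v : Fin 3 → Fin s → ℕ} (hv : ∀ X, SlotOK q (v X)) {ρ : ℤ}
    (hρ : ((M 0 * ∏ i, v 0 i : ℕ) : ℤ) -
      ((M 1 * ∏ i, v 1 i + M 2 * ∏ i, v 2 i : ℕ) : ℤ) = q * ρ) (V : Fin 3 → Finset (Fin s))
    (z : Fin 3 → Fin s → Fin (2 ^ d)) :
    ((Ex (fun z' : Fin 3 → Fin s → Fin (2 ^ d) =>
          Wt s q u d M v (fun X => (V X).piecewise (z X) (z' X))) -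
        Ex (fun z' : Fin 3 → Fin s → Fin (2 ^ d) =>
          Ws s q u d (KS s μ e₀ d) M v (fun X => (V X).piecewise (z X) (z' X))) : ℝ) : ℂ) =
      ∑ a ∈ Finset.range (TL s μ e₀ d), ((NN s q u d (M 0) / (TL s μ e₀ d : ℝ) : ℝ) : ℂ) *
        ((1 - Kh (KS s μ e₀ d) (TL s μ e₀ d) a) * e ((a : ℝ) * (ρ : ℝ) / (TL s μ e₀ d : ℝ))) *
        (TT q u d (M 0) (v 0) (TL s μ e₀ d) a (V 0) (z 0) *
        (starRingEnd ℂ) (TT q u d (M 1) (v 1) (TL s μ e₀ d) a (V 1) (z 1)) *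
        (starRingEnd ℂ) (TT q u d (M 2) (v 2) (TL s μ e₀ d) a (V 2) (z 2))) := by
  rw [← Ex_sub, Ex_ofReal]
  simp only [diff_W hC hs hd hv hρ]
  rw [ExC_sum]
  refine Finset.sum_congr rfl fun a _ => ?_
  rw [ExC_mul_left]
  congr 1
  unfold TT
  rw [conj_ExC, conj_ExC]
  exact GF.ExC_mul3
    (fun z' : Fin s → Fin (2 ^ d) => e ((a : ℝ) *
      (ff q u d (M 0) (v 0) ((V 0).piecewise (z 0) z') : ℝ) / (TL s μ e₀ d : ℝ)))
    (fun z' : Fin s → Fin (2 ^ d) => (starRingEnd ℂ) (e ((a : ℝ) *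
      (ff q u d (M 1) (v 1) ((V 1).piecewise (z 1) z') : ℝ) / (TL s μ e₀ d : ℝ))))
    (fun z' : Fin s → Fin (2 ^ d) => (starRingEnd ℂ) (e ((a : ℝ) *
      (ff q u d (M 2) (v 2) ((V 2).piecewise (z 2) z') : ℝ) / (TL s μ e₀ d : ℝ))))

end AIN

end Pool.Agent.H366.ZC
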