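import Pool.Agent.H366.GF.An
import Pool.Agent.H366.GF.TauD
import Pool.Agent.H366.GF.FinDefs

/-!
# Circle method over the integers: definitions and basic facts

The slots are the numbers `z = v + q (u 2^d + h)`, `0 ≤ h < 2^d`; so `q u 2^d ≤ z ≤ q (u+1) 2^d`.
-/

set_option autoImplicit false

namespace Pool.Agent.H366.ZC

open Pool.Agent.H366.GF (Ex ExC Ex_mono Ex_nonneg Ex_const ExC_const Ex_add Ex_sub Ex_mul_left
  Ex_mul_right ExC_mul_left ExC_mul_right Ex_sum ExC_sum Ex_comm ExC_comm Ex_equiv ExC_equiv Ex_prod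
  norm_ExC_le Ex_sq_le norm_ExC_sq_le Ex_ofReal Ex_pw pw_pw card_ne card_neC)

/-! ### `e(x) = exp(2 π i x)` -/

/-- `exp (2 π i x)` -/
noncomputable def e (x : ℝ) : ℂ := Complex.exp (2 * Real.pi * x * Complex.I)

lemma e_add (x y : ℝ) : e (x + y) = e x * e y := by
  unfold e
  rw [← Complex.exp_add]
  congr 1
  push_cast
  ring

lemma e_zero : e 0 = 1 := by simp [e]

lemma norm_e (x : ℝ) : ‖e x‖ = 1 := by
  unfold e
  have h : (2 * Real.pi * x * Complex.I : ℂ) = ((2 * Real.pi * x : ℝ) : ℂ) * Complex.I := by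
    push_cast; ring
  rw [h, Complex.norm_exp_ofReal_mul_I]

lemma e_neg (x : ℝ) : e (-x) = (starRingEnd ℂ) (e x) := by
  unfold e
  rw [← Complex.exp_conj]
  congr 1
  rw [map_mul, map_mul, map_mul, map_ofNat, Complex.conj_ofReal, Complex.conj_ofReal,
    Complex.conj_I]
  push_cast
  ring

lemma e_sub (x y : ℝ) : e (x - y) = e x * (starRingEnd ℂ) (e y) := by
  rw [sub_eq_add_neg, e_add, e_neg]

lemma e_int (n : ℤ) : e n = 1 := by
  unfold e
  rw [Complex.exp_eq_one_iff]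
  exact ⟨n, by push_cast; ring⟩

lemma e_nat (n : ℕ) : e n = 1 := by exact_mod_cast e_int n

lemma e_add_int (x : ℝ) (n : ℤ) : e (x + n) = e x := by rw [e_add, e_int, mul_one]

lemma e_mul_nat (x : ℝ) (n : ℕ) : e (n * x) = e x ^ n := by
  unfold e
  rw [← Complex.exp_nat_mul]
  congr 1
  push_cast
  ring

lemma e_eq_one_iff (x : ℝ) : e x = 1 ↔ ∃ n : ℤ, x = n := by
  constructor
  · intro h
    unfold e at h
    rw [Complex.exp_eq_one_iff] at h
    obtain ⟨n, hn⟩ := h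
    refine ⟨n, ?_⟩
    have h1 : (2 * (Real.pi : ℂ) * Complex.I) * (x : ℂ) = (2 * (Real.pi : ℂ) * Complex.I) * (n : ℂ) := by
      rw [mul_comm _ (n : ℂ), ← hn]; ring
    have h2 : (2 * (Real.pi : ℂ) * Complex.I) ≠ 0 := Complex.two_pi_I_ne_zero
    have h3 := mul_left_cancel₀ h2 h1
    exact_mod_cast h3
  · rintro ⟨n, rfl⟩
    exact e_int n

/-- orthogonality -/
lemma sum_e (T : ℕ) (hT : 0 < T) (n : ℤ) :
    ∑ a ∈ Finset.range T, e ((a : ℝ) * (n : ℝ) / (T : ℝ)) = if (T : ℤ) ∣ n then (T : ℂ) else 0 := by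
  have hT0 : (T : ℝ) ≠ 0 := by exact_mod_cast hT.ne'
  have h1 : ∀ a ∈ Finset.range T, e ((a : ℝ) * (n : ℝ) / (T : ℝ)) = e ((n : ℝ) / (T : ℝ)) ^ a := by
    intro a _
    rw [← e_mul_nat]
    congr 1
    ring
  rw [Finset.sum_congr rfl h1]
  split_ifs with h
  · obtain ⟨m, rfl⟩ := h
    have : e ((((T : ℤ) * m : ℤ) : ℝ) / (T : ℝ)) = 1 := by
      rw [e_eq_one_iff]
      refine ⟨m, ?_⟩
      push_cast
      field_simp
    rw [this]
    simp
  · have h2 : e ((n : ℝ) / (T : ℝ)) ≠ 1 := by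
      intro h3
      rw [e_eq_one_iff] at h3
      obtain ⟨m, hm⟩ := h3
      apply h
      refine ⟨m, ?_⟩
      rw [div_eq_iff hT0] at hm
      have : (n : ℝ) = ((m * T : ℤ) : ℝ) := by push_cast; exact hm
      have h4 : n = m * T := by exact_mod_cast this
      rw [h4, mul_comm]
    rw [geom_sum_eq h2]
    have h3 : e ((n : ℝ) / (T : ℝ)) ^ T = 1 := by
      rw [← e_mul_nat, e_eq_one_iff]
      exact ⟨n, by field_simp⟩
    rw [h3, sub_self, zero_div]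

/-! ### slots -/

section Slots

variable {σ : Type}

/-- the entry of the slot `i`: `v_i + q (u 2^d + h_i)`, `0 ≤ h_i < 2^d`. -/
def zz (q u d : ℕ) (v : σ → ℕ) (h : σ → Fin (2 ^ d)) (i : σ) : ℕ :=
  v i + q * (u * 2 ^ d + (h i : ℕ))

/-- admissible base points of the slots -/
structure SlotOK (q : ℕ) (v : σ → ℕ) : Prop where
  le : ∀ i, v i ≤ q
  cop : ∀ i, Nat.Coprime (v i) q

variable {q u d : ℕ} {v : σ → ℕ}

lemma le_zz (h : σ → Fin (2 ^ d)) (i : σ) : q * u * 2 ^ d ≤ zz q u d v h i := by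
  unfold zz
  nlinarith [Nat.zero_le (q * (h i : ℕ)), Nat.zero_le (v i)]

lemma zz_le' (hv : SlotOK q v) (h : σ → Fin (2 ^ d)) (i : σ) :
    zz q u d v h i ≤ q * (u + 1) * 2 ^ d := by
  unfold zz
  have h1 := hv.le i
  have h2 : (h i : ℕ) + 1 ≤ 2 ^ d := (h i).2
  nlinarith [Nat.mul_le_mul_left q h2]

lemma zz_le {e₀ : ℕ} (he : q * (u + 1) ≤ 2 ^ e₀) (hv : SlotOK q v) (h : σ → Fin (2 ^ d)) (i : σ) :
    zz q u d v h i ≤ 2 ^ (d + e₀) := by
  refine (zz_le' hv h i).trans ?_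
  rw [pow_add, mul_comm]
  exact Nat.mul_le_mul_left _ he

lemma zz_pos (hq : 0 < q) (hu : 0 < u) (h : σ → Fin (2 ^ d)) (i : σ) : 0 < zz q u d v h i :=
  lt_of_lt_of_le (by positivity) (le_zz h i)

lemma zz_cop (hv : SlotOK q v) (h : σ → Fin (2 ^ d)) (i : σ) :
    Nat.Coprime (zz q u d v h i) q := by
  unfold zz
  rw [Nat.coprime_add_mul_left_left]
  exact hv.cop i

lemma zz_inj_i (hq : 0 < q) {h h' : σ → Fin (2 ^ d)} {i : σ}
    (hz : zz q u d v h i = zz q u d v h' i) : h i = h' i := by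
  unfold zz at hz
  have h1 := Nat.eq_of_mul_eq_mul_left hq (Nat.add_left_cancel hz)
  exact Fin.ext (Nat.add_left_cancel h1)

lemma zz_inj (hq : 0 < q) {h h' : σ → Fin (2 ^ d)} (hz : ∀ i, zz q u d v h i = zz q u d v h' i) :
    h = h' := funext fun i => zz_inj_i hq (hz i)

lemma prod_zz_pos (hq : 0 < q) (hu : 0 < u) (h : σ → Fin (2 ^ d)) (B : Finset σ) :
    0 < ∏ i ∈ B, zz q u d v h i := Finset.prod_pos fun i _ => zz_pos hq hu h i

lemma prod_zz_le {e₀ : ℕ} (he : q * (u + 1) ≤ 2 ^ e₀) (hv : SlotOK q v) (h : σ → Fin (2 ^ d))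
    (B : Finset σ) : ∏ i ∈ B, zz q u d v h i ≤ 2 ^ (B.card * (d + e₀)) := by
  refine (Finset.prod_le_pow_card B _ _ fun i _ => zz_le he hv h i).trans ?_
  rw [← pow_mul, mul_comm]

lemma le_prod_zz (h : σ → Fin (2 ^ d)) (B : Finset σ) :
    (q * u * 2 ^ d) ^ B.card ≤ ∏ i ∈ B, zz q u d v h i :=
  Finset.pow_card_le_prod B _ _ fun _ _ => le_zz h _

lemma prod_zz_cop (hv : SlotOK q v) (h : σ → Fin (2 ^ d)) (B : Finset σ) :
    Nat.Coprime (∏ i ∈ B, zz q u d v h i) q :=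
  Nat.Coprime.prod_left fun i _ => zz_cop hv h i

lemma prod_v_le (h : σ → Fin (2 ^ d)) (B : Finset σ) :
    ∏ i ∈ B, v i ≤ ∏ i ∈ B, zz q u d v h i :=
  Finset.prod_le_prod' fun i _ => Nat.le_add_right _ _

/-- products of slots are congruent to the products of the base points -/
lemma prod_zz_modEq (h : σ → Fin (2 ^ d)) (B : Finset σ) :
    (∏ i ∈ B, v i) ≡ (∏ i ∈ B, zz q u d v h i) [MOD q] := by
  classical
  induction B using Finset.induction_on with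
  | empty => rfl
  | insert i B hi ih =>
    rw [Finset.prod_insert hi, Finset.prod_insert hi]
    refine Nat.ModEq.mul ?_ ih
    unfold zz
    exact (Nat.modEq_iff_dvd' (Nat.le_add_right _ _)).2 ⟨_, by rw [Nat.add_sub_cancel_left]⟩

/-- a product of slots is `∏ v + q g`. -/
lemma prod_zz_eq (h : σ → Fin (2 ^ d)) (B : Finset σ) :
    ∃ g, ∏ i ∈ B, zz q u d v h i = ∏ i ∈ B, v i + q * g := by
  obtain ⟨g, hg⟩ := (Nat.modEq_iff_dvd' (prod_v_le h B)).1 (prod_zz_modEq (q := q) (u := u) h B)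
  exact ⟨g, by rw [← hg]; exact (Nat.add_sub_cancel' (prod_v_le h B)).symm⟩

end Slots

/-! ### the data -/

/-- The data: three multipliers `M 0`, `M 1`, `M 2` and `q` such that all primes less than `2^κ` and
all prime factors of the multipliers divide `q`. -/
structure Ctx (κ Λ μ q e₀ u : ℕ) (M : Fin 3 → ℕ) : Prop where
  κpos : 0 < κ
  qpos : 0 < q
  upos : 0 < u
  qe : q * (u + 1) ≤ 2 ^ e₀
  small : ∀ p : ℕ, p.Prime → p < 2 ^ κ → p ∣ q
  smooth : ∀ X (p : ℕ), p.Prime → p ∣ M X → p ∣ q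
  Mpos : ∀ X, 0 < M X
  Mle : ∀ X, M X ≤ 2 ^ μ
  cop : Nat.Coprime (M 0) (M 1)
  ratio : ∀ X Y, M X ≤ Λ * M Y

/-- the modulus of the circle method -/
def TL (s μ e₀ d : ℕ) : ℕ := 2 ^ (μ + s * (d + e₀) + 2)

lemma TL_pos (s μ e₀ d : ℕ) : 0 < TL s μ e₀ d := Nat.two_pow_pos _

section TT

variable {s : ℕ}

/-- `(M ∏ z - M ∏ v) / q` -/
def ff (q u d M : ℕ) (v : Fin s → ℕ) (h : Fin s → Fin (2 ^ d)) : ℕ :=
  (M * ∏ i, zz q u d v h i - M * ∏ i, v i) / q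

lemma ff_spec {q u d M : ℕ} {v : Fin s → ℕ} (hq : 0 < q) (h : Fin s → Fin (2 ^ d)) :
    M * ∏ i, zz q u d v h i = M * ∏ i, v i + q * ff q u d M v h := by
  obtain ⟨g, hg⟩ := prod_zz_eq (q := q) (u := u) (v := v) h Finset.univ
  unfold ff
  rw [hg, mul_add, Nat.add_sub_cancel_left]
  have : M * (q * g) / q = M * g := by
    rw [show M * (q * g) = q * (M * g) by ring, Nat.mul_div_cancel_left _ hq]
  rw [this]
  ring

lemma ff_lt {q u d M μ e₀ : ℕ} {v : Fin s → ℕ} (hq : 0 < q) (he : q * (u + 1) ≤ 2 ^ e₀)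
    (hM : M ≤ 2 ^ μ) (hv : SlotOK q v) (h : Fin s → Fin (2 ^ d)) :
    ff q u d M v h ≤ 2 ^ (μ + s * (d + e₀)) := by
  have h1 := ff_spec (u := u) (M := M) (v := v) hq h
  have h2 := prod_zz_le he hv h Finset.univ
  rw [Finset.card_univ, Fintype.card_fin] at h2
  have h3 : ff q u d M v h ≤ q * ff q u d M v h := Nat.le_mul_of_pos_left _ hq
  rw [pow_add]
  calc ff q u d M v h ≤ M * ∏ i, zz q u d v h i := by omega
    _ ≤ 2 ^ μ * 2 ^ (s * (d + e₀)) := Nat.mul_le_mul hM h2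

/-- the averaged exponential sum -/
noncomputable def TT (q u d M : ℕ) (v : Fin s → ℕ) (T a : ℕ) (V : Finset (Fin s))
    (z : Fin s → Fin (2 ^ d)) : ℂ :=
  ExC fun z' : Fin s → Fin (2 ^ d) =>
    e ((a : ℝ) * (ff q u d M v (V.piecewise z z') : ℝ) / (T : ℝ))

end TT

/-- `a / T` is close to a fraction with denominator at most `ρ` -/
def Low (T ρ a : ℕ) : Prop :=
  ∃ r b : ℕ, 1 ≤ r ∧ r ≤ ρ ∧ Nat.Coprime b r ∧ |(r : ℤ) * a - b * T| ≤ ρ

/-- `Low`, with a bound for the common divisor of the denominator and `P` -/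
def LowG (T ρ a P t : ℕ) : Prop :=
  ∃ r b : ℕ, 1 ≤ r ∧ r ≤ ρ ∧ Nat.Coprime b r ∧ |(r : ℤ) * a - b * T| ≤ ρ ∧ Nat.gcd r P ≤ t

/-- the real size of `M ∏ z / q` -/
noncomputable def NN (s q u d M : ℕ) : ℝ := (M : ℝ) * (q : ℝ) ^ (s - 1) * ((u : ℝ) * 2 ^ d) ^ s

open Classical in
/-- the weight: `NN` on the solutions of `M₀ ∏ z₀ = M₁ ∏ z₁ + M₂ ∏ z₂`. -/
noncomputable def Wt (s q u d : ℕ) (M : Fin 3 → ℕ) (v : Fin 3 → Fin s → ℕ)
    (z : Fin 3 → Fin s → Fin (2 ^ d)) : ℝ :=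
  if M 0 * ∏ i, zz q u d (v 0) (z 0) i =
    M 1 * ∏ i, zz q u d (v 1) (z 1) i + M 2 * ∏ i, zz q u d (v 2) (z 2) i
  then NN s q u d (M 0) else 0

open Classical in
/-- the smooth weight -/
noncomputable def Ws (s q u d K : ℕ) (M : Fin 3 → ℕ) (v : Fin 3 → Fin s → ℕ)
    (z : Fin 3 → Fin s → Fin (2 ^ d)) : ℝ :=
  if |((M 0 * ∏ i, zz q u d (v 0) (z 0) i : ℕ) : ℤ) -
    ((M 1 * ∏ i, zz q u d (v 1) (z 1) i + M 2 * ∏ i, zz q u d (v 2) (z 2) i : ℕ) : ℤ)| ≤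
      ((q * K : ℕ) : ℤ)
  then NN s q u d (M 0) / (2 * K + 1) else 0

/-- the length of the smoothing -/
def KS (s μ e₀ d : ℕ) : ℕ := 2 ^ (μ + s * (d + e₀) + 2 - 3 * (d / 8))

/-- the congruence condition -/
def Rel (s q : ℕ) (M : Fin 3 → ℕ) (v : Fin 3 → Fin s → ℕ) : Prop :=
  (M 0 * ∏ i, v 0 i) ≡ (M 1 * ∏ i, v 1 i + M 2 * ∏ i, v 2 i) [MOD q]

end Pool.Agent.H366.ZC
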