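import Pool.Agent.H366.ZC.Mot

/-! # Inhomogeneous identities with real coefficients between rational numbers -/

set_option autoImplicit false

namespace Pool.Agent.H366.ZC

open H39Gon

namespace MotN

section hm2

variable {V V' : Type} [AddCommGroup V] [AddCommGroup V'] {Y Z : Type} [AddCommGroup Y]
  [AddCommGroup Z] {k : ℕ}

theorem Hm.map {f : V → Y} (hf : Hm k f) (L : Y →ₗ[ℤ] Z) : Hm k (fun s => L (f s)) := by
  obtain ⟨ψ, hψ⟩ := hf
  exact ⟨L.compMultilinearMap ψ, fun s => by simp only [hψ]; rfl⟩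

theorem Hm.comap {f : V → Y} (hf : Hm k f) (L : V' →ₗ[ℤ] V) : Hm k (fun s => f (L s)) := by
  obtain ⟨ψ, hψ⟩ := hf
  exact ⟨ψ.compLinearMap fun _ => L, fun s => by simp only [hψ]; rfl⟩

theorem Hm.add {f g : V → Y} (hf : Hm k f) (hg : Hm k g) : Hm k (fun s => f s + g s) := by
  obtain ⟨ψ, hψ⟩ := hf
  obtain ⟨χ, hχ⟩ := hg
  exact ⟨ψ + χ, fun s => by simp only [hψ, hχ]; rfl⟩

theorem Hm.zero : Hm k (fun _ : V => (0 : Y)) := ⟨0, fun _ => rfl⟩

theorem Hm.sum {ι : Type} (S : Finset ι) {f : ι → V → Y} (hf : ∀ i ∈ S, Hm k (f i)) :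
    Hm k (fun s => ∑ i ∈ S, f i s) := by
  classical
  induction S using Finset.induction_on with
  | empty => simpa using (Hm.zero (V := V) (Y := Y) (k := k))
  | insert a S ha ih =>
    have h1 := ih fun i hi => hf i (Finset.mem_insert_of_mem hi)
    have h2 := hf a (Finset.mem_insert_self _ _)
    refine (funext fun s => ?_ : (fun s => f a s + ∑ i ∈ S, f i s) =
      fun s => ∑ i ∈ insert a S, f i s) ▸ h2.add h1
    rw [Finset.sum_insert ha]

/-- multiplication by a linear form -/
theorem Hm.lin {f : V → ℝ} (hf : Hm k f) (c : V →ₗ[ℤ] ℤ) :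
    Hm (k + 1) (fun s => (c s : ℝ) * f s) := by
  let L : ℝ →ₗ[ℤ] (V →ₗ[ℤ] ℝ) := (AddMonoidHom.mk' (fun y => (AddMonoidHom.mk'
    (fun t => (c t : ℝ) * y) (fun x z => by
      rw [map_add]; push_cast; ring)).toIntLinearMap) (fun x y => by
        ext t
        show (c t : ℝ) * (x + y) = (c t : ℝ) * x + (c t : ℝ) * y
        ring)).toIntLinearMap
  exact (hf.map L).uncurry

theorem Hm.lin_pow {f : V → ℝ} (hf : Hm k f) (c : V →ₗ[ℤ] ℤ) (r : ℕ) :
    Hm (k + r) (fun s => (c s : ℝ) ^ r * f s) := by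
  induction r with
  | zero => simpa using hf
  | succ r ih =>
    have h := ih.lin c
    have e : (fun s => (c s : ℝ) * ((c s : ℝ) ^ r * f s)) = fun s => (c s : ℝ) ^ (r + 1) * f s := by
      funext s; ring
    rw [e] at h
    exact h

end hm2

end MotN

open MotN in
/-- inhomogeneous version of [TS1] -/
theorem TSI (N : ℕ) : ∀ (K : ℕ) (p : ℕ → UV ℚ → (UV ℚ →ₗ[ℤ] ℝ)) (f : ℕ → ℕ → UV ℚ → ℝ),
    (∀ i < K, Hm (i + 1) (p i)) → (∀ i < K, ∀ j < N, Hm i (f i j)) →
    (∀ x : ℚ, 0 < x → x < 1 → (∑ i ∈ Finset.range K, p i (cl x) (cl (1 - x))) +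
      ∑ j ∈ Finset.range N, SV (2 * j + 3) (x : ℝ) * ∑ i ∈ Finset.range K, f i j (cl x) = 0) →
    (∀ i < K, ∀ s t : UV ℚ, p i s t = 0) ∧ ∀ i < K, ∀ j < N, ∀ s : UV ℚ, f i j s = 0 := by
  intro K
  induction K with
  | zero =>
    intro p f _ _ _
    exact ⟨fun i hi => absurd hi (Nat.not_lt_zero _), fun i hi => absurd hi (Nat.not_lt_zero _)⟩
  | succ K ih =>
    intro p f hp hf h
    -- the coordinates
    let cf : ((UV ℚ × UV ℚ) × ℤ) →ₗ[ℤ] UV ℚ :=
      (LinearMap.fst ℤ (UV ℚ) (UV ℚ)) ∘ₗ (LinearMap.fst ℤ (UV ℚ × UV ℚ) ℤ)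
    let cg : ((UV ℚ × UV ℚ) × ℤ) →ₗ[ℤ] UV ℚ :=
      (LinearMap.snd ℤ (UV ℚ) (UV ℚ)) ∘ₗ (LinearMap.fst ℤ (UV ℚ × UV ℚ) ℤ)
    let cc : ((UV ℚ × UV ℚ) × ℤ) →ₗ[ℤ] ℤ := LinearMap.snd ℤ (UV ℚ × UV ℚ) ℤ
    let F0 : ((UV ℚ × UV ℚ) × ℤ) → ℝ := fun s =>
      ∑ i ∈ Finset.range (K + 1), (cc s : ℝ) ^ (K - i) * p i (cf s) (cg s)
    let F1 : ℕ → ((UV ℚ × UV ℚ) × ℤ) → ℝ := fun j s =>
      ∑ i ∈ Finset.range (K + 1), (cc s : ℝ) ^ (K - i) * f i j (cf s)
    have hF0 : Hm (K + 2) F0 := by
      refine Hm.sum _ fun i hi => ?_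
      have hi' := Finset.mem_range.1 hi
      have h1 := ((hp i hi').comap cf).map (LinearMap.lcomp ℤ ℝ cg)
      have h2 := h1.uncurry.lin_pow cc (K - i)
      have e : i + 1 + 1 + (K - i) = K + 2 := by omega
      rw [e] at h2
      exact h2
    have hF1 : ∀ j < N, Hm K (F1 j) := by
      intro j hj
      refine Hm.sum _ fun i hi => ?_
      have hi' := Finset.mem_range.1 hi
      have h2 := ((hf i hi' j hj).comap cf).lin_pow cc (K - i)
      have e : i + (K - i) = K := by omega
      rw [e] at h2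
      exact h2
    let dg : Fin (N + 1) → ℕ := fun i => if i = 0 then K + 2 else K
    let FF : Fin (N + 1) → ((UV ℚ × UV ℚ) × ℤ) → ℝ := Fin.cases F0 (fun j => F1 j)
    have hFF : ∀ i, Hm (dg i) (FF i) := by
      intro i
      refine Fin.cases ?_ (fun j => ?_) i
      · exact hF0
      · have : dg j.succ = K := if_neg (Fin.succ_ne_zero j)
        rw [this]
        exact hF1 j j.2
    choose Q hQ using hFF
    obtain ⟨κ₁, hκ⟩ := KEYZ2 (Fin (N + 1)) (K + 2) dg
      (by
        intro i
        show (if i = 0 then K + 2 else K) ≤ K + 2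
        split_ifs <;> omega)
      (fun i => phi (i : ℕ)) (fun i => phi_continuousOn _)
      (fun h hh => phi_indep N _ h hh) Q
      (by
        intro x hx0 hx1
        rw [Fin.sum_univ_succ]
        have e0 : phi ((0 : Fin (N + 1)) : ℕ) (x : ℝ) = 1 := by
          unfold phi
          rw [if_pos (by simp)]
        have e1 : ∀ j : Fin N, phi ((Fin.succ j : Fin (N + 1)) : ℕ) (x : ℝ) =
            SV (2 * (j : ℕ) + 3) (x : ℝ) := by
          intro j
          unfold phi
          rw [if_neg (by simp)]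
          have : 2 * ((Fin.succ j : Fin (N + 1)) : ℕ) + 1 = 2 * (j : ℕ) + 3 := by
            rw [Fin.val_succ]; ring
          rw [this]
        rw [e0, one_mul, ← hQ 0]
        have e2 : FF 0 ((cl x, cl (1 - x)), 1) =
            ∑ i ∈ Finset.range (K + 1), p i (cl x) (cl (1 - x)) := by
          show ∑ i ∈ Finset.range (K + 1), (((1 : ℤ) : ℤ) : ℝ) ^ (K - i) *
            p i (cl x) (cl (1 - x)) = _
          refine Finset.sum_congr rfl fun i _ => ?_
          rw [Int.cast_one, one_pow, one_mul]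
        have e3 : ∀ j : Fin N, FF j.succ ((cl x, cl (1 - x)), 1) =
            ∑ i ∈ Finset.range (K + 1), f i j (cl x) := by
          intro j
          show ∑ i ∈ Finset.range (K + 1), (((1 : ℤ) : ℤ) : ℝ) ^ (K - i) * f i j (cl x) = _
          refine Finset.sum_congr rfl fun i _ => ?_
          rw [Int.cast_one, one_pow, one_mul]
        rw [e2, ← h x hx0 hx1, Finset.sum_range (n := N)]
        refine congrArg _ (Finset.sum_congr rfl fun j _ => ?_)
        rw [e1, ← hQ j.succ, e3])
    have hval0 : ∀ a b : UV ℚ, FF 0 ((a, b), 0) = p K a b := by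
      intro a b
      show ∑ i ∈ Finset.range (K + 1), (((0 : ℤ) : ℤ) : ℝ) ^ (K - i) * p i a b = _
      rw [Finset.sum_eq_single K]
      · rw [Nat.sub_self, pow_zero, one_mul]
      · intro i hi hiK
        have : i < K := lt_of_le_of_ne (Nat.lt_succ_iff.1 (Finset.mem_range.1 hi)) hiK
        rw [Int.cast_zero, zero_pow (by omega), zero_mul]
      · intro hK
        exact absurd (Finset.mem_range.2 (Nat.lt_succ_self K)) hK
    have hval1 : ∀ (j : Fin N) (a b : UV ℚ), FF j.succ ((a, b), 0) = f K j a := by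
      intro j a b
      show ∑ i ∈ Finset.range (K + 1), (((0 : ℤ) : ℤ) : ℝ) ^ (K - i) * f i j a = _
      rw [Finset.sum_eq_single K]
      · rw [Nat.sub_self, pow_zero, one_mul]
      · intro i hi hiK
        have : i < K := lt_of_le_of_ne (Nat.lt_succ_iff.1 (Finset.mem_range.1 hi)) hiK
        rw [Int.cast_zero, zero_pow (by omega), zero_mul]
      · intro hK
        exact absurd (Finset.mem_range.2 (Nat.lt_succ_self K)) hK
    -- the top degree
    have htop0 : ∀ s t : UV ℚ, p K s t = 0 := by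
      obtain ⟨P, hP⟩ := hp K (Nat.lt_succ_self K)
      intro s t
      rw [hP s]
      refine finZ1 P κ₁ (fun κ hk A B C ht => ?_) s t
      have := hκ κ hk A B C ht.hA ht.hB ht.hC ht.hAB ht.hAC ht.hBC ht.small ht.two ht.B1 ht.C1 0
      rw [← hQ 0, hval0, hP] at this
      exact this
    have htop1 : ∀ j < N, ∀ s : UV ℚ, f K j s = 0 := by
      intro j hj s
      obtain ⟨R, hR⟩ := hf K (Nat.lt_succ_self K) j hj
      rw [hR s]
      refine finZ2 R κ₁ (fun κ hk A B C ht => ?_) s
      have := hκ κ hk A B C ht.hA ht.hB ht.hC ht.hAB ht.hAC ht.hBC ht.small ht.two ht.B1 ht.C1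
        (Fin.succ ⟨j, hj⟩)
      rw [← hQ (Fin.succ ⟨j, hj⟩), hval1] at this
      rw [← hR]
      exact this
    obtain ⟨h1, h2⟩ := ih p f (fun i hi => hp i (by omega)) (fun i hi => hf i (by omega))
      (by
        intro x hx0 hx1
        rw [← h x hx0 hx1, Finset.sum_range_succ, htop0, add_zero]
        refine congrArg _ (Finset.sum_congr rfl fun j hj => ?_)
        rw [Finset.sum_range_succ, htop1 j (Finset.mem_range.1 hj), add_zero])
    refine ⟨fun i hi => ?_, fun i hi => ?_⟩
    · rcases Nat.lt_succ_iff_lt_or_eq.1 hi with h' | rfl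
      · exact h1 i h'
      · exact htop0
    · rcases Nat.lt_succ_iff_lt_or_eq.1 hi with h' | rfl
      · exact h2 i h'
      · exact htop1

section nomixed

variable {C : Type} [AddCommGroup C] [Module ℚ C] (M : MotivicRatPer C)

open MotN in
/-- there are no functional equations between classical polylogarithms of different weights at
rational arguments -/
theorem noMixed_rat (m : ℕ) (φ : ℕ → (C →ₗ[ℚ] ℚ))
    (h : ∀ x : ℚ, x ≠ 0 → ∑ i ∈ Finset.Icc 2 m, φ i (M.Li i x) = 0) :
    ∀ i ∈ Finset.Icc 2 m, ∀ x : ℚ, x ≠ 0 → φ i (M.Li i x) = 0 := by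
  -- index: i = k + 2, k < K = m - 1
  obtain ⟨K, hK⟩ : ∃ K : ℕ, K = m - 1 := ⟨_, rfl⟩
  have hrep := fun k : ℕ => repB M k ((Algebra.linearMap ℚ ℝ) ∘ₗ φ (k + 2))
  choose p f hp hpp hf hval using hrep
  -- the forms of given degree
  let g : ℕ → ℕ → UV ℚ → ℝ := fun i j => if i + (2 * j + 1) < K then f (i + (2 * j + 1)) j else 0
  have hTS := TSI K K p g (fun i _ => hp i) (by
      intro i _ j _
      simp only [g]
      split_ifs with h1
      · have := hf (i + (2 * j + 1)) j (by omega)
        rwa [Nat.add_sub_cancel] at this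
      · exact Hm.zero) (by
      intro x hx0 hx1
      have h1 : ((∑ i ∈ Finset.Icc 2 m, φ i (M.Li i x) : ℚ) : ℝ) = 0 := by
        rw [h x hx0.ne', Rat.cast_zero]
      rw [← h1, Rat.cast_sum]
      have h2 : Finset.Icc 2 m = (Finset.range K).map ⟨fun k => k + 2, fun a b hab => by
          simpa using hab⟩ := by
        ext a
        rw [Finset.mem_Icc, Finset.mem_map]
        constructor
        · intro ha
          exact ⟨a - 2, Finset.mem_range.2 (by omega), by
            show a - 2 + 2 = a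
            omega⟩
        · rintro ⟨b, hb, rfl⟩
          have := Finset.mem_range.1 hb
          show 2 ≤ b + 2 ∧ b + 2 ≤ m
          omega
      rw [h2, Finset.sum_map]
      have h3 : ∀ k ∈ Finset.range K, ((φ (k + 2) (M.Li (k + 2) x) : ℚ) : ℝ) =
          p k (cl x) (cl (1 - x)) + ∑ j ∈ Finset.range K,
            SV (2 * j + 3) (x : ℝ) * (if 2 * j + 1 ≤ k then f k j (cl x) else 0) := by
        intro k hk
        have hk' := Finset.mem_range.1 hk
        have h4 := hval k x hx0.ne'
        have h5 : ((φ (k + 2) (M.Li (k + 2) x) : ℚ) : ℝ) =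
          ((Algebra.linearMap ℚ ℝ) ∘ₗ φ (k + 2)) (M.Li (k + 2) x) := rfl
        rw [h5, h4]
        refine congrArg _ ?_
        have h6 : ∀ j ∈ Finset.range ((k + 1) / 2), M.per (M.Li (2 * j + 3) x) • f k j (cl x) =
            SV (2 * j + 3) (x : ℝ) * (if 2 * j + 1 ≤ k then f k j (cl x) else 0) := by
          intro j hj
          have hj' := Finset.mem_range.1 hj
          rw [if_pos (by omega), M.per_Li (2 * j + 3) x ⟨j + 1, by ring⟩ (by omega) hx0 hx1.le,
            smul_eq_mul]
        rw [Finset.sum_congr rfl h6]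
        refine Finset.sum_subset (fun j hj => ?_) (fun j hj hj2 => ?_)
        · have := Finset.mem_range.1 hj
          exact Finset.mem_range.2 (by omega)
        · rw [Finset.mem_range] at hj2
          rw [if_neg (by omega), mul_zero]
      have h7 : ∑ k ∈ Finset.range K, ((φ (k + 2) (M.Li (k + 2) x) : ℚ) : ℝ) =
          ∑ k ∈ Finset.range K, p k (cl x) (cl (1 - x)) + ∑ j ∈ Finset.range K,
            SV (2 * j + 3) (x : ℝ) * ∑ k ∈ Finset.range K,
              (if 2 * j + 1 ≤ k then f k j (cl x) else 0) := by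
        rw [Finset.sum_congr rfl h3, Finset.sum_add_distrib, Finset.sum_comm]
        refine congrArg _ (Finset.sum_congr rfl fun j _ => ?_)
        rw [Finset.mul_sum]
      refine Eq.trans ?_ h7.symm
      refine congrArg _ (Finset.sum_congr rfl fun j _ => congrArg _ ?_)
      -- shift of the index
      rw [← Finset.sum_filter]
      have h8 : ∀ i ∈ Finset.range K, g i j (cl x) =
          if i + (2 * j + 1) < K then f (i + (2 * j + 1)) j (cl x) else 0 := by
        intro i _
        simp only [g]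
        split_ifs
        · rfl
        · rfl
      rw [Finset.sum_congr rfl h8, ← Finset.sum_filter]
      refine Finset.sum_bij (fun i _ => i + (2 * j + 1)) ?_ ?_ ?_ ?_
      · intro i hi
        rw [Finset.mem_filter, Finset.mem_range] at hi
        rw [Finset.mem_filter, Finset.mem_range]
        omega
      · intro i _ i' _ hii
        omega
      · intro k hk
        rw [Finset.mem_filter, Finset.mem_range] at hk
        exact ⟨k - (2 * j + 1), by
          rw [Finset.mem_filter, Finset.mem_range]; omega, by omega⟩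
      · intro i _
        rfl)
  obtain ⟨h1, h2⟩ := hTS
  intro i hi x hx
  rw [Finset.mem_Icc] at hi
  obtain ⟨k, rfl⟩ : ∃ k, i = k + 2 := ⟨i - 2, by omega⟩
  have h4 := hval k x hx
  rw [h1 k (by omega), zero_add] at h4
  have h5 : ∑ j ∈ Finset.range ((k + 1) / 2), M.per (M.Li (2 * j + 3) x) • f k j (cl x) = 0 := by
    refine Finset.sum_eq_zero fun j hj => ?_
    have hj' := Finset.mem_range.1 hj
    have h6 := h2 (k - (2 * j + 1)) (by omega) j (by omega) (cl x)
    simp only [g] at h6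
    rw [if_pos (by omega), Nat.sub_add_cancel (by omega)] at h6
    rw [h6, smul_zero]
  rw [h5] at h4
  have h6 : ((φ (k + 2) (M.Li (k + 2) x) : ℚ) : ℝ) = 0 := h4
  exact_mod_cast h6

end nomixed

end Pool.Agent.H366.ZC
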