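import Pool.Agent.H366.ZC.SVDef

/-! # [POLY] independence of the single-valued polylogarithms -/

set_option autoImplicit false

namespace Pool.Agent.H366.ZC

namespace PolyN

open Filter Topology Polynomial

/-- complex polylogarithm -/
noncomputable def PC (k : ℕ) (z : ℂ) : ℂ := ∑' m : ℕ, z ^ (m + 1) / ((m : ℂ) + 1) ^ k

theorem PC_ofReal (k : ℕ) (x : ℝ) : PC k (x : ℂ) = ((PL k x : ℝ) : ℂ) := by
  unfold PC PL
  rw [Complex.ofReal_tsum]
  congr 1
  ext m
  push_cast
  ring

theorem norm_nat_succ (m : ℕ) : ‖(m : ℂ) + 1‖ = (m : ℝ) + 1 := by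
  have h : ((m : ℂ) + 1) = (((m + 1 : ℕ) : ℂ)) := by push_cast; ring
  rw [h, Complex.norm_natCast]
  push_cast
  ring

theorem PC_hasDerivAt (k : ℕ) (z : ℂ) (hz : ‖z‖ < 1) :
    HasDerivAt (PC (k + 1)) (∑' m : ℕ, z ^ m / ((m : ℂ) + 1) ^ k) z := by
  obtain ⟨r, hr1, hr2⟩ := exists_between hz
  have h0r : 0 < r := (norm_nonneg z).trans_lt hr1
  have h1 : ∀ m : ℕ, ((m : ℂ) + 1) ≠ 0 := fun m => by exact_mod_cast Nat.succ_ne_zero m
  refine hasDerivAt_tsum_of_isPreconnected (𝕜 := ℂ) (F := ℂ) (u := fun m : ℕ => r ^ m)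
    (g := fun (m : ℕ) (z : ℂ) => z ^ (m + 1) / ((m : ℂ) + 1) ^ (k + 1))
    (g' := fun (m : ℕ) (z : ℂ) => z ^ m / ((m : ℂ) + 1) ^ k) (y₀ := (0 : ℂ))
    (t := Metric.ball (0 : ℂ) r) (summable_geometric_of_lt_one h0r.le hr2) Metric.isOpen_ball
    (convex_ball (0 : ℂ) r).isPreconnected ?_ ?_ (Metric.mem_ball_self h0r) ?_ ?_
  · intro m y _
    have h2 := (hasDerivAt_pow (m + 1) y).div_const (((m : ℂ) + 1) ^ (k + 1))
    refine h2.congr_deriv ?_
    have h3 := h1 m
    push_cast
    field_simp
    ring
  · intro m y hy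
    rw [mem_ball_zero_iff] at hy
    rw [norm_div, norm_pow, norm_pow, norm_nat_succ]
    have h2 : (1 : ℝ) ≤ ((m : ℝ) + 1) ^ k := one_le_pow₀ (by linarith [Nat.cast_nonneg (α := ℝ) m])
    have h3 : ‖y‖ ^ m ≤ r ^ m := by gcongr
    refine le_trans (div_le_self (by positivity) h2) h3
  · simp only [ne_eq, Nat.add_eq_zero_iff, one_ne_zero, and_false, not_false_eq_true, zero_pow,
      zero_div]
    exact summable_zero
  · rw [mem_ball_zero_iff]
    exact hr1

theorem PC_diff (k : ℕ) : DifferentiableOn ℂ (PC (k + 1)) (Metric.ball 0 1) := by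
  intro z hz
  rw [mem_ball_zero_iff] at hz
  exact (PC_hasDerivAt k z hz).differentiableAt.differentiableWithinAt

theorem PC_deriv (k : ℕ) (z : ℂ) (hz : ‖z‖ < 1) (hz0 : z ≠ 0) :
    HasDerivAt (PC (k + 1)) (PC k z / z) z := by
  have h := PC_hasDerivAt k z hz
  refine h.congr_deriv ?_
  rw [eq_div_iff hz0, PC, ← tsum_mul_right]
  congr 1
  ext m
  ring

theorem one_sub_slit (z : ℂ) (hz : ‖z‖ < 1) : 1 - z ∈ Complex.slitPlane := by
  left
  have h1 : z.re ≤ ‖z‖ := Complex.re_le_norm z
  simp only [Complex.sub_re, Complex.one_re]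
  linarith

/-- `log (1 - z)` -/
noncomputable def LG (z : ℂ) : ℂ := Complex.log (1 - z)

theorem LG_deriv (z : ℂ) (hz : ‖z‖ < 1) : HasDerivAt LG (-(1 - z)⁻¹) z := by
  have h1 : HasDerivAt (fun z : ℂ => 1 - z) (-1) z := by
    simpa using (hasDerivAt_id z).const_sub 1
  have h2 := h1.clog (one_sub_slit z hz)
  refine h2.congr_deriv ?_
  rw [neg_div, one_div]

theorem LG_diff : DifferentiableOn ℂ LG (Metric.ball 0 1) := by
  intro z hz
  rw [mem_ball_zero_iff] at hz
  exact (LG_deriv z hz).differentiableAt.differentiableWithinAt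

theorem LG_ofReal (x : ℝ) (hx : x ≤ 1) : LG (x : ℂ) = ((Real.log (1 - x) : ℝ) : ℂ) := by
  unfold LG
  rw [Complex.ofReal_log (by linarith)]
  push_cast
  rfl

/-- `-(log (1 - z))^m / m!` -/
noncomputable def Bc (m : ℕ) (z : ℂ) : ℂ := -(LG z ^ m / (m.factorial : ℂ))

theorem Bc_deriv (m : ℕ) (z : ℂ) (hz : ‖z‖ < 1) :
    HasDerivAt (Bc (m + 1)) (-(Bc m z / (1 - z))) z := by
  have h1 := (((LG_deriv z hz).pow (m + 1)).div_const ((m + 1).factorial : ℂ)).neg
  refine h1.congr_deriv ?_
  unfold Bc
  have h2 : ((m.factorial : ℕ) : ℂ) ≠ 0 := by exact_mod_cast m.factorial_ne_zero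
  have h3 : ((m : ℂ) + 1) ≠ 0 := by exact_mod_cast Nat.succ_ne_zero m
  have h4 : (1 - z) ≠ 0 := Complex.slitPlane_ne_zero (one_sub_slit z hz)
  rw [Nat.factorial_succ, Nat.add_sub_cancel]
  push_cast
  field_simp

theorem Bc_diff (m : ℕ) : DifferentiableOn ℂ (Bc m) (Metric.ball 0 1) := by
  unfold Bc
  exact ((LG_diff.pow m).div_const _).neg

/-- expansion of the polylogarithms at `1` -/
theorem decomp (m : ℕ) : ∃ A : ℂ → ℂ, DifferentiableOn ℂ A (Metric.ball 0 1) ∧
    (m = 0 → ∀ z, A z = 0) ∧ ∀ x : ℝ, 0 < x → x < 1 →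
      ((PL (m + 1) (1 - x) : ℝ) : ℂ) = A x + ((Real.log x : ℝ) : ℂ) * Bc m x := by
  induction m with
  | zero =>
    refine ⟨fun _ => 0, differentiableOn_const _, fun _ _ => rfl, ?_⟩
    intro x hx0 hx1
    have h1 := (Real.hasSum_pow_div_log_of_abs_lt_one (x := 1 - x)
      (by rw [abs_lt]; constructor <;> linarith)).tsum_eq
    have h2 : PL (0 + 1) (1 - x) = -Real.log x := by
      unfold PL
      rw [zero_add]
      simp only [pow_one]
      rw [h1]
      ring_nf
    rw [h2]
    unfold Bc
    simp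
  | succ m ih =>
    obtain ⟨A, hA, -, hAx⟩ := ih
    have hB0 : Bc (m + 1) 0 = 0 := by
      unfold Bc LG
      simp
    have hslope : DifferentiableOn ℂ (dslope (Bc (m + 1)) 0) (Metric.ball 0 1) :=
      (Complex.differentiableOn_dslope (Metric.ball_mem_nhds 0 one_pos)).2 (Bc_diff (m + 1))
    have hf : DifferentiableOn ℂ (fun z => -(A z / (1 - z)) - dslope (Bc (m + 1)) 0 z)
        (Metric.ball 0 1) := by
      refine DifferentiableOn.sub (DifferentiableOn.neg (DifferentiableOn.div hA ?_ ?_)) hslope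
      · exact (differentiableOn_const _).sub differentiableOn_id
      · intro z hz
        rw [mem_ball_zero_iff] at hz
        exact Complex.slitPlane_ne_zero (one_sub_slit z hz)
    obtain ⟨G, hG⟩ := hf.isExactOn_ball
    have hGd : DifferentiableOn ℂ G (Metric.ball 0 1) := fun z hz =>
      (hG z hz).differentiableAt.differentiableWithinAt
    -- the difference is constant
    set Δ : ℝ → ℂ := fun x => PC (m + 2) ((1 : ℂ) - x) - G x - ((Real.log x : ℝ) : ℂ) * Bc (m + 1) x
      with hΔ
    have hder : ∀ x ∈ Set.Ioo (0 : ℝ) 1, HasDerivAt Δ 0 x := by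
      intro x hx
      have hx0 : 0 < x := hx.1
      have hx1 : x < 1 := hx.2
      have hxn : ‖(x : ℂ)‖ < 1 := by
        rw [Complex.norm_real, Real.norm_eq_abs, abs_of_pos hx0]; exact hx1
      have hxn' : ‖(1 : ℂ) - x‖ < 1 := by
        have : (1 : ℂ) - x = ((1 - x : ℝ) : ℂ) := by push_cast; ring
        rw [this, Complex.norm_real, Real.norm_eq_abs, abs_of_pos (by linarith)]
        linarith
      have hne : (1 : ℂ) - x ≠ 0 := Complex.slitPlane_ne_zero (one_sub_slit _ hxn)
      have hxne : (x : ℂ) ≠ 0 := by exact_mod_cast hx0.ne'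
      have h1 : HasDerivAt (fun y : ℝ => PC (m + 2) ((1 : ℂ) - y))
          (-(PC (m + 1) ((1 : ℂ) - x) / ((1 : ℂ) - x))) x := by
        have h2 : HasDerivAt (fun z : ℂ => (1 : ℂ) - z) (-1) (x : ℂ) := by
          simpa using (hasDerivAt_id (x : ℂ)).const_sub 1
        have h3 := (PC_deriv (m + 1) ((1 : ℂ) - x) hxn' hne).comp (x : ℂ) h2
        have h4 := h3.comp_ofReal
        refine h4.congr_deriv ?_
        ring
      have h5 := (hG (x : ℂ) (by rw [mem_ball_zero_iff]; exact hxn)).comp_ofReal
      have h6 := (Bc_deriv m (x : ℂ) hxn).comp_ofReal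
      have h7 : HasDerivAt (fun y : ℝ => ((Real.log y : ℝ) : ℂ)) (((x⁻¹ : ℝ)) : ℂ) x :=
        (Real.hasDerivAt_log hx0.ne').ofReal_comp
      have h8 := (h1.sub h5).sub (h7.mul h6)
      refine h8.congr_deriv ?_
      have h9 : dslope (Bc (m + 1)) 0 (x : ℂ) = Bc (m + 1) x / x := by
        rw [dslope_of_ne _ hxne, slope_def_field, hB0, sub_zero, sub_zero]
      have h10 : PC (m + 1) ((1 : ℂ) - x) = A x + ((Real.log x : ℝ) : ℂ) * Bc m x := by
        rw [← hAx x hx0 hx1, ← PC_ofReal]
        congr 1
        push_cast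
        ring
      simp only [h9, h10]
      push_cast
      field_simp
      ring
    have hconst : ∀ x ∈ Set.Ioo (0 : ℝ) 1, Δ x = Δ (1 / 2) := by
      intro x hx
      refine isOpen_Ioo.is_const_of_deriv_eq_zero isPreconnected_Ioo
        (fun y hy => (hder y hy).differentiableAt.differentiableWithinAt)
        (fun y hy => (hder y hy).deriv) hx ?_
      constructor <;> norm_num
    refine ⟨fun z => G z + Δ (1 / 2), hGd.add (differentiableOn_const _), fun h => ?_, ?_⟩
    · exact absurd h (Nat.succ_ne_zero m)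
    · intro x hx0 hx1
      have h1 := hconst x ⟨hx0, hx1⟩
      rw [← h1]
      simp only [hΔ]
      have h2 : PC (m + 2) ((1 : ℂ) - x) = ((PL (m + 1 + 1) (1 - x) : ℝ) : ℂ) := by
        rw [← PC_ofReal]
        push_cast
        rfl
      rw [h2]
      ring

/-- powers of the logarithm are small compared with `1 / t` -/
theorem log_pow_mul (s : ℕ) :
    Tendsto (fun t : ℝ => ((Real.log t : ℝ) : ℂ) ^ s * (t : ℂ)) (𝓝[>] (0 : ℝ)) (𝓝 0) := by
  rw [tendsto_zero_iff_norm_tendsto_zero]
  have h1 : Tendsto (fun t : ℝ => -Real.log t) (𝓝[>] (0 : ℝ)) atTop :=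
    tendsto_neg_atBot_atTop.comp Real.tendsto_log_nhdsGT_zero
  have h2 := (Real.tendsto_pow_mul_exp_neg_atTop_nhds_zero s).comp h1
  refine h2.congr' ?_
  filter_upwards [Ioo_mem_nhdsGT (show (0 : ℝ) < 1 by norm_num)] with t ht
  have hlog : Real.log t < 0 := Real.log_neg ht.1 ht.2
  simp only [Function.comp_apply, neg_neg, Real.exp_log ht.1]
  rw [norm_mul, norm_pow, Complex.norm_real, Complex.norm_real, Real.norm_eq_abs, Real.norm_eq_abs,
    abs_of_neg hlog, abs_of_pos ht.1]

theorem log_norm_tendsto :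
    Tendsto (fun t : ℝ => ‖((Real.log t : ℝ) : ℂ)‖) (𝓝[>] (0 : ℝ)) atTop := by
  have h1 : Tendsto (fun t : ℝ => -Real.log t) (𝓝[>] (0 : ℝ)) atTop :=
    tendsto_neg_atBot_atTop.comp Real.tendsto_log_nhdsGT_zero
  refine h1.congr' ?_
  filter_upwards [Ioo_mem_nhdsGT (show (0 : ℝ) < 1 by norm_num)] with t ht
  have hlog : Real.log t < 0 := Real.log_neg ht.1 ht.2
  rw [Complex.norm_real, Real.norm_eq_abs, abs_of_neg hlog]

theorem ofReal_tendsto : Tendsto (fun t : ℝ => (t : ℂ)) (𝓝[>] (0 : ℝ)) (𝓝 (0 : ℂ)) := by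
  have h : Tendsto (fun t : ℝ => (t : ℂ)) (𝓝 (0 : ℝ)) (𝓝 ((0 : ℝ) : ℂ)) :=
    Complex.continuous_ofReal.tendsto 0
  rw [Complex.ofReal_zero] at h
  exact h.mono_left nhdsWithin_le_nhds

/-- the logarithm is transcendental over the functions analytic at `0` -/
theorem logT (M : ℕ) (f : ℕ → ℂ → ℂ) (hf : ∀ s, AnalyticAt ℂ (f s) 0)
    (H : ∀ᶠ t : ℝ in 𝓝[>] (0 : ℝ),
      ∑ s ∈ Finset.range M, ((Real.log t : ℝ) : ℂ) ^ s * f s t = 0) :
    ∀ s < M, ∀ᶠ z in 𝓝 (0 : ℂ), f s z = 0 := by
  have key : ∀ n : ℕ, ∀ s < M, (n : ℕ∞) ≤ analyticOrderAt (f s) 0 := by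
    intro n
    induction n with
    | zero => intro s _; simp
    | succ n ih =>
      have h1 : ∀ s, ∃ g : ℂ → ℂ, s < M → AnalyticAt ℂ g 0 ∧
          ∀ᶠ z in 𝓝 (0 : ℂ), f s z = (z - 0) ^ n • g z := by
        intro s
        by_cases hs : s < M
        · obtain ⟨g, hg⟩ := (natCast_le_analyticOrderAt (hf s)).1 (ih s hs)
          exact ⟨g, fun _ => hg⟩
        · exact ⟨f s, fun h => absurd h hs⟩
      choose g hg using h1
      -- the relation for `g`
      have h2 : ∀ᶠ t : ℝ in 𝓝[>] (0 : ℝ),
          ∑ s ∈ Finset.range M, ((Real.log t : ℝ) : ℂ) ^ s * g s t = 0 := by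
        have h3 : ∀ᶠ t : ℝ in 𝓝[>] (0 : ℝ), ∀ s ∈ Finset.range M,
            f s (t : ℂ) = ((t : ℂ) - 0) ^ n • g s (t : ℂ) := by
          rw [Filter.eventually_all_finset]
          intro s hs
          exact ofReal_tendsto.eventually (hg s (Finset.mem_range.1 hs)).2
        filter_upwards [H, h3, self_mem_nhdsWithin] with t ht1 ht2 ht3
        have ht0 : (t : ℂ) ≠ 0 := by
          have : (0 : ℝ) < t := ht3
          exact_mod_cast this.ne'
        have h4 : (t : ℂ) ^ n * ∑ s ∈ Finset.range M, ((Real.log t : ℝ) : ℂ) ^ s * g s t = 0 := by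
          rw [← ht1, Finset.mul_sum]
          refine Finset.sum_congr rfl fun s hs => ?_
          rw [ht2 s hs, sub_zero, smul_eq_mul]
          ring
        rcases mul_eq_zero.1 h4 with h5 | h5
        · exact absurd h5 (pow_ne_zero n ht0)
        · exact h5
      -- the polynomial of the values at `0`
      set Q : ℂ[X] := ∑ s ∈ Finset.range M, C (g s 0) * X ^ s with hQ
      have h3 : Tendsto (fun t : ℝ => Q.eval ((Real.log t : ℝ) : ℂ)) (𝓝[>] (0 : ℝ)) (𝓝 0) := by
        have h4 : Tendsto (fun t : ℝ => ∑ s ∈ Finset.range M,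
            ((Real.log t : ℝ) : ℂ) ^ s * (g s t - g s 0)) (𝓝[>] (0 : ℝ)) (𝓝 0) := by
          have h40 : (𝓝 (0 : ℂ)) = 𝓝 (∑ _s ∈ Finset.range M, (0 : ℂ)) := by
            rw [Finset.sum_const_zero]
          rw [h40]
          refine tendsto_finsetSum _ fun s hs => ?_
          have hgs := (hg s (Finset.mem_range.1 hs)).1
          have h5 : (fun z => g s z - g s 0) =O[𝓝 (0 : ℂ)] fun z => z - 0 :=
            hgs.differentiableAt.isBigO_sub
          have h6 := h5.comp_tendsto ofReal_tendsto
          have h7 : (fun t : ℝ => ((Real.log t : ℝ) : ℂ) ^ s * (g s t - g s 0)) =O[𝓝[>] (0 : ℝ)]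
              fun t : ℝ => ((Real.log t : ℝ) : ℂ) ^ s * (t : ℂ) := by
            refine (Asymptotics.isBigO_refl _ _).mul ?_
            simpa [Function.comp_def] using h6
          exact h7.trans_tendsto (log_pow_mul s)
        have h5 := h4.neg
        rw [neg_zero] at h5
        refine h5.congr' ?_
        filter_upwards [h2] with t ht
        rw [hQ, Polynomial.eval_finsetSum]
        have h6 : ∑ s ∈ Finset.range M, ((Real.log t : ℝ) : ℂ) ^ s * (g s t - g s 0) =
            ∑ s ∈ Finset.range M, ((Real.log t : ℝ) : ℂ) ^ s * g s t -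
              ∑ s ∈ Finset.range M, ((Real.log t : ℝ) : ℂ) ^ s * g s 0 := by
          rw [← Finset.sum_sub_distrib]
          refine Finset.sum_congr rfl fun s _ => ?_
          ring
        rw [h6, ht, zero_sub, neg_neg]
        refine Finset.sum_congr rfl fun s _ => ?_
        simp
        ring
      have hQ0 : Q = 0 := by
        by_contra hne
        by_cases hd : 0 < Q.degree
        · have h4 := Polynomial.tendsto_norm_atTop Q hd log_norm_tendsto
          have h5 := h3.norm
          rw [norm_zero] at h5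
          exact not_tendsto_nhds_of_tendsto_atTop h4 _ h5
        · rw [not_lt] at hd
          have h4 := Polynomial.eq_C_of_degree_le_zero hd
          rw [h4] at h3
          simp only [Polynomial.eval_C] at h3
          have h5 : Q.coeff 0 = 0 := tendsto_nhds_unique tendsto_const_nhds h3
          rw [h5, C_0] at h4
          exact hne h4
      intro s hs
      have hg0 : g s 0 = 0 := by
        have h4 : Q.coeff s = g s 0 := by
          rw [hQ, Polynomial.finsetSum_coeff]
          simp only [Polynomial.coeff_C_mul, Polynomial.coeff_X_pow]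
          rw [Finset.sum_eq_single s]
          · simp
          · intro b _ hb
            rw [if_neg (Ne.symm hb), mul_zero]
          · intro h
            exact absurd (Finset.mem_range.2 hs) h
        rw [← h4, hQ0, Polynomial.coeff_zero]
      obtain ⟨hga, hgf⟩ := hg s hs
      have h4 : (1 : ℕ∞) ≤ analyticOrderAt (g s) 0 := by
        rw [Order.one_le_iff_ne_zero]
        exact analyticOrderAt_ne_zero.2 ⟨hga, hg0⟩
      obtain ⟨k, hk, hkf⟩ := (natCast_le_analyticOrderAt (n := 1) hga).1 (by exact_mod_cast h4)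
      refine (natCast_le_analyticOrderAt (hf s)).2 ⟨k, hk, ?_⟩
      filter_upwards [hgf, hkf] with z hz1 hz2
      rw [hz1, hz2]
      simp only [smul_eq_mul]
      ring
  intro s hs
  have h1 : analyticOrderAt (f s) 0 = ⊤ := by
    rw [ENat.eq_top_iff_forall_ge]
    intro n
    exact key n s hs
  exact analyticOrderAt_eq_top.1 h1

/-- the same for polynomials -/
theorem logP (P : ℂ → ℂ[X]) (M : ℕ) (hd : ∀ z, (P z).natDegree < M)
    (ha : ∀ s, AnalyticAt ℂ (fun z => (P z).coeff s) 0)
    (H : ∀ᶠ t : ℝ in 𝓝[>] (0 : ℝ), (P t).eval ((Real.log t : ℝ) : ℂ) = 0) (s : ℕ) :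
    ∀ᶠ z in 𝓝 (0 : ℂ), (P z).coeff s = 0 := by
  by_cases hs : s < M
  · refine logT M (fun s z => (P z).coeff s) ha ?_ s hs
    filter_upwards [H] with t ht
    rw [Polynomial.eval_eq_sum_range' (hd t)] at ht
    rw [← ht]
    refine Finset.sum_congr rfl fun s _ => ?_
    ring
  · refine Eventually.of_forall fun z => ?_
    exact Polynomial.coeff_eq_zero_of_natDegree_lt ((hd z).trans_le (not_lt.1 hs))

/-- a polynomial in `log (1 - z)` which vanishes near `0` -/
theorem LG_alg (R : ℂ[X]) (H : ∀ᶠ z in 𝓝 (0 : ℂ), R.eval (LG z) = 0) : R = 0 := by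
  have h1 : ∀ᶠ t : ℝ in 𝓝[>] (0 : ℝ), R.eval (LG (t : ℂ)) = 0 := ofReal_tendsto.eventually H
  have h2 : ∀ᶠ t : ℝ in 𝓝[>] (0 : ℝ), t ∈ Set.Ioo (0 : ℝ) 1 :=
    Ioo_mem_nhdsGT (show (0 : ℝ) < 1 by norm_num)
  obtain ⟨δ, hδ0, hδ⟩ := mem_nhdsGT_iff_exists_Ioo_subset.1 (h1.and h2)
  refine Polynomial.eq_zero_of_infinite_isRoot R ?_
  have h3 : Set.Infinite ((fun t : ℝ => LG (t : ℂ)) '' Set.Ioo 0 δ) := by
    refine Set.Infinite.image ?_ (Set.Ioo_infinite hδ0)
    intro t ht u hu htu
    have ht1 : t < 1 := (hδ ht).2.2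
    have hu1 : u < 1 := (hδ hu).2.2
    simp only [LG_ofReal t ht1.le, LG_ofReal u hu1.le] at htu
    have h4 : Real.log (1 - t) = Real.log (1 - u) := by exact_mod_cast htu
    have h5 := Real.log_injOn_pos (Set.mem_Ioi.2 (show (0 : ℝ) < 1 - t by linarith))
      (Set.mem_Ioi.2 (show (0 : ℝ) < 1 - u by linarith)) h4
    linarith
  refine h3.mono ?_
  rintro _ ⟨t, ht, rfl⟩
  exact (hδ ht).1

/-- independence of the polylogarithms over the polynomials in `log (1 - t)` -/
theorem indepL (M : ℕ) (p : ℕ → ℂ[X]) (q : ℂ[X])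
    (H : ∀ t : ℝ, 0 < t → t < 1 → ∑ m ∈ Finset.range M, (p m).eval ((Real.log (1 - t) : ℝ) : ℂ) *
      ((PL (m + 1) t : ℝ) : ℂ) + q.eval ((Real.log (1 - t) : ℝ) : ℂ) = 0) :
    ∀ m, 1 ≤ m → m < M → p m = 0 := by
  choose A hA hA0 hAx using decomp
  set P : ℂ → ℂ[X] := fun z => ∑ m ∈ Finset.range M, p m * (C (A m z) + C (Bc m z) * X) + q with hP
  obtain ⟨D, hD⟩ : ∃ D : ℕ, (∀ m ∈ Finset.range M, (p m).natDegree ≤ D) ∧ q.natDegree ≤ D := by
    refine ⟨(∑ m ∈ Finset.range M, (p m).natDegree) + q.natDegree, ?_, ?_⟩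
    · intro m hm
      have := Finset.single_le_sum (f := fun m => (p m).natDegree) (fun _ _ => Nat.zero_le _) hm
      omega
    · omega
  have hcoef : ∀ z s, (P z).coeff (s + 1) = ∑ m ∈ Finset.range M, ((p m).coeff (s + 1) * A m z +
      (p m).coeff s * Bc m z) + q.coeff (s + 1) := by
    intro z s
    simp only [hP, Polynomial.coeff_add, Polynomial.finsetSum_coeff]
    congr 1
    refine Finset.sum_congr rfl fun m _ => ?_
    rw [mul_add, Polynomial.coeff_add, Polynomial.coeff_mul_C, ← mul_assoc, Polynomial.coeff_mul_X,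
      Polynomial.coeff_mul_C]
  have hcoef0 : ∀ z, (P z).coeff 0 = ∑ m ∈ Finset.range M, ((p m).coeff 0 * A m z) +
      q.coeff 0 := by
    intro z
    simp only [hP, Polynomial.coeff_add, Polynomial.finsetSum_coeff]
    congr 1
    refine Finset.sum_congr rfl fun m _ => ?_
    rw [mul_add, Polynomial.coeff_add, Polynomial.coeff_mul_C, ← mul_assoc,
      Polynomial.coeff_mul_X_zero, add_zero]
  have hdeg : ∀ z, (P z).natDegree < D + 2 := by
    intro z
    rw [Nat.lt_succ_iff]
    refine (Polynomial.natDegree_add_le _ _).trans (max_le ?_ (hD.2.trans (by omega)))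
    refine Polynomial.natDegree_sum_le_of_forall_le _ _ fun m hm => ?_
    refine Polynomial.natDegree_mul_le.trans (Nat.add_le_add (hD.1 m hm) ?_)
    refine (Polynomial.natDegree_add_le _ _).trans (max_le ?_ ?_)
    · rw [Polynomial.natDegree_C]; omega
    · refine (Polynomial.natDegree_C_mul_le _ _).trans ?_
      exact Polynomial.natDegree_X_le
  have hball : Metric.ball (0 : ℂ) 1 ∈ 𝓝 (0 : ℂ) := Metric.ball_mem_nhds 0 one_pos
  have hAan : ∀ m, AnalyticAt ℂ (A m) 0 := fun m => (hA m).analyticAt hball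
  have hBan : ∀ m, AnalyticAt ℂ (Bc m) 0 := fun m => (Bc_diff m).analyticAt hball
  have han : ∀ s, AnalyticAt ℂ (fun z => (P z).coeff s) 0 := by
    intro s
    cases s with
    | zero =>
      simp_rw [hcoef0]
      refine AnalyticAt.add ?_ analyticAt_const
      refine Finset.analyticAt_fun_sum _ fun m _ => ?_
      exact analyticAt_const.mul (hAan m)
    | succ s =>
      simp_rw [hcoef]
      refine AnalyticAt.add ?_ analyticAt_const
      refine Finset.analyticAt_fun_sum _ fun m _ => ?_
      exact (analyticAt_const.mul (hAan m)).add (analyticAt_const.mul (hBan m))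
  have hrel : ∀ᶠ x : ℝ in 𝓝[>] (0 : ℝ), (P x).eval ((Real.log x : ℝ) : ℂ) = 0 := by
    filter_upwards [Ioo_mem_nhdsGT (show (0 : ℝ) < 1 by norm_num)] with x hx
    have h1 := H (1 - x) (by linarith [hx.2]) (by linarith [hx.1])
    rw [sub_sub_cancel] at h1
    rw [← h1]
    simp only [hP, Polynomial.eval_add, Polynomial.eval_finsetSum, Polynomial.eval_mul,
      Polynomial.eval_C, Polynomial.eval_X]
    congr 1
    refine Finset.sum_congr rfl fun m _ => ?_
    rw [hAx m x hx.1 hx.2]
    ring
  have hall := logP P (D + 2) hdeg han hrel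
  -- downward induction
  have hdown : ∀ j : ℕ, ∀ m, 1 ≤ m → m < M → ∀ s, D + 1 ≤ s + j → (p m).coeff s = 0 := by
    intro j
    induction j with
    | zero =>
      intro m _ hm s hs
      exact Polynomial.coeff_eq_zero_of_natDegree_lt
        ((hD.1 m (Finset.mem_range.2 hm)).trans_lt (by omega))
    | succ j ih =>
      intro m hm1 hm s hs
      by_cases hs' : D + 1 ≤ s + j
      · exact ih m hm1 hm s hs'
      · have h1 := hall (s + 1)
        set R : ℂ[X] := ∑ m ∈ Finset.range M, C (-((p m).coeff s / (m.factorial : ℂ))) * X ^ m +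
          C (q.coeff (s + 1)) with hR
        have h2 : ∀ᶠ z in 𝓝 (0 : ℂ), R.eval (LG z) = 0 := by
          filter_upwards [h1] with z hz
          rw [hcoef] at hz
          rw [← hz]
          simp only [hR, Polynomial.eval_add, Polynomial.eval_finsetSum, Polynomial.eval_mul,
            Polynomial.eval_C, Polynomial.eval_pow, Polynomial.eval_X]
          congr 1
          refine Finset.sum_congr rfl fun k hk => ?_
          have h3 : (p k).coeff (s + 1) * A k z = 0 := by
            rcases Nat.eq_zero_or_pos k with hk0 | hk0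
            · rw [hA0 k hk0 z, mul_zero]
            · rw [ih k hk0 (Finset.mem_range.1 hk) (s + 1) (by omega), zero_mul]
          rw [h3, zero_add]
          unfold Bc
          ring
        have h3 := LG_alg R h2
        have h4 : R.coeff m = -((p m).coeff s / (m.factorial : ℂ)) := by
          rw [hR, Polynomial.coeff_add, Polynomial.finsetSum_coeff,
            Polynomial.coeff_C_of_ne_zero (by omega), add_zero]
          simp only [Polynomial.coeff_C_mul, Polynomial.coeff_X_pow]
          rw [Finset.sum_eq_single m]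
          · simp
          · intro b _ hb
            rw [if_neg (Ne.symm hb), mul_zero]
          · intro h
            exact absurd (Finset.mem_range.2 hm) h
        rw [h3, Polynomial.coeff_zero] at h4
        have h5 : ((m.factorial : ℕ) : ℂ) ≠ 0 := by exact_mod_cast m.factorial_ne_zero
        have h6 : (p m).coeff s / (m.factorial : ℂ) = 0 := by
          rw [← neg_eq_zero]; exact h4.symm
        rcases div_eq_zero_iff.1 h6 with h7 | h7
        · exact h7
        · exact absurd h7 h5
  intro m hm1 hm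
  ext s
  rw [Polynomial.coeff_zero]
  exact hdown (D + 1) m hm1 hm s (by omega)

/-- the coefficients `2^k B_k / k!` -/
noncomputable def cf (k : ℕ) : ℂ := (((2 : ℝ) ^ k * ((bernoulli k : ℚ) : ℝ) / (k.factorial : ℝ) : ℝ) : ℂ)

theorem cf_zero : cf 0 = 1 := by
  unfold cf
  simp

/-- the polynomial in `log z` of the function `phi i` -/
noncomputable def QQ (i : ℕ) (z : ℂ) : ℂ[X] :=
  if i = 0 then 1 else ∑ k ∈ Finset.range (2 * i + 1), C (cf k * PC (2 * i + 1 - k) z) * X ^ k

/-- its coefficients -/
noncomputable def ps (i k : ℕ) (z : ℂ) : ℂ :=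
  if i = 0 then (if k = 0 then 1 else 0) else
    if k < 2 * i + 1 then cf k * PC (2 * i + 1 - k) z else 0

theorem QQ_coeff (i k : ℕ) (z : ℂ) : (QQ i z).coeff k = ps i k z := by
  unfold QQ ps
  split_ifs with h1 h2 h3
  · rw [h2, Polynomial.coeff_one_zero]
  · rw [Polynomial.coeff_one, if_neg h2]
  · rw [Polynomial.finsetSum_coeff]
    simp only [Polynomial.coeff_C_mul, Polynomial.coeff_X_pow]
    rw [Finset.sum_eq_single k]
    · simp
    · intro b _ hb
      rw [if_neg (Ne.symm hb), mul_zero]
    · intro h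
      exact absurd (Finset.mem_range.2 h3) h
  · rw [Polynomial.finsetSum_coeff]
    refine Finset.sum_eq_zero fun b hb => ?_
    rw [Polynomial.coeff_C_mul, Polynomial.coeff_X_pow, if_neg, mul_zero]
    intro h
    rw [h] at h3
    exact h3 (Finset.mem_range.1 hb)

theorem QQ_eval (i : ℕ) (t : ℝ) : (QQ i t).eval ((Real.log t : ℝ) : ℂ) = ((phi i t : ℝ) : ℂ) := by
  unfold QQ phi
  split_ifs with h1
  · simp
  · rw [Polynomial.eval_finsetSum]
    unfold SV
    rw [Complex.ofReal_sum]
    refine Finset.sum_congr rfl fun k _ => ?_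
    rw [Polynomial.eval_mul, Polynomial.eval_C, Polynomial.eval_pow, Polynomial.eval_X, PC_ofReal]
    unfold cf
    push_cast
    ring

theorem QQ_deg (i : ℕ) (z : ℂ) : (QQ i z).natDegree ≤ 2 * i := by
  unfold QQ
  split_ifs with h1
  · simp
  · refine Polynomial.natDegree_sum_le_of_forall_le _ _ fun k hk => ?_
    refine (Polynomial.natDegree_C_mul_X_pow_le _ _).trans ?_
    have := Finset.mem_range.1 hk
    omega

theorem ps_diff (i k : ℕ) : DifferentiableOn ℂ (ps i k) (Metric.ball 0 1) := by
  have h : ps i k = fun z => ps i k z := rfl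
  rw [h]
  unfold ps
  split_ifs with h1 h2 h3
  · exact differentiableOn_const _
  · exact differentiableOn_const _
  · obtain ⟨j, hj⟩ : ∃ j, 2 * i + 1 - k = j + 1 := ⟨2 * i - k, by omega⟩
    rw [hj]
    exact (differentiableOn_const _).mul (PC_diff j)
  · exact differentiableOn_const _

theorem main (N n : ℕ) (G : ℕ → ℕ → ℂ[X]) (hG : ∀ i a, n < a → G i a = 0)
    (H : ∀ t : ℝ, 0 < t → t < 1 → ∑ i ∈ Finset.range (N + 1), ∑ a ∈ Finset.range (n + 1),
      (G i a).eval ((Real.log (1 - t) : ℝ) : ℂ) * ((phi i t : ℝ) : ℂ) *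
        ((Real.log t : ℝ) : ℂ) ^ a = 0) :
    ∀ i < N + 1, ∀ a, G i a = 0 := by
  -- the polynomial in the logarithm
  set S : ℕ → ℂ → ℂ[X] := fun i z =>
    ∑ a ∈ Finset.range (n + 1), C ((G i a).eval (LG z)) * X ^ a with hS
  have hScoef : ∀ i z a, (S i z).coeff a = (G i a).eval (LG z) := by
    intro i z a
    rw [hS]
    simp only [Polynomial.finsetSum_coeff, Polynomial.coeff_C_mul, Polynomial.coeff_X_pow]
    by_cases ha : a < n + 1
    · rw [Finset.sum_eq_single a]
      · simp
      · intro b _ hb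
        rw [if_neg (Ne.symm hb), mul_zero]
      · intro h
        exact absurd (Finset.mem_range.2 ha) h
    · rw [hG i a (by omega), Polynomial.eval_zero]
      refine Finset.sum_eq_zero fun b hb => ?_
      rw [if_neg, mul_zero]
      intro h
      rw [h] at ha
      exact ha (Finset.mem_range.1 hb)
  set P : ℂ → ℂ[X] := fun z => ∑ i ∈ Finset.range (N + 1), S i z * QQ i z with hP
  have hcoef : ∀ z s, (P z).coeff s = ∑ i ∈ Finset.range (N + 1),
      ∑ x ∈ Finset.HasAntidiagonal.antidiagonal s, (G i x.1).eval (LG z) * ps i x.2 z := by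
    intro z s
    simp only [hP, Polynomial.finsetSum_coeff, Polynomial.coeff_mul, hScoef, QQ_coeff]
  have hdeg : ∀ z, (P z).natDegree < n + 2 * N + 1 := by
    intro z
    rw [Nat.lt_succ_iff]
    refine Polynomial.natDegree_sum_le_of_forall_le _ _ fun i hi => ?_
    have hi' := Finset.mem_range.1 hi
    refine Polynomial.natDegree_mul_le.trans (Nat.add_le_add ?_ ((QQ_deg i z).trans (by omega)))
    refine Polynomial.natDegree_sum_le_of_forall_le _ _ fun a ha => ?_
    refine (Polynomial.natDegree_C_mul_X_pow_le _ _).trans ?_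
    have := Finset.mem_range.1 ha
    omega
  have hball : Metric.ball (0 : ℂ) 1 ∈ 𝓝 (0 : ℂ) := Metric.ball_mem_nhds 0 one_pos
  have hdiff : ∀ s, DifferentiableOn ℂ (fun z => (P z).coeff s) (Metric.ball 0 1) := by
    intro s
    simp_rw [hcoef]
    refine DifferentiableOn.fun_sum fun i _ => DifferentiableOn.fun_sum fun x _ => ?_
    refine DifferentiableOn.mul ?_ (ps_diff _ _)
    intro z hz
    exact ((G i x.1).differentiable.differentiableAt.comp z
      (LG_deriv z (by rwa [mem_ball_zero_iff] at hz)).differentiableAt).differentiableWithinAt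
  have hrel : ∀ᶠ t : ℝ in 𝓝[>] (0 : ℝ), (P t).eval ((Real.log t : ℝ) : ℂ) = 0 := by
    filter_upwards [Ioo_mem_nhdsGT (show (0 : ℝ) < 1 by norm_num)] with t ht
    rw [← H t ht.1 ht.2]
    simp only [hP, Polynomial.eval_finsetSum, Polynomial.eval_mul, QQ_eval, hS, Polynomial.eval_C,
      Polynomial.eval_pow, Polynomial.eval_X, LG_ofReal t ht.2.le]
    refine Finset.sum_congr rfl fun i _ => ?_
    rw [Finset.sum_mul]
    refine Finset.sum_congr rfl fun a _ => ?_
    ring
  have hall := logP P _ hdeg (fun s => (hdiff s).analyticAt hball) hrel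
  -- the coefficients vanish on the disc
  have hzero : ∀ s, ∀ t : ℝ, 0 < t → t < 1 → ∑ i ∈ Finset.range (N + 1),
      ∑ x ∈ Finset.HasAntidiagonal.antidiagonal s, (G i x.1).eval ((Real.log (1 - t) : ℝ) : ℂ) *
        ps i x.2 t = 0 := by
    intro s t ht0 ht1
    have h1 : AnalyticOnNhd ℂ (fun z => (P z).coeff s) (Metric.ball 0 1) :=
      (hdiff s).analyticOnNhd Metric.isOpen_ball
    have h2 := h1.eqOn_zero_of_preconnected_of_eventuallyEq_zero
      (convex_ball (0 : ℂ) 1).isPreconnected (Metric.mem_ball_self one_pos) (hall s)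
    have h3 : (t : ℂ) ∈ Metric.ball (0 : ℂ) 1 := by
      rw [mem_ball_zero_iff, Complex.norm_real, Real.norm_eq_abs, abs_of_pos ht0]
      exact ht1
    have h4 := h2 h3
    simp only [Pi.zero_apply] at h4
    rw [hcoef, LG_ofReal t ht1.le] at h4
    exact h4
  -- downward induction
  have hdown : ∀ j : ℕ, ∀ J, 1 ≤ J → J < N + 1 → N + 1 ≤ J + j → ∀ s, G J s = 0 := by
    intro j
    induction j with
    | zero => intro J _ h1 h2; omega
    | succ j ih =>
      intro J hJ1 hJN hJj s
      set p : ℕ → ℂ[X] := fun m => ∑ i ∈ Finset.range (J + 1), ∑ x ∈ Finset.HasAntidiagonal.antidiagonal s,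
        (if i ≠ 0 ∧ x.2 < 2 * i + 1 ∧ 2 * i - x.2 = m then C (cf x.2) * G i x.1 else 0) with hp
      have h1 := indepL (2 * J + 1) p (G 0 s) (by
        intro t ht0 ht1
        rw [← hzero s t ht0 ht1]
        have h2 : ∑ i ∈ Finset.range (N + 1), ∑ x ∈ Finset.HasAntidiagonal.antidiagonal s,
            (G i x.1).eval ((Real.log (1 - t) : ℝ) : ℂ) * ps i x.2 t =
            ∑ i ∈ Finset.range (J + 1), ∑ x ∈ Finset.HasAntidiagonal.antidiagonal s,
            (G i x.1).eval ((Real.log (1 - t) : ℝ) : ℂ) * ps i x.2 t := by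
          symm
          refine Finset.sum_subset (Finset.range_mono (by omega)) ?_
          intro i hi hi2
          rw [Finset.mem_range] at hi hi2
          refine Finset.sum_eq_zero fun x _ => ?_
          rw [ih i (by omega) hi (by omega) x.1, Polynomial.eval_zero, zero_mul]
        rw [h2]
        have h3 : ∑ m ∈ Finset.range (2 * J + 1),
            (p m).eval ((Real.log (1 - t) : ℝ) : ℂ) * ((PL (m + 1) t : ℝ) : ℂ) =
            ∑ i ∈ Finset.range (J + 1), ∑ x ∈ Finset.HasAntidiagonal.antidiagonal s,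
              (if i ≠ 0 ∧ x.2 < 2 * i + 1 then
                (cf x.2 * (G i x.1).eval ((Real.log (1 - t) : ℝ) : ℂ)) *
                  PC (2 * i + 1 - x.2) t else 0) := by
          simp only [hp, Polynomial.eval_finsetSum, Finset.sum_mul]
          rw [Finset.sum_comm]
          refine Finset.sum_congr rfl fun i hi => ?_
          rw [Finset.sum_comm]
          refine Finset.sum_congr rfl fun x _ => ?_
          have hi' := Finset.mem_range.1 hi
          by_cases hc : i ≠ 0 ∧ x.2 < 2 * i + 1
          · rw [if_pos hc, Finset.sum_eq_single (2 * i - x.2)]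
            · rw [if_pos ⟨hc.1, hc.2, rfl⟩, Polynomial.eval_mul, Polynomial.eval_C, ← PC_ofReal]
              congr 2
              omega
            · intro b _ hb
              rw [if_neg (fun h => hb h.2.2.symm), Polynomial.eval_zero, zero_mul]
            · intro h
              exact absurd (Finset.mem_range.2 (by omega)) h
          · rw [if_neg hc]
            refine Finset.sum_eq_zero fun b _ => ?_
            rw [if_neg (fun h => hc ⟨h.1, h.2.1⟩), Polynomial.eval_zero, zero_mul]
        rw [h3]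
        have h4 : (G 0 s).eval ((Real.log (1 - t) : ℝ) : ℂ) =
            ∑ i ∈ Finset.range (J + 1), ∑ x ∈ Finset.HasAntidiagonal.antidiagonal s,
              (if i = 0 ∧ x.2 = 0 then (G i x.1).eval ((Real.log (1 - t) : ℝ) : ℂ) else 0) := by
          rw [Finset.sum_eq_single 0]
          · rw [Finset.sum_eq_single (s, 0)]
            · simp
            · intro x hx hx2
              rw [if_neg]
              rintro ⟨-, h⟩
              apply hx2
              rw [Finset.HasAntidiagonal.mem_antidiagonal] at hx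
              ext
              · simp only; omega
              · exact h
            · intro h
              exact absurd (Finset.HasAntidiagonal.mem_antidiagonal.2 (by simp)) h
          · intro i _ hi
            refine Finset.sum_eq_zero fun x _ => ?_
            rw [if_neg (fun h => hi h.1)]
          · intro h
            exact absurd (Finset.mem_range.2 (by omega)) h
        rw [h4, ← Finset.sum_add_distrib]
        refine Finset.sum_congr rfl fun i _ => ?_
        rw [← Finset.sum_add_distrib]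
        refine Finset.sum_congr rfl fun x _ => ?_
        unfold ps
        by_cases hi : i = 0
        · by_cases hx : x.2 = 0
          · simp [hi, hx]
          · simp [hi, hx]
        · by_cases hx : x.2 < 2 * i + 1
          · simp [hi, hx]
            ring
          · simp [hi, hx])
      have h2 := h1 (2 * J) (by omega) (by omega)
      have h3 : p (2 * J) = G J s := by
        rw [hp]
        simp only
        rw [Finset.sum_eq_single J]
        · rw [Finset.sum_eq_single (s, 0)]
          · rw [if_pos ⟨by omega, by simp, by simp⟩, cf_zero, C_1, one_mul]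
          · intro x hx hx2
            rw [if_neg]
            rintro ⟨-, h, h'⟩
            apply hx2
            rw [Finset.HasAntidiagonal.mem_antidiagonal] at hx
            ext
            · simp only; omega
            · simp only; omega
          · intro h
            exact absurd (Finset.HasAntidiagonal.mem_antidiagonal.2 (by simp)) h
        · intro i hi hi2
          have hi' := Finset.mem_range.1 hi
          refine Finset.sum_eq_zero fun x _ => ?_
          rw [if_neg]
          rintro ⟨-, h, h'⟩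
          omega
        · intro h
          exact absurd (Finset.mem_range.2 (by omega)) h
      rw [← h3, h2]
  intro i hi a
  by_cases hi0 : i = 0
  · subst hi0
    -- only the constant function remains
    have h1 : ∀ t : ℝ, 0 < t → t < 1 → (G 0 a).eval ((Real.log (1 - t) : ℝ) : ℂ) = 0 := by
      intro t ht0 ht1
      have h2 := hzero a t ht0 ht1
      rw [Finset.sum_eq_single 0] at h2
      · rw [Finset.sum_eq_single (a, 0)] at h2
        · simpa [ps] using h2
        · intro x hx hx2
          have h3 : x.2 ≠ 0 := by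
            intro h
            apply hx2
            rw [Finset.HasAntidiagonal.mem_antidiagonal] at hx
            ext
            · simp only; omega
            · exact h
          simp [ps, h3]
        · intro h
          exact absurd (Finset.HasAntidiagonal.mem_antidiagonal.2 (by simp)) h
      · intro b hb hb0
        refine Finset.sum_eq_zero fun x _ => ?_
        rw [hdown (N + 1) b (by omega) (Finset.mem_range.1 hb) (by omega) x.1,
          Polynomial.eval_zero, zero_mul]
      · intro h
        exact absurd (Finset.mem_range.2 (by omega)) h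
    refine Polynomial.eq_zero_of_infinite_isRoot _ ?_
    have h3 : Set.Infinite ((fun t : ℝ => ((Real.log (1 - t) : ℝ) : ℂ)) '' Set.Ioo 0 1) := by
      refine Set.Infinite.image ?_ (Set.Ioo_infinite one_pos)
      intro t ht u hu htu
      have h4 : Real.log (1 - t) = Real.log (1 - u) := Complex.ofReal_injective htu
      have h5 := Real.log_injOn_pos (Set.mem_Ioi.2 (show (0 : ℝ) < 1 - t by linarith [ht.2]))
        (Set.mem_Ioi.2 (show (0 : ℝ) < 1 - u by linarith [hu.2])) h4
      linarith
    refine h3.mono ?_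
    rintro _ ⟨t, ht, rfl⟩
    exact h1 t ht.1 ht.2
  · exact hdown (N + 1) i (by omega) hi (by omega) a

end PolyN

open PolyN in
/-- [POLY1] -/
theorem phi_continuousOn (j : ℕ) : ContinuousOn (phi j) (Set.Ioo 0 1) := by
  have h1 : ContinuousOn (fun t : ℝ => ((phi j t : ℝ) : ℂ)) (Set.Ioo 0 1) := by
    have h2 : ∀ t ∈ Set.Ioo (0 : ℝ) 1, ((phi j t : ℝ) : ℂ) =
        if j = 0 then 1 else ∑ k ∈ Finset.range (2 * j + 1),
          cf k * PC (2 * j + 1 - k) t * ((Real.log t : ℝ) : ℂ) ^ k := by
      intro t _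
      rw [← QQ_eval]
      unfold QQ
      split_ifs with h
      · simp
      · simp [Polynomial.eval_finsetSum]
    refine ContinuousOn.congr ?_ h2
    split_ifs with h
    · exact continuousOn_const
    · refine continuousOn_finsetSum _ fun k hk => ?_
      have hk' := Finset.mem_range.1 hk
      obtain ⟨i, hi⟩ : ∃ i, 2 * j + 1 - k = i + 1 := ⟨2 * j - k, by omega⟩
      rw [hi]
      refine ContinuousOn.mul (continuousOn_const.mul ?_) (ContinuousOn.pow ?_ _)
      · refine (PC_diff i).continuousOn.comp Complex.continuous_ofReal.continuousOn ?_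
        intro t ht
        rw [mem_ball_zero_iff, Complex.norm_real, Real.norm_eq_abs, abs_of_pos ht.1]
        exact ht.2
      · refine Complex.continuous_ofReal.comp_continuousOn ?_
        exact Real.continuousOn_log.mono fun t ht => ht.1.ne'
  have h2 := Complex.continuous_re.comp_continuousOn h1
  simpa [Function.comp_def] using h2

open PolyN Polynomial in
/-- [POLY2] -/
theorem phi_indep (N n : ℕ) (h : Fin (N + 1) → Fin (n + 1) → Fin (n + 1) → ℝ)
    (H : ∀ t ∈ Set.Ioo (0 : ℝ) 1, ∑ i : Fin (N + 1), ∑ a : Fin (n + 1), ∑ b : Fin (n + 1),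
      h i a b * phi i t * Real.log t ^ (a : ℕ) * Real.log (1 - t) ^ (b : ℕ) = 0) : h = 0 := by
  set G : ℕ → ℕ → ℂ[X] := fun i a =>
    if hi : i < N + 1 then (if ha : a < n + 1 then
      ∑ b : Fin (n + 1), C ((h ⟨i, hi⟩ ⟨a, ha⟩ b : ℝ) : ℂ) * X ^ (b : ℕ) else 0) else 0 with hG
  have hGval : ∀ (i : Fin (N + 1)) (a : Fin (n + 1)), G i a =
      ∑ b : Fin (n + 1), C ((h i a b : ℝ) : ℂ) * X ^ (b : ℕ) := by
    intro i a
    simp only [hG, dif_pos i.2, dif_pos a.2]
  have hmain := main N n G (by
      intro i a ha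
      simp only [hG]
      split_ifs with h1 h2
      · omega
      · rfl
      · rfl) (by
      intro t ht0 ht1
      have h1 := congrArg (fun x : ℝ => (x : ℂ)) (H t ⟨ht0, ht1⟩)
      simp only [Complex.ofReal_sum, Complex.ofReal_zero] at h1
      rw [← h1, Finset.sum_range]
      refine Finset.sum_congr rfl fun i _ => ?_
      rw [Finset.sum_range]
      refine Finset.sum_congr rfl fun a _ => ?_
      rw [hGval, Polynomial.eval_finsetSum, Finset.sum_mul, Finset.sum_mul]
      refine Finset.sum_congr rfl fun b _ => ?_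
      simp only [Polynomial.eval_mul, Polynomial.eval_C, Polynomial.eval_pow, Polynomial.eval_X]
      push_cast
      ring)
  funext i a b
  have h1 := hmain i i.2 a
  rw [hGval] at h1
  have h2 := congrArg (fun P : ℂ[X] => P.coeff b) h1
  simp only [Polynomial.finsetSum_coeff, Polynomial.coeff_C_mul, Polynomial.coeff_X_pow,
    Polynomial.coeff_zero] at h2
  rw [Finset.sum_eq_single b] at h2
  · simpa using h2
  · intro c _ hc
    rw [if_neg (fun h => hc (Fin.ext h.symm)), mul_zero]
  · intro h
    exact absurd (Finset.mem_univ _) h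

/-- [POLY3] -/
theorem SV_one_ne_zero (n : ℕ) (hn : 3 ≤ n) : SV n 1 ≠ 0 := by
  have h1 : SV n 1 = PL n 1 := by
    unfold SV
    rw [Finset.sum_eq_single 0]
    · simp
    · intro k _ hk
      rw [Real.log_one, zero_pow hk, mul_zero, zero_mul]
    · intro h
      exact absurd (Finset.mem_range.2 (by omega)) h
  rw [h1]
  have h2 : Summable fun m : ℕ => (1 : ℝ) ^ (m + 1) / ((m : ℝ) + 1) ^ n := by
    have h3 := (summable_nat_add_iff 1).2 (Real.summable_one_div_nat_pow.2 (show 1 < n by omega))
    refine h3.congr fun m => ?_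
    push_cast
    rw [one_pow]
  have h3 : 0 < PL n 1 := by
    unfold PL
    refine h2.tsum_pos (fun m => by positivity) 0 ?_
    norm_num
  exact h3.ne'

end Pool.Agent.H366.ZC
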