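import Pool.Agent.H366.ZC.KeyA

/-! # Preparations for the key theorem: estimates and congruences -/

set_option autoImplicit false

namespace Pool.Agent.H366.ZC

namespace KeyZN

section est

lemma log_one_add_le (u : ℕ) (hu : 0 < u) : Real.log (1 + 1 / (u : ℝ)) ≤ 1 / u := by
  have hu' : (0 : ℝ) < u := by exact_mod_cast hu
  have := Real.log_le_sub_one_of_pos (show (0 : ℝ) < 1 + 1 / (u : ℝ) by positivity)
  linarith

lemma log_one_add_nonneg (u : ℕ) (hu : 0 < u) : 0 ≤ Real.log (1 + 1 / (u : ℝ)) := by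
  have hu' : (0 : ℝ) < u := by exact_mod_cast hu
  exact Real.log_nonneg (by have : (0:ℝ) < 1 / u := by positivity
                            linarith)

/-- the products of slots -/
lemma log_prod_zz {q u d s : ℕ} {v : Fin s → ℕ} (hq : 0 < q) (hu : 0 < u) (hv : SlotOK q v)
    (h : Fin s → Fin (2 ^ d)) :
    Real.log ((q * u * 2 ^ d : ℕ) : ℝ) * s ≤ Real.log ((∏ i, zz q u d v h i : ℕ) : ℝ) ∧
      Real.log ((∏ i, zz q u d v h i : ℕ) : ℝ) ≤
        (Real.log ((q * u * 2 ^ d : ℕ) : ℝ) + Real.log (1 + 1 / (u : ℝ))) * s := by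
  have hu' : (0 : ℝ) < u := by exact_mod_cast hu
  have hq' : (0 : ℝ) < q := by exact_mod_cast hq
  have h1 := le_prod_zz (q := q) (u := u) (v := v) h Finset.univ
  rw [Finset.card_univ, Fintype.card_fin] at h1
  have h2 : ∏ i, zz q u d v h i ≤ (q * (u + 1) * 2 ^ d) ^ s := by
    have := Finset.prod_le_pow_card Finset.univ (fun i => zz q u d v h i) _ fun i _ =>
      zz_le' hv h i
    rwa [Finset.card_univ, Fintype.card_fin] at this
  have hp := prod_zz_pos (v := v) hq hu h Finset.univ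
  have hb : 0 < q * u * 2 ^ d := by positivity
  constructor
  · rw [mul_comm, ← Real.log_pow]
    refine Real.log_le_log (by positivity) ?_
    exact_mod_cast h1
  · have h3 : Real.log ((q * (u + 1) * 2 ^ d : ℕ) : ℝ) =
        Real.log ((q * u * 2 ^ d : ℕ) : ℝ) + Real.log (1 + 1 / (u : ℝ)) := by
      rw [← Real.log_mul (by positivity) (by positivity)]
      congr 1
      push_cast
      field_simp
    rw [← h3, mul_comm, ← Real.log_pow]
    refine Real.log_le_log (by exact_mod_cast hp) ?_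
    exact_mod_cast h2

lemma abs_sub_le_log {x t : ℝ} (hx : 0 < x) (hx1 : x ≤ 1) (ht : 0 < t) (ht1 : t ≤ 1) :
    |x - t| ≤ |Real.log x - Real.log t| := by
  have key : ∀ a b : ℝ, 0 < a → b ≤ 1 → a ≤ b → b - a ≤ Real.log b - Real.log a := by
    intro a b ha hb hab
    have hb0 : 0 < b := lt_of_lt_of_le ha hab
    have h1 := Real.log_le_sub_one_of_pos (div_pos ha hb0)
    rw [Real.log_div ha.ne' hb0.ne'] at h1
    have h2 : b - a ≤ (b - a) / b := by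
      rw [le_div_iff₀ hb0]
      nlinarith
    have h3 : (b - a) / b = 1 - a / b := by field_simp
    linarith
  rcases le_total x t with h | h
  · have := key x t hx ht1 h
    rw [abs_sub_comm, abs_of_nonneg (by linarith), abs_sub_comm]
    exact this.trans (le_abs_self _)
  · have := key t x ht hx1 h
    rw [abs_of_nonneg (by linarith)]
    exact this.trans (le_abs_self _)

/-- the real coordinates at a solution are close to the prescribed ones -/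
lemma coords {lam ρ t : ℝ} (ht0 : 0 < t) (ht1 : t < 1) {M0 M1 M2 Z0 Z1 Z2 : ℝ} (hM0 : 0 < M0)
    (hM1 : 0 < M1) (hM2 : 0 < M2) (hZ0 : 0 < Z0) (hZ1 : 0 < Z1) (hZ2 : 0 < Z2) {b : ℝ}
    (h0 : b ≤ Real.log Z0 ∧ Real.log Z0 ≤ b + lam) (h1 : b ≤ Real.log Z1 ∧ Real.log Z1 ≤ b + lam)
    (h2 : b ≤ Real.log Z2 ∧ Real.log Z2 ≤ b + lam) (h : M0 * Z0 = M1 * Z1 + M2 * Z2)
    (ha : |Real.log (M1 / (M1 + M2)) - Real.log t| ≤ ρ)
    (hb : |Real.log (M2 / (M1 + M2)) - Real.log (1 - t)| ≤ ρ) :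
    |Real.log (M1 / M0) - Real.log t| ≤ ρ + 2 * lam ∧
      |Real.log (M2 / M0) - Real.log (1 - t)| ≤ ρ + 2 * lam ∧
      |M1 * Z1 / (M0 * Z0) - t| ≤ ρ + lam := by
  have hX : 0 < M0 * Z0 := by positivity
  have hS : 0 < M1 + M2 := by positivity
  -- log (M0 Z0) is between
  have hlow : Real.log (M1 + M2) + b ≤ Real.log (M0 * Z0) := by
    rw [h]
    have e1 : Real.log (M1 + M2) + b = Real.log ((M1 + M2) * Real.exp b) := by
      rw [Real.log_mul hS.ne' (Real.exp_pos _).ne', Real.log_exp]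
    rw [e1]
    refine Real.log_le_log (by positivity) ?_
    have e2 : Real.exp b ≤ Z1 := by rw [← Real.exp_log hZ1]; exact Real.exp_le_exp.2 h1.1
    have e3 : Real.exp b ≤ Z2 := by rw [← Real.exp_log hZ2]; exact Real.exp_le_exp.2 h2.1
    nlinarith
  have hup : Real.log (M0 * Z0) ≤ Real.log (M1 + M2) + (b + lam) := by
    rw [h]
    have e1 : Real.log (M1 + M2) + (b + lam) = Real.log ((M1 + M2) * Real.exp (b + lam)) := by
      rw [Real.log_mul hS.ne' (Real.exp_pos _).ne', Real.log_exp]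
    rw [e1]
    refine Real.log_le_log (by positivity) ?_
    have e2 : Z1 ≤ Real.exp (b + lam) := by
      rw [← Real.exp_log hZ1]; exact Real.exp_le_exp.2 h1.2
    have e3 : Z2 ≤ Real.exp (b + lam) := by
      rw [← Real.exp_log hZ2]; exact Real.exp_le_exp.2 h2.2
    nlinarith
  rw [Real.log_div hM1.ne' hS.ne'] at ha
  rw [Real.log_div hM2.ne' hS.ne'] at hb
  rw [Real.log_mul hM0.ne' hZ0.ne'] at hlow hup
  rw [abs_le] at ha hb
  refine ⟨?_, ?_, ?_⟩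
  · rw [Real.log_div hM1.ne' hM0.ne', abs_le]
    constructor <;> linarith [h0.1, h0.2]
  · rw [Real.log_div hM2.ne' hM0.ne', abs_le]
    constructor <;> linarith [h0.1, h0.2]
  · have hx0 : 0 < M1 * Z1 / (M0 * Z0) := by positivity
    have hx1 : M1 * Z1 / (M0 * Z0) ≤ 1 := by
      rw [div_le_one hX, h]
      have : 0 < M2 * Z2 := by positivity
      linarith
    refine (abs_sub_le_log hx0 hx1 ht0 ht1.le).trans ?_
    rw [Real.log_div (by positivity) hX.ne', Real.log_mul hM1.ne' hZ1.ne',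
      Real.log_mul hM0.ne' hZ0.ne', abs_le]
    constructor <;> linarith [h1.1, h1.2]

/-- comparison of the multipliers -/
lemma ratio_aux {m Λ : ℝ} (hm : 0 < m) (hΛ : 9 / m ≤ Λ) {S x y : ℝ} (hS : 0 < S)
    (hx : x ≤ Real.exp 1 * S) (hy : m * Real.exp (-1) * S ≤ y) : x ≤ Λ * y := by
  have h1 : Real.exp 1 * S ≤ 9 / m * (m * Real.exp (-1) * S) := by
    have h2 : 9 / m * (m * Real.exp (-1) * S) = 9 * Real.exp (-1) * S := by field_simp
    rw [h2]
    refine mul_le_mul_of_nonneg_right ?_ hS.le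
    rw [Real.exp_neg, ← div_eq_mul_inv, le_div_iff₀ (Real.exp_pos _)]
    have := Real.exp_one_lt_d9
    have h3 := Real.exp_pos 1
    nlinarith
  calc x ≤ Real.exp 1 * S := hx
    _ ≤ 9 / m * (m * Real.exp (-1) * S) := h1
    _ ≤ Λ * y := by
      have h4 : 0 < m * Real.exp (-1) * S := by positivity
      have h5 : 0 < 9 / m := by positivity
      exact mul_le_mul hΛ hy h4.le (h5.le.trans hΛ)

lemma cell_bound {s g u : ℕ} (hg : 0 < g) (hu : 0 < u)
    (hsu : (2 * (s : ℝ) + 3) / u ≤ 1) {M0 : Fin (2 * (g * (2 * s + 2)) + 1) → ℕ} {M1 M2 : ℕ}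
    (h : Cell s g u M0 M1 M2) (l : Fin (2 * (g * (2 * s + 2)) + 1)) :
    |Real.log ((M0 l : ℝ) / ((M1 : ℝ) + M2))| ≤ 1 := by
  have h1 := h l
  have hu' : (0 : ℝ) < u := by exact_mod_cast hu
  have hg' : (0 : ℝ) < g := by exact_mod_cast hg
  have hg1 : (1 : ℝ) ≤ g := by exact_mod_cast hg
  set τ := Real.log (1 + 1 / (u : ℝ)) with hτ
  have hτ0 : 0 ≤ τ := log_one_add_nonneg u hu
  have hτ1 : τ ≤ 1 / u := log_one_add_le u hu
  have h2 : |(((l : ℕ) : ℝ) - (g * (2 * s + 2) : ℕ)) * (τ / g)| ≤ (2 * s + 2) * τ := by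
    rw [abs_mul, abs_of_nonneg (div_nonneg hτ0 hg'.le)]
    have h3 : |((l : ℕ) : ℝ) - (g * (2 * s + 2) : ℕ)| ≤ (g * (2 * s + 2) : ℕ) := by
      rw [abs_le]
      have h4 : (l : ℕ) ≤ 2 * (g * (2 * s + 2)) := by omega
      have h5 : ((l : ℕ) : ℝ) ≤ 2 * ((g * (2 * s + 2) : ℕ) : ℝ) := by exact_mod_cast h4
      constructor <;> linarith [(Nat.cast_nonneg (l : ℕ) : (0 : ℝ) ≤ (l : ℕ))]
    calc |((l : ℕ) : ℝ) - (g * (2 * s + 2) : ℕ)| * (τ / g) ≤ ((g * (2 * s + 2) : ℕ) : ℝ) * (τ / g) :=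
          mul_le_mul_of_nonneg_right h3 (div_nonneg hτ0 hg'.le)
      _ = (2 * s + 2) * τ := by push_cast; field_simp
  have h3 : τ / g / 10 ≤ τ := by
    rw [div_div, div_le_iff₀ (by positivity)]
    nlinarith
  have h4 : |Real.log ((M0 l : ℝ) / ((M1 : ℝ) + M2))| ≤ (2 * s + 3) * τ := by
    have h5 : Real.log ((M0 l : ℝ) / ((M1 : ℝ) + M2)) =
      (Real.log ((M0 l : ℝ) / ((M1 : ℝ) + M2)) -
      (((l : ℕ) : ℝ) - (g * (2 * s + 2) : ℕ)) * (τ / g)) +
      (((l : ℕ) : ℝ) - (g * (2 * s + 2) : ℕ)) * (τ / g) := by ring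
    rw [h5]
    refine (abs_add_le _ _).trans ?_
    linarith
  refine h4.trans (le_trans ?_ hsu)
  rw [div_eq_mul_inv, ← one_div]
  exact mul_le_mul_of_nonneg_left hτ1 (by positivity)

/-- all quotients of multipliers are bounded -/
lemma ratio_le {m : ℝ} {Λ : ℕ} (hm : 0 < m) (hm1 : m ≤ 1) (hΛ : 9 / m ≤ (Λ : ℝ)) {t ρ : ℝ}
    (hmt : m ≤ t) (hmt' : m ≤ 1 - t) (hρ : ρ ≤ 1) {M : Fin 3 → ℕ} (hM : ∀ X, 0 < M X)
    (h0 : |Real.log ((M 0 : ℝ) / ((M 1 : ℝ) + M 2))| ≤ 1)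
    (h1 : |Real.log ((M 1 : ℝ) / ((M 1 : ℝ) + M 2)) - Real.log t| ≤ ρ)
    (h2 : |Real.log ((M 2 : ℝ) / ((M 1 : ℝ) + M 2)) - Real.log (1 - t)| ≤ ρ) (X Y : Fin 3) :
    M X ≤ Λ * M Y := by
  have hM0 : (0 : ℝ) < M 0 := by exact_mod_cast hM 0
  have hM1 : (0 : ℝ) < M 1 := by exact_mod_cast hM 1
  have hM2 : (0 : ℝ) < M 2 := by exact_mod_cast hM 2
  set S : ℝ := (M 1 : ℝ) + M 2 with hS
  have hS0 : 0 < S := by positivity
  have ht0 : 0 < t := lt_of_lt_of_le hm hmt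
  have ht1 : 0 < 1 - t := lt_of_lt_of_le hm hmt'
  rw [abs_le] at h0 h1 h2
  have e1 : 1 ≤ Real.exp 1 := Real.one_le_exp (by norm_num)
  have up : ∀ X, (M X : ℝ) ≤ Real.exp 1 * S := by
    intro X
    fin_cases X
    · have := Real.exp_le_exp.2 h0.2
      rw [Real.exp_log (by positivity), div_le_iff₀ hS0] at this
      exact this
    · show (M 1 : ℝ) ≤ _
      nlinarith
    · show (M 2 : ℝ) ≤ _
      nlinarith
  have lo : ∀ X, m * Real.exp (-1) * S ≤ (M X : ℝ) := by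
    have key : ∀ w x : ℝ, 0 < x → 0 < w → m ≤ w → -ρ ≤ Real.log (x / S) - Real.log w →
        m * Real.exp (-1) * S ≤ x := by
      intro w x hx hw hmw hh
      have h3 : Real.log w + (-1) ≤ Real.log (x / S) := by linarith
      have h4 := Real.exp_le_exp.2 h3
      rw [Real.exp_log (by positivity), Real.exp_add, Real.exp_log hw, le_div_iff₀ hS0] at h4
      refine le_trans ?_ h4
      have : 0 < Real.exp (-1) := Real.exp_pos _
      gcongr
    intro X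
    fin_cases X
    · have h3 := Real.exp_le_exp.2 h0.1
      rw [Real.exp_log (by positivity), le_div_iff₀ hS0] at h3
      refine le_trans ?_ h3
      have h4 : 0 < Real.exp (-1) * S := by positivity
      have h5 : m * Real.exp (-1) * S = m * (Real.exp (-1) * S) := by ring
      rw [h5]
      nlinarith
    · exact key t _ hM1 ht0 hmt h1.1
    · exact key (1 - t) _ hM2 ht1 hmt' h2.1
  have := ratio_aux hm hΛ hS0 (up X) (lo Y)
  exact_mod_cast this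

end est

section congr

/-- the product of the primes less than `2^κ` -/
def qq (κ : ℕ) : ℕ := ∏ p ∈ (Finset.range (2 ^ κ)).filter Nat.Prime, p

lemma qq_pos (κ : ℕ) : 0 < qq κ :=
  Finset.prod_pos fun p hp => (Finset.mem_filter.1 hp).2.pos

lemma dvd_qq {κ p : ℕ} (hp : p.Prime) : p ∣ qq κ ↔ p < 2 ^ κ := by
  unfold qq
  constructor
  · intro h
    obtain ⟨r, hr, hpr⟩ := (Prime.dvd_finsetProd_iff hp.prime _).1 h
    rw [Finset.mem_filter, Finset.mem_range] at hr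
    rw [(Nat.prime_dvd_prime_iff_eq hp hr.2).1 hpr]
    exact hr.1
  · intro h
    exact Finset.dvd_prod_of_mem _ (Finset.mem_filter.2 ⟨Finset.mem_range.2 h, hp⟩)

lemma modEq_qq {κ a b : ℕ} (h : ∀ p : ℕ, p.Prime → p < 2 ^ κ → a ≡ b [MOD p]) :
    a ≡ b [MOD qq κ] := by
  rw [Nat.modEq_iff_dvd]
  unfold qq
  rw [Nat.cast_prod]
  refine Finset.prod_dvd_of_coprime ?_ ?_
  · intro p hp r hr hpr
    rw [Finset.mem_coe, Finset.mem_filter] at hp hr
    exact Nat.isCoprime_iff_coprime.2 ((Nat.coprime_primes hp.2 hr.2).2 hpr)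
  · intro p hp
    rw [Finset.mem_filter, Finset.mem_range] at hp
    exact Nat.modEq_iff_dvd.1 (h p hp.2 hp.1)

lemma coprime_qq {κ a : ℕ} (h : ∀ p : ℕ, p.Prime → p < 2 ^ κ → ¬ p ∣ a) :
    Nat.Coprime a (qq κ) := by
  rw [Nat.coprime_iff_gcd_eq_one]
  by_contra hne
  obtain ⟨p, hp, hpd⟩ := Nat.exists_prime_and_dvd hne
  exact h p hp ((dvd_qq hp).1 (hpd.trans (Nat.gcd_dvd_right _ _))) (hpd.trans (Nat.gcd_dvd_left _ _))

lemma pow_fac_modEq {κ p a : ℕ} (hp : p.Prime) (hpk : p < 2 ^ κ) (ha : ¬ p ∣ a) (n : ℕ) :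
    a ^ ((2 ^ κ).factorial * n) ≡ 1 [MOD p] := by
  have h1 : Nat.Coprime a p := (Nat.Prime.coprime_iff_not_dvd hp).2 ha |>.symm
  have h2 := Nat.ModEq.pow_totient h1
  rw [Nat.totient_prime hp] at h2
  obtain ⟨m, hm⟩ : p - 1 ∣ (2 ^ κ).factorial :=
    Nat.dvd_factorial (by have := hp.two_le; omega) (by omega)
  rw [hm, mul_assoc, pow_mul]
  calc (a ^ (p - 1)) ^ (m * n) ≡ 1 ^ (m * n) [MOD p] := h2.pow _
    _ = 1 := one_pow _

/-- powers of `A` with exponent congruent to one -/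
lemma pow_L_modEq {κ p A : ℕ} (hp : p.Prime) (hpk : p < 2 ^ κ) (j : ℕ) :
    A ^ (1 + j * (2 ^ κ).factorial) ≡ A [MOD p] := by
  by_cases h : p ∣ A
  · have h1 : A ≡ 0 [MOD p] := (Nat.modEq_zero_iff_dvd).2 h
    have h2 : A ^ (1 + j * (2 ^ κ).factorial) ≡ 0 [MOD p] :=
      (Nat.modEq_zero_iff_dvd).2 (dvd_pow h (by omega))
    exact h2.trans h1.symm
  · have h1 := pow_fac_modEq hp hpk h j
    rw [pow_add, pow_one, mul_comm j]
    calc A * A ^ ((2 ^ κ).factorial * j) ≡ A * 1 [MOD p] := Nat.ModEq.mul_left _ h1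
      _ = A := mul_one _

/-- `A^L p₁^(φ a)` is congruent to `A` -/
lemma mul_pow_modEq {κ p A p₁ : ℕ} (hp : p.Prime) (hpk : p < 2 ^ κ) (hp₁ : p₁.Prime)
    (h₁ : p₁ ∣ A) {M : ℕ} (hM : M ≡ A [MOD p]) (n : ℕ) :
    M * p₁ ^ ((2 ^ κ).factorial * n) ≡ A [MOD p] := by
  by_cases h : p ∣ A
  · have h1 : A ≡ 0 [MOD p] := (Nat.modEq_zero_iff_dvd).2 h
    have h2 : M * p₁ ^ ((2 ^ κ).factorial * n) ≡ 0 * p₁ ^ ((2 ^ κ).factorial * n) [MOD p] :=
      (hM.trans h1).mul_right _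
    rw [zero_mul] at h2
    exact h2.trans h1.symm
  · have h3 : ¬ p ∣ p₁ := fun h' => h (h'.trans h₁)
    calc M * p₁ ^ ((2 ^ κ).factorial * n) ≡ A * 1 [MOD p] := hM.mul (pow_fac_modEq hp hpk h3 n)
      _ = A := mul_one _

/-- the base points -/
def rr (κ A B C : ℕ) : Fin 3 → ℕ :=
  ![(A * B ^ 2 + C ^ 2) % qq κ, (A ^ 2 * B + (qq κ - 1) * C) % qq κ, (A * C + B) % qq κ]

lemma rr_cop {κ A B C : ℕ} (hAB : Nat.Coprime A B) (hAC : Nat.Coprime A C)
    (hBC : Nat.Coprime B C) (hall : ∀ p : ℕ, p.Prime → (p ∣ A * B * C ↔ p < 2 ^ κ)) (X : Fin 3) :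
    Nat.Coprime (rr κ A B C X) (qq κ) := by
  have key : ∀ a : ℕ, (∀ p : ℕ, p.Prime → p < 2 ^ κ → ¬ p ∣ a) →
      Nat.Coprime (a % qq κ) (qq κ) := by
    intro a ha
    have h1 := coprime_qq ha
    have h2 : Nat.gcd (a % qq κ) (qq κ) = 1 := by
      rw [← Nat.gcd_rec, Nat.gcd_comm]
      exact h1
    exact h2
  have hcases : ∀ p : ℕ, p.Prime → p < 2 ^ κ → (p ∣ A ∧ ¬ p ∣ B ∧ ¬ p ∣ C) ∨
      (p ∣ B ∧ ¬ p ∣ A ∧ ¬ p ∣ C) ∨ (p ∣ C ∧ ¬ p ∣ A ∧ ¬ p ∣ B) := by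
    intro p hp hpk
    have h1 := (hall p hp).2 hpk
    have hn : ∀ a b : ℕ, Nat.Coprime a b → p ∣ a → ¬ p ∣ b := fun a b hab ha hb =>
      Nat.not_coprime_of_dvd_of_dvd hp.one_lt ha hb hab
    rcases (Nat.Prime.dvd_mul hp).1 h1 with h2 | h2
    · rcases (Nat.Prime.dvd_mul hp).1 h2 with h3 | h3
      · exact Or.inl ⟨h3, hn _ _ hAB h3, hn _ _ hAC h3⟩
      · exact Or.inr (Or.inl ⟨h3, hn _ _ hAB.symm h3, hn _ _ hBC h3⟩)
    · exact Or.inr (Or.inr ⟨h2, hn _ _ hAC.symm h2, hn _ _ hBC.symm h2⟩)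
  fin_cases X
  · refine key _ fun p hp hpk hd => ?_
    rcases hcases p hp hpk with ⟨h1, h2, h3⟩ | ⟨h1, h2, h3⟩ | ⟨h1, h2, h3⟩
    · have h4 : p ∣ A * B ^ 2 := h1.mul_right _
      exact h3 (hp.dvd_of_dvd_pow ((Nat.dvd_add_right h4).1 hd))
    · have h4 : p ∣ A * B ^ 2 := (dvd_pow h1 (by norm_num)).mul_left _
      exact h3 (hp.dvd_of_dvd_pow ((Nat.dvd_add_right h4).1 hd))
    · have h4 : p ∣ C ^ 2 := dvd_pow h1 (by norm_num)
      rcases (Nat.Prime.dvd_mul hp).1 ((Nat.dvd_add_left h4).1 hd) with h5 | h5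
      · exact h2 h5
      · exact h3 (hp.dvd_of_dvd_pow h5)
  · refine key _ fun p hp hpk hd => ?_
    have hq1 : ¬ p ∣ qq κ - 1 := by
      intro h
      have h1 := (dvd_qq (κ := κ) hp).2 hpk
      have h2 : qq κ = (qq κ - 1) + 1 := by have := qq_pos κ; omega
      rw [h2] at h1
      have := (Nat.dvd_add_right h).1 h1
      exact hp.one_lt.ne' (Nat.dvd_one.1 this)
    rcases hcases p hp hpk with ⟨h1, h2, h3⟩ | ⟨h1, h2, h3⟩ | ⟨h1, h2, h3⟩
    · have h4 : p ∣ A ^ 2 * B := (dvd_pow h1 (by norm_num)).mul_right _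
      rcases (Nat.Prime.dvd_mul hp).1 ((Nat.dvd_add_right h4).1 hd) with h5 | h5
      · exact hq1 h5
      · exact h3 h5
    · have h4 : p ∣ A ^ 2 * B := h1.mul_left _
      rcases (Nat.Prime.dvd_mul hp).1 ((Nat.dvd_add_right h4).1 hd) with h5 | h5
      · exact hq1 h5
      · exact h3 h5
    · have h4 : p ∣ (qq κ - 1) * C := h1.mul_left _
      rcases (Nat.Prime.dvd_mul hp).1 ((Nat.dvd_add_left h4).1 hd) with h5 | h5
      · exact h2 (hp.dvd_of_dvd_pow h5)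
      · exact h3 h5
  · refine key _ fun p hp hpk hd => ?_
    rcases hcases p hp hpk with ⟨h1, h2, h3⟩ | ⟨h1, h2, h3⟩ | ⟨h1, h2, h3⟩
    · have h4 : p ∣ A * C := h1.mul_right _
      exact h2 ((Nat.dvd_add_right h4).1 hd)
    · rcases (Nat.Prime.dvd_mul hp).1 ((Nat.dvd_add_left h1).1 hd) with h5 | h5
      · exact h2 h5
      · exact h3 h5
    · have h4 : p ∣ A * C := h1.mul_left _
      exact h3 ((Nat.dvd_add_right h4).1 hd)

lemma rr_rel {κ A B C M0 M1 M2 : ℕ} (h0 : M0 ≡ A [MOD qq κ]) (h1 : M1 ≡ B [MOD qq κ])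
    (h2 : M2 ≡ C [MOD qq κ]) :
    M0 * rr κ A B C 0 ≡ M1 * rr κ A B C 1 + M2 * rr κ A B C 2 [MOD qq κ] := by
  have e0 : rr κ A B C 0 ≡ A * B ^ 2 + C ^ 2 [MOD qq κ] := Nat.mod_modEq _ _
  have e1 : rr κ A B C 1 ≡ A ^ 2 * B + (qq κ - 1) * C [MOD qq κ] := Nat.mod_modEq _ _
  have e2 : rr κ A B C 2 ≡ A * C + B [MOD qq κ] := Nat.mod_modEq _ _
  refine (h0.mul e0).trans (Nat.ModEq.trans ?_ ((h1.mul e1).add (h2.mul e2)).symm)
  have hq : qq κ = (qq κ - 1) + 1 := by have := qq_pos κ; omega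
  have : B * (A ^ 2 * B + (qq κ - 1) * C) + C * (A * C + B) =
      A * (A * B ^ 2 + C ^ 2) + qq κ * (B * C) := by
    rw [show qq κ * (B * C) = ((qq κ - 1) + 1) * (B * C) by rw [← hq]]
    ring
  rw [this]
  exact (Nat.modEq_iff_dvd' (Nat.le_add_right _ _)).2 ⟨B * C, by rw [Nat.add_sub_cancel_left]⟩

end congr

end KeyZN

end Pool.Agent.H366.ZC
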