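import Pool.Agent.H366.ZC.RS

/-! # [DENS] multipliers of prescribed sizes -/

set_option autoImplicit false

namespace Pool.Agent.H366.ZC

namespace DensN

open Finset

lemma irr_log {p₁ p₂ : ℕ} (h₁ : p₁.Prime) (h₂ : p₂.Prime) (h : p₁ ≠ p₂) :
    Irrational (Real.log p₁ / Real.log p₂) := by
  rintro ⟨r, hr⟩
  have hl1 : 0 < Real.log p₁ := Real.log_pos (by exact_mod_cast h₁.one_lt)
  have hl2 : 0 < Real.log p₂ := Real.log_pos (by exact_mod_cast h₂.one_lt)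
  have hr0 : 0 < r := by
    have : (0 : ℝ) < r := by rw [hr]; positivity
    exact_mod_cast this
  have hn : 0 < r.num := Rat.num_pos.2 hr0
  obtain ⟨n, hn'⟩ := Int.eq_ofNat_of_zero_le hn.le
  have hnr : ((r.num : ℤ) : ℝ) = (n : ℝ) := by rw [hn']; simp
  have hrd : (r : ℝ) = (n : ℝ) / (r.den : ℝ) := by
    rw [Rat.cast_def, hnr]
  have hd : (0 : ℝ) < r.den := by exact_mod_cast r.den_pos
  rw [hrd, div_eq_div_iff hd.ne' hl2.ne'] at hr
  have h3 : Real.log ((p₂ : ℝ) ^ n) = Real.log ((p₁ : ℝ) ^ r.den) := by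
    rw [Real.log_pow, Real.log_pow, hr, mul_comm]
  have h4 : ((p₂ : ℝ) ^ n) = ((p₁ : ℝ) ^ r.den) := by
    have a1 : (0 : ℝ) < p₂ := by exact_mod_cast h₂.pos
    have a2 : (0 : ℝ) < p₁ := by exact_mod_cast h₁.pos
    exact Real.log_injOn_pos (Set.mem_Ioi.2 (by positivity)) (Set.mem_Ioi.2 (by positivity)) h3
  have h5 : p₂ ^ n = p₁ ^ r.den := by exact_mod_cast h4
  have h6 : p₁ ∣ p₂ ^ n := by
    rw [h5]
    exact dvd_pow_self _ r.den_pos.ne'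
  exact h ((Nat.prime_dvd_prime_iff_eq h₁ h₂).1 (h₁.dvd_of_dvd_pow h6))

/-- bounded simultaneous approximation -/
lemma approx (a b : ℝ) (h : Irrational (a / b)) (ε U : ℝ) (hε : 0 < ε) :
    ∃ K : ℕ, ∀ x : ℝ, |x| ≤ U → ∃ i j : ℤ, |i| ≤ K ∧ |j| ≤ K ∧ |i * a + j * b - x| ≤ ε := by
  have hd := dense_addSubgroupClosure_pair_iff.2 h
  have h1 : ∀ k : ℤ, ∃ ij : ℤ × ℤ, |(ij.1 : ℝ) * a + ij.2 * b - k * (ε / 2)| ≤ ε / 2 := by
    intro k
    obtain ⟨y, hy, hy2⟩ := Metric.dense_iff.1 hd (k * (ε / 2)) (ε / 2) (by positivity)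
    rw [Metric.mem_ball, Real.dist_eq] at hy
    obtain ⟨i, j, hij⟩ := AddSubgroup.mem_closure_pair.1 hy2
    refine ⟨(i, j), ?_⟩
    simp only [zsmul_eq_mul] at hij
    rw [hij]
    exact hy.le
  choose f hf using h1
  obtain ⟨M, hM⟩ := exists_nat_ge (U / (ε / 2) + 1)
  refine ⟨∑ k ∈ Icc (-(M : ℤ)) M, ((f k).1.natAbs + (f k).2.natAbs), fun x hx => ?_⟩
  set k := ⌊x / (ε / 2)⌋ with hk
  have hk1 : (k : ℝ) ≤ x / (ε / 2) := Int.floor_le _
  have hk2 : x / (ε / 2) < k + 1 := Int.lt_floor_add_one _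
  have he : 0 < ε / 2 := by positivity
  obtain ⟨hx1, hx2⟩ := abs_le.1 hx
  have hxu : x / (ε / 2) ≤ U / (ε / 2) := by gcongr
  have hxl : -(U / (ε / 2)) ≤ x / (ε / 2) := by
    rw [← neg_div]; gcongr
  have hkM : k ∈ Icc (-(M : ℤ)) M := by
    rw [mem_Icc]
    constructor
    · have : (-(M : ℝ)) ≤ k := by linarith
      exact_mod_cast this
    · have : (k : ℝ) ≤ M := by linarith
      exact_mod_cast this
  have hs : (f k).1.natAbs + (f k).2.natAbs ≤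
      ∑ k ∈ Icc (-(M : ℤ)) M, ((f k).1.natAbs + (f k).2.natAbs) :=
    single_le_sum (f := fun k => (f k).1.natAbs + (f k).2.natAbs) (fun _ _ => Nat.zero_le _) hkM
  refine ⟨(f k).1, (f k).2, ?_, ?_, ?_⟩
  · rw [Int.abs_eq_natAbs]
    exact_mod_cast (show (f k).1.natAbs ≤ _ by omega)
  · rw [Int.abs_eq_natAbs]
    exact_mod_cast (show (f k).2.natAbs ≤ _ by omega)
  · have h2 := hf k
    rw [le_div_iff₀ he] at hk1
    rw [div_lt_iff₀ he] at hk2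
    have h3 : |(k : ℝ) * (ε / 2) - x| ≤ ε / 2 := by
      rw [abs_le]; constructor <;> nlinarith
    calc |((f k).1 : ℝ) * a + (f k).2 * b - x| = |(((f k).1 : ℝ) * a + (f k).2 * b - k * (ε / 2)) +
          ((k : ℝ) * (ε / 2) - x)| := by ring_nf
      _ ≤ _ := abs_add_le _ _
      _ ≤ ε := by linarith

lemma ratio_up {x y t ρ : ℝ} (hx : 0 < x) (hy : 0 < y) (ht0 : 0 < t) (ht1 : t < 1) (hρ : 0 ≤ ρ)
    (h : Real.log x - Real.log y ≤ Real.log t - Real.log (1 - t) + ρ) :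
    Real.log (x / (x + y)) ≤ Real.log t + ρ := by
  have h1t : 0 < 1 - t := by linarith
  have h1 : Real.log (x * (1 - t)) ≤ Real.log (y * t * Real.exp ρ) := by
    rw [Real.log_mul hx.ne' h1t.ne', Real.log_mul (by positivity) (Real.exp_pos _).ne',
      Real.log_mul hy.ne' ht0.ne', Real.log_exp]
    linarith
  have h2 : x * (1 - t) ≤ y * t * Real.exp ρ :=
    (Real.log_le_log_iff (by positivity) (by positivity)).1 h1
  have h3 : 1 ≤ Real.exp ρ := Real.one_le_exp hρ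
  have h4 : x / (x + y) ≤ t * Real.exp ρ := by
    rw [div_le_iff₀ (by positivity)]
    nlinarith [mul_le_mul_of_nonneg_left h3 (show 0 ≤ x * t by positivity)]
  calc Real.log (x / (x + y)) ≤ Real.log (t * Real.exp ρ) :=
        Real.log_le_log (by positivity) h4
    _ = _ := by rw [Real.log_mul ht0.ne' (Real.exp_pos _).ne', Real.log_exp]

lemma ratio_lo {x y t ρ : ℝ} (hx : 0 < x) (hy : 0 < y) (ht0 : 0 < t) (ht1 : t < 1) (hρ : 0 ≤ ρ)
    (h : Real.log t - Real.log (1 - t) - ρ ≤ Real.log x - Real.log y) :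
    Real.log t - ρ ≤ Real.log (x / (x + y)) := by
  have h1t : 0 < 1 - t := by linarith
  have h1 : Real.log (y * t) ≤ Real.log (x * (1 - t) * Real.exp ρ) := by
    rw [Real.log_mul (by positivity) (Real.exp_pos _).ne', Real.log_mul hx.ne' h1t.ne',
      Real.log_mul hy.ne' ht0.ne', Real.log_exp]
    linarith
  have h2 : y * t ≤ x * (1 - t) * Real.exp ρ :=
    (Real.log_le_log_iff (by positivity) (by positivity)).1 h1
  have h3 : 1 ≤ Real.exp ρ := Real.one_le_exp hρ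
  have h4 : t ≤ x / (x + y) * Real.exp ρ := by
    rw [div_mul_eq_mul_div, le_div_iff₀ (by positivity)]
    nlinarith [mul_le_mul_of_nonneg_left h3 (show 0 ≤ x * t by positivity)]
  have h5 : Real.log t ≤ Real.log (x / (x + y) * Real.exp ρ) := Real.log_le_log ht0 h4
  rw [Real.log_mul (by positivity) (Real.exp_pos _).ne', Real.log_exp] at h5
  linarith

lemma ratio {x y t ρ : ℝ} (hx : 0 < x) (hy : 0 < y) (ht0 : 0 < t) (ht1 : t < 1) (hρ : 0 ≤ ρ)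
    (h : |(Real.log x - Real.log y) - (Real.log t - Real.log (1 - t))| ≤ ρ) :
    |Real.log (x / (x + y)) - Real.log t| ≤ ρ ∧
      |Real.log (y / (x + y)) - Real.log (1 - t)| ≤ ρ := by
  obtain ⟨h1, h2⟩ := abs_le.1 h
  have a1 := ratio_up hx hy ht0 ht1 hρ (by linarith)
  have a2 := ratio_lo hx hy ht0 ht1 hρ (by linarith)
  have a3 := ratio_up (t := 1 - t) hy hx (by linarith) (by linarith) hρ
    (by rw [sub_sub_cancel]; linarith)
  have a4 := ratio_lo (t := 1 - t) hy hx (by linarith) (by linarith) hρ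
    (by rw [sub_sub_cancel]; linarith)
  rw [add_comm y x] at a3 a4
  exact ⟨abs_le.2 ⟨by linarith, by linarith⟩, abs_le.2 ⟨by linarith, by linarith⟩⟩

lemma logM {B q φ b : ℕ} (hB : 0 < B) (hq : 0 < q) :
    Real.log ((B * q ^ (φ * b) : ℕ) : ℝ) = Real.log B + b * (φ * Real.log q) := by
  have h1 : (0 : ℝ) < B := by exact_mod_cast hB
  have h2 : (0 : ℝ) < q := by exact_mod_cast hq
  push_cast
  rw [Real.log_mul h1.ne' (by positivity), Real.log_pow]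
  push_cast
  ring

lemma logM0 {A p₁ p₂ φ a₁ a₂ : ℕ} (hA : 0 < A) (h1 : 0 < p₁) (h2 : 0 < p₂) :
    Real.log ((A * p₁ ^ (φ * a₁) * p₂ ^ (φ * a₂) : ℕ) : ℝ) =
      Real.log A + a₁ * (φ * Real.log p₁) + a₂ * (φ * Real.log p₂) := by
  rw [logM (by positivity) h2, logM hA h1]

lemma floor_toNat {n K : ℕ} {i : ℤ} (h : K ≤ n) (hi : |i| ≤ K) :
    ((((n : ℤ) + i).toNat : ℕ) : ℝ) = n + i := by
  have h1 := (abs_le.1 hi).1
  have h2 : 0 ≤ (n : ℤ) + i := by omega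
  have h3 : ((((n : ℤ) + i).toNat : ℕ) : ℤ) = n + i := Int.toNat_of_nonneg h2
  exact_mod_cast h3

lemma abs_cast_le {i : ℤ} {K : ℕ} (hi : |i| ≤ K) : |(i : ℝ)| ≤ K := by exact_mod_cast hi

end DensN

open DensN in
/-- [DENS] -/
theorem dens (p₁ p₂ q₁ r₁ : ℕ) (hp₁ : p₁.Prime) (hp₂ : p₂.Prime) (hq₁ : q₁.Prime)
    (hr₁ : r₁.Prime) (hp : p₁ ≠ p₂) (hqr : q₁ ≠ r₁) (φ : ℕ) (hφ : 0 < φ) (A B C : ℕ)
    (hA : 0 < A) (hB : 0 < B) (hC : 0 < C) (v₁ v₂ t : ℝ) (hv₁ : 0 < v₁) (hv₂ : 0 < v₂)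
    (ht0 : 0 < t) (ht1 : t < 1) (ρ : ℝ) (hρ : 0 < ρ) (s g u : ℕ) (hg : 0 < g) (hu : 0 < u) :
    ∃ E₀ : ℕ, ∀ E : ℕ, E₀ ≤ E →
      ∃ (b c : ℕ) (a₁ a₂ : Fin (2 * (g * (2 * s + 2)) + 1) → ℕ),
        Cell s g u (fun l => A * p₁ ^ (φ * a₁ l) * p₂ ^ (φ * a₂ l)) (B * q₁ ^ (φ * b))
          (C * r₁ ^ (φ * c)) ∧
        |Real.log (((B * q₁ ^ (φ * b) : ℕ) : ℝ) /
          (((B * q₁ ^ (φ * b) : ℕ) : ℝ) + ((C * r₁ ^ (φ * c) : ℕ) : ℝ))) - Real.log t| ≤ ρ ∧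
        |Real.log (((C * r₁ ^ (φ * c) : ℕ) : ℝ) /
          (((B * q₁ ^ (φ * b) : ℕ) : ℝ) + ((C * r₁ ^ (φ * c) : ℕ) : ℝ))) - Real.log (1 - t)| ≤ ρ ∧
        ∀ l, |(a₁ l : ℝ) / E - v₁| ≤ ρ ∧ |(a₂ l : ℝ) / E - v₂| ≤ ρ := by
  have hφ' : (0 : ℝ) < φ := by exact_mod_cast hφ
  have lp1 : 0 < Real.log p₁ := Real.log_pos (by exact_mod_cast hp₁.one_lt)
  have lp2 : 0 < Real.log p₂ := Real.log_pos (by exact_mod_cast hp₂.one_lt)
  have lq1 : 0 < Real.log q₁ := Real.log_pos (by exact_mod_cast hq₁.one_lt)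
  have lr1 : 0 < Real.log r₁ := Real.log_pos (by exact_mod_cast hr₁.one_lt)
  have lA : 0 ≤ Real.log A := Real.log_nonneg (by exact_mod_cast hA)
  have lB : 0 ≤ Real.log B := Real.log_nonneg (by exact_mod_cast hB)
  have lC : 0 ≤ Real.log C := Real.log_nonneg (by exact_mod_cast hC)
  have hg' : (0 : ℝ) < g := by exact_mod_cast hg
  have hu' : (0 : ℝ) < u := by exact_mod_cast hu
  set a := (φ : ℝ) * Real.log q₁ with ha
  set b' := (φ : ℝ) * Real.log r₁ with hb'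
  set α := (φ : ℝ) * Real.log p₁ with hα
  set β := (φ : ℝ) * Real.log p₂ with hβ
  have a0 : 0 < a := by positivity
  have b0 : 0 < b' := by positivity
  have α0 : 0 < α := by positivity
  have β0 : 0 < β := by positivity
  set w₀ := Real.log t - Real.log (1 - t) with hw₀
  set τ := Real.log (1 + 1 / (u : ℝ)) / g with hτ
  have τ0 : 0 < τ := by
    have : 0 < Real.log (1 + 1 / (u : ℝ)) := Real.log_pos (by
      have : 0 < 1 / (u : ℝ) := by positivity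
      linarith)
    positivity
  set L : ℕ := g * (2 * s + 2) with hL
  obtain ⟨K₁, hK₁⟩ := approx a b' (by
    rw [ha, hb', mul_div_mul_left _ _ hφ'.ne']
    exact irr_log hq₁ hr₁ hqr) ρ (|w₀| + a + b') hρ
  set c₁ := Real.log 2 + (1 + (K₁ : ℝ)) * (a + b') with hc₁
  obtain ⟨K₂, hK₂⟩ := approx α β (by
    rw [hα, hβ, mul_div_mul_left _ _ hφ'.ne']
    exact irr_log hp₁ hp₂ hp) (τ / 10) (c₁ + L * τ + (α + β)) (by positivity)
  set w := v₁ * α + v₂ * β with hw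
  have w0 : 0 < w := by positivity
  obtain ⟨E₀, hE₀⟩ := exists_nat_ge (((K₂ : ℝ) + 1) / v₁ + (K₂ + 1) / v₂ +
    ((K₁ + 1) * a + Real.log B) / w + ((K₁ + 1) * b' + Real.log C) / w + (1 + K₂) / ρ + 1)
  refine ⟨E₀, fun E hE => ?_⟩
  have hEE : (E₀ : ℝ) ≤ E := by exact_mod_cast hE
  have e1 : 0 ≤ ((K₂ : ℝ) + 1) / v₁ := by positivity
  have e2 : 0 ≤ ((K₂ : ℝ) + 1) / v₂ := by positivity
  have e3 : 0 ≤ ((K₁ + 1) * a + Real.log B) / w := by positivity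
  have e4 : 0 ≤ ((K₁ + 1) * b' + Real.log C) / w := by positivity
  have e5 : 0 ≤ (1 + (K₂ : ℝ)) / ρ := by positivity
  have E1 : (K₂ : ℝ) + 1 ≤ E * v₁ := by
    rw [← div_le_iff₀ hv₁]; linarith
  have E2 : (K₂ : ℝ) + 1 ≤ E * v₂ := by
    rw [← div_le_iff₀ hv₂]; linarith
  have E3 : (K₁ + 1) * a + Real.log B ≤ E * w := by
    rw [← div_le_iff₀ w0]; linarith
  have E4 : (K₁ + 1) * b' + Real.log C ≤ E * w := by
    rw [← div_le_iff₀ w0]; linarith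
  have E5 : 1 + (K₂ : ℝ) ≤ E * ρ := by
    rw [← div_le_iff₀ hρ]; linarith
  have Epos : (0 : ℝ) < E := by linarith
  set X := Real.log A + E * w with hX
  have hXB : (K₁ + 1) * a ≤ X - Real.log B := by rw [hX]; linarith
  have hXC : (K₁ + 1) * b' ≤ X - Real.log C := by rw [hX]; linarith
  have hKa : 0 ≤ ((K₁ : ℝ) + 1) * a := by positivity
  have hKb : 0 ≤ ((K₁ : ℝ) + 1) * b' := by positivity
  -- `b₀`, `c₀`
  set b₀ := ⌊(X - Real.log B) / a⌋₊ with hb₀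
  set c₀ := ⌊(X - Real.log C) / b'⌋₊ with hc₀
  have B1 : (b₀ : ℝ) * a ≤ X - Real.log B := by
    rw [← le_div_iff₀ a0]
    exact Nat.floor_le (div_nonneg (hKa.trans hXB) a0.le)
  have B2 : X - Real.log B < (b₀ + 1) * a := by
    rw [← div_lt_iff₀ a0]
    exact Nat.lt_floor_add_one _
  have C1 : (c₀ : ℝ) * b' ≤ X - Real.log C := by
    rw [← le_div_iff₀ b0]
    exact Nat.floor_le (div_nonneg (hKb.trans hXC) b0.le)
  have C2 : X - Real.log C < (c₀ + 1) * b' := by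
    rw [← div_lt_iff₀ b0]
    exact Nat.lt_floor_add_one _
  have B3 : K₁ ≤ b₀ := by
    have h1 : (K₁ + 1) * a < (b₀ + 1) * a := by linarith
    have h2 : (K₁ : ℝ) + 1 < b₀ + 1 := lt_of_mul_lt_mul_right h1 a0.le
    have h3 : (K₁ : ℝ) < b₀ := by linarith
    have h4 : K₁ < b₀ := by exact_mod_cast h3
    exact h4.le
  have C3 : K₁ ≤ c₀ := by
    have h1 : (K₁ + 1) * b' < (c₀ + 1) * b' := by linarith
    have h2 : (K₁ : ℝ) + 1 < c₀ + 1 := lt_of_mul_lt_mul_right h1 b0.le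
    have h3 : (K₁ : ℝ) < c₀ := by linarith
    have h4 : K₁ < c₀ := by exact_mod_cast h3
    exact h4.le
  set D := (Real.log B + b₀ * a) - (Real.log C + c₀ * b') with hD
  have hDle : |D| ≤ a + b' := by
    rw [abs_le]; constructor <;> linarith
  obtain ⟨i, j, hi, hj, hij⟩ := hK₁ (w₀ - D) (by
    calc |w₀ - D| ≤ |w₀| + |D| := abs_sub _ _
      _ ≤ _ := by linarith)
  have hj' : |-j| ≤ K₁ := by rwa [abs_neg]
  have hib := abs_le.1 (abs_cast_le hi)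
  have hjb := abs_le.1 (abs_cast_le hj)
  set b := ((b₀ : ℤ) + i).toNat with hb
  set c := ((c₀ : ℤ) + -j).toNat with hc
  have hbr : (b : ℝ) = b₀ + i := floor_toNat B3 hi
  have hcr : (c : ℝ) = c₀ - j := by
    rw [hc, floor_toNat C3 hj']; push_cast; ring
  set M1 : ℕ := B * q₁ ^ (φ * b) with hM1
  set M2 : ℕ := C * r₁ ^ (φ * c) with hM2
  have l1 : Real.log (M1 : ℝ) = Real.log B + (b₀ + i) * a := by
    rw [hM1, logM hB hq₁.pos, hbr]
  have l2 : Real.log (M2 : ℝ) = Real.log C + (c₀ - j) * b' := by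
    rw [hM2, logM hC hr₁.pos, hcr]
  have m1 : (0 : ℝ) < M1 := by
    rw [hM1]
    exact_mod_cast Nat.mul_pos hB (pow_pos hq₁.pos _)
  have m2 : (0 : ℝ) < M2 := by
    rw [hM2]
    exact_mod_cast Nat.mul_pos hC (pow_pos hr₁.pos _)
  obtain ⟨r1, r2⟩ := ratio m1 m2 ht0 ht1 hρ.le (by
    have : (Real.log (M1 : ℝ) - Real.log (M2 : ℝ)) - (Real.log t - Real.log (1 - t)) =
        i * a + j * b' - (w₀ - D) := by
      rw [l1, l2, hw₀, hD]; ring
    rw [this]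
    exact hij)
  -- the size of `M1 + M2`
  set Y := Real.log ((M1 : ℝ) + M2) with hY
  have Y1 : X - c₁ ≤ Y := by
    have h1 : Real.log (M1 : ℝ) ≤ Y := Real.log_le_log m1 (by linarith)
    have h2 : 0 ≤ Real.log 2 := Real.log_nonneg (by norm_num)
    rw [l1] at h1
    have h3 : -(K₁ : ℝ) * a ≤ i * a := mul_le_mul_of_nonneg_right hib.1 a0.le
    have h4 : 0 ≤ (1 + (K₁ : ℝ)) * b' := by positivity
    rw [hc₁]
    linarith
  have Y2 : Y ≤ X + c₁ := by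
    have h3 : (i : ℝ) * a ≤ K₁ * a := mul_le_mul_of_nonneg_right hib.2 a0.le
    have h3' : -(j : ℝ) * b' ≤ K₁ * b' :=
      mul_le_mul_of_nonneg_right (by linarith) b0.le
    have k1 : 0 ≤ (K₁ : ℝ) * a := by positivity
    have k2 : 0 ≤ (K₁ : ℝ) * b' := by positivity
    have h4 : (M1 : ℝ) ≤ Real.exp (X + K₁ * (a + b')) := by
      rw [← Real.log_le_iff_le_exp m1, l1]
      linarith
    have h5 : (M2 : ℝ) ≤ Real.exp (X + K₁ * (a + b')) := by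
      rw [← Real.log_le_iff_le_exp m2, l2]
      linarith
    have h6 : Y ≤ Real.log (2 * Real.exp (X + K₁ * (a + b'))) :=
      Real.log_le_log (by positivity) (by linarith)
    rw [Real.log_mul (by norm_num) (Real.exp_pos _).ne', Real.log_exp] at h6
    rw [hc₁]
    linarith
  -- the exponents
  set n₁ := ⌊(E : ℝ) * v₁⌋₊ with hn₁
  set n₂ := ⌊(E : ℝ) * v₂⌋₊ with hn₂
  have N1 : (n₁ : ℝ) ≤ E * v₁ := Nat.floor_le (by positivity)
  have N2 : (E : ℝ) * v₁ < n₁ + 1 := Nat.lt_floor_add_one _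
  have N3 : (n₂ : ℝ) ≤ E * v₂ := Nat.floor_le (by positivity)
  have N4 : (E : ℝ) * v₂ < n₂ + 1 := Nat.lt_floor_add_one _
  have N5 : K₂ ≤ n₁ := by
    have h3 : (K₂ : ℝ) < n₁ := by linarith
    have h4 : K₂ < n₁ := by exact_mod_cast h3
    exact h4.le
  have N6 : K₂ ≤ n₂ := by
    have h3 : (K₂ : ℝ) < n₂ := by linarith
    have h4 : K₂ < n₂ := by exact_mod_cast h3
    exact h4.le
  set Z := Real.log A + n₁ * α + n₂ * β with hZ
  have z1 := mul_le_mul_of_nonneg_right N1 α0.le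
  have z2 := mul_le_mul_of_nonneg_right N3 β0.le
  have z3 := mul_le_mul_of_nonneg_right N2.le α0.le
  have z4 := mul_le_mul_of_nonneg_right N4.le β0.le
  have Z1 : Z ≤ X := by
    rw [hZ, hX, hw]
    linarith
  have Z2 : X - (α + β) ≤ Z := by
    rw [hZ, hX, hw]
    linarith
  have hl : ∀ l : Fin (2 * L + 1), ∃ ij : ℤ × ℤ, |ij.1| ≤ K₂ ∧ |ij.2| ≤ K₂ ∧
      |ij.1 * α + ij.2 * β - (Y + (((l : ℕ) : ℝ) - (L : ℕ)) * τ - Z)| ≤ τ / 10 := by
    intro l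
    have hl2 : ((l : ℕ) : ℝ) ≤ 2 * L := by
      have := l.2
      have h : (l : ℕ) ≤ 2 * L := by omega
      exact_mod_cast h
    have hl0 : (0 : ℝ) ≤ ((l : ℕ) : ℝ) := Nat.cast_nonneg _
    have t1 : (((l : ℕ) : ℝ) - L) * τ ≤ L * τ :=
      mul_le_mul_of_nonneg_right (by linarith) τ0.le
    have t2 : -(L : ℝ) * τ ≤ (((l : ℕ) : ℝ) - L) * τ :=
      mul_le_mul_of_nonneg_right (by linarith) τ0.le
    obtain ⟨i, j, h1, h2, h3⟩ := hK₂ (Y + (((l : ℕ) : ℝ) - (L : ℕ)) * τ - Z) (by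
      rw [abs_le]; constructor <;> linarith)
    exact ⟨(i, j), h1, h2, h3⟩
  choose ij hi2 hj2 hij2 using hl
  have ha1 : ∀ l, ((((n₁ : ℤ) + (ij l).1).toNat : ℕ) : ℝ) = n₁ + (ij l).1 :=
    fun l => floor_toNat N5 (hi2 l)
  have ha2 : ∀ l, ((((n₂ : ℤ) + (ij l).2).toNat : ℕ) : ℝ) = n₂ + (ij l).2 :=
    fun l => floor_toNat N6 (hj2 l)
  refine ⟨b, c, fun l => ((n₁ : ℤ) + (ij l).1).toNat, fun l => ((n₂ : ℤ) + (ij l).2).toNat,
    ?_, r1, r2, ?_⟩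
  · intro l
    have h0 : (0 : ℝ) < ((A * p₁ ^ (φ * ((n₁ : ℤ) + (ij l).1).toNat) *
        p₂ ^ (φ * ((n₂ : ℤ) + (ij l).2).toNat) : ℕ) : ℝ) := by
      exact_mod_cast Nat.mul_pos (Nat.mul_pos hA (pow_pos hp₁.pos _)) (pow_pos hp₂.pos _)
    have h1 : Real.log (((A * p₁ ^ (φ * ((n₁ : ℤ) + (ij l).1).toNat) *
        p₂ ^ (φ * ((n₂ : ℤ) + (ij l).2).toNat) : ℕ) : ℝ) / ((M1 : ℝ) + M2)) =
        Z + (ij l).1 * α + (ij l).2 * β - Y := by
      rw [Real.log_div h0.ne' (by positivity), logM0 hA hp₁.pos hp₂.pos, ha1, ha2, hZ]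
      ring
    show |Real.log (((A * p₁ ^ (φ * ((n₁ : ℤ) + (ij l).1).toNat) *
        p₂ ^ (φ * ((n₂ : ℤ) + (ij l).2).toNat) : ℕ) : ℝ) / ((M1 : ℝ) + M2)) -
        (((l : ℕ) : ℝ) - (L : ℕ)) * τ| ≤ τ / 10
    rw [h1]
    have h2 := hij2 l
    have h3 : Z + (ij l).1 * α + (ij l).2 * β - Y - (((l : ℕ) : ℝ) - (L : ℕ)) * τ =
        (ij l).1 * α + (ij l).2 * β - (Y + (((l : ℕ) : ℝ) - (L : ℕ)) * τ - Z) := by ring
    rw [h3]
    exact h2
  · intro l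
    have i1 := abs_le.1 (abs_cast_le (hi2 l))
    have i2 := abs_le.1 (abs_cast_le (hj2 l))
    constructor
    · show |((((n₁ : ℤ) + (ij l).1).toNat : ℕ) : ℝ) / E - v₁| ≤ ρ
      rw [ha1]
      have : ((n₁ : ℝ) + (ij l).1) / E - v₁ = (n₁ + (ij l).1 - E * v₁) / E := by
        field_simp
      rw [this, abs_div, abs_of_pos Epos, div_le_iff₀ Epos, abs_le]
      constructor <;> linarith
    · show |((((n₂ : ℤ) + (ij l).2).toNat : ℕ) : ℝ) / E - v₂| ≤ ρ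
      rw [ha2]
      have : ((n₂ : ℝ) + (ij l).2) / E - v₂ = (n₂ + (ij l).2 - E * v₂) / E := by
        field_simp
      rw [this, abs_div, abs_of_pos Epos, div_le_iff₀ Epos, abs_le]
      constructor <;> linarith

end Pool.Agent.H366.ZC
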