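import Pool.Agent.H366.ZC.Uni

/-! # [EXP] multilinear expansions -/

set_option autoImplicit false

namespace Pool.Agent.H366.ZC

namespace ExpN

section A

variable {W : Type} [AddCommGroup W] {n' : ℕ}

/-- the coefficients of `1, a_0, …, a_3` in terms of `vo v` -/
def cf (α : Fin 4 → Option (Fin 4) → ℝ) : Option (Fin 4) → Option (Fin 4) → ℝ
  | none, o => if o = none then 1 else 0
  | some j, o => α j o

/-- the vectors -/
def yy (w : Fin 4 → W) (w' : W) : Option (Fin 4) → W
  | none => w'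
  | some j => w j

/-- the coefficients of the expansion -/
noncomputable def GG (Q : MultilinearMap ℤ (fun _ : Fin n' => W) ℝ)
    (α : Fin 4 → Option (Fin 4) → ℝ) (w : Fin 4 → W) (w' : W) (g : Fin n' → Option (Fin 4)) : ℝ :=
  ∑ f : Fin n' → Option (Fin 4), (∏ k, cf α (f k) (g k)) * Q (fun k => yy w w' (f k))

theorem GG_spec (Q : MultilinearMap ℤ (fun _ : Fin n' => W) ℝ)
    (α : Fin 4 → Option (Fin 4) → ℝ) (w : Fin 4 → W) (v : Fin 4 → ℝ) (a : Fin 4 → ℤ)
    (h : ∀ j, (a j : ℝ) = ∑ o : Option (Fin 4), α j o * vo v o) (w' : W) :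
    Q (fun _ => w' + ∑ j, a j • w j) = ∑ g : Fin n' → Option (Fin 4),
      (∏ k, vo v (g k)) * GG Q α w w' g := by
  classical
  let b : Option (Fin 4) → ℤ := fun o => o.elim 1 a
  have hb : ∀ o, (b o : ℝ) = ∑ o', cf α o o' * vo v o' := by
    intro o
    cases o with
    | none =>
      show ((1 : ℤ) : ℝ) = _
      have h1 : ∀ o' : Option (Fin 4), cf α none o' * vo v o' =
          if o' = none then vo v o' else 0 := by
        intro o'
        show (if o' = none then (1 : ℝ) else 0) * vo v o' = _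
        split_ifs <;> simp
      rw [Finset.sum_congr rfl fun o' _ => h1 o', Finset.sum_ite_eq', if_pos (Finset.mem_univ _)]
      simp [vo]
    | some j => exact h j
  have h1 : w' + ∑ j, a j • w j = ∑ o, b o • yy w w' o := by
    rw [Fintype.sum_option]
    show w' + _ = (1 : ℤ) • w' + _
    rw [one_zsmul]
    rfl
  rw [h1]
  have h2 : Q (fun _ => ∑ o, b o • yy w w' o) =
      ∑ f : Fin n' → Option (Fin 4), Q (fun k => b (f k) • yy w w' (f k)) :=
    Q.map_sum (fun _ o => b o • yy w w' o)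
  rw [h2]
  have h3 : ∀ f : Fin n' → Option (Fin 4), Q (fun k => b (f k) • yy w w' (f k)) =
      ∑ g : Fin n' → Option (Fin 4), (∏ k, vo v (g k)) *
        ((∏ k, cf α (f k) (g k)) * Q (fun k => yy w w' (f k))) := by
    intro f
    rw [Q.map_smul_univ (fun k => b (f k)) (fun k => yy w w' (f k)), zsmul_eq_mul, Int.cast_prod,
      Finset.prod_congr rfl fun k _ => hb (f k), Finset.prod_univ_sum, Finset.sum_mul]
    rw [Fintype.piFinset_univ]
    refine Finset.sum_congr rfl fun g _ => ?_
    rw [Finset.prod_mul_distrib]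
    ring
  rw [Finset.sum_congr rfl fun f _ => h3 f, Finset.sum_comm]
  refine Finset.sum_congr rfl fun g _ => ?_
  unfold GG
  rw [Finset.mul_sum]

/-- functions of `n'` slots are functions of `n ≥ n'` slots -/
theorem slots {ι S : Type} [Fintype ι] [DecidableEq ι] [Nonempty ι] {n : ℕ} (hn : n' ≤ n)
    (F' : (Fin n' → ι) → (Fin n' → S) → ℝ) :
    ∃ F : (Fin n → ι) → (Fin n → S) → ℝ, ∀ z : ι → S,
      ∑ j : Fin n' → ι, F' j (z ∘ j) = ∑ j : Fin n → ι, F j (z ∘ j) := by
  classical
  obtain ⟨r, rfl⟩ := Nat.exists_eq_add_of_le hn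
  obtain ⟨i₀⟩ := (inferInstance : Nonempty ι)
  refine ⟨fun j s => if (fun k : Fin r => j (Fin.natAdd n' k)) = (fun _ => i₀) then
    F' (fun k => j (Fin.castAdd r k)) (fun k => s (Fin.castAdd r k)) else 0, fun z => ?_⟩
  rw [← (Fin.appendEquiv n' r (α := ι)).sum_comp, Fintype.sum_prod_type]
  refine Finset.sum_congr rfl fun j _ => ?_
  have h1 : ∀ j'' : Fin r → ι,
      (if (fun k : Fin r => Fin.appendEquiv n' r (j, j'') (Fin.natAdd n' k)) = (fun _ => i₀) then
        F' (fun k => Fin.appendEquiv n' r (j, j'') (Fin.castAdd r k))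
          (fun k => (z ∘ Fin.appendEquiv n' r (j, j'')) (Fin.castAdd r k)) else 0) =
      if j'' = (fun _ => i₀) then F' j (z ∘ j) else 0 := by
    intro j''
    have h2 : (fun k : Fin r => Fin.appendEquiv n' r (j, j'') (Fin.natAdd n' k)) = j'' := by
      funext k
      simp [Fin.appendEquiv]
    have h3 : (fun k : Fin n' => Fin.appendEquiv n' r (j, j'') (Fin.castAdd r k)) = j := by
      funext k
      simp [Fin.appendEquiv]
    have h4 : (fun k : Fin n' => (z ∘ Fin.appendEquiv n' r (j, j'')) (Fin.castAdd r k)) =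
        z ∘ j := by
      funext k
      simp [Fin.appendEquiv]
    rw [h2, h3, h4]
  rw [Finset.sum_congr rfl fun j'' _ => h1 j'', Finset.sum_ite_eq', if_pos (Finset.mem_univ _)]

/-- functions of `n` slots form a vector space -/
theorem slots_sum {ι S J : Type} [Fintype ι] [Fintype J] {n : ℕ} (H : J → (ι → S) → ℝ) (c : J → ℝ)
    (h : ∀ f, ∃ F : (Fin n → ι) → (Fin n → S) → ℝ, ∀ z : ι → S, H f z = ∑ j, F j (z ∘ j)) :
    ∃ F : (Fin n → ι) → (Fin n → S) → ℝ, ∀ z : ι → S, ∑ f, c f * H f z = ∑ j, F j (z ∘ j) := by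
  choose F hF using h
  refine ⟨fun j s => ∑ f, c f * F f j s, fun z => ?_⟩
  rw [Finset.sum_comm]
  refine Finset.sum_congr rfl fun f _ => ?_
  rw [hF, Finset.mul_sum]

theorem one_term (Q : MultilinearMap ℤ (fun _ : Fin n' => W) ℝ) {n : ℕ} {ι S : Type} [Fintype ι]
    [DecidableEq ι] [Nonempty ι] (hn : n' ≤ n) (w : Fin 4 → W) (w₀ : W) (β : ι → S → W)
    (f : Fin n' → Option (Fin 4)) :
    ∃ F : (Fin n → ι) → (Fin n → S) → ℝ, ∀ z : ι → S,
      Q (fun k => yy w (w₀ + ∑ i, β i (z i)) (f k)) = ∑ j, F j (z ∘ j) := by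
  classical
  obtain ⟨i₀⟩ := (inferInstance : Nonempty ι)
  let B : Option (Fin 4) → ι → S → W := fun o i s =>
    (if i = i₀ then yy w w₀ o else 0) + (if o = none then β i s else 0)
  have hB : ∀ (z : ι → S) (o : Option (Fin 4)),
      yy w (w₀ + ∑ i, β i (z i)) o = ∑ i, B o i (z i) := by
    intro z o
    have h1 : ∑ i, B o i (z i) = yy w w₀ o + ∑ i, (if o = none then β i (z i) else 0) := by
      show ∑ i, ((if i = i₀ then yy w w₀ o else 0) + (if o = none then β i (z i) else 0)) = _
      rw [Finset.sum_add_distrib, Finset.sum_ite_eq', if_pos (Finset.mem_univ _)]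
    rw [h1]
    cases o with
    | none => simp [yy]
    | some j => simp [yy]
  obtain ⟨F, hF⟩ := slots (n := n) hn
    (fun (j : Fin n' → ι) (s : Fin n' → S) => Q (fun k => B (f k) (j k) (s k)))
  refine ⟨F, fun z => ?_⟩
  rw [← hF z]
  have h2 : (fun k => yy w (w₀ + ∑ i, β i (z i)) (f k)) = fun k => ∑ i, B (f k) i (z i) :=
    funext fun k => hB z (f k)
  rw [h2]
  exact Q.map_sum (fun k i => B (f k) i (z i))

end A

end ExpN

/-- [EXP1] expansion of a multilinear form in real coordinates which are affine functions of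
integers. -/
theorem expand_affine {W : Type} [AddCommGroup W] {n' : ℕ}
    (Q : MultilinearMap ℤ (fun _ : Fin n' => W) ℝ) (α : Fin 4 → Option (Fin 4) → ℝ)
    (w : Fin 4 → W) :
    ∃ 𝒢 : W → (Fin n' → Option (Fin 4)) → ℝ,
      (∀ (v : Fin 4 → ℝ) (a : Fin 4 → ℤ),
        (∀ j, (a j : ℝ) = ∑ o : Option (Fin 4), α j o * vo v o) → ∀ w' : W,
        Q (fun _ => w' + ∑ j, a j • w j) = ∑ g : Fin n' → Option (Fin 4),
          (∏ k, vo v (g k)) * 𝒢 w' g) ∧
      ∀ (n : ℕ) (ι S : Type) [Fintype ι] [DecidableEq ι] [Nonempty ι], n' ≤ n →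
        ∀ (w₀ : W) (β : ι → S → W) (g : Fin n' → Option (Fin 4)),
        ∃ F : (Fin n → ι) → (Fin n → S) → ℝ,
          ∀ z : ι → S, 𝒢 (w₀ + ∑ i, β i (z i)) g = ∑ j, F j (z ∘ j) := by
  refine ⟨ExpN.GG Q α w, fun v a h w' => ExpN.GG_spec Q α w v a h w', ?_⟩
  intro n ι S _ _ _ hn w₀ β g
  exact ExpN.slots_sum
    (fun (f : Fin n' → Option (Fin 4)) (z : ι → S) =>
      Q (fun k => ExpN.yy w (w₀ + ∑ i, β i (z i)) (f k)))
    (fun f => ∏ k, ExpN.cf α (f k) (g k)) (fun f => ExpN.one_term Q hn w w₀ β f)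

/-- [EXP2] the leading coefficient along a line -/
theorem leadW {W : Type} [AddCommGroup W] {n' n : ℕ}
    (Q : MultilinearMap ℤ (fun _ : Fin n' => W) ℝ) (hn : n' ≤ n) (x y : W) (L : ℕ → ℤ)
    (hL : Function.Injective L) (h : ∀ j < n + 1, Q (fun _ => L j • x + y) = 0) :
    Q (fun _ => x) = 0 := by
  classical
  let p : Polynomial ℝ := ∑ s : Finset (Fin n'), Polynomial.X ^ s.card *
    Polynomial.C (Q (s.piecewise (fun _ => x) (fun _ => y)))
  have hd : p.natDegree ≤ n := by
    refine Polynomial.natDegree_sum_le_of_forall_le _ _ fun s _ => ?_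
    have h1 : s.card ≤ n' := by
      have := Finset.card_le_univ s
      rwa [Fintype.card_fin] at this
    refine Polynomial.natDegree_mul_le.trans ?_
    rw [Polynomial.natDegree_X_pow, Polynomial.natDegree_C]
    omega
  have hc : p.coeff n' = Q (fun _ => x) := by
    show (∑ s : Finset (Fin n'), Polynomial.X ^ s.card *
      Polynomial.C (Q (s.piecewise (fun _ => x) (fun _ => y)))).coeff n' = _
    rw [Polynomial.finsetSum_coeff, Finset.sum_eq_single (Finset.univ : Finset (Fin n'))]
    · rw [Finset.card_univ, Fintype.card_fin, Polynomial.coeff_X_pow_mul']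
      simp [Finset.piecewise_univ]
    · intro s _ hs
      have h1 : s.card < n' := by
        have h3 : s.card < (Finset.univ : Finset (Fin n')).card :=
          Finset.card_lt_card (Finset.ssubset_univ_iff.2 hs)
        rwa [Finset.card_univ, Fintype.card_fin] at h3
      apply Polynomial.coeff_eq_zero_of_natDegree_lt
      refine lt_of_le_of_lt Polynomial.natDegree_mul_le ?_
      rw [Polynomial.natDegree_X_pow, Polynomial.natDegree_C]
      omega
    · simp
  have hp : ∀ i : ℤ, Q (fun _ => i • x + y) = p.eval (i : ℝ) := by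
    intro i
    have h1 : Q (fun _ => i • x + y) = ∑ s : Finset (Fin n'),
        i ^ s.card • Q (s.piecewise (fun _ => x) (fun _ => y)) := by
      have h2 := Q.map_add_univ (fun _ => i • x) (fun _ => y)
      have h3 : ((fun _ => i • x) + fun _ => y : Fin n' → W) = fun _ => i • x + y := rfl
      rw [h3] at h2
      rw [h2]
      refine Finset.sum_congr rfl fun s _ => ?_
      have h4 := Q.map_piecewise_smul (fun _ => i) (s.piecewise (fun _ => x) (fun _ => y)) s
      rw [Finset.prod_const] at h4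
      rw [← h4]
      congr 1
      funext j
      by_cases hj : j ∈ s
      · simp [Finset.piecewise_eq_of_mem, hj]
      · simp [Finset.piecewise_eq_of_notMem, hj]
    rw [h1]
    show _ = (∑ s : Finset (Fin n'), Polynomial.X ^ s.card *
      Polynomial.C (Q (s.piecewise (fun _ => x) (fun _ => y)))).eval (i : ℝ)
    rw [Polynomial.eval_finsetSum]
    refine Finset.sum_congr rfl fun s _ => ?_
    rw [zsmul_eq_mul]
    simp only [Polynomial.eval_mul, Polynomial.eval_pow, Polynomial.eval_X, Polynomial.eval_C]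
    push_cast
    ring
  have hp0 : p = 0 := by
    refine Polynomial.eq_zero_of_natDegree_lt_card_of_eval_eq_zero (ι := Fin (n + 1)) p
      (f := fun j => ((L j : ℤ) : ℝ)) ?_ ?_ ?_
    · intro a b hab
      have hab' : ((L a : ℤ) : ℝ) = ((L b : ℤ) : ℝ) := hab
      exact Fin.ext (hL (by exact_mod_cast hab'))
    · intro j
      rw [← hp]
      exact h j j.2
    · rw [Fintype.card_fin]; omega
  rw [← hc, hp0, Polynomial.coeff_zero]

end Pool.Agent.H366.ZC
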