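import Pool.Agent.H366.ZC.Base

/-! # [RS] the smooth weights of a cell -/

set_option autoImplicit false

namespace Pool.Agent.H366.ZC

open Pool.Agent.H366.GF (Ex ExC)

/-- The cell condition: `log (M₀(l) / (M₁ + M₂))`, `0 ≤ l ≤ 2 g (2 s + 2)`, is close to
`(l - g (2 s + 2)) log(1 + 1/u) / g`. -/
def Cell (s g u : ℕ) (M0 : Fin (2 * (g * (2 * s + 2)) + 1) → ℕ) (M1 M2 : ℕ) : Prop :=
  ∀ l, |Real.log ((M0 l : ℝ) / ((M1 : ℝ) + M2)) -
    (((l : ℕ) : ℝ) - (g * (2 * s + 2) : ℕ)) * (Real.log (1 + 1 / (u : ℝ)) / g)| ≤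
      Real.log (1 + 1 / (u : ℝ)) / g / 10

namespace RSN

open Pool.Agent.H366.GF (Ex_mono Ex_const Ex_sum Ex_mul_left Ex_equiv Ex_prod)

section resample

variable {s N : ℕ}

/-- resampling of one coordinate -/
def up (i0 : Fin s) (w : Fin 3 → Fin s → Fin N) (h : Fin N) : Fin 3 → Fin s → Fin N :=
  Function.update w 0 (Function.update (w 0) i0 h)

lemma up_self (i0 : Fin s) (w : Fin 3 → Fin s → Fin N) (h : Fin N) : up i0 w h 0 i0 = h := by
  unfold up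
  rw [Function.update_self, Function.update_self]

lemma up_up (i0 : Fin s) (w : Fin 3 → Fin s → Fin N) (h : Fin N) :
    up i0 (up i0 w h) (w 0 i0) = w := by
  unfold up
  rw [Function.update_self, Function.update_idem, Function.update_idem,
    Function.update_eq_self, Function.update_eq_self]

/-- exchange of a coordinate -/
def swp (i0 : Fin s) : ((Fin 3 → Fin s → Fin N) × Fin N) ≃ ((Fin 3 → Fin s → Fin N) × Fin N) where
  toFun p := (up i0 p.1 p.2, p.1 0 i0)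
  invFun p := (up i0 p.1 p.2, p.1 0 i0)
  left_inv p := by
    obtain ⟨w, h⟩ := p
    simp only [up_up, up_self]
  right_inv p := by
    obtain ⟨w, h⟩ := p
    simp only [up_up, up_self]

lemma Ex_up [NeZero N] (i0 : Fin s) (G : (Fin 3 → Fin s → Fin N) → ℝ) :
    Ex G = Ex (fun w => Ex (fun h => G (up i0 w h))) := by
  rw [← Ex_prod (fun p : (Fin 3 → Fin s → Fin N) × Fin N => G (up i0 p.1 p.2))]
  have h1 := Ex_equiv (swp (N := N) i0) (fun p => G p.1)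
  have h2 : Ex (fun p : (Fin 3 → Fin s → Fin N) × Fin N => G p.1) = Ex G := by
    rw [Ex_prod]
    simp only [Ex_const]
  rw [← h2, ← h1]
  rfl

lemma avg [NeZero N] (i0 : Fin s) (F : (Fin 3 → Fin s → Fin N) → ℝ) (V : Fin 3 → Finset (Fin s))
    (hi : i0 ∉ V 0) (z : Fin 3 → Fin s → Fin N) (B : ℝ)
    (hB : ∀ w, |Ex (fun h => F (up i0 w h)) - 1| ≤ B) :
    |Ex (fun z' : Fin 3 → Fin s → Fin N => F (fun X => (V X).piecewise (z X) (z' X))) - 1| ≤ B := by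
  rw [Ex_up i0]
  have h1 : ∀ (w : Fin 3 → Fin s → Fin N) (h : Fin N),
      (fun X => (V X).piecewise (z X) (up i0 w h X)) =
        up i0 (fun X => (V X).piecewise (z X) (w X)) h := by
    intro w h
    funext X
    by_cases hX : X = 0
    · subst hX
      unfold up
      rw [Function.update_self, Function.update_self]
      funext i
      by_cases hii : i = i0
      · subst hii
        rw [Finset.piecewise_eq_of_notMem _ _ _ hi, Function.update_self, Function.update_self]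
      · rw [Function.update_of_ne hii]
        change _ = (V 0).piecewise (z 0) (w 0) i
        by_cases hiV : i ∈ V 0
        · rw [Finset.piecewise_eq_of_mem _ _ _ hiV, Finset.piecewise_eq_of_mem _ _ _ hiV]
        · rw [Finset.piecewise_eq_of_notMem _ _ _ hiV, Finset.piecewise_eq_of_notMem _ _ _ hiV,
            Function.update_of_ne hii]
    · unfold up
      rw [Function.update_of_ne hX, Function.update_of_ne hX]
  simp only [h1]
  rw [abs_le]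
  have h2 : ∀ w, 1 - B ≤ Ex (fun h => F (up i0 w h)) ∧ Ex (fun h => F (up i0 w h)) ≤ 1 + B := by
    intro w
    have := abs_le.1 (hB w)
    constructor <;> linarith [this.1, this.2]
  constructor
  · have h3 : Ex (fun _ : Fin 3 → Fin s → Fin N => (1 - B)) ≤
        Ex (fun w : Fin 3 → Fin s → Fin N =>
          Ex (fun h => F (up i0 (fun X => (V X).piecewise (z X) (w X)) h))) :=
      Ex_mono fun w => (h2 _).1
    rw [Ex_const] at h3
    linarith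
  · have h3 : Ex (fun w : Fin 3 → Fin s → Fin N =>
          Ex (fun h => F (up i0 (fun X => (V X).piecewise (z X) (w X)) h))) ≤
        Ex (fun _ : Fin 3 → Fin s → Fin N => (1 + B)) :=
      Ex_mono fun w => (h2 _).2
    rw [Ex_const] at h3
    linarith

end resample

section counting

open Classical in
/-- the number of points in a window -/
noncomputable def cnt (D : ℕ) (x δ : ℝ) : ℕ :=
  ((Finset.univ : Finset (Fin D)).filter fun h : Fin D => |((h : ℕ) : ℝ) - x| ≤ δ).card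

lemma cnt_le (D : ℕ) (x δ : ℝ) (hδ : 0 ≤ δ) : (cnt D x δ : ℝ) ≤ 2 * δ + 1 := by
  classical
  unfold cnt
  have h1 : ((Finset.univ : Finset (Fin D)).filter fun h : Fin D => |((h : ℕ) : ℝ) - x| ≤ δ).card ≤
      (Finset.Icc ⌈x - δ⌉ ⌊x + δ⌋).card := by
    refine Finset.card_le_card_of_injOn (fun h : Fin D => ((h : ℕ) : ℤ)) ?_ ?_
    · intro h hh
      have hh' := (Finset.mem_filter.1 (Finset.mem_coe.1 hh)).2
      have h2 := abs_le.1 hh'
      rw [Finset.mem_coe, Finset.mem_Icc]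
      constructor
      · rw [Int.ceil_le]
        push_cast
        linarith [h2.1]
      · rw [Int.le_floor]
        push_cast
        linarith [h2.2]
    · intro a _ b _ hab
      have hab' : ((a : ℕ) : ℤ) = ((b : ℕ) : ℤ) := hab
      exact Fin.ext (by exact_mod_cast hab')
  rw [Int.card_Icc] at h1
  have h2 : (((⌊x + δ⌋ + 1 - ⌈x - δ⌉).toNat : ℕ) : ℝ) ≤ 2 * δ + 1 := by
    rcases le_total 0 (⌊x + δ⌋ + 1 - ⌈x - δ⌉) with h3 | h3
    · have h4 : (((⌊x + δ⌋ + 1 - ⌈x - δ⌉).toNat : ℕ) : ℝ) = ((⌊x + δ⌋ + 1 - ⌈x - δ⌉ : ℤ) : ℝ) := by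
        have := Int.toNat_of_nonneg h3
        exact_mod_cast this
      rw [h4]
      push_cast
      linarith [Int.floor_le (x + δ), Int.le_ceil (x - δ)]
    · rw [Int.toNat_of_nonpos h3]
      push_cast
      linarith
  exact le_trans (by exact_mod_cast h1) h2

lemma le_cnt (D : ℕ) (x δ : ℝ) (h0 : 0 ≤ x - δ) (h1 : x + δ ≤ (D : ℝ) - 1) :
    2 * δ - 1 ≤ (cnt D x δ : ℝ) := by
  classical
  unfold cnt
  have h2 : (Finset.Icc ⌈x - δ⌉ ⌊x + δ⌋).card ≤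
      ((Finset.univ : Finset (Fin D)).filter fun h : Fin D => |((h : ℕ) : ℝ) - x| ≤ δ).card := by
    refine Finset.card_le_card_of_surjOn (fun h : Fin D => ((h : ℕ) : ℤ)) ?_
    intro n hn
    rw [Finset.mem_coe, Finset.mem_Icc] at hn
    obtain ⟨h3, h4⟩ := hn
    have h5 : x - δ ≤ (n : ℝ) := Int.ceil_le.1 h3
    have h6 : (n : ℝ) ≤ x + δ := Int.le_floor.1 h4
    have h7 : 0 ≤ n := by
      have : (0 : ℝ) ≤ (n : ℝ) := by linarith
      exact_mod_cast this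
    obtain ⟨k, rfl⟩ := Int.eq_ofNat_of_zero_le h7
    have h8 : k < D := by
      have h9 : ((k : ℤ) : ℝ) < (D : ℝ) := by linarith
      exact_mod_cast h9
    refine ⟨⟨k, h8⟩, ?_, rfl⟩
    rw [Finset.mem_coe, Finset.mem_filter]
    refine ⟨Finset.mem_univ _, ?_⟩
    rw [abs_le]
    push_cast at h5 h6
    constructor
    · change -δ ≤ (k : ℝ) - x
      linarith
    · change (k : ℝ) - x ≤ δ
      linarith
  rw [Int.card_Icc] at h2
  have h3 : 2 * δ - 1 ≤ (((⌊x + δ⌋ + 1 - ⌈x - δ⌉).toNat : ℕ) : ℝ) := by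
    have h4 : ((⌊x + δ⌋ + 1 - ⌈x - δ⌉ : ℤ) : ℝ) ≤ (((⌊x + δ⌋ + 1 - ⌈x - δ⌉).toNat : ℕ) : ℝ) := by
      have := Int.self_le_toNat (⌊x + δ⌋ + 1 - ⌈x - δ⌉)
      exact_mod_cast this
    refine le_trans ?_ h4
    push_cast
    linarith [Int.lt_floor_add_one (x + δ), Int.ceil_lt_add_one (x - δ)]
  exact h3.trans (by exact_mod_cast h2)

lemma cnt_ne (D : ℕ) (x δ : ℝ) (h : cnt D x δ ≠ 0) : -δ ≤ x ∧ x ≤ (D : ℝ) - 1 + δ := by
  classical
  unfold cnt at h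
  obtain ⟨k, hk⟩ := Finset.card_ne_zero.1 h
  rw [Finset.mem_filter] at hk
  have h1 := abs_le.1 hk.2
  have h2 : ((k : ℕ) : ℝ) + 1 ≤ D := by exact_mod_cast k.2
  have h3 : (0 : ℝ) ≤ ((k : ℕ) : ℝ) := Nat.cast_nonneg _
  constructor <;> linarith [h1.1, h1.2]

/-- the sum over the cells -/
lemma core (n g : ℕ) (hg : 0 < g) (a : Fin n → ℝ) (ζ U Lo : ℝ) (ha0 : ∀ l, 0 ≤ a l)
    (haU : ∀ l, a l ≤ U) (hU : 0 ≤ U) (hLo : 0 ≤ Lo)
    (hout : ∀ l, a l ≠ 0 → ζ - 1 / 5 ≤ ((l : ℕ) : ℝ) ∧ ((l : ℕ) : ℝ) ≤ ζ + g + 1 / 5)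
    (hin : ∀ l : Fin n, ζ + 1 / 5 ≤ ((l : ℕ) : ℝ) → ((l : ℕ) : ℝ) ≤ ζ + g - 1 / 5 → Lo ≤ a l)
    (h0 : 0 ≤ ζ + 1 / 5) (h1 : ζ + g - 1 / 5 ≤ (n : ℝ) - 1) :
    ((g : ℝ) - 1) * Lo ≤ ∑ l, a l ∧ ∑ l, a l ≤ ((g : ℝ) + 1) * U := by
  classical
  have hg1 : (1 : ℝ) ≤ g := by exact_mod_cast hg
  constructor
  · have c1 := le_cnt n (ζ + g / 2) ((g : ℝ) / 2 - 1 / 5) (by linarith) (by linarith)
    have c2 : (g : ℝ) - 1 ≤ (cnt n (ζ + g / 2) ((g : ℝ) / 2 - 1 / 5) : ℝ) := by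
      have c3 : (g : ℝ) < (cnt n (ζ + g / 2) ((g : ℝ) / 2 - 1 / 5) : ℝ) + 2 := by linarith
      have c4 : g < cnt n (ζ + g / 2) ((g : ℝ) / 2 - 1 / 5) + 2 := by exact_mod_cast c3
      have c5 : g ≤ cnt n (ζ + g / 2) ((g : ℝ) / 2 - 1 / 5) + 1 := by omega
      have c6 : (g : ℝ) ≤ (cnt n (ζ + g / 2) ((g : ℝ) / 2 - 1 / 5) : ℝ) + 1 := by exact_mod_cast c5
      linarith
    unfold cnt at c2
    calc ((g : ℝ) - 1) * Lo ≤ _ * Lo := mul_le_mul_of_nonneg_right c2 hLo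
      _ = ∑ l ∈ (Finset.univ : Finset (Fin n)).filter (fun l : Fin n =>
          |((l : ℕ) : ℝ) - (ζ + g / 2)| ≤ (g : ℝ) / 2 - 1 / 5), Lo := by
        rw [Finset.sum_const, nsmul_eq_mul]
      _ ≤ ∑ l ∈ (Finset.univ : Finset (Fin n)).filter (fun l : Fin n =>
          |((l : ℕ) : ℝ) - (ζ + g / 2)| ≤ (g : ℝ) / 2 - 1 / 5), a l := by
        refine Finset.sum_le_sum fun l hl => ?_
        have h2 := abs_le.1 (Finset.mem_filter.1 hl).2
        exact hin l (by linarith [h2.1]) (by linarith [h2.2])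
      _ ≤ _ := Finset.sum_le_sum_of_subset_of_nonneg (Finset.filter_subset _ _)
        fun l _ _ => ha0 l
  · have c1 := cnt_le n (ζ + g / 2) ((g : ℝ) / 2 + 1 / 5) (by linarith)
    have c2 : (cnt n (ζ + g / 2) ((g : ℝ) / 2 + 1 / 5) : ℝ) ≤ (g : ℝ) + 1 := by
      have c3 : (cnt n (ζ + g / 2) ((g : ℝ) / 2 + 1 / 5) : ℝ) < (g : ℝ) + 2 := by linarith
      have c4 : cnt n (ζ + g / 2) ((g : ℝ) / 2 + 1 / 5) < g + 2 := by exact_mod_cast c3
      have c5 : cnt n (ζ + g / 2) ((g : ℝ) / 2 + 1 / 5) ≤ g + 1 := by omega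
      exact_mod_cast c5
    unfold cnt at c2
    have h2 : ∑ l, a l = ∑ l ∈ (Finset.univ : Finset (Fin n)).filter (fun l : Fin n =>
          |((l : ℕ) : ℝ) - (ζ + g / 2)| ≤ (g : ℝ) / 2 + 1 / 5), a l := by
      symm
      refine Finset.sum_subset (Finset.filter_subset _ _) fun l _ hl => ?_
      by_contra h3
      obtain ⟨h4, h5⟩ := hout l h3
      refine hl (Finset.mem_filter.2 ⟨Finset.mem_univ _, ?_⟩)
      rw [abs_le]
      constructor <;> linarith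
    rw [h2]
    calc _ ≤ ∑ l ∈ (Finset.univ : Finset (Fin n)).filter (fun l : Fin n =>
          |((l : ℕ) : ℝ) - (ζ + g / 2)| ≤ (g : ℝ) / 2 + 1 / 5), U :=
          Finset.sum_le_sum fun l _ => haU l
      _ = _ * U := by rw [Finset.sum_const, nsmul_eq_mul]
      _ ≤ _ := mul_le_mul_of_nonneg_right c2 hU

end counting

section window

variable {s q u d : ℕ}

lemma prod_up (v : Fin s → ℕ) (w : Fin 3 → Fin s → Fin (2 ^ d)) (i0 : Fin s) (h : Fin (2 ^ d)) :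
    ∏ i, zz q u d v (up i0 w h 0) i = (v i0 + q * (u * 2 ^ d + (h : ℕ))) *
      ∏ i ∈ Finset.univ.erase i0, zz q u d v (w 0) i := by
  rw [← Finset.mul_prod_erase _ _ (Finset.mem_univ i0)]
  congr 1
  · unfold zz
    rw [up_self]
  · refine Finset.prod_congr rfl fun i hi => ?_
    unfold zz up
    rw [Function.update_self, Function.update_of_ne (Finset.ne_of_mem_erase hi)]

lemma cond_iff (A B C : ℕ) : |((A : ℕ) : ℤ) - ((B : ℕ) : ℤ)| ≤ ((C : ℕ) : ℤ) ↔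
    |(A : ℝ) - B| ≤ C := by
  rw [← Int.cast_le (R := ℝ)]
  push_cast
  rfl

/-- the average over one slot -/
lemma one_l (hq : 0 < q) (K M0 M1 M2 : ℕ) (hM0 : 0 < M0) (v : Fin 3 → Fin s → ℕ)
    (w : Fin 3 → Fin s → Fin (2 ^ d)) (i0 : Fin s) (P0 Y : ℕ) (hP0 : 0 < P0)
    (hP : P0 = ∏ i ∈ Finset.univ.erase i0, zz q u d (v 0) (w 0) i)
    (hY : Y = M1 * ∏ i, zz q u d (v 1) (w 1) i + M2 * ∏ i, zz q u d (v 2) (w 2) i) :
    Ex (fun h : Fin (2 ^ d) => Ws s q u d K ![M0, M1, M2] v (up i0 w h)) =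
      (cnt (2 ^ d) ((Y : ℝ) / (q * (M0 * P0)) - (v 0 i0 : ℝ) / q - u * 2 ^ d)
        ((K : ℝ) / (M0 * P0)) : ℝ) * (NN s q u d M0 / (2 * K + 1)) / 2 ^ d := by
  classical
  have hq0 : (0 : ℝ) < q := by exact_mod_cast hq
  have hM : (0 : ℝ) < M0 := by exact_mod_cast hM0
  have hPp : (0 : ℝ) < P0 := by exact_mod_cast hP0
  unfold Ex
  rw [Fintype.card_fin]
  have h1 : ∀ h : Fin (2 ^ d), Ws s q u d K ![M0, M1, M2] v (up i0 w h) =
      if |((h : ℕ) : ℝ) - ((Y : ℝ) / (q * (M0 * P0)) - (v 0 i0 : ℝ) / q - u * 2 ^ d)| ≤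
        (K : ℝ) / (M0 * P0) then NN s q u d M0 / (2 * K + 1) else 0 := by
    intro h
    unfold Ws
    have e0 : (![M0, M1, M2] : Fin 3 → ℕ) 0 = M0 := rfl
    have e1 : (![M0, M1, M2] : Fin 3 → ℕ) 1 = M1 := rfl
    have e2 : (![M0, M1, M2] : Fin 3 → ℕ) 2 = M2 := rfl
    have u1 : up i0 w h 1 = w 1 := by
      unfold up
      rw [Function.update_of_ne (by decide)]
    have u2 : up i0 w h 2 = w 2 := by
      unfold up
      rw [Function.update_of_ne (by decide)]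
    rw [e0, e1, e2, u1, u2, ← hY, prod_up, ← hP]
    refine if_congr ?_ rfl rfl
    rw [cond_iff]
    have h2 : ((M0 * ((v 0 i0 + q * (u * 2 ^ d + (h : ℕ))) * P0) : ℕ) : ℝ) - (Y : ℝ) =
        (q * (M0 * P0)) * (((h : ℕ) : ℝ) - ((Y : ℝ) / (q * (M0 * P0)) - (v 0 i0 : ℝ) / q -
          u * 2 ^ d)) := by
      push_cast
      field_simp
      ring
    rw [h2, abs_mul, abs_of_pos (by positivity : (0 : ℝ) < q * (M0 * P0)), Nat.cast_mul,
      mul_assoc (q : ℝ), mul_le_mul_iff_right₀ hq0, le_div_iff₀ (by positivity), mul_comm]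
  rw [Finset.sum_congr rfl fun h _ => h1 h, ← Finset.sum_filter, Finset.sum_const, nsmul_eq_mul]
  unfold cnt
  push_cast
  rfl

end window


section small

lemma sm_ex {ex : ℝ} (h0 : 0 < ex) : 1 - ex ≤ ex⁻¹ - 1 := by
  have h1 : ex + ex⁻¹ - 2 = (ex - 1) ^ 2 / ex := by
    field_simp
    ring
  have h2 : 0 ≤ (ex - 1) ^ 2 / ex := by positivity
  linarith

lemma sm_out {D u η ex t δ v : ℝ} (hD : 0 < D) (hu : 0 < u) (hex : 0 < ex) (hex1 : ex < 1)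
    (hη : η = u * (1 - ex)) (h1 : -δ ≤ t * D - v - u * D) (h2 : t * D - v - u * D ≤ D - 1 + δ)
    (h3 : δ + 1 ≤ η * D) (hv0 : 0 ≤ v) (hv1 : v ≤ 1) : u * ex ≤ t ∧ t ≤ (u + 1) * ex⁻¹ := by
  have h4 := sm_ex hex
  constructor
  · have h5 : (u * ex) * D ≤ t * D := by
      have h6 : (u * ex) * D = u * D - η * D := by rw [hη]; ring
      rw [h6]
      linarith
    exact le_of_mul_le_mul_right h5 hD
  · have h5 : t ≤ u + 1 + η := by
      have h6 : t * D ≤ (u + 1 + η) * D := by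
        have h7 : (u + 1 + η) * D = u * D + D + η * D := by ring
        rw [h7]
        linarith
      exact le_of_mul_le_mul_right h6 hD
    have h7 : η ≤ u * (ex⁻¹ - 1) := by
      rw [hη]
      exact mul_le_mul_of_nonneg_left h4 hu.le
    have h8 : (u + 1) * ex⁻¹ = u + 1 + u * (ex⁻¹ - 1) + (ex⁻¹ - 1) := by ring
    rw [h8]
    linarith

lemma sm_in {D u η ex t δ v : ℝ} (hD : 0 < D) (hu : 0 < u) (hex : 0 < ex) (hex1 : ex < 1)
    (hη : η = u * (1 - ex)) (h1 : u * ex⁻¹ ≤ t) (h2 : t ≤ (u + 1) * ex)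
    (h3 : δ + 1 ≤ η * D) (hv0 : 0 ≤ v) (hv1 : v ≤ 1) :
    0 ≤ t * D - v - u * D - δ ∧ t * D - v - u * D + δ ≤ D - 1 := by
  have h4 := sm_ex hex
  have h5 : u + η ≤ t := by
    have h6 : η ≤ u * (ex⁻¹ - 1) := by
      rw [hη]
      exact mul_le_mul_of_nonneg_left h4 hu.le
    have h7 : u * ex⁻¹ = u + u * (ex⁻¹ - 1) := by ring
    linarith
  have h6 : t ≤ u + 1 - η := by
    have h7 : (u + 1) * ex = u + 1 - u * (1 - ex) - (1 - ex) := by ring
    rw [hη]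
    linarith
  have h7 := mul_le_mul_of_nonneg_right h5 hD.le
  have h8 := mul_le_mul_of_nonneg_right h6 hD.le
  have h9 : (u + η) * D = u * D + η * D := by ring
  have h10 : (u + 1 - η) * D = u * D + D - η * D := by ring
  constructor <;> linarith

lemma sm_up {N MP K y : ℝ} (hMP : 0 < MP) (hK : 0 < K) (hy : 0 ≤ y) (h1 : N ≤ 2 * (K / MP) + 1)
    (h2 : MP ≤ K * y) : N * MP / (2 * K + 1) ≤ 1 + y := by
  rw [div_le_iff₀ (by positivity)]
  have h3 : N * MP ≤ (2 * (K / MP) + 1) * MP := mul_le_mul_of_nonneg_right h1 hMP.le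
  have h4 : (2 * (K / MP) + 1) * MP = 2 * K + MP := by
    rw [add_mul, mul_assoc, div_mul_cancel₀ _ hMP.ne', one_mul]
  rw [h4] at h3
  nlinarith

lemma sm_lo {N MP K y : ℝ} (hMP : 0 < MP) (hK : 0 < K) (h1 : 2 * (K / MP) - 1 ≤ N)
    (h2 : MP ≤ K * y) (h3 : 1 ≤ (K + 1) * y) : 1 - y ≤ N * MP / (2 * K + 1) := by
  rw [le_div_iff₀ (by positivity)]
  have h5 : (2 * (K / MP) - 1) * MP ≤ N * MP := mul_le_mul_of_nonneg_right h1 hMP.le
  have h4 : (2 * (K / MP) - 1) * MP = 2 * K - MP := by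
    rw [sub_mul, mul_assoc, div_mul_cancel₀ _ hMP.ne', one_mul]
  rw [h4] at h5
  nlinarith

lemma sm_lin_out {ζ L τ ξ lu lu1 g l lt : ℝ} (hτ : 0 < τ) (h1 : (ζ - L) * τ = ξ - lu1)
    (h2 : g * τ = lu1 - lu) (h3 : |ξ - lt - (l - L) * τ| ≤ τ / 10) (h4 : lu - τ / 10 ≤ lt)
    (h5 : lt ≤ lu1 + τ / 10) : ζ - 1 / 5 ≤ l ∧ l ≤ ζ + g + 1 / 5 := by
  have h6 := abs_le.1 h3
  have e1 : (ζ - L) * τ = ζ * τ - L * τ := by ring
  have e2 : (l - L) * τ = l * τ - L * τ := by ring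
  rw [e1] at h1
  rw [e2] at h6
  constructor
  · have : (ζ - 1 / 5) * τ ≤ l * τ := by
      have e3 : (ζ - 1 / 5) * τ = ζ * τ - τ / 5 := by ring
      rw [e3]
      linarith [h6.1, h6.2]
    exact le_of_mul_le_mul_right this hτ
  · have : l * τ ≤ (ζ + g + 1 / 5) * τ := by
      have e3 : (ζ + g + 1 / 5) * τ = ζ * τ + g * τ + τ / 5 := by ring
      rw [e3]
      linarith [h6.1, h6.2]
    exact le_of_mul_le_mul_right this hτ

lemma sm_lin_in {ζ L τ ξ lu lu1 g l lt : ℝ} (hτ : 0 < τ) (h1 : (ζ - L) * τ = ξ - lu1)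
    (h2 : g * τ = lu1 - lu) (h3 : |ξ - lt - (l - L) * τ| ≤ τ / 10) (h4 : ζ + 1 / 5 ≤ l)
    (h5 : l ≤ ζ + g - 1 / 5) : lu + τ / 10 ≤ lt ∧ lt ≤ lu1 - τ / 10 := by
  have h6 := abs_le.1 h3
  have e1 : (ζ - L) * τ = ζ * τ - L * τ := by ring
  have e2 : (l - L) * τ = l * τ - L * τ := by ring
  rw [e1] at h1
  rw [e2] at h6
  have k1 := mul_le_mul_of_nonneg_right h4 hτ.le
  have k2 := mul_le_mul_of_nonneg_right h5 hτ.le
  have e3 : (ζ + 1 / 5) * τ = ζ * τ + τ / 5 := by ring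
  have e4 : (ζ + g - 1 / 5) * τ = ζ * τ + g * τ - τ / 5 := by ring
  rw [e3] at k1
  rw [e4] at k2
  constructor <;> linarith [h6.1, h6.2]

lemma sm_zeta {ζ L τ ξ lu lu1 g S : ℝ} (hτ : 0 < τ) (hg : 0 < g) (hS : 0 ≤ S)
    (h1 : (ζ - L) * τ = ξ - lu1) (h2 : g * τ = lu1 - lu) (h3 : lu - S * (g * τ) ≤ ξ)
    (h4 : ξ ≤ lu1 + S * (g * τ)) (hL : L = g * (2 * (S + 1) + 2)) :
    0 ≤ ζ + 1 / 5 ∧ ζ + g - 1 / 5 ≤ 2 * L := by
  have e1 : (ζ - L) * τ = ζ * τ - L * τ := by ring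
  rw [e1] at h1
  have hgS : 0 ≤ g * S := by positivity
  constructor
  · have k1 : (L - (S + 1) * g) * τ ≤ ζ * τ := by
      have e2 : (L - (S + 1) * g) * τ = L * τ - S * (g * τ) - g * τ := by ring
      rw [e2]
      linarith
    have k2 := le_of_mul_le_mul_right k1 hτ
    have e3 : L - (S + 1) * g = g * S + 3 * g := by rw [hL]; ring
    rw [e3] at k2
    linarith
  · have k1 : (ζ + g) * τ ≤ (L + (S + 1) * g) * τ := by
      have e2 : (L + (S + 1) * g) * τ = L * τ + S * (g * τ) + g * τ := by ring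
      have e3 : (ζ + g) * τ = ζ * τ + g * τ := by ring
      rw [e2, e3]
      linarith
    have k2 := le_of_mul_le_mul_right k1 hτ
    have e3 : 2 * L = L + (S + 1) * g + (g * S + 3 * g) := by rw [hL]; ring
    rw [e3]
    linarith

lemma sm_final {Sg y y' ϑ g su : ℝ} (hg : 0 < g) (hg1 : 1 ≤ g) (hy' : y' = 1 / g) (hy0 : 0 < y)
    (hy1 : y ≤ 1) (hϑ0 : 0 < ϑ) (hϑ1 : ϑ ≤ 1) (hϑ2 : 1 - su ≤ ϑ) (hsu : 0 ≤ su)
    (c1 : (g - 1) * (ϑ / g * (1 - y)) ≤ Sg) (c2 : Sg ≤ (g + 1) * (1 / g * (1 + y))) :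
    |Sg - 1| ≤ y' + su + 2 * y := by
  have hy'0 : 0 < y' := by rw [hy']; positivity
  have hy'1 : y' ≤ 1 := by rw [hy', div_le_one hg]; exact hg1
  have hgy : g * y' = 1 := by rw [hy']; field_simp
  rw [show ϑ / g = ϑ * y' by rw [hy']; ring] at c1
  rw [← hy'] at c2
  have c3 : (g + 1) * (y' * (1 + y)) = (1 + y') * (1 + y) := by
    calc _ = (g * y' + y') * (1 + y) := by ring
      _ = _ := by rw [hgy]
  have c4 : (g - 1) * (ϑ * y' * (1 - y)) = (1 - y') * ϑ * (1 - y) := by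
    calc _ = (g * y' - y') * ϑ * (1 - y) := by ring
      _ = _ := by rw [hgy]
  rw [c3] at c2
  rw [c4] at c1
  have k1 : 0 ≤ (1 - ϑ) * y := mul_nonneg (by linarith) hy0.le
  have k2 : 0 ≤ y' * ((1 - ϑ) + ϑ * y) :=
    mul_nonneg hy'0.le (add_nonneg (by linarith) (mul_nonneg hϑ0.le hy0.le))
  have k3 : (1 - y') * ϑ * (1 - y) = 1 - y' - (1 - ϑ) - y + (1 - ϑ) * y + y' * ((1 - ϑ) + ϑ * y) := by
    ring
  have k4 : (1 + y') * (1 + y) = 1 + y' + y + y' * y := by ring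
  have k5 : y' * y ≤ 1 * y := mul_le_mul_of_nonneg_right hy'1 hy0.le
  rw [abs_le]
  constructor
  · linarith
  · linarith

lemma sm_theta {q u D P0 : ℝ} (S : ℕ) (hq : 0 < q) (hu : 0 < u) (hD : 0 < D) (hP : 0 < P0)
    (R1 : (q * u * D) ^ S ≤ P0) (R2 : P0 ≤ (q * (u + 1) * D) ^ S) :
    0 < (q * u * D) ^ S / P0 ∧ (q * u * D) ^ S / P0 ≤ 1 ∧
      1 - ((S + 1 : ℕ) : ℝ) / u ≤ (q * u * D) ^ S / P0 := by
  refine ⟨by positivity, ?_, ?_⟩
  · rw [div_le_one hP]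
    exact R1
  · have a1 : (u / (u + 1)) ^ S ≤ (q * u * D) ^ S / P0 := by
      rw [le_div_iff₀ hP]
      calc (u / (u + 1)) ^ S * P0 ≤ (u / (u + 1)) ^ S * (q * (u + 1) * D) ^ S := by gcongr
        _ = (q * u * D) ^ S := by
          rw [← mul_pow]
          congr 1
          field_simp
    have a2 := one_add_mul_le_pow (show (-2 : ℝ) ≤ -(1 / (u + 1)) by
      have : 1 / (u + 1) ≤ 1 := by
        rw [div_le_one (by positivity)]
        linarith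
      linarith) S
    have a3 : 1 + -(1 / (u + 1)) = u / (u + 1) := by
      field_simp
      ring
    rw [a3] at a2
    have a4 : (S : ℝ) * (1 / (u + 1)) ≤ ((S + 1 : ℕ) : ℝ) / u := by
      rw [mul_one_div, div_le_div_iff₀ (by positivity) hu]
      push_cast
      nlinarith [(Nat.cast_nonneg S : (0 : ℝ) ≤ S)]
    linarith

lemma sm_xi {lY lq lP lM lD lu lu1 S : ℝ} (hS : 0 ≤ S)
    (lY1 : lM + (S + 1) * (lq + lu + lD) ≤ lY) (lY2 : lY ≤ lM + (S + 1) * (lq + lu1 + lD))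
    (lP1 : S * (lq + lu + lD) ≤ lP) (lP2 : lP ≤ S * (lq + lu1 + lD)) :
    lu - S * (lu1 - lu) ≤ lY - lq - lP - lM - lD ∧
      lY - lq - lP - lM - lD ≤ lu1 + S * (lu1 - lu) := by
  constructor
  · have : lu - S * (lu1 - lu) = (S + 1) * (lq + lu + lD) - S * (lq + lu1 + lD) - lq - lD := by ring
    linarith
  · have : lu1 + S * (lu1 - lu) = (S + 1) * (lq + lu1 + lD) - S * (lq + lu + lD) - lq - lD := by ring
    linarith

end small

section main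

variable {S q u d μ e₀ : ℕ}

lemma K_low {m : ℕ} (hm : m = d / 8) {M P : ℕ} (hM : M ≤ 2 ^ μ) (hP : P ≤ 2 ^ (S * (d + e₀))) :
    2 ^ m * (M * P) ≤ KS (S + 1) μ e₀ d := by
  have hmd : 8 * m ≤ d := by omega
  calc 2 ^ m * (M * P) ≤ 2 ^ m * (2 ^ μ * 2 ^ (S * (d + e₀))) := by gcongr
    _ = 2 ^ (m + μ + S * (d + e₀)) := by rw [pow_add, pow_add]; ring
    _ ≤ 2 ^ (μ + (S + 1) * (d + e₀) + 2 - 3 * (d / 8)) := by
      refine Nat.pow_le_pow_right (by norm_num) ?_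
      have : (S + 1) * (d + e₀) = S * (d + e₀) + (d + e₀) := by ring
      rw [this]
      omega
    _ = KS (S + 1) μ e₀ d := rfl

lemma K_up {m : ℕ} (hm : m = d / 8) :
    KS (S + 1) μ e₀ d * 2 ^ m ≤ 2 ^ (μ + (S + 1) * e₀ + 2) * (2 ^ d) ^ (S + 1) := by
  have hmd : 8 * m ≤ d := by omega
  unfold KS
  rw [← pow_mul, ← pow_add, ← pow_add]
  refine Nat.pow_le_pow_right (by norm_num) ?_
  have h1 : (S + 1) * (d + e₀) = S * (d + e₀) + (d + e₀) := by ring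
  have h2 : (S + 1) * e₀ + d * (S + 1) = S * (d + e₀) + (d + e₀) := by ring
  rw [h1]
  omega

lemma delta_le {m c : ℕ} {K M P D η : ℝ} (hD : 0 < D) (hM : 1 ≤ M) (hP : D ^ S ≤ P) (hmD : 2 ^ m ≤ D)
    (hP0 : 0 < P)
    (hK : K * 2 ^ m ≤ 2 ^ (c + 2) * D ^ (S + 1)) (hη : (2 : ℝ) ^ (c + 3) ≤ η * 2 ^ m) :
    K / (M * P) + 1 ≤ η * D := by
  have hm0 : (0 : ℝ) < 2 ^ m := by positivity
  have hMp : 0 < M := by linarith
  have a1 : D ^ S ≤ M * P := by nlinarith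
  have a2 : K / (M * P) * 2 ^ m ≤ 2 ^ (c + 2) * D := by
    rw [div_mul_eq_mul_div, div_le_iff₀ (mul_pos hMp hP0)]
    calc K * 2 ^ m ≤ 2 ^ (c + 2) * D ^ (S + 1) := hK
      _ = 2 ^ (c + 2) * D * D ^ S := by ring
      _ ≤ _ := by gcongr
  have a3 : (1 : ℝ) * 2 ^ m ≤ 2 ^ (c + 2) * D := by
    have a5 : (1 : ℝ) ≤ 2 ^ (c + 2) := one_le_pow₀ (by norm_num)
    exact mul_le_mul a5 hmD hm0.le (by positivity)
  have a4 : (2 : ℝ) ^ (c + 3) = 2 * 2 ^ (c + 2) := by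
    rw [show c + 3 = c + 2 + 1 by ring, pow_succ]
    ring
  have a5 : (K / (M * P) + 1) * 2 ^ m ≤ (η * D) * 2 ^ m := by
    calc (K / (M * P) + 1) * 2 ^ m ≤ 2 * 2 ^ (c + 2) * D := by
          rw [add_mul]
          linarith
      _ = 2 ^ (c + 3) * D := by rw [a4]
      _ ≤ (η * 2 ^ m) * D := by gcongr
      _ = _ := by ring
  exact le_of_mul_le_mul_right a5 hm0

lemma a_formula {g M P0 D K N : ℝ} (hg : 0 < g) (hu : 0 < (u : ℝ)) (hq : 0 < (q : ℝ))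
    (hD : D = 2 ^ d) (hP : 0 < P0) (Mn : ℕ) (hM : M = Mn) (hK : 0 < K) :
    (1 / (g * u)) * (N * (NN (S + 1) q u d Mn / (2 * K + 1)) / 2 ^ d) =
      (((q : ℝ) * u * D) ^ S / P0 / g) * (N * (M * P0) / (2 * K + 1)) := by
  have hD0 : 0 < D := by rw [hD]; positivity
  unfold NN
  rw [Nat.add_sub_cancel, ← hD, ← hM, pow_succ ((u : ℝ) * D) S, mul_pow ((q : ℝ) * u) D S,
    mul_pow (q : ℝ) (u : ℝ) S, mul_pow (u : ℝ) D S]
  field_simp

lemma per_w (S g u : ℕ) (hg : 0 < g) (hu : 0 < u)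
    (μ q e₀ : ℕ) (hq : 0 < q) (he : q * (u + 1) ≤ 2 ^ e₀)
    (M0 : Fin (2 * (g * (2 * (S + 1) + 2)) + 1) → ℕ) (M1 M2 : ℕ)
    (h0 : ∀ l, 0 < M0 l ∧ M0 l ≤ 2 ^ μ) (h1 : 0 < M1) (h2 : 0 < M2)
    (hcell : Cell (S + 1) g u M0 M1 M2) (d : ℕ) (η : ℝ)
    (hη : η = u * (1 - Real.exp (-(Real.log (1 + 1 / (u : ℝ)) / g / 10))))
    (hdη : (2 : ℝ) ^ (μ + (S + 1) * e₀ + 3) ≤ η * 2 ^ (d / 8))
    (v : Fin 3 → Fin (S + 1) → ℕ) (hv : ∀ X, SlotOK q (v X)) (i0 : Fin (S + 1))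
    (w : Fin 3 → Fin (S + 1) → Fin (2 ^ d)) :
    |Ex (fun h => ∑ l, (1 / ((g : ℝ) * u)) *
      Ws (S + 1) q u d (KS (S + 1) μ e₀ d) ![M0 l, M1, M2] v (up i0 w h)) - 1| ≤
      1 / g + ((S + 1 : ℕ) : ℝ) / u + 2 / 2 ^ (d / 8) := by
  -- parameters
  obtain ⟨m, hm⟩ : ∃ m, m = d / 8 := ⟨_, rfl⟩
  have hmd : m ≤ d := by omega
  rw [← hm] at hdη ⊢
  have hg0 : (0 : ℝ) < g := by exact_mod_cast hg
  have hg1 : (1 : ℝ) ≤ g := by exact_mod_cast hg
  have hu0 : (0 : ℝ) < u := by exact_mod_cast hu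
  have hq0 : (0 : ℝ) < q := by exact_mod_cast hq
  obtain ⟨τ, hτ⟩ : ∃ τ, τ = Real.log (1 + 1 / (u : ℝ)) / g := ⟨_, rfl⟩
  rw [← hτ] at hη
  have hlog : Real.log (1 + 1 / (u : ℝ)) = Real.log ((u : ℝ) + 1) - Real.log u := by
    rw [← Real.log_div (by positivity) (by positivity)]
    congr 1
    field_simp
  have hτg : g * τ = Real.log ((u : ℝ) + 1) - Real.log u := by
    rw [hτ, ← hlog]
    field_simp
  have hτ0 : 0 < τ := by
    rw [hτ]
    have : 0 < Real.log (1 + 1 / (u : ℝ)) := Real.log_pos (by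
      have : 0 < 1 / (u : ℝ) := by positivity
      linarith)
    positivity
  obtain ⟨D, hD⟩ : ∃ D : ℝ, D = 2 ^ d := ⟨_, rfl⟩
  have hD0 : 0 < D := by rw [hD]; positivity
  obtain ⟨P0, hP0⟩ : ∃ P0, P0 = ∏ i ∈ Finset.univ.erase i0, zz q u d (v 0) (w 0) i := ⟨_, rfl⟩
  obtain ⟨Y, hY⟩ : ∃ Y, Y = M1 * ∏ i, zz q u d (v 1) (w 1) i + M2 * ∏ i, zz q u d (v 2) (w 2) i :=
    ⟨_, rfl⟩
  have hP0p : 0 < P0 := by rw [hP0]; exact prod_zz_pos hq hu _ _
  have hcard : (Finset.univ.erase i0).card = S := by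
    rw [Finset.card_erase_of_mem (Finset.mem_univ _), Finset.card_univ, Fintype.card_fin]
    rfl
  -- bounds for P0
  have F1 : (q * u * 2 ^ d) ^ S ≤ P0 := by
    have := le_prod_zz (q := q) (u := u) (v := v 0) (w 0) (Finset.univ.erase i0)
    rwa [hcard, ← hP0] at this
  have F2 : P0 ≤ (q * (u + 1) * 2 ^ d) ^ S := by
    have := Finset.prod_le_pow_card (Finset.univ.erase i0) (fun i => zz q u d (v 0) (w 0) i)
      (q * (u + 1) * 2 ^ d) (fun i _ => zz_le' (hv 0) (w 0) i)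
    rwa [hcard, ← hP0] at this
  have F3 : P0 ≤ 2 ^ (S * (d + e₀)) := by
    have := prod_zz_le he (hv 0) (w 0) (Finset.univ.erase i0)
    rwa [hcard, ← hP0] at this
  -- bounds for Y
  have F4 : (M1 + M2) * (q * u * 2 ^ d) ^ (S + 1) ≤ Y := by
    have a1 := le_prod_zz (q := q) (u := u) (v := v 1) (w 1) Finset.univ
    have a2 := le_prod_zz (q := q) (u := u) (v := v 2) (w 2) Finset.univ
    rw [Finset.card_univ, Fintype.card_fin] at a1 a2
    rw [hY, add_mul]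
    exact Nat.add_le_add (Nat.mul_le_mul_left _ a1) (Nat.mul_le_mul_left _ a2)
  have F5 : Y ≤ (M1 + M2) * (q * (u + 1) * 2 ^ d) ^ (S + 1) := by
    have a1 := Finset.prod_le_pow_card Finset.univ (fun i => zz q u d (v 1) (w 1) i)
      (q * (u + 1) * 2 ^ d) (fun i _ => zz_le' (hv 1) (w 1) i)
    have a2 := Finset.prod_le_pow_card Finset.univ (fun i => zz q u d (v 2) (w 2) i)
      (q * (u + 1) * 2 ^ d) (fun i _ => zz_le' (hv 2) (w 2) i)
    rw [Finset.card_univ, Fintype.card_fin] at a1 a2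
    rw [hY, add_mul]
    exact Nat.add_le_add (Nat.mul_le_mul_left _ a1) (Nat.mul_le_mul_left _ a2)
  have K1 : ∀ l, 2 ^ m * (M0 l * P0) ≤ KS (S + 1) μ e₀ d := fun l => K_low hm (h0 l).2 F3
  have K2 : KS (S + 1) μ e₀ d * 2 ^ m ≤ 2 ^ (μ + (S + 1) * e₀ + 2) * (2 ^ d) ^ (S + 1) := K_up hm
  obtain ⟨K, hK⟩ : ∃ K, K = KS (S + 1) μ e₀ d := ⟨_, rfl⟩
  rw [← hK] at K1 K2 ⊢
  -- real versions
  have hPr : (0 : ℝ) < P0 := by exact_mod_cast hP0p
  have hM1 : (0 : ℝ) < M1 := by exact_mod_cast h1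
  have hM2 : (0 : ℝ) < M2 := by exact_mod_cast h2
  have hMl : ∀ l, (0 : ℝ) < M0 l := fun l => by exact_mod_cast (h0 l).1
  have hMl1 : ∀ l, (1 : ℝ) ≤ M0 l := fun l => by exact_mod_cast (h0 l).1
  have R1 : ((q : ℝ) * u * D) ^ S ≤ P0 := by rw [hD]; exact_mod_cast F1
  have R2 : (P0 : ℝ) ≤ ((q : ℝ) * (u + 1) * D) ^ S := by rw [hD]; exact_mod_cast F2
  have R4 : ((M1 : ℝ) + M2) * ((q : ℝ) * u * D) ^ (S + 1) ≤ Y := by rw [hD]; exact_mod_cast F4
  have R5 : (Y : ℝ) ≤ ((M1 : ℝ) + M2) * ((q : ℝ) * (u + 1) * D) ^ (S + 1) := by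
    rw [hD]; exact_mod_cast F5
  have RK1 : ∀ l, (2 : ℝ) ^ m * (M0 l * P0) ≤ K := fun l => by exact_mod_cast K1 l
  have RK2 : (K : ℝ) * 2 ^ m ≤ 2 ^ (μ + (S + 1) * e₀ + 2) * D ^ (S + 1) := by
    rw [hD]; exact_mod_cast K2
  have hm0 : (0 : ℝ) < 2 ^ m := by positivity
  have hm1 : (1 : ℝ) ≤ 2 ^ m := one_le_pow₀ (by norm_num)
  have hYr : (0 : ℝ) < Y := lt_of_lt_of_le (by positivity) R4
  have hP1 : (1 : ℝ) ≤ P0 := by exact_mod_cast hP0p
  have RK3 : (2 : ℝ) ^ m ≤ K := by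
    refine le_trans ?_ (RK1 0)
    have : (1 : ℝ) ≤ M0 0 * P0 := by
      have := mul_le_mul (hMl1 0) hP1 zero_le_one (hMl 0).le
      rwa [one_mul] at this
    exact le_mul_of_one_le_right hm0.le this
  have hK0 : (0 : ℝ) < K := hm0.trans_le RK3
  obtain ⟨y, hy⟩ : ∃ y : ℝ, y = 1 / 2 ^ m := ⟨_, rfl⟩
  have hy0 : 0 < y := by rw [hy]; positivity
  have hy1 : y ≤ 1 := by rw [hy, div_le_one hm0]; exact hm1
  have hMPy : ∀ l, (M0 l : ℝ) * P0 ≤ K * y := by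
    intro l
    rw [hy, mul_one_div, le_div_iff₀ hm0, mul_comm]
    exact RK1 l
  have hKy : 1 ≤ ((K : ℝ) + 1) * y := by
    rw [hy, mul_one_div, le_div_iff₀ hm0]
    linarith
  -- δ
  have hDS : D ^ S ≤ P0 := by
    refine le_trans ?_ R1
    refine pow_le_pow_left₀ hD0.le ?_ S
    have a3 : (1 : ℝ) ≤ q := by exact_mod_cast hq
    have a4 : (1 : ℝ) ≤ u := by exact_mod_cast hu
    have a5 : (1 : ℝ) ≤ q * u := by
      have := mul_le_mul a3 a4 zero_le_one hq0.le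
      rwa [one_mul] at this
    exact le_mul_of_one_le_left hD0.le a5
  have hmD : (2 : ℝ) ^ m ≤ D := by
    rw [hD]
    exact pow_le_pow_right₀ (by norm_num) hmd
  have hδ1 : ∀ l, (K : ℝ) / (M0 l * P0) + 1 ≤ η * D := fun l =>
    delta_le hD0 (hMl1 l) hDS hmD hPr RK2 hdη
  -- ϑ
  obtain ⟨hϑ0, hϑ1, hϑ2⟩ := sm_theta S hq0 hu0 hD0 hPr R1 R2
  obtain ⟨ϑ, hϑ⟩ : ∃ ϑ, ϑ = ((q : ℝ) * u * D) ^ S / P0 := ⟨_, rfl⟩
  rw [← hϑ] at hϑ0 hϑ1 hϑ2
  -- η
  obtain ⟨ex, hex⟩ : ∃ ex, ex = Real.exp (-(τ / 10)) := ⟨_, rfl⟩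
  rw [← hex] at hη
  have hex0 : 0 < ex := by rw [hex]; exact Real.exp_pos _
  have hex1 : ex < 1 := by
    rw [hex, Real.exp_lt_one_iff]
    linarith
  have hex2 : Real.exp (τ / 10) = ex⁻¹ := by
    rw [hex, Real.exp_neg, inv_inv]
  -- the terms
  have hsum : Ex (fun h => ∑ l, (1 / ((g : ℝ) * u)) *
      Ws (S + 1) q u d K ![M0 l, M1, M2] v (up i0 w h)) =
      ∑ l, (1 / ((g : ℝ) * u)) * Ex (fun h => Ws (S + 1) q u d K ![M0 l, M1, M2] v (up i0 w h)) := by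
    rw [Ex_sum]
    exact Finset.sum_congr rfl fun l _ => Ex_mul_left _ _
  rw [hsum]
  obtain ⟨a, ha⟩ : ∃ a : Fin (2 * (g * (2 * (S + 1) + 2)) + 1) → ℝ, a = fun l =>
    (1 / ((g : ℝ) * u)) * Ex (fun h => Ws (S + 1) q u d K ![M0 l, M1, M2] v (up i0 w h)) := ⟨_, rfl⟩
  obtain ⟨N, hN⟩ : ∃ N : Fin (2 * (g * (2 * (S + 1) + 2)) + 1) → ℕ, N = fun l =>
    cnt (2 ^ d) ((Y : ℝ) / (q * (M0 l * P0)) - (v 0 i0 : ℝ) / q - u * 2 ^ d)
        ((K : ℝ) / (M0 l * P0)) := ⟨_, rfl⟩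
  have haN : ∀ l, a l = (ϑ / g) * ((N l : ℝ) * (M0 l * P0) / (2 * K + 1)) := by
    intro l
    rw [ha]
    change (1 / ((g : ℝ) * u)) * Ex _ = _
    rw [one_l hq K (M0 l) M1 M2 (h0 l).1 v w i0 P0 Y hP0p hP0 hY]
    have : cnt (2 ^ d) ((Y : ℝ) / (q * (M0 l * P0)) - (v 0 i0 : ℝ) / q - u * 2 ^ d)
        ((K : ℝ) / (M0 l * P0)) = N l := by rw [hN]
    rw [this, hϑ]
    exact a_formula hg0 hu0 hq0 hD hPr (M0 l) rfl hK0
  have ha' : (∑ l, (1 / ((g : ℝ) * u)) *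
    Ex (fun h => Ws (S + 1) q u d K ![M0 l, M1, M2] v (up i0 w h))) = ∑ l, a l := by rw [ha]
  rw [ha']
  clear hsum ha' ha
  -- logarithms
  have lY1 : Real.log ((M1 : ℝ) + M2) + ((S : ℝ) + 1) * (Real.log q + Real.log u + Real.log D) ≤
      Real.log Y := by
    have := Real.log_le_log (by positivity) R4
    rw [Real.log_mul (by positivity) (by positivity), Real.log_pow,
      Real.log_mul (by positivity) (by positivity), Real.log_mul (by positivity) (by positivity)] at this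
    push_cast at this
    exact this
  have lY2 : Real.log Y ≤ Real.log ((M1 : ℝ) + M2) +
      ((S : ℝ) + 1) * (Real.log q + Real.log ((u : ℝ) + 1) + Real.log D) := by
    have := Real.log_le_log hYr R5
    rw [Real.log_mul (by positivity) (by positivity), Real.log_pow,
      Real.log_mul (by positivity) (by positivity), Real.log_mul (by positivity) (by positivity)] at this
    push_cast at this
    exact this
  have lP1 : S * (Real.log q + Real.log u + Real.log D) ≤ Real.log P0 := by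
    have := Real.log_le_log (by positivity) R1
    rw [Real.log_pow, Real.log_mul (by positivity) (by positivity),
      Real.log_mul (by positivity) (by positivity)] at this
    exact this
  have lP2 : Real.log P0 ≤ S * (Real.log q + Real.log ((u : ℝ) + 1) + Real.log D) := by
    have := Real.log_le_log hPr R2
    rw [Real.log_pow, Real.log_mul (by positivity) (by positivity),
      Real.log_mul (by positivity) (by positivity)] at this
    exact this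
  obtain ⟨hξ1, hξ2⟩ := sm_xi (Nat.cast_nonneg S) lY1 lY2 lP1 lP2
  rw [← hτg] at hξ1 hξ2
  obtain ⟨ξ, hξ⟩ : ∃ ξ, ξ = Real.log Y - Real.log q - Real.log P0 - Real.log ((M1 : ℝ) + M2) -
    Real.log D := ⟨_, rfl⟩
  rw [← hξ] at hξ1 hξ2
  clear lY1 lY2 lP1 lP2
  obtain ⟨t, ht⟩ : ∃ t : Fin (2 * (g * (2 * (S + 1) + 2)) + 1) → ℝ, t = fun l =>
    (Y : ℝ) / (q * (M0 l * P0)) / D := ⟨_, rfl⟩
  have ht0 : ∀ l, 0 < t l := fun l => by
    have := hMl l
    rw [ht]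
    positivity
  have htD : ∀ l, (Y : ℝ) / (q * (M0 l * P0)) = t l * D := fun l => by
    rw [ht]
    exact (div_mul_cancel₀ _ hD0.ne').symm
  obtain ⟨L, hL⟩ : ∃ L : ℝ, L = ((g * (2 * (S + 1) + 2) : ℕ) : ℝ) := ⟨_, rfl⟩
  have hlt : ∀ l, |ξ - Real.log (t l) - (((l : ℕ) : ℝ) - L) * τ| ≤ τ / 10 := by
    intro l
    have a1 := hcell l
    rw [← hτ, ← hL, Real.log_div (hMl l).ne' (by positivity)] at a1
    have a2 : Real.log (t l) = Real.log Y - (Real.log q + (Real.log (M0 l) + Real.log P0)) -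
        Real.log D := by
      rw [ht]
      change Real.log ((Y : ℝ) / (q * (M0 l * P0)) / D) = _
      have := hMl l
      rw [Real.log_div (by positivity) (by positivity), Real.log_div (by positivity) (by positivity),
        Real.log_mul (by positivity) (by positivity), Real.log_mul (by positivity) (by positivity)]
    have a3 : ξ - Real.log (t l) = Real.log (M0 l) - Real.log ((M1 : ℝ) + M2) := by
      rw [a2, hξ]
      ring
    rw [a3]
    exact a1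
  have hv1 : (v 0 i0 : ℝ) / q ≤ 1 := by
    rw [div_le_one hq0]
    exact_mod_cast (hv 0).le i0
  have hv0 : (0 : ℝ) ≤ (v 0 i0 : ℝ) / q := by positivity
  have hlo : Real.log ((u : ℝ) * ex) = Real.log u - τ / 10 := by
    rw [Real.log_mul hu0.ne' hex0.ne', hex, Real.log_exp]
    ring
  have hlo2 : Real.log (((u : ℝ) + 1) * ex⁻¹) = Real.log ((u : ℝ) + 1) + τ / 10 := by
    rw [Real.log_mul (by positivity) (by positivity), ← hex2, Real.log_exp]
  have hlo3 : Real.log (((u : ℝ) + 1) * ex) = Real.log ((u : ℝ) + 1) - τ / 10 := by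
    rw [Real.log_mul (by positivity) hex0.ne', hex, Real.log_exp]
    ring
  have hlo4 : Real.log ((u : ℝ) * ex⁻¹) = Real.log u + τ / 10 := by
    rw [Real.log_mul hu0.ne' (by positivity), ← hex2, Real.log_exp]
  obtain ⟨ζ, hζ⟩ : ∃ ζ, ζ = (ξ - Real.log ((u : ℝ) + 1)) / τ + L := ⟨_, rfl⟩
  have hζτ : (ζ - L) * τ = ξ - Real.log ((u : ℝ) + 1) := by
    rw [hζ, add_sub_cancel_right, div_mul_cancel₀ _ hτ0.ne']
  obtain ⟨z1, z2⟩ := sm_zeta hτ0 hg0 (Nat.cast_nonneg S) hζτ hτg hξ1 hξ2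
    (by rw [hL]; push_cast; ring)
  have hLn : (((2 * (g * (2 * (S + 1) + 2)) + 1 : ℕ)) : ℝ) - 1 = 2 * L := by
    rw [hL]; push_cast; ring
  have hcore := core (2 * (g * (2 * (S + 1) + 2)) + 1) g hg a ζ ((1 / g) * (1 + y))
    ((ϑ / g) * (1 - y)) (fun l => by
      rw [haN]
      have := hMl l
      positivity) (fun l => by
      rw [haN]
      have b1 : (N l : ℝ) ≤ 2 * ((K : ℝ) / (M0 l * P0)) + 1 := by
        rw [hN]
        exact cnt_le _ _ _ (by positivity)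
      have b4 := sm_up (mul_pos (hMl l) hPr) hK0 hy0.le b1 (hMPy l)
      have b5 : ϑ / g ≤ 1 / g := by gcongr
      have b6 : 0 ≤ (N l : ℝ) * (M0 l * P0) / (2 * K + 1) := by
        have := hMl l
        positivity
      exact mul_le_mul b5 b4 b6 (by positivity)) (by positivity)
      (mul_nonneg (by positivity) (by linarith)) (fun l hl => by
      have hNl : N l ≠ 0 := by
        intro h
        apply hl
        rw [haN, h]
        simp
      rw [hN] at hNl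
      obtain ⟨b1, b2⟩ := cnt_ne _ _ _ hNl
      rw [htD l, ← hD] at b1 b2
      rw [Nat.cast_pow, Nat.cast_ofNat, ← hD] at b2
      obtain ⟨b4, b5⟩ := sm_out hD0 hu0 hex0 hex1 hη b1 b2 (hδ1 l) hv0 hv1
      have b6 := Real.log_le_log (by positivity) b4
      have b7 := Real.log_le_log (ht0 l) b5
      rw [hlo] at b6
      rw [hlo2] at b7
      exact sm_lin_out hτ0 hζτ hτg (hlt l) b6 b7) (fun l hl1 hl2 => by
      obtain ⟨b6, b7⟩ := sm_lin_in hτ0 hζτ hτg (hlt l) hl1 hl2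
      rw [← hlo4] at b6
      rw [← hlo3] at b7
      have b4 : (u : ℝ) * ex⁻¹ ≤ t l := (Real.log_le_log_iff (by positivity) (ht0 l)).1 b6
      have b5 : t l ≤ ((u : ℝ) + 1) * ex := (Real.log_le_log_iff (ht0 l) (by positivity)).1 b7
      obtain ⟨b8, b9⟩ := sm_in hD0 hu0 hex0 hex1 hη b4 b5 (hδ1 l) hv0 hv1
      have b13 : 2 * ((K : ℝ) / (M0 l * P0)) - 1 ≤ (N l : ℝ) := by
        rw [hN]
        refine le_cnt _ _ _ ?_ ?_
        · rw [htD l, ← hD]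
          exact b8
        · rw [htD l, ← hD, Nat.cast_pow, Nat.cast_ofNat, ← hD]
          exact b9
      rw [haN]
      have b16 := sm_lo (mul_pos (hMl l) hPr) hK0 b13 (hMPy l) hKy
      exact mul_le_mul_of_nonneg_left b16 (by positivity)) z1 (by rw [hLn]; exact z2)
  have e1 : (2 : ℝ) / 2 ^ m = 2 * y := by rw [hy]; ring
  rw [e1]
  exact sm_final hg0 hg1 rfl hy0 hy1 hϑ0 hϑ1 hϑ2 (by positivity) hcore.1 hcore.2

end main

end RSN

/-- [RS] -/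
theorem RS (s g u : ℕ) (hs : 1 ≤ s) (hg : 0 < g) (hu : 0 < u) (ε' : ℝ) (hε' : 0 < ε')
    (μ q e₀ : ℕ) (hq : 0 < q) (he : q * (u + 1) ≤ 2 ^ e₀)
    (M0 : Fin (2 * (g * (2 * s + 2)) + 1) → ℕ) (M1 M2 : ℕ)
    (h0 : ∀ l, 0 < M0 l ∧ M0 l ≤ 2 ^ μ) (h1 : 0 < M1 ∧ M1 ≤ 2 ^ μ) (h2 : 0 < M2 ∧ M2 ≤ 2 ^ μ)
    (hcell : Cell s g u M0 M1 M2) :
    ∃ d₀ : ℕ, ∀ d : ℕ, d₀ ≤ d → ∀ v : Fin 3 → Fin s → ℕ, (∀ X, SlotOK q (v X)) →
      ∀ V : Fin 3 → Finset (Fin s), (V 0).card < s → ∀ z : Fin 3 → Fin s → Fin (2 ^ d),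
      |∑ l, (1 / ((g : ℝ) * u)) * Ex (fun z' : Fin 3 → Fin s → Fin (2 ^ d) =>
        Ws s q u d (KS s μ e₀ d) ![M0 l, M1, M2] v
          (fun X => (V X).piecewise (z X) (z' X))) - 1| ≤ 2 / g + s / u + ε' := by
  obtain ⟨S, rfl⟩ : ∃ S, s = S + 1 := ⟨s - 1, by omega⟩
  have hg0 : (0 : ℝ) < g := by exact_mod_cast hg
  have hu0 : (0 : ℝ) < u := by exact_mod_cast hu
  obtain ⟨η, hη⟩ : ∃ η : ℝ, η = u * (1 - Real.exp (-(Real.log (1 + 1 / (u : ℝ)) / g / 10))) :=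
    ⟨_, rfl⟩
  have hη0 : 0 < η := by
    rw [hη]
    refine mul_pos hu0 ?_
    have h3 : 0 < Real.log (1 + 1 / (u : ℝ)) := Real.log_pos (by
      have : 0 < 1 / (u : ℝ) := by positivity
      linarith)
    have h4 : Real.exp (-(Real.log (1 + 1 / (u : ℝ)) / g / 10)) < 1 := by
      rw [Real.exp_lt_one_iff]
      have : 0 < Real.log (1 + 1 / (u : ℝ)) / g / 10 := by positivity
      linarith
    linarith
  obtain ⟨m₀, hm₀⟩ := exists_nat_gt (max ((2 : ℝ) ^ (μ + (S + 1) * e₀ + 3) / η) (2 / ε'))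
  refine ⟨8 * m₀, fun d hd v hv V hV z => ?_⟩
  have hmm : m₀ ≤ d / 8 := by omega
  have hm2 : (m₀ : ℝ) ≤ 2 ^ (d / 8) := by
    have h3 : m₀ ≤ 2 ^ (d / 8) := hmm.trans (Nat.lt_two_pow_self).le
    exact_mod_cast h3
  have hd1 : (2 : ℝ) ^ (μ + (S + 1) * e₀ + 3) ≤ η * 2 ^ (d / 8) := by
    have h3 : (2 : ℝ) ^ (μ + (S + 1) * e₀ + 3) / η ≤ 2 ^ (d / 8) :=
      (le_max_left _ _).trans (hm₀.le.trans hm2)
    rw [div_le_iff₀ hη0] at h3
    linarith
  have hd2 : 2 / (2 : ℝ) ^ (d / 8) ≤ ε' := by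
    have h3 : 2 / ε' ≤ 2 ^ (d / 8) := (le_max_right _ _).trans (hm₀.le.trans hm2)
    rw [div_le_iff₀ hε'] at h3
    rw [div_le_iff₀ (by positivity)]
    linarith
  obtain ⟨i0, hi0⟩ : ∃ i0, i0 ∉ V 0 := by
    by_contra hcon
    push Not at hcon
    have : V 0 = Finset.univ := Finset.eq_univ_iff_forall.2 hcon
    rw [this, Finset.card_univ, Fintype.card_fin] at hV
    exact lt_irrefl _ hV
  have hkey := RSN.avg i0 (fun w => ∑ l, (1 / ((g : ℝ) * u)) *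
      Ws (S + 1) q u d (KS (S + 1) μ e₀ d) ![M0 l, M1, M2] v w) V hi0 z
      (1 / g + ((S + 1 : ℕ) : ℝ) / u + 2 / 2 ^ (d / 8))
      (fun w => RSN.per_w S g u hg hu μ q e₀ hq he M0 M1 M2 h0 h1.1 h2.1 hcell d η hη hd1 v hv i0 w)
  have hsum : Ex (fun z' : Fin 3 → Fin (S + 1) → Fin (2 ^ d) => ∑ l, (1 / ((g : ℝ) * u)) *
      Ws (S + 1) q u d (KS (S + 1) μ e₀ d) ![M0 l, M1, M2] v
        (fun X => (V X).piecewise (z X) (z' X))) =
      ∑ l, (1 / ((g : ℝ) * u)) * Ex (fun z' : Fin 3 → Fin (S + 1) → Fin (2 ^ d) =>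
        Ws (S + 1) q u d (KS (S + 1) μ e₀ d) ![M0 l, M1, M2] v
          (fun X => (V X).piecewise (z X) (z' X))) := by
    rw [Pool.Agent.H366.GF.Ex_sum]
    exact Finset.sum_congr rfl fun l _ => Pool.Agent.H366.GF.Ex_mul_left _ _
  rw [hsum] at hkey
  refine hkey.trans ?_
  have h5 : 1 / (g : ℝ) ≤ 2 / g := by gcongr; norm_num
  linarith

end Pool.Agent.H366.ZC
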