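import Pool.Agent.H366.ZC.AI
import Pool.Agent.H366.ZC.RS
import Pool.Agent.H366.GF.AI1

/-! # [FLAT] the weights of a cell are flat -/

set_option autoImplicit false

namespace Pool.Agent.H366.ZC

open Pool.Agent.H366.GF (Ex ExC)

/-- the weight of a cell -/
noncomputable def Wc (s g q u d : ℕ) (M0 : Fin (2 * (g * (2 * s + 2)) + 1) → ℕ) (M1 M2 : ℕ)
    (v : Fin 3 → Fin s → ℕ) (z : Fin 3 → Fin s → Fin (2 ^ d)) : ℝ :=
  ∑ l, (1 / ((g : ℝ) * u)) * Wt s q u d ![M0 l, M1, M2] v z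

namespace FlatN

open Pool.Agent.H366.GF (Ex_mono Ex_nonneg Ex_const Ex_add Ex_sub Ex_mul_left Ex_sum Ex3 Ex_pw3)

lemma NN_nonneg (s q u d M : ℕ) : 0 ≤ NN s q u d M := by
  unfold NN
  positivity

lemma Wt_nonneg (s q u d : ℕ) (M : Fin 3 → ℕ) (v : Fin 3 → Fin s → ℕ)
    (z : Fin 3 → Fin s → Fin (2 ^ d)) : 0 ≤ Wt s q u d M v z := by
  unfold Wt
  split_ifs
  · exact NN_nonneg _ _ _ _ _
  · exact le_rfl

lemma Wc_nonneg (s g q u d : ℕ) (M0 : Fin (2 * (g * (2 * s + 2)) + 1) → ℕ) (M1 M2 : ℕ)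
    (v : Fin 3 → Fin s → ℕ) (z : Fin 3 → Fin s → Fin (2 ^ d)) : 0 ≤ Wc s g q u d M0 M1 M2 v z := by
  unfold Wc
  exact Finset.sum_nonneg fun l _ => mul_nonneg (by positivity) (Wt_nonneg _ _ _ _ _ _ _)

/-- the final step -/
lemma fin_step {α : Type} [Fintype α] [Nonempty α] (A : α → ℝ) (P : α → Prop) [DecidablePred P]
    (e₁ p : ℝ) (hA : ∀ z, 0 ≤ A z) (hE : Ex A ≤ 1 + e₁)
    (hc : Ex (fun z => if P z then |A z - 1| else 0) ≤ e₁)
    (hn : Ex (fun z => if P z then (0 : ℝ) else 1) ≤ p) :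
    Ex (fun z => |A z - 1|) ≤ 3 * e₁ + 2 * p := by
  have hpt : ∀ z, |A z - 1| ≤ 2 * (if P z then |A z - 1| else 0) + A z +
      2 * (if P z then (0 : ℝ) else 1) - 1 := by
    intro z
    have h0 := hA z
    split_ifs with hcop
    · have := neg_abs_le (A z - 1)
      linarith
    · have : |A z - 1| ≤ A z + 1 := by
        rw [abs_le]; constructor <;> linarith
      linarith
  refine (Ex_mono hpt).trans ?_
  rw [Ex_sub, Ex_add, Ex_add, Ex_mul_left, Ex_mul_left, Ex_const]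
  linarith

/-- the coprime part -/
lemma cop_bd {L α : Type} [Fintype L] [Fintype α] [Nonempty α] (P : α → Prop) [DecidablePred P]
    (c : ℝ) (hc : 0 ≤ c) (a b : L → α → ℝ) (e' e'' : ℝ) (he' : 0 ≤ e')
    (hAI : ∀ l, Ex (fun z => if P z then |a l z - b l z| else 0) ≤ e'')
    (hRS : ∀ z, |∑ l, c * b l z - 1| ≤ e') :
    Ex (fun z => if P z then |∑ l, c * a l z - 1| else 0) ≤
      (Fintype.card L : ℝ) * (c * e'') + e' := by
  have hpt : ∀ z, (if P z then |∑ l, c * a l z - 1| else 0) ≤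
      ∑ l, c * (if P z then |a l z - b l z| else 0) + e' := by
    intro z
    split_ifs with h
    · have h1 : ∑ l, c * a l z - 1 = ∑ l, c * (a l z - b l z) + (∑ l, c * b l z - 1) := by
        rw [← add_sub_assoc, ← Finset.sum_add_distrib]
        congr 1
        exact Finset.sum_congr rfl fun l _ => by ring
      rw [h1]
      refine (abs_add_le _ _).trans (add_le_add ?_ (hRS z))
      refine (Finset.abs_sum_le_sum_abs _ _).trans (le_of_eq ?_)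
      exact Finset.sum_congr rfl fun l _ => by rw [abs_mul, abs_of_nonneg hc]
    · simpa using he'
  refine (Ex_mono hpt).trans ?_
  rw [Ex_add, Ex_sum, Ex_const]
  refine add_le_add ?_ le_rfl
  calc ∑ l, Ex (fun z => c * (if P z then |a l z - b l z| else 0)) ≤ ∑ _l : L, c * e'' := by
        refine Finset.sum_le_sum fun l _ => ?_
        rw [Ex_mul_left]
        exact mul_le_mul_of_nonneg_left (hAI l) hc
    _ = _ := by rw [Finset.sum_const, Finset.card_univ, nsmul_eq_mul]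

lemma pow_small (C δ : ℝ) (hδ : 0 < δ) : ∃ n₀ : ℕ, ∀ n : ℕ, n₀ ≤ n → C / 2 ^ n ≤ δ := by
  obtain ⟨n₀, hn₀⟩ := pow_unbounded_of_one_lt (C / δ) (one_lt_two : (1 : ℝ) < 2)
  refine ⟨n₀, fun n hn => ?_⟩
  have h1 : (2 : ℝ) ^ n₀ ≤ 2 ^ n := pow_le_pow_right₀ (by norm_num) hn
  rw [div_lt_iff₀ hδ] at hn₀
  rw [div_le_iff₀ (by positivity)]
  nlinarith

end FlatN

open FlatN in
open Pool.Agent.H366.GF (Ex_mono Ex_nonneg Ex_const Ex_add Ex_sub Ex_mul_left Ex_sum Ex3 Ex_pw3) in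
/-- [FLAT] -/
theorem FLAT (k Λ : ℕ) (ε : ℝ) (hε : 0 < ε) : ∃ g u₀ : ℕ, 0 < g ∧ ∀ u : ℕ, u₀ ≤ u →
    ∃ κ₀ : ℕ, ∀ (κ μ q e₀ : ℕ) (M0 : Fin (2 * (g * (2 * (4 * k + 4) + 2)) + 1) → ℕ) (M1 M2 : ℕ),
      κ₀ ≤ κ → (∀ l, Ctx κ Λ μ q e₀ u ![M0 l, M1, M2]) → Cell (4 * k + 4) g u M0 M1 M2 →
      ∃ d₀ : ℕ, ∀ d : ℕ, d₀ ≤ d → ∀ v : Fin 3 → Fin (4 * k + 4) → ℕ, (∀ X, SlotOK q (v X)) →
        (∀ l, Rel (4 * k + 4) q ![M0 l, M1, M2] v) →
        ∀ V : Fin 3 → Finset (Fin (4 * k + 4)), (∀ X, (V X).card ≤ k) →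
        Ex (fun z : Fin 3 → Fin (4 * k + 4) → Fin (2 ^ d) =>
          |Ex (fun z' : Fin 3 → Fin (4 * k + 4) → Fin (2 ^ d) =>
            Wc (4 * k + 4) g q u d M0 M1 M2 v (fun X => (V X).piecewise (z X) (z' X))) - 1|) ≤
          ε := by
  obtain ⟨g, hg⟩ := exists_nat_gt (48 / ε)
  obtain ⟨u₀, hu₀⟩ := exists_nat_gt (24 * ((4 * k + 4 : ℕ) : ℝ) / ε)
  have hg1 : (0 : ℝ) < g := lt_trans (by positivity) hg
  have hg0 : 0 < g := by exact_mod_cast hg1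
  refine ⟨g, u₀, hg0, fun u hu => ?_⟩
  have hu1 : 24 * ((4 * k + 4 : ℕ) : ℝ) / ε < u := lt_of_lt_of_le hu₀ (by exact_mod_cast hu)
  have hu2 : (0 : ℝ) < u := lt_trans (by positivity) hu1
  have hu0 : 0 < u := by exact_mod_cast hu2
  set nL : ℝ := (Fintype.card (Fin (2 * (g * (2 * (4 * k + 4) + 2)) + 1)) : ℝ) with hnL
  have hnL0 : 0 < nL := by rw [hnL]; exact_mod_cast Fintype.card_pos
  set c : ℝ := 1 / ((g : ℝ) * u) with hc
  have hc0 : 0 < c := by positivity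
  have hε'' : 0 < ε / 24 / (nL * c) := by positivity
  obtain ⟨κ₁, hAI⟩ := AI k Λ u (ε / 24 / (nL * c)) hε''
  obtain ⟨κ₂, hκ₂⟩ := pow_small ((k : ℝ) ^ 2 * 8) (ε / 8) (by positivity)
  refine ⟨max κ₁ κ₂, ?_⟩
  intro κ μ q e₀ M0 M1 M2 hκ hC hcell
  have hC0 := hC ⟨0, by omega⟩
  choose d₁ hd₁ using fun l => hAI κ μ q e₀ ![M0 l, M1, M2] ((le_max_left _ _).trans hκ) (hC l)
  obtain ⟨d₂, hd₂⟩ := RS (4 * k + 4) g u (by omega) hg0 hu0 (ε / 24) (by positivity) μ q e₀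
    hC0.qpos hC0.qe M0 M1 M2 (fun l => ⟨(hC l).Mpos 0, (hC l).Mle 0⟩) ⟨hC0.Mpos 1, hC0.Mle 1⟩
    ⟨hC0.Mpos 2, hC0.Mle 2⟩ hcell
  obtain ⟨d₃, hd₃⟩ := pow_small ((k : ℝ) ^ 2 * ((e₀ : ℝ) + 1)) (ε / 8) (by positivity)
  refine ⟨max (Finset.univ.sup d₁) (max d₂ d₃), ?_⟩
  intro d hd v hv hrel V hV
  have hdl : ∀ l, d₁ l ≤ d := fun l =>
    (Finset.le_sup (f := d₁) (Finset.mem_univ l)).trans ((le_max_left _ _).trans hd)
  have hd2 : d₂ ≤ d := (le_max_left _ _).trans ((le_max_right _ _).trans hd)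
  have hd3 : d₃ ≤ d := (le_max_right _ _).trans ((le_max_right _ _).trans hd)
  have : Nonempty (Fin (2 ^ d)) := ⟨⟨0, Nat.two_pow_pos d⟩⟩
  have hA : ∀ (V' : Fin 3 → Finset (Fin (4 * k + 4))) (z : Fin 3 → Fin (4 * k + 4) → Fin (2 ^ d)),
      Ex (fun z' : Fin 3 → Fin (4 * k + 4) → Fin (2 ^ d) =>
        Wc (4 * k + 4) g q u d M0 M1 M2 v (fun X => (V' X).piecewise (z X) (z' X))) =
      ∑ l, c * Ex (fun z' : Fin 3 → Fin (4 * k + 4) → Fin (2 ^ d) =>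
        Wt (4 * k + 4) q u d ![M0 l, M1, M2] v (fun X => (V' X).piecewise (z X) (z' X))) := by
    intro V' z
    simp only [Wc]
    rw [Ex_sum]
    exact Finset.sum_congr rfl fun l _ => Ex_mul_left _ _
  have hcop : ∀ V' : Fin 3 → Finset (Fin (4 * k + 4)), (∀ X, (V' X).card ≤ k) →
      Ex (fun z : Fin 3 → Fin (4 * k + 4) → Fin (2 ^ d) =>
        if Nat.Coprime (∏ i ∈ V' 0, zz q u d (v 0) (z 0) i) (∏ i ∈ V' 1, zz q u d (v 1) (z 1) i)
        then |Ex (fun z' : Fin 3 → Fin (4 * k + 4) → Fin (2 ^ d) =>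
          Wc (4 * k + 4) g q u d M0 M1 M2 v (fun X => (V' X).piecewise (z X) (z' X))) - 1|
        else 0) ≤ ε / 6 := by
    intro V' hV'
    simp only [hA]
    have h1 := cop_bd (fun z : Fin 3 → Fin (4 * k + 4) → Fin (2 ^ d) =>
        Nat.Coprime (∏ i ∈ V' 0, zz q u d (v 0) (z 0) i) (∏ i ∈ V' 1, zz q u d (v 1) (z 1) i))
      c hc0.le
      (fun l z => Ex (fun z' : Fin 3 → Fin (4 * k + 4) → Fin (2 ^ d) =>
        Wt (4 * k + 4) q u d ![M0 l, M1, M2] v (fun X => (V' X).piecewise (z X) (z' X))))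
      (fun l z => Ex (fun z' : Fin 3 → Fin (4 * k + 4) → Fin (2 ^ d) =>
        Ws (4 * k + 4) q u d (KS (4 * k + 4) μ e₀ d) ![M0 l, M1, M2] v
          (fun X => (V' X).piecewise (z X) (z' X))))
      (2 / g + ((4 * k + 4 : ℕ) : ℝ) / u + ε / 24) (ε / 24 / (nL * c)) (by positivity)
      (fun l => hd₁ l d (hdl l) v hv (hrel l) V' hV')
      (fun z => hd₂ d hd2 v hv V' (by have := hV' 0; omega) z)
    refine h1.trans ?_
    have h2 : nL * (c * (ε / 24 / (nL * c))) = ε / 24 := by field_simp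
    have h3 : 2 / (g : ℝ) ≤ ε / 24 := by
      rw [div_lt_iff₀ hε] at hg
      rw [div_le_div_iff₀ hg1 (by norm_num)]
      linarith
    have h4 : ((4 * k + 4 : ℕ) : ℝ) / u ≤ ε / 24 := by
      rw [div_lt_iff₀ hε] at hu1
      rw [div_le_div_iff₀ hu2 (by norm_num)]
      linarith
    rw [← hnL, h2]
    linarith
  have hE : Ex (fun z : Fin 3 → Fin (4 * k + 4) → Fin (2 ^ d) =>
      Ex (fun z' : Fin 3 → Fin (4 * k + 4) → Fin (2 ^ d) =>
        Wc (4 * k + 4) g q u d M0 M1 M2 v (fun X => (V X).piecewise (z X) (z' X)))) ≤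
      1 + ε / 6 := by
    rw [Ex_pw3 V (fun z => Wc (4 * k + 4) g q u d M0 M1 M2 v z),
      ← Ex_pw3 (fun _ => ∅) (fun z => Wc (4 * k + 4) g q u d M0 M1 M2 v z)]
    have h1 := hcop (fun _ => ∅) (fun _ => Nat.zero_le _)
    have h2 : ∀ z : Fin 3 → Fin (4 * k + 4) → Fin (2 ^ d),
        Ex (fun z' : Fin 3 → Fin (4 * k + 4) → Fin (2 ^ d) =>
          Wc (4 * k + 4) g q u d M0 M1 M2 v
            (fun X => (∅ : Finset (Fin (4 * k + 4))).piecewise (z X) (z' X))) ≤ 1 +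
        (if Nat.Coprime (∏ i ∈ (∅ : Finset (Fin (4 * k + 4))), zz q u d (v 0) (z 0) i)
          (∏ i ∈ (∅ : Finset (Fin (4 * k + 4))), zz q u d (v 1) (z 1) i)
        then |Ex (fun z' : Fin 3 → Fin (4 * k + 4) → Fin (2 ^ d) =>
          Wc (4 * k + 4) g q u d M0 M1 M2 v
            (fun X => (∅ : Finset (Fin (4 * k + 4))).piecewise (z X) (z' X))) - 1| else 0) := by
      intro z
      rw [if_pos (by simp)]
      have := le_abs_self (Ex (fun z' : Fin 3 → Fin (4 * k + 4) → Fin (2 ^ d) =>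
          Wc (4 * k + 4) g q u d M0 M1 M2 v
            (fun X => (∅ : Finset (Fin (4 * k + 4))).piecewise (z X) (z' X))) - 1)
      linarith
    refine (Ex_mono h2).trans ?_
    rw [Ex_add, Ex_const]
    exact add_le_add le_rfl h1
  have hn : Ex (fun z : Fin 3 → Fin (4 * k + 4) → Fin (2 ^ d) =>
      if Nat.Coprime (∏ i ∈ V 0, zz q u d (v 0) (z 0) i) (∏ i ∈ V 1, zz q u d (v 1) (z 1) i)
      then (0 : ℝ) else 1) ≤ ε / 4 := by
    rw [Ex3 (fun z₀ z₁ _ : Fin (4 * k + 4) → Fin (2 ^ d) =>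
      if Nat.Coprime (∏ i ∈ V 0, zz q u d (v 0) z₀ i) (∏ i ∈ V 1, zz q u d (v 1) z₁ i)
      then (0 : ℝ) else 1)]
    simp only [Ex_const]
    refine (noncop hC0 hv V hV).trans ?_
    have h1 := hκ₂ κ ((le_max_right _ _).trans hκ)
    have h2 := hd₃ d hd3
    have h3 : (k : ℝ) ^ 2 * (8 / 2 ^ κ + ((e₀ : ℝ) + 1) / 2 ^ d) =
      (k : ℝ) ^ 2 * 8 / 2 ^ κ + (k : ℝ) ^ 2 * ((e₀ : ℝ) + 1) / 2 ^ d := by ring
    rw [h3]
    linarith
  have := fin_step (fun z : Fin 3 → Fin (4 * k + 4) → Fin (2 ^ d) =>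
      Ex (fun z' : Fin 3 → Fin (4 * k + 4) → Fin (2 ^ d) =>
        Wc (4 * k + 4) g q u d M0 M1 M2 v (fun X => (V X).piecewise (z X) (z' X))))
    (fun z => Nat.Coprime (∏ i ∈ V 0, zz q u d (v 0) (z 0) i)
      (∏ i ∈ V 1, zz q u d (v 1) (z 1) i)) (ε / 6) (ε / 4)
    (fun z => Ex_nonneg fun z' => Wc_nonneg _ _ _ _ _ _ _ _ _ _) hE (hcop V hV) hn
  linarith

end Pool.Agent.H366.ZC
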