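import Pool.Agent.H366.ZC.CtrV
import Pool.Agent.H366.ZC.Flat
import Pool.Agent.H366.ZC.Dens
import Pool.Agent.H366.ZC.Exp
import Pool.Agent.H366.ZC.KeyB

/-! # One step of the key theorem -/

set_option autoImplicit false

namespace Pool.Agent.H366.ZC

open H39Gon H39Gon.TaskB
open Pool.Agent.H366.GF (Ex Ex_equiv)

namespace KeyZN

lemma ctx_of {κ Λ μ e₀ u : ℕ} {A B C p₁ p₂ q₁ r₁ : ℕ} (hκ : 0 < κ) (hu : 0 < u)
    (he : qq κ * (u + 1) ≤ 2 ^ e₀) (hA : 0 < A) (hB : 0 < B) (hC : 0 < C)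
    (hAB : Nat.Coprime A B) (hall : ∀ p : ℕ, p.Prime → (p ∣ A * B * C ↔ p < 2 ^ κ))
    (hp₁ : p₁.Prime) (hp₂ : p₂.Prime) (hq₁ : q₁.Prime) (hr₁ : r₁.Prime) (h₁ : p₁ ∣ A)
    (h₂ : p₂ ∣ A) (h₃ : q₁ ∣ B) (h₄ : r₁ ∣ C) (L n₁ n₂ n₃ n₄ : ℕ)
    (hle : ∀ X, (![A ^ L * p₁ ^ n₁ * p₂ ^ n₂, B ^ L * q₁ ^ n₃, C ^ L * r₁ ^ n₄] : Fin 3 → ℕ) X ≤
      2 ^ μ)
    (hr : ∀ X Y, (![A ^ L * p₁ ^ n₁ * p₂ ^ n₂, B ^ L * q₁ ^ n₃, C ^ L * r₁ ^ n₄] : Fin 3 → ℕ) X ≤
      Λ * (![A ^ L * p₁ ^ n₁ * p₂ ^ n₂, B ^ L * q₁ ^ n₃, C ^ L * r₁ ^ n₄] : Fin 3 → ℕ) Y) :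
    Ctx κ Λ μ (qq κ) e₀ u ![A ^ L * p₁ ^ n₁ * p₂ ^ n₂, B ^ L * q₁ ^ n₃, C ^ L * r₁ ^ n₄] where
  κpos := hκ
  qpos := qq_pos κ
  upos := hu
  qe := he
  small := fun p hp h => (dvd_qq hp).2 h
  smooth := by
    intro X p hp hd
    rw [dvd_qq hp, ← hall p hp]
    have key : ∀ (Y r : ℕ), r.Prime → r ∣ Y → ∀ m, p ∣ r ^ m → p ∣ Y := by
      intro Y r _ hrY m h
      exact (hp.dvd_of_dvd_pow h).trans hrY
    fin_cases X
    · have hd' : p ∣ A ^ L * p₁ ^ n₁ * p₂ ^ n₂ := hd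
      have : p ∣ A := by
        rcases (Nat.Prime.dvd_mul hp).1 hd' with h | h
        · rcases (Nat.Prime.dvd_mul hp).1 h with h | h
          · exact hp.dvd_of_dvd_pow h
          · exact key A p₁ hp₁ h₁ _ h
        · exact key A p₂ hp₂ h₂ _ h
      exact (this.mul_right _).mul_right _
    · have hd' : p ∣ B ^ L * q₁ ^ n₃ := hd
      have : p ∣ B := by
        rcases (Nat.Prime.dvd_mul hp).1 hd' with h | h
        · exact hp.dvd_of_dvd_pow h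
        · exact key B q₁ hq₁ h₃ _ h
      exact (this.mul_left _).mul_right _
    · have hd' : p ∣ C ^ L * r₁ ^ n₄ := hd
      have : p ∣ C := by
        rcases (Nat.Prime.dvd_mul hp).1 hd' with h | h
        · exact hp.dvd_of_dvd_pow h
        · exact key C r₁ hr₁ h₄ _ h
      exact this.mul_left _
  Mpos := by
    have e1 := hp₁.pos
    have e2 := hp₂.pos
    have e3 := hq₁.pos
    have e4 := hr₁.pos
    intro X
    fin_cases X
    · show 0 < A ^ L * p₁ ^ n₁ * p₂ ^ n₂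
      positivity
    · show 0 < B ^ L * q₁ ^ n₃
      positivity
    · show 0 < C ^ L * r₁ ^ n₄
      positivity
  Mle := hle
  cop := by
    show Nat.Coprime (A ^ L * p₁ ^ n₁ * p₂ ^ n₂) (B ^ L * q₁ ^ n₃)
    have hAq : Nat.Coprime A q₁ := Nat.Coprime.coprime_dvd_right h₃ hAB
    have f1 : Nat.Coprime p₁ B := Nat.Coprime.coprime_dvd_left h₁ hAB
    have f2 : Nat.Coprime p₂ B := Nat.Coprime.coprime_dvd_left h₂ hAB
    have f3 : Nat.Coprime p₁ q₁ := Nat.Coprime.coprime_dvd_left h₁ hAq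
    have f4 : Nat.Coprime p₂ q₁ := Nat.Coprime.coprime_dvd_left h₂ hAq
    refine Nat.Coprime.mul_left (Nat.Coprime.mul_left ?_ ?_) ?_ <;>
      refine Nat.Coprime.mul_right ?_ ?_ <;> exact Nat.Coprime.pow _ _ (by assumption)
  ratio := hr

section curry

variable {s : ℕ} {S : Type}

/-- the parts of `V` -/
def prt (V : Finset (Fin 3 × Fin s)) (X : Fin 3) : Finset (Fin s) :=
  Finset.univ.filter fun i => (X, i) ∈ V

lemma prt_card (V : Finset (Fin 3 × Fin s)) (X : Fin 3) : (prt V X).card ≤ V.card := by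
  refine Finset.card_le_card_of_injOn (fun i => (X, i)) ?_ ?_
  · intro i hi
    exact (Finset.mem_filter.1 hi).2
  · intro i _ j _ h
    exact (Prod.mk.inj h).2

lemma pw_curry (V : Finset (Fin 3 × Fin s)) (z z' : Fin 3 × Fin s → S) :
    (fun (X : Fin 3) (i : Fin s) => V.piecewise z z' (X, i)) =
      fun X => (prt V X).piecewise (fun i => z (X, i)) (fun i => z' (X, i)) := by
  funext X i
  by_cases h : (X, i) ∈ V
  · rw [Finset.piecewise_eq_of_mem _ _ _ h, Finset.piecewise_eq_of_mem]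
    exact Finset.mem_filter.2 ⟨Finset.mem_univ _, h⟩
  · rw [Finset.piecewise_eq_of_notMem _ _ _ h, Finset.piecewise_eq_of_notMem]
    exact fun h' => h (Finset.mem_filter.1 h').2

lemma Ex_curry [Fintype S] (f : (Fin 3 → Fin s → S) → ℝ) :
    Ex (fun z : Fin 3 × Fin s → S => f (fun X i => z (X, i))) = Ex f :=
  Ex_equiv (Equiv.curry (Fin 3) (Fin s) S) f

end curry

/-- the affine functions -/
noncomputable def al (E L φ A B C p₁ p₂ q₁ r₁ : ℕ) : Fin 4 → Option (Fin 4) → ℝ :=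
  ![fun o => o.elim 0 ![(E : ℝ), 0, 0, 0],
    fun o => o.elim 0 ![0, (E : ℝ), 0, 0],
    fun o => o.elim ((L * Real.log A - L * Real.log B) / (φ * Real.log q₁))
      ![φ * E * Real.log p₁ / (φ * Real.log q₁), φ * E * Real.log p₂ / (φ * Real.log q₁),
        1 / (φ * Real.log q₁), 0],
    fun o => o.elim ((L * Real.log A - L * Real.log C) / (φ * Real.log r₁))
      ![φ * E * Real.log p₁ / (φ * Real.log r₁), φ * E * Real.log p₂ / (φ * Real.log r₁),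
        0, 1 / (φ * Real.log r₁)]]

lemma al_spec {E L φ A B C p₁ p₂ q₁ r₁ : ℕ} (hE : 0 < E) (hφ : 0 < φ) (hA : 0 < A) (hB : 0 < B)
    (hC : 0 < C) (hp₁ : p₁.Prime) (hp₂ : p₂.Prime) (hq₁ : q₁.Prime) (hr₁ : r₁.Prime)
    (a₁ a₂ b c : ℕ) (j : Fin 4) :
    (((![(a₁ : ℤ), (a₂ : ℤ), (b : ℤ), (c : ℤ)] : Fin 4 → ℤ) j : ℤ) : ℝ) =
      ∑ o : Option (Fin 4), al E L φ A B C p₁ p₂ q₁ r₁ j o *
        vo ![(a₁ : ℝ) / E, (a₂ : ℝ) / E,
          Real.log (((B ^ L * q₁ ^ (φ * b) : ℕ) : ℝ) /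
            ((A ^ L * p₁ ^ (φ * a₁) * p₂ ^ (φ * a₂) : ℕ) : ℝ)),
          Real.log (((C ^ L * r₁ ^ (φ * c) : ℕ) : ℝ) /
            ((A ^ L * p₁ ^ (φ * a₁) * p₂ ^ (φ * a₂) : ℕ) : ℝ))] o := by
  have hE' : (E : ℝ) ≠ 0 := by exact_mod_cast hE.ne'
  have hφ' : (φ : ℝ) ≠ 0 := by exact_mod_cast hφ.ne'
  have hA' : (A : ℝ) ≠ 0 := by exact_mod_cast hA.ne'
  have hB' : (B : ℝ) ≠ 0 := by exact_mod_cast hB.ne'
  have hC' : (C : ℝ) ≠ 0 := by exact_mod_cast hC.ne'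
  have hp₁' : (p₁ : ℝ) ≠ 0 := by exact_mod_cast hp₁.ne_zero
  have hp₂' : (p₂ : ℝ) ≠ 0 := by exact_mod_cast hp₂.ne_zero
  have hq₁' : (q₁ : ℝ) ≠ 0 := by exact_mod_cast hq₁.ne_zero
  have hr₁' : (r₁ : ℝ) ≠ 0 := by exact_mod_cast hr₁.ne_zero
  have hlq : Real.log q₁ ≠ 0 := (Real.log_pos (by exact_mod_cast hq₁.one_lt)).ne'
  have hlr : Real.log r₁ ≠ 0 := (Real.log_pos (by exact_mod_cast hr₁.one_lt)).ne'
  have hM0 : Real.log ((A ^ L * p₁ ^ (φ * a₁) * p₂ ^ (φ * a₂) : ℕ) : ℝ) =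
      L * Real.log A + φ * a₁ * Real.log p₁ + φ * a₂ * Real.log p₂ := by
    push_cast
    rw [Real.log_mul (by positivity) (by positivity), Real.log_mul (by positivity) (by positivity),
      Real.log_pow, Real.log_pow, Real.log_pow]
    push_cast
    ring
  have hM1 : Real.log ((B ^ L * q₁ ^ (φ * b) : ℕ) : ℝ) =
      L * Real.log B + φ * b * Real.log q₁ := by
    push_cast
    rw [Real.log_mul (by positivity) (by positivity), Real.log_pow, Real.log_pow]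
    push_cast
    ring
  have hM2 : Real.log ((C ^ L * r₁ ^ (φ * c) : ℕ) : ℝ) =
      L * Real.log C + φ * c * Real.log r₁ := by
    push_cast
    rw [Real.log_mul (by positivity) (by positivity), Real.log_pow, Real.log_pow]
    push_cast
    ring
  have e1 : ((A ^ L * p₁ ^ (φ * a₁) * p₂ ^ (φ * a₂) : ℕ) : ℝ) ≠ 0 := by
    push_cast; positivity
  have e2 : ((B ^ L * q₁ ^ (φ * b) : ℕ) : ℝ) ≠ 0 := by push_cast; positivity
  have e3 : ((C ^ L * r₁ ^ (φ * c) : ℕ) : ℝ) ≠ 0 := by push_cast; positivity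
  rw [Real.log_div e2 e1, Real.log_div e3 e1, hM0, hM1, hM2, Fintype.sum_option, Fin.sum_univ_four]
  fin_cases j
  · simp [al, vo]
    field_simp
  · simp [al, vo]
    field_simp
  · simp [al, vo]
    field_simp
    ring
  · simp [al, vo]
    field_simp
    ring

lemma al_zero {E L φ A B C p₁ p₂ q₁ r₁ : ℕ} (j : Fin 4) :
    (0 : ℝ) = ∑ o : Option (Fin 4), al E L φ A B C p₁ p₂ q₁ r₁ j o *
        vo ![0, 0, -(L * Real.log A - L * Real.log B), -(L * Real.log A - L * Real.log C)] o := by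
  rw [Fintype.sum_option, Fin.sum_univ_four]
  fin_cases j
  · simp [al, vo]
  · simp [al, vo]
  · simp [al, vo]
    ring
  · simp [al, vo]
    ring

end KeyZN

end Pool.Agent.H366.ZC
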