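import Pool.Agent.H980.Ctr

/-! # [CTRV] the contraction theorem for several functions and varying functionals -/

set_option autoImplicit false
set_option linter.unusedSectionVars false

namespace Pool.Agent.H366.ZC.CtrVN

open Finset
open Pool.Agent.H980.Ctr (alt alt_congr alt_insert alt_eq_zero sum_alt abs_alt_le E A E_add E_sub
  E_mul_left E_sum E_mono E_nonneg abs_E_le card_pos' E_const E_tower piecewise_piecewise_sub A_mul
  A_A A_congr A_add A_sub A_mul_left abs_A_le A_mono A_nonneg A_ext A_const A_sum A_markov H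
  pw_congr H_congr H_eq_zero_of_eq sum_H H_degree PP one_le_PP sum_le_PP alt_sum)

variable {ι S : Type} [Fintype ι] [DecidableEq ι] [Fintype S]

section main

variable [Nonempty S] (n : ℕ) (P G : (ι → S) → ℝ) (δ : ℝ) (b : ι → S)

/-- `z` is `b`-good on `I` -/
def BG (I : Finset ι) (z : ι → S) : Prop :=
  ∀ I' ⊆ I, ∀ L : Finset ι, L.card ≤ n → A L P (I'.piecewise z b) ≤ δ ^ (n + 1 - L.card)

open Classical in
/-- indicator of being good -/
noncomputable def beta (J : Finset ι) (z : ι → S) : ℝ := if BG n P δ b J z then 1 else 0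

/-- truncated differences -/
noncomputable def k (J : Finset ι) (z : ι → S) : ℝ := beta n P δ b J z * H G b J z

lemma BG_congr {J : Finset ι} {z z' : ι → S} (h : ∀ i ∈ J, z i = z' i) :
    BG n P δ b J z ↔ BG n P δ b J z' := by
  unfold BG
  constructor
  · intro hz I' hI' L hL
    rw [← pw_congr b (fun i hi => h i (hI' hi))]
    exact hz I' hI' L hL
  · intro hz I' hI' L hL
    rw [pw_congr b (fun i hi => h i (hI' hi))]
    exact hz I' hI' L hL

lemma beta_congr {J : Finset ι} {z z' : ι → S} (h : ∀ i ∈ J, z i = z' i) :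
    beta n P δ b J z = beta n P δ b J z' := by
  unfold beta
  have := BG_congr n P δ b h
  by_cases h1 : BG n P δ b J z
  · rw [if_pos h1, if_pos (this.1 h1)]
  · rw [if_neg h1, if_neg (fun h2 => h1 (this.2 h2))]

lemma k_congr {J : Finset ι} {z z' : ι → S} (h : ∀ i ∈ J, z i = z' i) :
    k n P G δ b J z = k n P G δ b J z' := by
  unfold k
  rw [beta_congr n P δ b h, H_congr G b h]

variable {n P G δ b}

lemma beta_nonneg (J : Finset ι) (z : ι → S) : 0 ≤ beta n P δ b J z := by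
  unfold beta
  split_ifs <;> norm_num

lemma beta_le_one (J : Finset ι) (z : ι → S) : beta n P δ b J z ≤ 1 := by
  unfold beta
  split_ifs <;> norm_num

/-- (d) -/
lemma dev_le {w : (ι → S) → ℝ} (hPw : ∀ V : Finset ι, V.card ≤ 2 * n → ∀ y, |A V w y - 1| ≤ P y)
    (hδ : 0 < δ) (hδ1 : δ ≤ 1) {I J ω : Finset ι} (hI : I.card ≤ n) (hJ : J.card ≤ n)
    (hω : ω ⊆ I) {z : ι → S} (hz : BG n P δ b I z) :
    A I (fun y => |A (I ∪ J) w y - 1|) (ω.piecewise z b) ≤ δ := by
  have h1 := hz ω hω I hI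
  have h2 : δ ^ (n + 1 - I.card) ≤ δ := by
    calc δ ^ (n + 1 - I.card) ≤ δ ^ 1 := pow_le_pow_of_le_one hδ.le hδ1 (by omega)
      _ = δ := pow_one δ
  refine le_trans (A_mono (fun y => ?_) _) (h1.trans h2)
  refine hPw _ ?_ y
  have := card_union_le I J
  omega

open Classical in
/-- (c), one constraint -/
lemma bad_one (hP0 : ∀ z, 0 ≤ P z) (hδ : 0 < δ) (hδ1 : δ ≤ 1) {I J' ω L : Finset ι} (hω : ω ⊆ I)
    (hL : L.card ≤ n) {z : ι → S} (hz : BG n P δ b I z) :
    A I (fun y => if δ ^ (n + 1 - L.card) < A L P (J'.piecewise y b) then (1 : ℝ) else 0)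
      (ω.piecewise z b) ≤ δ := by
  set K : Finset ι := L \ (J' \ I) with hK
  set x : ι → S := (J' ∩ ω).piecewise z b with hx
  have hKL : K ⊆ L := sdiff_subset
  have hxω : J' ∩ ω ⊆ I := inter_subset_right.trans hω
  have hKn : K.card ≤ n := (card_le_card hKL).trans hL
  have hPhi : ∀ z' : ι → S, A L P (J'.piecewise (I.piecewise (ω.piecewise z b) z') b) =
      A L P (K.piecewise x z') := by
    intro z'
    refine A_congr (fun i hi => ?_) _
    by_cases h1 : i ∈ J'
    · by_cases h2 : i ∈ I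
      · have h3 : i ∈ K := by simp [hK, hi, h2]
        by_cases h4 : i ∈ ω <;> simp [h1, h2, h3, h4, hx]
      · have h3 : i ∉ K := by simp [hK, hi, h1, h2]
        simp [h1, h2, h3]
    · have h3 : i ∈ K := by simp [hK, hi, h1]
      simp [h1, h3, hx]
  have h0 : A I (fun y => if δ ^ (n + 1 - L.card) < A L P (J'.piecewise y b)
      then (1 : ℝ) else 0) (ω.piecewise z b) =
      A K (fun y => if δ ^ (n + 1 - L.card) < A L P y then (1 : ℝ) else 0) x := by
    refine A_ext fun z' => ?_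
    have := hPhi z'
    change (if δ ^ (n + 1 - L.card) < A L (P)
      (J'.piecewise (I.piecewise (ω.piecewise z b) z') b) then (1 : ℝ) else 0) =
      (if δ ^ (n + 1 - L.card) < A L P (K.piecewise x z') then (1 : ℝ) else 0)
    rw [this]
  rw [h0]
  by_cases hKL' : K = L
  · have h1 : A K (fun y => if δ ^ (n + 1 - L.card) < A L P y then (1 : ℝ) else 0) x =
        0 := by
      refine A_const fun z' => ?_
      have h3 : A L P (K.piecewise x z') = A L P x := by
        refine A_congr (fun i hi => ?_) _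
        rw [← hKL'] at hi
        simp [hi]
      have h4 := hz _ hxω L hL
      refine if_neg ?_
      rw [h3]
      exact not_lt.2 h4
    rw [h1]
    exact hδ.le
  · have hlt : K.card < L.card := card_lt_card (hKL.ssubset_of_ne hKL')
    have hc : 0 < δ ^ (n + 1 - L.card) := pow_pos hδ _
    refine (A_markov hc (fun y => A_nonneg (hP0) y) x).trans ?_
    rw [A_A hKL, div_le_iff₀ hc]
    refine (hz _ hxω K hKn).trans ?_
    calc δ ^ (n + 1 - K.card) ≤ δ ^ (1 + (n + 1 - L.card)) :=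
          pow_le_pow_of_le_one hδ.le hδ1 (by omega)
      _ = δ * δ ^ (n + 1 - L.card) := by rw [pow_add, pow_one]

/-- (c) -/
lemma bad_le (hP0 : ∀ z, 0 ≤ P z) (hδ : 0 < δ) (hδ1 : δ ≤ 1) {I ω : Finset ι} (J : Finset ι) (hω : ω ⊆ I)
    {z : ι → S} (hz : BG n P δ b I z) :
    A I (fun y => 1 - beta n P δ b J y) (ω.piecewise z b) ≤ PP ι * (PP ι * δ) := by
  classical
  have h1 : ∀ y : ι → S, 1 - beta n P δ b J y ≤ ∑ J' ∈ J.powerset,
      ∑ L ∈ (univ : Finset (Finset ι)).filter (fun L => L.card ≤ n),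
        if δ ^ (n + 1 - L.card) < A L P (J'.piecewise y b) then (1 : ℝ) else 0 := by
    intro y
    have hnn : ∀ J' ∈ J.powerset, (0 : ℝ) ≤
        ∑ L ∈ (univ : Finset (Finset ι)).filter (fun L => L.card ≤ n),
        if δ ^ (n + 1 - L.card) < A L P (J'.piecewise y b) then (1 : ℝ) else 0 := by
      intro J' _
      refine sum_nonneg fun L _ => ?_
      split_ifs <;> norm_num
    unfold beta
    split_ifs with h
    · rw [sub_self]
      exact sum_nonneg hnn
    · rw [sub_zero]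
      unfold BG at h
      push Not at h
      obtain ⟨J', hJ', L, hL, hlt⟩ := h
      refine le_trans ?_ (single_le_sum hnn (mem_powerset.2 hJ'))
      have h2 := single_le_sum (s := (univ : Finset (Finset ι)).filter (fun L => L.card ≤ n))
        (f := fun L => if δ ^ (n + 1 - L.card) < A L P (J'.piecewise y b)
          then (1 : ℝ) else 0) (fun L _ => by split_ifs <;> norm_num) (a := L)
        (by simp [hL])
      refine le_trans ?_ h2
      rw [if_pos hlt]
  refine (A_mono h1 _).trans ?_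
  rw [A_sum]
  have hP : 0 ≤ PP ι := zero_le_one.trans one_le_PP
  refine sum_le_PP _ _ _ (by positivity) fun J' _ => ?_
  rw [A_sum]
  refine sum_le_PP _ _ _ hδ.le fun L hL => ?_
  exact bad_one hP0 hδ hδ1 hω (mem_filter.1 hL).2 hz


open Classical in
/-- indicator of being good everywhere -/
noncomputable def chi (n : ℕ) (P : (ι → S) → ℝ) (δ : ℝ) (b : ι → S) (y : ι → S) : ℝ :=
  if ∀ J : Finset ι, J.card ≤ n → BG n P δ b J y then 1 else 0

lemma chi_nonneg (y : ι → S) : 0 ≤ chi n P δ b y := by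
  unfold chi
  split_ifs <;> norm_num

lemma chi_le_one (y : ι → S) : chi n P δ b y ≤ 1 := by
  unfold chi
  split_ifs <;> norm_num

lemma chi_mul {J : Finset ι} (hJ : J.card ≤ n) (y : ι → S) :
    chi n P δ b y * H G b J y = chi n P δ b y * k n P G δ b J y := by
  unfold chi k beta
  split_ifs with h h'
  · ring
  · exact absurd (h J hJ) h'
  · ring
  · ring

lemma one_sub_chi_le (y : ι → S) : 1 - chi n P δ b y ≤
    ∑ J ∈ (univ : Finset (Finset ι)).filter (fun J => J.card ≤ n), (1 - beta n P δ b J y) := by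
  have hnn : ∀ J ∈ (univ : Finset (Finset ι)).filter (fun J => J.card ≤ n),
      0 ≤ 1 - beta n P δ b J y := fun J _ => sub_nonneg.2 (beta_le_one J y)
  by_cases h : ∀ J : Finset ι, J.card ≤ n → BG n P δ b J y
  · have : chi n P δ b y = 1 := by
      unfold chi
      rw [if_pos h]
    rw [this, sub_self]
    exact sum_nonneg hnn
  · have h1 : chi n P δ b y = 0 := by
      unfold chi
      rw [if_neg h]
    push Not at h
    obtain ⟨J, hJ, hJ'⟩ := h
    have h2 := single_le_sum hnn (a := J) (by simp [hJ])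
    have h3 : beta n P δ b J y = 0 := by
      unfold beta
      rw [if_neg hJ']
    rw [h1]
    rw [h3] at h2
    exact h2

lemma wbeta_le (hP0 : ∀ z, 0 ≤ P z) {w : (ι → S) → ℝ}
    (hPw : ∀ V : Finset ι, V.card ≤ 2 * n → ∀ y, |A V w y - 1| ≤ P y) (hδ : 0 < δ) (hδ1 : δ ≤ 1) {I J ω : Finset ι} (hI : I.card ≤ n)
    (hJ : J.card ≤ n) (hω : ω ⊆ I) {z : ι → S} (hz : BG n P δ b I z) :
    A I (fun y => w y * (1 - beta n P δ b J y)) (ω.piecewise z b) ≤
      δ + PP ι * (PP ι * δ) := by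
  rw [A_mul (V := I ∪ J) subset_union_left w (fun y => 1 - beta n P δ b J y) ?_]
  · refine le_trans ?_ (add_le_add (dev_le hPw hδ hδ1 hI hJ hω hz) (bad_le hP0 hδ hδ1 J hω hz))
    rw [← A_add]
    refine A_mono (fun y => ?_) _
    have h1 := beta_nonneg (n := n) (P := P) (δ := δ) (b := b) J y
    have h2 := beta_le_one (n := n) (P := P) (δ := δ) (b := b) J y
    generalize beta n P δ b J y = t at h1 h2
    generalize A (I ∪ J) w y = s
    have h3 : s - 1 ≤ |s - 1| := le_abs_self _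
    have h4 : 0 ≤ |s - 1| := abs_nonneg _
    nlinarith
  · intro z z' hzz
    rw [beta_congr n P δ b (fun i hi => hzz i (mem_union_right _ hi))]

lemma k_abs_le {M : ℝ} (hM0 : 0 ≤ M) {J : Finset ι}
    (hM : ∀ y, BG n P δ b J y → |H G b J y| ≤ M) (y : ι → S) : |k n P G δ b J y| ≤ M := by
  unfold k beta
  split_ifs with h
  · rw [one_mul]
    exact hM y h
  · rw [zero_mul, abs_zero]
    exact hM0

lemma est (hP0 : ∀ z, 0 ≤ P z) {w : (ι → S) → ℝ}
    (hPw : ∀ V : Finset ι, V.card ≤ 2 * n → ∀ y, |A V w y - 1| ≤ P y) (hw : ∀ y, 0 ≤ w y) (hδ : 0 < δ) (hδ1 : δ ≤ 1) {I J ω : Finset ι} (hI : I.card ≤ n)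
    (hJ : J.card ≤ n) (hω : ω ⊆ I) {z : ι → S} (hz : BG n P δ b I z) {M : ℝ} (hM0 : 0 ≤ M)
    (hM : ∀ y, BG n P δ b J y → |H G b J y| ≤ M) :
    |A I (fun y => w y * chi n P δ b y * H G b J y) (ω.piecewise z b) -
      A I (k n P G δ b J) (ω.piecewise z b)| ≤ 3 * PP ι ^ 3 * δ * M := by
  set X : ι → S := ω.piecewise z b with hX
  have hk := k_abs_le (n := n) (P := P) (δ := δ) (b := b) (G := G) hM0 hM
  have h1 : A I (fun y => w y * chi n P δ b y * H G b J y) X =
      A I (fun y => w y * k n P G δ b J y) X -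
        A I (fun y => w y * (1 - chi n P δ b y) * k n P G δ b J y) X := by
    rw [← A_sub]
    congr 1
    funext y
    have := chi_mul (G := G) (P := P) (δ := δ) (b := b) hJ y
    rw [mul_assoc, this]
    ring
  have h2 : |A I (fun y => w y * k n P G δ b J y) X - A I (k n P G δ b J) X| ≤ M * δ := by
    rw [A_mul (V := I ∪ J) subset_union_left w (k n P G δ b J)
      (fun z z' h => k_congr n P G δ b (fun i hi => h i (mem_union_right _ hi)))]
    refine le_trans ?_ (mul_le_mul_of_nonneg_left (dev_le hPw hδ hδ1 hI hJ hω hz) hM0)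
    have e1 : A I (k n P G δ b J) X = A I (fun y => k n P G δ b J y) X := rfl
    rw [e1, ← A_sub, ← A_mul_left]
    refine (abs_A_le _ _).trans (A_mono (fun y => ?_) _)
    rw [← sub_one_mul, abs_mul, mul_comm]
    exact mul_le_mul_of_nonneg_right (hk y) (abs_nonneg _)
  have hP1 := one_le_PP (ι := ι)
  have h3 : |A I (fun y => w y * (1 - chi n P δ b y) * k n P G δ b J y) X| ≤
      M * (PP ι * (δ + PP ι * (PP ι * δ))) := by
    have h4 : ∑ J ∈ (univ : Finset (Finset ι)).filter (fun J => J.card ≤ n),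
        A I (fun y => w y * (1 - beta n P δ b J y)) X ≤ PP ι * (δ + PP ι * (PP ι * δ)) := by
      refine sum_le_PP _ _ _ (by positivity) fun J' hJ' => ?_
      exact wbeta_le hP0 hPw hδ hδ1 hI (mem_filter.1 hJ').2 hω hz
    refine le_trans ?_ (mul_le_mul_of_nonneg_left h4 hM0)
    rw [← A_sum, ← A_mul_left]
    refine (abs_A_le _ _).trans (A_mono (fun y => ?_) _)
    rw [← mul_sum, abs_mul, abs_mul, abs_of_nonneg (hw y),
      abs_of_nonneg (sub_nonneg.2 (chi_le_one y)), mul_comm]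
    have h5 := one_sub_chi_le (n := n) (P := P) (δ := δ) (b := b) y
    have h6 : 0 ≤ 1 - chi n P δ b y := sub_nonneg.2 (chi_le_one y)
    exact mul_le_mul (hk y) (mul_le_mul_of_nonneg_left h5 (hw y))
      (mul_nonneg (hw y) h6) hM0
  rw [h1]
  have h7 : A I (fun y => w y * k n P G δ b J y) X -
        A I (fun y => w y * (1 - chi n P δ b y) * k n P G δ b J y) X - A I (k n P G δ b J) X =
      (A I (fun y => w y * k n P G δ b J y) X - A I (k n P G δ b J) X) -
        A I (fun y => w y * (1 - chi n P δ b y) * k n P G δ b J y) X := by ring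
  rw [h7]
  refine (abs_sub _ _).trans ((add_le_add h2 h3).trans ?_)
  have hP2 : PP ι ≤ PP ι ^ 3 := by
    calc PP ι = PP ι ^ 1 := (pow_one _).symm
      _ ≤ PP ι ^ 3 := pow_le_pow_right₀ hP1 (by norm_num)
  have hP3 : 1 ≤ PP ι ^ 3 := one_le_pow₀ hP1
  have hMδ : 0 ≤ M * δ := mul_nonneg hM0 hδ.le
  have h8 : M * δ + M * (PP ι * (δ + PP ι * (PP ι * δ))) = (M * δ) * (1 + PP ι + PP ι ^ 3) := by
    ring
  rw [h8]
  have h9 : 3 * PP ι ^ 3 * δ * M = (M * δ) * (3 * PP ι ^ 3) := by ring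
  rw [h9]
  exact mul_le_mul_of_nonneg_left (by linarith) hMδ

/-- the family hypothesis: the weights, the functions and the small multipliers -/
structure Fam {D X : Type} [Fintype D] [Fintype X] (n : ℕ) (P : (ι → S) → ℝ) (ε : ℝ)
    (w : D → X → (ι → S) → ℝ) (G : D → (ι → S) → ℝ) (ϑ : D → X → (ι → S) → D → ℝ) : Prop where
  hP0 : ∀ z, 0 ≤ P z
  hPw : ∀ c, ∀ V : Finset ι, V.card ≤ 2 * n → ∀ y, |A V (fun z => ∑ x, w c x z) y - 1| ≤ P y
  hw : ∀ c x z, 0 ≤ w c x z
  hϑ : ∀ c x z c', |ϑ c x z c'| ≤ ε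
  hG : ∀ c, ∃ F : (Fin n → ι) → (Fin n → S) → ℝ, ∀ z, G c z = ∑ j, F j (z ∘ j)
  hwG : ∀ c x z, w c x z ≠ 0 → G c z + ∑ c', ϑ c x z c' * G c' z = 0

variable {D X : Type} [Fintype D] [Fintype X] {ε : ℝ} {w : D → X → (ι → S) → ℝ}
  {Gf : D → (ι → S) → ℝ} {ϑ : D → X → (ι → S) → D → ℝ}

lemma sum_H_le (hG : ∃ F : (Fin n → ι) → (Fin n → S) → ℝ, ∀ z, G z = ∑ j, F j (z ∘ j))
    (y : ι → S) : ∑ J ∈ (univ : Finset (Finset ι)).filter (fun J => J.card ≤ n), H G b J y =
      G y := by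
  rw [← sum_H G b y]
  refine sum_subset (filter_subset _ _) fun J _ hJ => ?_
  refine H_degree n G b hG ?_ y
  simpa using hJ

lemma chi_G_le (hF : Fam n P ε w Gf ϑ) {M : ℝ} (hM0 : 0 ≤ M)
    (hM : ∀ c, ∀ J : Finset ι, J.card ≤ n → ∀ y, BG n P δ b J y → |H (Gf c) b J y| ≤ M)
    (c : D) (y : ι → S) : chi n P δ b y * |Gf c y| ≤ PP ι * M := by
  have hP1 := one_le_PP (ι := ι)
  unfold chi
  split_ifs with h
  · rw [one_mul, ← sum_H_le (b := b) (hF.hG c) y]
    refine (abs_sum_le_sum_abs _ _).trans (sum_le_PP _ _ _ hM0 fun J hJ => ?_)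
    exact hM c J (mem_filter.1 hJ).2 y (h J (mem_filter.1 hJ).2)
  · rw [zero_mul]
    positivity

lemma wchi_le (hF : Fam n P ε w Gf ϑ) (hε : 0 ≤ ε) {M : ℝ} (hM0 : 0 ≤ M)
    (hM : ∀ c, ∀ J : Finset ι, J.card ≤ n → ∀ y, BG n P δ b J y → |H (Gf c) b J y| ≤ M)
    (c : D) (y : ι → S) : |(∑ x, w c x y) * chi n P δ b y * Gf c y| ≤
      (ε * (Fintype.card D : ℝ) * (PP ι * M)) * ∑ x, w c x y := by
  have h1 : (∑ x, w c x y) * chi n P δ b y * Gf c y =
      ∑ x, w c x y * (- ∑ c', ϑ c x y c' * (chi n P δ b y * Gf c' y)) := by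
    rw [mul_assoc, sum_mul]
    refine sum_congr rfl fun x _ => ?_
    by_cases h0 : w c x y = 0
    · rw [h0, zero_mul, zero_mul]
    · have h2 := hF.hwG c x y h0
      have h3 : ∑ c', ϑ c x y c' * (chi n P δ b y * Gf c' y) =
          chi n P δ b y * ∑ c', ϑ c x y c' * Gf c' y := by
        rw [mul_sum]
        refine sum_congr rfl fun c' _ => ?_
        ring
      rw [h3]
      have h4 : ∑ c', ϑ c x y c' * Gf c' y = - Gf c y := by linarith
      rw [h4]
      ring
  rw [h1, mul_sum]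
  refine (abs_sum_le_sum_abs _ _).trans (sum_le_sum fun x _ => ?_)
  rw [abs_mul, abs_neg, abs_of_nonneg (hF.hw c x y), mul_comm]
  refine mul_le_mul_of_nonneg_right ?_ (hF.hw c x y)
  refine (abs_sum_le_sum_abs _ _).trans ?_
  have h5 : ∀ c' ∈ (univ : Finset D), |ϑ c x y c' * (chi n P δ b y * Gf c' y)| ≤
      ε * (PP ι * M) := by
    intro c' _
    rw [abs_mul, abs_mul, abs_of_nonneg (chi_nonneg y)]
    exact mul_le_mul (hF.hϑ c x y c') (chi_G_le hF hM0 hM c' y)
      (mul_nonneg (chi_nonneg y) (abs_nonneg _)) hε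
  refine (sum_le_card_nsmul _ _ _ h5).trans (le_of_eq ?_)
  rw [card_univ, nsmul_eq_mul]
  ring

lemma sum_k_le (hF : Fam n P ε w Gf ϑ) (hε : 0 ≤ ε) (hεδ : 2 * (ε * (Fintype.card D : ℝ)) ≤ δ)
    (hδ : 0 < δ) (hδ1 : δ ≤ 1) {I ω : Finset ι} (hI : I.card ≤ n)
    (hω : ω ⊆ I) {z : ι → S} (hz : BG n P δ b I z) {M : ℝ} (hM0 : 0 ≤ M)
    (hM : ∀ c, ∀ J : Finset ι, J.card ≤ n → ∀ y, BG n P δ b J y → |H (Gf c) b J y| ≤ M) (c : D) :
    |∑ J ∈ (univ : Finset (Finset ι)).filter (fun J => J.card ≤ n),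
      A I (k n P (Gf c) δ b J) (ω.piecewise z b)| ≤ PP ι * (4 * PP ι ^ 3 * δ * M) := by
  set X : ι → S := ω.piecewise z b with hX
  set W : (ι → S) → ℝ := fun z => ∑ x, w c x z with hW
  have hW0 : ∀ y, 0 ≤ W y := fun y => sum_nonneg fun x _ => hF.hw c x y
  have hP1 := one_le_PP (ι := ι)
  have h0 : |∑ J ∈ (univ : Finset (Finset ι)).filter (fun J => J.card ≤ n),
      A I (fun y => W y * chi n P δ b y * H (Gf c) b J y) X| ≤ PP ι * (δ * M) := by
    rw [← A_sum]
    have h9 : (fun y : ι → S => ∑ J ∈ (univ : Finset (Finset ι)).filter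
        (fun J => J.card ≤ n), W y * chi n P δ b y * H (Gf c) b J y) =
        fun y => W y * chi n P δ b y * Gf c y := by
      funext y
      rw [← mul_sum, sum_H_le (hF.hG c) y]
    rw [h9]
    refine (abs_A_le _ _).trans ((A_mono (fun y => wchi_le hF hε hM0 hM c y) X).trans ?_)
    rw [A_mul_left]
    have h10 : A I W X ≤ 2 := by
      have h11 := dev_le (hF.hPw c) hδ hδ1 hI (J := ∅) (by simp) hω hz
      rw [union_empty, ← hX] at h11
      have h12 : A I (fun y => A I W y - 1) X = A I W X - 1 := by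
        rw [A_sub]
        congr 1
        · exact A_A (Subset.refl I) W X
        · exact A_const fun _ => rfl
      have h13 := (abs_A_le (V := I) (fun y => A I W y - 1) X).trans h11
      rw [h12] at h13
      have := (abs_le.1 h13).2
      linarith
    have h14 : 0 ≤ ε * (Fintype.card D : ℝ) * (PP ι * M) := by positivity
    calc ε * (Fintype.card D : ℝ) * (PP ι * M) * A I (fun y => ∑ x, w c x y) X ≤
        ε * (Fintype.card D : ℝ) * (PP ι * M) * 2 := mul_le_mul_of_nonneg_left h10 h14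
      _ = (2 * (ε * (Fintype.card D : ℝ))) * (PP ι * M) := by ring
      _ ≤ δ * (PP ι * M) := mul_le_mul_of_nonneg_right hεδ (by positivity)
      _ = PP ι * (δ * M) := by ring
  have h1 : ∑ J ∈ (univ : Finset (Finset ι)).filter (fun J => J.card ≤ n),
      A I (k n P (Gf c) δ b J) X = ∑ J ∈ (univ : Finset (Finset ι)).filter (fun J => J.card ≤ n),
        (A I (k n P (Gf c) δ b J) X - A I (fun y => W y * chi n P δ b y * H (Gf c) b J y) X) +
      ∑ J ∈ (univ : Finset (Finset ι)).filter (fun J => J.card ≤ n),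
      A I (fun y => W y * chi n P δ b y * H (Gf c) b J y) X := by
    rw [sum_sub_distrib, sub_add_cancel]
  rw [h1]
  have h2 : |∑ J ∈ (univ : Finset (Finset ι)).filter (fun J => J.card ≤ n),
        (A I (k n P (Gf c) δ b J) X - A I (fun y => W y * chi n P δ b y * H (Gf c) b J y) X)| ≤
      PP ι * (3 * PP ι ^ 3 * δ * M) := by
    refine (abs_sum_le_sum_abs _ _).trans (sum_le_PP _ _ _ (by positivity) fun J hJ => ?_)
    rw [abs_sub_comm]
    exact est hF.hP0 (hF.hPw c) hW0 hδ hδ1 hI (mem_filter.1 hJ).2 hω hz hM0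
      (hM c J (mem_filter.1 hJ).2)
  refine (abs_add_le _ _).trans ((add_le_add h2 h0).trans ?_)
  have hP3 : 1 ≤ PP ι ^ 3 := one_le_pow₀ hP1
  have hδM : 0 ≤ PP ι * (δ * M) := by positivity
  have h3 : PP ι * (3 * PP ι ^ 3 * δ * M) + PP ι * (δ * M) =
      (PP ι * (δ * M)) * (3 * PP ι ^ 3 + 1) := by ring
  have h4 : PP ι * (4 * PP ι ^ 3 * δ * M) = (PP ι * (δ * M)) * (4 * PP ι ^ 3) := by ring
  rw [h3, h4]
  exact mul_le_mul_of_nonneg_left (by linarith) hδM

lemma alt_k (I J : Finset ι) (z : ι → S) :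
    alt I (fun ω => A I (k n P G δ b J) (ω.piecewise z b)) =
      if I ⊆ J then A I (k n P G δ b J) z else 0 := by
  split_ifs with h
  · unfold alt
    rw [sum_eq_single I]
    · have h1 : A I (k n P G δ b J) (I.piecewise z b) = A I (k n P G δ b J) z :=
        A_congr (fun i hi => by simp [hi]) _
      simp only
      rw [h1, ← two_mul, pow_mul]
      norm_num
    · intro U hU hUI
      obtain ⟨a, haI, haU⟩ : ∃ a ∈ I, a ∉ U := by
        by_contra hcon
        push Not at hcon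
        exact hUI (Subset.antisymm (mem_powerset.1 hU) hcon)
      have h2 : A I (k n P G δ b J) (U.piecewise z b) = 0 := by
        refine A_const fun z' => ?_
        unfold k
        rw [H_eq_zero_of_eq G b (h haI) (by simp [haI, haU]), mul_zero]
      simp only
      rw [h2, mul_zero]
    · intro h1
      exact absurd (mem_powerset.2 (Subset.refl I)) h1
  · obtain ⟨a, haI, haJ⟩ := not_subset.1 h
    refine alt_eq_zero haI fun U => ?_
    refine A_ext fun z' => ?_
    refine k_congr n P G δ b fun i hi => ?_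
    have hia : i ≠ a := fun h => haJ (h ▸ hi)
    by_cases h1 : i ∈ I
    · by_cases h2 : i ∈ U <;> simp [h1, h2, hia]
    · simp [h1]

/-- the recursive constants -/
noncomputable def KK (ι : Type) [Fintype ι] : ℕ → ℝ
  | 0 => 0
  | m + 1 => 4 * PP ι ^ 5 + PP ι * KK ι m

lemma KK_nonneg (m : ℕ) : 0 ≤ KK ι m := by
  have hP1 := one_le_PP (ι := ι)
  induction m with
  | zero => exact le_refl _
  | succ m ih =>
    unfold KK
    positivity

lemma step (hF : Fam n P ε w Gf ϑ) (hε : 0 ≤ ε) (hεδ : 2 * (ε * (Fintype.card D : ℝ)) ≤ δ)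
    (hδ : 0 < δ) (hδ1 : δ ≤ 1) {M : ℝ} (hM0 : 0 ≤ M)
    (hM : ∀ c, ∀ J : Finset ι, J.card ≤ n → ∀ y, BG n P δ b J y → |H (Gf c) b J y| ≤ M) (c : D)
    (m : ℕ) :
    ∀ I : Finset ι, I.card ≤ n → n + 1 ≤ m + I.card → ∀ z, BG n P δ b I z →
      |H (Gf c) b I z| ≤ KK ι m * (δ * M) := by
  have hP1 := one_le_PP (ι := ι)
  have hδM : 0 ≤ δ * M := mul_nonneg hδ.le hM0
  induction m with
  | zero =>
    intro I hI hm
    omega
  | succ m ih =>
    intro I hI hm z hz
    have h1 : |alt I (fun ω => ∑ J ∈ (univ : Finset (Finset ι)).filter (fun J => J.card ≤ n),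
        A I (k n P (Gf c) δ b J) (ω.piecewise z b))| ≤
          2 ^ I.card * (PP ι * (4 * PP ι ^ 3 * δ * M)) :=
      abs_alt_le fun ω hω => sum_k_le hF hε hεδ hδ hδ1 hI hω hz hM0 hM c
    rw [alt_sum] at h1
    simp_rw [alt_k] at h1
    have hImem : I ∈ (univ : Finset (Finset ι)).filter (fun J => J.card ≤ n) := by simp [hI]
    rw [← add_sum_erase _ _ hImem, if_pos (Subset.refl I)] at h1
    have h2 : A I (k n P (Gf c) δ b I) z = H (Gf c) b I z := by
      refine A_const fun z' => ?_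
      rw [k_congr n P (Gf c) δ b (z' := z) (fun i hi => by simp [hi])]
      unfold k beta
      rw [if_pos hz, one_mul]
    rw [h2] at h1
    have h3 : |∑ J ∈ ((univ : Finset (Finset ι)).filter (fun J => J.card ≤ n)).erase I,
        if I ⊆ J then A I (k n P (Gf c) δ b J) z else 0| ≤ PP ι * (KK ι m * (δ * M)) := by
      have hK := KK_nonneg (ι := ι) m
      refine (abs_sum_le_sum_abs _ _).trans (sum_le_PP _ _ _ (by positivity) fun J hJ => ?_)
      split_ifs with h4
      · have hJI : J ≠ I := (mem_erase.1 hJ).1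
        have hJn : J.card ≤ n := (mem_filter.1 (mem_erase.1 hJ).2).2
        have hlt : I.card < J.card := card_lt_card (h4.ssubset_of_ne hJI.symm)
        refine (abs_A_le _ _).trans ?_
        refine (A_mono (g := fun _ => KK ι m * (δ * M)) (fun y => ?_) _).trans
          (A_const fun _ => rfl).le
        exact k_abs_le (by positivity) (ih J hJn (by omega)) _
      · rw [abs_zero]
        positivity
    have h5 : (2 : ℝ) ^ I.card ≤ PP ι := by
      unfold PP
      rw [Fintype.card_finset]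
      push_cast
      exact pow_le_pow_right₀ (by norm_num) (card_le_univ I)
    have h6 : (2 : ℝ) ^ I.card * (PP ι * (4 * PP ι ^ 3 * δ * M)) ≤
        4 * PP ι ^ 5 * (δ * M) := by
      calc (2 : ℝ) ^ I.card * (PP ι * (4 * PP ι ^ 3 * δ * M)) ≤
          PP ι * (PP ι * (4 * PP ι ^ 3 * δ * M)) :=
            mul_le_mul_of_nonneg_right h5 (by positivity)
        _ = 4 * PP ι ^ 5 * (δ * M) := by ring
    have h7 := abs_le.1 (h1.trans h6)
    have h8 := abs_le.1 h3
    rw [abs_le]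
    unfold KK
    constructor
    · nlinarith [h7.1, h7.2, h8.1, h8.2]
    · nlinarith [h7.1, h7.2, h8.1, h8.2]

/-- at a good point all the functions vanish -/
lemma good_zero (hF : Fam n P ε w Gf ϑ) (hε : 0 ≤ ε) (hεδ : 2 * (ε * (Fintype.card D : ℝ)) ≤ δ)
    (hδ : 0 < δ) (hδ1 : δ ≤ 1) (hKδ : KK ι (n + 1) * δ ≤ 1 / 2)
    (hb : ∀ L : Finset ι, L.card ≤ n → A L P b ≤ δ ^ (n + 1 - L.card)) (c₀ : D) :
    Gf c₀ b = 0 := by
  classical
  have hBG : BG n P δ b ∅ b := by
    intro I' hI' L hL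
    have : I'.piecewise b b = b := by
      funext i
      by_cases hi : i ∈ I' <;> simp [hi]
    rw [this]
    exact hb L hL
  have hH : H (Gf c₀) b ∅ b = Gf c₀ b := by
    unfold H alt
    simp
  set T : Finset (D × Finset ι × (ι → S)) := univ.filter
    (fun p => p.2.1.card ≤ n ∧ BG n P δ b p.2.1 p.2.2) with hT
  have hTne : T.Nonempty := ⟨(c₀, ∅, b), by simp [hT, hBG]⟩
  obtain ⟨p, hp, hmax⟩ := T.exists_max_image (fun p => |H (Gf p.1) b p.2.1 p.2.2|) hTne
  have hp' := (mem_filter.1 hp).2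
  have hM : ∀ c, ∀ J : Finset ι, J.card ≤ n → ∀ y, BG n P δ b J y → |H (Gf c) b J y| ≤
      |H (Gf p.1) b p.2.1 p.2.2| := fun c J hJ y hy => hmax (c, J, y) (by simp [hT, hJ, hy])
  have h1 := step hF hε hεδ hδ hδ1 (abs_nonneg _) hM p.1 (n + 1) p.2.1 hp'.1 (by omega) p.2.2
    hp'.2
  have h2 := hM c₀ ∅ (by simp) b hBG
  rw [hH] at h2
  have h3 : |H (Gf p.1) b p.2.1 p.2.2| ≤ 1 / 2 * |H (Gf p.1) b p.2.1 p.2.2| := by
    calc |H (Gf p.1) b p.2.1 p.2.2| ≤ KK ι (n + 1) * (δ * |H (Gf p.1) b p.2.1 p.2.2|) := h1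
      _ = (KK ι (n + 1) * δ) * |H (Gf p.1) b p.2.1 p.2.2| := by ring
      _ ≤ 1 / 2 * |H (Gf p.1) b p.2.1 p.2.2| := mul_le_mul_of_nonneg_right hKδ (abs_nonneg _)
  have h4 : |Gf c₀ b| ≤ 0 := by
    have := abs_nonneg (H (Gf p.1) b p.2.1 p.2.2)
    linarith
  exact abs_nonpos_iff.1 h4

end main

end Pool.Agent.H366.ZC.CtrVN

namespace Pool.Agent.H366.ZC

open Pool.Agent.H366.ZC.CtrVN in
open Pool.Agent.H980.Ctr (A E PP one_le_PP sum_le_PP E_sum E_mono E_mul_left E_tower A_nonneg card_pos') in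
open Finset Classical in
/-- [CTRV] -/
theorem CTRv (ι D : Type) [Fintype ι] [DecidableEq ι] [Fintype D] (n : ℕ) (η : ℝ) (hη : 0 < η) :
    ∃ ε : ℝ, 0 < ε ∧ ∀ (S X : Type) [Fintype S] [Nonempty S] [Fintype X]
      (w : D → X → (ι → S) → ℝ) (G : D → (ι → S) → ℝ) (ϑ : D → X → (ι → S) → D → ℝ),
      (∀ c x z, 0 ≤ w c x z) →
      (∀ c x z c', |ϑ c x z c'| ≤ ε) →
      (∀ c (V : Finset ι), V.card ≤ 2 * n →
        (∑ z : ι → S, |(∑ z' : ι → S, ∑ x, w c x (V.piecewise z z')) /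
            (Fintype.card (ι → S) : ℝ) - 1|) ≤ ε * (Fintype.card (ι → S) : ℝ)) →
      (∀ c, ∃ F : (Fin n → ι) → (Fin n → S) → ℝ, ∀ z, G c z = ∑ j, F j (z ∘ j)) →
      (∀ c x z, w c x z ≠ 0 → G c z + ∑ c', ϑ c x z c' * G c' z = 0) →
      (((univ : Finset (ι → S)).filter fun z => ∃ c, G c z ≠ 0).card : ℝ) ≤
        η * (Fintype.card (ι → S) : ℝ) := by
  have hP1 := one_le_PP (ι := ι)
  have hKK : 0 < KK ι (n + 1) := by
    have := KK_nonneg (ι := ι) n
    unfold KK
    positivity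
  set δ : ℝ := min 1 (1 / (2 * KK ι (n + 1))) with hδdef
  have hδ : 0 < δ := lt_min one_pos (by positivity)
  have hδ1 : δ ≤ 1 := min_le_left _ _
  have hKδ : KK ι (n + 1) * δ ≤ 1 / 2 := by
    have : δ ≤ 1 / (2 * KK ι (n + 1)) := min_le_right _ _
    calc KK ι (n + 1) * δ ≤ KK ι (n + 1) * (1 / (2 * KK ι (n + 1))) :=
          mul_le_mul_of_nonneg_left this hKK.le
      _ = 1 / 2 := by field_simp
  set C : ℝ := (Fintype.card D : ℝ) with hC
  have hC0 : 0 ≤ C := by positivity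
  refine ⟨min (δ / (2 * (C + 1))) (η * δ ^ (n + 1) / (PP ι ^ 2 * (C + 1))),
    lt_min (by positivity) (by positivity), ?_⟩
  intro S X _ _ _ w G ϑ hw hϑ hV hG hwG
  set ε : ℝ := min (δ / (2 * (C + 1))) (η * δ ^ (n + 1) / (PP ι ^ 2 * (C + 1))) with hε
  have hε0 : 0 < ε := lt_min (by positivity) (by positivity)
  have hε1 : ε ≤ δ / (2 * (C + 1)) := min_le_left _ _
  have hε2 : ε ≤ η * δ ^ (n + 1) / (PP ι ^ 2 * (C + 1)) := min_le_right _ _
  have hεδ : 2 * (ε * C) ≤ δ := by
    have h1 : ε * (2 * (C + 1)) ≤ δ := (le_div_iff₀ (by positivity)).1 hε1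
    nlinarith
  have hεη : PP ι * (PP ι * (C * ε) / δ ^ (n + 1)) ≤ η := by
    have h1 : ε * (PP ι ^ 2 * (C + 1)) ≤ η * δ ^ (n + 1) := (le_div_iff₀ (by positivity)).1 hε2
    have h2 : PP ι * (PP ι * (C * ε) / δ ^ (n + 1)) = (ε * (PP ι ^ 2 * C)) / δ ^ (n + 1) := by
      ring
    rw [h2, div_le_iff₀ (by positivity)]
    refine le_trans ?_ h1
    have : 0 ≤ ε * PP ι ^ 2 := by positivity
    nlinarith
  have hN := card_pos' (ι := ι) (S := S)
  set N : ℝ := (Fintype.card (ι → S) : ℝ) with hNdef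
  set P : (ι → S) → ℝ := fun z => ∑ c : D,
    ∑ V ∈ (univ : Finset (Finset ι)).filter (fun V => V.card ≤ 2 * n),
      |A V (fun z => ∑ x, w c x z) z - 1| with hP
  have hP0 : ∀ z, 0 ≤ P z := fun z => sum_nonneg fun c _ => sum_nonneg fun V _ => abs_nonneg _
  have hPw : ∀ c, ∀ V : Finset ι, V.card ≤ 2 * n → ∀ y,
      |A V (fun z => ∑ x, w c x z) y - 1| ≤ P y := by
    intro c V hVc y
    refine le_trans ?_ (single_le_sum (f := fun c : D =>
      ∑ V ∈ (univ : Finset (Finset ι)).filter (fun V => V.card ≤ 2 * n),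
      |A V (fun z => ∑ x, w c x z) y - 1|) (fun c _ => sum_nonneg fun V _ => abs_nonneg _)
      (mem_univ c))
    exact single_le_sum (f := fun V : Finset ι => |A V (fun z => ∑ x, w c x z) y - 1|)
      (fun V _ => abs_nonneg _) (by simp [hVc])
  have hF : Fam n P ε w G ϑ := ⟨hP0, hPw, hw, hϑ, hG, hwG⟩
  have hPhi : E P ≤ PP ι * (C * ε) := by
    rw [hP, E_sum]
    have h1 : ∀ c ∈ (univ : Finset D), E (fun z => ∑ V ∈ (univ : Finset (Finset ι)).filter
        (fun V => V.card ≤ 2 * n), |A V (fun z => ∑ x, w c x z) z - 1|) ≤ PP ι * ε := by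
      intro c _
      rw [E_sum]
      refine sum_le_PP _ _ _ hε0.le fun V hVm => ?_
      unfold E
      rw [div_le_iff₀ hN]
      exact hV c V (mem_filter.1 hVm).2
    refine (sum_le_card_nsmul _ _ _ h1).trans (le_of_eq ?_)
    rw [card_univ, nsmul_eq_mul, ← hC]
    ring
  -- pointwise bound of the indicator
  have h1 : ∀ z : ι → S, (if ∃ c, G c z ≠ 0 then (1 : ℝ) else 0) ≤
      ∑ L ∈ (univ : Finset (Finset ι)).filter (fun L => L.card ≤ n),
        A L P z / δ ^ (n + 1) := by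
    intro z
    have hnn : ∀ L ∈ (univ : Finset (Finset ι)).filter (fun L => L.card ≤ n),
        0 ≤ A L P z / δ ^ (n + 1) := fun L _ =>
      div_nonneg (A_nonneg hP0 z) (by positivity)
    split_ifs with h
    · obtain ⟨c, hc⟩ := h
      by_cases hb : ∀ L : Finset ι, L.card ≤ n → A L P z ≤ δ ^ (n + 1 - L.card)
      · exact absurd (good_zero hF hε0.le hεδ hδ hδ1 hKδ hb c) hc
      · push Not at hb
        obtain ⟨L, hL, hlt⟩ := hb
        refine le_trans ?_ (single_le_sum hnn (a := L) (by simp [hL]))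
        rw [le_div_iff₀ (by positivity), one_mul]
        refine le_trans ?_ hlt.le
        exact pow_le_pow_of_le_one hδ.le hδ1 (by omega)
    · exact sum_nonneg hnn
  have h2 : E (fun z => if ∃ c, G c z ≠ 0 then (1 : ℝ) else 0) ≤ η := by
    refine (E_mono h1).trans ?_
    rw [E_sum]
    have h3 : ∑ L ∈ (univ : Finset (Finset ι)).filter (fun L => L.card ≤ n),
        E (fun z => A L P z / δ ^ (n + 1)) ≤ PP ι * (PP ι * (C * ε) / δ ^ (n + 1)) := by
      refine sum_le_PP _ _ _ (by positivity) fun L _ => ?_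
      have h4 : E (fun z => A L P z / δ ^ (n + 1)) = E P / δ ^ (n + 1) := by
        simp_rw [div_eq_inv_mul]
        rw [E_mul_left]
        congr 1
        exact E_tower L P
      rw [h4]
      gcongr
    exact h3.trans hεη
  have h5 : (((univ : Finset (ι → S)).filter fun z => ∃ c, G c z ≠ 0).card : ℝ) =
      ∑ z : ι → S, if ∃ c, G c z ≠ 0 then (1 : ℝ) else 0 := by
    rw [sum_ite, sum_const_zero, add_zero, sum_const, nsmul_eq_mul, mul_one]
  rw [h5]
  unfold E at h2
  rwa [div_le_iff₀ hN] at h2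

end Pool.Agent.H366.ZC
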