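import Pool.Agent.H366.ZC.Base

/-! # [MS] a sum over multiples of a real number -/

set_option autoImplicit false

namespace Pool.Agent.H366.ZC

namespace MSN

/-- Jordan's inequality: `4 min(τ, 1 - τ) ≤ |e(τ) - 1|` -/
lemma norm_e_sub_one {τ : ℝ} (h0 : 0 < τ) (h1 : τ < 1) : 4 * min τ (1 - τ) ≤ ‖e τ - 1‖ := by
  have he : e τ = Complex.exp (Complex.I * ((2 * Real.pi * τ : ℝ) : ℂ)) := by
    unfold e
    congr 1
    push_cast
    ring
  rw [he, Complex.norm_exp_I_mul_ofReal_sub_one, Real.norm_eq_abs]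
  have h2 : 2 * Real.pi * τ / 2 = Real.pi * τ := by ring
  rw [h2, abs_mul, abs_of_pos (by norm_num : (0:ℝ) < 2)]
  have hs : 2 * min τ (1 - τ) ≤ Real.sin (Real.pi * τ) := by
    rcases le_total τ (1 / 2) with h | h
    · have h3 := Real.mul_le_sin (x := Real.pi * τ) (by positivity)
        (by nlinarith [Real.pi_pos])
      have h4 : 2 / Real.pi * (Real.pi * τ) = 2 * τ := by
        field_simp
      rw [h4] at h3
      have := min_le_left τ (1 - τ)
      linarith
    · have h3 := Real.mul_le_sin (x := Real.pi * (1 - τ))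
        (mul_nonneg Real.pi_pos.le (by linarith)) (by nlinarith [Real.pi_pos])
      have h4 : 2 / Real.pi * (Real.pi * (1 - τ)) = 2 * (1 - τ) := by
        field_simp
      rw [h4] at h3
      have h5 : Real.sin (Real.pi * τ) = Real.sin (Real.pi * (1 - τ)) := by
        rw [show Real.pi * (1 - τ) = Real.pi - Real.pi * τ by ring, Real.sin_pi_sub]
      rw [h5]
      have := min_le_right τ (1 - τ)
      linarith
  have h6 := le_abs_self (Real.sin (Real.pi * τ))
  linarith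

lemma sum_le_card (β : ℝ) (Y : ℕ) : ‖∑ y ∈ Finset.range Y, e (β * (y : ℝ))‖ ≤ Y := by
  refine (norm_sum_le _ _).trans ?_
  simp [norm_e]

lemma sum_le_inv {β τ : ℝ} {n : ℤ} (hβ : β = τ + n) (h0 : 0 < τ) (h1 : τ < 1) (Y : ℕ) :
    ‖∑ y ∈ Finset.range Y, e (β * (y : ℝ))‖ ≤ 1 / (2 * τ) + 1 / (2 * (1 - τ)) := by
  have hm : 0 < min τ (1 - τ) := lt_min h0 (by linarith)
  have h2 := norm_e_sub_one h0 h1
  have hpos : 0 < ‖e τ - 1‖ := by linarith
  have hne : e τ ≠ 1 := by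
    intro h
    rw [h, sub_self, norm_zero] at hpos
    exact lt_irrefl _ hpos
  have hsum : ∑ y ∈ Finset.range Y, e (β * (y : ℝ)) = ∑ y ∈ Finset.range Y, e τ ^ y := by
    refine Finset.sum_congr rfl fun y _ => ?_
    rw [← e_mul_nat, hβ]
    have : (τ + (n : ℝ)) * (y : ℝ) = (y : ℝ) * τ + ((n * (y : ℤ) : ℤ) : ℝ) := by push_cast; ring
    rw [this, e_add_int]
  rw [hsum, geom_sum_eq hne, norm_div]
  have h3 : ‖e τ ^ Y - 1‖ ≤ 2 := by
    refine (norm_sub_le _ _).trans ?_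
    rw [norm_pow, norm_e, one_pow, norm_one]
    norm_num
  have h4 : ‖e τ ^ Y - 1‖ / ‖e τ - 1‖ ≤ 2 / (4 * min τ (1 - τ)) :=
    div_le_div₀ (by norm_num) h3 (by linarith) h2
  refine h4.trans ?_
  have h5 : 0 < 1 - τ := by linarith
  rcases min_choice τ (1 - τ) with h | h
  · rw [h]
    have : 2 / (4 * τ) = 1 / (2 * τ) := by field_simp; norm_num
    rw [this]
    have : 0 ≤ 1 / (2 * (1 - τ)) := by positivity
    linarith
  · rw [h]
    have : 2 / (4 * (1 - τ)) = 1 / (2 * (1 - τ)) := by field_simp; norm_num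
    rw [this]
    have : 0 ≤ 1 / (2 * τ) := by positivity
    linarith

/-- the bound of the sum at the point number `l` -/
noncomputable def G (r Y l : ℕ) : ℝ :=
  ((if l < 2 then (Y : ℝ) else 0) + (if r < l + 3 then (Y : ℝ) else 0)) +
  ((if 2 ≤ l then (r : ℝ) / 2 * (1 / ((l : ℝ) - 1)) else 0) +
    (if l + 3 ≤ r then (r : ℝ) / 2 * (1 / ((r : ℝ) - l - 2)) else 0))

lemma G_nonneg (r Y l : ℕ) : 0 ≤ G r Y l := by
  unfold G
  have hr : (0:ℝ) ≤ (r : ℝ) / 2 := by positivity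
  refine add_nonneg (add_nonneg ?_ ?_) (add_nonneg ?_ ?_)
  · split_ifs
    · positivity
    · exact le_rfl
  · split_ifs
    · positivity
    · exact le_rfl
  · split_ifs with h
    · have : (2:ℝ) ≤ l := by exact_mod_cast h
      exact mul_nonneg hr (div_nonneg zero_le_one (by linarith))
    · exact le_rfl
  · split_ifs with h
    · have : (l:ℝ) + 3 ≤ r := by exact_mod_cast h
      exact mul_nonneg hr (div_nonneg zero_le_one (by linarith))
    · exact le_rfl

/-- the value at `β ≡ (l + η) / r`, `-1 < η < 2` -/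
lemma le_G {β η : ℝ} {n : ℤ} {r l : ℕ} (hr : 0 < r) (hl : l < r) (hη : -1 < η) (hη2 : η < 2)
    (hβ : β = ((l : ℝ) + η) / r + n) (Y : ℕ) :
    ‖∑ y ∈ Finset.range Y, e (β * (y : ℝ))‖ ≤ G r Y l := by
  have hr0 : (0:ℝ) < r := by exact_mod_cast hr
  by_cases h1 : l < 2
  · refine (sum_le_card β Y).trans ?_
    unfold G
    rw [if_pos h1, if_neg (by omega : ¬ 2 ≤ l)]
    have a1 : (0:ℝ) ≤ (if r < l + 3 then (Y : ℝ) else 0) := by
      split_ifs
      · positivity
      · exact le_rfl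
    have a2 : (0:ℝ) ≤ (if l + 3 ≤ r then (r : ℝ) / 2 * (1 / ((r : ℝ) - l - 2)) else 0) := by
      split_ifs with h
      · have : (l:ℝ) + 3 ≤ r := by exact_mod_cast h
        exact mul_nonneg (by positivity) (div_nonneg zero_le_one (by linarith))
      · exact le_rfl
    linarith
  · by_cases h2 : r < l + 3
    · refine (sum_le_card β Y).trans ?_
      unfold G
      rw [if_neg h1, if_pos h2, if_neg (by omega : ¬ l + 3 ≤ r), if_pos (by omega : 2 ≤ l)]
      have : (2:ℝ) ≤ l := by exact_mod_cast (by omega : 2 ≤ l)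
      have a2 : 0 ≤ (r : ℝ) / 2 * (1 / ((l : ℝ) - 1)) :=
        mul_nonneg (by positivity) (div_nonneg zero_le_one (by linarith))
      linarith
    · have hl2 : (2:ℝ) ≤ l := by exact_mod_cast (by omega : 2 ≤ l)
      have hl3 : (l:ℝ) + 3 ≤ r := by exact_mod_cast (by omega : l + 3 ≤ r)
      have t0 : 0 < ((l : ℝ) + η) / r := div_pos (by linarith) hr0
      have t1 : ((l : ℝ) + η) / r < 1 := by
        rw [div_lt_one hr0]
        linarith
      refine (sum_le_inv hβ t0 t1 Y).trans ?_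
      unfold G
      rw [if_neg h1, if_neg h2, if_pos (by omega : l + 3 ≤ r), if_pos (by omega : 2 ≤ l)]
      have e1 : 1 / (2 * (((l : ℝ) + η) / r)) = (r : ℝ) / 2 * (1 / ((l : ℝ) + η)) := by
        field_simp
      have e2 : 1 / (2 * (1 - ((l : ℝ) + η) / r)) = (r : ℝ) / 2 * (1 / ((r : ℝ) - l - η)) := by
        have h4 : 1 - ((l : ℝ) + η) / r = ((r : ℝ) - l - η) / r := by
          field_simp
          ring
        rw [h4]
        have h5 : (r : ℝ) - l - η ≠ 0 := by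
          have : 0 < (r : ℝ) - l - η := by linarith
          exact this.ne'
        field_simp
      rw [e1, e2]
      have b1 : 1 / ((l : ℝ) + η) ≤ 1 / ((l : ℝ) - 1) :=
        one_div_le_one_div_of_le (by linarith) (by linarith)
      have b2 : 1 / ((r : ℝ) - l - η) ≤ 1 / ((r : ℝ) - l - 2) :=
        one_div_le_one_div_of_le (by linarith) (by linarith)
      have hr2 : (0:ℝ) ≤ (r : ℝ) / 2 := by positivity
      have c1 := mul_le_mul_of_nonneg_left b1 hr2
      have c2 := mul_le_mul_of_nonneg_left b2 hr2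
      linarith

/-- the harmonic sum -/
noncomputable def H (n : ℕ) : ℝ := ∑ k ∈ Finset.range n, 1 / ((k : ℝ) + 1)

lemma H_le {n m : ℕ} (hn : n ≤ 2 ^ m) : H n ≤ m + 1 := by
  have h1 : H n = ((harmonic n : ℚ) : ℝ) := by
    unfold H harmonic
    push_cast
    refine Finset.sum_congr rfl fun k _ => ?_
    rw [one_div]
  rw [h1]
  rcases Nat.eq_zero_or_pos n with h0 | h0
  · subst h0
    simp
    positivity
  · have h2 := harmonic_le_one_add_log n
    have h3 : Real.log n ≤ m := by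
      have h4 : Real.log n ≤ Real.log ((2:ℝ) ^ m) :=
        Real.log_le_log (by exact_mod_cast h0) (by exact_mod_cast hn)
      rw [Real.log_pow] at h4
      have h5 : Real.log 2 ≤ 1 := by
        have := Real.log_two_lt_d9
        linarith
      have h6 : (m : ℝ) * Real.log 2 ≤ m * 1 := mul_le_mul_of_nonneg_left h5 (by positivity)
      linarith
    linarith

lemma sum_inv1 (r : ℕ) :
    ∑ l ∈ Finset.range r, (if 2 ≤ l then 1 / ((l : ℝ) - 1) else 0) ≤ H r := by
  unfold H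
  rcases Nat.lt_or_ge r 2 with h | h
  · have : ∑ l ∈ Finset.range r, (if 2 ≤ l then 1 / ((l : ℝ) - 1) else 0) = 0 := by
      refine Finset.sum_eq_zero fun l hl => ?_
      rw [if_neg]
      have := Finset.mem_range.1 hl
      omega
    rw [this]
    exact Finset.sum_nonneg fun k _ => by positivity
  · obtain ⟨n, rfl⟩ := Nat.exists_eq_add_of_le h
    rw [Finset.sum_range_add]
    have h0 : ∑ l ∈ Finset.range 2, (if 2 ≤ l then 1 / ((l : ℝ) - 1) else 0) = 0 := by
      refine Finset.sum_eq_zero fun l hl => ?_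
      rw [if_neg]
      have := Finset.mem_range.1 hl
      omega
    rw [h0, zero_add]
    have h1 : ∑ x ∈ Finset.range n, (if 2 ≤ 2 + x then 1 / (((2 + x : ℕ) : ℝ) - 1) else 0) =
        ∑ x ∈ Finset.range n, 1 / ((x : ℝ) + 1) := by
      refine Finset.sum_congr rfl fun x _ => ?_
      rw [if_pos (by omega)]
      congr 1
      push_cast
      ring
    rw [h1]
    exact Finset.sum_le_sum_of_subset_of_nonneg
      (Finset.range_subset_range.2 (by omega)) fun k _ _ => by positivity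

lemma sum_inv2 (r : ℕ) :
    ∑ l ∈ Finset.range r, (if l + 3 ≤ r then 1 / ((r : ℝ) - l - 2) else 0) ≤ H r := by
  refine le_trans (le_of_eq ?_) (sum_inv1 r)
  rw [← Finset.sum_range_reflect]
  refine Finset.sum_congr rfl fun l hl => ?_
  have hl' := Finset.mem_range.1 hl
  by_cases h : 2 ≤ l
  · rw [if_pos h, if_pos (by omega)]
    congr 1
    have : ((r - 1 - l : ℕ) : ℝ) = r - 1 - l := by
      rw [Nat.cast_sub (by omega), Nat.cast_sub (by omega)]
      simp
    rw [this]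
    ring
  · rw [if_neg h, if_neg (by omega)]

lemma sum_G {r m : ℕ} (Y : ℕ) (hm : r ≤ 2 ^ m) :
    ∑ l ∈ Finset.range r, G r Y l ≤ 4 * Y + r * (m + 1) := by
  unfold G
  rw [Finset.sum_add_distrib, Finset.sum_add_distrib, Finset.sum_add_distrib]
  have h1 : ∑ l ∈ Finset.range r, (if l < 2 then (Y : ℝ) else 0) ≤ 2 * Y := by
    rw [← Finset.sum_filter, Finset.sum_const, nsmul_eq_mul]
    refine mul_le_mul_of_nonneg_right ?_ (by positivity)
    have : ((Finset.range r).filter (fun l => l < 2)).card ≤ 2 := by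
      refine (Finset.card_le_card (t := Finset.range 2) ?_).trans (by simp)
      intro l hl
      simp only [Finset.mem_filter, Finset.mem_range] at hl ⊢
      exact hl.2
    exact_mod_cast this
  have h2 : ∑ l ∈ Finset.range r, (if r < l + 3 then (Y : ℝ) else 0) ≤ 2 * Y := by
    rw [← Finset.sum_filter, Finset.sum_const, nsmul_eq_mul]
    refine mul_le_mul_of_nonneg_right ?_ (by positivity)
    have : ((Finset.range r).filter (fun l => r < l + 3)).card ≤ 2 := by
      refine (Finset.card_le_card (t := Finset.Ico (r - 2) r) ?_).trans ?_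
      · intro l hl
        simp only [Finset.mem_filter, Finset.mem_range, Finset.mem_Ico] at hl ⊢
        omega
      · rw [Nat.card_Ico]
        omega
    exact_mod_cast this
  have h3 : ∑ l ∈ Finset.range r, (if 2 ≤ l then (r : ℝ) / 2 * (1 / ((l : ℝ) - 1)) else 0) ≤
      (r : ℝ) / 2 * (m + 1) := by
    have : ∑ l ∈ Finset.range r, (if 2 ≤ l then (r : ℝ) / 2 * (1 / ((l : ℝ) - 1)) else 0) =
        (r : ℝ) / 2 * ∑ l ∈ Finset.range r, (if 2 ≤ l then 1 / ((l : ℝ) - 1) else 0) := by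
      rw [Finset.mul_sum]
      refine Finset.sum_congr rfl fun l _ => ?_
      rw [mul_ite, mul_zero]
    rw [this]
    exact mul_le_mul_of_nonneg_left ((sum_inv1 r).trans (H_le hm)) (by positivity)
  have h4 : ∑ l ∈ Finset.range r,
      (if l + 3 ≤ r then (r : ℝ) / 2 * (1 / ((r : ℝ) - l - 2)) else 0) ≤
      (r : ℝ) / 2 * (m + 1) := by
    have : ∑ l ∈ Finset.range r,
        (if l + 3 ≤ r then (r : ℝ) / 2 * (1 / ((r : ℝ) - l - 2)) else 0) =
        (r : ℝ) / 2 * ∑ l ∈ Finset.range r,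
          (if l + 3 ≤ r then 1 / ((r : ℝ) - l - 2) else 0) := by
      rw [Finset.mul_sum]
      refine Finset.sum_congr rfl fun l _ => ?_
      rw [mul_ite, mul_zero]
    rw [this]
    exact mul_le_mul_of_nonneg_left ((sum_inv2 r).trans (H_le hm)) (by positivity)
  linarith

/-- a block of `r` consecutive integers -/
lemma block {α : ℝ} {r b : ℕ} (hr : 0 < r) (hb : Nat.Coprime b r)
    (hα : |α - (b : ℝ) / r| ≤ 1 / (r : ℝ) ^ 2) (x₀ : ℤ) (Y m : ℕ) (hm : r ≤ 2 ^ m) :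
    ∑ i ∈ Finset.range r, ‖∑ y ∈ Finset.range Y, e (α * ((x₀ + (i : ℤ) : ℤ) : ℝ) * (y : ℝ))‖ ≤
      4 * Y + r * (m + 1) := by
  have hr0 : (0:ℝ) < r := by exact_mod_cast hr
  have hrz : (0:ℤ) < r := by exact_mod_cast hr
  set n₀ : ℤ := ⌊(r : ℝ) * (α * x₀)⌋ with hn₀
  set θ : ℝ := Int.fract ((r : ℝ) * (α * x₀)) with hθ
  have hθ0 : 0 ≤ θ := Int.fract_nonneg _
  have hθ1 : θ < 1 := Int.fract_lt_one _
  have hnθ : (r : ℝ) * (α * x₀) = n₀ + θ := (Int.floor_add_fract _).symm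
  -- the class
  let L : ℕ → ℕ := fun i => ((n₀ + (i : ℤ) * b) % (r : ℤ)).toNat
  have hLz : ∀ i, ((L i : ℕ) : ℤ) = (n₀ + (i : ℤ) * b) % (r : ℤ) := fun i =>
    Int.toNat_of_nonneg (Int.emod_nonneg _ hrz.ne')
  have hLlt : ∀ i, L i < r := by
    intro i
    have h1 := Int.emod_lt_of_pos (n₀ + (i : ℤ) * b) hrz
    rw [← hLz] at h1
    exact_mod_cast h1
  have hLinj : Set.InjOn L (Finset.range r : Set ℕ) := by
    intro i hi j hj hij
    have hi' := Finset.mem_range.1 (Finset.mem_coe.1 hi)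
    have hj' := Finset.mem_range.1 (Finset.mem_coe.1 hj)
    have h1 : (n₀ + (i : ℤ) * b) % (r : ℤ) = (n₀ + (j : ℤ) * b) % (r : ℤ) := by
      rw [← hLz, ← hLz]
      exact_mod_cast hij
    have h2 : (n₀ + (i : ℤ) * b) ≡ (n₀ + (j : ℤ) * b) [ZMOD r] := h1
    have h3 : ((i : ℤ) * b) ≡ ((j : ℤ) * b) [ZMOD r] := Int.ModEq.add_left_cancel' n₀ h2
    have h4 : (i * b) ≡ (j * b) [MOD r] := by
      rw [← Int.natCast_modEq_iff]
      push_cast
      exact h3
    have h5 : i ≡ j [MOD r] := Nat.ModEq.cancel_right_of_coprime (by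
      rw [Nat.gcd_comm]; exact hb) h4
    exact Nat.ModEq.eq_of_lt_of_lt h5 hi' hj'
  have hpt : ∀ i ∈ Finset.range r,
      ‖∑ y ∈ Finset.range Y, e (α * ((x₀ + (i : ℤ) : ℤ) : ℝ) * (y : ℝ))‖ ≤ G r Y (L i) := by
    intro i hi
    have hi' := Finset.mem_range.1 hi
    set δ : ℝ := α - (b : ℝ) / r with hδ
    have hiδ : |(i : ℝ) * δ * r| < 1 := by
      rw [abs_mul, abs_mul, abs_of_nonneg (by positivity : (0:ℝ) ≤ (i : ℝ)), abs_of_pos hr0]
      have h1 : (i : ℝ) * |δ| * r ≤ (i : ℝ) * (1 / (r : ℝ) ^ 2) * r := by gcongr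
      have h2 : (i : ℝ) * (1 / (r : ℝ) ^ 2) * r = (i : ℝ) / r := by
        field_simp
      have h3 : (i : ℝ) / r < 1 := by
        rw [div_lt_one hr0]
        exact_mod_cast hi'
      linarith
    have hab := abs_lt.1 hiδ
    have hdiv : (n₀ + (i : ℤ) * b) = (L i : ℤ) + r * ((n₀ + (i : ℤ) * b) / r) := by
      rw [hLz]
      exact (Int.emod_add_mul_ediv _ _).symm
    refine le_G (η := θ + (i : ℝ) * δ * r) (n := (n₀ + (i : ℤ) * b) / r) hr (hLlt i)
      (by linarith [hab.1]) (by linarith [hab.2]) ?_ Y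
    have hdivR : (n₀ : ℝ) + (i : ℝ) * b = (L i : ℝ) + r * (((n₀ + (i : ℤ) * b) / r : ℤ) : ℝ) := by
      exact_mod_cast hdiv
    have hαe : α = (b : ℝ) / r + δ := by rw [hδ]; ring
    have h1 : (α * ((x₀ + (i : ℤ) : ℤ) : ℝ)) * r = ((L i : ℝ) + (θ + (i : ℝ) * δ * r)) +
        (((n₀ + (i : ℤ) * b) / r : ℤ) : ℝ) * r := by
      have h2 : (α * ((x₀ + (i : ℤ) : ℤ) : ℝ)) * r = (r : ℝ) * (α * x₀) + (i : ℝ) * (α * r) := by
        push_cast
        ring
      have h3 : α * r = b + δ * r := by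
        rw [hαe]
        field_simp
      rw [h2, h3, hnθ]
      have h4 : (n₀ : ℝ) = (L i : ℝ) + r * (((n₀ + (i : ℤ) * b) / r : ℤ) : ℝ) - (i : ℝ) * b := by
        linarith
      rw [h4]
      ring
    have h5 : α * ((x₀ + (i : ℤ) : ℤ) : ℝ) = (((L i : ℝ) + (θ + (i : ℝ) * δ * r)) +
        (((n₀ + (i : ℤ) * b) / r : ℤ) : ℝ) * r) / r := by
      rw [← h1]
      field_simp
    rw [h5, add_div, mul_div_assoc, div_self hr0.ne', mul_one]
  calc ∑ i ∈ Finset.range r, ‖∑ y ∈ Finset.range Y, e (α * ((x₀ + (i : ℤ) : ℤ) : ℝ) * (y : ℝ))‖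
      ≤ ∑ i ∈ Finset.range r, G r Y (L i) := Finset.sum_le_sum hpt
    _ = ∑ l ∈ (Finset.range r).image L, G r Y l := (Finset.sum_image hLinj).symm
    _ ≤ ∑ l ∈ Finset.range r, G r Y l := by
        refine Finset.sum_le_sum_of_subset_of_nonneg ?_ fun l _ _ => G_nonneg r Y l
        intro l hl
        obtain ⟨i, _, rfl⟩ := Finset.mem_image.1 hl
        exact Finset.mem_range.2 (hLlt i)
    _ ≤ 4 * Y + r * (m + 1) := sum_G Y hm

lemma sum_blocks (F : ℤ → ℝ) (C : ℝ) (r : ℕ)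
    (hF : ∀ x₀ : ℤ, ∑ i ∈ Finset.range r, F (x₀ + (i : ℤ)) ≤ C) (x₀ : ℤ) (B : ℕ) :
    ∑ i ∈ Finset.range (B * r), F (x₀ + (i : ℤ)) ≤ B * C := by
  induction B with
  | zero => simp
  | succ B ih =>
    rw [Nat.succ_mul, Finset.sum_range_add]
    have h1 := hF (x₀ + ((B * r : ℕ) : ℤ))
    have h2 : ∑ x ∈ Finset.range r, F (x₀ + ((B * r + x : ℕ) : ℤ)) =
        ∑ i ∈ Finset.range r, F (x₀ + ((B * r : ℕ) : ℤ) + (i : ℤ)) := by
      refine Finset.sum_congr rfl fun x _ => ?_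
      congr 1
      push_cast
      ring
    rw [h2]
    push_cast at *
    linarith

end MSN

open MSN in
/-- [MS1] -/
theorem min_sum {α : ℝ} {r b : ℕ} (hr : 0 < r) (hb : Nat.Coprime b r)
    (hα : |α - (b : ℝ) / r| ≤ 1 / (r : ℝ) ^ 2) (X Y m : ℕ) (hm : r ≤ 2 ^ m) :
    ∑ x ∈ Finset.Icc (-(X : ℤ)) (X : ℤ),
      ‖∑ y ∈ Finset.range Y, e (α * (x : ℝ) * (y : ℝ))‖ ≤
      8 * ((X : ℝ) / r + 1) * ((Y : ℝ) + r * (m + 1)) := by
  have hr0 : (0:ℝ) < r := by exact_mod_cast hr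
  set F : ℤ → ℝ := fun x => ‖∑ y ∈ Finset.range Y, e (α * (x : ℝ) * (y : ℝ))‖ with hF
  have hF0 : ∀ x, 0 ≤ F x := fun x => norm_nonneg _
  set B : ℕ := 2 * X / r + 1 with hB
  have hBr : 2 * X + 1 ≤ B * r := by
    have := Nat.div_add_mod (2 * X) r
    have h2 := Nat.mod_lt (2 * X) hr
    rw [hB, add_mul, one_mul, mul_comm (2 * X / r) r]
    omega
  have h1 : ∑ x ∈ Finset.Icc (-(X : ℤ)) (X : ℤ), F x ≤
      ∑ i ∈ Finset.range (B * r), F (-(X : ℤ) + (i : ℤ)) := by
    have himg : ∑ i ∈ Finset.range (B * r), F (-(X : ℤ) + (i : ℤ)) =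
        ∑ x ∈ (Finset.range (B * r)).image (fun i : ℕ => -(X : ℤ) + (i : ℤ)), F x := by
      rw [Finset.sum_image]
      intro i _ j _ hij
      have : (i : ℤ) = j := by simpa using hij
      exact_mod_cast this
    rw [himg]
    refine Finset.sum_le_sum_of_subset_of_nonneg ?_ fun x _ _ => hF0 x
    intro x hx
    rw [Finset.mem_Icc] at hx
    rw [Finset.mem_image]
    refine ⟨(x + X).toNat, Finset.mem_range.2 ?_, ?_⟩
    · omega
    · rw [Int.toNat_of_nonneg (by omega)]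
      ring
  have h2 := sum_blocks F (4 * Y + r * (m + 1)) r (fun x₀ => block hr hb hα x₀ Y m hm)
    (-(X : ℤ)) B
  have h3 : (B : ℝ) ≤ 2 * (X : ℝ) / r + 1 := by
    rw [hB]
    push_cast
    have : ((2 * X / r : ℕ) : ℝ) ≤ ((2 * X : ℕ) : ℝ) / r := Nat.cast_div_le
    push_cast at this
    linarith
  have hY : (0:ℝ) ≤ (Y : ℝ) := by positivity
  have hrm : (0:ℝ) ≤ (r : ℝ) * (m + 1) := by positivity
  have hXr : (0:ℝ) ≤ (X : ℝ) / r := by positivity
  calc ∑ x ∈ Finset.Icc (-(X : ℤ)) (X : ℤ), F x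
      ≤ B * (4 * Y + r * (m + 1)) := h1.trans h2
    _ ≤ (2 * (X : ℝ) / r + 1) * (4 * Y + r * (m + 1)) :=
        mul_le_mul_of_nonneg_right h3 (by positivity)
    _ ≤ 8 * ((X : ℝ) / r + 1) * ((Y : ℝ) + r * (m + 1)) := by
        rw [mul_div_assoc]
        nlinarith [mul_nonneg hXr hY, mul_nonneg hXr hrm]

/-- [MS2] Dirichlet approximation for `a / T`, `2^j ≤ T = 2^t`: if `a` is not `Low`, there is a
fraction `b / r` with `2^j < r ≤ T / 2^j` close to `a / T`. -/
theorem dirichlet_low {t j a : ℕ} (hj : j ≤ t) (ha : a < 2 ^ t) (h : ¬ Low (2 ^ t) (2 ^ j) a) :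
    ∃ r b : ℕ, 2 ^ j < r ∧ r ≤ 2 ^ (t - j) ∧ Nat.Coprime b r ∧
      |(a : ℝ) / 2 ^ t - (b : ℝ) / r| ≤ 1 / (r : ℝ) ^ 2 := by
  obtain ⟨q, hq, hqn⟩ := Real.exists_rat_abs_sub_le_and_den_le ((a : ℝ) / 2 ^ t)
    (n := 2 ^ (t - j)) (by positivity)
  have hdpos : 0 < q.den := q.den_pos
  have hd0 : (0:ℝ) < q.den := by exact_mod_cast hdpos
  have hd1 : (1:ℝ) ≤ q.den := by exact_mod_cast hdpos
  have hqv : (q : ℝ) = (q.num : ℝ) / q.den := by
    rw [Rat.cast_def]
  push_cast at hq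
  have hn0 : (0:ℝ) < 2 ^ (t - j) := by positivity
  have hqnR : (q.den : ℝ) ≤ 2 ^ (t - j) := by exact_mod_cast hqn
  have hT0 : (0:ℝ) < 2 ^ t := by positivity
  have hTj : (2:ℝ) ^ t = 2 ^ (t - j) * 2 ^ j := by
    rw [← pow_add, Nat.sub_add_cancel hj]
  -- the numerator is nonnegative
  have hnum : 0 ≤ q.num := by
    by_contra hneg
    push Not at hneg
    have h1 : (q.num : ℝ) ≤ -1 := by exact_mod_cast (by omega : q.num ≤ -1)
    have h2 : (q : ℝ) ≤ -1 / q.den := by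
      rw [hqv]
      gcongr
    have h3 : (0:ℝ) ≤ (a : ℝ) / 2 ^ t := by positivity
    have h4 : 1 / (q.den : ℝ) ≤ |(a : ℝ) / 2 ^ t - q| := by
      refine le_trans ?_ (le_abs_self _)
      have : -1 / (q.den : ℝ) = -(1 / q.den) := by ring
      linarith
    have h5 : 1 / ((2 ^ (t - j) + 1) * (q.den : ℝ)) < 1 / (q.den : ℝ) := by
      apply one_div_lt_one_div_of_lt hd0
      nlinarith
    linarith
  obtain ⟨b, hb⟩ := Int.eq_ofNat_of_zero_le hnum
  have hcop : Nat.Coprime b q.den := by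
    have := q.reduced
    rw [hb] at this
    simpa using this
  have hqb : (q : ℝ) = (b : ℝ) / q.den := by
    rw [hqv, hb]
    simp
  rw [hqb] at hq
  refine ⟨q.den, b, ?_, hqn, hcop, ?_⟩
  · by_contra hlt
    push Not at hlt
    apply h
    refine ⟨q.den, b, hdpos, hlt, hcop, ?_⟩
    have h1 : |((q.den : ℝ) * a - b * 2 ^ t)| ≤ 2 ^ j := by
      have h2 : (q.den : ℝ) * a - b * 2 ^ t = (q.den * 2 ^ t) * ((a : ℝ) / 2 ^ t - b / q.den) := by
        field_simp
      rw [h2, abs_mul, abs_of_pos (by positivity : (0:ℝ) < q.den * 2 ^ t)]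
      calc (q.den : ℝ) * 2 ^ t * |(a : ℝ) / 2 ^ t - b / q.den|
          ≤ (q.den : ℝ) * 2 ^ t * (1 / ((2 ^ (t - j) + 1) * (q.den : ℝ))) :=
            mul_le_mul_of_nonneg_left hq (by positivity)
        _ = 2 ^ t / (2 ^ (t - j) + 1) := by field_simp
        _ ≤ 2 ^ t / 2 ^ (t - j) := by
            apply div_le_div_of_nonneg_left (by positivity) hn0
            linarith
        _ = 2 ^ j := by rw [hTj]; field_simp
    exact_mod_cast h1
  · refine hq.trans ?_
    apply one_div_le_one_div_of_le (by positivity)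
    nlinarith

end Pool.Agent.H366.ZC
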