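import Pool.Agent.H366.ZC.Div
import Pool.Agent.H366.ZC.MS
import Pool.Agent.H366.GF.L1

/-! # [L1] mean square for a fixed frequency -/

set_option autoImplicit false

namespace Pool.Agent.H366.ZC

open Pool.Agent.H366.GF (Ex ExC)

namespace L1N

open Pool.Agent.H366.GF (Ex_mono Ex_nonneg Ex_const ExC_const Ex_mul_left
  Ex_mul_right ExC_mul_left ExC_mul_right Ex_sum ExC_sum norm_ExC_le Ex_sq_le norm_ExC_sq_le
  Ex_pw pw_pw)
open Pool.Agent.H366.GF.L1N (ExC_pw normsq_ExC norm_ExC2_le)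

variable {κ q u e₀ μ M d s T a : ℕ} {v : Fin s → ℕ}

/-- averaging over more variables increases nothing -/
lemma TT_mono (V B : Finset (Fin s)) (hVB : V ⊆ B) :
    Ex (fun z : Fin s → Fin (2 ^ d) => ‖TT q u d M v T a V z‖ ^ 2) ≤
      Ex (fun z : Fin s → Fin (2 ^ d) => ‖TT q u d M v T a B z‖ ^ 2) := by
  have : Nonempty (Fin (2 ^ d)) := ⟨⟨0, by positivity⟩⟩
  have h1 : ∀ z : Fin s → Fin (2 ^ d), TT q u d M v T a V z =
      ExC (fun z' : Fin s → Fin (2 ^ d) => TT q u d M v T a B (V.piecewise z z')) := by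
    intro z
    simp only [TT]
    rw [← ExC_pw B]
    congr 1
    funext z'
    congr 1
    funext z''
    rw [pw_pw hVB]
  rw [← Ex_pw V (fun z : Fin s → Fin (2 ^ d) => ‖TT q u d M v T a B z‖ ^ 2)]
  refine Ex_mono fun z => ?_
  rw [h1 z]
  exact norm_ExC_sq_le _

lemma prod_pw (B : Finset (Fin s)) (z z' : Fin s → Fin (2 ^ d)) :
    ∏ i, zz q u d v (B.piecewise z z') i =
      (∏ i ∈ B, zz q u d v z i) * ∏ i ∈ Bᶜ, zz q u d v z' i := by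
  rw [← Finset.prod_mul_prod_compl B]
  congr 1
  · refine Finset.prod_congr rfl fun i hi => ?_
    simp [zz, Finset.piecewise, hi]
  · refine Finset.prod_congr rfl fun i hi => ?_
    have : i ∉ B := Finset.mem_compl.1 hi
    simp [zz, Finset.piecewise, this]

/-- the sum as a function of the product of the first slots -/
noncomputable def FF (q u d M : ℕ) (v : Fin s → ℕ) (T a : ℕ) (B : Finset (Fin s)) (w : ℕ) : ℂ :=
  ExC (fun z' : Fin s → Fin (2 ^ d) =>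
    e ((a : ℝ) * ((M : ℝ) * (w : ℝ) * ((∏ i ∈ Bᶜ, zz q u d v z' i : ℕ) : ℝ)) / ((q : ℝ) * T)))

lemma norm_TT_eq (hq : 0 < q) (hT : 0 < T) (B : Finset (Fin s)) (z : Fin s → Fin (2 ^ d)) :
    ‖TT q u d M v T a B z‖ = ‖FF q u d M v T a B (∏ i ∈ B, zz q u d v z i)‖ := by
  have hq0 : (q : ℝ) ≠ 0 := by exact_mod_cast hq.ne'
  have hT0 : (T : ℝ) ≠ 0 := by exact_mod_cast hT.ne'
  have h1 : TT q u d M v T a B z =
      e (-((a : ℝ) * ((M * ∏ i, v i : ℕ) : ℝ) / ((q : ℝ) * T))) *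
        FF q u d M v T a B (∏ i ∈ B, zz q u d v z i) := by
    simp only [TT, FF]
    rw [← ExC_mul_left]
    congr 1
    funext z'
    rw [← e_add]
    congr 1
    have h2 := ff_spec (u := u) (M := M) (v := v) hq (B.piecewise z z')
    rw [prod_pw] at h2
    generalize (∏ i ∈ B, zz q u d v z i) = A at h2 ⊢
    generalize (∏ i ∈ Bᶜ, zz q u d v z' i) = C at h2 ⊢
    generalize ff q u d M v (B.piecewise z z') = F at h2 ⊢
    generalize (∏ i, v i) = W at h2 ⊢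
    have h3 : (M : ℝ) * (A * C) = M * W + q * F := by exact_mod_cast h2
    push_cast
    field_simp
    linear_combination (-(a : ℝ)) * h3
  rw [h1, norm_mul, norm_e, one_mul]

/-- comparison of an average with the sum over a parametrized set of values -/
lemma Ex_fibre {α V ι : Type} [Fintype α] [DecidableEq V] (f : α → V) (g : ι → V) (S : Finset ι)
    (hg : ∀ x, ∃ c ∈ S, g c = f x) (p : ℝ)
    (hp : ∀ c ∈ S, Ex (fun x => if f x = g c then (1 : ℝ) else 0) ≤ p) (G : V → ℝ)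
    (hG : ∀ F, 0 ≤ G F) : Ex (fun x => G (f x)) ≤ p * ∑ c ∈ S, G (g c) := by
  calc Ex (fun x => G (f x))
      ≤ Ex (fun x => ∑ c ∈ S, G (g c) * (if f x = g c then (1 : ℝ) else 0)) := by
        refine Ex_mono fun x => ?_
        obtain ⟨c, hcS, hc⟩ := hg x
        refine le_trans (le_of_eq ?_) (Finset.single_le_sum (f := fun c => G (g c) *
          (if f x = g c then (1 : ℝ) else 0)) (fun c _ => mul_nonneg (hG _) (by split_ifs <;> simp))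
          hcS)
        simp [hc]
    _ = ∑ c ∈ S, G (g c) * Ex (fun x => (if f x = g c then (1 : ℝ) else 0)) := by
        rw [Ex_sum]
        exact Finset.sum_congr rfl fun c _ => Ex_mul_left _ _
    _ ≤ ∑ c ∈ S, G (g c) * p :=
        Finset.sum_le_sum fun c hc => mul_le_mul_of_nonneg_left (hp c hc) (hG _)
    _ = p * ∑ c ∈ S, G (g c) := by rw [← Finset.sum_mul, mul_comm]

/-- step 1 -/
lemma step1 (hκ : 0 < κ) (hq : 0 < q) (hu : 0 < u) (he : q * (u + 1) ≤ 2 ^ e₀)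
    (hsm : ∀ p : ℕ, p.Prime → p < 2 ^ κ → p ∣ q) (hv : SlotOK q v) (hT : 0 < T)
    (B : Finset (Fin s)) :
    Ex (fun z : Fin s → Fin (2 ^ d) => ‖TT q u d M v T a B z‖ ^ 2) ≤
      (((2 : ℝ) ^ (B.card * (d + e₀) / κ)) ^ B.card / 2 ^ (d * B.card)) *
      ∑ y ∈ Finset.range (2 ^ (B.card * (d + e₀)) + 1),
        ‖FF q u d M v T a B (∏ i ∈ B, v i + q * y)‖ ^ 2 := by
  simp only [norm_TT_eq hq hT]
  refine Ex_fibre (fun z : Fin s → Fin (2 ^ d) => ∏ i ∈ B, zz q u d v z i)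
    (fun y : ℕ => ∏ i ∈ B, v i + q * y) (Finset.range (2 ^ (B.card * (d + e₀)) + 1))
    ?_ _ (fun c _ => prob_fibre hκ hq hu he hsm hv B _) (fun w => ‖FF q u d M v T a B w‖ ^ 2)
    (fun F => by positivity)
  intro z
  obtain ⟨g, hg⟩ := prod_zz_eq (q := q) (u := u) (v := v) z B
  refine ⟨g, ?_, hg.symm⟩
  rw [Finset.mem_range, Nat.lt_succ_iff]
  have h1 := prod_zz_le he hv z B
  have h2 : g ≤ q * g := Nat.le_mul_of_pos_left _ hq
  omega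

/-- step 2 -/
lemma sum_FF (hq : 0 < q) (hT : 0 < T) (B : Finset (Fin s)) (w Y : ℕ) :
    ∑ y ∈ Finset.range Y, ‖FF q u d M v T a B (w + q * y)‖ ^ 2 ≤
      Ex (fun z'' : Fin s → Fin (2 ^ d) => Ex (fun z' : Fin s → Fin (2 ^ d) =>
        ‖∑ y ∈ Finset.range Y, e ((a : ℝ) / T *
          (((M : ℤ) * (((∏ i ∈ Bᶜ, zz q u d v z'' i : ℕ) : ℤ) -
            ((∏ i ∈ Bᶜ, zz q u d v z' i : ℕ) : ℤ)) : ℤ) : ℝ) * (y : ℝ))‖)) := by
  have hq0 : (q : ℝ) ≠ 0 := by exact_mod_cast hq.ne'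
  have hT0 : (T : ℝ) ≠ 0 := by exact_mod_cast hT.ne'
  have h1 : ((∑ y ∈ Finset.range Y, ‖FF q u d M v T a B (w + q * y)‖ ^ 2 : ℝ) : ℂ) =
      ExC (fun x : Fin s → Fin (2 ^ d) => ExC (fun x' : Fin s → Fin (2 ^ d) =>
        e ((a : ℝ) * ((M : ℝ) * (w : ℝ) * (((∏ i ∈ Bᶜ, zz q u d v x i : ℕ) : ℝ) -
          ((∏ i ∈ Bᶜ, zz q u d v x' i : ℕ) : ℝ))) / ((q : ℝ) * T)) *
        ∑ y ∈ Finset.range Y, e ((a : ℝ) / T *
          (((M : ℤ) * (((∏ i ∈ Bᶜ, zz q u d v x i : ℕ) : ℤ) -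
            ((∏ i ∈ Bᶜ, zz q u d v x' i : ℕ) : ℤ)) : ℤ) : ℝ) * (y : ℝ)))) := by
    rw [Complex.ofReal_sum]
    simp only [FF, normsq_ExC]
    rw [← ExC_sum]
    congr 1
    funext x
    rw [← ExC_sum]
    congr 1
    funext x'
    rw [Finset.mul_sum]
    refine Finset.sum_congr rfl fun y _ => ?_
    rw [← e_sub, ← e_add]
    congr 1
    generalize (∏ i ∈ Bᶜ, zz q u d v x i) = A
    generalize (∏ i ∈ Bᶜ, zz q u d v x' i) = C
    push_cast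
    field_simp
  have h4 : (∑ y ∈ Finset.range Y, ‖FF q u d M v T a B (w + q * y)‖ ^ 2 : ℝ) =
      ‖((∑ y ∈ Finset.range Y, ‖FF q u d M v T a B (w + q * y)‖ ^ 2 : ℝ) : ℂ)‖ := by
    rw [Complex.norm_real, Real.norm_of_nonneg]
    exact Finset.sum_nonneg fun c _ => by positivity
  rw [h4, h1]
  refine norm_ExC2_le _ _ fun x y => ?_
  rw [norm_mul, norm_e, one_mul]

/-- step 3 -/
lemma step3 (hκ : 0 < κ) (hq : 0 < q) (hu : 0 < u) (he : q * (u + 1) ≤ 2 ^ e₀)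
    (hsm : ∀ p : ℕ, p.Prime → p < 2 ^ κ → p ∣ q) (hv : SlotOK q v) (hM0 : 0 < M) (hM : M ≤ 2 ^ μ)
    (B : Finset (Fin s)) (G : ℤ → ℝ) (hG : ∀ x, 0 ≤ G x) (z'' : Fin s → Fin (2 ^ d)) :
    Ex (fun z' : Fin s → Fin (2 ^ d) => G ((M : ℤ) * (((∏ i ∈ Bᶜ, zz q u d v z'' i : ℕ) : ℤ) -
            ((∏ i ∈ Bᶜ, zz q u d v z' i : ℕ) : ℤ)))) ≤
      (((2 : ℝ) ^ ((Bᶜ).card * (d + e₀) / κ)) ^ (Bᶜ).card / 2 ^ (d * (Bᶜ).card)) *
      ∑ x ∈ Finset.Icc (-((2 ^ (μ + (Bᶜ).card * (d + e₀)) : ℕ) : ℤ))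
        ((2 ^ (μ + (Bᶜ).card * (d + e₀)) : ℕ) : ℤ), G x := by
  refine Ex_fibre (fun z' : Fin s → Fin (2 ^ d) =>
    (M : ℤ) * (((∏ i ∈ Bᶜ, zz q u d v z'' i : ℕ) : ℤ) - ((∏ i ∈ Bᶜ, zz q u d v z' i : ℕ) : ℤ)))
    (fun x : ℤ => x) _ ?_ _ ?_ G hG
  · intro z'
    refine ⟨_, ?_, rfl⟩
    have h1 := prod_zz_le he hv z'' Bᶜ
    have h2 := prod_zz_le he hv z' Bᶜ
    have h3 : M * (∏ i ∈ Bᶜ, zz q u d v z'' i) ≤ 2 ^ (μ + (Bᶜ).card * (d + e₀)) := by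
      rw [pow_add]; exact Nat.mul_le_mul hM h1
    have h4 : M * (∏ i ∈ Bᶜ, zz q u d v z' i) ≤ 2 ^ (μ + (Bᶜ).card * (d + e₀)) := by
      rw [pow_add]; exact Nat.mul_le_mul hM h2
    have h3' : (M : ℤ) * ((∏ i ∈ Bᶜ, zz q u d v z'' i : ℕ) : ℤ) ≤
        ((2 ^ (μ + (Bᶜ).card * (d + e₀)) : ℕ) : ℤ) := by exact_mod_cast h3
    have h4' : (M : ℤ) * ((∏ i ∈ Bᶜ, zz q u d v z' i : ℕ) : ℤ) ≤
        ((2 ^ (μ + (Bᶜ).card * (d + e₀)) : ℕ) : ℤ) := by exact_mod_cast h4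
    have h5 : (0 : ℤ) ≤ (M : ℤ) * ((∏ i ∈ Bᶜ, zz q u d v z'' i : ℕ) : ℤ) := by positivity
    have h6 : (0 : ℤ) ≤ (M : ℤ) * ((∏ i ∈ Bᶜ, zz q u d v z' i : ℕ) : ℤ) := by positivity
    rw [Finset.mem_Icc, mul_sub]
    constructor <;> linarith
  · intro c _
    by_cases hex : ∃ F : ℕ, (M : ℤ) * (((∏ i ∈ Bᶜ, zz q u d v z'' i : ℕ) : ℤ) - (F : ℤ)) = c
    · obtain ⟨F, hF⟩ := hex
      refine le_trans (Ex_mono fun z' => ?_) (prob_fibre hκ hq hu he hsm hv Bᶜ F)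
      by_cases h7 : (M : ℤ) * (((∏ i ∈ Bᶜ, zz q u d v z'' i : ℕ) : ℤ) -
          ((∏ i ∈ Bᶜ, zz q u d v z' i : ℕ) : ℤ)) = c
      · rw [if_pos h7, if_pos]
        rw [← hF] at h7
        have hM' : (M : ℤ) ≠ 0 := by exact_mod_cast hM0.ne'
        have h8 := mul_left_cancel₀ hM' h7
        have h9 : ((∏ i ∈ Bᶜ, zz q u d v z' i : ℕ) : ℤ) = (F : ℤ) := by linarith
        exact_mod_cast h9
      · rw [if_neg h7]
        split_ifs <;> simp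
    · have : Nonempty (Fin (2 ^ d)) := ⟨⟨0, by positivity⟩⟩
      have : ∀ z' : Fin s → Fin (2 ^ d),
          (if (M : ℤ) * (((∏ i ∈ Bᶜ, zz q u d v z'' i : ℕ) : ℤ) -
            ((∏ i ∈ Bᶜ, zz q u d v z' i : ℕ) : ℤ)) = c then (1 : ℝ) else 0) = 0 :=
        fun z' => if_neg fun h => hex ⟨_, h⟩
      simp only [this]
      rw [Ex_const]
      positivity

lemma tau_ge (D : ℕ) (B : Finset (Fin s)) :
    ((2 : ℝ) ^ (B.card * D / κ)) ^ B.card ≤ GF.tau s D κ := by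
  have hB : B.card ≤ s := by simpa using Finset.card_le_univ B
  rw [GF.tau, ← pow_mul, ← pow_mul]
  refine pow_le_pow_right₀ (by norm_num) ?_
  exact Nat.mul_le_mul (Nat.div_le_div_right (Nat.mul_le_mul_right _ hB)) hB

/-- the arithmetic of the bound -/
lemma final_arith {X Y P j t r : ℕ} (h1 : P + 2 = t) (hXY : X + Y = P)
    (hX : X + j + 2 ≤ t) (hY : Y + j + 1 ≤ t) (hr1 : 2 ^ j < r) (hr2 : r ≤ 2 ^ (t - j)) (hj : j ≤ t) :
    8 * (((2 ^ X : ℕ) : ℝ) / r + 1) * (((2 ^ Y + 1 : ℕ) : ℝ) + r * (t + 1)) ≤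
      32 * ((t : ℝ) + 1) * 2 ^ t / 2 ^ j := by
  have hr0 : (0 : ℝ) < r := by
    have : 0 < r := lt_of_le_of_lt (Nat.zero_le _) hr1
    exact_mod_cast this
  have hj0 : (0 : ℝ) < 2 ^ j := by positivity
  have hrj : (2 : ℝ) ^ j ≤ r := by exact_mod_cast hr1.le
  set Q : ℝ := 2 ^ t / 2 ^ j with hQ
  have hQ0 : 0 < Q := by positivity
  have ht0 : (0 : ℝ) ≤ t := Nat.cast_nonneg _
  have hrQ : (r : ℝ) ≤ Q := by
    have h2 : (r : ℝ) ≤ 2 ^ (t - j) := by exact_mod_cast hr2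
    rwa [hQ, le_div_iff₀ hj0, ← pow_sub_mul_pow (2 : ℝ) hj, mul_le_mul_iff_left₀ hj0]
  have hXQ : (2 : ℝ) ^ X * 4 ≤ Q := by
    rw [hQ, le_div_iff₀ hj0]
    calc (2 : ℝ) ^ X * 4 * 2 ^ j = 2 ^ (X + j + 2) := by rw [pow_add, pow_add]; ring
      _ ≤ 2 ^ t := pow_le_pow_right₀ (by norm_num) hX
  have hYQ : (2 : ℝ) ^ Y * 2 ≤ Q := by
    rw [hQ, le_div_iff₀ hj0]
    calc (2 : ℝ) ^ Y * 2 * 2 ^ j = 2 ^ (Y + j + 1) := by rw [pow_add, pow_add]; ring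
      _ ≤ 2 ^ t := pow_le_pow_right₀ (by norm_num) hY
  have hY1 : (2 : ℝ) ^ Y + 1 ≤ Q := by
    have : (1 : ℝ) ≤ 2 ^ Y := one_le_pow₀ (by norm_num)
    linarith
  have hXYQ : (2 : ℝ) ^ X / r * (2 ^ Y + 1) ≤ Q := by
    have h3 : (1 : ℝ) ≤ 2 ^ Y := one_le_pow₀ (by norm_num)
    calc (2 : ℝ) ^ X / r * (2 ^ Y + 1) ≤ (2 : ℝ) ^ X / 2 ^ j * (2 ^ Y * 4) := by
          refine mul_le_mul (div_le_div_of_nonneg_left (by positivity) hj0 hrj) (by linarith)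
            (by positivity) (by positivity)
      _ = Q := by
          rw [hQ, ← h1, ← hXY, pow_add, pow_add]
          ring
  have hXr : (2 : ℝ) ^ X / r * (r * ((t : ℝ) + 1)) ≤ Q * (t + 1) := by
    have : (2 : ℝ) ^ X / r * (r * ((t : ℝ) + 1)) = 2 ^ X * (t + 1) := by field_simp
    rw [this]
    refine mul_le_mul_of_nonneg_right ?_ (by linarith)
    have : (0 : ℝ) ≤ 2 ^ X := by positivity
    linarith
  have hrt : (r : ℝ) * ((t : ℝ) + 1) ≤ Q * (t + 1) :=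
    mul_le_mul_of_nonneg_right hrQ (by linarith)
  have hend : 32 * ((t : ℝ) + 1) * 2 ^ t / 2 ^ j = 32 * (t + 1) * Q := by rw [hQ]; ring
  rw [hend]
  push_cast
  have hexp : 8 * ((2 : ℝ) ^ X / r + 1) * ((2 ^ Y + 1) + r * ((t : ℝ) + 1)) =
      8 * ((2 : ℝ) ^ X / r * (2 ^ Y + 1) + (2 : ℝ) ^ X / r * (r * ((t : ℝ) + 1)) +
        (2 ^ Y + 1) + r * ((t : ℝ) + 1)) := by ring
  rw [hexp]
  have hQt : Q ≤ Q * (t + 1) := le_mul_of_one_le_right hQ0.le (by linarith)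
  linarith

end L1N

open L1N in
/-- [L1] -/
theorem L1 {κ q u e₀ μ M d k s : ℕ} (hκ : 0 < κ) (hq : 0 < q) (hu : 0 < u)
    (he : q * (u + 1) ≤ 2 ^ e₀) (hsm : ∀ p : ℕ, p.Prime → p < 2 ^ κ → p ∣ q) (hM0 : 0 < M)
    (hM : M ≤ 2 ^ μ) {v : Fin s → ℕ} (hv : SlotOK q v) (hs : s = 4 * k + 4) (V : Finset (Fin s))
    (hV : V.card ≤ 2 * k + 3) (a j : ℕ) (ha : a < TL s μ e₀ d) (hj : j ≤ (k + 1) * d)
    (hlow : ¬ Low (TL s μ e₀ d) (2 ^ j) a) :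
    Ex (fun z : Fin s → Fin (2 ^ d) => ‖TT q u d M v (TL s μ e₀ d) a V z‖ ^ 2) ≤
      GF.tau s (d + e₀) κ ^ 2 * (1024 * ((μ + s * (d + e₀) + 3 : ℕ) : ℝ)) * 2 ^ (μ + s * e₀) /
        2 ^ j := by
  classical
  have : Nonempty (Fin (2 ^ d)) := ⟨⟨0, by positivity⟩⟩
  obtain ⟨B, hVB, hB⟩ := Finset.exists_superset_card_eq hV (by rw [Fintype.card_fin]; omega)
  have hBc : (Bᶜ).card = 2 * k + 1 := by rw [Finset.card_compl, hB, Fintype.card_fin]; omega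
  have hT := TL_pos s μ e₀ d
  set t := μ + s * (d + e₀) + 2 with ht
  have hTt : TL s μ e₀ d = 2 ^ t := rfl
  have hsB : (Bᶜ).card * (d + e₀) + B.card * (d + e₀) = s * (d + e₀) := by
    rw [hBc, hB, hs]; ring
  have hjX : j ≤ (Bᶜ).card * (d + e₀) := by
    rw [hBc]; nlinarith [Nat.zero_le (k * d), Nat.zero_le (k * e₀)]
  have hjY : j ≤ B.card * (d + e₀) := by
    rw [hB]; nlinarith [Nat.zero_le (k * d), Nat.zero_le (k * e₀)]
  have hjt : j ≤ t := by omega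
  obtain ⟨r, b, hr1, hr2, hcop, happ⟩ := dirichlet_low hjt (by rw [← hTt]; exact ha)
    (by rw [← hTt]; exact hlow)
  have hr0 : 0 < r := lt_of_le_of_lt (Nat.zero_le _) hr1
  have hrt : r ≤ 2 ^ t := hr2.trans (Nat.pow_le_pow_right (by norm_num) (Nat.sub_le _ _))
  have hms := min_sum hr0 hcop happ (2 ^ (μ + (Bᶜ).card * (d + e₀)))
    (2 ^ (B.card * (d + e₀)) + 1) t hrt
  have hfin := final_arith (X := μ + (Bᶜ).card * (d + e₀)) (Y := B.card * (d + e₀))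
    (P := μ + s * (d + e₀)) (j := j) (t := t) (r := r) (by omega) (by omega) (by omega) (by omega)
    hr1 hr2 hjt
  have hS := hms.trans hfin
  refine (TT_mono V B hVB).trans ?_
  refine (step1 hκ hq hu he hsm hv hT B).trans ?_
  have h2 := sum_FF (q := q) (u := u) (d := d) (M := M) (v := v) (T := TL s μ e₀ d) (a := a) hq hT B
    (∏ i ∈ B, v i) (2 ^ (B.card * (d + e₀)) + 1)
  have h3 := fun z'' : Fin s → Fin (2 ^ d) => step3 (μ := μ) hκ hq hu he hsm hv hM0 hM B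
    (fun x : ℤ => ‖∑ y ∈ Finset.range (2 ^ (B.card * (d + e₀)) + 1),
      e ((a : ℝ) / (TL s μ e₀ d : ℕ) * (x : ℝ) * (y : ℝ))‖) (fun x => norm_nonneg _) z''
  have h4 := h2.trans (GF.Ex_mono h3)
  rw [GF.Ex_const] at h4
  have hTR : ((TL s μ e₀ d : ℕ) : ℝ) = 2 ^ t := by rw [hTt]; push_cast; rfl
  rw [hTR] at h4
  have ht1 := tau_ge (κ := κ) (d + e₀) B
  have ht2 := tau_ge (κ := κ) (d + e₀) Bᶜ
  set A1 : ℝ := ((2 : ℝ) ^ (B.card * (d + e₀) / κ)) ^ B.card with hA1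
  set A2 : ℝ := ((2 : ℝ) ^ ((Bᶜ).card * (d + e₀) / κ)) ^ (Bᶜ).card with hA2
  have hA10 : 0 ≤ A1 := by positivity
  have hA20 : 0 ≤ A2 := by positivity
  have hτ : A1 * A2 ≤ GF.tau s (d + e₀) κ ^ 2 := GF.L1N.fin_arith ht1 ht2 hA10 hA20
  have h5 := h4.trans (mul_le_mul_of_nonneg_left hS (by positivity))
  refine (mul_le_mul_of_nonneg_left h5 (by positivity)).trans ?_
  have hcast : ((μ + s * (d + e₀) + 3 : ℕ) : ℝ) = (t : ℝ) + 1 := by rw [ht]; push_cast; ring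
  rw [hcast]
  have h2t : (2 : ℝ) ^ t = 4 * 2 ^ (μ + s * e₀) * (2 ^ (d * B.card) * 2 ^ (d * (Bᶜ).card)) := by
    rw [← pow_add, ← Nat.mul_add, Finset.card_add_card_compl, Fintype.card_fin, ht,
      show μ + s * (d + e₀) + 2 = 2 + (μ + s * e₀) + d * s by ring, pow_add, pow_add]
    norm_num
  have hd1 : (0 : ℝ) < 2 ^ (d * B.card) := by positivity
  have hd2 : (0 : ℝ) < 2 ^ (d * (Bᶜ).card) := by positivity
  have hj0 : (0 : ℝ) < 2 ^ j := by positivity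
  calc A1 / 2 ^ (d * B.card) * (A2 / 2 ^ (d * (Bᶜ).card) * (32 * ((t : ℝ) + 1) * 2 ^ t / 2 ^ j))
      = (A1 * A2) * (128 * ((t : ℝ) + 1)) * 2 ^ (μ + s * e₀) / 2 ^ j := by
        rw [h2t]; field_simp; ring
    _ ≤ GF.tau s (d + e₀) κ ^ 2 * (1024 * ((t : ℝ) + 1)) * 2 ^ (μ + s * e₀) / 2 ^ j := by
        have ht0 : (0 : ℝ) ≤ t := Nat.cast_nonneg _
        refine div_le_div_of_nonneg_right ?_ hj0.le
        refine mul_le_mul_of_nonneg_right ?_ (by positivity)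
        refine mul_le_mul hτ (by nlinarith) (by positivity) (by positivity)

end Pool.Agent.H366.ZC
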