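import Pool.Agent.H366.ZC.Base

/-! # [CNT] the number of frequencies in an arc -/

set_option autoImplicit false

namespace Pool.Agent.H366.ZC

namespace CntN

/-- two numbers in the same arc -/
theorem arc_diff {lam T x y i : ℕ} (hx : x % T / lam = i) (hy : y % T / lam = i)
    (hl : 0 < lam) : ∃ δ j : ℤ, (x : ℤ) - y = δ + j * T ∧ |δ| < lam := by
  refine ⟨((x % T : ℕ) : ℤ) - ((y % T : ℕ) : ℤ), ((x / T : ℕ) : ℤ) - ((y / T : ℕ) : ℤ), ?_, ?_⟩
  · have h1 : (x : ℤ) = ((x % T : ℕ) : ℤ) + (T : ℤ) * ((x / T : ℕ) : ℤ) := by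
      exact_mod_cast (Nat.mod_add_div x T).symm
    have h2 : (y : ℤ) = ((y % T : ℕ) : ℤ) + (T : ℤ) * ((y / T : ℕ) : ℤ) := by
      exact_mod_cast (Nat.mod_add_div y T).symm
    rw [h1, h2]
    generalize ((x % T : ℕ) : ℤ) = p at *
    generalize ((y % T : ℕ) : ℤ) = q at *
    generalize ((x / T : ℕ) : ℤ) = r at *
    generalize ((y / T : ℕ) : ℤ) = s at *
    ring
  · have h1 := Nat.div_add_mod (x % T) lam
    have h2 := Nat.div_add_mod (y % T) lam
    have h3 := Nat.mod_lt (x % T) hl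
    have h4 := Nat.mod_lt (y % T) hl
    rw [hx] at h1
    rw [hy] at h2
    rw [abs_lt]
    constructor
    · have : ((y % T : ℕ) : ℤ) < ((x % T : ℕ) : ℤ) + lam := by
        exact_mod_cast (by omega : y % T < x % T + lam)
      linarith
    · have : ((x % T : ℕ) : ℤ) < ((y % T : ℕ) : ℤ) + lam := by
        exact_mod_cast (by omega : x % T < y % T + lam)
      linarith

/-- the basic identity -/
theorem key {Y lam T P ρ : ℕ} (hl : 0 < lam) (hY : 0 < Y) (hT : T = Y * lam)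
    (hPT : 4 * Y * P ≤ T) (hρ : 2 * ρ ^ 2 ≤ Y) {a a' r r' b b' : ℕ} (hr : r ≤ ρ) (hr' : r' ≤ ρ)
    (h : |(r : ℤ) * a - b * T| ≤ ρ) (h' : |(r' : ℤ) * a' - b' * T| ≤ ρ) {δ j : ℤ}
    (hδ : (a : ℤ) * P - a' * P = δ + j * T) (hδ' : |δ| < lam) :
    (P : ℤ) * (r' * b - r * b') = r * r' * j := by
  have hTpos : 0 < T := by rw [hT]; positivity
  obtain ⟨ε, hε⟩ : ∃ ε : ℤ, ε = (r : ℤ) * a - b * T := ⟨_, rfl⟩
  obtain ⟨ε', hε'⟩ : ∃ ε' : ℤ, ε' = (r' : ℤ) * a' - b' * T := ⟨_, rfl⟩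
  rw [← hε] at h
  rw [← hε'] at h'
  have h1 : (T : ℤ) * ((P : ℤ) * (r' * b - r * b') - r * r' * j) =
      r * r' * δ - P * (r' * ε - r * ε') := by
    rw [hε, hε']
    linear_combination ((r : ℤ) * r') * hδ
  have hrZ : (r : ℤ) ≤ ρ := by exact_mod_cast hr
  have hrZ' : (r' : ℤ) ≤ ρ := by exact_mod_cast hr'
  have hr0 : (0 : ℤ) ≤ r := Int.natCast_nonneg _
  have hr0' : (0 : ℤ) ≤ r' := Int.natCast_nonneg _
  have hρ0 : (0 : ℤ) ≤ ρ := Int.natCast_nonneg _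
  have hP0 : (0 : ℤ) ≤ P := Int.natCast_nonneg _
  have hl0 : (0 : ℤ) ≤ lam := Int.natCast_nonneg _
  have h2 : |(r : ℤ) * r' * δ| ≤ ρ ^ 2 * lam := by
    rw [abs_mul, abs_mul, abs_of_nonneg hr0, abs_of_nonneg hr0', sq]
    gcongr
  have h3 : |(P : ℤ) * (r' * ε - r * ε')| ≤ 2 * P * ρ ^ 2 := by
    rw [abs_mul, abs_of_nonneg hP0]
    have h4 : |(r' : ℤ) * ε - r * ε'| ≤ ρ * ρ + ρ * ρ := by
      refine (abs_sub _ _).trans ?_
      rw [abs_mul, abs_mul, abs_of_nonneg hr0, abs_of_nonneg hr0']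
      gcongr
    calc (P : ℤ) * |(r' : ℤ) * ε - r * ε'| ≤ P * (ρ * ρ + ρ * ρ) := by gcongr
      _ = 2 * P * ρ ^ 2 := by ring
  have h5 : |(T : ℤ) * ((P : ℤ) * (r' * b - r * b') - r * r' * j)| < T := by
    rw [h1]
    refine (abs_sub _ _).trans_lt ?_
    have h6 : (2 : ℤ) * ρ ^ 2 ≤ Y := by exact_mod_cast hρ
    have h7 : (4 : ℤ) * Y * P ≤ T := by exact_mod_cast hPT
    have h8 : (T : ℤ) = Y * lam := by exact_mod_cast hT
    have h9 : (0 : ℤ) < T := by exact_mod_cast hTpos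
    have h10 : 2 * ((ρ : ℤ) ^ 2 * lam) ≤ T := by
      rw [h8]
      calc 2 * ((ρ : ℤ) ^ 2 * lam) = (2 * (ρ : ℤ) ^ 2) * lam := by ring
        _ ≤ (Y : ℤ) * lam := by gcongr
    have h11 : 4 * (2 * (P : ℤ) * ρ ^ 2) ≤ T := by
      calc 4 * (2 * (P : ℤ) * ρ ^ 2) = 4 * (2 * (ρ : ℤ) ^ 2) * P := by ring
        _ ≤ 4 * (Y : ℤ) * P := by gcongr
        _ ≤ T := h7
    linarith
  rw [abs_mul, abs_of_nonneg (Int.natCast_nonneg _)] at h5
  have h9 : (0 : ℤ) < T := by exact_mod_cast hTpos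
  have h12 : |(P : ℤ) * (r' * b - r * b') - r * r' * j| < 1 := by
    by_contra hc
    rw [not_lt] at hc
    nlinarith
  have h13 := Int.abs_lt_one_iff.1 h12
  linarith

/-- the reduced denominators agree -/
theorem dvd_of {P r r' b b' : ℕ} (hr : 0 < r) (hr' : 0 < r') (hb : Nat.Coprime b r)
    {j : ℤ} (h : (P : ℤ) * (r' * b - r * b') = r * r' * j) :
    r / Nat.gcd r P ∣ r' / Nat.gcd r' P ∧
      ((P / Nat.gcd r P : ℕ) : ℤ) * ((r' / Nat.gcd r' P : ℕ) : ℤ) * b -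
        ((P / Nat.gcd r' P : ℕ) : ℤ) * ((r / Nat.gcd r P : ℕ) : ℤ) * b' =
        ((r / Nat.gcd r P : ℕ) : ℤ) * ((r' / Nat.gcd r' P : ℕ) : ℤ) * j := by
  have hg : 0 < Nat.gcd r P := Nat.gcd_pos_of_pos_left _ hr
  have hg' : 0 < Nat.gcd r' P := Nat.gcd_pos_of_pos_left _ hr'
  obtain ⟨r1, h1⟩ := Nat.gcd_dvd_left r P
  obtain ⟨P1, h2⟩ := Nat.gcd_dvd_right r P
  obtain ⟨r1', h1'⟩ := Nat.gcd_dvd_left r' P
  obtain ⟨P1', h2'⟩ := Nat.gcd_dvd_right r' P
  have e1 : r / Nat.gcd r P = r1 := Nat.div_eq_of_eq_mul_right hg h1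
  have e2 : P / Nat.gcd r P = P1 := Nat.div_eq_of_eq_mul_right hg h2
  have e3 : r' / Nat.gcd r' P = r1' := Nat.div_eq_of_eq_mul_right hg' h1'
  have e4 : P / Nat.gcd r' P = P1' := Nat.div_eq_of_eq_mul_right hg' h2'
  have hcop : Nat.Coprime r1 P1 := by
    rw [← e1, ← e2]
    exact Nat.coprime_div_gcd_div_gcd hg
  rw [e1, e2, e3, e4]
  have hmain : (P1 : ℤ) * r1' * b - P1' * r1 * b' = r1 * r1' * j := by
    have hgZ : (0 : ℤ) < (Nat.gcd r P : ℤ) := by exact_mod_cast hg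
    have hgZ' : (0 : ℤ) < (Nat.gcd r' P : ℤ) := by exact_mod_cast hg'
    have k1 : (r : ℤ) = (Nat.gcd r P : ℤ) * r1 := by exact_mod_cast h1
    have k2 : (P : ℤ) = (Nat.gcd r P : ℤ) * P1 := by exact_mod_cast h2
    have k3 : (r' : ℤ) = (Nat.gcd r' P : ℤ) * r1' := by exact_mod_cast h1'
    have k4 : (P : ℤ) = (Nat.gcd r' P : ℤ) * P1' := by exact_mod_cast h2'
    have k5 : (Nat.gcd r P : ℤ) * (Nat.gcd r' P : ℤ) *
        ((P1 : ℤ) * r1' * b - P1' * r1 * b') =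
        (Nat.gcd r P : ℤ) * (Nat.gcd r' P : ℤ) * (r1 * r1' * j) := by
      have k6 : (P : ℤ) * (r' * b) = (Nat.gcd r P : ℤ) * (Nat.gcd r' P : ℤ) * (P1 * r1' * b) := by
        calc (P : ℤ) * (r' * b) = ((Nat.gcd r P : ℤ) * P1) * (((Nat.gcd r' P : ℤ) * r1') * b) := by
              rw [← k2, ← k3]
          _ = _ := by ring
      have k7 : (P : ℤ) * (r * b') = (Nat.gcd r P : ℤ) * (Nat.gcd r' P : ℤ) * (P1' * r1 * b') := by
        calc (P : ℤ) * (r * b') = ((Nat.gcd r' P : ℤ) * P1') * (((Nat.gcd r P : ℤ) * r1) * b') := by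
              rw [← k4, ← k1]
          _ = _ := by ring
      have k8 : (r : ℤ) * r' * j = (Nat.gcd r P : ℤ) * (Nat.gcd r' P : ℤ) * (r1 * r1' * j) := by
        calc (r : ℤ) * r' * j = ((Nat.gcd r P : ℤ) * r1) * ((Nat.gcd r' P : ℤ) * r1') * j := by
              rw [← k1, ← k3]
          _ = _ := by ring
      rw [mul_sub, k6, k7, k8] at h
      linear_combination h
    exact mul_left_cancel₀ (mul_pos hgZ hgZ').ne' k5
  refine ⟨?_, hmain⟩
  have hd : (r1 : ℤ) ∣ (P1 : ℤ) * r1' * b := ⟨P1' * b' + r1' * j, by linear_combination hmain⟩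
  have hd' : r1 ∣ r1' * (P1 * b) := by
    have : (r1 : ℤ) ∣ ((r1' * (P1 * b) : ℕ) : ℤ) := by
      refine hd.trans ⟨1, ?_⟩
      push_cast
      ring
    exact_mod_cast this
  have hc2 : Nat.Coprime r1 (P1 * b) := by
    refine Nat.Coprime.mul_right hcop ?_
    have : r1 ∣ r := ⟨Nat.gcd r P, by rw [mul_comm]; exact h1⟩
    exact (Nat.Coprime.coprime_dvd_right this hb).symm
  exact hc2.dvd_of_dvd_mul_right hd'

/-- a set of natural numbers of small diameter -/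
theorem card_le_of_diam (Q : Finset ℕ) (m : ℕ) (h : ∀ x ∈ Q, ∀ y ∈ Q, x ≤ y + m) :
    Q.card ≤ m + 1 := by
  rcases Q.eq_empty_or_nonempty with h0 | h0
  · rw [h0]
    simp
  · have h1 : Q ⊆ Finset.Icc (Q.min' h0) (Q.min' h0 + m) := by
      intro x hx
      rw [Finset.mem_Icc]
      exact ⟨Finset.min'_le _ _ hx, h x hx _ (Finset.min'_mem _ _)⟩
    refine (Finset.card_le_card h1).trans ?_
    rw [Nat.card_Icc]
    omega

/-- two frequencies with the same data are close -/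
theorem close {Y lam T P ρ : ℕ} (hl : 0 < lam) (hY : 0 < Y) (hT : T = Y * lam)
    (hP : 0 < P) (hPT : 4 * Y * P ≤ T) (hρ : 2 * ρ ^ 2 ≤ Y) (hρ0 : 0 < ρ) (hρY : 2 * ρ ≤ Y)
    {i x y rx bx ry by' : ℕ} (hx : x * P % T / lam = i) (hy : y * P % T / lam = i)
    (h1 : 1 ≤ rx) (h2 : rx ≤ ρ) (h3 : Nat.Coprime bx rx) (h4 : |(rx : ℤ) * x - bx * T| ≤ ρ)
    (k1 : 1 ≤ ry) (k2 : ry ≤ ρ) (k3 : Nat.Coprime by' ry) (k4 : |(ry : ℤ) * y - by' * T| ≤ ρ)
    (hg : Nat.gcd rx P = Nat.gcd ry P)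
    (hk : bx / (rx / Nat.gcd rx P) = by' / (ry / Nat.gcd ry P)) : x ≤ y + lam / P := by
  have hTpos : 0 < T := by rw [hT]; positivity
  obtain ⟨δ, j, hδ, hδl⟩ := arc_diff hx hy hl
  push_cast at hδ
  have hkey := key hl hY hT hPT hρ h2 k2 h4 k4 hδ hδl
  obtain ⟨d1, d2⟩ := dvd_of (by omega) (by omega) h3 hkey
  have hkey' : (P : ℤ) * (rx * by' - ry * bx) =
      ry * rx * (-j) := by
    linear_combination (-1 : ℤ) * hkey
  obtain ⟨d3, d4⟩ := dvd_of (by omega) (by omega) k3 hkey'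
  have hr1 : rx / Nat.gcd rx P = ry / Nat.gcd ry P :=
    Nat.dvd_antisymm d1 d3
  have hr : rx = ry := by
    rw [← Nat.mul_div_cancel' (Nat.gcd_dvd_left rx P), hr1, hg,
      Nat.mul_div_cancel' (Nat.gcd_dvd_left ry P)]
  rw [← hr1] at hk
  have hgpos : 0 < Nat.gcd rx P := Nat.gcd_pos_of_pos_left _ (by omega)
  have hcop : Nat.Coprime (rx / Nat.gcd rx P) (P / Nat.gcd rx P) :=
    Nat.coprime_div_gcd_div_gcd hgpos
  have hr1pos : 0 < rx / Nat.gcd rx P :=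
    Nat.div_pos (Nat.le_of_dvd (by omega) (Nat.gcd_dvd_left _ _)) hgpos
  rw [← hr1, ← hg] at d2
  set r1 := rx / Nat.gcd rx P with hr1d
  set P1 := P / Nat.gcd rx P with hP1d
  have hmod : bx ≡ by' [MOD r1] := by
    have h6 : (r1 : ℤ) ∣ (P1 : ℤ) * (by' - bx) := by
      have hr1Z : (r1 : ℤ) ≠ 0 := by exact_mod_cast hr1pos.ne'
      refine ⟨-j, ?_⟩
      have h7 : (r1 : ℤ) * ((P1 : ℤ) * (by' - bx)) = r1 * (r1 * (-j)) := by
        linear_combination (-1 : ℤ) * d2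
      exact mul_left_cancel₀ hr1Z h7
    have h8 : IsCoprime (r1 : ℤ) (P1 : ℤ) := Nat.isCoprime_iff_coprime.2 hcop
    have h9 := h8.dvd_of_dvd_mul_left h6
    exact (Nat.modEq_iff_dvd).2 h9
  have hbb : bx = by' := by
    rw [← Nat.div_add_mod bx r1, ← Nat.div_add_mod by' r1, hk, hmod]
  -- the difference
  have h10 : |(rx : ℤ) * ((x : ℤ) - y)| ≤ 2 * ρ := by
    have : (rx : ℤ) * ((x : ℤ) - y) =
        (rx * x - bx * T) - (ry * y - by' * T) := by
      rw [← hr, ← hbb]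
      ring
    rw [this]
    exact (abs_sub _ _).trans (by linarith)
  have h11 : |(x : ℤ) - y| ≤ 2 * ρ := by
    rw [abs_mul, abs_of_nonneg (Int.natCast_nonneg _)] at h10
    have h12 : (1 : ℤ) ≤ rx := by exact_mod_cast h1
    have h13 := mul_le_mul_of_nonneg_right h12 (abs_nonneg ((x : ℤ) - y))
    rw [one_mul] at h13
    exact h13.trans h10
  have h14 : ((x : ℤ) - y) * P = δ + j * T := by linear_combination hδ
  have hj : j = 0 := by
    have h15 : |j * (T : ℤ)| < T := by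
      have : j * (T : ℤ) = ((x : ℤ) - y) * P - δ := by linarith
      rw [this]
      refine (abs_sub _ _).trans_lt ?_
      rw [abs_mul, abs_of_nonneg (Int.natCast_nonneg P)]
      have h16 : (4 : ℤ) * Y * P ≤ T := by exact_mod_cast hPT
      have h17 : (2 : ℤ) * ρ ≤ Y := by exact_mod_cast hρY
      have h18 : (T : ℤ) = Y * lam := by exact_mod_cast hT
      have h19 : (0 : ℤ) < P := by exact_mod_cast hP
      have h20 : (0 : ℤ) < lam := by exact_mod_cast hl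
      have h21 : (1 : ℤ) ≤ ρ := by exact_mod_cast hρ0
      have h22 : |(x : ℤ) - y| * P ≤ Y * P :=
        mul_le_mul_of_nonneg_right (h11.trans h17) h19.le
      have h23 : 2 * (lam : ℤ) ≤ T := by
        rw [h18]
        exact mul_le_mul_of_nonneg_right (by linarith) h20.le
      have h24 : (0 : ℤ) < T := by exact_mod_cast hTpos
      linarith
    rw [abs_mul, abs_of_nonneg (Int.natCast_nonneg T)] at h15
    have h24 : (0 : ℤ) < T := by exact_mod_cast hTpos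
    have h25 : |j| < 1 := by
      refine lt_of_mul_lt_mul_right ?_ h24.le
      rw [one_mul]
      exact h15
    exact Int.abs_lt_one_iff.1 h25
  rw [hj, zero_mul, add_zero] at h14
  have h26 : ((x : ℤ) - y) * P < lam := by
    rw [h14]
    exact (le_abs_self _).trans_lt hδl
  by_contra hc
  rw [not_le] at hc
  have h27 : y + lam / P + 1 ≤ x := hc
  have h28 : lam < (lam / P + 1) * P := by
    have := Nat.lt_div_mul_add hP (a := lam)
    linarith
  have h29 : (lam : ℤ) < ((lam / P : ℕ) + 1) * P := by exact_mod_cast h28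
  have h30 : ((lam / P : ℕ) : ℤ) + 1 ≤ (x : ℤ) - y := by
    have : ((y : ℤ) + ((lam / P : ℕ) : ℤ) + 1) ≤ x := by exact_mod_cast h27
    linarith
  have h31 : (0 : ℤ) < P := by exact_mod_cast hP
  have h32 := mul_le_mul_of_nonneg_right h30 h31.le
  linarith

end CntN

open CntN

open Classical in
/-- [CNT] `T = Y λ`; for every `i` there are few `a < T` with `LowG T ρ a P t` such that `a P mod T`
is in the arc `[i λ, (i + 1) λ)`. -/
theorem card_arc {Y lam T P ρ t D₀ : ℕ} (hl : 0 < lam) (hY : 0 < Y) (hT : T = Y * lam)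
    (hP : 0 < P) (hPT : 4 * Y * P ≤ T) (hρ : 2 * ρ ^ 2 ≤ Y) (hρ0 : 0 < ρ)
    (hD : P.divisors.card ≤ D₀) (i : ℕ) :
    ((Finset.range T).filter fun a => LowG T ρ a P t ∧ (a * P % T) / lam = i).card ≤
      D₀ * (t + 1) * (2 * (lam / P) + 4) := by
  have hTpos : 0 < T := by rw [hT]; positivity
  set S := (Finset.range T).filter fun a => LowG T ρ a P t ∧ (a * P % T) / lam = i with hS
  have hmem : ∀ a ∈ S, a < T ∧ LowG T ρ a P t ∧ (a * P % T) / lam = i := by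
    intro a ha
    rw [hS, Finset.mem_filter, Finset.mem_range] at ha
    exact ha
  have hw : ∀ a : ℕ, ∃ rb : ℕ × ℕ, a ∈ S → 1 ≤ rb.1 ∧ rb.1 ≤ ρ ∧ Nat.Coprime rb.2 rb.1 ∧
      |(rb.1 : ℤ) * a - rb.2 * T| ≤ ρ ∧ Nat.gcd rb.1 P ≤ t := by
    intro a
    by_cases ha : a ∈ S
    · obtain ⟨r, b, h⟩ := (hmem a ha).2.1
      exact ⟨(r, b), fun _ => h⟩
    · exact ⟨(0, 0), fun h => (ha h).elim⟩
  choose w hw using hw
  have hρY : 2 * ρ ≤ Y := by nlinarith
  have hYT : Y ≤ T := by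
    rw [hT]
    exact Nat.le_mul_of_pos_right _ hl
  have hb : ∀ a ∈ S, (w a).2 ≤ (w a).1 := by
    intro a ha
    obtain ⟨h1, h2, h3, h4, h5⟩ := hw a ha
    have h6 := (abs_le.1 h4).1
    have h7 : ((w a).2 : ℤ) * T ≤ (w a).1 * a + ρ := by linarith
    have h8 : (a : ℤ) < T := by exact_mod_cast (hmem a ha).1
    have h9 : (2 : ℤ) * ρ ≤ T := by exact_mod_cast hρY.trans hYT
    have h10 : (0 : ℤ) < ρ := by exact_mod_cast hρ0
    have h11 : ((w a).1 : ℤ) * a ≤ (w a).1 * T := by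
      have : (0 : ℤ) ≤ ((w a).1 : ℤ) := Int.natCast_nonneg _
      nlinarith
    by_contra hc
    rw [not_le] at hc
    have h12 : ((w a).1 : ℤ) + 1 ≤ (w a).2 := by exact_mod_cast hc
    have h13 : (0 : ℤ) < T := by exact_mod_cast hTpos
    nlinarith
  set F : ℕ → ℕ × ℕ := fun a => (Nat.gcd (w a).1 P, (w a).2 / ((w a).1 / Nat.gcd (w a).1 P))
    with hF
  have himg : S.image F ⊆ P.divisors ×ˢ Finset.range (t + 1) := by
    intro p hp
    obtain ⟨a, ha, rfl⟩ := Finset.mem_image.1 hp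
    obtain ⟨h1, h2, h3, h4, h5⟩ := hw a ha
    rw [Finset.mem_product, Nat.mem_divisors, Finset.mem_range]
    refine ⟨⟨Nat.gcd_dvd_right _ _, hP.ne'⟩, ?_⟩
    show (w a).2 / ((w a).1 / Nat.gcd (w a).1 P) < t + 1
    have hg : 0 < Nat.gcd (w a).1 P := Nat.gcd_pos_of_pos_left _ (by omega)
    obtain ⟨r1, hr1⟩ := Nat.gcd_dvd_left (w a).1 P
    have e1 : (w a).1 / Nat.gcd (w a).1 P = r1 := Nat.div_eq_of_eq_mul_right hg hr1
    rw [e1]
    have hr1pos : 0 < r1 := by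
      rcases Nat.eq_zero_or_pos r1 with h0 | h0
      · rw [h0, mul_zero] at hr1
        omega
      · exact h0
    have h6 := hb a ha
    rw [hr1] at h6
    calc (w a).2 / r1 ≤ Nat.gcd (w a).1 P * r1 / r1 := Nat.div_le_div_right h6
      _ = Nat.gcd (w a).1 P := Nat.mul_div_cancel _ hr1pos
      _ < t + 1 := by omega
  have hfib : ∀ p ∈ S.image F, (S.filter fun x => F x = p).card ≤ lam / P + 1 := by
    intro p _
    refine card_le_of_diam _ _ ?_
    intro x hx y hy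
    rw [Finset.mem_filter] at hx hy
    obtain ⟨hxS, hx2⟩ := hx
    obtain ⟨hyS, hy2⟩ := hy
    obtain ⟨h1, h2, h3, h4, h5⟩ := hw x hxS
    obtain ⟨k1, k2, k3, k4, k5⟩ := hw y hyS
    have hFF : F x = F y := hx2.trans hy2.symm
    exact close hl hY hT hP hPT hρ hρ0 hρY (hmem x hxS).2.2 (hmem y hyS).2.2 h1 h2 h3 h4 k1 k2 k3
      k4 (congrArg Prod.fst hFF) (congrArg Prod.snd hFF)
  calc S.card ≤ (lam / P + 1) * (S.image F).card := Finset.card_le_mul_card_image _ _ hfib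
    _ ≤ (lam / P + 1) * (D₀ * (t + 1)) := by
      refine Nat.mul_le_mul_left _ ((Finset.card_le_card himg).trans ?_)
      rw [Finset.card_product, Finset.card_range]
      exact Nat.mul_le_mul_right _ hD
    _ = D₀ * (t + 1) * (lam / P + 1) := by ring
    _ ≤ D₀ * (t + 1) * (2 * (lam / P) + 4) := Nat.mul_le_mul_left _ (by omega)

end Pool.Agent.H366.ZC
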