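import Pool.Agent.H366.ZC.Base

/-! # [LS] a large sieve inequality -/

set_option autoImplicit false

namespace Pool.Agent.H366.ZC

namespace LSN

open Finset

/-- the exponential sum -/
noncomputable def Fs (Y T : ℕ) (w : ℕ → ℂ) (c : ℕ) : ℂ :=
  ∑ g ∈ range Y, w g * e ((c : ℝ) * (g : ℝ) / (T : ℝ))

lemma parseval (N Y : ℕ) (hN : 0 < N) (hY : Y ≤ N) (v : ℕ → ℂ) :
    ∑ c ∈ range N, ‖Fs Y N v c‖ ^ 2 = N * ∑ g ∈ range Y, ‖v g‖ ^ 2 := by
  have h1 : ∀ c : ℕ, (((‖Fs Y N v c‖ ^ 2 : ℝ)) : ℂ) = ∑ g ∈ range Y, ∑ g' ∈ range Y,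
      v g * (starRingEnd ℂ) (v g') *
        e ((c : ℝ) * ((((g : ℤ) - (g' : ℤ) : ℤ)) : ℝ) / (N : ℝ)) := by
    intro c
    rw [Complex.ofReal_pow, ← Complex.mul_conj']
    unfold Fs
    rw [map_sum, Finset.sum_mul_sum]
    refine Finset.sum_congr rfl fun g _ => Finset.sum_congr rfl fun g' _ => ?_
    rw [map_mul]
    have h2 : (c : ℝ) * ((((g : ℤ) - (g' : ℤ) : ℤ)) : ℝ) / (N : ℝ) =
        (c : ℝ) * (g : ℝ) / (N : ℝ) - (c : ℝ) * (g' : ℝ) / (N : ℝ) := by
      push_cast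
      ring
    rw [h2, e_sub]
    ring
  have h3 : ((∑ c ∈ range N, ‖Fs Y N v c‖ ^ 2 : ℝ) : ℂ) =
      ((N * ∑ g ∈ range Y, ‖v g‖ ^ 2 : ℝ) : ℂ) := by
    rw [Complex.ofReal_sum]
    simp only [h1]
    rw [Finset.sum_comm]
    rw [Complex.ofReal_mul, Complex.ofReal_sum, Finset.mul_sum]
    refine Finset.sum_congr rfl fun g hg => ?_
    rw [Finset.sum_comm]
    simp only [← Finset.mul_sum]
    simp only [sum_e N hN]
    rw [Finset.sum_eq_single g]
    · rw [sub_self, if_pos (dvd_zero _), Complex.ofReal_pow, ← Complex.mul_conj',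
        Complex.ofReal_natCast]
      ring
    · intro g' hg' hne
      rw [if_neg, mul_zero]
      intro hd
      rw [mem_range] at hg hg'
      have h4 : (g : ℤ) - (g' : ℤ) = 0 := by
        refine Int.eq_zero_of_abs_lt_dvd hd ?_
        rw [abs_lt]
        constructor <;> omega
      apply hne
      omega
    · intro h
      exact absurd hg h
  exact_mod_cast h3

lemma norm_e_sub_one (x : ℝ) (hx : 0 ≤ x) : ‖e x - 1‖ ≤ 2 * Real.pi * x := by
  have h1 : e x = Complex.exp (Complex.I * ((2 * Real.pi * x : ℝ) : ℂ)) := by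
    unfold e
    congr 1
    push_cast
    ring
  rw [h1]
  refine (Real.norm_exp_I_mul_ofReal_sub_one_le).trans ?_
  rw [Real.norm_eq_abs, abs_of_nonneg (by positivity)]

lemma sum_blocks (f : ℕ → ℝ) (lam n : ℕ) :
    ∑ i ∈ range n, ∑ c ∈ Ico (i * lam) ((i + 1) * lam), f c = ∑ c ∈ range (n * lam), f c := by
  induction n with
  | zero => simp
  | succ n ih =>
    rw [Finset.sum_range_succ, ih, Finset.range_eq_Ico,
      Finset.sum_Ico_consecutive f (Nat.zero_le _)
        (Nat.mul_le_mul_right lam (show n ≤ n + 1 by omega)), Finset.range_eq_Ico]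

lemma tele (G : ℕ → ℝ) (m n N : ℕ) (hmn : m ≤ n) (hn : n ≤ N) :
    G n ≤ G m + ∑ c ∈ Ico m N, |G (c + 1) - G c| := by
  have h1 : G n - G m = ∑ c ∈ Ico m n, (G (c + 1) - G c) := (Finset.sum_Ico_sub G hmn).symm
  have h2 : ∑ c ∈ Ico m n, (G (c + 1) - G c) ≤ ∑ c ∈ Ico m n, |G (c + 1) - G c| :=
    Finset.sum_le_sum fun c _ => le_abs_self _
  have h3 : ∑ c ∈ Ico m n, |G (c + 1) - G c| ≤ ∑ c ∈ Ico m N, |G (c + 1) - G c| :=
    Finset.sum_le_sum_of_subset_of_nonneg (Finset.Ico_subset_Ico le_rfl hn)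
      fun c _ _ => abs_nonneg _
  linarith

end LSN

open LSN in
/-- [LS] at most `K` of the points `π a / T`, `a ∈ S`, in each arc `[i / Y, (i + 1) / Y)`. -/
theorem large_sieve (Y lam T : ℕ) (hY : 0 < Y) (hl : 0 < lam) (hT : T = Y * lam) (w : ℕ → ℂ)
    (S : Finset ℕ) (π : ℕ → ℕ) (K : ℕ) (hπ : ∀ a ∈ S, π a < T)
    (hK : ∀ i < Y, (S.filter fun a => π a / lam = i).card ≤ K) :
    ∑ a ∈ S, ‖∑ g ∈ Finset.range Y, w g * e ((π a : ℝ) * (g : ℝ) / (T : ℝ))‖ ^ 2 ≤
      14 * (K : ℝ) * Y * ∑ g ∈ Finset.range Y, ‖w g‖ ^ 2 := by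
  have hTpos : 0 < T := by rw [hT]; exact Nat.mul_pos hY hl
  have hYT : Y ≤ T := by rw [hT]; exact Nat.le_mul_of_pos_right _ hl
  have hT0 : (0 : ℝ) < T := by exact_mod_cast hTpos
  have hY0 : (0 : ℝ) < Y := by exact_mod_cast hY
  have hl0 : (0 : ℝ) < lam := by exact_mod_cast hl
  have hTr : (T : ℝ) = Y * lam := by rw [hT]; push_cast; ring
  have hpi := Real.pi_pos
  set W : ℝ := ∑ g ∈ Finset.range Y, ‖w g‖ ^ 2 with hW
  have hW0 : 0 ≤ W := Finset.sum_nonneg fun g _ => by positivity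
  set F : ℕ → ℂ := Fs Y T w with hF
  set G : ℕ → ℝ := fun c => ‖F c‖ ^ 2 with hG
  have hG0 : ∀ c, 0 ≤ G c := fun c => by positivity
  -- the sum over the cells
  have s1 : ∑ i ∈ Finset.range Y, G (i * lam) = Y * W := by
    rw [hW, ← parseval Y Y hY le_rfl w]
    refine Finset.sum_congr rfl fun i _ => ?_
    simp only [hG, hF]
    congr 2
    unfold Fs
    refine Finset.sum_congr rfl fun g _ => ?_
    congr 2
    rw [hTr]
    push_cast
    field_simp
  -- the sum of the squares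
  have p1 : ∑ c ∈ Finset.range T, ‖F c‖ ^ 2 = T * W := parseval T Y hTpos hYT w
  have p2 : ∑ c ∈ Finset.range T, ‖F (c + 1)‖ ^ 2 = T * W := by
    have h1 : ∀ c, F (c + 1) = Fs Y T (fun g => w g * e ((g : ℝ) / T)) c := by
      intro c
      simp only [hF]
      unfold Fs
      refine Finset.sum_congr rfl fun g _ => ?_
      rw [mul_assoc, ← e_add]
      congr 2
      push_cast
      ring
    simp only [h1]
    rw [parseval T Y hTpos hYT]
    simp only [norm_mul, norm_e, mul_one]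
    rfl
  have p3 : ∑ c ∈ Finset.range T, ‖F (c + 1) - F c‖ ^ 2 ≤ T * ((2 * Real.pi / lam) ^ 2 * W) := by
    have h1 : ∀ c, F (c + 1) - F c = Fs Y T (fun g => w g * (e ((g : ℝ) / T) - 1)) c := by
      intro c
      simp only [hF]
      unfold Fs
      rw [← Finset.sum_sub_distrib]
      refine Finset.sum_congr rfl fun g _ => ?_
      have h2 : e (((c + 1 : ℕ) : ℝ) * (g : ℝ) / T) =
          e ((g : ℝ) / T) * e ((c : ℝ) * (g : ℝ) / T) := by
        rw [← e_add]
        congr 1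
        push_cast
        ring
      rw [h2]
      ring
    simp only [h1]
    rw [parseval T Y hTpos hYT]
    refine mul_le_mul_of_nonneg_left ?_ hT0.le
    rw [hW, Finset.mul_sum]
    refine Finset.sum_le_sum fun g hg => ?_
    rw [norm_mul, mul_pow, mul_comm]
    refine mul_le_mul_of_nonneg_right ?_ (by positivity)
    have h2 := norm_e_sub_one ((g : ℝ) / T) (by positivity)
    have h3 : 2 * Real.pi * ((g : ℝ) / T) ≤ 2 * Real.pi / lam := by
      have h4 : (g : ℝ) ≤ Y := by exact_mod_cast (Finset.mem_range.1 hg).le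
      rw [hTr, mul_div_assoc', div_le_div_iff₀ (by positivity) hl0]
      have h5 : (g : ℝ) * lam ≤ Y * lam := mul_le_mul_of_nonneg_right h4 hl0.le
      nlinarith
    exact pow_le_pow_left₀ (norm_nonneg _) (h2.trans h3) 2
  have s2 : ∑ c ∈ Finset.range T, |G (c + 1) - G c| ≤ 4 * Real.pi * Y * W := by
    have h1 : ∀ c, |G (c + 1) - G c| ≤ (lam / (2 * Real.pi)) * ‖F (c + 1) - F c‖ ^ 2 +
        (Real.pi / lam) * (‖F (c + 1)‖ ^ 2 + ‖F c‖ ^ 2) := by
      intro c
      have h2 : |G (c + 1) - G c| = |‖F (c + 1)‖ - ‖F c‖| * (‖F (c + 1)‖ + ‖F c‖) := by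
        have h3 : G (c + 1) - G c = (‖F (c + 1)‖ - ‖F c‖) * (‖F (c + 1)‖ + ‖F c‖) := by
          simp only [hG]
          ring
        rw [h3, abs_mul, abs_of_nonneg (show 0 ≤ ‖F (c + 1)‖ + ‖F c‖ by positivity)]
      have h3 : |‖F (c + 1)‖ - ‖F c‖| ≤ ‖F (c + 1) - F c‖ := abs_norm_sub_norm_le _ _
      rw [h2]
      set x := ‖F (c + 1) - F c‖
      set y := ‖F (c + 1)‖
      set z := ‖F c‖
      have hx : 0 ≤ x := norm_nonneg _
      have hy : 0 ≤ y := norm_nonneg _
      have hz : 0 ≤ z := norm_nonneg _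
      have h4 : |y - z| * (y + z) ≤ x * (y + z) := mul_le_mul_of_nonneg_right h3 (by positivity)
      have h5 : x * (y + z) ≤ lam / (2 * Real.pi) * x ^ 2 + Real.pi / (2 * lam) * (y + z) ^ 2 := by
        have h6 : lam / (2 * Real.pi) * x ^ 2 + Real.pi / (2 * lam) * (y + z) ^ 2 - x * (y + z) =
            (lam * x - Real.pi * (y + z)) ^ 2 / (2 * Real.pi * lam) := by
          field_simp
          ring
        have h7 : 0 ≤ (lam * x - Real.pi * (y + z)) ^ 2 / (2 * Real.pi * lam) := by positivity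
        linarith
      have h6 : Real.pi / (2 * lam) * (y + z) ^ 2 ≤ Real.pi / lam * (y ^ 2 + z ^ 2) := by
        have h7 : Real.pi / lam * (y ^ 2 + z ^ 2) - Real.pi / (2 * lam) * (y + z) ^ 2 =
            Real.pi / (2 * lam) * (y - z) ^ 2 := by
          field_simp
          ring
        have h8 : 0 ≤ Real.pi / (2 * lam) * (y - z) ^ 2 := by positivity
        linarith
      linarith
    refine (Finset.sum_le_sum fun c _ => h1 c).trans ?_
    rw [Finset.sum_add_distrib, ← Finset.mul_sum, ← Finset.mul_sum, Finset.sum_add_distrib, p1, p2]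
    have h2 := mul_le_mul_of_nonneg_left p3 (show 0 ≤ (lam : ℝ) / (2 * Real.pi) by positivity)
    have h3 : (lam : ℝ) / (2 * Real.pi) * (T * ((2 * Real.pi / lam) ^ 2 * W)) =
        2 * Real.pi * Y * W := by
      rw [hTr]
      field_simp
    have h4 : Real.pi / lam * (T * W + T * W) = 2 * Real.pi * Y * W := by
      rw [hTr]
      field_simp
      ring
    linarith
  -- the sum over `S`
  set H : ℕ → ℝ := fun i => G (i * lam) + ∑ c ∈ Finset.Ico (i * lam) ((i + 1) * lam),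
    |G (c + 1) - G c| with hH
  have hH0 : ∀ i, 0 ≤ H i := fun i =>
    add_nonneg (hG0 _) (Finset.sum_nonneg fun c _ => abs_nonneg _)
  have t1 : ∀ a ∈ S, ‖∑ g ∈ Finset.range Y, w g * e ((π a : ℝ) * (g : ℝ) / (T : ℝ))‖ ^ 2 ≤
      H (π a / lam) := by
    intro a _
    have h1 := Nat.div_mul_le_self (π a) lam
    have h2 : π a < (π a / lam + 1) * lam := by
      rw [mul_comm]
      exact Nat.lt_mul_div_succ (π a) hl
    exact tele G (π a / lam * lam) (π a) ((π a / lam + 1) * lam) h1 h2.le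
  have t2 : ∑ a ∈ S, H (π a / lam) ≤ K * ∑ i ∈ Finset.range Y, H i := by
    rw [← Finset.sum_fiberwise_of_maps_to (s := S) (t := Finset.range Y) (g := fun a => π a / lam)
      (fun a ha => by
        rw [Finset.mem_range]
        refine Nat.div_lt_of_lt_mul ?_
        rw [mul_comm, ← hT]
        exact hπ a ha)]
    rw [Finset.mul_sum]
    refine Finset.sum_le_sum fun i hi => ?_
    have h1 : ∑ a ∈ S.filter (fun a => π a / lam = i), H (π a / lam) =
        ((S.filter fun a => π a / lam = i).card : ℝ) * H i := by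
      rw [Finset.sum_congr rfl (fun a ha => by rw [(Finset.mem_filter.1 ha).2]),
        Finset.sum_const, nsmul_eq_mul]
    rw [h1]
    refine mul_le_mul_of_nonneg_right ?_ (hH0 i)
    exact_mod_cast hK i (Finset.mem_range.1 hi)
  have t3 : ∑ i ∈ Finset.range Y, H i ≤ 14 * Y * W := by
    simp only [hH]
    rw [Finset.sum_add_distrib, s1, sum_blocks (fun c => |G (c + 1) - G c|) lam Y, ← hT]
    have h1 : 4 * Real.pi * Y * W ≤ 13 * (Y * W) := by
      have h2 : Real.pi < 3.15 := Real.pi_lt_d2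
      have h3 : 0 ≤ (Y : ℝ) * W := by positivity
      nlinarith
    linarith
  have hK0 : (0 : ℝ) ≤ K := Nat.cast_nonneg _
  calc ∑ a ∈ S, ‖∑ g ∈ Finset.range Y, w g * e ((π a : ℝ) * (g : ℝ) / (T : ℝ))‖ ^ 2
      ≤ ∑ a ∈ S, H (π a / lam) := Finset.sum_le_sum t1
    _ ≤ K * ∑ i ∈ Finset.range Y, H i := t2
    _ ≤ K * (14 * Y * W) := mul_le_mul_of_nonneg_left t3 hK0
    _ = 14 * (K : ℝ) * Y * W := by ring

end Pool.Agent.H366.ZC
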