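import Pool.Agent.H366.ZC.Div
import Pool.Agent.H366.ZC.LS
import Pool.Agent.H366.ZC.Cnt

/-! # [L2] mean square over the frequencies close to fractions -/

set_option autoImplicit false

namespace Pool.Agent.H366.ZC

open Pool.Agent.H366.GF (Ex ExC)

namespace L2N

open Pool.Agent.H366.GF (Ex_mono Ex_nonneg Ex_const Ex_mul_left Ex_sum ExC_sum ExC_mul_left
  ExC_mul_right Ex_ofReal)

variable {q u e₀ d s : ℕ} {v : Fin s → ℕ}

/-- the quotient `g(z')`. -/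
lemma exists_g (hq : 0 < q) (he : q * (u + 1) ≤ 2 ^ e₀) (hv : SlotOK q v)
    (B : Finset (Fin s)) (hB : B.Nonempty) (h : Fin s → Fin (2 ^ d)) :
    ∃ g, ∏ i ∈ B, zz q u d v h i = ∏ i ∈ B, v i + q * g ∧ g < 2 ^ (B.card * (d + e₀)) := by
  obtain ⟨g, hg⟩ := prod_zz_eq (q := q) (u := u) (v := v) h B
  refine ⟨g, hg, ?_⟩
  have h1 : g ≤ q * g := Nat.le_mul_of_pos_left _ hq
  have h2 := prod_zz_le he hv h B
  by_cases h0 : ∏ i ∈ B, v i = 0
  · rw [Finset.prod_eq_zero_iff] at h0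
    obtain ⟨i, hi, hvi⟩ := h0
    have h3 : ∏ j ∈ B, zz q u d v h j < 2 ^ (B.card * (d + e₀)) := by
      rw [← Finset.mul_prod_erase B _ hi]
      have h4 : zz q u d v h i < 2 ^ (d + e₀) := by
        unfold zz
        rw [hvi, zero_add]
        have h5 : (h i : ℕ) < 2 ^ d := (h i).2
        have h6 : q * (u * 2 ^ d + (h i : ℕ)) < q * (u * 2 ^ d + 2 ^ d) :=
          Nat.mul_lt_mul_of_pos_left (by omega) hq
        have h7 : q * (u * 2 ^ d + 2 ^ d) = q * (u + 1) * 2 ^ d := by ring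
        have h8 : q * (u + 1) * 2 ^ d ≤ 2 ^ e₀ * 2 ^ d := Nat.mul_le_mul_right _ he
        rw [pow_add, mul_comm (2 ^ d)]
        omega
      have h9 := prod_zz_le he hv h (B.erase i)
      rw [Finset.card_erase_of_mem hi] at h9
      have h10 : B.card = (B.card - 1) + 1 := by
        have := Finset.card_pos.2 hB
        omega
      have h11 : 2 ^ (B.card * (d + e₀)) = 2 ^ (d + e₀) * 2 ^ ((B.card - 1) * (d + e₀)) := by
        rw [← pow_add]; congr 1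
        rw [h10, Nat.add_sub_cancel]; ring
      rw [h11]
      exact Nat.mul_lt_mul_of_lt_of_le h4 h9 (by positivity)
    omega
  · omega

lemma prod_pw (M : ℕ) (V : Finset (Fin s)) (z z' : Fin s → Fin (2 ^ d)) :
    M * ∏ i, zz q u d v (V.piecewise z z') i =
      (M * ∏ i ∈ V, zz q u d v z i) * ∏ i ∈ Vᶜ, zz q u d v z' i := by
  have h1 : ∏ i ∈ V, zz q u d v (V.piecewise z z') i = ∏ i ∈ V, zz q u d v z i := by
    refine Finset.prod_congr rfl fun i hi => ?_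
    rw [zz, zz, Finset.piecewise_eq_of_mem _ _ _ hi]
  have h2 : ∏ i ∈ Vᶜ, zz q u d v (V.piecewise z z') i = ∏ i ∈ Vᶜ, zz q u d v z' i := by
    refine Finset.prod_congr rfl fun i hi => ?_
    rw [zz, zz, Finset.piecewise_eq_of_notMem _ _ _ (Finset.mem_compl.1 hi)]
  rw [← Finset.prod_mul_prod_compl V, h1, h2, mul_assoc]

/-- the exponents are `c + P g(z')`. -/
lemma exists_c (M : ℕ) (hq : 0 < q) (V : Finset (Fin s)) (z : Fin s → Fin (2 ^ d)) :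
    ∃ c : ℕ, ∀ (z' : Fin s → Fin (2 ^ d)) (g : ℕ),
      ∏ i ∈ Vᶜ, zz q u d v z' i = ∏ i ∈ Vᶜ, v i + q * g →
      ff q u d M v (V.piecewise z z') = c + (M * ∏ i ∈ V, zz q u d v z i) * g := by
  obtain ⟨gV, hgV⟩ := prod_zz_eq (q := q) (u := u) (v := v) z V
  refine ⟨M * gV * ∏ i ∈ Vᶜ, v i, fun z' g hg => ?_⟩
  have h1 := ff_spec (q := q) (u := u) (M := M) (v := v) hq (V.piecewise z z')
  rw [prod_pw, hg] at h1
  have h2 : ∏ i, v i = (∏ i ∈ V, v i) * ∏ i ∈ Vᶜ, v i := (Finset.prod_mul_prod_compl V _).symm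
  rw [h2] at h1
  apply Nat.eq_of_mul_eq_mul_left hq
  have h3 : (M * ∏ i ∈ V, zz q u d v z i) * (∏ i ∈ Vᶜ, v i + q * g) =
      M * ((∏ i ∈ V, v i) * ∏ i ∈ Vᶜ, v i) +
        q * (M * gV * ∏ i ∈ Vᶜ, v i + (M * ∏ i ∈ V, zz q u d v z i) * g) := by
    rw [mul_add, mul_add]
    nth_rewrite 1 [hgV]
    ring
  rw [h3] at h1
  exact (Nat.add_left_cancel h1).symm

lemma e_mod (T a g : ℕ) (hT : 0 < T) :
    e ((a : ℝ) * (g : ℝ) / (T : ℝ)) = e (((a % T : ℕ) : ℝ) * (g : ℝ) / (T : ℝ)) := by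
  have hT0 : (T : ℝ) ≠ 0 := by exact_mod_cast hT.ne'
  have key : ∀ r k : ℕ, a = r + T * k →
      e ((a : ℝ) * (g : ℝ) / (T : ℝ)) = e ((r : ℝ) * (g : ℝ) / (T : ℝ)) := by
    intro r k h
    have h1 : (a : ℝ) = (r : ℝ) + (T : ℝ) * (k : ℝ) := by rw [h]; push_cast; ring
    have h2 : (a : ℝ) * (g : ℝ) / (T : ℝ) =
        (r : ℝ) * (g : ℝ) / (T : ℝ) + (((k * g : ℕ) : ℤ) : ℝ) := by
      rw [h1]
      push_cast
      field_simp
    rw [h2, e_add_int]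
  exact key _ _ (Nat.mod_add_div a T).symm

/-- the sum over the values of `g`. -/
lemma ExC_values {α : Type} [Fintype α] (G : α → ℕ) (Y : ℕ) (hG : ∀ x, G x < Y) (f : ℕ → ℂ) :
    ExC (fun x => f (G x)) =
      ∑ g ∈ Finset.range Y, ((Ex (fun x : α => if G x = g then (1 : ℝ) else 0) : ℝ) : ℂ) * f g := by
  have h1 : ∀ g ∈ Finset.range Y,
      ((Ex (fun x : α => if G x = g then (1 : ℝ) else 0) : ℝ) : ℂ) * f g =
        ExC (fun x : α => if G x = g then f g else 0) := by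
    intro g _
    rw [Ex_ofReal, ← ExC_mul_right]
    congr 1
    funext x
    split_ifs <;> simp
  rw [Finset.sum_congr rfl h1, ← ExC_sum]
  congr 1
  funext x
  rw [Finset.sum_ite_eq, if_pos (Finset.mem_range.2 (hG x))]

lemma sum_w {α : Type} [Fintype α] [Nonempty α] (G : α → ℕ) (Y : ℕ) (p : ℝ)
    (hG : ∀ x, G x < Y) (hp : ∀ g, Ex (fun x : α => if G x = g then (1 : ℝ) else 0) ≤ p) :
    ∑ g ∈ Finset.range Y, ‖((Ex (fun x : α => if G x = g then (1 : ℝ) else 0) : ℝ) : ℂ)‖ ^ 2 ≤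
      p := by
  have h0 : ∀ g, 0 ≤ Ex (fun x : α => if G x = g then (1 : ℝ) else 0) := fun g =>
    Ex_nonneg fun x => by split_ifs <;> norm_num
  have h1 : ∑ g ∈ Finset.range Y, Ex (fun x : α => if G x = g then (1 : ℝ) else 0) = 1 := by
    rw [← Ex_sum, ← Ex_const (α := α) 1]
    congr 1
    funext x
    rw [Finset.sum_ite_eq, if_pos (Finset.mem_range.2 (hG x)), Ex_const]
  calc ∑ g ∈ Finset.range Y,
        ‖((Ex (fun x : α => if G x = g then (1 : ℝ) else 0) : ℝ) : ℂ)‖ ^ 2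
      ≤ ∑ g ∈ Finset.range Y, p * Ex (fun x : α => if G x = g then (1 : ℝ) else 0) := by
        refine Finset.sum_le_sum fun g _ => ?_
        rw [Complex.norm_real, Real.norm_eq_abs, abs_of_nonneg (h0 g), sq]
        exact mul_le_mul_of_nonneg_right (hp g) (h0 g)
    _ = p := by rw [← Finset.mul_sum, h1, mul_one]

end L2N

open L2N in
open Pool.Agent.H366.GF (Ex_mono ExC_mul_left) in
open Classical in
/-- [L2] -/
theorem L2 {κ q u e₀ μ M d s : ℕ} (hκ : 0 < κ) (hq : 0 < q) (hu : 0 < u)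
    (he : q * (u + 1) ≤ 2 ^ e₀) (hsm : ∀ p : ℕ, p.Prime → p < 2 ^ κ → p ∣ q) (hM0 : 0 < M)
    (hM : M ≤ 2 ^ μ) {v : Fin s → ℕ} (hv : SlotOK q v) (V : Finset (Fin s)) (i j : ℕ)
    (hj : 2 * j + 2 ≤ (s - V.card) * (d + e₀)) (z : Fin s → Fin (2 ^ d)) :
    ∑ a ∈ (Finset.range (TL s μ e₀ d)).filter (fun a =>
        LowG (TL s μ e₀ d) (2 ^ j) a (M * ∏ i ∈ V, zz q u d v z i) (2 ^ i)),
      ‖TT q u d M v (TL s μ e₀ d) a V z‖ ^ 2 ≤
      2 ^ (2 * μ + 12 + i + s * e₀) * 2 ^ (V.card * (d + e₀) / κ) * GF.tau s (d + e₀) κ := by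
  have hVs : V.card ≤ s := by
    have := Finset.card_le_univ V
    rwa [Fintype.card_fin] at this
  obtain ⟨b, hb⟩ : ∃ b, b = s - V.card := ⟨_, rfl⟩
  have hsb : s = V.card + b := by omega
  have hBc : (Vᶜ : Finset (Fin s)).card = b := by
    rw [Finset.card_compl, Fintype.card_fin, hb]
  rw [← hb] at hj
  obtain ⟨c, hcc⟩ : ∃ c, c = V.card := ⟨_, rfl⟩
  have hb0 : 0 < b := by
    rcases Nat.eq_zero_or_pos b with h | h
    · rw [h, zero_mul] at hj; omega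
    · exact h
  have hne : (Vᶜ : Finset (Fin s)).Nonempty := by
    rw [← Finset.card_pos, hBc]; exact hb0
  obtain ⟨P, hPdef⟩ : ∃ P, P = M * ∏ i ∈ V, zz q u d v z i := ⟨_, rfl⟩
  have hVpos : 0 < ∏ i ∈ V, zz q u d v z i := prod_zz_pos hq hu z V
  have hP0 : 0 < P := by rw [hPdef]; exact Nat.mul_pos hM0 hVpos
  have hVle : ∏ i ∈ V, zz q u d v z i ≤ 2 ^ (c * (d + e₀)) := by
    rw [hcc]; exact prod_zz_le he hv z V
  have hVge : 2 ^ (c * d) ≤ ∏ i ∈ V, zz q u d v z i := by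
    refine le_trans ?_ (le_prod_zz z V)
    rw [hcc, mul_comm V.card d, pow_mul]
    refine Nat.pow_le_pow_left ?_ _
    have : 1 ≤ q * u := Nat.mul_pos hq hu
    nlinarith [Nat.two_pow_pos d]
  have hPle : P ≤ 2 ^ μ * 2 ^ (c * (d + e₀)) := by
    rw [hPdef]; exact Nat.mul_le_mul hM hVle
  have hPge : 2 ^ (c * d) ≤ P := by
    rw [hPdef]
    exact hVge.trans (Nat.le_mul_of_pos_left _ hM0)
  obtain ⟨T, hTdef⟩ : ∃ T, T = TL s μ e₀ d := ⟨_, rfl⟩
  have hT0 : 0 < T := by rw [hTdef]; exact TL_pos _ _ _ _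
  obtain ⟨Y, hYdef⟩ : ∃ Y, Y = 2 ^ (b * (d + e₀)) := ⟨_, rfl⟩
  obtain ⟨lam, hldef⟩ : ∃ lam, lam = 2 ^ (μ + c * (d + e₀) + 2) := ⟨_, rfl⟩
  have hY0 : 0 < Y := by rw [hYdef]; positivity
  have hl0 : 0 < lam := by rw [hldef]; positivity
  have hTY : T = Y * lam := by
    rw [hTdef, TL, hYdef, hldef, ← pow_add]
    congr 1
    rw [hsb, ← hcc]; ring
  have hPT : 4 * Y * P ≤ T := by
    have h1 : 4 * Y * P ≤ 4 * Y * (2 ^ μ * 2 ^ (c * (d + e₀))) := Nat.mul_le_mul_left _ hPle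
    have h2 : 4 * Y * (2 ^ μ * 2 ^ (c * (d + e₀))) = T := by
      rw [hTY, hldef, pow_add, pow_add]; ring
    omega
  have hρ : 2 * (2 ^ j) ^ 2 ≤ Y := by
    rw [hYdef, ← pow_mul]
    calc 2 * 2 ^ (j * 2) = 2 ^ (j * 2 + 1) := by rw [pow_succ]; ring
      _ ≤ 2 ^ (b * (d + e₀)) := Nat.pow_le_pow_right (by norm_num) (by omega)
  -- the divisors of `P`
  have hD : P.divisors.card ≤ 2 ^ μ * 2 ^ (c * (d + e₀) / κ) := by
    rw [hPdef, Nat.divisors_mul]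
    refine (Finset.card_mul_le).trans (Nat.mul_le_mul ((Nat.card_divisors_le_self M).trans hM) ?_)
    refine card_divisors_le hκ hVpos hVle fun p hp hpd => ?_
    by_contra hlt
    have h1 : p ∣ q := hsm p hp (not_le.1 hlt)
    have h2 := Nat.dvd_gcd hpd h1
    rw [(prod_zz_cop hv z V).gcd_eq_one] at h2
    exact hp.one_lt.ne' (Nat.dvd_one.1 h2)
  have hlamP : lam / P ≤ 2 ^ (μ + 2 + c * e₀) := by
    apply Nat.div_le_of_le_mul
    calc lam = 2 ^ (c * d) * 2 ^ (μ + 2 + c * e₀) := by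
          rw [hldef, ← pow_add]; congr 1; ring
      _ ≤ P * 2 ^ (μ + 2 + c * e₀) := Nat.mul_le_mul_right _ hPge
  -- the number of frequencies in an arc
  obtain ⟨K, hKdef⟩ : ∃ K, K = 2 ^ (2 * μ + i + 5 + c * e₀) * 2 ^ (c * (d + e₀) / κ) := ⟨_, rfl⟩
  have hKge : 2 ^ μ * 2 ^ (c * (d + e₀) / κ) * (2 ^ i + 1) * (2 * (lam / P) + 4) ≤ K := by
    have h1 : 2 ^ i + 1 ≤ 2 ^ (i + 1) := by
      rw [pow_succ]; have := Nat.one_le_two_pow (n := i); omega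
    have h2 : 2 * (lam / P) + 4 ≤ 2 ^ (μ + c * e₀ + 4) := by
      have h3 : 2 ^ (μ + 2 + c * e₀) = 4 * 2 ^ (μ + c * e₀) := by
        rw [show μ + 2 + c * e₀ = (μ + c * e₀) + 2 by ring, pow_add]; ring
      have h4 : 2 ^ (μ + c * e₀ + 4) = 16 * 2 ^ (μ + c * e₀) := by
        rw [pow_add]; ring
      have h5 := Nat.one_le_two_pow (n := μ + c * e₀)
      omega
    calc 2 ^ μ * 2 ^ (c * (d + e₀) / κ) * (2 ^ i + 1) * (2 * (lam / P) + 4)
        ≤ 2 ^ μ * 2 ^ (c * (d + e₀) / κ) * 2 ^ (i + 1) * 2 ^ (μ + c * e₀ + 4) :=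
          Nat.mul_le_mul (Nat.mul_le_mul_left _ h1) h2
      _ = 2 ^ (μ + (i + 1) + (μ + c * e₀ + 4)) * 2 ^ (c * (d + e₀) / κ) := by
          rw [pow_add, pow_add]; ring
      _ = K := by rw [hKdef]; congr 2; ring
  -- the sum over the values
  choose G hG hGlt using fun z' : Fin s → Fin (2 ^ d) => exists_g hq he hv Vᶜ hne z'
  rw [hBc] at hGlt
  rw [← hYdef] at hGlt
  obtain ⟨c₁, hc₁⟩ := exists_c (q := q) (u := u) (v := v) M hq V z
  rw [← hPdef] at hc₁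
  rw [← hPdef, ← hTdef]
  obtain ⟨w, hw⟩ : ∃ w : ℕ → ℂ, w = fun g =>
    ((Ex (fun z' : Fin s → Fin (2 ^ d) => if G z' = g then (1 : ℝ) else 0) : ℝ) : ℂ) := ⟨_, rfl⟩
  have hTT : ∀ a : ℕ, ‖TT q u d M v T a V z‖ =
      ‖∑ g ∈ Finset.range Y, w g * e (((a * P % T : ℕ) : ℝ) * (g : ℝ) / (T : ℝ))‖ := by
    intro a
    have h1 : TT q u d M v T a V z = e ((a : ℝ) * (c₁ : ℝ) / (T : ℝ)) *
        ExC (fun z' : Fin s → Fin (2 ^ d) =>
          e (((a * P % T : ℕ) : ℝ) * (G z' : ℝ) / (T : ℝ))) := by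
      rw [TT, ← ExC_mul_left]
      congr 1
      funext z'
      rw [← e_mod T (a * P) (G z') hT0, ← e_add, hc₁ z' (G z') (hG z')]
      congr 1
      push_cast
      ring
    rw [h1, norm_mul, norm_e, one_mul,
      ExC_values G Y hGlt (fun g : ℕ => e (((a * P % T : ℕ) : ℝ) * (g : ℝ) / (T : ℝ))), hw]
  have hls := large_sieve Y lam T hY0 hl0 hTY w
    ((Finset.range T).filter (fun a => LowG T (2 ^ j) a P (2 ^ i)))
    (fun a => a * P % T) K (fun a _ => Nat.mod_lt _ hT0) (by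
      intro k _
      rw [Finset.filter_filter]
      exact (card_arc hl0 hY0 hTY hP0 hPT hρ (by positivity) hD k).trans hKge)
  have hp := sum_w G Y (((2 : ℝ) ^ (b * (d + e₀) / κ)) ^ b / 2 ^ (d * b)) hGlt (by
      intro g
      have h2 := prob_fibre (d := d) hκ hq hu he hsm hv Vᶜ (∏ i ∈ Vᶜ, v i + q * g)
      rw [hBc] at h2
      refine le_trans (Ex_mono fun y => ?_) h2
      by_cases h3 : G y = g
      · rw [if_pos h3, if_pos]
        rw [hG y, h3]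
      · rw [if_neg h3]
        split_ifs <;> norm_num)
  have hw' : ∑ g ∈ Finset.range Y, ‖w g‖ ^ 2 ≤
      ((2 : ℝ) ^ (b * (d + e₀) / κ)) ^ b / 2 ^ (d * b) := by
    rw [hw]; exact hp
  have htau0 : 0 ≤ GF.tau s (d + e₀) κ := by rw [GF.tau]; positivity
  have htau : ((2 : ℝ) ^ (b * (d + e₀) / κ)) ^ b ≤ GF.tau s (d + e₀) κ := by
    rw [GF.tau, ← pow_mul, ← pow_mul]
    refine pow_le_pow_right₀ (by norm_num) ?_
    refine Nat.mul_le_mul (Nat.div_le_div_right (Nat.mul_le_mul_right _ ?_)) ?_ <;> omega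
  have hYp : (Y : ℝ) * (((2 : ℝ) ^ (b * (d + e₀) / κ)) ^ b / 2 ^ (d * b)) ≤
      2 ^ (b * e₀) * GF.tau s (d + e₀) κ := by
    have h1 : (Y : ℝ) = 2 ^ (b * e₀) * 2 ^ (d * b) := by
      rw [hYdef]; push_cast; rw [← pow_add]; congr 1; ring
    have h2 : (0 : ℝ) < 2 ^ (d * b) := by positivity
    have h3 : (Y : ℝ) * (((2 : ℝ) ^ (b * (d + e₀) / κ)) ^ b / 2 ^ (d * b)) =
        2 ^ (b * e₀) * ((2 : ℝ) ^ (b * (d + e₀) / κ)) ^ b := by
      rw [h1]; field_simp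
    rw [h3]
    exact mul_le_mul_of_nonneg_left htau (by positivity)
  have hsum : ∑ a ∈ (Finset.range T).filter (fun a => LowG T (2 ^ j) a P (2 ^ i)),
      ‖TT q u d M v T a V z‖ ^ 2 =
      ∑ a ∈ (Finset.range T).filter (fun a => LowG T (2 ^ j) a P (2 ^ i)),
      ‖∑ g ∈ Finset.range Y, w g * e (((a * P % T : ℕ) : ℝ) * (g : ℝ) / (T : ℝ))‖ ^ 2 :=
    Finset.sum_congr rfl fun a _ => by rw [hTT a]
  rw [hsum]
  refine hls.trans ?_
  have hKr : (K : ℝ) = 2 ^ (2 * μ + i + 5 + c * e₀) * 2 ^ (c * (d + e₀) / κ) := by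
    rw [hKdef]; push_cast; ring
  calc 14 * (K : ℝ) * Y * ∑ g ∈ Finset.range Y, ‖w g‖ ^ 2
      ≤ 14 * (K : ℝ) * Y * (((2 : ℝ) ^ (b * (d + e₀) / κ)) ^ b / 2 ^ (d * b)) :=
        mul_le_mul_of_nonneg_left hw' (by positivity)
    _ = 14 * (K : ℝ) * (Y * (((2 : ℝ) ^ (b * (d + e₀) / κ)) ^ b / 2 ^ (d * b))) := by ring
    _ ≤ 14 * (K : ℝ) * (2 ^ (b * e₀) * GF.tau s (d + e₀) κ) :=
        mul_le_mul_of_nonneg_left hYp (by positivity)
    _ ≤ 2 ^ 4 * (K : ℝ) * (2 ^ (b * e₀) * GF.tau s (d + e₀) κ) := by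
        refine mul_le_mul_of_nonneg_right ?_ (by positivity)
        exact mul_le_mul_of_nonneg_right (by norm_num) (by positivity)
    _ = 2 ^ (4 + (2 * μ + i + 5 + c * e₀) + b * e₀) * 2 ^ (c * (d + e₀) / κ) *
          GF.tau s (d + e₀) κ := by
        rw [hKr, pow_add, pow_add]; ring
    _ ≤ 2 ^ (2 * μ + 12 + i + s * e₀) * 2 ^ (V.card * (d + e₀) / κ) * GF.tau s (d + e₀) κ := by
        rw [← hcc]
        refine mul_le_mul_of_nonneg_right ?_ htau0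
        refine mul_le_mul_of_nonneg_right ?_ (by positivity)
        refine pow_le_pow_right₀ (by norm_num) ?_
        have : s * e₀ = c * e₀ + b * e₀ := by
          rw [hcc, ← add_mul, ← hsb]
        omega

end Pool.Agent.H366.ZC
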