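import Pool.Agent.H366.ZC.Div

/-! # [L34] mean squares over all frequencies -/

set_option autoImplicit false

namespace Pool.Agent.H366.ZC

open Pool.Agent.H366.GF (Ex ExC)

namespace L34N

open Pool.Agent.H366.GF

/-- the square of an average -/
lemma sq_ExC {α : Type} [Fintype α] (f : α → ℂ) :
    (((‖ExC f‖ ^ 2 : ℝ)) : ℂ) = ExC fun x => ExC fun y => f x * (starRingEnd ℂ) (f y) := by
  have h1 : (starRingEnd ℂ) (ExC f) = ExC fun y => (starRingEnd ℂ) (f y) := by
    simp [ExC, map_div₀, map_sum]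
  have h2 : ∀ x, (ExC fun y => f x * (starRingEnd ℂ) (f y)) = f x * (starRingEnd ℂ) (ExC f) := by
    intro x
    rw [ExC_mul_left, h1]
  simp only [h2]
  rw [ExC_mul_right, Complex.mul_conj']
  push_cast
  rfl

lemma tau_mono {s κ : ℕ} (k D : ℕ) (hk : k ≤ s) :
    ((2 : ℝ) ^ (k * D / κ)) ^ k ≤ GF.tau s D κ := by
  unfold GF.tau
  have h1 : k * D / κ ≤ s * D / κ := Nat.div_le_div_right (Nat.mul_le_mul_right D hk)
  calc ((2 : ℝ) ^ (k * D / κ)) ^ k ≤ ((2 : ℝ) ^ (s * D / κ)) ^ k :=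
        pow_le_pow_left₀ (by positivity) (pow_le_pow_right₀ (by norm_num) h1) k
    _ ≤ ((2 : ℝ) ^ (s * D / κ)) ^ s := pow_le_pow_right₀ (one_le_pow₀ (by norm_num)) hk

lemma e_mul_conj (x y : ℝ) : e x * (starRingEnd ℂ) (e y) = e (x - y) := (e_sub x y).symm

/-- orthogonality for two nonnegative integers less than `T` -/
lemma sum_e_nat {T : ℕ} (hT : 0 < T) {m n : ℕ} (hm : m < T) (hn : n < T) :
    ∑ a ∈ Finset.range T, e ((a : ℝ) * (m : ℝ) / (T : ℝ) - (a : ℝ) * (n : ℝ) / (T : ℝ)) =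
      if m = n then (T : ℂ) else 0 := by
  have h1 := sum_e T hT ((m : ℤ) - (n : ℤ))
  have h2 : ∀ a ∈ Finset.range T, e ((a : ℝ) * (m : ℝ) / (T : ℝ) - (a : ℝ) * (n : ℝ) / (T : ℝ)) =
      e ((a : ℝ) * (((m : ℤ) - (n : ℤ) : ℤ) : ℝ) / (T : ℝ)) := by
    intro a _
    congr 1
    push_cast
    ring
  rw [Finset.sum_congr rfl h2, h1]
  by_cases h : m = n
  · subst h
    rw [if_pos rfl, if_pos (by simp)]
  · rw [if_neg h, if_neg]
    intro h3
    have h4 : ((m : ℤ) - (n : ℤ)) = 0 := by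
      refine Int.eq_zero_of_abs_lt_dvd h3 ?_
      rw [abs_lt]
      constructor <;> omega
    omega

lemma ff_lt_TL {s q u d M μ e₀ : ℕ} {v : Fin s → ℕ} (hq : 0 < q) (he : q * (u + 1) ≤ 2 ^ e₀)
    (hM : M ≤ 2 ^ μ) (hv : SlotOK q v) (h : Fin s → Fin (2 ^ d)) :
    ff q u d M v h < TL s μ e₀ d := by
  refine lt_of_le_of_lt (ff_lt hq he hM hv h) ?_
  unfold TL
  exact Nat.pow_lt_pow_right (by norm_num) (by omega)

lemma ff_eq_iff {s q u d M : ℕ} {v : Fin s → ℕ} (hq : 0 < q) (hM0 : 0 < M)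
    (h h' : Fin s → Fin (2 ^ d)) :
    ff q u d M v h = ff q u d M v h' ↔ ∏ i, zz q u d v h i = ∏ i, zz q u d v h' i := by
  have h1 := ff_spec (u := u) (M := M) (v := v) hq h
  have h2 := ff_spec (u := u) (M := M) (v := v) hq h'
  constructor
  · intro h3
    rw [h3, ← h2] at h1
    exact Nat.eq_of_mul_eq_mul_left hM0 h1
  · intro h3
    rw [h3, h2] at h1
    exact (Nat.eq_of_mul_eq_mul_left hq (Nat.add_left_cancel h1)).symm

lemma prod_pw {s q u d : ℕ} {v : Fin s → ℕ} (V : Finset (Fin s)) (z w : Fin s → Fin (2 ^ d)) :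
    ∏ i, zz q u d v (V.piecewise z w) i =
      (∏ i ∈ Finset.univ \ V, zz q u d v w i) * ∏ i ∈ V, zz q u d v z i := by
  rw [← Finset.prod_sdiff (Finset.subset_univ V)]
  congr 1
  · refine Finset.prod_congr rfl fun i hi => ?_
    rw [Finset.mem_sdiff] at hi
    unfold zz
    rw [Finset.piecewise_eq_of_notMem _ _ _ hi.2]
  · refine Finset.prod_congr rfl fun i hi => ?_
    unfold zz
    rw [Finset.piecewise_eq_of_mem _ _ _ hi]

/-- Parseval -/
lemma parseval {T : ℕ} (hT : 0 < T) (g : ℕ → ℂ) :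
    ∑ c ∈ Finset.range T, ‖∑ a ∈ Finset.range T, g a * e ((a : ℝ) * (c : ℝ) / (T : ℝ))‖ ^ 2 =
      (T : ℝ) * ∑ a ∈ Finset.range T, ‖g a‖ ^ 2 := by
  apply Complex.ofReal_injective
  rw [Complex.ofReal_sum]
  have h1 : ∀ c ∈ Finset.range T,
      (((‖∑ a ∈ Finset.range T, g a * e ((a : ℝ) * (c : ℝ) / (T : ℝ))‖ ^ 2 : ℝ)) : ℂ) =
      ∑ a ∈ Finset.range T, ∑ b ∈ Finset.range T, g a * (starRingEnd ℂ) (g b) *
        e ((c : ℝ) * (a : ℝ) / (T : ℝ) - (c : ℝ) * (b : ℝ) / (T : ℝ)) := by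
    intro c _
    push_cast
    rw [← Complex.mul_conj', map_sum, Finset.sum_mul_sum]
    refine Finset.sum_congr rfl fun a _ => Finset.sum_congr rfl fun b _ => ?_
    rw [map_mul, ← e_mul_conj, mul_comm (c : ℝ) (a : ℝ), mul_comm (c : ℝ) (b : ℝ)]
    ring
  rw [Finset.sum_congr rfl h1, Finset.sum_comm]
  push_cast
  rw [Finset.mul_sum]
  refine Finset.sum_congr rfl fun a ha => ?_
  rw [Finset.sum_comm]
  have h2 : ∀ b ∈ Finset.range T, (∑ c ∈ Finset.range T, g a * (starRingEnd ℂ) (g b) *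
      e ((c : ℝ) * (a : ℝ) / (T : ℝ) - (c : ℝ) * (b : ℝ) / (T : ℝ))) =
      if a = b then g a * (starRingEnd ℂ) (g b) * (T : ℂ) else 0 := by
    intro b hb
    rw [← Finset.mul_sum, sum_e_nat hT (Finset.mem_range.1 ha) (Finset.mem_range.1 hb)]
    split_ifs <;> simp
  rw [Finset.sum_congr rfl h2, Finset.sum_ite_eq, if_pos ha, Complex.mul_conj']
  ring

/-- comparison of an average with the sum over the values -/
lemma Ex_fibre {α : Type} [Fintype α] {T : ℕ} (f : α → ℕ) (hf : ∀ x, f x < T) (p : ℝ)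
    (hp : ∀ n, Ex (fun x => if f x = n then (1 : ℝ) else 0) ≤ p) (G : ℕ → ℝ)
    (hG : ∀ n, 0 ≤ G n) : Ex (fun x => G (f x)) ≤ p * ∑ n ∈ Finset.range T, G n := by
  calc Ex (fun x => G (f x)) ≤
      Ex (fun x => ∑ n ∈ Finset.range T, G n * (if f x = n then (1 : ℝ) else 0)) := by
        refine Ex_mono fun x => ?_
        refine le_trans (le_of_eq ?_) (Finset.single_le_sum (f := fun n => G n *
          (if f x = n then (1 : ℝ) else 0)) (fun n _ => mul_nonneg (hG _) (by split_ifs <;> simp))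
          (Finset.mem_range.2 (hf x)))
        simp
    _ = ∑ n ∈ Finset.range T, G n * Ex (fun x => (if f x = n then (1 : ℝ) else 0)) := by
        rw [Ex_sum]
        exact Finset.sum_congr rfl fun n _ => Ex_mul_left _ _
    _ ≤ ∑ n ∈ Finset.range T, G n * p :=
        Finset.sum_le_sum fun n _ => mul_le_mul_of_nonneg_left (hp _) (hG _)
    _ = p * ∑ n ∈ Finset.range T, G n := by rw [← Finset.sum_mul, mul_comm]

end L34N

open L34N in
/-- [L3] -/
theorem L3 {κ q u e₀ μ M d s : ℕ} (hκ : 0 < κ) (hq : 0 < q) (hu : 0 < u)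
    (he : q * (u + 1) ≤ 2 ^ e₀) (hsm : ∀ p : ℕ, p.Prime → p < 2 ^ κ → p ∣ q) (hM0 : 0 < M)
    (hM : M ≤ 2 ^ μ) {v : Fin s → ℕ} (hv : SlotOK q v) (V : Finset (Fin s))
    (z : Fin s → Fin (2 ^ d)) :
    ∑ a ∈ Finset.range (TL s μ e₀ d), ‖TT q u d M v (TL s μ e₀ d) a V z‖ ^ 2 ≤
      GF.tau s (d + e₀) κ * 2 ^ (μ + s * e₀ + 2 + V.card * d) := by
  classical
  set T : ℕ := TL s μ e₀ d with hT
  have hT0 : 0 < T := TL_pos _ _ _ _
  set f : (Fin s → Fin (2 ^ d)) → ℕ := fun z' => ff q u d M v (V.piecewise z z') with hf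
  have hfT : ∀ z', f z' < T := fun z' => ff_lt_TL hq he hM hv _
  -- the identity
  have key : ∑ a ∈ Finset.range T, ‖TT q u d M v T a V z‖ ^ 2 =
      Ex fun z' => Ex fun z'' => if f z' = f z'' then (T : ℝ) else 0 := by
    apply Complex.ofReal_injective
    rw [Complex.ofReal_sum]
    have h1 : ∀ a ∈ Finset.range T, (((‖TT q u d M v T a V z‖ ^ 2 : ℝ)) : ℂ) =
        ExC fun z' => ExC fun z'' =>
          e ((a : ℝ) * (f z' : ℝ) / (T : ℝ) - (a : ℝ) * (f z'' : ℝ) / (T : ℝ)) := by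
      intro a _
      unfold TT
      rw [sq_ExC]
      congr 1
      funext z'
      congr 1
      funext z''
      rw [e_mul_conj]
    rw [Finset.sum_congr rfl h1, ← GF.ExC_sum]
    rw [GF.Ex_ofReal]
    congr 1
    funext z'
    rw [← GF.ExC_sum, GF.Ex_ofReal]
    congr 1
    funext z''
    rw [sum_e_nat hT0 (hfT z') (hfT z'')]
    split_ifs <;> simp
  rw [key]
  -- the fibres
  have hVc : (Finset.univ \ V).card = s - V.card := by
    rw [Finset.card_sdiff_of_subset (Finset.subset_univ V), Finset.card_univ, Fintype.card_fin]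
  have hVs : V.card ≤ s := by
    have := Finset.card_le_univ V
    rwa [Fintype.card_fin] at this
  have hfib : ∀ z', (Ex fun z'' => if f z' = f z'' then (T : ℝ) else 0) ≤
      (T : ℝ) * (GF.tau s (d + e₀) κ / 2 ^ (d * (s - V.card))) := by
    intro z'
    have h1 := prob_fibre (d := d) hκ hq hu he hsm hv (Finset.univ \ V)
      (∏ i ∈ Finset.univ \ V, zz q u d v z' i)
    rw [hVc] at h1
    calc (Ex fun z'' => if f z' = f z'' then (T : ℝ) else 0)
        ≤ Ex fun z'' => (T : ℝ) * (if ∏ i ∈ Finset.univ \ V, zz q u d v z'' i =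
            ∏ i ∈ Finset.univ \ V, zz q u d v z' i then (1 : ℝ) else 0) := by
          refine GF.Ex_mono fun z'' => ?_
          by_cases h : f z' = f z''
          · have h2 := (ff_eq_iff hq hM0 _ _).1 h
            have h3 : ∏ i ∈ Finset.univ \ V, zz q u d v z'' i =
                ∏ i ∈ Finset.univ \ V, zz q u d v z' i := by
              rw [prod_pw, prod_pw] at h2
              exact (Nat.eq_of_mul_eq_mul_right (prod_zz_pos hq hu z V) h2).symm
            rw [if_pos h, if_pos h3, mul_one]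
          · rw [if_neg h]
            split_ifs
            · positivity
            · simp
      _ = (T : ℝ) * Ex fun z'' => (if ∏ i ∈ Finset.univ \ V, zz q u d v z'' i =
            ∏ i ∈ Finset.univ \ V, zz q u d v z' i then (1 : ℝ) else 0) := GF.Ex_mul_left _ _
      _ ≤ (T : ℝ) * (((2 : ℝ) ^ ((s - V.card) * (d + e₀) / κ)) ^ (s - V.card) /
            2 ^ (d * (s - V.card))) := by
          exact mul_le_mul_of_nonneg_left h1 (by positivity)
      _ ≤ (T : ℝ) * (GF.tau s (d + e₀) κ / 2 ^ (d * (s - V.card))) := by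
          refine mul_le_mul_of_nonneg_left ?_ (by positivity)
          exact div_le_div_of_nonneg_right (tau_mono _ _ (Nat.sub_le _ _)) (by positivity)
  have h0 : (Ex fun z' => Ex fun z'' => if f z' = f z'' then (T : ℝ) else 0) ≤
      (T : ℝ) * (GF.tau s (d + e₀) κ / 2 ^ (d * (s - V.card))) := by
    refine (GF.Ex_mono hfib).trans (le_of_eq ?_)
    exact GF.Ex_const _
  refine h0.trans (le_of_eq ?_)
  have hexp : μ + s * (d + e₀) + 2 = (μ + s * e₀ + 2 + V.card * d) + d * (s - V.card) := by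
    obtain ⟨w, hw⟩ : ∃ w, s = V.card + w := ⟨s - V.card, by omega⟩
    have h5 : s - V.card = w := by omega
    rw [h5]
    have h6 : s * (d + e₀) = V.card * d + d * w + s * e₀ := by
      nth_rewrite 1 [hw]
      have h7 : s * e₀ = (V.card + w) * e₀ := by rw [← hw]
      rw [h7]
      ring
    omega
  have hpow : (T : ℝ) = 2 ^ (μ + s * e₀ + 2 + V.card * d) * 2 ^ (d * (s - V.card)) := by
    rw [← pow_add, ← hexp, hT]
    unfold TL
    push_cast
    rfl
  rw [hpow]
  field_simp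

open L34N in
/-- [L4] -/
theorem L4 {κ q u e₀ μ M d s : ℕ} (hκ : 0 < κ) (hq : 0 < q) (hu : 0 < u)
    (he : q * (u + 1) ≤ 2 ^ e₀) (hsm : ∀ p : ℕ, p.Prime → p < 2 ^ κ → p ∣ q) (hM0 : 0 < M)
    (hM : M ≤ 2 ^ μ) {v : Fin s → ℕ} (hv : SlotOK q v) (V : Finset (Fin s)) (g : ℕ → ℂ) :
    Ex (fun z : Fin s → Fin (2 ^ d) =>
        ‖∑ a ∈ Finset.range (TL s μ e₀ d), g a * TT q u d M v (TL s μ e₀ d) a V z‖ ^ 2) ≤
      GF.tau s (d + e₀) κ * 2 ^ (μ + s * e₀ + 2) * ∑ a ∈ Finset.range (TL s μ e₀ d), ‖g a‖ ^ 2 := by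
  classical
  set T : ℕ := TL s μ e₀ d with hT
  have hT0 : 0 < T := TL_pos _ _ _ _
  set f : (Fin s → Fin (2 ^ d)) → ℕ := fun z => ff q u d M v z with hf
  have hfT : ∀ z', f z' < T := fun z' => ff_lt_TL hq he hM hv _
  set G : ℕ → ℝ := fun n => ‖∑ a ∈ Finset.range T, g a * e ((a : ℝ) * (n : ℝ) / (T : ℝ))‖ ^ 2
    with hG
  have h1 : ∀ z : Fin s → Fin (2 ^ d), ‖∑ a ∈ Finset.range T, g a * TT q u d M v T a V z‖ ^ 2 ≤
      Ex fun z' => G (f (V.piecewise z z')) := by
    intro z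
    have h2 : ∑ a ∈ Finset.range T, g a * TT q u d M v T a V z =
        ExC fun z' => ∑ a ∈ Finset.range T, g a *
          e ((a : ℝ) * (f (V.piecewise z z') : ℝ) / (T : ℝ)) := by
      rw [GF.ExC_sum]
      refine Finset.sum_congr rfl fun a _ => ?_
      rw [GF.ExC_mul_left]
      rfl
    rw [h2]
    exact GF.norm_ExC_sq_le _
  have h3 : Ex (fun z : Fin s → Fin (2 ^ d) =>
      ‖∑ a ∈ Finset.range T, g a * TT q u d M v T a V z‖ ^ 2) ≤ Ex fun z => G (f z) := by
    refine (GF.Ex_mono h1).trans (le_of_eq ?_)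
    exact GF.Ex_pw V (fun z => G (f z))
  refine h3.trans ?_
  have h4 := Ex_fibre f hfT (GF.tau s (d + e₀) κ / 2 ^ (d * s)) (by
      intro n
      by_cases hn : ∃ z0, f z0 = n
      · obtain ⟨z0, hz0⟩ := hn
        have h5 := prob_fibre (d := d) hκ hq hu he hsm hv Finset.univ (∏ i, zz q u d v z0 i)
        rw [Finset.card_univ, Fintype.card_fin] at h5
        refine (GF.Ex_mono fun z => ?_).trans h5
        by_cases h : f z = n
        · rw [if_pos h, if_pos]
          exact (ff_eq_iff hq hM0 _ _).1 (h.trans hz0.symm)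
        · rw [if_neg h]
          split_ifs <;> norm_num
      · have h6 : (fun x => if f x = n then (1 : ℝ) else 0) = fun _ => 0 := by
          funext z
          rw [if_neg fun h => hn ⟨z, h⟩]
        rw [h6, GF.Ex_const]
        unfold GF.tau
        positivity) G (fun n => by rw [hG]; positivity)
  refine h4.trans (le_of_eq ?_)
  have h7 := parseval hT0 g
  rw [hG]
  simp only
  rw [h7]
  have hexp : μ + s * (d + e₀) + 2 = (μ + s * e₀ + 2) + d * s := by ring
  have hpow : (T : ℝ) = 2 ^ (μ + s * e₀ + 2) * 2 ^ (d * s) := by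
    rw [← pow_add, ← hexp, hT]
    unfold TL
    push_cast
    rfl
  rw [hpow]
  field_simp

end Pool.Agent.H366.ZC

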