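import Pool.Agent.H366.ZC.Base

/-! # [NONCOP] the probability that slots are not coprime -/

set_option autoImplicit false

namespace Pool.Agent.H366.ZC

open Pool.Agent.H366.GF (Ex ExC)

namespace NoncopN

open Pool.Agent.H366.GF (Ex_mono Ex_nonneg Ex_const Ex_add Ex_mul_left Ex_mul_right Ex_sum Ex_equiv
  Ex_prod)

/-- one entry -/
def ww (q u d v : ℕ) (h : Fin (2 ^ d)) : ℕ := v + q * (u * 2 ^ d + (h : ℕ))

lemma ww_cop {q u d v : ℕ} (hv : Nat.Coprime v q) (h : Fin (2 ^ d)) :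
    Nat.Coprime (ww q u d v h) q := by
  unfold ww
  rw [Nat.coprime_add_mul_left_left]
  exact hv

lemma ww_pos {q u d v : ℕ} (hq : 0 < q) (hu : 0 < u) (h : Fin (2 ^ d)) : 0 < ww q u d v h := by
  unfold ww
  have : 0 < q * (u * 2 ^ d + (h : ℕ)) := by positivity
  omega

/-- the number of entries divisible by a given number -/
lemma card_dvd_le {q u d v p : ℕ} (hp : Nat.Coprime p q)
    [DecidablePred fun h : Fin (2 ^ d) => p ∣ ww q u d v h] :
    ((Finset.univ : Finset (Fin (2 ^ d))).filter (fun h => p ∣ ww q u d v h)).card ≤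
      2 ^ d / p + 1 := by
  rw [← Finset.card_range (2 ^ d / p + 1)]
  apply Finset.card_le_card_of_injOn (fun h : Fin (2 ^ d) => (h : ℕ) / p)
  · intro h _
    simp only [Finset.coe_range, Set.mem_Iio]
    exact Nat.lt_succ_of_le (Nat.div_le_div_right (le_of_lt h.2))
  · intro h hh h' hh' heq
    simp only [Finset.coe_filter, Finset.mem_univ, true_and, Set.mem_ofPred_eq] at hh hh'
    simp only at heq
    -- residues
    have key : ∀ a b : Fin (2 ^ d), (a : ℕ) ≤ b → p ∣ ww q u d v a → p ∣ ww q u d v b →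
        (a : ℕ) / p = (b : ℕ) / p → a = b := by
      intro a b hab ha hb hdiv
      have h1 : ww q u d v b - ww q u d v a = q * ((b : ℕ) - a) := by
        unfold ww
        rw [Nat.mul_sub]
        have h2 : q * (a : ℕ) ≤ q * b := Nat.mul_le_mul_left _ hab
        rw [Nat.mul_add, Nat.mul_add]
        omega
      have h3 : p ∣ q * ((b : ℕ) - a) := by
        rw [← h1]; exact Nat.dvd_sub hb ha
      have h4 : p ∣ (b : ℕ) - a := hp.dvd_of_dvd_mul_left h3
      have h5 : (a : ℕ) % p = (b : ℕ) % p := by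
        have : (a : ℕ) ≡ b [MOD p] := (Nat.modEq_iff_dvd' hab).2 h4
        exact this
      have h6 := Nat.div_add_mod (a : ℕ) p
      have h7 := Nat.div_add_mod (b : ℕ) p
      rw [hdiv, h5, h7] at h6
      exact Fin.ext h6.symm
    rcases le_total (h : ℕ) (h' : ℕ) with hle | hle
    · exact key h h' hle hh hh' heq
    · exact (key h' h hle hh' hh heq.symm).symm

open Classical in
lemma prob_le_aux {q u d v p : ℕ} (hv : Nat.Coprime v q) :
    Ex (fun h : Fin (2 ^ d) => if p ∣ ww q u d v h then (1 : ℝ) else 0) ≤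
      ((2 ^ d / p + 1 : ℕ) : ℝ) / 2 ^ d := by
  by_cases hp : Nat.Coprime p q
  · rw [Ex, Finset.sum_boole, Fintype.card_fin]
    push_cast
    refine div_le_div_of_nonneg_right ?_ (by positivity)
    have h1 := card_dvd_le (u := u) (d := d) (v := v) hp
    exact_mod_cast h1
  · have h0 : ∀ h : Fin (2 ^ d), ¬ p ∣ ww q u d v h := fun h hd =>
      hp ((ww_cop hv h).coprime_dvd_left hd)
    have h2 : (fun h : Fin (2 ^ d) => if p ∣ ww q u d v h then (1 : ℝ) else 0) = fun _ => 0 := by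
      funext c; rw [if_neg (h0 c)]
    rw [h2, Ex_const]
    positivity

open Classical in
/-- small divisors -/
lemma prob_small {q u d v p : ℕ} (hv : Nat.Coprime v q) (hp0 : 0 < p) (hpd : p ≤ 2 ^ d) :
    Ex (fun h : Fin (2 ^ d) => if p ∣ ww q u d v h then (1 : ℝ) else 0) ≤ 2 / p := by
  refine (prob_le_aux (u := u) (d := d) (p := p) hv).trans ?_
  have hp : (0 : ℝ) < p := by exact_mod_cast hp0
  have h2 : (p : ℝ) ≤ 2 ^ d := by exact_mod_cast hpd
  rw [div_le_div_iff₀ (by positivity) hp]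
  push_cast
  have h3 : ((2 ^ d / p : ℕ) : ℝ) * p ≤ 2 ^ d := by
    have := Nat.div_mul_le_self (2 ^ d) p
    exact_mod_cast this
  nlinarith

open Classical in
/-- large divisors -/
lemma prob_large {q u d v p : ℕ} (hv : Nat.Coprime v q) (hpd : 2 ^ d < p) :
    Ex (fun h : Fin (2 ^ d) => if p ∣ ww q u d v h then (1 : ℝ) else 0) ≤ 1 / 2 ^ d := by
  refine (prob_le_aux (u := u) (d := d) (p := p) hv).trans ?_
  rw [Nat.div_eq_of_lt hpd]
  simp

/-- tails of the sum of the reciprocals of the squares -/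
lemma sum_sq (N n : ℕ) (hN : 0 < N) : ∑ p ∈ Finset.Ico N n, (1 : ℝ) / (p : ℝ) ^ 2 ≤ 2 / N := by
  have h : ∀ m : ℕ, ∑ p ∈ Finset.Ico N (N + m), (1 : ℝ) / (p : ℝ) ^ 2 ≤ 2 / N - 2 / (N + m : ℕ) := by
    intro m
    induction m with
    | zero => simp
    | succ m ih =>
      rw [← Nat.add_assoc, Finset.sum_Ico_succ_top (by omega)]
      have hM : (0 : ℝ) < (N + m : ℕ) := by exact_mod_cast Nat.add_pos_left hN m
      have hM1 : (1 : ℝ) ≤ (N + m : ℕ) := by exact_mod_cast (show 1 ≤ N + m by omega)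
      have h1 : (1 : ℝ) / ((N + m : ℕ) : ℝ) ^ 2 ≤ 2 / (N + m : ℕ) - 2 / ((N + m : ℕ) + 1) := by
        rw [div_sub_div _ _ hM.ne' (by positivity), div_le_div_iff₀ (by positivity) (by positivity)]
        nlinarith
      have h2 : ((N + m + 1 : ℕ) : ℝ) = ((N + m : ℕ) : ℝ) + 1 := by push_cast; ring
      rw [h2]
      linarith
  rcases le_total n N with hle | hle
  · rw [Finset.Ico_eq_empty_of_le hle, Finset.sum_empty]; positivity
  · obtain ⟨m, rfl⟩ := Nat.exists_eq_add_of_le hle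
    have h1 := h m
    have h2 : (0 : ℝ) ≤ 2 / (N + m : ℕ) := by positivity
    linarith

/-- large prime factors -/
def bf (d w : ℕ) : Finset ℕ := w.primeFactors.filter (fun p => 2 ^ d < p)

lemma card_bf_le {d e₀ w : ℕ} (hd : 0 < d) (hw : 0 < w) (hle : w ≤ 2 ^ (d + e₀)) :
    (bf d w).card ≤ e₀ + 1 := by
  have h1 : ∏ p ∈ bf d w, p ∣ w :=
    (Finset.prod_dvd_prod_of_subset _ _ _ (Finset.filter_subset _ _)).trans
      (Nat.prod_primeFactors_dvd w)
  have h2 : (2 ^ d) ^ (bf d w).card ≤ ∏ p ∈ bf d w, p :=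
    Finset.pow_card_le_prod _ _ _ fun p hp => (Finset.mem_filter.1 hp).2.le
  have h3 : 2 ^ (d * (bf d w).card) ≤ 2 ^ (d + e₀) := by
    rw [pow_mul]
    exact h2.trans ((Nat.le_of_dvd hw h1).trans hle)
  have h4 : d * (bf d w).card ≤ d + e₀ := (Nat.pow_le_pow_iff_right (by norm_num)).1 h3
  by_contra hcon
  push Not at hcon
  have h5 : d * (e₀ + 2) ≤ d * (bf d w).card := Nat.mul_le_mul_left _ hcon
  have h6 : d * (e₀ + 2) = d * e₀ + 2 * d := by ring
  have h7 : e₀ ≤ d * e₀ := Nat.le_mul_of_pos_left _ hd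
  omega

open Classical in
/-- two entries -/
theorem prob_two {κ q e₀ u d v v' : ℕ} (hq : 0 < q) (hu : 0 < u) (hqe : q * (u + 1) ≤ 2 ^ e₀)
    (hsm : ∀ p : ℕ, p.Prime → p < 2 ^ κ → p ∣ q) (hvle : v ≤ q) (hv : Nat.Coprime v q)
    (hv' : Nat.Coprime v' q) :
    Ex (fun h : Fin (2 ^ d) => Ex (fun h' : Fin (2 ^ d) =>
      if Nat.Coprime (ww q u d v h) (ww q u d v' h') then (0 : ℝ) else 1)) ≤
      8 / 2 ^ κ + ((e₀ : ℝ) + 1) / 2 ^ d := by
  rcases Nat.eq_zero_or_pos d with hd | hd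
  · subst hd
    have h1 : Ex (fun h : Fin (2 ^ 0) => Ex (fun h' : Fin (2 ^ 0) =>
      if Nat.Coprime (ww q u 0 v h) (ww q u 0 v' h') then (0 : ℝ) else 1)) ≤ 1 := by
      refine (Ex_mono (g := fun _ => 1) fun h => ?_).trans (le_of_eq (Ex_const 1))
      refine (Ex_mono (g := fun _ => 1) fun h' => ?_).trans (le_of_eq (Ex_const 1))
      split_ifs <;> norm_num
    have h2 : (0 : ℝ) ≤ 8 / 2 ^ κ := by positivity
    have h3 : (0 : ℝ) ≤ e₀ := Nat.cast_nonneg _
    have h4 : ((e₀ : ℝ) + 1) / 2 ^ 0 = (e₀ : ℝ) + 1 := by simp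
    rw [h4]
    linarith
  have hwle : ∀ h : Fin (2 ^ d), ww q u d v h ≤ 2 ^ (d + e₀) := by
    intro h
    have h2 : (h : ℕ) + 1 ≤ 2 ^ d := h.2
    have h3 : ww q u d v h ≤ q * (u + 1) * 2 ^ d := by
      unfold ww
      nlinarith [Nat.mul_le_mul_left q h2]
    refine h3.trans ?_
    rw [pow_add, mul_comm]
    exact Nat.mul_le_mul_left _ hqe
  -- pointwise bound
  have hpt : ∀ h h' : Fin (2 ^ d),
      (if Nat.Coprime (ww q u d v h) (ww q u d v' h') then (0 : ℝ) else 1) ≤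
      (∑ p ∈ Finset.Ico (2 ^ κ) (2 ^ d + 1),
        (if p ∣ ww q u d v h then (1 : ℝ) else 0) * (if p ∣ ww q u d v' h' then (1 : ℝ) else 0)) +
      ∑ p ∈ bf d (ww q u d v h), (if p ∣ ww q u d v' h' then (1 : ℝ) else 0) := by
    intro h h'
    have hn1 : 0 ≤ ∑ p ∈ Finset.Ico (2 ^ κ) (2 ^ d + 1),
        (if p ∣ ww q u d v h then (1 : ℝ) else 0) *
          (if p ∣ ww q u d v' h' then (1 : ℝ) else 0) :=
      Finset.sum_nonneg fun e _ => by split_ifs <;> norm_num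
    have hn2 : 0 ≤ ∑ p ∈ bf d (ww q u d v h), (if p ∣ ww q u d v' h' then (1 : ℝ) else 0) :=
      Finset.sum_nonneg fun e _ => by split_ifs <;> norm_num
    split_ifs with hcop
    · positivity
    · obtain ⟨p, hp, hp1, hp2⟩ := Nat.Prime.not_coprime_iff_dvd.1 hcop
      have hκ : 2 ^ κ ≤ p := by
        by_contra hlt
        push Not at hlt
        have h1 := hsm p hp hlt
        have h2 := Nat.dvd_gcd hp1 h1
        rw [(ww_cop hv h : Nat.gcd _ _ = 1)] at h2
        exact hp.one_lt.ne' (Nat.dvd_one.1 h2)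
      rcases le_or_gt p (2 ^ d) with hle | hgt
      · have h1 := Finset.single_le_sum (f := fun p =>
            (if p ∣ ww q u d v h then (1 : ℝ) else 0) *
              (if p ∣ ww q u d v' h' then (1 : ℝ) else 0)) (s := Finset.Ico (2 ^ κ) (2 ^ d + 1))
            (fun e _ => by split_ifs <;> norm_num)
            (Finset.mem_Ico.2 ⟨hκ, Nat.lt_succ_of_le hle⟩)
        simp only [if_pos hp1, if_pos hp2, mul_one] at h1
        linarith
      · have hmem : p ∈ bf d (ww q u d v h) := by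
          unfold bf
          rw [Finset.mem_filter, Nat.mem_primeFactors]
          exact ⟨⟨hp, hp1, (ww_pos hq hu h).ne'⟩, hgt⟩
        have h1 := Finset.single_le_sum (f := fun p => if p ∣ ww q u d v' h' then (1 : ℝ) else 0)
          (s := bf d (ww q u d v h)) (fun P _ => by split_ifs <;> norm_num) hmem
        simp only [if_pos hp2] at h1
        linarith
  calc _ ≤ Ex (fun h : Fin (2 ^ d) => Ex (fun h' : Fin (2 ^ d) =>
        (∑ p ∈ Finset.Ico (2 ^ κ) (2 ^ d + 1),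
        (if p ∣ ww q u d v h then (1 : ℝ) else 0) * (if p ∣ ww q u d v' h' then (1 : ℝ) else 0)) +
      ∑ p ∈ bf d (ww q u d v h), (if p ∣ ww q u d v' h' then (1 : ℝ) else 0))) :=
        Ex_mono fun h => Ex_mono fun h' => hpt h h'
    _ = Ex (fun h : Fin (2 ^ d) => (∑ p ∈ Finset.Ico (2 ^ κ) (2 ^ d + 1),
          (if p ∣ ww q u d v h then (1 : ℝ) else 0) *
          Ex (fun h' : Fin (2 ^ d) => (if p ∣ ww q u d v' h' then (1 : ℝ) else 0))) +
        ∑ p ∈ bf d (ww q u d v h),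
          Ex (fun h' : Fin (2 ^ d) => (if p ∣ ww q u d v' h' then (1 : ℝ) else 0))) := by
        congr 1
        funext h
        rw [Ex_add, Ex_sum, Ex_sum]
        congr 1
        exact Finset.sum_congr rfl fun p _ => Ex_mul_left _ _
    _ ≤ Ex (fun h : Fin (2 ^ d) => (∑ p ∈ Finset.Ico (2 ^ κ) (2 ^ d + 1),
          (if p ∣ ww q u d v h then (1 : ℝ) else 0) * (2 / p)) +
            ((e₀ : ℝ) + 1) / 2 ^ d) := by
        refine Ex_mono fun h => add_le_add ?_ ?_
        · refine Finset.sum_le_sum fun p hp => ?_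
          refine mul_le_mul_of_nonneg_left ?_ (by split_ifs <;> norm_num)
          have hp' := Finset.mem_Ico.1 hp
          exact prob_small hv' (lt_of_lt_of_le (Nat.two_pow_pos κ) hp'.1)
            (Nat.le_of_lt_succ hp'.2)
        · have h1 : ∀ p ∈ bf d (ww q u d v h),
              Ex (fun h' : Fin (2 ^ d) => (if p ∣ ww q u d v' h' then (1 : ℝ) else 0)) ≤
                1 / 2 ^ d := by
            intro p hp
            unfold bf at hp
            exact prob_large hv' (Finset.mem_filter.1 hp).2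
          refine (Finset.sum_le_sum h1).trans ?_
          rw [Finset.sum_const, nsmul_eq_mul, mul_one_div]
          refine div_le_div_of_nonneg_right ?_ (by positivity)
          have h2 := card_bf_le hd (ww_pos hq hu h) (hwle h)
          exact_mod_cast h2
    _ = (∑ p ∈ Finset.Ico (2 ^ κ) (2 ^ d + 1),
          Ex (fun h : Fin (2 ^ d) => (if p ∣ ww q u d v h then (1 : ℝ) else 0)) * (2 / p)) +
            ((e₀ : ℝ) + 1) / 2 ^ d := by
        rw [Ex_add, Ex_const, Ex_sum]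
        congr 1
        exact Finset.sum_congr rfl fun p _ => Ex_mul_right _ _
    _ ≤ (∑ p ∈ Finset.Ico (2 ^ κ : ℕ) (2 ^ d + 1 : ℕ), 4 * ((1 : ℝ) / ((p : ℕ) : ℝ) ^ 2)) +
            ((e₀ : ℝ) + 1) / 2 ^ d := by
        refine add_le_add (Finset.sum_le_sum fun p hp => ?_) le_rfl
        have hp' := Finset.mem_Ico.1 hp
        have hp0 : 0 < p := lt_of_lt_of_le (Nat.two_pow_pos κ) hp'.1
        have h1 := prob_small (u := u) (d := d) hv hp0 (Nat.le_of_lt_succ hp'.2)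
        have hpR : (0 : ℝ) < p := by exact_mod_cast hp0
        calc _ ≤ (2 / (p : ℝ)) * (2 / p) := mul_le_mul_of_nonneg_right h1 (by positivity)
          _ = 4 * ((1 : ℝ) / (p : ℝ) ^ 2) := by field_simp; norm_num
    _ ≤ 8 / 2 ^ κ + ((e₀ : ℝ) + 1) / 2 ^ d := by
        refine add_le_add ?_ le_rfl
        rw [← Finset.mul_sum]
        have h1 := sum_sq (2 ^ κ) (2 ^ d + 1) (Nat.two_pow_pos κ)
        push_cast at h1
        calc 4 * ∑ p ∈ Finset.Ico (2 ^ κ : ℕ) (2 ^ d + 1 : ℕ), (1 : ℝ) / ((p : ℕ) : ℝ) ^ 2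
            ≤ 4 * (2 / 2 ^ κ) := by linarith
          _ = 8 / 2 ^ κ := by ring

lemma Ex_coord {σ S : Type} [Fintype σ] [DecidableEq σ] [Fintype S] [Nonempty S] (i : σ)
    (f : S → ℝ) : Ex (fun z : σ → S => f (z i)) = Ex f := by
  have h1 := Ex_equiv (Equiv.funSplitAt i S) (fun p => f p.1)
  have h2 : (fun z : σ → S => f (z i)) =
    fun z => (fun p : S × ({j // j ≠ i} → S) => f p.1) (Equiv.funSplitAt i S z) := rfl
  rw [h2, h1, Ex_prod]
  congr 1
  funext z
  exact Ex_const (α := {j // j ≠ i} → S) (f z)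

end NoncopN

open NoncopN

/-- the multipliers do not matter for coprimality -/
theorem cop_iff {κ Λ μ q e₀ u : ℕ} {M : Fin 3 → ℕ} (hC : Ctx κ Λ μ q e₀ u M) {s d : ℕ}
    {v : Fin 3 → Fin s → ℕ} (hv : ∀ X, SlotOK q (v X)) (V₀ V₁ : Finset (Fin s))
    (z₀ z₁ : Fin s → Fin (2 ^ d)) :
    Nat.Coprime (M 0 * ∏ i ∈ V₀, zz q u d (v 0) z₀ i) (M 1 * ∏ i ∈ V₁, zz q u d (v 1) z₁ i) ↔
      Nat.Coprime (∏ i ∈ V₀, zz q u d (v 0) z₀ i) (∏ i ∈ V₁, zz q u d (v 1) z₁ i) := by
  have hM : ∀ (X : Fin 3) (w : ℕ), Nat.Coprime w q → Nat.Coprime (M X) w := by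
    intro X w hw
    apply Nat.Coprime.symm
    by_contra hcon
    obtain ⟨p, hp, hp1, hp2⟩ := Nat.Prime.not_coprime_iff_dvd.1 hcon
    have h1 := hC.smooth X p hp hp2
    have h2 := Nat.dvd_gcd hp1 h1
    rw [(hw : Nat.gcd _ _ = 1)] at h2
    exact hp.one_lt.ne' (Nat.dvd_one.1 h2)
  constructor
  · intro h
    exact (h.coprime_dvd_left (Dvd.intro_left _ rfl)).coprime_dvd_right (Dvd.intro_left _ rfl)
  · intro h
    refine Nat.Coprime.mul_left (Nat.Coprime.mul_right hC.cop ?_) (Nat.Coprime.mul_right ?_ h)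
    · exact hM 0 _ (prod_zz_cop (hv 1) z₁ V₁)
    · exact (hM 1 _ (prod_zz_cop (hv 0) z₀ V₀)).symm

open Classical in
/-- [NONCOP] -/
theorem noncop {κ Λ μ q e₀ u : ℕ} {M : Fin 3 → ℕ} (hC : Ctx κ Λ μ q e₀ u M) {k s d : ℕ}
    {v : Fin 3 → Fin s → ℕ} (hv : ∀ X, SlotOK q (v X)) (V : Fin 3 → Finset (Fin s))
    (hV : ∀ X, (V X).card ≤ k) :
    Ex (fun z₀ : Fin s → Fin (2 ^ d) => Ex (fun z₁ : Fin s → Fin (2 ^ d) =>
      if Nat.Coprime (∏ i ∈ V 0, zz q u d (v 0) z₀ i) (∏ i ∈ V 1, zz q u d (v 1) z₁ i)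
      then (0 : ℝ) else 1)) ≤ (k : ℝ) ^ 2 * (8 / 2 ^ κ + ((e₀ : ℝ) + 1) / 2 ^ d) := by
  have hpt : ∀ z₀ z₁ : Fin s → Fin (2 ^ d),
      (if Nat.Coprime (∏ i ∈ V 0, zz q u d (v 0) z₀ i) (∏ i ∈ V 1, zz q u d (v 1) z₁ i) then
        (0 : ℝ) else 1) ≤ ∑ i ∈ V 0, ∑ j ∈ V 1,
        (if Nat.Coprime (ww q u d (v 0 i) (z₀ i)) (ww q u d (v 1 j) (z₁ j)) then (0 : ℝ)
          else 1) := by
    intro z₀ z₁
    have hnn : ∀ i j, (0 : ℝ) ≤
      (if Nat.Coprime (ww q u d (v 0 i) (z₀ i)) (ww q u d (v 1 j) (z₁ j)) then (0 : ℝ)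
        else 1) := by
      intro i j; split_ifs <;> norm_num
    split_ifs with h
    · exact Finset.sum_nonneg fun i _ => Finset.sum_nonneg fun j _ => hnn i j
    · have : ∃ i ∈ V 0, ∃ j ∈ V 1,
          ¬ Nat.Coprime (ww q u d (v 0 i) (z₀ i)) (ww q u d (v 1 j) (z₁ j)) := by
        by_contra hcon
        push Not at hcon
        exact h (Nat.Coprime.prod_left fun i hi => Nat.Coprime.prod_right fun j hj =>
          hcon i hi j hj)
      obtain ⟨i, hi, j, hj, hij⟩ := this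
      calc (1 : ℝ) = (if Nat.Coprime (ww q u d (v 0 i) (z₀ i)) (ww q u d (v 1 j) (z₁ j)) then
            (0 : ℝ) else 1) := (if_neg hij).symm
        _ ≤ ∑ j ∈ V 1, (if Nat.Coprime (ww q u d (v 0 i) (z₀ i)) (ww q u d (v 1 j) (z₁ j)) then
            (0 : ℝ) else 1) := Finset.single_le_sum (f := fun j =>
              (if Nat.Coprime (ww q u d (v 0 i) (z₀ i)) (ww q u d (v 1 j) (z₁ j)) then
              (0 : ℝ) else 1)) (fun j _ => hnn i j) hj
        _ ≤ _ := Finset.single_le_sum (f := fun i => ∑ j ∈ V 1,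
              (if Nat.Coprime (ww q u d (v 0 i) (z₀ i)) (ww q u d (v 1 j) (z₁ j)) then
              (0 : ℝ) else 1)) (fun i _ => Finset.sum_nonneg fun j _ => hnn i j) hi
  refine (Pool.Agent.H366.GF.Ex_mono fun z₀ => Pool.Agent.H366.GF.Ex_mono fun z₁ =>
    hpt z₀ z₁).trans ?_
  simp only [Pool.Agent.H366.GF.Ex_sum]
  have h2 : ∀ i j, Ex (fun z₀ : Fin s → Fin (2 ^ d) => Ex (fun z₁ : Fin s → Fin (2 ^ d) =>
      (if Nat.Coprime (ww q u d (v 0 i) (z₀ i)) (ww q u d (v 1 j) (z₁ j)) then (0 : ℝ)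
        else 1))) ≤ 8 / 2 ^ κ + ((e₀ : ℝ) + 1) / 2 ^ d := by
    intro i j
    have h3 := prob_two (d := d) hC.qpos hC.upos hC.qe hC.small ((hv 0).le i) ((hv 0).cop i)
      ((hv 1).cop j)
    refine le_trans (le_of_eq ?_) h3
    rw [← Ex_coord i (fun c : Fin (2 ^ d) => Ex (fun c' : Fin (2 ^ d) =>
      if Nat.Coprime (ww q u d (v 0 i) c) (ww q u d (v 1 j) c') then (0 : ℝ) else 1))]
    congr 1; funext z₀
    exact Ex_coord j (fun c' : Fin (2 ^ d) =>
      if Nat.Coprime (ww q u d (v 0 i) (z₀ i)) (ww q u d (v 1 j) c') then (0 : ℝ) else 1)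
  refine (Finset.sum_le_sum fun i _ => Finset.sum_le_sum fun j _ => h2 i j).trans ?_
  rw [Finset.sum_const, Finset.sum_const, nsmul_eq_mul, nsmul_eq_mul, ← mul_assoc, sq]
  refine mul_le_mul_of_nonneg_right ?_ (by positivity)
  exact mul_le_mul (by exact_mod_cast hV 0) (by exact_mod_cast hV 1) (by positivity)
    (by positivity)

end Pool.Agent.H366.ZC
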