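import Pool.Agent.H366.ZC.AIa
import Pool.Agent.H366.ZC.L1
import Pool.Agent.H366.ZC.L2
import Pool.Agent.H366.ZC.L34
import Pool.Agent.H366.ZC.Noncop

/-! # The minor arcs over the integers -/

set_option autoImplicit false

namespace Pool.Agent.H366.ZC

open Pool.Agent.H366.GF (Ex ExC Ex_mono Ex_nonneg Ex_const ExC_const Ex_add Ex_sub Ex_mul_left
  Ex_mul_right ExC_mul_left ExC_mul_right Ex_sum ExC_sum Ex_comm ExC_comm Ex_equiv ExC_equiv Ex_prod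
  norm_ExC_le Ex_sq_le norm_ExC_sq_le Ex_ofReal Ex_pw pw_pw card_ne card_neC tau Ex_split Ex_split')

namespace AIN

lemma tau_bound {k s D c₀ : ℕ} (hk : k ≤ s) (hs : 0 < s) (hc : 320 * s ^ 2 ≤ c₀) :
    tau s D c₀ ^ 4 * 2 ^ (k * D / c₀) ≤ 2 ^ (D / 64) := by
  unfold tau
  rw [← pow_mul, ← pow_mul, ← pow_add]
  refine pow_le_pow_right₀ (by norm_num) ?_
  have h1 : s * D / c₀ * s * 4 ≤ (4 * s ^ 2 * D) / c₀ := by
    calc s * D / c₀ * s * 4 = (4 * s) * (s * D / c₀) := by ring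
      _ ≤ (4 * s) * (s * D) / c₀ := Nat.mul_div_le_mul_div_assoc _ _ _
      _ = (4 * s ^ 2 * D) / c₀ := by congr 1; ring
  have h2 : (4 * s ^ 2 * D) / c₀ + k * D / c₀ ≤ (4 * s ^ 2 * D + k * D) / c₀ :=
    Nat.add_div_le_add_div _ _ _
  have h3 : 4 * s ^ 2 * D + k * D ≤ (5 * s ^ 2) * D := by
    have : k ≤ s ^ 2 := hk.trans (Nat.le_self_pow (by norm_num) s)
    nlinarith
  have h4 : (4 * s ^ 2 * D + k * D) / c₀ ≤ (5 * s ^ 2 * D) / (320 * s ^ 2) :=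
    (Nat.div_le_div_right h3).trans (Nat.div_le_div_left hc (by positivity))
  have h5 : (5 * s ^ 2 * D) / (320 * s ^ 2) = D / 64 := by
    have e1 : 5 * s ^ 2 * D = (5 * s ^ 2) * D := rfl
    have e2 : 320 * s ^ 2 = (5 * s ^ 2) * 64 := by ring
    rw [e1, e2, Nat.mul_div_mul_left _ _ (by positivity)]
  have h6 : s * D / c₀ * (s * 4) = s * D / c₀ * s * 4 := by ring
  omega

/-- one of the two common divisors is small -/
lemma gcd_half {r P₀ P₁ j : ℕ} (hr : 0 < r) (hj : r ≤ 2 ^ (j + 1)) (hcop : Nat.Coprime P₀ P₁) :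
    Nat.gcd r P₀ ≤ 2 ^ ((j + 2) / 2) ∨ Nat.gcd r P₁ ≤ 2 ^ ((j + 2) / 2) := by
  by_contra hcon
  push Not at hcon
  have h1 : Nat.gcd r P₀ * Nat.gcd r P₁ ∣ r := by
    refine Nat.Coprime.mul_dvd_of_dvd_of_dvd ?_ (Nat.gcd_dvd_left _ _) (Nat.gcd_dvd_left _ _)
    exact Nat.Coprime.coprime_dvd_left (Nat.gcd_dvd_right _ _)
      (Nat.Coprime.coprime_dvd_right (Nat.gcd_dvd_right _ _) hcop)
  have h2 := Nat.le_of_dvd hr h1
  have h3 : 2 ^ ((j + 2) / 2) * 2 ^ ((j + 2) / 2) < Nat.gcd r P₀ * Nat.gcd r P₁ :=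
    Nat.mul_lt_mul'' hcon.1 hcon.2
  have h4 : 2 ^ (j + 1) ≤ 2 ^ ((j + 2) / 2) * 2 ^ ((j + 2) / 2) := by
    rw [← pow_add]
    exact Nat.pow_le_pow_right (by norm_num) (by omega)
  omega

lemma Low_mono {T ρ ρ' a : ℕ} (h : ρ ≤ ρ') (hl : Low T ρ a) : Low T ρ' a := by
  obtain ⟨r, b, h1, h2, h3, h4⟩ := hl
  exact ⟨r, b, h1, h2.trans h, h3, h4.trans (by exact_mod_cast h)⟩

/-- the dyadic level -/
lemma exists_level {T a m₀ J : ℕ} (hm : ¬ Low T (2 ^ m₀) a) (hJ : Low T (2 ^ J) a) :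
    ∃ j, m₀ ≤ j ∧ j < J ∧ ¬ Low T (2 ^ j) a ∧ Low T (2 ^ (j + 1)) a := by
  classical
  have hex : ∃ n, Low T (2 ^ n) a := ⟨J, hJ⟩
  have h1 := Nat.find_spec hex
  have h2 : ∀ m < Nat.find hex, ¬ Low T (2 ^ m) a := fun m hm => Nat.find_min hex hm
  have h3 : m₀ < Nat.find hex := by
    by_contra h
    push Not at h
    exact hm (Low_mono (Nat.pow_le_pow_right (by norm_num) h) h1)
  have h4 : Nat.find hex ≤ J := Nat.find_min' hex hJ
  refine ⟨Nat.find hex - 1, by omega, by omega, h2 _ (by omega), ?_⟩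
  rw [Nat.sub_add_cancel (by omega)]
  exact h1

open Classical in
/-- the mean square over the minor arcs -/
lemma minorZ {κ Λ μ q e₀ u : ℕ} {M : Fin 3 → ℕ} (hC : Ctx κ Λ μ q e₀ u M) {k s : ℕ}
    (hs : s = 4 * k + 4) {d : ℕ} (hd : 8 ≤ d) {v : Fin 3 → Fin s → ℕ}
    (hv : ∀ X, SlotOK q (v X)) (V : Fin 3 → Finset (Fin s)) (hV : ∀ X, (V X).card ≤ k) :
    Ex (fun z₀ : Fin s → Fin (2 ^ d) => Ex (fun z₁ : Fin s → Fin (2 ^ d) =>
      if Nat.Coprime (∏ i ∈ V 0, zz q u d (v 0) z₀ i) (∏ i ∈ V 1, zz q u d (v 1) z₁ i) then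
        ∑ a ∈ (Finset.range (TL s μ e₀ d)).filter (fun a => ¬ Low (TL s μ e₀ d) (2 ^ (d / 8)) a),
          ‖TT q u d (M 0) (v 0) (TL s μ e₀ d) a (V 0) z₀‖ ^ 2 *
            ‖TT q u d (M 1) (v 1) (TL s μ e₀ d) a (V 1) z₁‖ ^ 2
      else 0)) ≤
    tau s (d + e₀) κ ^ 3 * 2 ^ (k * (d + e₀) / κ) * 2 ^ (3 * μ + 27 + 2 * (s * e₀)) *
      ((μ + s * (d + e₀) + 3 : ℕ) : ℝ) / 2 ^ (d / 16) := by
  set T := TL s μ e₀ d with hT
  set D := d + e₀ with hD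
  set τ := tau s D κ with hτ
  have hτ0 : 0 < τ := by rw [hτ, tau]; positivity
  set L : ℝ := ((μ + s * D + 3 : ℕ) : ℝ) with hL
  have hL1 : 1 ≤ L := by
    rw [hL]; exact_mod_cast (by omega)
  set T₀ : ℕ → (Fin s → Fin (2 ^ d)) → ℝ :=
    fun a z => ‖TT q u d (M 0) (v 0) T a (V 0) z‖ ^ 2 with hT₀
  set T₁ : ℕ → (Fin s → Fin (2 ^ d)) → ℝ :=
    fun a z => ‖TT q u d (M 1) (v 1) T a (V 1) z‖ ^ 2 with hT₁
  have hT₀0 : ∀ a z, 0 ≤ T₀ a z := fun a z => by rw [hT₀]; positivity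
  have hT₁0 : ∀ a z, 0 ≤ T₁ a z := fun a z => by rw [hT₁]; positivity
  obtain ⟨J, hJ⟩ : ∃ J : ℕ, J = (k + 1) * d := ⟨_, rfl⟩
  have hJd : d ≤ J := by rw [hJ]; exact Nat.le_mul_of_pos_left _ (by omega)
  obtain ⟨m₀, hm₀⟩ : ∃ m₀ : ℕ, m₀ = d / 8 := ⟨_, rfl⟩
  have hJD : ∀ X, 2 * (J - 1 + 1) + 2 ≤ (s - (V X).card) * D := by
    intro X
    have h1 : 3 * k + 4 ≤ s - (V X).card := by have := hV X; omega
    have h2 : (3 * k + 4) * d ≤ (s - (V X).card) * D := Nat.mul_le_mul h1 (by omega)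
    have h3 : J - 1 + 1 = J := by omega
    rw [h3, hJ]
    have h4 : (3 * k + 4) * d = 3 * (k * d) + 4 * d := by ring
    have h5 : (k + 1) * d = k * d + d := by ring
    omega
  -- L1
  have hL1₀ : ∀ j, j ≤ J → ∀ a ∈ Finset.range T, ¬ Low T (2 ^ j) a → Ex (T₀ a) ≤
      τ ^ 2 * (1024 * L) * 2 ^ (μ + s * e₀) / 2 ^ j := by
    intro j hj a ha hl
    exact L1 hC.κpos hC.qpos hC.upos hC.qe hC.small (hC.Mpos 0) (hC.Mle 0) (hv 0) hs (V 0)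
      (by have := hV 0; omega) a j (Finset.mem_range.1 ha) (by omega) hl
  have hL1₁ : ∀ j, j ≤ J → ∀ a ∈ Finset.range T, ¬ Low T (2 ^ j) a → Ex (T₁ a) ≤
      τ ^ 2 * (1024 * L) * 2 ^ (μ + s * e₀) / 2 ^ j := by
    intro j hj a ha hl
    exact L1 hC.κpos hC.qpos hC.upos hC.qe hC.small (hC.Mpos 1) (hC.Mle 1) (hv 1) hs (V 1)
      (by have := hV 1; omega) a j (Finset.mem_range.1 ha) (by omega) hl
  -- L2
  have hpow : ∀ X (i : ℕ), (2 : ℝ) ^ (2 * μ + 12 + i + s * e₀) * 2 ^ ((V X).card * D / κ) * τ ≤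
      2 ^ (2 * μ + 12 + i + s * e₀) * 2 ^ (k * D / κ) * τ := by
    intro X i
    have h1 : (2 : ℝ) ^ ((V X).card * D / κ) ≤ 2 ^ (k * D / κ) :=
      pow_le_pow_right₀ (by norm_num) (Nat.div_le_div_right (Nat.mul_le_mul_right _ (hV X)))
    exact mul_le_mul_of_nonneg_right (mul_le_mul_of_nonneg_left h1 (by positivity)) hτ0.le
  have hL2₀ : ∀ j, j < J → ∀ z, ∑ a ∈ (Finset.range T).filter (fun a =>
        LowG T (2 ^ (j + 1)) a (M 0 * ∏ i ∈ V 0, zz q u d (v 0) z i) (2 ^ ((j + 2) / 2))), T₀ a z ≤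
      2 ^ (2 * μ + 12 + (j + 2) / 2 + s * e₀) * 2 ^ (k * D / κ) * τ := by
    intro j hj z
    refine (L2 hC.κpos hC.qpos hC.upos hC.qe hC.small (hC.Mpos 0) (hC.Mle 0) (hv 0) (V 0)
      ((j + 2) / 2) (j + 1) ?_ z).trans (hpow 0 _)
    have := hJD 0
    exact le_trans (by omega) this
  have hL2₁ : ∀ j, j < J → ∀ z, ∑ a ∈ (Finset.range T).filter (fun a =>
        LowG T (2 ^ (j + 1)) a (M 1 * ∏ i ∈ V 1, zz q u d (v 1) z i) (2 ^ ((j + 2) / 2))), T₁ a z ≤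
      2 ^ (2 * μ + 12 + (j + 2) / 2 + s * e₀) * 2 ^ (k * D / κ) * τ := by
    intro j hj z
    refine (L2 hC.κpos hC.qpos hC.upos hC.qe hC.small (hC.Mpos 1) (hC.Mle 1) (hv 1) (V 1)
      ((j + 2) / 2) (j + 1) ?_ z).trans (hpow 1 _)
    have := hJD 1
    exact le_trans (by omega) this
  -- L3
  have hL3 : ∀ z, ∑ a ∈ Finset.range T, T₁ a z ≤ τ * 2 ^ (μ + s * e₀ + 2 + k * d) := by
    intro z
    refine (L3 hC.κpos hC.qpos hC.upos hC.qe hC.small (hC.Mpos 1) (hC.Mle 1) (hv 1) (V 1) z).trans ?_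
    refine mul_le_mul_of_nonneg_left (pow_le_pow_right₀ (by norm_num) ?_) hτ0.le
    have : (V 1).card * d ≤ k * d := Nat.mul_le_mul_right _ (hV 1)
    omega
  -- the pieces
  set g₀ : ℕ → ℕ → (Fin s → Fin (2 ^ d)) → ℝ := fun j a z =>
    if LowG T (2 ^ (j + 1)) a (M 0 * ∏ i ∈ V 0, zz q u d (v 0) z i) (2 ^ ((j + 2) / 2))
    then T₀ a z else 0 with hg₀
  set g₁ : ℕ → ℕ → (Fin s → Fin (2 ^ d)) → ℝ := fun j a z =>
    if LowG T (2 ^ (j + 1)) a (M 1 * ∏ i ∈ V 1, zz q u d (v 1) z i) (2 ^ ((j + 2) / 2))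
    then T₁ a z else 0 with hg₁
  have hg₀0 : ∀ r a z, 0 ≤ g₀ r a z := fun r a z => by
    simp only [hg₀]; split_ifs; exacts [hT₀0 _ _, le_rfl]
  have hg₁0 : ∀ r a z, 0 ≤ g₁ r a z := fun r a z => by
    simp only [hg₁]; split_ifs; exacts [hT₁0 _ _, le_rfl]
  set S : ℕ → Finset ℕ := fun j => (Finset.range T).filter
    (fun a => ¬ Low T (2 ^ j) a ∧ Low T (2 ^ (j + 1)) a) with hS
  have hpt : ∀ z₀ z₁ : Fin s → Fin (2 ^ d),
      (if Nat.Coprime (∏ i ∈ V 0, zz q u d (v 0) z₀ i) (∏ i ∈ V 1, zz q u d (v 1) z₁ i) then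
        ∑ a ∈ (Finset.range T).filter (fun a => ¬ Low T (2 ^ m₀) a), T₀ a z₀ * T₁ a z₁
      else 0) ≤
      ∑ a ∈ (Finset.range T).filter (fun a => ¬ Low T (2 ^ J) a), T₀ a z₀ * T₁ a z₁ +
      ∑ j ∈ Finset.Ico m₀ J,
        (∑ a ∈ S j, T₀ a z₀ * g₁ j a z₁ + ∑ a ∈ S j, g₀ j a z₀ * T₁ a z₁) := by
    intro z₀ z₁
    have hnn : ∀ j, 0 ≤ ∑ a ∈ S j, T₀ a z₀ * g₁ j a z₁ + ∑ a ∈ S j, g₀ j a z₀ * T₁ a z₁ :=
      fun j => add_nonneg
      (Finset.sum_nonneg fun a _ => mul_nonneg (hT₀0 _ _) (hg₁0 _ _ _))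
      (Finset.sum_nonneg fun a _ => mul_nonneg (hg₀0 _ _ _) (hT₁0 _ _))
    split_ifs with hcop
    · have hcop' := (cop_iff hC hv (V 0) (V 1) z₀ z₁).2 hcop
      calc ∑ a ∈ (Finset.range T).filter (fun a => ¬ Low T (2 ^ m₀) a), T₀ a z₀ * T₁ a z₁
          ≤ ∑ a ∈ ((Finset.range T).filter (fun a => ¬ Low T (2 ^ J) a)) ∪
              (Finset.Ico m₀ J).biUnion S, T₀ a z₀ * T₁ a z₁ := by
            refine Finset.sum_le_sum_of_subset_of_nonneg ?_ fun a _ _ =>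
              mul_nonneg (hT₀0 _ _) (hT₁0 _ _)
            intro a ha
            rw [Finset.mem_filter] at ha
            rw [Finset.mem_union, Finset.mem_filter, Finset.mem_biUnion]
            by_cases h : Low T (2 ^ J) a
            · obtain ⟨j, h1, h2, h3, h4⟩ := exists_level ha.2 h
              exact Or.inr ⟨j, Finset.mem_Ico.2 ⟨h1, h2⟩, Finset.mem_filter.2 ⟨ha.1, h3, h4⟩⟩
            · exact Or.inl ⟨ha.1, h⟩
        _ ≤ ∑ a ∈ ((Finset.range T).filter (fun a => ¬ Low T (2 ^ J) a)), T₀ a z₀ * T₁ a z₁ +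
            ∑ a ∈ (Finset.Ico m₀ J).biUnion S, T₀ a z₀ * T₁ a z₁ := by
            have h1 : 0 ≤ ∑ a ∈ ((Finset.range T).filter (fun a => ¬ Low T (2 ^ J) a)) ∩
                (Finset.Ico m₀ J).biUnion S, T₀ a z₀ * T₁ a z₁ :=
              Finset.sum_nonneg fun a _ => mul_nonneg (hT₀0 _ _) (hT₁0 _ _)
            have h2 := Finset.sum_union_inter (f := fun a => T₀ a z₀ * T₁ a z₁)
              (s₁ := (Finset.range T).filter (fun a => ¬ Low T (2 ^ J) a))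
              (s₂ := (Finset.Ico m₀ J).biUnion S)
            linarith
        _ ≤ _ := by
            refine add_le_add le_rfl ?_
            rw [Finset.sum_biUnion (by
              intro r _ r' _ hrr
              rw [Function.onFun, Finset.disjoint_filter]
              rintro a _ ⟨h1, h2⟩ ⟨h3, h4⟩
              rcases lt_or_gt_of_ne hrr with h | h
              · exact h3 (Low_mono (Nat.pow_le_pow_right (by norm_num) h) h2)
              · exact h1 (Low_mono (Nat.pow_le_pow_right (by norm_num) h) h4))]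
            refine Finset.sum_le_sum fun r hr => ?_
            rw [← Finset.sum_add_distrib]
            refine Finset.sum_le_sum fun a ha => ?_
            obtain ⟨haT, hnl, b, c, hb1, hb2, hbc, hb3⟩ := Finset.mem_filter.1 ha
            have h3 : 0 ≤ T₀ a z₀ * g₁ r a z₁ := mul_nonneg (hT₀0 _ _) (hg₁0 _ _ _)
            have h4 : 0 ≤ g₀ r a z₀ * T₁ a z₁ := mul_nonneg (hg₀0 _ _ _) (hT₁0 _ _)
            rcases gcd_half (by omega) hb2 hcop' with h5 | h5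
            · have h6 : g₀ r a z₀ = T₀ a z₀ := if_pos ⟨b, c, hb1, hb2, hbc, hb3, h5⟩
              rw [h6] at h4 ⊢
              linarith
            · have h6 : g₁ r a z₁ = T₁ a z₁ := if_pos ⟨b, c, hb1, hb2, hbc, hb3, h5⟩
              rw [h6] at h3 ⊢
              linarith
    · exact add_nonneg (Finset.sum_nonneg fun a _ => mul_nonneg (hT₀0 _ _) (hT₁0 _ _))
        (Finset.sum_nonneg fun r _ => hnn r)
  -- averaging
  have hA : Ex (fun z₀ : Fin s → Fin (2 ^ d) => Ex (fun z₁ : Fin s → Fin (2 ^ d) =>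
      ∑ a ∈ (Finset.range T).filter (fun a => ¬ Low T (2 ^ J) a), T₀ a z₀ * T₁ a z₁)) ≤
      (τ ^ 2 * (1024 * L) * 2 ^ (μ + s * e₀) / 2 ^ J) * (τ * 2 ^ (μ + s * e₀ + 2 + k * d)) := by
    refine Ex_split _ T₀ T₁ _ _ hT₁0 ?_ (by positivity) ?_
    · intro a ha
      exact hL1₀ J le_rfl a (Finset.mem_filter.1 ha).1 (Finset.mem_filter.1 ha).2
    · intro z
      refine le_trans ?_ (hL3 z)
      exact Finset.sum_le_sum_of_subset_of_nonneg (Finset.filter_subset _ _)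
        fun a _ _ => hT₁0 _ _
  have hB : ∀ r ∈ Finset.Ico m₀ J, Ex (fun z₀ : Fin s → Fin (2 ^ d) =>
      Ex (fun z₁ : Fin s → Fin (2 ^ d) => ∑ a ∈ S r, T₀ a z₀ * g₁ r a z₁)) ≤
      (τ ^ 2 * (1024 * L) * 2 ^ (μ + s * e₀) / 2 ^ r) *
        (2 ^ (2 * μ + 12 + (r + 2) / 2 + s * e₀) * 2 ^ (k * D / κ) * τ) := by
    intro r hr
    have hr1 := (Finset.mem_Ico.1 hr).2
    refine Ex_split _ T₀ (g₁ r) _ _ (hg₁0 r) ?_ (by positivity) ?_
    · intro a ha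
      exact hL1₀ r hr1.le a (Finset.mem_filter.1 ha).1 (Finset.mem_filter.1 ha).2.1
    · intro z
      refine le_trans ?_ (hL2₁ r hr1 z)
      simp only [hg₁]
      rw [← Finset.sum_filter]
      refine Finset.sum_le_sum_of_subset_of_nonneg ?_ fun a _ _ => hT₁0 _ _
      intro a ha
      rw [Finset.mem_filter] at ha ⊢
      exact ⟨(Finset.mem_filter.1 ha.1).1, ha.2⟩
  have hB' : ∀ r ∈ Finset.Ico m₀ J, Ex (fun z₀ : Fin s → Fin (2 ^ d) =>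
      Ex (fun z₁ : Fin s → Fin (2 ^ d) => ∑ a ∈ S r, g₀ r a z₀ * T₁ a z₁)) ≤
      (τ ^ 2 * (1024 * L) * 2 ^ (μ + s * e₀) / 2 ^ r) *
        (2 ^ (2 * μ + 12 + (r + 2) / 2 + s * e₀) * 2 ^ (k * D / κ) * τ) := by
    intro r hr
    have hr1 := (Finset.mem_Ico.1 hr).2
    refine Ex_split' _ (g₀ r) T₁ _ _ (hg₀0 r) ?_ (by positivity) ?_
    · intro a ha
      exact hL1₁ r hr1.le a (Finset.mem_filter.1 ha).1 (Finset.mem_filter.1 ha).2.1
    · intro z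
      refine le_trans ?_ (hL2₀ r hr1 z)
      simp only [hg₀]
      rw [← Finset.sum_filter]
      refine Finset.sum_le_sum_of_subset_of_nonneg ?_ fun a _ _ => hT₀0 _ _
      intro a ha
      rw [Finset.mem_filter] at ha ⊢
      exact ⟨(Finset.mem_filter.1 ha.1).1, ha.2⟩
  -- combine
  have hcomb : Ex (fun z₀ : Fin s → Fin (2 ^ d) => Ex (fun z₁ : Fin s → Fin (2 ^ d) =>
      if Nat.Coprime (∏ i ∈ V 0, zz q u d (v 0) z₀ i) (∏ i ∈ V 1, zz q u d (v 1) z₁ i) then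
        ∑ a ∈ (Finset.range T).filter (fun a => ¬ Low T (2 ^ m₀) a), T₀ a z₀ * T₁ a z₁
      else 0)) ≤
      (τ ^ 2 * (1024 * L) * 2 ^ (μ + s * e₀) / 2 ^ J) * (τ * 2 ^ (μ + s * e₀ + 2 + k * d)) +
      ∑ r ∈ Finset.Ico m₀ J, 2 * ((τ ^ 2 * (1024 * L) * 2 ^ (μ + s * e₀) / 2 ^ r) *
        (2 ^ (2 * μ + 12 + (r + 2) / 2 + s * e₀) * 2 ^ (k * D / κ) * τ)) := by
    refine (Ex_mono fun z₀ => Ex_mono fun z₁ => hpt z₀ z₁).trans ?_
    simp only [Ex_add, Ex_sum]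
    refine add_le_add ?_ (Finset.sum_le_sum fun r hr => ?_)
    · have := hA
      simp only [Ex_sum] at this
      exact this
    · have h1 := hB r hr
      have h2 := hB' r hr
      simp only [Ex_sum] at h1 h2
      linarith
  rw [hm₀] at hcomb
  refine hcomb.trans ?_
  rw [← hm₀]
  -- numerics
  obtain ⟨E, hE⟩ : ∃ E : ℕ, E = s * e₀ := ⟨_, rfl⟩
  rw [← hE]
  obtain ⟨P, hP⟩ : ∃ P : ℝ, P = (2 : ℝ) ^ (k * D / κ) := ⟨_, rfl⟩
  have hP1 : 1 ≤ P := by rw [hP]; exact one_le_pow₀ (by norm_num)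
  rw [← hP]
  have hm2 : m₀ / 2 = d / 16 := by rw [hm₀]; omega
  have e1 : (τ ^ 2 * (1024 * L) * 2 ^ (μ + E) / 2 ^ J) * (τ * 2 ^ (μ + E + 2 + k * d)) ≤
      τ ^ 3 * P * 2 ^ (3 * μ + 26 + 2 * E) * L / 2 ^ (d / 16) := by
    have hJ2 : (2 : ℝ) ^ J = 2 ^ (k * d) * 2 ^ d := by
      rw [hJ, ← pow_add]; congr 1; ring
    have h1 : (τ ^ 2 * (1024 * L) * 2 ^ (μ + E) / 2 ^ J) * (τ * 2 ^ (μ + E + 2 + k * d)) =
      (τ ^ 3 * L) * (2 ^ (2 * μ + 12 + 2 * E) / 2 ^ d) := by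
      rw [hJ2]
      have h2 : (2 * μ + 12 + 2 * E) = (μ + E) + (μ + E + 2) + 10 := by ring
      rw [h2, pow_add (2 : ℝ) (μ + E + 2) (k * d), pow_add (2 : ℝ) _ 10,
        pow_add (2 : ℝ) (μ + E) (μ + E + 2)]
      field_simp
      norm_num
    have h3 : τ ^ 3 * P * 2 ^ (3 * μ + 26 + 2 * E) * L / 2 ^ (d / 16) =
      (τ ^ 3 * L) * (P * (2 ^ (3 * μ + 26 + 2 * E) / 2 ^ (d / 16))) := by ring
    rw [h1, h3]
    refine mul_le_mul_of_nonneg_left ?_ (by positivity)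
    have h4 : (2 : ℝ) ^ (2 * μ + 12 + 2 * E) / 2 ^ d ≤ 2 ^ (3 * μ + 26 + 2 * E) / 2 ^ (d / 16) :=
      div_le_div₀ (by positivity) (pow_le_pow_right₀ (by norm_num) (by omega)) (by positivity)
        (pow_le_pow_right₀ (by norm_num) (by omega))
    have h5 : (0 : ℝ) ≤ 2 ^ (3 * μ + 26 + 2 * E) / 2 ^ (d / 16) := by positivity
    nlinarith
  have e2 : ∑ r ∈ Finset.Ico m₀ J, 2 * ((τ ^ 2 * (1024 * L) * 2 ^ (μ + E) / 2 ^ r) *
        (2 ^ (2 * μ + 12 + (r + 2) / 2 + E) * P * τ)) ≤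
      τ ^ 3 * P * 2 ^ (3 * μ + 26 + 2 * E) * L / 2 ^ (d / 16) := by
    have h1 : ∀ r ∈ Finset.Ico m₀ J, 2 * ((τ ^ 2 * (1024 * L) * 2 ^ (μ + E) / 2 ^ r) *
        (2 ^ (2 * μ + 12 + (r + 2) / 2 + E) * P * τ)) =
        (τ ^ 3 * P * 2 ^ (3 * μ + 24 + 2 * E) * L) * ((2 : ℝ) ^ (r / 2) / 2 ^ r) := by
      intro r _
      have h2 : (r + 2) / 2 = r / 2 + 1 := by omega
      have h3 : 2 * μ + 12 + (r / 2 + 1) + E = (2 * μ + 13 + E) + r / 2 := by ring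
      have h4 : 3 * μ + 24 + 2 * E = (μ + E) + (2 * μ + 13 + E) + 11 := by ring
      rw [h2, h3, h4, pow_add (2 : ℝ) (2 * μ + 13 + E), pow_add (2 : ℝ) _ 11,
        pow_add (2 : ℝ) (μ + E)]
      ring
    rw [Finset.sum_congr rfl h1, ← Finset.mul_sum]
    have h5 : ∑ r ∈ Finset.Ico m₀ J, (2 : ℝ) ^ (r / 2) / 2 ^ r ≤ 4 / 2 ^ (m₀ / 2) := by
      refine le_trans ?_ (GF.MajN.num_sum m₀ J)
      exact Finset.sum_le_sum_of_subset_of_nonneg Finset.Ico_subset_Icc_self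
        fun _ _ _ => by positivity
    rw [hm2] at h5
    refine (mul_le_mul_of_nonneg_left h5 (by positivity)).trans (le_of_eq ?_)
    rw [show 3 * μ + 26 + 2 * E = (3 * μ + 24 + 2 * E) + 2 by ring, pow_add (2 : ℝ) _ 2]
    ring
  calc _ ≤ τ ^ 3 * P * 2 ^ (3 * μ + 26 + 2 * E) * L / 2 ^ (d / 16) +
        τ ^ 3 * P * 2 ^ (3 * μ + 26 + 2 * E) * L / 2 ^ (d / 16) := add_le_add e1 e2
    _ = _ := by
      rw [show 3 * μ + 27 + 2 * E = (3 * μ + 26 + 2 * E) + 1 by ring, pow_add (2 : ℝ) _ 1]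
      ring

end AIN

end Pool.Agent.H366.ZC
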