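import Pool.Agent.H366.ZC.Div

/-! # [MAJOR] the major arcs -/

set_option autoImplicit false

namespace Pool.Agent.H366.ZC.MajorN

open Pool.Agent.H366.GF (Ex ExC Ex_mono Ex_nonneg Ex_const ExC_mul_left Ex_mul_right Ex_add
  norm_ExC_le Ex_pw)
open Pool.Agent.H366.ZC

/-! ### geometric sums -/

lemma norm_e_sub_one {y : ℝ} (hy : |y| ≤ 1 / 2) : 4 * |y| ≤ ‖e y - 1‖ := by
  have h : e y = Complex.exp (Complex.I * ((2 * Real.pi * y : ℝ) : ℂ)) := by
    unfold e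
    congr 1
    push_cast
    ring
  rw [h, Complex.norm_exp_I_mul_ofReal_sub_one, norm_mul, Real.norm_eq_abs, Real.norm_eq_abs]
  have hpi := Real.pi_pos
  have h1 : 2 * Real.pi * y / 2 = Real.pi * y := by ring
  rw [h1]
  have h2 : |Real.pi * y| ≤ Real.pi / 2 := by
    rw [abs_mul, abs_of_pos hpi]
    nlinarith
  have h3 := Real.mul_abs_le_abs_sin h2
  rw [abs_mul, abs_of_pos hpi] at h3
  have h4 : 2 / Real.pi * (Real.pi * |y|) = 2 * |y| := by
    field_simp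
  rw [h4] at h3
  rw [abs_of_pos (by norm_num : (0 : ℝ) < 2)]
  linarith

lemma norm_geom {y : ℝ} (hy : |y| ≤ 1 / 2) (Y : ℕ) :
    ‖∑ c ∈ Finset.range Y, e ((c : ℝ) * y)‖ * (2 * |y|) ≤ 1 := by
  rcases eq_or_ne y 0 with h0 | h0
  · rw [h0, abs_zero, mul_zero, mul_zero]
    exact zero_le_one
  have hy0 := abs_pos.2 h0
  have h4 := norm_e_sub_one hy
  have h1 : e y ≠ 1 := by
    intro h
    rw [h, sub_self, norm_zero] at h4
    linarith
  have h2 : ∀ c ∈ Finset.range Y, e ((c : ℝ) * y) = e y ^ c := fun c _ => e_mul_nat y c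
  rw [Finset.sum_congr rfl h2, geom_sum_eq h1, norm_div]
  have h3 : ‖e y ^ Y - 1‖ ≤ 2 := by
    calc ‖e y ^ Y - 1‖ ≤ ‖e y ^ Y‖ + ‖(1 : ℂ)‖ := norm_sub_le _ _
      _ = 2 := by rw [norm_pow, norm_e, one_pow, norm_one]; norm_num
  have h5 : 0 < ‖e y - 1‖ := by linarith
  rw [div_mul_eq_mul_div, div_le_one h5]
  have := mul_le_mul_of_nonneg_right h3 (by positivity : (0 : ℝ) ≤ 2 * |y|)
  linarith

/-- the average over a slot -/
lemma norm_av (d : ℕ) {β y : ℝ} {n : ℤ} (h : β = n + y) (hy : |y| ≤ 1 / 2) :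
    ‖ExC (fun c : Fin (2 ^ d) => e ((c : ℕ) * β))‖ * (2 * 2 ^ d * |y|) ≤ 1 := by
  have h1 : ∀ c : Fin (2 ^ d), e ((c : ℕ) * β) = e (((c : ℕ) : ℝ) * y) := by
    intro c
    have h2 : ((c : ℕ) : ℝ) * β = ((c : ℕ) : ℝ) * y + (((c : ℕ) * n : ℤ) : ℝ) := by
      rw [h]; push_cast; ring
    rw [h2, e_add_int]
  simp only [h1]
  rw [ExC, Fin.sum_univ_eq_sum_range (fun c => e ((c : ℝ) * y)) (2 ^ d), Fintype.card_fin, norm_div,
    Complex.norm_natCast]
  have h3 := norm_geom hy (2 ^ d)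
  have h4 : (0 : ℝ) < 2 ^ d := by positivity
  push_cast
  generalize ‖∑ c ∈ Finset.range (2 ^ d), e ((c : ℝ) * y)‖ = S at h3 ⊢
  calc S / 2 ^ d * (2 * 2 ^ d * |y|) = S * (2 * |y|) := by
        field_simp
    _ ≤ 1 := h3

lemma norm_av_le_one (d : ℕ) (β : ℝ) :
    ‖ExC (fun c : Fin (2 ^ d) => e ((c : ℕ) * β))‖ ≤ 1 := by
  refine (norm_ExC_le _).trans ?_
  simp only [norm_e]
  rw [Ex_const]

/-- the bound for the average if `r` does not divide `R` -/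
lemma av_not_dvd {d ρ r b a R T : ℕ} (hT : 0 < T) (hr : 1 ≤ r) (hrρ : r ≤ ρ)
    (hbr : Nat.Coprime b r) (he : |(r : ℤ) * a - b * T| ≤ ρ) (hR : 4 * ρ * R ≤ T)
    (hd : ¬ r ∣ R) :
    ‖ExC (fun c : Fin (2 ^ d) => e ((c : ℕ) * ((a : ℝ) * R / T)))‖ ≤ (ρ : ℝ) / 2 ^ d := by
  set β : ℝ := (a : ℝ) * R / T with hβ
  have hT' : (0 : ℝ) < T := by exact_mod_cast hT
  have hr' : (0 : ℝ) < r := by exact_mod_cast hr
  have hρ' : (r : ℝ) ≤ ρ := by exact_mod_cast hrρ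
  have he' : |(r : ℝ) * a - b * T| ≤ ρ := by exact_mod_cast he
  have hR' : 4 * (ρ : ℝ) * R ≤ T := by exact_mod_cast hR
  have h1 := norm_av d (β := β) (y := β - round β) (n := round β) (by ring) (abs_sub_round β)
  have h2 : 3 / (4 * (r : ℝ)) ≤ |β - round β| := by
    have h3 : (1 : ℝ) ≤ |(b : ℝ) * R - round β * r| := by
      have h4 : (b : ℤ) * R - round β * r ≠ 0 := by
        intro h5
        apply hd
        have h6 : (r : ℤ) ∣ (b : ℤ) * R := ⟨round β, by linarith⟩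
        have h7 : r ∣ b * R := by exact_mod_cast h6
        exact (Nat.Coprime.dvd_mul_left hbr.symm).1 h7
      have h8 := Int.one_le_abs h4
      exact_mod_cast h8
    have h9 : (b : ℝ) * R - round β * r = r * (β - round β) - ((r : ℝ) * a - b * T) * (R / T) := by
      rw [hβ]
      field_simp
      ring
    have h10 : |((r : ℝ) * a - b * T) * (R / T)| ≤ 1 / 4 := by
      rw [abs_mul, abs_of_nonneg (by positivity : (0 : ℝ) ≤ (R : ℝ) / T)]
      calc |(r : ℝ) * a - b * T| * (R / T) ≤ ρ * (R / T) :=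
            mul_le_mul_of_nonneg_right he' (by positivity)
        _ = ρ * R / T := by ring
        _ ≤ 1 / 4 := by
            rw [div_le_div_iff₀ hT' (by norm_num)]
            linarith
    have h11 : |(b : ℝ) * R - round β * r| ≤ r * |β - round β| + 1 / 4 := by
      rw [h9]
      refine (abs_sub _ _).trans ?_
      rw [abs_mul, abs_of_pos hr']
      linarith
    rw [div_le_iff₀ (by positivity)]
    nlinarith
  have h5 : (0 : ℝ) < 2 ^ d := by positivity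
  have h6 : ‖ExC (fun c : Fin (2 ^ d) => e ((c : ℕ) * β))‖ * (2 * 2 ^ d * (3 / (4 * (r : ℝ)))) ≤ 1 := by
    refine le_trans (mul_le_mul_of_nonneg_left ?_ (norm_nonneg _)) h1
    exact mul_le_mul_of_nonneg_left h2 (by positivity)
  have h0 := norm_nonneg (ExC (fun c : Fin (2 ^ d) => e ((c : ℕ) * β)))
  generalize ‖ExC (fun c : Fin (2 ^ d) => e ((c : ℕ) * β))‖ = S at h6 h0 ⊢
  have h7 : S * (3 * 2 ^ d) ≤ 2 * r := by
    have h8 : S * (2 * 2 ^ d * (3 / (4 * (r : ℝ)))) = S * (3 * 2 ^ d) / (2 * r) := by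
      field_simp
      ring
    rw [h8, div_le_one (by positivity)] at h6
    exact h6
  rw [le_div_iff₀ h5]
  nlinarith

/-- the bound for the average if `r` divides `R` -/
lemma av_dvd {d ρ r b a R T : ℕ} (hT : 0 < T) (hr : 1 ≤ r)
    (he : |(r : ℤ) * a - b * T| ≤ ρ) (hR : 4 * ρ * R ≤ T) (hd : r ∣ R) :
    ‖ExC (fun c : Fin (2 ^ d) => e ((c : ℕ) * ((a : ℝ) * R / T)))‖ *
      (2 * 2 ^ d * (|(a : ℝ) - b * T / r| * R / T)) ≤ 1 := by
  obtain ⟨R', rfl⟩ := hd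
  have hT' : (0 : ℝ) < T := by exact_mod_cast hT
  have hr' : (1 : ℝ) ≤ r := by exact_mod_cast hr
  have he' : |(r : ℝ) * a - b * T| ≤ ρ := by exact_mod_cast he
  have hR' : 4 * (ρ : ℝ) * (r * R') ≤ T := by exact_mod_cast hR
  set y : ℝ := ((r : ℝ) * a - b * T) * R' / T with hy
  have h1 : (a : ℝ) * ((r * R' : ℕ) : ℝ) / T = ((b * R' : ℕ) : ℤ) + y := by
    rw [hy]
    push_cast
    field_simp
    ring
  have h2 : |y| ≤ 1 / 2 := by
    rw [hy, abs_div, abs_mul, abs_of_pos hT', abs_of_nonneg (Nat.cast_nonneg R' : (0 : ℝ) ≤ R'),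
      div_le_div_iff₀ hT' (by norm_num)]
    have h3 : |(r : ℝ) * a - b * T| * R' ≤ ρ * R' :=
      mul_le_mul_of_nonneg_right he' (Nat.cast_nonneg _)
    have h4 : (ρ : ℝ) * R' ≤ ρ * R' * r :=
      le_mul_of_one_le_right (by positivity) hr'
    nlinarith
  have h3 := norm_av d h1 h2
  have h4 : |(a : ℝ) - b * T / r| * ((r * R' : ℕ) : ℝ) / T = |y| := by
    have h5 : y = ((a : ℝ) - b * T / r) * (((r * R' : ℕ) : ℝ) / T) := by
      rw [hy]
      push_cast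
      field_simp
    rw [h5, abs_mul, abs_of_nonneg (by positivity : (0 : ℝ) ≤ ((r * R' : ℕ) : ℝ) / T)]
    ring
  rw [h4]
  exact h3

/-! ### the slot outside `V` -/

section slot

variable {s : ℕ} {q u d M : ℕ} {v : Fin s → ℕ}

/-- the product of the multiplier and the slots other than `i₀` -/
def RR (q u d M : ℕ) (v : Fin s → ℕ) (i₀ : Fin s) (y : Fin s → Fin (2 ^ d)) : ℕ :=
  M * ∏ i ∈ Finset.univ.erase i₀, zz q u d v y i

lemma prod_update (y : Fin s → Fin (2 ^ d)) (i₀ : Fin s) (c : Fin (2 ^ d)) :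
    M * ∏ i, zz q u d v (Function.update y i₀ c) i =
      RR q u d M v i₀ y * (v i₀ + q * (u * 2 ^ d)) + q * (RR q u d M v i₀ y * (c : ℕ)) := by
  rw [← Finset.mul_prod_erase Finset.univ _ (Finset.mem_univ i₀)]
  have h1 : ∏ i ∈ Finset.univ.erase i₀, zz q u d v (Function.update y i₀ c) i =
      ∏ i ∈ Finset.univ.erase i₀, zz q u d v y i := by
    refine Finset.prod_congr rfl fun i hi => ?_
    rw [zz, zz, Function.update_of_ne (Finset.ne_of_mem_erase hi)]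
  rw [h1, RR, zz, Function.update_self]
  ring

lemma ff_update (hq : 0 < q) (y : Fin s → Fin (2 ^ d)) (i₀ : Fin s) (c : Fin (2 ^ d)) :
    ff q u d M v (Function.update y i₀ c) =
      ff q u d M v (Function.update y i₀ ⟨0, Nat.two_pow_pos d⟩) + RR q u d M v i₀ y * (c : ℕ) := by
  have h1 := ff_spec (u := u) (M := M) (v := v) hq (Function.update y i₀ c)
  have h2 := ff_spec (u := u) (M := M) (v := v) hq (Function.update y i₀ ⟨0, Nat.two_pow_pos d⟩)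
  rw [prod_update] at h1 h2
  apply Nat.eq_of_mul_eq_mul_left hq
  simp only [mul_zero, add_zero] at h2
  rw [mul_add]
  omega

lemma norm_inner (hq : 0 < q) (T a : ℕ) (y : Fin s → Fin (2 ^ d)) (i₀ : Fin s) :
    ‖ExC (fun c : Fin (2 ^ d) =>
      e ((a : ℝ) * (ff q u d M v (Function.update y i₀ c) : ℝ) / (T : ℝ)))‖ =
      ‖ExC (fun c : Fin (2 ^ d) => e ((c : ℕ) * ((a : ℝ) * (RR q u d M v i₀ y : ℕ) / T)))‖ := by
  have h1 : ∀ c : Fin (2 ^ d),
      e ((a : ℝ) * (ff q u d M v (Function.update y i₀ c) : ℝ) / (T : ℝ)) =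
      e ((a : ℝ) * (ff q u d M v (Function.update y i₀ ⟨0, Nat.two_pow_pos d⟩) : ℝ) / (T : ℝ)) *
        e ((c : ℕ) * ((a : ℝ) * (RR q u d M v i₀ y : ℕ) / T)) := by
    intro c
    rw [ff_update hq, ← e_add]
    congr 1
    push_cast
    ring
  rw [show (fun c : Fin (2 ^ d) =>
    e ((a : ℝ) * (ff q u d M v (Function.update y i₀ c) : ℝ) / (T : ℝ))) = _ from funext h1]
  rw [ExC_mul_left, norm_mul, norm_e, one_mul]

lemma ExC_update {S : Type} [Fintype S] [Nonempty S] (i₀ : Fin s) (f : (Fin s → S) → ℂ) :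
    ExC f = ExC (fun z : Fin s → S => ExC (fun c : S => f (Function.update z i₀ c))) := by
  have hc : (Fintype.card S : ℂ) ≠ 0 := by exact_mod_cast Fintype.card_ne_zero
  have h2 : ∑ z : Fin s → S, ∑ c : S, f (Function.update z i₀ c) =
      (Fintype.card S : ℂ) * ∑ z, f z := by
    rw [← Finset.sum_product', Finset.mul_sum]
    have h3 : ∀ z : Fin s → S, (Fintype.card S : ℂ) * f z = ∑ c : S, f z := by
      intro z; simp
    simp only [h3]
    rw [← Finset.sum_product']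
    refine Finset.sum_bij' (fun p _ => (Function.update p.1 i₀ p.2, p.1 i₀))
      (fun p _ => (Function.update p.1 i₀ p.2, p.1 i₀)) ?_ ?_ ?_ ?_ ?_
    · intro p _; simp
    · intro p _; simp
    · intro p _; simp
    · intro p _; simp
    · intro p _; rfl
  rw [ExC, ExC]
  simp only [ExC, ← Finset.sum_div]
  rw [h2, mul_comm, mul_div_assoc, div_self hc, mul_one]

/-- step (1) -/
lemma Ex_TT_le (hq : 0 < q) (T a : ℕ) (V : Finset (Fin s)) (i₀ : Fin s) (hi : i₀ ∉ V) :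
    Ex (fun z : Fin s → Fin (2 ^ d) => ‖TT q u d M v T a V z‖) ≤
      Ex (fun y : Fin s → Fin (2 ^ d) =>
        ‖ExC (fun c : Fin (2 ^ d) => e ((c : ℕ) * ((a : ℝ) * (RR q u d M v i₀ y : ℕ) / T)))‖) := by
  have hpw := Ex_pw (σ := Fin s) (S := Fin (2 ^ d)) V (fun y : Fin s → Fin (2 ^ d) =>
    ‖ExC (fun c : Fin (2 ^ d) => e ((c : ℕ) * ((a : ℝ) * (RR q u d M v i₀ y : ℕ) / T)))‖)
  rw [← hpw]
  refine Ex_mono fun z => ?_
  rw [TT, ExC_update i₀]
  refine (norm_ExC_le _).trans (Ex_mono fun z' => ?_)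
  have h0 : ∀ c : Fin (2 ^ d),
      V.piecewise z (Function.update z' i₀ c) = Function.update (V.piecewise z z') i₀ c := by
    intro c
    funext i
    by_cases h : i = i₀
    · subst h
      simp [Finset.piecewise, hi]
    · by_cases hV : i ∈ V <;> simp [Finset.piecewise, hV, h]
  simp only [h0]
  exact le_of_eq (norm_inner (M := M) (v := v) hq T a (V.piecewise z z') i₀)

lemma Ex_TT_le_one (T a : ℕ) (V : Finset (Fin s)) :
    Ex (fun z : Fin s → Fin (2 ^ d) => ‖TT q u d M v T a V z‖) ≤ 1 := by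
  have h : ∀ z : Fin s → Fin (2 ^ d), ‖TT q u d M v T a V z‖ ≤ 1 := by
    intro z
    rw [TT]
    refine (norm_ExC_le _).trans ?_
    simp only [norm_e]
    rw [Ex_const]
  refine (Ex_mono h).trans ?_
  rw [Ex_const]

lemma RR_pos {κ Λ μ e₀ : ℕ} {M : Fin 3 → ℕ} (hC : Ctx κ Λ μ q e₀ u M) (X : Fin 3) (i₀ : Fin s)
    (y : Fin s → Fin (2 ^ d)) : 0 < RR q u d (M X) v i₀ y :=
  Nat.mul_pos (hC.Mpos X) (prod_zz_pos hC.qpos hC.upos y _)

lemma RR_le {κ Λ μ e₀ : ℕ} {M : Fin 3 → ℕ} (hC : Ctx κ Λ μ q e₀ u M) (hv : SlotOK q v)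
    (X : Fin 3) (i₀ : Fin s) (y : Fin s → Fin (2 ^ d)) :
    4 * 2 ^ (d / 8) * RR q u d (M X) v i₀ y ≤ TL s μ e₀ d := by
  have hs : 1 ≤ s := by have := i₀.2; omega
  obtain ⟨s', rfl⟩ : ∃ s', s = s' + 1 := ⟨s - 1, by omega⟩
  have h1 := prod_zz_le hC.qe hv y (Finset.univ.erase i₀)
  rw [Finset.card_erase_of_mem (Finset.mem_univ _), Finset.card_univ, Fintype.card_fin,
    Nat.add_sub_cancel] at h1
  have h2 : RR q u d (M X) v i₀ y ≤ 2 ^ μ * 2 ^ (s' * (d + e₀)) := Nat.mul_le_mul (hC.Mle X) h1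
  have h3 : (2 : ℕ) ^ (d / 8) ≤ 2 ^ (d + e₀) := Nat.pow_le_pow_right (by norm_num) (by omega)
  calc 4 * 2 ^ (d / 8) * RR q u d (M X) v i₀ y
      ≤ 4 * 2 ^ (d + e₀) * (2 ^ μ * 2 ^ (s' * (d + e₀))) :=
        Nat.mul_le_mul (Nat.mul_le_mul_left _ h3) h2
    _ = TL (s' + 1) μ e₀ d := by
        unfold TL
        rw [show μ + (s' + 1) * (d + e₀) + 2 = 2 + (d + e₀) + (μ + s' * (d + e₀)) by ring,
          pow_add 2 (2 + (d + e₀)) (μ + s' * (d + e₀)), pow_add 2 2 (d + e₀),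
          pow_add 2 μ (s' * (d + e₀))]
        norm_num

lemma NN_pos {κ Λ μ e₀ : ℕ} {M : Fin 3 → ℕ} (hC : Ctx κ Λ μ q e₀ u M) (s d : ℕ) :
    0 < NN s q u d (M 0) := by
  have h1 : (0 : ℝ) < M 0 := by exact_mod_cast hC.Mpos 0
  have h2 : (0 : ℝ) < q := by exact_mod_cast hC.qpos
  have h3 : (0 : ℝ) < u := by exact_mod_cast hC.upos
  unfold NN
  positivity

lemma NN_le_RR {κ Λ μ e₀ : ℕ} {M : Fin 3 → ℕ} (hC : Ctx κ Λ μ q e₀ u M)
    (X : Fin 3) (i₀ : Fin s) (y : Fin s → Fin (2 ^ d)) :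
    NN s q u d (M 0) ≤ Λ * u * (2 ^ d * (RR q u d (M X) v i₀ y : ℕ)) := by
  have hs : 1 ≤ s := by have := i₀.2; omega
  obtain ⟨s', rfl⟩ : ∃ s', s = s' + 1 := ⟨s - 1, by omega⟩
  have h1 := le_prod_zz (q := q) (u := u) (v := v) y (Finset.univ.erase i₀)
  rw [Finset.card_erase_of_mem (Finset.mem_univ _), Finset.card_univ, Fintype.card_fin,
    Nat.add_sub_cancel] at h1
  have h2 : M X * (q * u * 2 ^ d) ^ s' ≤ RR q u d (M X) v i₀ y := Nat.mul_le_mul_left _ h1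
  have h3 : ((M X : ℝ) * ((q : ℝ) * u * 2 ^ d) ^ s') ≤ (RR q u d (M X) v i₀ y : ℕ) := by
    exact_mod_cast h2
  have h4 : (M 0 : ℝ) ≤ Λ * M X := by exact_mod_cast hC.ratio 0 X
  unfold NN
  rw [Nat.add_sub_cancel]
  calc (M 0 : ℝ) * (q : ℝ) ^ s' * ((u : ℝ) * 2 ^ d) ^ (s' + 1)
      ≤ (Λ * M X) * (q : ℝ) ^ s' * ((u : ℝ) * 2 ^ d) ^ (s' + 1) := by
        refine mul_le_mul_of_nonneg_right (mul_le_mul_of_nonneg_right h4 (by positivity))
          (by positivity)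
    _ = Λ * u * (2 ^ d * ((M X : ℝ) * ((q : ℝ) * u * 2 ^ d) ^ s')) := by
        rw [pow_succ, mul_pow, mul_pow, mul_pow]
        ring
    _ ≤ Λ * u * (2 ^ d * (RR q u d (M X) v i₀ y : ℕ)) := by
        refine mul_le_mul_of_nonneg_left (mul_le_mul_of_nonneg_left h3 (by positivity))
          (by positivity)

lemma NN_le_TL {κ Λ μ e₀ : ℕ} {M : Fin 3 → ℕ} (hC : Ctx κ Λ μ q e₀ u M) (hs : 1 ≤ s) :
    4 * NN s q u d (M 0) ≤ (TL s μ e₀ d : ℕ) := by
  obtain ⟨s', rfl⟩ : ∃ s', s = s' + 1 := ⟨s - 1, by omega⟩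
  have h1 : M 0 * q ^ s' * (u * 2 ^ d) ^ (s' + 1) ≤ 2 ^ μ * 2 ^ ((s' + 1) * (d + e₀)) := by
    rw [mul_assoc]
    refine Nat.mul_le_mul (hC.Mle 0) ?_
    calc q ^ s' * (u * 2 ^ d) ^ (s' + 1) ≤ q ^ (s' + 1) * (u * 2 ^ d) ^ (s' + 1) :=
          Nat.mul_le_mul_right _ (Nat.pow_le_pow_right hC.qpos (Nat.le_succ _))
      _ = (q * u * 2 ^ d) ^ (s' + 1) := by rw [mul_pow, mul_pow, mul_pow]; ring
      _ ≤ (2 ^ (d + e₀)) ^ (s' + 1) := by
          refine Nat.pow_le_pow_left ?_ _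
          rw [pow_add, mul_comm (2 ^ d) (2 ^ e₀)]
          exact Nat.mul_le_mul_right _ ((Nat.mul_le_mul_left _ (Nat.le_succ _)).trans hC.qe)
      _ = 2 ^ ((s' + 1) * (d + e₀)) := by rw [← pow_mul, mul_comm]
  have h2 : 4 * (M 0 * q ^ s' * (u * 2 ^ d) ^ (s' + 1)) ≤ TL (s' + 1) μ e₀ d := by
    have h3 : (2 : ℕ) ^ (μ + (s' + 1) * (d + e₀) + 2) = 4 * (2 ^ μ * 2 ^ ((s' + 1) * (d + e₀))) := by
      rw [pow_add 2 (μ + (s' + 1) * (d + e₀)) 2, pow_add 2 μ ((s' + 1) * (d + e₀))]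
      ring
    unfold TL
    rw [h3]
    exact Nat.mul_le_mul_left _ h1
  unfold NN
  rw [Nat.add_sub_cancel]
  exact_mod_cast h2

end slot

/-! ### the bound for one `a` -/

section one

variable {κ Λ μ q e₀ u : ℕ} {M : Fin 3 → ℕ} {s d : ℕ}

/-- `Λ u T / (2 NN)` -/
noncomputable def AA (Λ u s μ e₀ d q : ℕ) (M : Fin 3 → ℕ) : ℝ :=
  Λ * u * (TL s μ e₀ d : ℕ) / (2 * NN s q u d (M 0))

lemma Lam_pos (hC : Ctx κ Λ μ q e₀ u M) : 0 < Λ := by
  have h1 := hC.ratio 0 0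
  have h2 := hC.Mpos 0
  rcases Nat.eq_zero_or_pos Λ with h | h
  · rw [h, zero_mul] at h1
    omega
  · exact h

lemma AA_pos (hC : Ctx κ Λ μ q e₀ u M) : 0 < AA Λ u s μ e₀ d q M := by
  have h1 : (0 : ℝ) < Λ := by exact_mod_cast Lam_pos hC
  have h2 : (0 : ℝ) < u := by exact_mod_cast hC.upos
  have h3 : (0 : ℝ) < (TL s μ e₀ d : ℕ) := by exact_mod_cast TL_pos s μ e₀ d
  have h4 := NN_pos hC s d
  unfold AA
  positivity

/-- the decaying function -/
noncomputable def gg (A x : ℝ) : ℝ := 2 * A / (A + |x|)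

lemma gg_nonneg {A : ℝ} (hA : 0 < A) (x : ℝ) : 0 ≤ gg A x := by
  unfold gg
  have := abs_nonneg x
  positivity

lemma norm_le_gg (hC : Ctx κ Λ μ q e₀ u M) {v : Fin s → ℕ} (hv : SlotOK q v) (X : Fin 3)
    (i₀ : Fin s) (y : Fin s → Fin (2 ^ d)) {r b a : ℕ} (hr : 1 ≤ r)
    (he : |(r : ℤ) * a - b * (TL s μ e₀ d : ℕ)| ≤ ((2 ^ (d / 8) : ℕ) : ℤ))
    (hd : r ∣ RR q u d (M X) v i₀ y) :
    ‖ExC (fun c : Fin (2 ^ d) =>
      e ((c : ℕ) * ((a : ℝ) * (RR q u d (M X) v i₀ y : ℕ) / (TL s μ e₀ d : ℕ))))‖ ≤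
      gg (AA Λ u s μ e₀ d q M) ((a : ℝ) - b * (TL s μ e₀ d : ℕ) / r) := by
  have h1 := av_dvd (d := d) (TL_pos s μ e₀ d) hr he (RR_le hC hv X i₀ y) hd
  have h2 := norm_av_le_one d ((a : ℝ) * (RR q u d (M X) v i₀ y : ℕ) / (TL s μ e₀ d : ℕ))
  have h3 := NN_le_RR (v := v) hC X i₀ y
  have h4 := NN_pos hC s d
  have h5 : (0 : ℝ) < (TL s μ e₀ d : ℕ) := by exact_mod_cast TL_pos s μ e₀ d
  have h6 := AA_pos (s := s) (d := d) hC
  have h0 := norm_nonneg (ExC (fun c : Fin (2 ^ d) =>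
      e ((c : ℕ) * ((a : ℝ) * (RR q u d (M X) v i₀ y : ℕ) / (TL s μ e₀ d : ℕ)))))
  have h7 := abs_nonneg ((a : ℝ) - b * (TL s μ e₀ d : ℕ) / r)
  unfold gg
  rw [le_div_iff₀ (by positivity)]
  have h8 : AA Λ u s μ e₀ d q M * (2 * NN s q u d (M 0)) = Λ * u * (TL s μ e₀ d : ℕ) := by
    unfold AA
    field_simp
  generalize ‖ExC (fun c : Fin (2 ^ d) =>
      e ((c : ℕ) * ((a : ℝ) * (RR q u d (M X) v i₀ y : ℕ) / (TL s μ e₀ d : ℕ))))‖ = S at *
  generalize |(a : ℝ) - b * (TL s μ e₀ d : ℕ) / r| = x at *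
  generalize AA Λ u s μ e₀ d q M = A at *
  generalize NN s q u d (M 0) = N at *
  generalize ((TL s μ e₀ d : ℕ) : ℝ) = T at *
  generalize ((RR q u d (M X) v i₀ y : ℕ) : ℝ) = R at *
  have hΛ : (0 : ℝ) ≤ Λ := Nat.cast_nonneg _
  have hu : (0 : ℝ) ≤ u := Nat.cast_nonneg _
  -- `S x ≤ A`
  have h9 : S * x ≤ A := by
    have h10 : S * x * (2 * N) ≤ A * (2 * N) := by
      rw [h8]
      calc S * x * (2 * N) ≤ S * x * (2 * (Λ * u * (2 ^ d * R))) := by
            refine mul_le_mul_of_nonneg_left ?_ (by positivity)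
            linarith
        _ = Λ * u * T * (S * (2 * 2 ^ d * (x * R / T))) := by
            field_simp
        _ ≤ Λ * u * T * 1 := mul_le_mul_of_nonneg_left h1 (by positivity)
        _ = Λ * u * T := mul_one _
    exact le_of_mul_le_mul_right h10 (by positivity)
  nlinarith

open Classical in
/-- the probability that `r` divides the product -/
noncomputable def pr (q u d r : ℕ) (M : ℕ) (v : Fin s → ℕ) (i₀ : Fin s) : ℝ :=
  Ex (fun y : Fin s → Fin (2 ^ d) => if r ∣ RR q u d M v i₀ y then (1 : ℝ) else 0)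

lemma pr_nonneg (q u d r : ℕ) (M : ℕ) (v : Fin s → ℕ) (i₀ : Fin s) : 0 ≤ pr q u d r M v i₀ := by
  unfold pr
  refine Ex_nonneg fun y => ?_
  split_ifs <;> norm_num

open Classical in
lemma one_X (hC : Ctx κ Λ μ q e₀ u M) {v : Fin s → ℕ} (hv : SlotOK q v) (X : Fin 3)
    (V : Finset (Fin s)) (i₀ : Fin s) (hi : i₀ ∉ V) {r b a : ℕ} (hr : 1 ≤ r)
    (hrρ : r ≤ 2 ^ (d / 8)) (hbr : Nat.Coprime b r)
    (he : |(r : ℤ) * a - b * (TL s μ e₀ d : ℕ)| ≤ ((2 ^ (d / 8) : ℕ) : ℤ)) :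
    Ex (fun z : Fin s → Fin (2 ^ d) => ‖TT q u d (M X) v (TL s μ e₀ d) a V z‖) ≤
      pr q u d r (M X) v i₀ *
        gg (AA Λ u s μ e₀ d q M) ((a : ℝ) - b * (TL s μ e₀ d : ℕ) / r) +
        (2 : ℝ) ^ (d / 8) / 2 ^ d := by
  refine (Ex_TT_le hC.qpos _ a V i₀ hi).trans ?_
  have hA := AA_pos (s := s) (d := d) hC
  have hg := gg_nonneg hA ((a : ℝ) - b * (TL s μ e₀ d : ℕ) / r)
  have h1 : ∀ y : Fin s → Fin (2 ^ d),
      ‖ExC (fun c : Fin (2 ^ d) =>
        e ((c : ℕ) * ((a : ℝ) * (RR q u d (M X) v i₀ y : ℕ) / (TL s μ e₀ d : ℕ))))‖ ≤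
      (if r ∣ RR q u d (M X) v i₀ y then (1 : ℝ) else 0) *
        gg (AA Λ u s μ e₀ d q M) ((a : ℝ) - b * (TL s μ e₀ d : ℕ) / r) +
        (2 : ℝ) ^ (d / 8) / 2 ^ d := by
    intro y
    split_ifs with h
    · have h2 := norm_le_gg hC hv X i₀ y hr he h
      rw [one_mul]
      have h3 : (0 : ℝ) ≤ (2 : ℝ) ^ (d / 8) / 2 ^ d := by positivity
      linarith
    · have h2 := av_not_dvd (d := d) (TL_pos s μ e₀ d) hr hrρ hbr he (RR_le hC hv X i₀ y) h
      rw [zero_mul, zero_add]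
      push_cast at h2
      exact h2
  refine (Ex_mono h1).trans ?_
  rw [Ex_add, Ex_mul_right, Ex_const]
  exact le_rfl

open Classical in
/-- the weight of a denominator -/
noncomputable def WW (κ s r : ℕ) : ℝ :=
  if ∀ p : ℕ, p.Prime → p ∣ r → 2 ^ κ ≤ p then (((r.divisors.card : ℝ) * 2) ^ s / r) ^ 3 else 0

lemma WW_nonneg (κ s r : ℕ) : 0 ≤ WW κ s r := by
  unfold WW
  split_ifs
  · positivity
  · exact le_rfl

lemma pr_le (hC : Ctx κ Λ μ q e₀ u M) {v : Fin s → ℕ} (X : Fin 3)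
    (i₀ : Fin s) {r : ℕ} (hr : 1 ≤ r) (hrρ : r ≤ 2 ^ (d / 8)) (hrq : Nat.Coprime r q) :
    pr q u d r (M X) v i₀ ≤ ((r.divisors.card : ℝ) * 2) ^ s / r := by
  have hs : 1 ≤ s := by have := i₀.2; omega
  have hrM : Nat.Coprime r (M X) := by
    rw [Nat.coprime_iff_gcd_eq_one]
    by_contra h
    obtain ⟨p, hp, hpd⟩ := Nat.exists_prime_and_dvd h
    have h1 : p ∣ r := hpd.trans (Nat.gcd_dvd_left _ _)
    have h2 : p ∣ q := hC.smooth X p hp (hpd.trans (Nat.gcd_dvd_right _ _))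
    exact hp.one_lt.ne' (Nat.dvd_one.1 (hrq ▸ Nat.dvd_gcd h1 h2))
  have h1 := prob_dvd (q := q) (u := u) (d := d) hr
    (hrρ.trans (Nat.pow_le_pow_right (by norm_num) (Nat.div_le_self _ _))) hrq v
    (Finset.univ.erase i₀)
  rw [Finset.card_erase_of_mem (Finset.mem_univ _), Finset.card_univ, Fintype.card_fin] at h1
  unfold pr
  refine le_trans (Ex_mono fun y => ?_) (h1.trans ?_)
  · split_ifs with h3 h4
    · exact le_rfl
    · exact absurd (Nat.Coprime.dvd_of_dvd_mul_left hrM h3) h4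
    · exact zero_le_one
    · exact le_rfl
  · refine div_le_div_of_nonneg_right ?_ (by positivity)
    refine pow_le_pow_right₀ ?_ (by omega)
    have h4 : 1 ≤ r.divisors.card := Finset.card_pos.2 ⟨1, Nat.one_mem_divisors.2 (by omega)⟩
    have h5 : (1 : ℝ) ≤ r.divisors.card := by exact_mod_cast h4
    linarith

lemma cube_add {x y : ℝ} (hx : 0 ≤ x) (hy : 0 ≤ y) : (x + y) ^ 3 ≤ 4 * (x ^ 3 + y ^ 3) := by
  nlinarith [mul_nonneg (add_nonneg hx hy) (sq_nonneg (x - y))]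

open Classical in
/-- the bound for one `a` -/
lemma one_a (hC : Ctx κ Λ μ q e₀ u M) {v : Fin 3 → Fin s → ℕ} (hv : ∀ X, SlotOK q (v X))
    (V : Fin 3 → Finset (Fin s)) (i₀ : Fin 3 → Fin s) (hi : ∀ X, i₀ X ∉ V X) {r b a : ℕ}
    (hr : 1 ≤ r) (hrρ : r ≤ 2 ^ (d / 8)) (hbr : Nat.Coprime b r)
    (he : |(r : ℤ) * a - b * (TL s μ e₀ d : ℕ)| ≤ ((2 ^ (d / 8) : ℕ) : ℤ)) :
    ∏ X : Fin 3, Ex (fun z : Fin s → Fin (2 ^ d) =>
      ‖TT q u d (M X) (v X) (TL s μ e₀ d) a (V X) z‖) ≤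
      4 * ((2 : ℝ) ^ (d / 8) / 2 ^ d) + 4 * WW κ s r *
        gg (AA Λ u s μ e₀ d q M) ((a : ℝ) - b * (TL s μ e₀ d : ℕ) / r) ^ 3 := by
  have hA := AA_pos (s := s) (d := d) hC
  have hg := gg_nonneg hA ((a : ℝ) - b * (TL s μ e₀ d : ℕ) / r)
  have hX := fun X => one_X hC (hv X) X (V X) (i₀ X) (hi X) hr hrρ hbr he
  have h01 : ∀ X, 0 ≤ Ex (fun z : Fin s → Fin (2 ^ d) =>
      ‖TT q u d (M X) (v X) (TL s μ e₀ d) a (V X) z‖) := fun X => Ex_nonneg fun _ => norm_nonneg _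
  have h11 : ∀ X, Ex (fun z : Fin s → Fin (2 ^ d) =>
      ‖TT q u d (M X) (v X) (TL s μ e₀ d) a (V X) z‖) ≤ 1 := fun X => Ex_TT_le_one _ _ _
  set F : Fin 3 → ℝ := fun X => Ex (fun z : Fin s → Fin (2 ^ d) =>
      ‖TT q u d (M X) (v X) (TL s μ e₀ d) a (V X) z‖) with hF
  set g := gg (AA Λ u s μ e₀ d q M) ((a : ℝ) - b * (TL s μ e₀ d : ℕ) / r)
  set E : ℝ := (2 : ℝ) ^ (d / 8) / 2 ^ d with hE
  have hE0 : 0 ≤ E := by positivity
  have hE1 : E ≤ 1 := by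
    rw [hE, div_le_one (by positivity)]
    exact pow_le_pow_right₀ (by norm_num) (Nat.div_le_self _ _)
  have hprod : ∏ X : Fin 3, F X = F 0 * F 1 * F 2 := Fin.prod_univ_three F
  change ∏ X : Fin 3, F X ≤ _
  by_cases hrq : Nat.Coprime r q
  · -- main case
    have hgood : ∀ p : ℕ, p.Prime → p ∣ r → 2 ^ κ ≤ p := by
      intro p hp hpr
      by_contra h
      have h2 : p ∣ q := hC.small p hp (by omega)
      exact hp.one_lt.ne' (Nat.dvd_one.1 (hrq ▸ Nat.dvd_gcd hpr h2))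
    have hW : WW κ s r = (((r.divisors.card : ℝ) * 2) ^ s / r) ^ 3 := if_pos hgood
    set P : ℝ := ((r.divisors.card : ℝ) * 2) ^ s / r with hP
    have hP0 : 0 ≤ P := by positivity
    have h2 : ∀ X, F X ≤ P * g + E := fun X => (hX X).trans
      (add_le_add_left (mul_le_mul_of_nonneg_right (pr_le hC X (i₀ X) hr hrρ hrq) hg) E)
    have h3 : ∏ X : Fin 3, F X ≤ ∏ _X : Fin 3, (P * g + E) :=
      Finset.prod_le_prod (fun X _ => h01 X) fun X _ => h2 X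
    rw [Finset.prod_const, Finset.card_univ, Fintype.card_fin] at h3
    refine h3.trans ((cube_add (by positivity) hE0).trans ?_)
    rw [hW, mul_pow]
    have h4 : E ^ 3 ≤ E := by
      have : E ^ 3 ≤ E ^ 1 := pow_le_pow_of_le_one hE0 hE1 (by norm_num)
      rwa [pow_one] at this
    linarith
  · -- a common prime
    have hW0 : 0 ≤ 4 * WW κ s r * g ^ 3 := by
      have := WW_nonneg κ s r
      positivity
    obtain ⟨p, hp, hpd⟩ := Nat.exists_prime_and_dvd (n := Nat.gcd r q) (by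
      rwa [Nat.coprime_iff_gcd_eq_one] at hrq)
    have hpr : p ∣ r := hpd.trans (Nat.gcd_dvd_left _ _)
    have hpq : p ∣ q := hpd.trans (Nat.gcd_dvd_right _ _)
    have hkey : ∀ X, ¬ p ∣ M X → F X ≤ E := by
      intro X hpX
      refine (hX X).trans ?_
      have h0 : pr q u d r (M X) (v X) (i₀ X) = 0 := by
        unfold pr
        have : (fun y : Fin s → Fin (2 ^ d) =>
            if r ∣ RR q u d (M X) (v X) (i₀ X) y then (1 : ℝ) else 0) = fun _ => 0 := by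
          funext y
          rw [if_neg]
          intro h
          have h1 : p ∣ RR q u d (M X) (v X) (i₀ X) y := hpr.trans h
          have h2 : Nat.Coprime p (∏ i ∈ Finset.univ.erase (i₀ X), zz q u d (v X) y i) :=
            Nat.Coprime.coprime_dvd_left hpq (prod_zz_cop (hv X) y _).symm
          exact hpX (h2.dvd_of_dvd_mul_right h1)
        rw [this, Ex_const]
      rw [h0, zero_mul, zero_add]
    have hX01 : ¬ p ∣ M 0 ∨ ¬ p ∣ M 1 := by
      by_contra h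
      push Not at h
      exact hp.one_lt.ne' (Nat.dvd_one.1 (hC.cop ▸ Nat.dvd_gcd h.1 h.2))
    rw [hprod]
    rcases hX01 with h | h
    · have h1 := hkey 0 h
      have h2 : F 0 * F 1 * F 2 ≤ E * 1 * 1 := by
        refine mul_le_mul (mul_le_mul h1 (h11 1) (h01 1) hE0) (h11 2) (h01 2) (by positivity)
      linarith
    · have h1 := hkey 1 h
      have h2 : F 0 * F 1 * F 2 ≤ 1 * E * 1 := by
        refine mul_le_mul (mul_le_mul (h11 0) h1 (h01 1) zero_le_one) (h11 2) (h01 2) (by positivity)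
      linarith

end one

/-! ### sums -/

lemma sum_sq {A : ℝ} (hA : 0 < A) (N : ℕ) :
    ∑ k ∈ Finset.range (N + 1), A ^ 2 / (A + k) ^ 2 ≤ 1 + A - A ^ 2 / (A + N) := by
  induction N with
  | zero =>
    simp only [zero_add, Finset.range_one, Finset.sum_singleton, Nat.cast_zero, add_zero]
    rw [div_self (by positivity)]
    have : A ^ 2 / A = A := by field_simp
    rw [this]
    linarith
  | succ N ih =>
    rw [Finset.sum_range_succ]
    have h1 : A ^ 2 / (A + (N + 1 : ℕ)) ^ 2 ≤ A ^ 2 / (A + N) - A ^ 2 / (A + (N + 1 : ℕ)) := by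
      have h2 : (0 : ℝ) < A + N := by positivity
      have h3 : (0 : ℝ) < A + (N + 1 : ℕ) := by positivity
      have h4 : A ^ 2 / (A + N) - A ^ 2 / (A + (N + 1 : ℕ)) =
          A ^ 2 / ((A + N) * (A + (N + 1 : ℕ))) := by
        push_cast
        push_cast at h3
        field_simp
        ring
      rw [h4]
      refine div_le_div_of_nonneg_left (by positivity) (by positivity) ?_
      rw [sq]
      refine mul_le_mul_of_nonneg_right ?_ h3.le
      push_cast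
      linarith
    linarith

lemma sum_sq_le {A : ℝ} (hA : 0 < A) (S : Finset ℕ) :
    ∑ k ∈ S, A ^ 2 / (A + k) ^ 2 ≤ 1 + A := by
  obtain ⟨N, hN⟩ := S.exists_nat_subset_range
  have h1 : ∑ k ∈ S, A ^ 2 / (A + k) ^ 2 ≤ ∑ k ∈ Finset.range (N + 1), A ^ 2 / (A + k) ^ 2 := by
    refine Finset.sum_le_sum_of_subset_of_nonneg ?_ fun _ _ _ => by positivity
    exact hN.trans (Finset.range_mono (Nat.le_succ N))
  have h2 := sum_sq hA N
  have h3 : 0 ≤ A ^ 2 / (A + N) := by positivity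
  linarith

lemma gg_cube {A : ℝ} (hA : 0 < A) {x : ℝ} {k : ℕ} (hk : (k : ℝ) ≤ |x|) :
    gg A x ^ 3 ≤ 8 * (A ^ 2 / (A + k) ^ 2) := by
  have h0 := abs_nonneg x
  unfold gg
  have h1 : (2 * A / (A + |x|)) ^ 3 = 8 * ((A / (A + |x|)) ^ 2 * (A / (A + |x|))) := by ring
  have h2 : A / (A + |x|) ≤ 1 := by
    rw [div_le_one (by positivity)]
    linarith
  have h3 : A / (A + |x|) ≤ A / (A + k) :=
    div_le_div_of_nonneg_left hA.le (by positivity) (by linarith)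
  have h4 : 0 ≤ A / (A + |x|) := by positivity
  rw [h1, ← div_pow]
  have h5 : (A / (A + |x|)) ^ 2 ≤ (A / (A + k)) ^ 2 := pow_le_pow_left₀ h4 h3 2
  have h6 : (A / (A + |x|)) ^ 2 * (A / (A + |x|)) ≤ (A / (A + |x|)) ^ 2 * 1 :=
    mul_le_mul_of_nonneg_left h2 (by positivity)
  linarith

/-- the sum over `a` -/
lemma sum_gg {A : ℝ} (hA : 0 < A) (x₀ : ℝ) (S : Finset ℕ) :
    ∑ a ∈ S, gg A ((a : ℝ) - x₀) ^ 3 ≤ 16 * (1 + A) := by
  classical
  rw [← Finset.sum_filter_add_sum_filter_not S (fun a : ℕ => x₀ ≤ (a : ℝ))]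
  have h1 : ∑ a ∈ S.filter (fun a : ℕ => x₀ ≤ (a : ℝ)), gg A ((a : ℝ) - x₀) ^ 3 ≤ 8 * (1 + A) := by
    have h2 : ∀ a ∈ S.filter (fun a : ℕ => x₀ ≤ (a : ℝ)), gg A ((a : ℝ) - x₀) ^ 3 ≤
        8 * (A ^ 2 / (A + (((a : ℤ) - ⌈x₀⌉).toNat : ℕ)) ^ 2) := by
      intro a ha
      rw [Finset.mem_filter] at ha
      refine gg_cube hA ?_
      rw [abs_of_nonneg (by linarith [ha.2])]
      have h3 : ⌈x₀⌉ ≤ (a : ℤ) := Int.ceil_le.2 (by exact_mod_cast ha.2)
      have h4 : ((((a : ℤ) - ⌈x₀⌉).toNat : ℕ) : ℤ) = (a : ℤ) - ⌈x₀⌉ := Int.toNat_of_nonneg (by omega)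
      have h5 : ((((a : ℤ) - ⌈x₀⌉).toNat : ℕ) : ℝ) = (a : ℝ) - ⌈x₀⌉ := by exact_mod_cast h4
      rw [h5]
      linarith [Int.le_ceil x₀]
    refine (Finset.sum_le_sum h2).trans ?_
    rw [← Finset.mul_sum]
    refine mul_le_mul_of_nonneg_left ?_ (by norm_num)
    have h6 : Set.InjOn (fun a : ℕ => ((a : ℤ) - ⌈x₀⌉).toNat)
        (S.filter (fun a : ℕ => x₀ ≤ (a : ℝ)) : Set ℕ) := by
      intro a ha b hb hab
      rw [Finset.mem_coe, Finset.mem_filter] at ha hb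
      have h3 : ⌈x₀⌉ ≤ (a : ℤ) := Int.ceil_le.2 (by exact_mod_cast ha.2)
      have h4 : ⌈x₀⌉ ≤ (b : ℤ) := Int.ceil_le.2 (by exact_mod_cast hb.2)
      simp only at hab
      omega
    rw [← Finset.sum_image (f := fun k : ℕ => A ^ 2 / (A + k) ^ 2)
      (g := fun a : ℕ => ((a : ℤ) - ⌈x₀⌉).toNat) h6]
    exact sum_sq_le hA _
  have h1' : ∑ a ∈ S.filter (fun a : ℕ => ¬ x₀ ≤ (a : ℝ)), gg A ((a : ℝ) - x₀) ^ 3 ≤
      8 * (1 + A) := by
    have h2 : ∀ a ∈ S.filter (fun a : ℕ => ¬ x₀ ≤ (a : ℝ)), gg A ((a : ℝ) - x₀) ^ 3 ≤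
        8 * (A ^ 2 / (A + ((⌊x₀⌋ - (a : ℤ)).toNat : ℕ)) ^ 2) := by
      intro a ha
      rw [Finset.mem_filter, not_le] at ha
      refine gg_cube hA ?_
      rw [abs_of_nonpos (by linarith [ha.2])]
      have h3 : (a : ℤ) ≤ ⌊x₀⌋ := Int.le_floor.2 (by exact_mod_cast ha.2.le)
      have h4 : (((⌊x₀⌋ - (a : ℤ)).toNat : ℕ) : ℤ) = ⌊x₀⌋ - (a : ℤ) := Int.toNat_of_nonneg (by omega)
      have h5 : (((⌊x₀⌋ - (a : ℤ)).toNat : ℕ) : ℝ) = ⌊x₀⌋ - (a : ℝ) := by exact_mod_cast h4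
      rw [h5]
      linarith [Int.floor_le x₀]
    refine (Finset.sum_le_sum h2).trans ?_
    rw [← Finset.mul_sum]
    refine mul_le_mul_of_nonneg_left ?_ (by norm_num)
    have h6 : Set.InjOn (fun a : ℕ => (⌊x₀⌋ - (a : ℤ)).toNat)
        (S.filter (fun a : ℕ => ¬ x₀ ≤ (a : ℝ)) : Set ℕ) := by
      intro a ha b hb hab
      rw [Finset.mem_coe, Finset.mem_filter, not_le] at ha hb
      have h3 : (a : ℤ) ≤ ⌊x₀⌋ := Int.le_floor.2 (by exact_mod_cast ha.2.le)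
      have h4 : (b : ℤ) ≤ ⌊x₀⌋ := Int.le_floor.2 (by exact_mod_cast hb.2.le)
      simp only at hab
      omega
    rw [← Finset.sum_image (f := fun k : ℕ => A ^ 2 / (A + k) ^ 2)
      (g := fun a : ℕ => (⌊x₀⌋ - (a : ℤ)).toNat) h6]
    exact sum_sq_le hA _
  linarith

/-- the number of `a` -/
lemma card_near {r b T ρ : ℕ} (hr : 1 ≤ r) (S : Finset ℕ)
    (hS : ∀ a ∈ S, |(r : ℤ) * a - b * T| ≤ ρ) : S.card ≤ 2 * ρ + 1 := by
  have h1 : (S.image fun a : ℕ => (r : ℤ) * a - b * T).card = S.card := by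
    apply Finset.card_image_of_injective
    intro a a' h
    simp only at h
    have h2 : (r : ℤ) * a = (r : ℤ) * a' := by linarith
    have h3 : (r : ℤ) ≠ 0 := by exact_mod_cast (by omega : r ≠ 0)
    exact_mod_cast mul_left_cancel₀ h3 h2
  rw [← h1]
  have h2 : (S.image fun a : ℕ => (r : ℤ) * a - b * T) ⊆ Finset.Icc (-(ρ : ℤ)) ρ := by
    intro x hx
    rw [Finset.mem_image] at hx
    obtain ⟨a, ha, rfl⟩ := hx
    rw [Finset.mem_Icc]
    exact abs_le.1 (hS a ha)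
  refine (Finset.card_le_card h2).trans ?_
  rw [Int.card_Icc]
  omega

/-- bounds for the dyadic sum -/
noncomputable def CC (l : ℕ) : ℝ := (if l % 2 = 0 then 4 else 3) / 2 ^ (l / 2)

lemma CC_nonneg (l : ℕ) : 0 ≤ CC l := by
  unfold CC
  split_ifs <;> positivity

lemma CC_le (l : ℕ) : CC l ≤ 4 / 2 ^ (l / 2) := by
  unfold CC
  refine div_le_div_of_nonneg_right ?_ (by positivity)
  split_ifs <;> norm_num

lemma CC_step (l : ℕ) : (2 : ℝ) ^ ((l + 1) / 2) / 2 ^ l ≤ CC l - CC (l + 1) := by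
  unfold CC
  rcases Nat.mod_two_eq_zero_or_one l with hc | hc
  · obtain ⟨k, rfl⟩ : ∃ k, l = 2 * k := ⟨l / 2, by omega⟩
    rw [if_pos (by omega), if_neg (by omega), show (2 * k + 1) / 2 = k by omega,
      show (2 * k) / 2 = k by omega]
    have h2 : (2 : ℝ) ^ k / 2 ^ (2 * k) = 1 / 2 ^ k := by
      rw [two_mul, pow_add]
      field_simp
    rw [h2, ← sub_div]
    norm_num
  · obtain ⟨k, rfl⟩ : ∃ k, l = 2 * k + 1 := ⟨l / 2, by omega⟩
    rw [if_neg (by omega), if_pos (by omega), show (2 * k + 1 + 1) / 2 = k + 1 by omega,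
      show (2 * k + 1) / 2 = k by omega]
    have h2 : (2 : ℝ) ^ (k + 1) / 2 ^ (2 * k + 1) = 1 / 2 ^ k := by
      rw [two_mul, pow_succ, pow_succ, pow_add]
      field_simp
    have h3 : (4 : ℝ) / 2 ^ (k + 1) = 2 / 2 ^ k := by
      rw [pow_succ]
      field_simp
      norm_num
    rw [h2, h3, ← sub_div]
    norm_num

lemma WW_le {κ s l r : ℕ} (hκ : 0 < κ) (hκs : 6 * s ≤ κ) (h1 : 2 ^ l ≤ r)
    (h2 : r < 2 ^ (l + 1)) : (r : ℝ) * WW κ s r ≤ 2 ^ (3 * s) * (2 ^ ((l + 1) / 2) / 2 ^ (2 * l)) := by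
  have hr0 : 0 < r := lt_of_lt_of_le (Nat.two_pow_pos l) h1
  have hr' : (0 : ℝ) < r := by exact_mod_cast hr0
  have h1' : (2 : ℝ) ^ l ≤ r := by exact_mod_cast h1
  unfold WW
  split_ifs with h
  · have h3 := card_divisors_le hκ hr0 h2.le h
    have h3' : (r.divisors.card : ℝ) ≤ 2 ^ ((l + 1) / κ) := by exact_mod_cast h3
    have h4 : (r : ℝ) * (((r.divisors.card : ℝ) * 2) ^ s / r) ^ 3 =
        2 ^ (3 * s) * ((r.divisors.card : ℝ) ^ (3 * s) / (r : ℝ) ^ 2) := by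
      rw [div_pow, mul_pow, mul_pow, ← pow_mul, ← pow_mul, mul_comm s 3]
      field_simp
    rw [h4]
    refine mul_le_mul_of_nonneg_left ?_ (by positivity)
    have h5 : (r.divisors.card : ℝ) ^ (3 * s) ≤ 2 ^ ((l + 1) / 2) := by
      calc (r.divisors.card : ℝ) ^ (3 * s) ≤ (2 ^ ((l + 1) / κ)) ^ (3 * s) :=
            pow_le_pow_left₀ (Nat.cast_nonneg _) h3' _
        _ = 2 ^ ((l + 1) / κ * (3 * s)) := by rw [← pow_mul]
        _ ≤ 2 ^ ((l + 1) / 2) := by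
            refine pow_le_pow_right₀ (by norm_num) ?_
            have h6 : (l + 1) / κ * κ ≤ l + 1 := Nat.div_mul_le_self _ _
            have h7 : (l + 1) / κ * (6 * s) ≤ (l + 1) / κ * κ := Nat.mul_le_mul_left _ hκs
            have h8 : 2 * ((l + 1) / κ * (3 * s)) = (l + 1) / κ * (6 * s) := by ring
            omega
    have h6 : (2 : ℝ) ^ (2 * l) ≤ (r : ℝ) ^ 2 := by
      rw [mul_comm, pow_mul]
      exact pow_le_pow_left₀ (by positivity) h1' 2
    exact div_le_div₀ (by positivity) h5 (by positivity) h6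
  · rw [mul_zero]
    positivity

lemma sum_WW_Ico {κ s : ℕ} (hκ : 0 < κ) (hκs : 6 * s ≤ κ) (n : ℕ) :
    ∑ r ∈ Finset.Ico ((2 : ℕ) ^ κ) (2 ^ (κ + n)), (r : ℝ) * WW κ s r ≤
      2 ^ (3 * s) * (CC κ - CC (κ + n)) := by
  induction n with
  | zero => simp
  | succ n ih =>
    have h1 : (2 : ℕ) ^ κ ≤ 2 ^ (κ + n) := Nat.pow_le_pow_right (by norm_num) (by omega)
    have h2 : (2 : ℕ) ^ (κ + n) ≤ 2 ^ (κ + (n + 1)) := Nat.pow_le_pow_right (by norm_num) (by omega)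
    rw [← Finset.sum_Ico_consecutive _ h1 h2]
    have h3 : ∑ r ∈ Finset.Ico ((2 : ℕ) ^ (κ + n)) (2 ^ (κ + (n + 1))), (r : ℝ) * WW κ s r ≤
        2 ^ (3 * s) * (CC (κ + n) - CC (κ + (n + 1))) := by
      calc ∑ r ∈ Finset.Ico ((2 : ℕ) ^ (κ + n)) (2 ^ (κ + (n + 1))), (r : ℝ) * WW κ s r
          ≤ ∑ _r ∈ Finset.Ico ((2 : ℕ) ^ (κ + n)) (2 ^ (κ + (n + 1))),
              (2 : ℝ) ^ (3 * s) * (2 ^ ((κ + n + 1) / 2) / 2 ^ (2 * (κ + n))) := by
            refine Finset.sum_le_sum fun r hr => ?_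
            rw [Finset.mem_Ico] at hr
            exact WW_le hκ hκs hr.1 (by rw [add_assoc]; exact hr.2)
        _ = 2 ^ (3 * s) * (2 ^ ((κ + n + 1) / 2) / 2 ^ (κ + n)) := by
            rw [Finset.sum_const, Nat.card_Ico, nsmul_eq_mul]
            have h4 : (2 : ℕ) ^ (κ + (n + 1)) - 2 ^ (κ + n) = 2 ^ (κ + n) := by
              rw [← add_assoc, pow_succ]
              omega
            rw [h4, two_mul (κ + n), pow_add 2 (κ + n) (κ + n)]
            push_cast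
            field_simp
        _ ≤ 2 ^ (3 * s) * (CC (κ + n) - CC (κ + (n + 1))) :=
            mul_le_mul_of_nonneg_left (CC_step _) (by positivity)
    calc _ ≤ 2 ^ (3 * s) * (CC κ - CC (κ + n)) + 2 ^ (3 * s) * (CC (κ + n) - CC (κ + (n + 1))) :=
          add_le_add ih h3
      _ = _ := by ring

lemma WW_small {κ s r : ℕ} (h1 : 2 ≤ r) (h2 : r < 2 ^ κ) : WW κ s r = 0 := by
  unfold WW
  rw [if_neg]
  intro h
  have h3 := Nat.minFac_prime (by omega : r ≠ 1)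
  have h4 := h _ h3 (Nat.minFac_dvd r)
  have h5 := Nat.minFac_le (by omega : 0 < r)
  omega

/-- the sum over the denominators -/
lemma sum_WW {κ s : ℕ} (hκ : 0 < κ) (hκs : 6 * s ≤ κ) (m : ℕ) :
    ∑ r ∈ Finset.Icc (2 : ℕ) (2 ^ m), (r : ℝ) * WW κ s r ≤ 2 ^ (3 * s) * (4 / 2 ^ (κ / 2)) := by
  have h1 : ∑ r ∈ Finset.Icc (2 : ℕ) (2 ^ m), (r : ℝ) * WW κ s r ≤
      ∑ r ∈ Finset.Ico ((2 : ℕ) ^ κ) (2 ^ (κ + (m + 1))), (r : ℝ) * WW κ s r := by
    rw [← Finset.sum_filter_ne_zero (Finset.Icc 2 (2 ^ m))]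
    refine Finset.sum_le_sum_of_subset_of_nonneg ?_ fun r _ _ =>
      mul_nonneg (Nat.cast_nonneg _) (WW_nonneg _ _ _)
    intro r hr
    rw [Finset.mem_filter, Finset.mem_Icc] at hr
    rw [Finset.mem_Ico]
    constructor
    · by_contra h
      exact hr.2 (by rw [WW_small hr.1.1 (by omega), mul_zero])
    · have h3 : (2 : ℕ) ^ m < 2 ^ (κ + (m + 1)) := Nat.pow_lt_pow_right (by norm_num) (by omega)
      omega
  refine h1.trans ((sum_WW_Ico hκ hκs _).trans ?_)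
  refine mul_le_mul_of_nonneg_left ?_ (by positivity)
  have h2 := CC_nonneg (κ + (m + 1))
  have h3 := CC_le κ
  linarith

end Pool.Agent.H366.ZC.MajorN

namespace Pool.Agent.H366.ZC

open Pool.Agent.H366.GF (Ex ExC)
open MajorN

open Classical in
/-- [MAJOR] -/
theorem major {κ Λ μ q e₀ u : ℕ} {M : Fin 3 → ℕ} (hC : Ctx κ Λ μ q e₀ u M) {s : ℕ}
    (hκs : 6 * s ≤ κ) {d : ℕ} {v : Fin 3 → Fin s → ℕ} (hv : ∀ X, SlotOK q (v X))
    (V : Fin 3 → Finset (Fin s)) (hV : ∀ X, (V X).card < s) :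
    (NN s q u d (M 0) / (TL s μ e₀ d : ℝ)) *
      ∑ a ∈ (Finset.range (TL s μ e₀ d)).filter (fun a => Low (TL s μ e₀ d) (2 ^ (d / 8)) a ∧
          2 ^ (d / 8) < a ∧ a + 2 ^ (d / 8) < TL s μ e₀ d),
        ∏ X : Fin 3, Ex (fun z : Fin s → Fin (2 ^ d) =>
          ‖TT q u d (M X) (v X) (TL s μ e₀ d) a (V X) z‖) ≤
      2 ^ (3 * s + 10) * ((Λ : ℝ) * u + 1) / 2 ^ (κ / 2) + 64 / 2 ^ (d / 2) := by
  have hi : ∀ X, ∃ i, i ∉ V X := by
    intro X
    by_contra h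
    push Not at h
    have h1 : V X = Finset.univ := Finset.eq_univ_iff_forall.2 h
    have := hV X
    rw [h1, Finset.card_univ, Fintype.card_fin] at this
    omega
  choose i₀ hi₀ using hi
  have hs : 1 ≤ s := by have := (i₀ 0).2; omega
  set T : ℕ := TL s μ e₀ d with hT
  set ρ : ℕ := 2 ^ (d / 8) with hρ
  set A : ℝ := AA Λ u s μ e₀ d q M with hAdef
  have hA : 0 < A := AA_pos hC
  have hT0 : 0 < T := TL_pos s μ e₀ d
  have hT0' : (0 : ℝ) < T := by exact_mod_cast hT0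
  have hρ1 : 1 ≤ ρ := Nat.one_le_two_pow
  have hρ1' : (1 : ℝ) ≤ ρ := by exact_mod_cast hρ1
  have hρT : ρ < T := by
    rw [hρ, hT, TL]
    refine Nat.pow_lt_pow_right (by norm_num) ?_
    have h := Nat.mul_le_mul_right (d + e₀) hs
    rw [one_mul] at h
    have h2 : d / 8 ≤ d := Nat.div_le_self _ _
    omega
  set E : ℝ := (2 : ℝ) ^ (d / 8) / 2 ^ d with hE
  have hE0 : 0 ≤ E := by positivity
  set S := (Finset.range T).filter (fun a => Low T ρ a ∧ ρ < a ∧ a + ρ < T) with hS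
  -- the bound for one triple
  set G : ℕ → ℕ → ℕ → ℝ := fun r b a =>
    if |(r : ℤ) * a - b * (T : ℕ)| ≤ (ρ : ℤ) then
      4 * E + 4 * WW κ s r * gg A ((a : ℝ) - b * (T : ℕ) / r) ^ 3 else 0 with hG
  have hG0 : ∀ r b a, 0 ≤ G r b a := by
    intro r b a
    rw [hG]
    simp only
    split_ifs
    · have h1 := WW_nonneg κ s r
      have h2 := gg_nonneg hA ((a : ℝ) - b * (T : ℕ) / r)
      positivity
    · exact le_rfl
  have hpt : ∀ a ∈ S, ∏ X : Fin 3, Ex (fun z : Fin s → Fin (2 ^ d) =>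
      ‖TT q u d (M X) (v X) T a (V X) z‖) ≤
      ∑ r ∈ Finset.Icc (2 : ℕ) (2 ^ (d / 8)), ∑ b ∈ Finset.range (r + 1), G r b a := by
    intro a ha
    rw [hS, Finset.mem_filter, Finset.mem_range] at ha
    obtain ⟨haT, ⟨r, b, hr1, hrρ, hbr, hε⟩, ha1, ha2⟩ := ha
    have hε' := abs_le.1 hε
    -- `r ≠ 1`
    have hr2 : 2 ≤ r := by
      by_contra h
      have hr : r = 1 := by omega
      subst hr
      rcases Nat.eq_zero_or_pos b with hb | hb
      · subst hb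
        push_cast at hε'
        omega
      · have h1 : (T : ℤ) ≤ b * T := by
          have : (1 : ℤ) ≤ b := by exact_mod_cast hb
          nlinarith
        push_cast at hε'
        omega
    have hb : b ≤ r := by
      by_contra h
      have h1 : ((r : ℤ) + 1) * T ≤ b * T := by
        have : (r : ℤ) + 1 ≤ b := by exact_mod_cast (by omega : r + 1 ≤ b)
        exact mul_le_mul_of_nonneg_right this (by positivity)
      have h2 : (r : ℤ) * a ≤ r * T := by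
        have : (a : ℤ) ≤ T := by exact_mod_cast haT.le
        exact mul_le_mul_of_nonneg_left this (by positivity)
      have h3 : (ρ : ℤ) < T := by exact_mod_cast hρT
      nlinarith [hε'.1]
    have h1 := one_a hC hv V i₀ hi₀ hr1 hrρ hbr hε
    have h2 : G r b a = 4 * E + 4 * WW κ s r * gg A ((a : ℝ) - b * (T : ℕ) / r) ^ 3 := by
      rw [hG]
      simp only
      rw [if_pos hε]
    rw [← h2] at h1
    refine h1.trans ?_
    refine le_trans ?_ (Finset.single_le_sum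
      (f := fun r => ∑ b ∈ Finset.range (r + 1), G r b a)
      (fun r _ => Finset.sum_nonneg fun b _ => hG0 r b a) (Finset.mem_Icc.2 ⟨hr2, hrρ⟩))
    exact Finset.single_le_sum (f := fun b => G r b a) (fun b _ => hG0 r b a)
      (Finset.mem_range.2 (by omega))
  have hsum : ∑ a ∈ S, ∏ X : Fin 3, Ex (fun z : Fin s → Fin (2 ^ d) =>
      ‖TT q u d (M X) (v X) T a (V X) z‖) ≤
      24 * E * ρ ^ 3 + 512 * 2 ^ (3 * s) * (1 + A) / 2 ^ (κ / 2) := by
    refine (Finset.sum_le_sum hpt).trans ?_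
    rw [Finset.sum_comm]
    have h1 : ∀ r ∈ Finset.Icc (2 : ℕ) (2 ^ (d / 8)),
        ∑ a ∈ S, ∑ b ∈ Finset.range (r + 1), G r b a ≤
          24 * E * ρ ^ 2 + 128 * (1 + A) * ((r : ℝ) * WW κ s r) := by
      intro r hr
      rw [Finset.mem_Icc] at hr
      rw [Finset.sum_comm]
      have hW := WW_nonneg κ s r
      have h2 : ∀ b ∈ Finset.range (r + 1), ∑ a ∈ S, G r b a ≤
          12 * E * ρ + 64 * (1 + A) * WW κ s r := by
        intro b _
        rw [hG]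
        simp only
        rw [← Finset.sum_filter, Finset.sum_add_distrib, Finset.sum_const, ← Finset.mul_sum,
          nsmul_eq_mul]
        have h3 := card_near (r := r) (b := b) (T := T) (ρ := ρ) (by omega)
          (S.filter fun a : ℕ => |(r : ℤ) * a - b * (T : ℕ)| ≤ (ρ : ℤ)) (fun a ha =>
            (Finset.mem_filter.1 ha).2)
        have h4 : ((S.filter fun a : ℕ => |(r : ℤ) * a - b * (T : ℕ)| ≤ (ρ : ℤ)).card : ℝ) ≤
            2 * ρ + 1 := by exact_mod_cast h3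
        have h5 := sum_gg hA ((b : ℝ) * (T : ℕ) / r)
          (S.filter fun a : ℕ => |(r : ℤ) * a - b * (T : ℕ)| ≤ (ρ : ℤ))
        have h6 := mul_le_mul_of_nonneg_right h4 (by positivity : 0 ≤ 4 * E)
        have h7 := mul_le_mul_of_nonneg_left h5 (by positivity : 0 ≤ 4 * WW κ s r)
        have h8 : E * 1 ≤ E * ρ := mul_le_mul_of_nonneg_left hρ1' hE0
        linarith
      refine (Finset.sum_le_sum h2).trans ?_
      rw [Finset.sum_const, Finset.card_range, nsmul_eq_mul]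
      have hr2 : (2 : ℝ) ≤ r := by exact_mod_cast hr.1
      have hrρ : (r : ℝ) ≤ ρ := by exact_mod_cast hr.2
      have h9 : ((r + 1 : ℕ) : ℝ) ≤ 2 * r := by push_cast; linarith
      have h10 : (0 : ℝ) ≤ 12 * E * ρ + 64 * (1 + A) * WW κ s r := by positivity
      refine (mul_le_mul_of_nonneg_right h9 h10).trans ?_
      have h11 : E * ρ * r ≤ E * ρ * ρ := mul_le_mul_of_nonneg_left hrρ (by positivity)
      nlinarith
    refine (Finset.sum_le_sum h1).trans ?_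
    rw [Finset.sum_add_distrib, Finset.sum_const, nsmul_eq_mul, Nat.card_Icc, ← Finset.mul_sum]
    have h12 := sum_WW hC.κpos hκs (d / 8)
    have h13 := mul_le_mul_of_nonneg_left h12 (by positivity : 0 ≤ 128 * (1 + A))
    have h14 : ((2 ^ (d / 8) + 1 - 2 : ℕ) : ℝ) ≤ ρ := by
      rw [hρ]
      exact_mod_cast (by omega : 2 ^ (d / 8) + 1 - 2 ≤ 2 ^ (d / 8))
    have h15 := mul_le_mul_of_nonneg_right h14 (by positivity : 0 ≤ 24 * E * (ρ : ℝ) ^ 2)
    have h16 : 128 * (1 + A) * (2 ^ (3 * s) * (4 / 2 ^ (κ / 2))) =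
        512 * 2 ^ (3 * s) * (1 + A) / 2 ^ (κ / 2) := by ring
    rw [h16] at h13
    have h17 : (ρ : ℝ) * (24 * E * (ρ : ℝ) ^ 2) = 24 * E * ρ ^ 3 := by ring
    rw [h17] at h15
    exact add_le_add h15 h13
  have hN0 := NN_pos hC s d
  have hN4 := NN_le_TL (d := d) hC hs
  have ht : 0 ≤ NN s q u d (M 0) / (T : ℝ) := by positivity
  have ht4 : NN s q u d (M 0) / (T : ℝ) ≤ 1 / 4 := by
    rw [div_le_div_iff₀ hT0' (by norm_num)]
    linarith
  have htA : NN s q u d (M 0) / (T : ℝ) * A = Λ * u / 2 := by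
    rw [hAdef, AA, ← hT]
    field_simp
  refine (mul_le_mul_of_nonneg_left hsum ht).trans ?_
  rw [mul_add]
  have h20 : NN s q u d (M 0) / (T : ℝ) * (24 * E * ρ ^ 3) ≤ 64 / 2 ^ (d / 2) := by
    have h21 : NN s q u d (M 0) / (T : ℝ) * (24 * E * ρ ^ 3) ≤ 1 / 4 * (24 * E * ρ ^ 3) :=
      mul_le_mul_of_nonneg_right ht4 (by positivity)
    refine h21.trans ?_
    have h22 : 1 / 4 * (24 * E * (ρ : ℝ) ^ 3) = 6 * 2 ^ (4 * (d / 8)) / 2 ^ d := by
      rw [hE, hρ]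
      push_cast
      rw [mul_comm 4 (d / 8), pow_mul]
      ring
    rw [h22, div_le_div_iff₀ (by positivity) (by positivity)]
    have h23 : (2 : ℝ) ^ (4 * (d / 8)) * 2 ^ (d / 2) ≤ 2 ^ d := by
      rw [← pow_add]
      exact pow_le_pow_right₀ (by norm_num) (by omega)
    nlinarith [(by positivity : (0 : ℝ) < 2 ^ d)]
  have h30 : NN s q u d (M 0) / (T : ℝ) * (512 * 2 ^ (3 * s) * (1 + A) / 2 ^ (κ / 2)) ≤
      2 ^ (3 * s + 10) * ((Λ : ℝ) * u + 1) / 2 ^ (κ / 2) := by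
    have h31 : NN s q u d (M 0) / (T : ℝ) * (512 * 2 ^ (3 * s) * (1 + A) / 2 ^ (κ / 2)) =
        512 * 2 ^ (3 * s) * (NN s q u d (M 0) / (T : ℝ) + NN s q u d (M 0) / (T : ℝ) * A) /
          2 ^ (κ / 2) := by ring
    rw [h31, htA]
    refine div_le_div_of_nonneg_right ?_ (by positivity)
    rw [pow_add]
    have h32 : (0 : ℝ) ≤ (Λ : ℝ) * u := by positivity
    have h33 : (0 : ℝ) < (2 : ℝ) ^ (3 * s) := by positivity
    have h34 : NN s q u d (M 0) / (T : ℝ) + Λ * u / 2 ≤ Λ * u + 1 := by linarith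
    calc 512 * 2 ^ (3 * s) * (NN s q u d (M 0) / (T : ℝ) + Λ * u / 2)
        ≤ 512 * 2 ^ (3 * s) * (Λ * u + 1) := mul_le_mul_of_nonneg_left h34 (by positivity)
      _ ≤ 2 ^ (3 * s) * 2 ^ 10 * (Λ * u + 1) := by
          have : (0 : ℝ) ≤ 2 ^ (3 * s) * (Λ * u + 1) := by positivity
          nlinarith
  linarith

end Pool.Agent.H366.ZC
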