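import Pool.Agent.H366.ZC.L1
import Pool.Agent.H366.ZC.L2
import Pool.Agent.H366.ZC.L34
import Pool.Agent.H366.ZC.Noncop
import Pool.Agent.H366.ZC.Major
import Pool.Agent.H366.ZC.AIb

/-! # The analytic input -/

set_option autoImplicit false

namespace Pool.Agent.H366.ZC

open Pool.Agent.H366.GF (Ex ExC Ex_mono Ex_nonneg Ex_const ExC_const Ex_add Ex_sub Ex_mul_left
  Ex_mul_right ExC_mul_left ExC_mul_right Ex_sum ExC_sum Ex_comm ExC_comm Ex_equiv ExC_equiv Ex_prod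
  norm_ExC_le Ex_sq_le norm_ExC_sq_le Ex_ofReal Ex_pw pw_pw card_ne card_neC tau Ex_split Ex_split'
  Ex3 Ex_mul3)

namespace AIN

open Classical in
/-- the minor arcs -/
lemma minor {κ Λ μ q e₀ u : ℕ} {M : Fin 3 → ℕ} (hC : Ctx κ Λ μ q e₀ u M) {k s : ℕ}
    (hs : s = 4 * k + 4) (hκ : 320 * s ^ 2 ≤ κ) {d : ℕ} (hd : 8 ≤ d) {v : Fin 3 → Fin s → ℕ}
    (hv : ∀ X, SlotOK q (v X)) (V : Fin 3 → Finset (Fin s)) (hV : ∀ X, (V X).card ≤ k)
    (c : ℕ → ℂ) (hc : ∀ a, ‖c a‖ ≤ 2) :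
    Ex (fun z₀ : Fin s → Fin (2 ^ d) => Ex (fun z₁ : Fin s → Fin (2 ^ d) =>
      Ex (fun z₂ : Fin s → Fin (2 ^ d) =>
      if Nat.Coprime (∏ i ∈ V 0, zz q u d (v 0) z₀ i) (∏ i ∈ V 1, zz q u d (v 1) z₁ i) then
        ‖∑ a ∈ (Finset.range (TL s μ e₀ d)).filter (fun a => ¬ Low (TL s μ e₀ d) (2 ^ (d / 8)) a),
          c a * (TT q u d (M 0) (v 0) (TL s μ e₀ d) a (V 0) z₀ *
        (starRingEnd ℂ) (TT q u d (M 1) (v 1) (TL s μ e₀ d) a (V 1) z₁) *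
        (starRingEnd ℂ) (TT q u d (M 2) (v 2) (TL s μ e₀ d) a (V 2) z₂))‖
      else 0))) ≤
    Real.sqrt (2 ^ (4 * μ + 31 + 3 * (s * e₀) + e₀) * ((μ + s * (d + e₀) + 3 : ℕ) : ℝ) /
      2 ^ (d / 32)) := by
  have hτ0 : 0 < tau s (d + e₀) κ := by rw [tau]; positivity
  refine Real.le_sqrt_of_sq_le ?_
  refine (Ex_sq_le _).trans ((Ex_mono fun z₀ => (Ex_sq_le _).trans
    (Ex_mono fun z₁ => Ex_sq_le _)).trans ?_)
  have h1 : ∀ z₀ z₁ : Fin s → Fin (2 ^ d), Ex (fun z₂ : Fin s → Fin (2 ^ d) =>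
      (if Nat.Coprime (∏ i ∈ V 0, zz q u d (v 0) z₀ i) (∏ i ∈ V 1, zz q u d (v 1) z₁ i) then
        ‖∑ a ∈ (Finset.range (TL s μ e₀ d)).filter (fun a => ¬ Low (TL s μ e₀ d) (2 ^ (d / 8)) a),
          c a * (TT q u d (M 0) (v 0) (TL s μ e₀ d) a (V 0) z₀ *
        (starRingEnd ℂ) (TT q u d (M 1) (v 1) (TL s μ e₀ d) a (V 1) z₁) *
        (starRingEnd ℂ) (TT q u d (M 2) (v 2) (TL s μ e₀ d) a (V 2) z₂))‖
      else 0) ^ 2) ≤
      (tau s (d + e₀) κ * 2 ^ (μ + s * e₀ + 2) * 4) *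
      (if Nat.Coprime (∏ i ∈ V 0, zz q u d (v 0) z₀ i) (∏ i ∈ V 1, zz q u d (v 1) z₁ i) then
        ∑ a ∈ (Finset.range (TL s μ e₀ d)).filter (fun a => ¬ Low (TL s μ e₀ d) (2 ^ (d / 8)) a),
          ‖TT q u d (M 0) (v 0) (TL s μ e₀ d) a (V 0) z₀‖ ^ 2 *
            ‖TT q u d (M 1) (v 1) (TL s μ e₀ d) a (V 1) z₁‖ ^ 2
      else 0) := by
    intro z₀ z₁
    split_ifs with hcop
    · have h2 := L4 hC.κpos hC.qpos hC.upos hC.qe hC.small (hC.Mpos 2) (hC.Mle 2) (hv 2) (d := d)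
        (V 2) (fun a => if ¬ Low (TL s μ e₀ d) (2 ^ (d / 8)) a then
          (starRingEnd ℂ) (c a * (TT q u d (M 0) (v 0) (TL s μ e₀ d) a (V 0) z₀ *
          (starRingEnd ℂ) (TT q u d (M 1) (v 1) (TL s μ e₀ d) a (V 1) z₁))) else 0)
      refine le_trans (le_of_eq ?_) (h2.trans ?_)
      · congr 1; funext z₂
        congr 1
        rw [← RCLike.norm_conj, map_sum, Finset.sum_filter]
        congr 1
        refine Finset.sum_congr rfl fun a _ => ?_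
        by_cases ha : ¬ Low (TL s μ e₀ d) (2 ^ (d / 8)) a
        · rw [if_pos ha, if_pos ha]
          simp only [map_mul, Complex.conj_conj]
          ring
        · rw [if_neg ha, if_neg ha, zero_mul]
      · rw [mul_assoc (tau s (d + e₀) κ * 2 ^ (μ + s * e₀ + 2)) 4]
        refine mul_le_mul_of_nonneg_left ?_ (by positivity)
        rw [Finset.sum_filter, Finset.mul_sum]
        refine Finset.sum_le_sum fun a _ => ?_
        by_cases ha : ¬ Low (TL s μ e₀ d) (2 ^ (d / 8)) a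
        · rw [if_pos ha, if_pos ha, RCLike.norm_conj, norm_mul, norm_mul, RCLike.norm_conj,
            mul_pow, mul_pow]
          refine mul_le_mul_of_nonneg_right ?_ (by positivity)
          have := hc a
          nlinarith [norm_nonneg (c a)]
        · rw [if_neg ha, if_neg ha]; simp
    · simp [Ex_const]
  refine (Ex_mono fun z₀ => Ex_mono fun z₁ => h1 z₀ z₁).trans ?_
  simp only [Ex_mul_left]
  have h3 := minorZ hC hs hd hv V hV
  refine (mul_le_mul_of_nonneg_left h3 (by positivity)).trans ?_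
  have hτ := tau_bound (k := k) (s := s) (D := d + e₀) (c₀ := κ) (by omega) (by omega) hκ
  set τ := tau s (d + e₀) κ with hτd
  set L : ℝ := ((μ + s * (d + e₀) + 3 : ℕ) : ℝ) with hL
  obtain ⟨E, hE⟩ : ∃ E : ℕ, E = s * e₀ := ⟨_, rfl⟩
  rw [← hE]
  obtain ⟨P, hP⟩ : ∃ P : ℝ, P = (2 : ℝ) ^ (k * (d + e₀) / κ) := ⟨_, rfl⟩
  rw [← hP] at hτ ⊢
  have hL0 : 0 ≤ L := by rw [hL]; positivity
  have e1 : τ * 2 ^ (μ + E + 2) * 4 * (τ ^ 3 * P * 2 ^ (3 * μ + 27 + 2 * E) * L / 2 ^ (d / 16)) =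
      (τ ^ 4 * P) * (2 ^ (4 * μ + 31 + 3 * E) * L / 2 ^ (d / 16)) := by
    have e3 : (2 : ℝ) ^ (4 * μ + 31 + 3 * E) =
        2 ^ (μ + E + 2) * 2 ^ (3 * μ + 27 + 2 * E) * 4 := by
      rw [show 4 * μ + 31 + 3 * E = (μ + E + 2) + (3 * μ + 27 + 2 * E) + 2 by ring,
        pow_add (2 : ℝ) ((μ + E + 2) + (3 * μ + 27 + 2 * E)) 2, pow_add (2 : ℝ) (μ + E + 2)]
      norm_num
    rw [e3]
    ring
  rw [e1]
  refine (mul_le_mul_of_nonneg_right hτ (by positivity)).trans ?_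
  have e2 : (2 : ℝ) ^ ((d + e₀) / 64) / 2 ^ (d / 16) ≤ 2 ^ e₀ / 2 ^ (d / 32) := by
    rw [div_le_div_iff₀ (by positivity) (by positivity), ← pow_add, ← pow_add]
    exact pow_le_pow_right₀ (by norm_num) (by omega)
  calc (2 : ℝ) ^ ((d + e₀) / 64) * (2 ^ (4 * μ + 31 + 3 * E) * L / 2 ^ (d / 16))
      = (2 ^ (4 * μ + 31 + 3 * E) * L) * (2 ^ ((d + e₀) / 64) / 2 ^ (d / 16)) := by ring
    _ ≤ (2 ^ (4 * μ + 31 + 3 * E) * L) * (2 ^ e₀ / 2 ^ (d / 32)) :=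
        mul_le_mul_of_nonneg_left e2 (by positivity)
    _ = _ := by rw [pow_add (2 : ℝ) _ e₀]; ring

lemma NN_le {κ Λ μ q e₀ u : ℕ} {M : Fin 3 → ℕ} (hC : Ctx κ Λ μ q e₀ u M) (s d : ℕ) (hs : 1 ≤ s) :
    NN s q u d (M 0) / (TL s μ e₀ d : ℝ) ≤ 1 / 4 := by
  have hT : (TL s μ e₀ d : ℝ) = 4 * 2 ^ (μ + s * (d + e₀)) := by
    rw [TL_eq]; push_cast; ring
  rw [hT, div_le_div_iff₀ (by positivity) (by norm_num), one_mul, mul_comm]
  refine mul_le_mul_of_nonneg_left ?_ (by norm_num)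
  unfold NN
  have h1 : (M 0 : ℝ) ≤ 2 ^ μ := by exact_mod_cast hC.Mle 0
  have hq1 : (1 : ℝ) ≤ q := by exact_mod_cast hC.qpos
  have h2 : (q : ℝ) ^ (s - 1) ≤ q ^ s := pow_le_pow_right₀ hq1 (by omega)
  have h3 : (q : ℝ) * (u * 2 ^ d) ≤ 2 ^ (d + e₀) := by
    have : q * u ≤ 2 ^ e₀ := le_trans (by nlinarith [hC.qpos]) hC.qe
    have h4 : ((q * u : ℕ) : ℝ) ≤ 2 ^ e₀ := by exact_mod_cast this
    push_cast at h4
    rw [pow_add]
    calc (q : ℝ) * (u * 2 ^ d) = (q * u) * 2 ^ d := by ring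
      _ ≤ 2 ^ e₀ * 2 ^ d := mul_le_mul_of_nonneg_right h4 (by positivity)
      _ = 2 ^ d * 2 ^ e₀ := mul_comm _ _
  calc (M 0 : ℝ) * (q : ℝ) ^ (s - 1) * ((u : ℝ) * 2 ^ d) ^ s
      ≤ 2 ^ μ * (q : ℝ) ^ s * ((u : ℝ) * 2 ^ d) ^ s := by gcongr
    _ = 2 ^ μ * ((q : ℝ) * (u * 2 ^ d)) ^ s := by rw [mul_pow (q : ℝ)]; ring
    _ ≤ 2 ^ μ * (2 ^ (d + e₀)) ^ s := by gcongr
    _ = 2 ^ (μ + s * (d + e₀)) := by rw [← pow_mul, pow_add, mul_comm s]

lemma NN_nonneg (s q u d M : ℕ) : 0 ≤ NN s q u d M := by unfold NN; positivity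

lemma Low_zero {T ρ a : ℕ} (hρ : 1 ≤ ρ) (ha : a ≤ ρ ∨ T ≤ a + ρ ∧ a ≤ T) : Low T ρ a := by
  rcases ha with h | h
  · refine ⟨1, 0, le_rfl, hρ, Nat.coprime_one_right _, ?_⟩
    push_cast
    rw [one_mul, zero_mul, sub_zero, abs_of_nonneg (by positivity)]
    exact_mod_cast h
  · refine ⟨1, 1, le_rfl, hρ, Nat.coprime_one_right _, ?_⟩
    push_cast
    rw [one_mul, one_mul, abs_le]
    have h1 : (T : ℤ) ≤ a + ρ := by exact_mod_cast h.1
    have h2 : (a : ℤ) ≤ T := by exact_mod_cast h.2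
    constructor <;> linarith

open Classical in
/-- the bound for given `d` -/
lemma AI_bound {κ Λ μ q e₀ u : ℕ} {M : Fin 3 → ℕ} (hC : Ctx κ Λ μ q e₀ u M) {k s : ℕ}
    (hs : s = 4 * k + 4) (hκ : 320 * s ^ 2 ≤ κ) {d : ℕ} (hd : 8 ≤ d) {v : Fin 3 → Fin s → ℕ}
    (hv : ∀ X, SlotOK q (v X)) (hrel : Rel s q M v) (V : Fin 3 → Finset (Fin s))
    (hV : ∀ X, (V X).card ≤ k) :
    Ex (fun z : Fin 3 → Fin s → Fin (2 ^ d) =>
      if Nat.Coprime (∏ i ∈ V 0, zz q u d (v 0) (z 0) i) (∏ i ∈ V 1, zz q u d (v 1) (z 1) i)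
      then |Ex (fun z' : Fin 3 → Fin s → Fin (2 ^ d) =>
          Wt s q u d M v (fun X => (V X).piecewise (z X) (z' X))) -
        Ex (fun z' : Fin 3 → Fin s → Fin (2 ^ d) =>
          Ws s q u d (KS s μ e₀ d) M v (fun X => (V X).piecewise (z X) (z' X)))|
      else 0) ≤
      5 / 2 ^ (d / 8) + 2 * (2 ^ (3 * s + 10) * ((Λ : ℝ) * u + 1) / 2 ^ (κ / 2) +
        64 / 2 ^ (d / 2)) + Real.sqrt (2 ^ (4 * μ + 31 + 3 * (s * e₀) + e₀) *
          ((μ + s * (d + e₀) + 3 : ℕ) : ℝ) / 2 ^ (d / 32)) := by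
  obtain ⟨ρ, hρ⟩ := exists_rho hrel
  have hs1 : 1 ≤ s := by omega
  set T := TL s μ e₀ d with hT
  set K := KS s μ e₀ d with hK
  have hT0 : 0 < T := TL_pos _ _ _ _
  have hT0' : (0 : ℝ) < T := by exact_mod_cast hT0
  set r : ℝ := NN s q u d (M 0) / (T : ℝ) with hr
  have hr0 : 0 ≤ r := div_nonneg (NN_nonneg _ _ _ _ _) hT0'.le
  have hr4 : r ≤ 1 / 4 := NN_le hC s d hs1
  set c : ℕ → ℂ := fun a => (1 - Kh K T a) * e ((a : ℝ) * (ρ : ℝ) / (T : ℝ)) with hc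
  have hc2 : ∀ a, ‖c a‖ ≤ 2 := by
    intro a
    simp only [hc]
    rw [norm_mul, norm_e, mul_one]
    refine (norm_sub_le _ _).trans ?_
    rw [norm_one]
    have := norm_Kh_le K T a
    linarith
  set t : Fin 3 → ℕ → (Fin s → Fin (2 ^ d)) → ℂ := fun X a z => TT q u d (M X) (v X) T a (V X) z
    with ht
  have ht1 : ∀ X a z, ‖t X a z‖ ≤ 1 := by
    intro X a z
    simp only [ht]
    unfold TT
    refine (norm_ExC_le _).trans ?_
    simp only [norm_e]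
    exact (Ex_const (α := Fin s → Fin (2 ^ d)) 1).le
  set w : ℕ := 2 ^ (d / 8) with hw
  have hw1 : 1 ≤ w := Nat.one_le_two_pow
  set F : ℕ → (Fin 3 → Fin s → Fin (2 ^ d)) → ℂ := fun a z => c a * (t 0 a (z 0) *
    (starRingEnd ℂ) (t 1 a (z 1)) * (starRingEnd ℂ) (t 2 a (z 2))) with hF
  have hFn : ∀ a z, ‖F a z‖ = ‖c a‖ * (‖t 0 a (z 0)‖ * ‖t 1 a (z 1)‖ * ‖t 2 a (z 2)‖) := by
    intro a z
    simp only [hF, norm_mul, RCLike.norm_conj]
  set Z : Finset ℕ := (Finset.range T).filter (fun a => a ≤ w ∨ T ≤ a + w) with hZ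
  set Mj : Finset ℕ := (Finset.range T).filter (fun a => Low T w a ∧ w < a ∧ a + w < T) with hMj
  set Mn : Finset ℕ := (Finset.range T).filter (fun a => ¬ Low T w a) with hMn
  -- pointwise
  have hpt : ∀ z : Fin 3 → Fin s → Fin (2 ^ d),
      |Ex (fun z' : Fin 3 → Fin s → Fin (2 ^ d) =>
          Wt s q u d M v (fun X => (V X).piecewise (z X) (z' X))) -
        Ex (fun z' : Fin 3 → Fin s → Fin (2 ^ d) =>
          Ws s q u d K M v (fun X => (V X).piecewise (z X) (z' X)))| ≤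
      r * ∑ a ∈ Z, ‖c a‖ + r * (2 * ∑ a ∈ Mj, ‖t 0 a (z 0)‖ * ‖t 1 a (z 1)‖ * ‖t 2 a (z 2)‖) +
        r * ‖∑ a ∈ Mn, F a z‖ := by
    intro z
    have h1 := diff_AW (d := d) hC hs1 hd hv hρ V z
    rw [← Real.norm_eq_abs, ← Complex.norm_real, h1]
    have h2 : ∀ a, ((NN s q u d (M 0) / (T : ℝ) : ℝ) : ℂ) *
        ((1 - Kh K T a) * e ((a : ℝ) * (ρ : ℝ) / (T : ℝ))) *
        (TT q u d (M 0) (v 0) T a (V 0) (z 0) *
        (starRingEnd ℂ) (TT q u d (M 1) (v 1) T a (V 1) (z 1)) *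
        (starRingEnd ℂ) (TT q u d (M 2) (v 2) T a (V 2) (z 2))) = (r : ℂ) * F a z := by
      intro a
      simp only [hF, hc, ht, hr]
      ring
    rw [Finset.sum_congr rfl fun a _ => h2 a, ← Finset.mul_sum, norm_mul, Complex.norm_real,
      Real.norm_eq_abs, abs_of_nonneg hr0, ← mul_add, ← mul_add]
    refine mul_le_mul_of_nonneg_left ?_ hr0
    rw [← Finset.sum_filter_add_sum_filter_not (Finset.range T) (fun a => Low T w a)]
    refine (norm_add_le _ _).trans (add_le_add ?_ le_rfl)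
    refine (norm_sum_le _ _).trans ?_
    have h3 : (Finset.range T).filter (fun a => Low T w a) ⊆ Z ∪ Mj := by
      intro a ha
      rw [Finset.mem_filter] at ha
      rw [Finset.mem_union, Finset.mem_filter, Finset.mem_filter]
      by_cases h : a ≤ w ∨ T ≤ a + w
      · exact Or.inl ⟨ha.1, h⟩
      · push Not at h
        exact Or.inr ⟨ha.1, ha.2, h.1, h.2⟩
    refine (Finset.sum_le_sum_of_subset_of_nonneg h3 fun a _ _ => norm_nonneg _).trans ?_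
    have h4 : ∑ a ∈ Z ∪ Mj, ‖F a z‖ ≤ ∑ a ∈ Z, ‖F a z‖ + ∑ a ∈ Mj, ‖F a z‖ := by
      have h5 := Finset.sum_union_inter (f := fun a => ‖F a z‖) (s₁ := Z) (s₂ := Mj)
      have h6 : 0 ≤ ∑ a ∈ Z ∩ Mj, ‖F a z‖ := Finset.sum_nonneg fun a _ => norm_nonneg _
      linarith
    refine h4.trans (add_le_add ?_ ?_)
    · refine Finset.sum_le_sum fun a _ => ?_
      rw [hFn]
      refine mul_le_of_le_one_right (norm_nonneg _) ?_
      have h7 := ht1 0 a (z 0)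
      have h8 := ht1 1 a (z 1)
      have h9 := ht1 2 a (z 2)
      calc ‖t 0 a (z 0)‖ * ‖t 1 a (z 1)‖ * ‖t 2 a (z 2)‖ ≤ 1 * 1 * 1 := by gcongr
        _ = 1 := by norm_num
    · rw [Finset.mul_sum]
      refine Finset.sum_le_sum fun a _ => ?_
      rw [hFn]
      exact mul_le_mul_of_nonneg_right (hc2 a) (by positivity)
  have hpt' : ∀ z : Fin 3 → Fin s → Fin (2 ^ d),
      (if Nat.Coprime (∏ i ∈ V 0, zz q u d (v 0) (z 0) i) (∏ i ∈ V 1, zz q u d (v 1) (z 1) i)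
      then |Ex (fun z' : Fin 3 → Fin s → Fin (2 ^ d) =>
          Wt s q u d M v (fun X => (V X).piecewise (z X) (z' X))) -
        Ex (fun z' : Fin 3 → Fin s → Fin (2 ^ d) =>
          Ws s q u d K M v (fun X => (V X).piecewise (z X) (z' X)))|
      else 0) ≤
      r * ∑ a ∈ Z, ‖c a‖ + r * (2 * ∑ a ∈ Mj, ‖t 0 a (z 0)‖ * ‖t 1 a (z 1)‖ * ‖t 2 a (z 2)‖) +
        r * (if Nat.Coprime (∏ i ∈ V 0, zz q u d (v 0) (z 0) i)
          (∏ i ∈ V 1, zz q u d (v 1) (z 1) i) then ‖∑ a ∈ Mn, F a z‖ else 0) := by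
    intro z
    split_ifs with h
    · exact hpt z
    · positivity
  refine (Ex_mono hpt').trans ?_
  simp only [Ex_add, Ex_mul_left]
  refine add_le_add (add_le_add ?_ ?_) ?_
  · -- zero arc
    rw [Ex_const]
    have hKT : (K : ℝ) / T = 1 / (w : ℝ) ^ 3 := by
      have h1 : (K : ℝ) * (w : ℝ) ^ 3 = T := by
        have := KS_mul (μ := μ) (e₀ := e₀) (d := d) hs1
        rw [← hT, ← hK] at this
        rw [← this, hw]
        push_cast
        rw [← pow_mul, mul_comm (d / 8) 3]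
      rw [div_eq_div_iff hT0'.ne' (by positivity), one_mul, h1]
    have h1 : ∀ a ∈ Z, ‖c a‖ ≤ 2 * Real.pi * (1 / (w : ℝ) ^ 2) := by
      intro a ha
      rw [Finset.mem_filter, Finset.mem_range] at ha
      simp only [hc]
      rw [norm_mul, norm_e, mul_one]
      have h2 := one_sub_Kh_le (K := K) (a := a) hT0 (w : ℝ) (by positivity) (by
        rcases ha.2 with h | h
        · left; exact_mod_cast h
        · right
          refine ⟨?_, ha.1.le⟩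
          have : (T : ℝ) ≤ a + w := by exact_mod_cast h
          linarith)
      refine h2.trans (le_of_eq ?_)
      have hw0 : (w : ℝ) ≠ 0 := by positivity
      rw [mul_div_assoc, hKT]
      field_simp
    have h2 : (Z.card : ℝ) ≤ 3 * w := by
      have h3 : Z ⊆ Finset.Icc 0 w ∪ Finset.Ico (T - w) T := by
        intro a ha
        rw [Finset.mem_filter, Finset.mem_range] at ha
        rw [Finset.mem_union, Finset.mem_Icc, Finset.mem_Ico]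
        omega
      have h4 := (Finset.card_le_card h3).trans (Finset.card_union_le _ _)
      rw [Nat.card_Icc, Nat.card_Ico] at h4
      have h5 : Z.card ≤ 3 * w := by omega
      exact_mod_cast h5
    calc r * ∑ a ∈ Z, ‖c a‖ ≤ r * ∑ a ∈ Z, 2 * Real.pi * (1 / (w : ℝ) ^ 2) :=
          mul_le_mul_of_nonneg_left (Finset.sum_le_sum h1) hr0
      _ = r * (Z.card * (2 * Real.pi * (1 / (w : ℝ) ^ 2))) := by
          rw [Finset.sum_const, nsmul_eq_mul]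
      _ ≤ (1 / 4) * ((3 * w) * (2 * Real.pi * (1 / (w : ℝ) ^ 2))) := by gcongr
      _ = (3 * Real.pi / 2) / w := by
          have hw0 : (w : ℝ) ≠ 0 := by positivity
          field_simp
          norm_num
      _ ≤ 5 / w := by
          refine div_le_div_of_nonneg_right ?_ (by positivity)
          have := Real.pi_lt_d2
          linarith
      _ = 5 / 2 ^ (d / 8) := by rw [hw]; push_cast; rfl
  · -- major
    rw [Ex_sum]
    have h1 := major hC (s := s) (by nlinarith) (d := d) hv V (by intro X; have := hV X; omega)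
    have h2 : ∀ a, Ex (fun z : Fin 3 → Fin s → Fin (2 ^ d) =>
        ‖t 0 a (z 0)‖ * ‖t 1 a (z 1)‖ * ‖t 2 a (z 2)‖) =
        ∏ X : Fin 3, Ex (fun z : Fin s → Fin (2 ^ d) =>
          ‖TT q u d (M X) (v X) (TL s μ e₀ d) a (V X) z‖) := by
      intro a
      rw [Fin.prod_univ_three]
      exact Ex_mul3 (fun z => ‖t 0 a z‖) (fun z => ‖t 1 a z‖) (fun z => ‖t 2 a z‖)
    rw [Finset.sum_congr rfl fun a _ => h2 a]
    have h3 : r * (2 * ∑ a ∈ Mj, ∏ X : Fin 3, Ex (fun z : Fin s → Fin (2 ^ d) =>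
          ‖TT q u d (M X) (v X) (TL s μ e₀ d) a (V X) z‖)) =
        2 * (r * ∑ a ∈ Mj, ∏ X : Fin 3, Ex (fun z : Fin s → Fin (2 ^ d) =>
          ‖TT q u d (M X) (v X) (TL s μ e₀ d) a (V X) z‖)) := by ring
    rw [h3]
    exact mul_le_mul_of_nonneg_left h1 (by norm_num)
  · -- minor
    have h1 := minor hC hs hκ hd hv V hV c hc2
    have h2 : Ex (fun z : Fin 3 → Fin s → Fin (2 ^ d) =>
        if Nat.Coprime (∏ i ∈ V 0, zz q u d (v 0) (z 0) i)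
          (∏ i ∈ V 1, zz q u d (v 1) (z 1) i) then ‖∑ a ∈ Mn, F a z‖ else 0) =
        Ex (fun z₀ : Fin s → Fin (2 ^ d) => Ex (fun z₁ : Fin s → Fin (2 ^ d) =>
      Ex (fun z₂ : Fin s → Fin (2 ^ d) =>
      if Nat.Coprime (∏ i ∈ V 0, zz q u d (v 0) z₀ i) (∏ i ∈ V 1, zz q u d (v 1) z₁ i) then
        ‖∑ a ∈ Mn, c a * (t 0 a z₀ * (starRingEnd ℂ) (t 1 a z₁) * (starRingEnd ℂ) (t 2 a z₂))‖
      else 0))) :=
      Ex3 (fun z₀ z₁ z₂ : Fin s → Fin (2 ^ d) =>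
        if Nat.Coprime (∏ i ∈ V 0, zz q u d (v 0) z₀ i) (∏ i ∈ V 1, zz q u d (v 1) z₁ i) then
        ‖∑ a ∈ Mn, c a * (t 0 a z₀ * (starRingEnd ℂ) (t 1 a z₁) * (starRingEnd ℂ) (t 2 a z₂))‖
        else 0)
    rw [h2]
    have h3 : r ≤ 1 := by linarith
    exact (mul_le_mul h3 h1 (Ex_nonneg fun _ => Ex_nonneg fun _ => Ex_nonneg fun _ => by
      split_ifs <;> positivity) (by norm_num)).trans (by rw [one_mul])

lemma exists_lin_pow (A B : ℝ) (ε : ℝ) (hε : 0 < ε) : ∃ x₀ : ℕ, ∀ x : ℕ, x₀ ≤ x →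
    (A + B * x) / 2 ^ x ≤ ε := by
  have h1 : Filter.Tendsto (fun x : ℕ => (A + B * x) / (2 : ℝ) ^ x) Filter.atTop (nhds 0) := by
    have h2 : Filter.Tendsto (fun x : ℕ => ((1 : ℝ) / 2) ^ x) Filter.atTop (nhds 0) :=
      tendsto_pow_atTop_nhds_zero_of_lt_one (by norm_num) (by norm_num)
    have h3 : Filter.Tendsto (fun x : ℕ => (x : ℝ) * ((1 : ℝ) / 2) ^ x) Filter.atTop (nhds 0) :=
      tendsto_self_mul_const_pow_of_lt_one (by norm_num) (by norm_num)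
    have h4 := (h2.const_mul A).add (h3.const_mul B)
    simp only [mul_zero, add_zero] at h4
    refine h4.congr fun x => ?_
    rw [one_div, inv_pow]
    ring
  have h2 := (h1.eventually (gt_mem_nhds hε)).exists_forall_of_atTop
  obtain ⟨x₀, hx₀⟩ := h2
  exact ⟨x₀, fun x hx => (hx₀ x hx).le⟩

end AIN

open Classical in
/-- the analytic input (proved in other files from L1, L2, L3, L4, major, noncop) -/
theorem AI (k Λ u : ℕ) (ε : ℝ) (hε : 0 < ε) : ∃ κ₀ : ℕ, ∀ (κ μ q e₀ : ℕ) (M : Fin 3 → ℕ),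
    κ₀ ≤ κ → Ctx κ Λ μ q e₀ u M → ∃ d₀ : ℕ, ∀ d : ℕ, d₀ ≤ d →
    ∀ v : Fin 3 → Fin (4 * k + 4) → ℕ, (∀ X, SlotOK q (v X)) → Rel (4 * k + 4) q M v →
    ∀ V : Fin 3 → Finset (Fin (4 * k + 4)), (∀ X, (V X).card ≤ k) →
    Ex (fun z : Fin 3 → Fin (4 * k + 4) → Fin (2 ^ d) =>
      if Nat.Coprime (∏ i ∈ V 0, zz q u d (v 0) (z 0) i) (∏ i ∈ V 1, zz q u d (v 1) (z 1) i)
      then |Ex (fun z' : Fin 3 → Fin (4 * k + 4) → Fin (2 ^ d) =>
          Wt (4 * k + 4) q u d M v (fun X => (V X).piecewise (z X) (z' X))) -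
        Ex (fun z' : Fin 3 → Fin (4 * k + 4) → Fin (2 ^ d) =>
          Ws (4 * k + 4) q u d (KS (4 * k + 4) μ e₀ d) M v
            (fun X => (V X).piecewise (z X) (z' X)))|
      else 0) ≤ ε := by
  obtain ⟨s, hs⟩ : ∃ s : ℕ, s = 4 * k + 4 := ⟨_, rfl⟩
  rw [← hs]
  -- κ₀
  obtain ⟨x₁, hx₁⟩ := AIN.exists_lin_pow (2 ^ (3 * s + 10) * ((Λ : ℝ) * u + 1)) 0 (ε / 8)
    (by positivity)
  refine ⟨max (320 * s ^ 2) (2 * x₁), ?_⟩
  intro κ μ q e₀ M hκ hC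
  obtain ⟨x₂, hx₂⟩ := AIN.exists_lin_pow 5 0 (ε / 8) (by positivity)
  obtain ⟨x₃, hx₃⟩ := AIN.exists_lin_pow 64 0 (ε / 8) (by positivity)
  obtain ⟨x₄, hx₄⟩ := AIN.exists_lin_pow (2 ^ (4 * μ + 31 + 3 * (s * e₀) + e₀) *
    ((μ + s * (32 + e₀) + 3 : ℕ) : ℝ)) (2 ^ (4 * μ + 31 + 3 * (s * e₀) + e₀) *
    ((s * 32 : ℕ) : ℝ)) ((ε / 4) ^ 2) (by positivity)
  refine ⟨8 + 8 * x₂ + 2 * x₃ + 32 * x₄, ?_⟩
  intro d hd v hv hrel V hV
  have hκ1 : 320 * s ^ 2 ≤ κ := (le_max_left _ _).trans hκ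
  have hκ2 : 2 * x₁ ≤ κ := (le_max_right _ _).trans hκ
  refine (AIN.AI_bound hC hs hκ1 (by omega) hv hrel V hV).trans ?_
  have e1 := hx₁ (κ / 2) (by omega)
  have e2 := hx₂ (d / 8) (by omega)
  have e3 := hx₃ (d / 2) (by omega)
  have e4 := hx₄ (d / 32) (by omega)
  rw [zero_mul, add_zero] at e1 e2 e3
  have e5 : Real.sqrt (2 ^ (4 * μ + 31 + 3 * (s * e₀) + e₀) *
          ((μ + s * (d + e₀) + 3 : ℕ) : ℝ) / 2 ^ (d / 32)) ≤ ε / 4 := by
    rw [Real.sqrt_le_left (by positivity)]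
    refine le_trans ?_ e4
    refine div_le_div_of_nonneg_right ?_ (by positivity)
    rw [mul_assoc, ← mul_add]
    refine mul_le_mul_of_nonneg_left ?_ (by positivity)
    have h1 : μ + s * (d + e₀) + 3 ≤ (μ + s * (32 + e₀) + 3) + (s * 32) * (d / 32) := by
      have h2 : d + e₀ ≤ (32 + e₀) + 32 * (d / 32) := by omega
      have h3 := Nat.mul_le_mul_left s h2
      have h4 : s * (32 + e₀ + 32 * (d / 32)) = s * (32 + e₀) + (s * 32) * (d / 32) := by ring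
      omega
    exact_mod_cast h1
  linarith

end Pool.Agent.H366.ZC
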