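import Pool.Agent.H366.ZC.Base

/-! # [DIV] divisors and fibres of products -/

set_option autoImplicit false

namespace Pool.Agent.H366.ZC

open Pool.Agent.H366.GF (Ex ExC)

namespace DivN

open Pool.Agent.H366.GF (prob_union)

lemma card_le_one_of_inj {N : ℕ} (p : Fin N → Prop) [DecidablePred p]
    (h : ∀ a b, p a → p b → a = b) : (Finset.univ.filter p).card ≤ 1 := by
  rw [Finset.card_le_one]
  intro a ha b hb
  rw [Finset.mem_filter] at ha hb
  exact h a b ha.2 hb.2

/-- probability of independent conditions -/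
lemma prob_box {s N : ℕ} (hN : 0 < N) (B : Finset (Fin s)) (S : Fin s → Finset (Fin N))
    (c : Fin s → ℝ) (hS : ∀ i ∈ B, ((S i).card : ℝ) ≤ c i * N)
    [DecidablePred fun h : Fin s → Fin N => ∀ i ∈ B, h i ∈ S i] :
    Ex (fun h : Fin s → Fin N => if ∀ i ∈ B, h i ∈ S i then (1 : ℝ) else 0) ≤ ∏ i ∈ B, c i := by
  classical
  have hN0 : (0 : ℝ) < N := by exact_mod_cast hN
  rw [Ex, Finset.sum_boole]
  have h1 : (Finset.univ.filter fun h : Fin s → Fin N => ∀ i ∈ B, h i ∈ S i) =
      Fintype.piFinset (fun i => if i ∈ B then S i else Finset.univ) := by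
    ext h
    simp only [Finset.mem_filter, Finset.mem_univ, true_and, Fintype.mem_piFinset]
    refine forall_congr' fun i => ?_
    by_cases hi : i ∈ B <;> simp [hi]
  rw [h1, Fintype.card_piFinset, Fintype.card_fun, Fintype.card_fin, Fintype.card_fin]
  push_cast
  have h2 : ((N : ℝ) ^ s) = ∏ _i : Fin s, (N : ℝ) := by
    rw [Finset.prod_const, Finset.card_univ, Fintype.card_fin]
  rw [h2, ← Finset.prod_div_distrib, ← Finset.prod_ite_mem_eq B]
  refine Finset.prod_le_prod (fun i _ => by positivity) fun i _ => ?_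
  by_cases hi : i ∈ B
  · rw [if_pos hi, if_pos hi, div_le_iff₀ hN0]
    exact hS i hi
  · rw [if_neg hi, if_neg hi, Finset.card_univ, Fintype.card_fin, div_self hN0.ne']

/-- the number of the entries of a slot divisible by `w` -/
lemma card_slot {N q a w : ℕ} (_hw : 0 < w) (hc : Nat.Coprime w q) :
    (Finset.univ.filter (fun c : Fin N => w ∣ a + q * (c : ℕ))).card ≤ N / w + 1 := by
  rw [← Finset.card_range (N / w + 1)]
  refine Finset.card_le_card_of_injOn (fun c : Fin N => (c : ℕ) / w) ?_ ?_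
  · intro c _
    simp only [Finset.coe_range, Set.mem_Iio]
    exact Nat.lt_succ_of_le (Nat.div_le_div_right c.2.le)
  · intro x hx y hy hxy
    simp only [Finset.coe_filter, Finset.mem_univ, true_and, Set.mem_ofPred_eq] at hx hy
    have key : ∀ x y : Fin N, w ∣ a + q * (x : ℕ) → w ∣ a + q * (y : ℕ) →
        (x : ℕ) / w = (y : ℕ) / w → (x : ℕ) ≤ y → x = y := by
      intro x y hx hy hxy hle
      have h1 : w ∣ (a + q * (y : ℕ)) - (a + q * (x : ℕ)) := Nat.dvd_sub hy hx
      have h2 : (a + q * (y : ℕ)) - (a + q * (x : ℕ)) = q * ((y : ℕ) - x) := by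
        rw [Nat.mul_sub]
        omega
      rw [h2] at h1
      have h3 : w ∣ (y : ℕ) - x := hc.dvd_of_dvd_mul_left h1
      have h4 : (y : ℕ) % w = (x : ℕ) % w := by
        obtain ⟨t, ht⟩ := h3
        have h5 : (y : ℕ) = x + w * t := by omega
        rw [h5, Nat.add_mul_mod_self_left]
      apply Fin.ext
      rw [← Nat.div_add_mod (x : ℕ) w, ← Nat.div_add_mod (y : ℕ) w, h4, hxy]
    rcases le_total (x : ℕ) (y : ℕ) with h | h
    · exact key x y hx hy hxy h
    · exact (key y x hy hx hxy.symm h).symm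

/-- splitting a divisor of a product -/
lemma split_dvd {s : ℕ} (z : Fin s → ℕ) (B : Finset (Fin s)) :
    ∀ {r : ℕ}, 0 < r → r ∣ ∏ i ∈ B, z i →
      ∃ w : Fin s → ℕ, (∀ i ∈ B, w i ∣ z i) ∧ ∏ i ∈ B, w i = r := by
  classical
  induction B using Finset.induction_on with
  | empty =>
    intro r _ h
    refine ⟨fun _ => 1, by simp, ?_⟩
    rw [Finset.prod_empty] at h ⊢
    exact (Nat.dvd_one.1 h).symm
  | insert i B hi ih =>
    intro r hr h
    rw [Finset.prod_insert hi] at h
    obtain ⟨r1, r2, h1, h2, h3⟩ := exists_dvd_and_dvd_of_dvd_mul h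
    have hr2 : 0 < r2 := Nat.pos_of_ne_zero fun h0 => by
      rw [h3, h0, mul_zero] at hr
      exact lt_irrefl 0 hr
    obtain ⟨w, hw, hw2⟩ := ih hr2 h2
    refine ⟨Function.update w i r1, ?_, ?_⟩
    · intro j hj
      by_cases hji : j = i
      · subst hji
        rw [Function.update_self]
        exact h1
      · rw [Function.update_of_ne hji]
        exact hw j (Finset.mem_of_mem_insert_of_ne hj hji)
    · rw [Finset.prod_insert hi, Function.update_self]
      have h4 : ∏ j ∈ B, Function.update w i r1 j = ∏ j ∈ B, w j := by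
        refine Finset.prod_congr rfl fun j hj => ?_
        rw [Function.update_of_ne]
        rintro rfl
        exact hi hj
      rw [h4, hw2, ← h3]

lemma card_pi {s D : ℕ} (B : Finset (Fin s)) (T : Finset ℕ) (hT : T.card ≤ D) :
    (Fintype.piFinset (fun i : Fin s => if i ∈ B then T else {0})).card ≤ D ^ B.card := by
  classical
  rw [Fintype.card_piFinset]
  have h3 : (∏ i : Fin s, (if i ∈ B then T else {0}).card) = T.card ^ B.card := by
    rw [← Finset.prod_const, ← Finset.prod_ite_mem_eq B]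
    refine Finset.prod_congr rfl fun i _ => ?_
    by_cases hi : i ∈ B <;> simp [hi]
  rw [h3]
  exact Nat.pow_le_pow_left hT _

end DivN

open DivN
open Pool.Agent.H366.GF (prob_union)

/-- [D1] a number without small prime factors has few divisors -/
theorem card_divisors_le {κ n m : ℕ} (hκ : 0 < κ) (hn : 0 < n) (hm : n ≤ 2 ^ m)
    (h : ∀ p : ℕ, p.Prime → p ∣ n → 2 ^ κ ≤ p) : n.divisors.card ≤ 2 ^ (m / κ) := by
  have h1 : n.divisors.card ≤ 2 ^ (∑ p ∈ n.primeFactors, n.factorization p) := by
    rw [Nat.card_divisors hn.ne', ← Finset.prod_pow_eq_pow_sum]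
    refine Finset.prod_le_prod' fun p _ => ?_
    exact Nat.lt_two_pow_self
  refine h1.trans (Nat.pow_le_pow_right (by norm_num) ?_)
  rw [Nat.le_div_iff_mul_le hκ, mul_comm]
  have h2 : 2 ^ (κ * ∑ p ∈ n.primeFactors, n.factorization p) ≤ 2 ^ m := by
    refine le_trans ?_ hm
    have h3 : n = ∏ p ∈ n.primeFactors, p ^ n.factorization p := by
      conv_lhs => rw [← Nat.prod_factorization_pow_eq_self hn.ne']
      rfl
    rw [pow_mul, ← Finset.prod_pow_eq_pow_sum]
    conv_rhs => rw [h3]
    refine Finset.prod_le_prod' fun p hp => ?_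
    exact Nat.pow_le_pow_left (h p (Nat.prime_of_mem_primeFactors hp)
      (Nat.dvd_of_mem_primeFactors hp)) _
  exact (Nat.pow_le_pow_iff_right (by norm_num)).1 h2

/-- [D2] the distribution of a product of slots -/
theorem prob_fibre {κ q u e₀ d s : ℕ} (hκ : 0 < κ) (hq : 0 < q) (hu : 0 < u)
    (he : q * (u + 1) ≤ 2 ^ e₀) (hsm : ∀ p : ℕ, p.Prime → p < 2 ^ κ → p ∣ q) {v : Fin s → ℕ}
    (hv : SlotOK q v) (B : Finset (Fin s)) (w : ℕ) :
    Ex (fun z : Fin s → Fin (2 ^ d) => if ∏ i ∈ B, zz q u d v z i = w then (1 : ℝ) else 0) ≤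
      ((2 : ℝ) ^ (B.card * (d + e₀) / κ)) ^ B.card / 2 ^ (d * B.card) := by
  classical
  by_cases hex : ∃ h : Fin s → Fin (2 ^ d), ∏ i ∈ B, zz q u d v h i = w
  · obtain ⟨h0, hh0⟩ := hex
    have hw0 : 0 < w := hh0 ▸ prod_zz_pos hq hu h0 B
    have hwle : w ≤ 2 ^ (B.card * (d + e₀)) := hh0 ▸ prod_zz_le he hv h0 B
    have hcop : Nat.Coprime w q := hh0 ▸ prod_zz_cop hv h0 B
    have hcard : w.divisors.card ≤ 2 ^ (B.card * (d + e₀) / κ) := by
      refine card_divisors_le hκ hw0 hwle fun p hp hpw => ?_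
      by_contra hlt
      push Not at hlt
      have := Nat.dvd_gcd hpw (hsm p hp hlt)
      rw [hcop] at this
      exact hp.one_lt.ne' (Nat.dvd_one.1 this)
    have h1 := prob_union
      (Fintype.piFinset (fun i : Fin s => if i ∈ B then w.divisors else {0}))
      (fun h : Fin s → Fin (2 ^ d) => ∏ i ∈ B, zz q u d v h i = w)
      (fun t h => ∀ i ∈ B, h i ∈ Finset.univ.filter (fun c : Fin (2 ^ d) =>
        v i + q * (u * 2 ^ d + (c : ℕ)) = t i))
      (by
        intro h hh
        refine ⟨fun i => if i ∈ B then zz q u d v h i else 0, ?_, ?_⟩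
        · rw [Fintype.mem_piFinset]
          intro i
          by_cases hi : i ∈ B
          · simp only [if_pos hi]
            rw [Nat.mem_divisors]
            exact ⟨hh ▸ Finset.dvd_prod_of_mem _ hi, hw0.ne'⟩
          · simp [if_neg hi]
        · intro i hi
          simp only [if_pos hi, Finset.mem_filter, Finset.mem_univ, true_and]
          rfl)
      (∏ i ∈ B, 1 / (2 : ℝ) ^ d)
      (by
        intro t _
        refine prob_box (by positivity) B _ (fun _ => 1 / (2 : ℝ) ^ d) ?_
        intro i _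
        have h2 : (Finset.univ.filter (fun c : Fin (2 ^ d) =>
            v i + q * (u * 2 ^ d + (c : ℕ)) = t i)).card ≤ 1 := by
          refine card_le_one_of_inj _ fun a b ha hb => ?_
          have h3 : q * (u * 2 ^ d + (a : ℕ)) = q * (u * 2 ^ d + (b : ℕ)) :=
            Nat.add_left_cancel (ha.trans hb.symm)
          exact Fin.ext (Nat.add_left_cancel (Nat.eq_of_mul_eq_mul_left hq h3))
        have h4 : (1 / (2 : ℝ) ^ d) * ((2 ^ d : ℕ) : ℝ) = 1 := by
          push_cast
          field_simp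
        rw [h4]
        exact_mod_cast h2)
    refine h1.trans ?_
    rw [Finset.prod_const, one_div, inv_pow, ← div_eq_mul_inv, ← pow_mul]
    refine div_le_div_of_nonneg_right ?_ (by positivity)
    have h5 := card_pi B w.divisors hcard
    exact_mod_cast h5
  · push Not at hex
    have h1 : Ex (fun h : Fin s → Fin (2 ^ d) =>
        if ∏ i ∈ B, zz q u d v h i = w then (1 : ℝ) else 0) = 0 := by
      rw [Ex, Finset.sum_eq_zero, zero_div]
      intro h _
      rw [if_neg (hex h)]
    rw [h1]
    positivity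

/-- [D3] the probability that a number divides a product of slots -/
theorem prob_dvd {q u d s r : ℕ} (hr : 0 < r) (hrd : r ≤ 2 ^ d) (hrq : Nat.Coprime r q)
    (v : Fin s → ℕ) (B : Finset (Fin s)) :
    Ex (fun z : Fin s → Fin (2 ^ d) => if r ∣ ∏ i ∈ B, zz q u d v z i then (1 : ℝ) else 0) ≤
      ((r.divisors.card : ℝ) * 2) ^ B.card / r := by
  classical
  have h1 := prob_union
    ((Fintype.piFinset (fun i : Fin s => if i ∈ B then r.divisors else {0})).filter
      (fun w => ∏ i ∈ B, w i = r))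
    (fun h : Fin s → Fin (2 ^ d) => r ∣ ∏ i ∈ B, zz q u d v h i)
    (fun w h => ∀ i ∈ B, h i ∈ Finset.univ.filter (fun c : Fin (2 ^ d) =>
      w i ∣ (v i + q * (u * 2 ^ d)) + q * (c : ℕ)))
    (by
      intro h hh
      obtain ⟨w, hw, hw2⟩ := split_dvd (fun i => zz q u d v h i) B hr hh
      refine ⟨fun i => if i ∈ B then w i else 0, ?_, ?_⟩
      · rw [Finset.mem_filter, Fintype.mem_piFinset]
        constructor
        · intro i
          by_cases hi : i ∈ B
          · simp only [if_pos hi]
            rw [Nat.mem_divisors]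
            exact ⟨hw2 ▸ Finset.dvd_prod_of_mem _ hi, hr.ne'⟩
          · simp [if_neg hi]
        · rw [← hw2]
          exact Finset.prod_congr rfl fun i hi => if_pos hi
      · intro i hi
        simp only [if_pos hi, Finset.mem_filter, Finset.mem_univ, true_and]
        have h2 := hw i hi
        have h3 : zz q u d v h i = (v i + q * (u * 2 ^ d)) + q * (h i : ℕ) := by
          unfold zz
          ring
        rw [h3] at h2
        exact h2)
    ((2 : ℝ) ^ B.card / r)
    (by
      intro w hw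
      rw [Finset.mem_filter, Fintype.mem_piFinset] at hw
      have hw1 : ∀ i ∈ B, 0 < w i ∧ w i ∣ r := by
        intro i hi
        have := hw.1 i
        rw [if_pos hi, Nat.mem_divisors] at this
        exact ⟨Nat.pos_of_dvd_of_pos this.1 hr, this.1⟩
      have hprod : ∏ i ∈ B, (2 / (w i : ℝ)) = (2 : ℝ) ^ B.card / r := by
        rw [Finset.prod_div_distrib, Finset.prod_const, ← hw.2]
        push_cast
        rfl
      rw [← hprod]
      refine prob_box (by positivity) B _ (fun i => 2 / (w i : ℝ)) ?_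
      intro i hi
      obtain ⟨hwi, hwr⟩ := hw1 i hi
      have h4 := card_slot (N := 2 ^ d) (a := v i + q * (u * 2 ^ d)) hwi
        (Nat.Coprime.coprime_dvd_left hwr hrq)
      have h5 : ((Finset.univ.filter (fun c : Fin (2 ^ d) =>
          w i ∣ (v i + q * (u * 2 ^ d)) + q * (c : ℕ))).card : ℝ) ≤
          ((2 ^ d / w i + 1 : ℕ) : ℝ) := by exact_mod_cast h4
      refine h5.trans ?_
      have hw0 : (0 : ℝ) < w i := by exact_mod_cast hwi
      have h6 : ((2 ^ d / w i : ℕ) : ℝ) ≤ ((2 ^ d : ℕ) : ℝ) / (w i : ℝ) := Nat.cast_div_le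
      have h7 : (1 : ℝ) ≤ ((2 ^ d : ℕ) : ℝ) / (w i : ℝ) := by
        rw [one_le_div hw0]
        exact_mod_cast (Nat.le_of_dvd hr hwr).trans hrd
      push_cast at h6 h7 ⊢
      have h8 : 2 / (w i : ℝ) * 2 ^ d = 2 ^ d / (w i : ℝ) + 2 ^ d / (w i : ℝ) := by ring
      rw [h8]
      linarith)
  refine h1.trans ?_
  rw [mul_pow, mul_div_assoc]
  refine mul_le_mul_of_nonneg_right ?_ (by positivity)
  have h4 := (Finset.card_filter_le
    (Fintype.piFinset (fun i : Fin s => if i ∈ B then r.divisors else {0}))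
    (fun w => ∏ i ∈ B, w i = r)).trans (card_pi B r.divisors le_rfl)
  exact_mod_cast h4

end Pool.Agent.H366.ZC
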