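import Pool.Graph.R_seed8.H39R2.Gon.B2

/-! # [FINZ] from the key theorem to all arguments -/

set_option autoImplicit false

namespace Pool.Agent.H366.ZC

open H39Gon

/-- the triples of the key theorem -/
structure Trip (κ A B C : ℕ) : Prop where
  hA : 0 < A
  hB : 0 < B
  hC : 0 < C
  hAB : Nat.Coprime A B
  hAC : Nat.Coprime A C
  hBC : Nat.Coprime B C
  small : ∀ p : ℕ, p.Prime → (p ∣ A * B * C ↔ p < 2 ^ κ)
  two : ∃ p₁ p₂ : ℕ, p₁.Prime ∧ p₂.Prime ∧ p₁ ≠ p₂ ∧ p₁ ∣ A ∧ p₂ ∣ A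
  B1 : B ≠ 1
  C1 : C ≠ 1

namespace FinZN

open Polynomial H39Gon.TaskB

section trick

variable {V : Type} [AddCommGroup V] {m : ℕ}

/-- expansion of a multilinear map along a line -/
lemma expand {M : Type} [AddCommGroup M] (R : MultilinearMap ℤ (fun _ : Fin m => V) M) (x y : V)
    (i : ℤ) : R (fun _ => i • x + y) = ∑ s : Finset (Fin m),
      i ^ s.card • R (s.piecewise (fun _ => x) (fun _ => y)) := by
  classical
  have h2 := R.map_add_univ (fun _ => i • x) (fun _ => y)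
  have h3 : ((fun _ => i • x) + fun _ => y : Fin m → V) = fun _ => i • x + y := rfl
  rw [h3] at h2
  rw [h2]
  refine Finset.sum_congr rfl fun s _ => ?_
  have h4 := R.map_piecewise_smul (fun _ => i) (s.piecewise (fun _ => x) (fun _ => y)) s
  rw [Finset.prod_const] at h4
  rw [← h4]
  congr 1
  funext j
  by_cases hj : j ∈ s
  · simp [Finset.piecewise_eq_of_mem, hj]
  · simp [Finset.piecewise_eq_of_notMem, hj]

/-- a real polynomial which vanishes at all large integers is zero -/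
lemma poly_vanish (p : ℝ[X]) (L : ℕ) (h : ∀ i : ℕ, L ≤ i → p.eval ((i : ℤ) : ℝ) = 0) : p = 0 := by
  refine eq_zero_of_infinite_isRoot p ?_
  have h1 : Set.Infinite ((fun i : ℕ => (i : ℝ)) '' Set.Ici L) :=
    (Set.Ici_infinite L).image (Nat.cast_injective.injOn)
  refine h1.mono ?_
  rintro _ ⟨j, hj, rfl⟩
  have h2 := h j hj
  simpa using h2

/-- the polynomial trick for `R` -/
lemma trickR (R : MultilinearMap ℤ (fun _ : Fin m => V) ℝ) (x y : V) (L : ℕ)
    (h : ∀ i : ℕ, L ≤ i → R (fun _ => (i : ℤ) • x + y) = 0) (i : ℤ) :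
    R (fun _ => i • x + y) = 0 := by
  classical
  have hp : ∀ i : ℤ, R (fun _ => i • x + y) = (∑ s : Finset (Fin m), X ^ s.card *
      C (R (s.piecewise (fun _ => x) (fun _ => y))) : ℝ[X]).eval (i : ℝ) := by
    intro i
    rw [expand, eval_finsetSum]
    refine Finset.sum_congr rfl fun s _ => ?_
    rw [zsmul_eq_mul]
    simp only [eval_mul, eval_pow, eval_X, eval_C]
    push_cast
    ring
  have h0 := poly_vanish _ L (fun i hi => (hp i).symm.trans (h i hi))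
  rw [hp, h0, eval_zero]

/-- the polynomial trick for `P` -/
lemma trickP (P : MultilinearMap ℤ (fun _ : Fin m => V) (V →ₗ[ℤ] ℝ)) (x y v w : V) (L : ℕ)
    (h : ∀ i : ℕ, L ≤ i → P (fun _ => (i : ℤ) • x + y) ((i : ℤ) • v + w) = 0) (i : ℤ) :
    P (fun _ => i • x + y) (i • v + w) = 0 := by
  classical
  have hp : ∀ i : ℤ, P (fun _ => i • x + y) (i • v + w) =
      (∑ s : Finset (Fin m), X ^ s.card *
        (C (P (s.piecewise (fun _ => x) (fun _ => y)) v) * X +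
          C (P (s.piecewise (fun _ => x) (fun _ => y)) w)) : ℝ[X]).eval (i : ℝ) := by
    intro i
    rw [expand, LinearMap.sum_apply, eval_finsetSum]
    refine Finset.sum_congr rfl fun s _ => ?_
    rw [LinearMap.smul_apply, map_add, map_zsmul, zsmul_eq_mul, zsmul_eq_mul]
    simp only [eval_mul, eval_pow, eval_X, eval_add, eval_C]
    push_cast
    ring
  have h0 := poly_vanish _ L (fun i hi => (hp i).symm.trans (h i hi))
  rw [hp, h0, eval_zero]

/-- the trick with a fixed second variable -/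
lemma trickP' (P : MultilinearMap ℤ (fun _ : Fin m => V) (V →ₗ[ℤ] ℝ)) (x y w : V) (L : ℕ)
    (h : ∀ i : ℕ, L ≤ i → P (fun _ => (i : ℤ) • x + y) w = 0) (i : ℤ) :
    P (fun _ => i • x + y) w = 0 := by
  have h1 := trickP P x y 0 w L (fun i hi => by rw [smul_zero, zero_add]; exact h i hi) i
  rwa [smul_zero, zero_add] at h1

/-- doubling the first variable -/
lemma two_left (P : MultilinearMap ℤ (fun _ : Fin m => V) (V →ₗ[ℤ] ℝ)) (u v : V) :
    P (fun _ => (2 : ℤ) • u) v = 2 ^ m * P (fun _ => u) v := by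
  have h := P.map_smul_univ (fun _ => (2 : ℤ)) (fun _ => u)
  rw [h, LinearMap.smul_apply, zsmul_eq_mul]
  simp

lemma two_R (R : MultilinearMap ℤ (fun _ : Fin m => V) ℝ) (u : V) :
    R (fun _ => (2 : ℤ) • u) = 2 ^ m * R (fun _ => u) := by
  have h := R.map_smul_univ (fun _ => (2 : ℤ)) (fun _ => u)
  rw [h, zsmul_eq_mul]
  simp

lemma abs1 (a A b B : V) (L : ℤ) :
    b + L • B - (a + L • A) = L • (B - A) + (b - a) := by
  rw [smul_sub]; abel

end trick

/-! ### classes of positive integers -/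

/-- the class of a natural number -/
noncomputable def br (a : ℕ) : UV ℚ := cl (a : ℚ)

lemma br_mul {a b : ℕ} (ha : 0 < a) (hb : 0 < b) : br (a * b) = br a + br b := by
  unfold br
  rw [Nat.cast_mul, cl_mul (by positivity) (by positivity)]

lemma br_pow {a : ℕ} (ha : 0 < a) (n : ℕ) : br (a ^ n) = (n : ℤ) • br a := by
  unfold br
  rw [Nat.cast_pow, cl_pow (by positivity), natCast_zsmul]

lemma br_one : br 1 = 0 := by
  unfold br
  rw [Nat.cast_one, cl_one]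

/-- every class is, up to torsion, a difference of classes of coprime positive integers -/
lemma decomp (u : UV ℚ) : ∃ b a : ℕ, 0 < b ∧ 0 < a ∧ Nat.Coprime b a ∧
    (2 : ℤ) • u = (2 : ℤ) • (br b - br a) := by
  obtain ⟨f, hf, rfl⟩ := exists_cl u
  refine ⟨f.num.natAbs, f.den, ?_, f.den_pos, f.reduced, ?_⟩
  · exact Int.natAbs_pos.mpr (Rat.num_ne_zero.mpr hf)
  · have hb : (0 : ℚ) < (f.num.natAbs : ℚ) := by
      exact_mod_cast Int.natAbs_pos.mpr (Rat.num_ne_zero.mpr hf)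
    have ha : (0 : ℚ) < (f.den : ℚ) := by exact_mod_cast f.den_pos
    have h1 : f ^ 2 = ((f.num.natAbs : ℚ) / (f.den : ℚ)) ^ 2 := by
      have h2 : f = (f.num : ℚ) / (f.den : ℚ) := (Rat.num_div_den f).symm
      have h3 : ((f.num.natAbs : ℚ)) ^ 2 = (f.num : ℚ) ^ 2 := by
        rw [Nat.cast_natAbs, Int.cast_abs, sq_abs]
      rw [div_pow, h3, ← div_pow, ← h2]
    have h4 : ∀ x : UV ℚ, (2 : ℤ) • x = 2 • x := fun x => by
      rw [← natCast_zsmul]; rfl
    have h5 : br f.num.natAbs - br f.den = cl ((f.num.natAbs : ℚ) / (f.den : ℚ)) := by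
      unfold br
      rw [cl_div hb.ne' ha.ne']
    rw [h5, h4, h4, ← cl_pow hf, ← cl_pow (div_pos hb ha).ne', h1]

/-- a large prime -/
lemma exists_triple {a b c : ℕ} (ha : 0 < a) (hb : 0 < b) (hc : 0 < c) (hab : Nat.Coprime a b)
    (hac : Nat.Coprime a c) (hbc : Nat.Coprime b c) (κ₁ : ℕ) :
    ∃ κ A1 B1 C1 : ℕ, κ₁ ≤ κ ∧ 0 < A1 ∧ 0 < B1 ∧ 0 < C1 ∧ ∀ L : ℕ, 1 ≤ L →
      Trip κ (a * A1 ^ L) (b * B1 ^ L) (c * C1 ^ L) := by
  classical
  obtain ⟨p1, hp1, hp1p⟩ := Nat.exists_infinite_primes (a * b * c + 1)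
  obtain ⟨p2, hp2, hp2p⟩ := Nat.exists_infinite_primes (p1 + 1)
  obtain ⟨p3, hp3, hp3p⟩ := Nat.exists_infinite_primes (p2 + 1)
  obtain ⟨p4, hp4, hp4p⟩ := Nat.exists_infinite_primes (p3 + 1)
  have habc : 0 < a * b * c := by positivity
  obtain ⟨κ, hκ⟩ : ∃ κ, κ = κ₁ + p4 + 1 := ⟨_, rfl⟩
  have hbig : ∀ n, n ≤ p4 → n < 2 ^ κ := by
    intro n hn
    have := Nat.lt_two_pow_self (n := κ)
    omega
  have hdvd : ∀ q, q ∣ a * b * c → q < p1 := by
    intro q hq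
    have := Nat.le_of_dvd habc hq
    omega
  have hda : ∀ q, q ∣ a → q ∣ a * b * c := fun q h => (h.mul_right b).mul_right c
  have hdb : ∀ q, q ∣ b → q ∣ a * b * c := fun q h => (h.mul_left a).mul_right c
  have hdc : ∀ q, q ∣ c → q ∣ a * b * c := fun q h => h.mul_left (a * b)
  obtain ⟨S, hS⟩ : ∃ S : Finset ℕ, S = (Finset.range (2 ^ κ)).filter Nat.Prime := ⟨_, rfl⟩
  have hSm : ∀ q, q ∈ S ↔ q < 2 ^ κ ∧ q.Prime := by
    intro q; rw [hS, Finset.mem_filter, Finset.mem_range]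
  have hprod : ∀ (T : Finset ℕ), T ⊆ S → ∀ q : ℕ, q.Prime → (q ∣ ∏ r ∈ T, r ↔ q ∈ T) := by
    intro T hT q hq
    rw [Prime.dvd_finsetProd_iff hq.prime (fun r => r)]
    constructor
    · rintro ⟨r, hr, h⟩
      have hr' := ((hSm r).1 (hT hr)).2
      rwa [(Nat.prime_dvd_prime_iff_eq hq hr').1 h]
    · intro h
      exact ⟨q, h, dvd_rfl⟩
  have hpos : ∀ (T : Finset ℕ), T ⊆ S → 0 < ∏ r ∈ T, r := by
    intro T hT
    exact Finset.prod_pos fun r hr => ((hSm r).1 (hT hr)).2.pos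
  obtain ⟨A1, hA1⟩ : ∃ A1 : ℕ, A1 = ∏ r ∈ S.filter (fun q => ¬ q ∣ b * c ∧ q ≠ p3 ∧ q ≠ p4), r :=
    ⟨_, rfl⟩
  obtain ⟨B1, hB1⟩ : ∃ B1 : ℕ, B1 = ∏ r ∈ S.filter (fun q => q ∣ b ∨ q = p3), r := ⟨_, rfl⟩
  obtain ⟨C1, hC1⟩ : ∃ C1 : ℕ, C1 = ∏ r ∈ S.filter (fun q => q ∣ c ∨ q = p4), r := ⟨_, rfl⟩
  have pA : 0 < A1 := by rw [hA1]; exact hpos _ (Finset.filter_subset _ _)
  have pB : 0 < B1 := by rw [hB1]; exact hpos _ (Finset.filter_subset _ _)
  have pC : 0 < C1 := by rw [hC1]; exact hpos _ (Finset.filter_subset _ _)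
  have dA : ∀ q : ℕ, q.Prime → (q ∣ A1 ↔ q < 2 ^ κ ∧ ¬ q ∣ b * c ∧ q ≠ p3 ∧ q ≠ p4) := by
    intro q hq
    rw [hA1, hprod _ (Finset.filter_subset _ _) q hq, Finset.mem_filter, hSm]
    tauto
  have dB : ∀ q : ℕ, q.Prime → (q ∣ B1 ↔ q < 2 ^ κ ∧ (q ∣ b ∨ q = p3)) := by
    intro q hq
    rw [hB1, hprod _ (Finset.filter_subset _ _) q hq, Finset.mem_filter, hSm]
    tauto
  have dC : ∀ q : ℕ, q.Prime → (q ∣ C1 ↔ q < 2 ^ κ ∧ (q ∣ c ∨ q = p4)) := by
    intro q hq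
    rw [hC1, hprod _ (Finset.filter_subset _ _) q hq, Finset.mem_filter, hSm]
    tauto
  refine ⟨κ, A1, B1, C1, by omega, pA, pB, pC, fun L hL => ?_⟩
  have hL0 : L ≠ 0 := by omega
  have vA : ∀ q : ℕ, q.Prime → (q ∣ a * A1 ^ L ↔
      q ∣ a ∨ (q < 2 ^ κ ∧ ¬ q ∣ b * c ∧ q ≠ p3 ∧ q ≠ p4)) := by
    intro q hq
    rw [hq.dvd_mul, hq.prime.dvd_pow_iff_dvd hL0, dA q hq]
  have vB : ∀ q : ℕ, q.Prime → (q ∣ b * B1 ^ L ↔ q ∣ b ∨ q = p3) := by
    intro q hq
    rw [hq.dvd_mul, hq.prime.dvd_pow_iff_dvd hL0, dB q hq]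
    constructor
    · tauto
    · rintro (h | h)
      · exact Or.inl h
      · exact Or.inr ⟨hbig q (by omega), Or.inr h⟩
  have vC : ∀ q : ℕ, q.Prime → (q ∣ c * C1 ^ L ↔ q ∣ c ∨ q = p4) := by
    intro q hq
    rw [hq.dvd_mul, hq.prime.dvd_pow_iff_dvd hL0, dC q hq]
    constructor
    · tauto
    · rintro (h | h)
      · exact Or.inl h
      · exact Or.inr ⟨hbig q (by omega), Or.inr h⟩
  have nd : ∀ {x y : ℕ}, Nat.Coprime x y → ∀ q : ℕ, q.Prime → q ∣ x → ¬ q ∣ y := by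
    intro x y h q hq h1 h2
    exact hq.one_lt.ne' (Nat.dvd_one.1 (h ▸ Nat.dvd_gcd h1 h2))
  have n3a : ¬ p3 ∣ a := fun h => by have := hdvd _ (hda _ h); omega
  have n3b : ¬ p3 ∣ b := fun h => by have := hdvd _ (hdb _ h); omega
  have n3c : ¬ p3 ∣ c := fun h => by have := hdvd _ (hdc _ h); omega
  have n4a : ¬ p4 ∣ a := fun h => by have := hdvd _ (hda _ h); omega
  have n4b : ¬ p4 ∣ b := fun h => by have := hdvd _ (hdb _ h); omega
  have n1 : ¬ p1 ∣ b * c := fun h => by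
    have h1 : p1 ∣ a * b * c := by rw [mul_assoc]; exact h.mul_left a
    have := hdvd _ h1; omega
  have n2 : ¬ p2 ∣ b * c := fun h => by
    have h1 : p2 ∣ a * b * c := by rw [mul_assoc]; exact h.mul_left a
    have := hdvd _ h1; omega
  refine ⟨by positivity, by positivity, by positivity, ?_, ?_, ?_, ?_, ?_, ?_, ?_⟩
  · refine Nat.coprime_of_dvd fun q hq h1 h2 => ?_
    rw [vA q hq] at h1
    rw [vB q hq] at h2
    rcases h2 with h2 | h2
    · rcases h1 with h1 | h1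
      · exact nd hab q hq h1 h2
      · exact h1.2.1 (h2.mul_right c)
    · rcases h1 with h1 | h1
      · rw [h2] at h1; exact n3a h1
      · exact h1.2.2.1 h2
  · refine Nat.coprime_of_dvd fun q hq h1 h2 => ?_
    rw [vA q hq] at h1
    rw [vC q hq] at h2
    rcases h2 with h2 | h2
    · rcases h1 with h1 | h1
      · exact nd hac q hq h1 h2
      · exact h1.2.1 (h2.mul_left b)
    · rcases h1 with h1 | h1
      · rw [h2] at h1; exact n4a h1
      · exact h1.2.2.2 h2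
  · refine Nat.coprime_of_dvd fun q hq h1 h2 => ?_
    rw [vB q hq] at h1
    rw [vC q hq] at h2
    rcases h2 with h2 | h2
    · rcases h1 with h1 | h1
      · exact nd hbc q hq h1 h2
      · rw [h1] at h2; exact n3c h2
    · rcases h1 with h1 | h1
      · rw [h2] at h1; exact n4b h1
      · omega
  · intro q hq
    rw [hq.dvd_mul, hq.dvd_mul, vA q hq, vB q hq, vC q hq]
    have ea : q ∣ a → q < 2 ^ κ := fun h => hbig q (by have := hdvd _ (hda _ h); omega)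
    have eb : q ∣ b → q < 2 ^ κ := fun h => hbig q (by have := hdvd _ (hdb _ h); omega)
    have ec : q ∣ c → q < 2 ^ κ := fun h => hbig q (by have := hdvd _ (hdc _ h); omega)
    have e3 : q = p3 → q < 2 ^ κ := fun h => hbig q (by omega)
    have e4 : q = p4 → q < 2 ^ κ := fun h => hbig q (by omega)
    constructor
    · rintro (((h | h) | (h | h)) | (h | h))
      · exact ea h
      · exact h.1
      · exact eb h
      · exact e3 h
      · exact ec h
      · exact e4 h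
    · intro hN
      by_cases h3 : q = p3
      · exact Or.inl (Or.inr (Or.inr h3))
      by_cases h4 : q = p4
      · exact Or.inr (Or.inr h4)
      by_cases hbc' : q ∣ b * c
      · rcases hq.dvd_mul.1 hbc' with h | h
        · exact Or.inl (Or.inr (Or.inl h))
        · exact Or.inr (Or.inl h)
      · exact Or.inl (Or.inl (Or.inr ⟨hN, hbc', h3, h4⟩))
  · refine ⟨p1, p2, hp1p, hp2p, by omega, ?_, ?_⟩
    · rw [vA p1 hp1p]
      exact Or.inr ⟨hbig p1 (by omega), n1, by omega, by omega⟩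
    · rw [vA p2 hp2p]
      exact Or.inr ⟨hbig p2 (by omega), n2, by omega, by omega⟩
  · intro h
    have h1 : p3 ∣ b * B1 ^ L := (vB p3 hp3p).2 (Or.inr rfl)
    rw [h] at h1
    exact hp3p.one_lt.ne' (Nat.dvd_one.1 h1)
  · intro h
    have h1 : p4 ∣ c * C1 ^ L := (vC p4 hp4p).2 (Or.inr rfl)
    rw [h] at h1
    exact hp4p.one_lt.ne' (Nat.dvd_one.1 h1)

section main

variable {m : ℕ}

/-- the hypothesis of FINZ1 -/
def KP (P : MultilinearMap ℤ (fun _ : Fin m => UV ℚ) (UV ℚ →ₗ[ℤ] ℝ)) (κ₁ : ℕ) : Prop :=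
  ∀ κ : ℕ, κ₁ ≤ κ → ∀ A B C : ℕ, Trip κ A B C →
    P (fun _ => cl (B : ℚ) - cl (A : ℚ)) (cl (C : ℚ) - cl (A : ℚ)) = 0

variable {P : MultilinearMap ℤ (fun _ : Fin m => UV ℚ) (UV ℚ →ₗ[ℤ] ℝ)} {κ₁ : ℕ}

/-- step 1: all pairwise coprime triples -/
lemma E1 (h : KP P κ₁) {a b c : ℕ} (ha : 0 < a) (hb : 0 < b) (hc : 0 < c) (hab : Nat.Coprime a b)
    (hac : Nat.Coprime a c) (hbc : Nat.Coprime b c) :
    P (fun _ => br b - br a) (br c - br a) = 0 := by
  obtain ⟨κ, A1, B1, C1, hκ, hA, hB, hC, hT⟩ := exists_triple ha hb hc hab hac hbc κ₁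
  have key := trickP P (br B1 - br A1) (br b - br a) (br C1 - br A1) (br c - br a) 1 ?_ 0
  · simpa using key
  intro L hL
  have h1 := h κ hκ _ _ _ (hT L hL)
  have h2 : ∀ x y : ℕ, 0 < x → 0 < y → cl ((x * y ^ L : ℕ) : ℚ) = br x + (L : ℤ) • br y := by
    intro x y hx hy
    have : cl ((x * y ^ L : ℕ) : ℚ) = br (x * y ^ L) := rfl
    rw [this, br_mul hx (by positivity), br_pow hy]
  rw [h2 a A1 ha hA, h2 b B1 hb hB, h2 c C1 hc hC, abs1, abs1] at h1
  exact h1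

/-- step 2 -/
lemma E2 (h : KP P κ₁) {a b : ℕ} (ha : 0 < a) (hb : 0 < b) (hab : Nat.Coprime a b) :
    P (fun _ => br b - br a) (br a) = 0 := by
  have h1 := E1 h ha hb one_pos hab (Nat.coprime_one_right a) (Nat.coprime_one_right b)
  rw [br_one, zero_sub, map_neg, neg_eq_zero] at h1
  exact h1

/-- step 3 -/
lemma E3 (h : KP P κ₁) {x y p : ℕ} (hx : 0 < x) (hy : 0 < y) (hp : 0 < p)
    (hxp : Nat.Coprime x p) (hyp : Nat.Coprime y p) (i j r : ℤ) :
    P (fun _ => i • br x + (j • br y + r • (-br p))) (br p) = 0 := by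
  refine trickP' P (br x) _ (br p) 0 (fun i _ => ?_) i
  have e1 : ∀ u v w : UV ℚ, u + (v + w) = v + (u + w) := fun u v w => by abel
  rw [e1]
  refine trickP' P (br y) _ (br p) 0 (fun j _ => ?_) j
  have e2 : ∀ u v w : UV ℚ, u + (v + w) = w + (u + v) := fun u v w => by abel
  rw [e2]
  refine trickP' P (-br p) _ (br p) 1 (fun r hr => ?_) r
  have h1 := E2 h (a := p ^ r) (b := x ^ i * y ^ j) (by positivity) (by positivity)
    (Nat.Coprime.mul_right (Nat.Coprime.pow r i hxp.symm) (Nat.Coprime.pow r j hyp.symm))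
  rw [br_mul (by positivity) (by positivity), br_pow hx, br_pow hy, br_pow hp, map_zsmul,
    zsmul_eq_mul] at h1
  have h2 : (((r : ℕ) : ℤ) : ℝ) ≠ 0 := by
    have : r ≠ 0 := by omega
    exact_mod_cast this
  have h3 := (mul_eq_zero.1 h1).resolve_left h2
  have e3 : ((r : ℕ) : ℤ) • (-br p) + (((j : ℕ) : ℤ) • br y + ((i : ℕ) : ℤ) • br x) =
      (((i : ℕ) : ℤ) • br x + ((j : ℕ) : ℤ) • br y) - ((r : ℕ) : ℤ) • br p := by
    rw [smul_neg]; abel
  rw [e3]
  exact h3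

/-- step 4 -/
lemma E4 (h : KP P κ₁) {p : ℕ} (hp : p.Prime) (u : UV ℚ) : P (fun _ => u) (br p) = 0 := by
  obtain ⟨b, a, hb, ha, -, hu⟩ := decomp u
  obtain ⟨s, x, hx, hbx⟩ := Nat.exists_eq_pow_mul_and_not_dvd hb.ne' p hp.one_lt.ne'
  obtain ⟨t, y, hy, hay⟩ := Nat.exists_eq_pow_mul_and_not_dvd ha.ne' p hp.one_lt.ne'
  have hx0 : 0 < x := Nat.pos_of_ne_zero (by rintro rfl; exact hx (dvd_zero _))
  have hy0 : 0 < y := Nat.pos_of_ne_zero (by rintro rfl; exact hy (dvd_zero _))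
  have hxp : Nat.Coprime x p := ((Nat.Prime.coprime_iff_not_dvd hp).2 hx).symm
  have hyp : Nat.Coprime y p := ((Nat.Prime.coprime_iff_not_dvd hp).2 hy).symm
  have h1 := E3 h hx0 hy0 hp.pos hxp hyp 1 (-1) ((t : ℤ) - s)
  have e1 : (1 : ℤ) • br x + ((-1 : ℤ) • br y + ((t : ℤ) - s) • (-br p)) = br b - br a := by
    rw [hbx, hay, br_mul (pow_pos hp.pos _) hx0, br_mul (pow_pos hp.pos _) hy0, br_pow hp.pos,
      br_pow hp.pos, one_smul, neg_one_smul, smul_neg, sub_smul]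
    abel
  rw [e1] at h1
  have h2 := two_left P u (br p)
  rw [hu, two_left, h1, mul_zero] at h2
  have h3 : (2 : ℝ) ^ m ≠ 0 := by positivity
  exact (mul_eq_zero.1 h2.symm).resolve_left h3

/-- step 5 -/
lemma E5 (h : KP P κ₁) (u : UV ℚ) (n : ℕ) : 0 < n → P (fun _ => u) (br n) = 0 := by
  induction n using Nat.recOnMul with
  | zero => intro h0; exact absurd h0 (lt_irrefl 0)
  | one => intro _; rw [br_one, map_zero]
  | prime p hp => intro _; exact E4 h hp u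
  | mul a b iha ihb =>
    intro hab
    have ha : 0 < a := Nat.pos_of_mul_pos_right hab |> fun h => by
      rcases Nat.eq_zero_or_pos a with h0 | h0
      · subst h0; simp at hab
      · exact h0
    have hb : 0 < b := by
      rcases Nat.eq_zero_or_pos b with h0 | h0
      · subst h0; simp at hab
      · exact h0
    rw [br_mul ha hb, map_add, iha ha, ihb hb, add_zero]

lemma E6 (h : KP P κ₁) (u v : UV ℚ) : P (fun _ => u) v = 0 := by
  obtain ⟨b, a, hb, ha, -, hu⟩ := decomp v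
  have h1 : (2 : ℤ) • P (fun _ => u) v = 0 := by
    rw [← map_zsmul, hu, map_zsmul, map_sub, E5 h u b hb, E5 h u a ha, sub_zero, smul_zero]
  rw [zsmul_eq_mul] at h1
  have h2 : (((2 : ℤ)) : ℝ) ≠ 0 := by norm_num
  exact (mul_eq_zero.1 h1).resolve_left h2

end main

end FinZN

/-- [FINZ1] -/
theorem finZ1 {m : ℕ} (P : MultilinearMap ℤ (fun _ : Fin (m + 1) => UV ℚ) (UV ℚ →ₗ[ℤ] ℝ)) (κ₁ : ℕ)
    (h : ∀ κ : ℕ, κ₁ ≤ κ → ∀ A B C : ℕ, Trip κ A B C →
      P (fun _ => cl (B : ℚ) - cl (A : ℚ)) (cl (C : ℚ) - cl (A : ℚ)) = 0) :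
    ∀ f g : UV ℚ, P (fun _ => f) g = 0 :=
  fun f g => FinZN.E6 (κ₁ := κ₁) h f g

/-- [FINZ2] -/
theorem finZ2 {m : ℕ} (R : MultilinearMap ℤ (fun _ : Fin m => UV ℚ) ℝ) (κ₁ : ℕ)
    (h : ∀ κ : ℕ, κ₁ ≤ κ → ∀ A B C : ℕ, Trip κ A B C →
      R (fun _ => cl (B : ℚ) - cl (A : ℚ)) = 0) :
    ∀ f : UV ℚ, R (fun _ => f) = 0 := by
  open FinZN in
  intro f
  obtain ⟨b, a, hb, ha, hab, hu⟩ := decomp f
  obtain ⟨κ, A1, B1, C1, hκ, hA, hB, hC, hT⟩ := exists_triple ha hb one_pos hab.symm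
    (Nat.coprime_one_right a) (Nat.coprime_one_right b) κ₁
  have key : R (fun _ => br b - br a) = 0 := by
    have key := trickR R (br B1 - br A1) (br b - br a) 1 ?_ 0
    · simpa using key
    intro L hL
    have h1 := h κ hκ _ _ _ (hT L hL)
    have h2 : ∀ x y : ℕ, 0 < x → 0 < y →
        H39Gon.cl ((x * y ^ L : ℕ) : ℚ) = br x + (L : ℤ) • br y := by
      intro x y hx hy
      have : H39Gon.cl ((x * y ^ L : ℕ) : ℚ) = br (x * y ^ L) := rfl
      rw [this, br_mul hx (by positivity), br_pow hy]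
    rw [h2 a A1 ha hA, h2 b B1 hb hB, abs1] at h1
    exact h1
  have h2 := two_R R f
  rw [hu, two_R, key, mul_zero] at h2
  have h3 : (2 : ℝ) ^ m ≠ 0 := by positivity
  exact (mul_eq_zero.1 h2.symm).resolve_left h3

end Pool.Agent.H366.ZC
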