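import Pool.Agent.H366.ZC.RS
import Pool.Graph.R_seed8.H39R2.Gon.B2

/-! # Preparations for the key theorem -/

set_option autoImplicit false

namespace Pool.Agent.H366.ZC

open H39Gon H39Gon.TaskB

namespace KeyZN

section point

variable {s : ℕ}

/-- the value of the slot `x` -/
def zv (q u d : ℕ) (v : Fin 3 → Fin s → ℕ) (x : Fin 3 × Fin s) (h : Fin (2 ^ d)) : ℕ :=
  v x.1 x.2 + q * (u * 2 ^ d + (h : ℕ))

/-- the contribution of the slot `x` -/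
noncomputable def bt (q u d : ℕ) (v : Fin 3 → Fin s → ℕ) (x : Fin 3 × Fin s) (h : Fin (2 ^ d)) :
    UV ℚ × UV ℚ :=
  ![(-cl (zv q u d v x h : ℚ), -cl (zv q u d v x h : ℚ)), (cl (zv q u d v x h : ℚ), 0),
    (0, cl (zv q u d v x h : ℚ))] x.1

/-- the four directions -/
noncomputable def ww (φ p₁ p₂ q₁ r₁ : ℕ) : Fin 4 → UV ℚ × UV ℚ :=
  ![-(φ • (cl (p₁ : ℚ), cl (p₁ : ℚ))), -(φ • (cl (p₂ : ℚ), cl (p₂ : ℚ))),
    φ • (cl (q₁ : ℚ), (0 : UV ℚ)), φ • ((0 : UV ℚ), cl (r₁ : ℚ))]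

lemma zv_pos {q u d : ℕ} {v : Fin 3 → Fin s → ℕ} (hq : 0 < q) (hu : 0 < u) (x : Fin 3 × Fin s)
    (h : Fin (2 ^ d)) : 0 < zv q u d v x h := by
  unfold zv
  have : 0 < q * (u * 2 ^ d + (h : ℕ)) := by positivity
  omega

lemma cl_prod_zz {q u d : ℕ} {v : Fin 3 → Fin s → ℕ} (hq : 0 < q) (hu : 0 < u) (X : Fin 3)
    (z : Fin 3 × Fin s → Fin (2 ^ d)) :
    cl (((∏ i, zz q u d (v X) (fun i => z (X, i)) i : ℕ)) : ℚ) =
      ∑ i, cl ((zv q u d v (X, i) (z (X, i)) : ℕ) : ℚ) := by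
  rw [Nat.cast_prod, cl_prod]
  · rfl
  · intro i _
    have := zz_pos (d := d) (v := v X) hq hu (fun i => z (X, i)) i
    exact_mod_cast this.ne'

lemma cl_nat_mul {a b : ℕ} (ha : 0 < a) (hb : 0 < b) :
    cl ((a * b : ℕ) : ℚ) = cl (a : ℚ) + cl (b : ℚ) := by
  rw [Nat.cast_mul, cl_mul (by exact_mod_cast ha.ne') (by exact_mod_cast hb.ne')]

lemma cl_nat_pow {a : ℕ} (ha : 0 < a) (n : ℕ) : cl ((a ^ n : ℕ) : ℚ) = n • cl (a : ℚ) := by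
  rw [Nat.cast_pow, cl_pow (by exact_mod_cast ha.ne')]

/-- the arguments at a solution -/
lemma eval_point {q u d : ℕ} {v : Fin 3 → Fin s → ℕ} (hq : 0 < q) (hu : 0 < u)
    {A B C p₁ p₂ q₁ r₁ : ℕ} (hA : 0 < A) (hB : 0 < B) (hC : 0 < C) (hp₁ : 0 < p₁) (hp₂ : 0 < p₂)
    (hq₁ : 0 < q₁) (hr₁ : 0 < r₁) (L φ a₁ a₂ b c : ℕ) (z : Fin 3 × Fin s → Fin (2 ^ d))
    (h : (A ^ L * p₁ ^ (φ * a₁) * p₂ ^ (φ * a₂)) * ∏ i, zz q u d (v 0) (fun i => z (0, i)) i =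
      (B ^ L * q₁ ^ (φ * b)) * ∏ i, zz q u d (v 1) (fun i => z (1, i)) i +
      (C ^ L * r₁ ^ (φ * c)) * ∏ i, zz q u d (v 2) (fun i => z (2, i)) i) :
    ∃ x : ℚ, x = (((B ^ L * q₁ ^ (φ * b)) * ∏ i, zz q u d (v 1) (fun i => z (1, i)) i : ℕ) : ℚ) /
        (((A ^ L * p₁ ^ (φ * a₁) * p₂ ^ (φ * a₂)) *
          ∏ i, zz q u d (v 0) (fun i => z (0, i)) i : ℕ) : ℚ) ∧ 0 < x ∧ x < 1 ∧
      (cl x, cl (1 - x)) = ((L : ℤ) • (cl (B : ℚ) - cl (A : ℚ), cl (C : ℚ) - cl (A : ℚ)) +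
        ∑ x, bt q u d v x (z x)) + ∑ j, (![(a₁ : ℤ), (a₂ : ℤ), (b : ℤ), (c : ℤ)] : Fin 4 → ℤ) j •
          ww φ p₁ p₂ q₁ r₁ j := by
  set Z0 := ∏ i, zz q u d (v 0) (fun i => z (0, i)) i with hZ0
  set Z1 := ∏ i, zz q u d (v 1) (fun i => z (1, i)) i with hZ1
  set Z2 := ∏ i, zz q u d (v 2) (fun i => z (2, i)) i with hZ2
  have hZ0p : 0 < Z0 := prod_zz_pos hq hu _ _
  have hZ1p : 0 < Z1 := prod_zz_pos hq hu _ _
  have hZ2p : 0 < Z2 := prod_zz_pos hq hu _ _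
  set M0 := A ^ L * p₁ ^ (φ * a₁) * p₂ ^ (φ * a₂) with hM0
  set M1 := B ^ L * q₁ ^ (φ * b) with hM1
  set M2 := C ^ L * r₁ ^ (φ * c) with hM2
  have hM0p : 0 < M0 := by positivity
  have hM1p : 0 < M1 := by positivity
  have hM2p : 0 < M2 := by positivity
  have hX0 : 0 < M0 * Z0 := by positivity
  have hX1 : 0 < M1 * Z1 := by positivity
  have hX2 : 0 < M2 * Z2 := by positivity
  have hX0' : ((M0 * Z0 : ℕ) : ℚ) ≠ 0 := by exact_mod_cast hX0.ne'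
  have hX1' : ((M1 * Z1 : ℕ) : ℚ) ≠ 0 := by exact_mod_cast hX1.ne'
  have hX2' : ((M2 * Z2 : ℕ) : ℚ) ≠ 0 := by exact_mod_cast hX2.ne'
  have hQ : ((M0 * Z0 : ℕ) : ℚ) = ((M1 * Z1 : ℕ) : ℚ) + ((M2 * Z2 : ℕ) : ℚ) := by
    rw [h]; push_cast; ring
  have h1x : 1 - ((M1 * Z1 : ℕ) : ℚ) / ((M0 * Z0 : ℕ) : ℚ) =
      ((M2 * Z2 : ℕ) : ℚ) / ((M0 * Z0 : ℕ) : ℚ) := by
    rw [eq_div_iff hX0', sub_mul, one_mul, div_mul_cancel₀ _ hX0', hQ]; ring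
  refine ⟨_, rfl, ?_, ?_, ?_⟩
  · have h0 : (0 : ℚ) < ((M0 * Z0 : ℕ) : ℚ) := by exact_mod_cast hX0
    have h1 : (0 : ℚ) < ((M1 * Z1 : ℕ) : ℚ) := by exact_mod_cast hX1
    positivity
  · have h0 : (0 : ℚ) < ((M0 * Z0 : ℕ) : ℚ) := by exact_mod_cast hX0
    rw [div_lt_one h0]
    have : M1 * Z1 < M0 * Z0 := by omega
    exact_mod_cast this
  · rw [h1x, cl_div hX1' hX0', cl_div hX2' hX0', cl_nat_mul hM0p hZ0p, cl_nat_mul hM1p hZ1p,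
      cl_nat_mul hM2p hZ2p, hZ0, hZ1, hZ2, cl_prod_zz hq hu, cl_prod_zz hq hu, cl_prod_zz hq hu,
      hM0, hM1, hM2, cl_nat_mul (by positivity) (by positivity),
      cl_nat_mul (by positivity) (by positivity), cl_nat_mul (by positivity) (by positivity),
      cl_nat_mul (by positivity) (by positivity), cl_nat_pow hA, cl_nat_pow hB, cl_nat_pow hC,
      cl_nat_pow hp₁, cl_nat_pow hp₂, cl_nat_pow hq₁, cl_nat_pow hr₁]
    rw [Fintype.sum_prod_type, Fin.sum_univ_three, Fin.sum_univ_four]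
    have e0 : ∀ i : Fin s, bt q u d v (0, i) (z (0, i)) =
      (-cl (zv q u d v (0, i) (z (0, i)) : ℚ), -cl (zv q u d v (0, i) (z (0, i)) : ℚ)) :=
      fun i => rfl
    have e1 : ∀ i : Fin s, bt q u d v (1, i) (z (1, i)) =
      (cl (zv q u d v (1, i) (z (1, i)) : ℚ), 0) := fun i => rfl
    have e2 : ∀ i : Fin s, bt q u d v (2, i) (z (2, i)) =
      (0, cl (zv q u d v (2, i) (z (2, i)) : ℚ)) := fun i => rfl
    have f0 : ww φ p₁ p₂ q₁ r₁ 0 = -(φ • (cl (p₁ : ℚ), cl (p₁ : ℚ))) := rfl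
    have f1 : ww φ p₁ p₂ q₁ r₁ 1 = -(φ • (cl (p₂ : ℚ), cl (p₂ : ℚ))) := rfl
    have f2 : ww φ p₁ p₂ q₁ r₁ 2 = φ • (cl (q₁ : ℚ), (0 : UV ℚ)) := rfl
    have f3 : ww φ p₁ p₂ q₁ r₁ 3 = φ • ((0 : UV ℚ), cl (r₁ : ℚ)) := rfl
    simp only [e0, e1, e2, f0, f1, f2, f3]
    ext1
    · simp only [Prod.fst_add, Prod.fst_sum, Prod.smul_fst, Prod.fst_neg, Prod.fst_zero,
        Finset.sum_neg_distrib, Finset.sum_const_zero, smul_zero, add_zero, zero_add,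
        Matrix.cons_val_zero, Matrix.cons_val_one, Matrix.cons_val]
      module
    · simp only [Prod.snd_add, Prod.snd_sum, Prod.smul_snd, Prod.snd_neg, Prod.snd_zero,
        Finset.sum_neg_distrib, Finset.sum_const_zero, smul_zero, add_zero, zero_add,
        Matrix.cons_val_zero, Matrix.cons_val_one, Matrix.cons_val]
      module

end point

end KeyZN

end Pool.Agent.H366.ZC
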