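import Pool.Agent.H366.ZC.KeyC

/-! # One step of the key theorem (2) -/

set_option autoImplicit false

namespace Pool.Agent.H366.ZC

open H39Gon H39Gon.TaskB
open Pool.Agent.H366.GF (Ex Ex_equiv)

namespace KeyZN

/-- the point `(cl B - cl A, cl C - cl A)` -/
noncomputable def x0 (A B C : ℕ) : UV ℚ × UV ℚ :=
  (cl (B : ℚ) - cl (A : ℚ), cl (C : ℚ) - cl (A : ℚ))

open Finset Classical in
/-- one step -/
lemma step {I : Type} [Fintype I] {n : ℕ} {deg : I → ℕ} (hdeg : ∀ i, deg i ≤ n)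
    {φf : I → ℝ → ℝ} (Q : ∀ i, MultilinearMap ℤ (fun _ : Fin (deg i) => (UV ℚ × UV ℚ) × ℤ) ℝ)
    (hQ : ∀ x : ℚ, 0 < x → x < 1 →
      ∑ i, φf i (x : ℝ) * Q i (fun _ => ((cl x, cl (1 - x)), 1)) = 0)
    {D : Type} [Fintype D] {vd : D → Fin 4 → ℝ} {td : D → ℝ}
    (hvd : ∀ d, 0 < td d ∧ td d < 1 ∧ 0 < vd d 0 ∧ 0 < vd d 1 ∧ vd d 2 = Real.log (td d) ∧
        vd d 3 = Real.log (1 - td d))
    (hy : ∀ y : (Σ i : I, (Fin (deg i) → Option (Fin 4))) → ℝ,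
        (∀ d, ∑ ig, Psi deg φf (vd d) (td d) ig * y ig = 0) →
        ∀ (i : I) (v : Fin 4 → ℝ), ∑ g : Fin (deg i) → Option (Fin 4),
          (∏ k, vo v (g k)) * y ⟨i, g⟩ = 0)
    {k s : ℕ} (hk : k = 2 * n) (hs : s = 4 * k + 4) {η ε : ℝ} (hε : 0 < ε)
    (hctr : ∀ (S X : Type) [Fintype S] [Nonempty S] [Fintype X]
      (w : D → X → (Fin 3 × Fin s → S) → ℝ) (G : D → (Fin 3 × Fin s → S) → ℝ)
      (ϑ : D → X → (Fin 3 × Fin s → S) → D → ℝ),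
      (∀ c x z, 0 ≤ w c x z) →
      (∀ c x z c', |ϑ c x z c'| ≤ ε) →
      (∀ c (V : Finset (Fin 3 × Fin s)), V.card ≤ 2 * n →
        (∑ z : Fin 3 × Fin s → S, |(∑ z' : Fin 3 × Fin s → S, ∑ x, w c x (V.piecewise z z')) /
            (Fintype.card (Fin 3 × Fin s → S) : ℝ) - 1|) ≤
              ε * (Fintype.card (Fin 3 × Fin s → S) : ℝ)) →
      (∀ c, ∃ F : (Fin n → Fin 3 × Fin s) → (Fin n → S) → ℝ, ∀ z, G c z = ∑ j, F j (z ∘ j)) →
      (∀ c x z, w c x z ≠ 0 → G c z + ∑ c', ϑ c x z c' * G c' z = 0) →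
      (((univ : Finset (Fin 3 × Fin s → S)).filter fun z => ∃ c, G c z ≠ 0).card : ℝ) ≤
        η * (Fintype.card (Fin 3 × Fin s → S) : ℝ))
    {δ : ℝ} (hδ : 0 < δ)
    (hstab : ∀ (d : D) (v : Fin 4 → ℝ) (t : ℝ),
        (∀ j, |v j - vd d j| ≤ δ) → |t - td d| ≤ δ →
        ∃ ϑ : D → ℝ, (∀ c, |ϑ c| ≤ ε) ∧
          ∀ y : (Σ i : I, (Fin (deg i) → Option (Fin 4))) → ℝ,
            ∑ ig, Psi deg φf v t ig * y ig = ∑ ig, Psi deg φf (vd d) (td d) ig * y ig +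
              ∑ c, ϑ c * ∑ ig, Psi deg φf (vd c) (td c) ig * y ig)
    {m : ℝ} {Λ : ℕ} (hm : 0 < m) (hm1 : m ≤ 1) (hΛ : 9 / m ≤ (Λ : ℝ))
    (hmt : ∀ c, m ≤ td c ∧ m ≤ 1 - td c) {g u : ℕ} (hg : 0 < g) (hu : 0 < u)
    (hsu1 : (2 * (s : ℝ) + 3) / u ≤ 1) (hsu2 : 2 * ((s : ℝ) / u) ≤ δ / 2) {κ : ℕ} (hκ : 0 < κ)
    (hflat : ∀ (μ q e₀ : ℕ) (M0 : Fin (2 * (g * (2 * s + 2)) + 1) → ℕ) (M1 M2 : ℕ),
      (∀ l, Ctx κ Λ μ q e₀ u ![M0 l, M1, M2]) → Cell s g u M0 M1 M2 →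
      ∃ d₀ : ℕ, ∀ d : ℕ, d₀ ≤ d → ∀ v : Fin 3 → Fin s → ℕ, (∀ X, SlotOK q (v X)) →
        (∀ l, Rel s q ![M0 l, M1, M2] v) →
        ∀ V : Fin 3 → Finset (Fin s), (∀ X, (V X).card ≤ k) →
        Ex (fun z : Fin 3 → Fin s → Fin (2 ^ d) =>
          |Ex (fun z' : Fin 3 → Fin s → Fin (2 ^ d) =>
            Wc s g q u d M0 M1 M2 v (fun X => (V X).piecewise (z X) (z' X))) - 1|) ≤ ε)
    {A B C p₁ p₂ q₁ r₁ : ℕ} (hA : 0 < A) (hB : 0 < B) (hC : 0 < C)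
    (hAB : Nat.Coprime A B) (hBC : Nat.Coprime B C)
    (hall : ∀ p : ℕ, p.Prime → (p ∣ A * B * C ↔ p < 2 ^ κ))
    (hp₁ : p₁.Prime) (hp₂ : p₂.Prime) (hp : p₁ ≠ p₂) (hq₁ : q₁.Prime) (hr₁ : r₁.Prime)
    (h₁ : p₁ ∣ A) (h₂ : p₂ ∣ A) (h₃ : q₁ ∣ B) (h₄ : r₁ ∣ C) (j : ℕ) :
    ∃ d₀ : ℕ, ∀ d : ℕ, d₀ ≤ d → ∀ v : Fin 3 → Fin s → ℕ, (∀ X, SlotOK (qq κ) (v X)) →
      (A * ∏ i, v 0 i ≡ B * ∏ i, v 1 i + C * ∏ i, v 2 i [MOD qq κ]) →
      (((univ : Finset (Fin 3 × Fin s → Fin (2 ^ d))).filter fun z => ∃ i,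
        Q i (fun _ => ((1 + j * (2 ^ κ).factorial : ℕ) : ℤ) • (x0 A B C, (0 : ℤ)) +
          (((0 : UV ℚ × UV ℚ), (1 : ℤ)) +
            ∑ x, (bt (qq κ) u d v x (z x), (0 : ℤ)))) ≠ 0).card : ℝ) ≤
        η * (Fintype.card (Fin 3 × Fin s → Fin (2 ^ d)) : ℝ) := by
  obtain ⟨φ, hφ⟩ : ∃ φ : ℕ, φ = (2 ^ κ).factorial := ⟨_, rfl⟩
  obtain ⟨L, hL⟩ : ∃ L : ℕ, L = 1 + j * (2 ^ κ).factorial := ⟨_, rfl⟩
  have hφ0 : 0 < φ := by rw [hφ]; exact Nat.factorial_pos _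
  have hqr : q₁ ≠ r₁ := by
    rintro rfl
    exact Nat.not_coprime_of_dvd_of_dvd hq₁.one_lt h₃ h₄ hBC
  obtain ⟨ρ, hρ⟩ : ∃ ρ : ℝ, ρ = min (δ / 2) 1 := ⟨_, rfl⟩
  have hρ0 : 0 < ρ := by rw [hρ]; exact lt_min (by linarith) one_pos
  have hρ1 : ρ ≤ 1 := by rw [hρ]; exact min_le_right _ _
  have hρδ : ρ ≤ δ / 2 := by rw [hρ]; exact min_le_left _ _
  have hdens := fun c : D => dens p₁ p₂ q₁ r₁ hp₁ hp₂ hq₁ hr₁ hp hqr φ hφ0 (A ^ L) (B ^ L)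
    (C ^ L) (by positivity) (by positivity) (by positivity) (vd c 0) (vd c 1) (td c)
    (hvd c).2.2.1 (hvd c).2.2.2.1 (hvd c).1 (hvd c).2.1 ρ hρ0 s g u hg hu
  choose E₀ hE₀ using hdens
  obtain ⟨E, hE⟩ : ∃ E : ℕ, E = (∑ c, E₀ c) + 1 := ⟨_, rfl⟩
  have hE1 : 0 < E := by omega
  have hEc : ∀ c, E₀ c ≤ E := by
    intro c
    have := Finset.single_le_sum (f := E₀) (fun _ _ => Nat.zero_le _) (Finset.mem_univ c)
    omega
  have hd2 := fun c : D => hE₀ c E (hEc c)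
  choose b c' a₁ a₂ hcell hb1 hb2 ha12 using hd2
  obtain ⟨e₀, he₀⟩ : ∃ e₀ : ℕ, qq κ * (u + 1) ≤ 2 ^ e₀ :=
    ⟨qq κ * (u + 1), (Nat.lt_two_pow_self).le⟩
  obtain ⟨M0, hM0⟩ : ∃ M0 : D → Fin (2 * (g * (2 * s + 2)) + 1) → ℕ,
    ∀ c l, M0 c l = A ^ L * p₁ ^ (φ * a₁ c l) * p₂ ^ (φ * a₂ c l) := ⟨_, fun _ _ => rfl⟩
  obtain ⟨M1, hM1⟩ : ∃ M1 : D → ℕ, ∀ c, M1 c = B ^ L * q₁ ^ (φ * b c) := ⟨_, fun _ => rfl⟩
  obtain ⟨M2, hM2⟩ : ∃ M2 : D → ℕ, ∀ c, M2 c = C ^ L * r₁ ^ (φ * c' c) := ⟨_, fun _ => rfl⟩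
  have hM0' : ∀ c, (fun l => A ^ L * p₁ ^ (φ * a₁ c l) * p₂ ^ (φ * a₂ c l)) = M0 c :=
    fun c => (funext fun l => hM0 c l).symm
  have hcell' : ∀ c, Cell s g u (M0 c) (M1 c) (M2 c) := by
    intro c
    rw [← hM0', hM1, hM2]
    exact hcell c
  have hb1' : ∀ c, |Real.log ((M1 c : ℝ) / ((M1 c : ℝ) + M2 c)) - Real.log (td c)| ≤ ρ := by
    intro c; rw [hM1, hM2]; exact hb1 c
  have hb2' : ∀ c, |Real.log ((M2 c : ℝ) / ((M1 c : ℝ) + M2 c)) - Real.log (1 - td c)| ≤ ρ := by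
    intro c; rw [hM1, hM2]; exact hb2 c
  have hp₁0 := hp₁.pos
  have hp₂0 := hp₂.pos
  have hq₁0 := hq₁.pos
  have hr₁0 := hr₁.pos
  have hM0p : ∀ c l, 0 < M0 c l := by intro c l; rw [hM0]; positivity
  have hM1p : ∀ c, 0 < M1 c := by intro c; rw [hM1]; positivity
  have hM2p : ∀ c, 0 < M2 c := by intro c; rw [hM2]; positivity
  obtain ⟨μ, hμ⟩ : ∃ μ : D → ℕ, ∀ c, μ c = (∑ l, M0 c l) + M1 c + M2 c := ⟨_, fun _ => rfl⟩
  have hμ0 : ∀ c l, M0 c l ≤ 2 ^ μ c := by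
    intro c l
    refine le_trans ?_ (Nat.lt_two_pow_self).le
    have := Finset.single_le_sum (f := M0 c) (fun _ _ => Nat.zero_le _) (Finset.mem_univ l)
    rw [hμ]; omega
  have hμ1 : ∀ c, M1 c ≤ 2 ^ μ c := by
    intro c
    refine le_trans ?_ (Nat.lt_two_pow_self).le
    rw [hμ]; omega
  have hμ2 : ∀ c, M2 c ≤ 2 ^ μ c := by
    intro c
    refine le_trans ?_ (Nat.lt_two_pow_self).le
    rw [hμ]; omega
  have hctx : ∀ c l, Ctx κ Λ (μ c) (qq κ) e₀ u ![M0 c l, M1 c, M2 c] := by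
    intro c l
    have hrat : ∀ X Y, (![M0 c l, M1 c, M2 c] : Fin 3 → ℕ) X ≤
        Λ * (![M0 c l, M1 c, M2 c] : Fin 3 → ℕ) Y := by
      intro X Y
      refine ratio_le (M := ![M0 c l, M1 c, M2 c]) (t := td c) (ρ := ρ) hm hm1 hΛ (hmt c).1
        (hmt c).2 hρ1 ?_ ?_ ?_ ?_ X Y
      · intro Z
        fin_cases Z
        · exact hM0p c l
        · exact hM1p c
        · exact hM2p c
      · exact cell_bound hg hu hsu1 (hcell' c) l
      · exact hb1' c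
      · exact hb2' c
    have hle : ∀ X, (![M0 c l, M1 c, M2 c] : Fin 3 → ℕ) X ≤ 2 ^ μ c := by
      intro X
      fin_cases X
      · exact hμ0 c l
      · exact hμ1 c
      · exact hμ2 c
    rw [hM0, hM1, hM2] at hrat hle ⊢
    exact ctx_of hκ hu he₀ hA hB hC hAB hall hp₁ hp₂ hq₁ hr₁ h₁ h₂ h₃ h₄ L _ _ _ _ hle hrat
  have hfl := fun c : D => hflat (μ c) (qq κ) e₀ (M0 c) (M1 c) (M2 c) (hctx c) (hcell' c)
  choose d₀ hd₀ using hfl
  refine ⟨∑ c, d₀ c, ?_⟩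
  intro d hd v hv hcong
  rw [← hL]
  have hdc : ∀ c, d₀ c ≤ d := by
    intro c
    exact (Finset.single_le_sum (f := d₀) (fun _ _ => Nat.zero_le _) (Finset.mem_univ c)).trans hd
  -- congruences
  have hrel : ∀ c l, Rel s (qq κ) ![M0 c l, M1 c, M2 c] v := by
    intro c l
    have e0 : M0 c l ≡ A [MOD qq κ] := by
      refine modEq_qq fun p hp hpk => ?_
      rw [hM0, hφ, hL]
      exact mul_pow_modEq hp hpk hp₂ h₂ (mul_pow_modEq hp hpk hp₁ h₁ (pow_L_modEq hp hpk j) _) _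
    have e1 : M1 c ≡ B [MOD qq κ] := by
      refine modEq_qq fun p hp hpk => ?_
      rw [hM1, hφ, hL]
      exact mul_pow_modEq hp hpk hq₁ h₃ (pow_L_modEq hp hpk j) _
    have e2 : M2 c ≡ C [MOD qq κ] := by
      refine modEq_qq fun p hp hpk => ?_
      rw [hM2, hφ, hL]
      exact mul_pow_modEq hp hpk hr₁ h₄ (pow_L_modEq hp hpk j) _
    exact ((e0.mul_right _).trans hcong).trans ((e1.mul_right _).add (e2.mul_right _)).symm
  -- the functions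
  have hexp := fun i : I => expand_affine (Q i) (al E L φ A B C p₁ p₂ q₁ r₁)
    (fun j => (ww φ p₁ p₂ q₁ r₁ j, (0 : ℤ)))
  choose 𝒢 h𝒢1 h𝒢2 using hexp
  obtain ⟨w', hw'⟩ : ∃ w' : (Fin 3 × Fin s → Fin (2 ^ d)) → (UV ℚ × UV ℚ) × ℤ,
    ∀ z, w' z = (L : ℤ) • (x0 A B C, (0 : ℤ)) + (((0 : UV ℚ × UV ℚ), (1 : ℤ)) +
      ∑ x, (bt (qq κ) u d v x (z x), (0 : ℤ))) := ⟨_, fun _ => rfl⟩
  obtain ⟨y, hyd⟩ : ∃ y : (Fin 3 × Fin s → Fin (2 ^ d)) →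
      (Σ i : I, (Fin (deg i) → Option (Fin 4))) → ℝ, ∀ z ig, y z ig = 𝒢 ig.1 (w' z) ig.2 :=
    ⟨_, fun _ _ => rfl⟩
  obtain ⟨G, hG⟩ : ∃ G : D → (Fin 3 × Fin s → Fin (2 ^ d)) → ℝ, ∀ c z,
    G c z = ∑ ig, Psi deg φf (vd c) (td c) ig * y z ig := ⟨_, fun _ _ => rfl⟩
  obtain ⟨w, hw⟩ : ∃ w : D → Fin (2 * (g * (2 * s + 2)) + 1) →
      (Fin 3 × Fin s → Fin (2 ^ d)) → ℝ, ∀ c l z, w c l z = (1 / ((g : ℝ) * u)) *
        Wt s (qq κ) u d ![M0 c l, M1 c, M2 c] v (fun X i => z (X, i)) := ⟨_, fun _ _ _ => rfl⟩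
  have hqp := qq_pos κ
  -- the key relation
  have hkey : ∀ c l z, ∃ ϑ : D → ℝ, (∀ c', |ϑ c'| ≤ ε) ∧
      (w c l z ≠ 0 → G c z + ∑ c', ϑ c' * G c' z = 0) := by
    intro c l z
    by_cases hwz : w c l z = 0
    · exact ⟨fun _ => 0, fun _ => by rw [abs_zero]; exact hε.le, fun h => absurd hwz h⟩
    · have hsol : M0 c l * ∏ i, zz (qq κ) u d (v 0) (fun i => z (0, i)) i =
          M1 c * ∏ i, zz (qq κ) u d (v 1) (fun i => z (1, i)) i +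
          M2 c * ∏ i, zz (qq κ) u d (v 2) (fun i => z (2, i)) i := by
        by_contra hne
        apply hwz
        rw [hw, Wt, if_neg, mul_zero]
        exact hne
      have hsol' := hsol
      rw [hM0, hM1, hM2] at hsol'
      obtain ⟨x, hx, hx0, hx1, hclx⟩ := eval_point hqp hu hA hB hC hp₁0 hp₂0 hq₁0 hr₁0 L φ
        (a₁ c l) (a₂ c l) (b c) (c' c) z hsol'
      -- real coordinates
      have hZ0 := log_prod_zz hqp hu (hv 0) (fun i => z (0, i))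
      have hZ1 := log_prod_zz hqp hu (hv 1) (fun i => z (1, i))
      have hZ2 := log_prod_zz hqp hu (hv 2) (fun i => z (2, i))
      rw [add_mul] at hZ0 hZ1 hZ2
      have hZ0p := prod_zz_pos (d := d) (v := v 0) hqp hu (fun i => z (0, i)) Finset.univ
      have hZ1p := prod_zz_pos (d := d) (v := v 1) hqp hu (fun i => z (1, i)) Finset.univ
      have hZ2p := prod_zz_pos (d := d) (v := v 2) hqp hu (fun i => z (2, i)) Finset.univ
      have hco := coords (lam := Real.log (1 + 1 / (u : ℝ)) * s) (ρ := ρ) (hvd c).1 (hvd c).2.1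
        (M0 := (M0 c l : ℝ)) (M1 := (M1 c : ℝ)) (M2 := (M2 c : ℝ))
        (Z0 := ((∏ i, zz (qq κ) u d (v 0) (fun i => z (0, i)) i : ℕ) : ℝ))
        (Z1 := ((∏ i, zz (qq κ) u d (v 1) (fun i => z (1, i)) i : ℕ) : ℝ))
        (Z2 := ((∏ i, zz (qq κ) u d (v 2) (fun i => z (2, i)) i : ℕ) : ℝ))
        (by exact_mod_cast hM0p c l) (by exact_mod_cast hM1p c) (by exact_mod_cast hM2p c)
        (by exact_mod_cast hZ0p) (by exact_mod_cast hZ1p) (by exact_mod_cast hZ2p)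
        hZ0 hZ1 hZ2 (by exact_mod_cast hsol) (hb1' c) (hb2' c)
      have hlam : Real.log (1 + 1 / (u : ℝ)) * s ≤ (s : ℝ) / u := by
        have := log_one_add_le u hu
        calc Real.log (1 + 1 / (u : ℝ)) * s ≤ (1 / u) * s :=
              mul_le_mul_of_nonneg_right this (Nat.cast_nonneg _)
          _ = (s : ℝ) / u := by ring
      have hlam0 : 0 ≤ Real.log (1 + 1 / (u : ℝ)) * s :=
        mul_nonneg (log_one_add_nonneg u hu) (Nat.cast_nonneg _)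
      obtain ⟨hco1, hco2, hco3⟩ := hco
      have hxr : (x : ℝ) = M1 c * ((∏ i, zz (qq κ) u d (v 1) (fun i => z (1, i)) i : ℕ) : ℝ) /
          (M0 c l * ((∏ i, zz (qq κ) u d (v 0) (fun i => z (0, i)) i : ℕ) : ℝ)) := by
        rw [hx, hM0, hM1]
        push_cast
        rfl
      rw [← hxr] at hco3
      obtain ⟨vv, hvv⟩ : ∃ vv : Fin 4 → ℝ, vv = ![(a₁ c l : ℝ) / E, (a₂ c l : ℝ) / E,
          Real.log (((B ^ L * q₁ ^ (φ * b c) : ℕ) : ℝ) /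
            ((A ^ L * p₁ ^ (φ * a₁ c l) * p₂ ^ (φ * a₂ c l) : ℕ) : ℝ)),
          Real.log (((C ^ L * r₁ ^ (φ * c' c) : ℕ) : ℝ) /
            ((A ^ L * p₁ ^ (φ * a₁ c l) * p₂ ^ (φ * a₂ c l) : ℕ) : ℝ))] := ⟨_, rfl⟩
      have hclose : ∀ j, |vv j - vd c j| ≤ δ := by
        intro j
        rw [hvv]
        fin_cases j
        · exact ((ha12 c l).1).trans (by linarith)
        · exact ((ha12 c l).2).trans (by linarith)
        · show |Real.log _ - vd c 2| ≤ δ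
          rw [(hvd c).2.2.2.2.1, ← hM0, ← hM1]
          exact hco1.trans (by linarith)
        · show |Real.log _ - vd c 3| ≤ δ
          rw [(hvd c).2.2.2.2.2, ← hM0, ← hM2]
          exact hco2.trans (by linarith)
      obtain ⟨ϑ, hϑ1, hϑ2⟩ := hstab c vv x hclose (hco3.trans (by linarith))
      refine ⟨ϑ, hϑ1, fun _ => ?_⟩
      simp only [hG]
      rw [← hϑ2 (y z), ← hQ x hx0 hx1, Fintype.sum_sigma]
      refine Finset.sum_congr rfl fun i _ => ?_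
      have h5 := h𝒢1 i vv ![(a₁ c l : ℤ), (a₂ c l : ℤ), (b c : ℤ), (c' c : ℤ)] (by
        intro j
        rw [hvv]
        exact al_spec hE1 hφ0 hA hB hC hp₁ hp₂ hq₁ hr₁ _ _ _ _ j) (w' z)
      have h6 : (fun _ : Fin (deg i) => w' z + ∑ j, (![(a₁ c l : ℤ), (a₂ c l : ℤ), (b c : ℤ),
          (c' c : ℤ)] : Fin 4 → ℤ) j • (ww φ p₁ p₂ q₁ r₁ j, (0 : ℤ))) =
          fun _ => ((cl x, cl (1 - x)), 1) := by
        funext _
        rw [hclx, hw']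
        refine Prod.ext ?_ ?_
        · simp only [Prod.fst_add, Prod.fst_sum, Prod.smul_fst, zero_add]
          rfl
        · simp [Prod.snd_sum]
      rw [h6] at h5
      rw [h5, Finset.mul_sum]
      refine Finset.sum_congr rfl fun gg _ => ?_
      rw [hyd]
      unfold Psi
      ring
  choose ϑ hϑ1 hϑ2 using hkey
  -- apply the contraction theorem
  have hmain := hctr (Fin (2 ^ d)) (Fin (2 * (g * (2 * s + 2)) + 1)) w G ϑ ?_ hϑ1 ?_ ?_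
    (fun c l z => hϑ2 c l z)
  · refine le_trans ?_ hmain
    have : ((univ : Finset (Fin 3 × Fin s → Fin (2 ^ d))).filter fun z => ∃ i,
        Q i (fun _ => (L : ℤ) • (x0 A B C, (0 : ℤ)) + (((0 : UV ℚ × UV ℚ), (1 : ℤ)) +
          ∑ x, (bt (qq κ) u d v x (z x), (0 : ℤ)))) ≠ 0) ⊆
        ((univ : Finset (Fin 3 × Fin s → Fin (2 ^ d))).filter fun z => ∃ c, G c z ≠ 0) := by
      intro z hz
      rw [Finset.mem_filter] at hz ⊢
      refine ⟨Finset.mem_univ _, ?_⟩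
      by_contra hcon
      push Not at hcon
      obtain ⟨i, hi⟩ := hz.2
      apply hi
      have h7 := hy (y z) (fun c => by rw [← hG]; exact hcon c) i
        ![0, 0, -(L * Real.log A - L * Real.log B), -(L * Real.log A - L * Real.log C)]
      have h8 := h𝒢1 i
        ![0, 0, -(L * Real.log A - L * Real.log B), -(L * Real.log A - L * Real.log C)] 0 (by
          intro j
          have := al_zero (E := E) (L := L) (φ := φ) (A := A) (B := B) (C := C) (p₁ := p₁)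
            (p₂ := p₂) (q₁ := q₁) (r₁ := r₁) j
          rw [← this, Pi.zero_apply, Int.cast_zero]) (w' z)
      have h9 : (fun _ : Fin (deg i) => w' z + ∑ j, (0 : Fin 4 → ℤ) j •
          (ww φ p₁ p₂ q₁ r₁ j, (0 : ℤ))) =
          fun _ => (L : ℤ) • (x0 A B C, (0 : ℤ)) + (((0 : UV ℚ × UV ℚ), (1 : ℤ)) +
            ∑ x, (bt (qq κ) u d v x (z x), (0 : ℤ))) := by
        funext _
        rw [hw']
        simp only [Pi.zero_apply, zero_smul, Finset.sum_const_zero, add_zero]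
      rw [h9] at h8
      rw [h8]
      refine Eq.trans (Finset.sum_congr rfl fun gg _ => ?_) h7
      rw [hyd]
    exact_mod_cast Finset.card_le_card this
  · -- nonneg
    intro c l z
    rw [hw]
    refine mul_nonneg (by positivity) ?_
    unfold Wt
    split_ifs
    · unfold NN; positivity
    · exact le_rfl
  · -- flatness
    intro c V hV
    have h1 := hd₀ c d (hdc c) v hv (hrel c) (prt V) (fun X => by
      rw [hk]; exact (prt_card V X).trans hV)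
    rw [← Ex_curry] at h1
    have hcard : (0 : ℝ) < (Fintype.card (Fin 3 × Fin s → Fin (2 ^ d)) : ℝ) := by
      exact_mod_cast Fintype.card_pos
    rw [Ex, div_le_iff₀ hcard] at h1
    refine le_trans (le_of_eq ?_) h1
    refine Finset.sum_congr rfl fun z _ => ?_
    rw [← Ex_curry, Ex]
    congr 4
    funext z'
    rw [← pw_curry]
    unfold Wc
    refine Finset.sum_congr rfl fun l _ => ?_
    rw [hw]
  · -- degree
    intro c
    have h1 : ∀ ig : (Σ i : I, (Fin (deg i) → Option (Fin 4))),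
        ∃ F : (Fin n → Fin 3 × Fin s) → (Fin n → Fin (2 ^ d)) → ℝ,
          ∀ z : Fin 3 × Fin s → Fin (2 ^ d), y z ig = ∑ j, F j (z ∘ j) := by
      intro ig
      haveI : Nonempty (Fin 3 × Fin s) := ⟨(0, ⟨0, by omega⟩)⟩
      obtain ⟨F, hF⟩ := h𝒢2 ig.1 n (Fin 3 × Fin s) (Fin (2 ^ d)) (hdeg ig.1)
        ((L : ℤ) • (x0 A B C, (0 : ℤ)) + ((0 : UV ℚ × UV ℚ), (1 : ℤ)))
        (fun x h => (bt (qq κ) u d v x h, (0 : ℤ))) ig.2
      exact ⟨F, fun z => by rw [hyd, hw', ← add_assoc]; exact hF z⟩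
    choose F hF using h1
    refine ⟨fun j o => ∑ ig, Psi deg φf (vd c) (td c) ig * F ig j o, ?_⟩
    intro z
    rw [hG]
    simp only [hF, Finset.mul_sum]
    rw [Finset.sum_comm]

end KeyZN

end Pool.Agent.H366.ZC
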