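import Pool.Agent.H366.ZC.CtrV
import Pool.Agent.H366.ZC.Flat
import Pool.Agent.H366.ZC.Dens
import Pool.Agent.H366.ZC.Exp
import Pool.Graph.R_seed8.H39R2.Gon.B2
import Pool.Agent.H366.ZC.KeyD

/-! # The key theorem for the rational numbers -/

set_option autoImplicit false

namespace Pool.Agent.H366.ZC

open H39Gon

open Classical in
/-- The key theorem, for inhomogeneous polynomials (the last coordinate `1`). -/
theorem KEYZ2 (I : Type) [Fintype I] (n : ℕ) (deg : I → ℕ) (hdeg : ∀ i, deg i ≤ n)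
    (φ : I → ℝ → ℝ) (hφc : ∀ i, ContinuousOn (φ i) (Set.Ioo 0 1))
    (hind : ∀ h : I → Fin (n + 1) → Fin (n + 1) → ℝ,
      (∀ t ∈ Set.Ioo (0 : ℝ) 1, ∑ i, ∑ a : Fin (n + 1), ∑ b : Fin (n + 1),
        h i a b * φ i t * Real.log t ^ (a : ℕ) * Real.log (1 - t) ^ (b : ℕ) = 0) → h = 0)
    (Q : ∀ i, MultilinearMap ℤ (fun _ : Fin (deg i) => (UV ℚ × UV ℚ) × ℤ) ℝ)
    (hQ : ∀ x : ℚ, 0 < x → x < 1 →
      ∑ i, φ i (x : ℝ) * Q i (fun _ => ((cl x, cl (1 - x)), 1)) = 0) :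
    ∃ κ₁ : ℕ, ∀ κ : ℕ, κ₁ ≤ κ → ∀ A B C : ℕ, 0 < A → 0 < B → 0 < C →
      Nat.Coprime A B → Nat.Coprime A C → Nat.Coprime B C →
      (∀ p : ℕ, p.Prime → (p ∣ A * B * C ↔ p < 2 ^ κ)) →
      (∃ p₁ p₂ : ℕ, p₁.Prime ∧ p₂.Prime ∧ p₁ ≠ p₂ ∧ p₁ ∣ A ∧ p₂ ∣ A) → B ≠ 1 → C ≠ 1 →
      ∀ i, Q i (fun _ => ((cl (B : ℚ) - cl (A : ℚ), cl (C : ℚ) - cl (A : ℚ)), 0)) = 0 := by
  obtain ⟨N, vd, td, hvd, hy, hst⟩ := unisolvent I n deg hdeg φ hφc hind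
  obtain ⟨k, hk⟩ : ∃ k : ℕ, k = 2 * n := ⟨_, rfl⟩
  obtain ⟨s, hs⟩ : ∃ s : ℕ, s = 4 * k + 4 := ⟨_, rfl⟩
  obtain ⟨ε, hε, hctr⟩ := CTRv (Fin 3 × Fin s) (Fin N) n (1 / ((n : ℝ) + 3)) (by positivity)
  obtain ⟨δ, hδ, hstab⟩ := hst ε hε
  -- the lower bound for `t` and `1 - t`
  obtain ⟨m, hm, hm1, hmt⟩ : ∃ m : ℝ, 0 < m ∧ m ≤ 1 ∧ ∀ c, m ≤ td c ∧ m ≤ 1 - td c := by
    have h1 : ∀ c : Fin N, ∃ m : ℝ, 0 < m ∧ m ≤ td c ∧ m ≤ 1 - td c := fun c =>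
      ⟨min (td c) (1 - td c), lt_min (hvd c).1 (by have := (hvd c).2.1; linarith),
        min_le_left _ _, min_le_right _ _⟩
    choose m' hm'1 hm'2 hm'3 using h1
    rcases isEmpty_or_nonempty (Fin N) with hN | hN
    · exact ⟨1, one_pos, le_rfl, fun c => (hN.false c).elim⟩
    · obtain ⟨c₀, hc₀⟩ := Finite.exists_min m'
      exact ⟨min (m' c₀) 1, lt_min (hm'1 c₀) one_pos, min_le_right _ _, fun c =>
        ⟨((min_le_left _ _).trans (hc₀ c)).trans (hm'2 c),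
          ((min_le_left _ _).trans (hc₀ c)).trans (hm'3 c)⟩⟩
  obtain ⟨Λ, hΛ⟩ := exists_nat_ge (9 / m)
  obtain ⟨g, u₀, hg, hu₀⟩ := FLAT k Λ ε hε
  rw [← hs] at hu₀
  -- choice of u
  obtain ⟨x, hx⟩ := exists_nat_ge (max (2 * (s : ℝ) + 3) (4 * s / δ))
  obtain ⟨u, hu⟩ : ∃ u : ℕ, u = u₀ + x + 1 := ⟨_, rfl⟩
  have hu0 : 0 < u := by omega
  have hu0' : (0 : ℝ) < u := by exact_mod_cast hu0
  have hxu : (x : ℝ) ≤ u := by rw [hu]; push_cast; linarith [(Nat.cast_nonneg u₀ : (0 : ℝ) ≤ u₀)]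
  have hsu1 : (2 * (s : ℝ) + 3) / u ≤ 1 := by
    rw [div_le_one hu0']
    exact ((le_max_left _ _).trans hx).trans hxu
  have hsu2 : 2 * ((s : ℝ) / u) ≤ δ / 2 := by
    have h1 : 4 * (s : ℝ) / δ ≤ u := ((le_max_right _ _).trans hx).trans hxu
    rw [div_le_iff₀ hδ] at h1
    rw [← mul_div_assoc, div_le_iff₀ hu0']
    linarith
  obtain ⟨κ₀, hκ₀⟩ := hu₀ u (by omega)
  refine ⟨κ₀ + 1, ?_⟩
  intro κ hκ A B C hA hB hC hAB hAC hBC hall htwo hB1 hC1 i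
  obtain ⟨p₁, p₂, hp₁, hp₂, hp, h₁, h₂⟩ := htwo
  obtain ⟨q₁, hq₁, h₃⟩ := Nat.exists_prime_and_dvd hB1
  obtain ⟨r₁, hr₁, h₄⟩ := Nat.exists_prime_and_dvd hC1
  have hstep := fun j : ℕ => KeyZN.step hdeg Q hQ hvd hy hk hs hε hctr hδ hstab hm hm1 hΛ hmt hg
    hu0 hsu1 hsu2 (κ := κ) (by omega)
    (fun μ q e₀ M0 M1 M2 => hκ₀ κ μ q e₀ M0 M1 M2 (by omega)) hA hB hC hAB hBC hall
    hp₁ hp₂ hp hq₁ hr₁ h₁ h₂ h₃ h₄ j
  choose d₀ hd₀ using hstep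
  obtain ⟨d, hd⟩ : ∃ d : ℕ, d = ∑ j ∈ Finset.range (n + 1), d₀ j := ⟨_, rfl⟩
  have hs0 : 0 < s := by omega
  -- base points
  obtain ⟨v, hv⟩ : ∃ v : Fin 3 → Fin s → ℕ, ∀ X i, v X i =
    if i = ⟨0, hs0⟩ then KeyZN.rr κ A B C X else 1 := ⟨_, fun _ _ => rfl⟩
  have hqp := KeyZN.qq_pos κ
  have hvOK : ∀ X, SlotOK (KeyZN.qq κ) (v X) := by
    intro X
    refine ⟨fun i => ?_, fun i => ?_⟩
    · rw [hv]
      split_ifs
      · have : ∀ a, a % KeyZN.qq κ ≤ KeyZN.qq κ := fun a => (Nat.mod_lt a hqp).le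
        fin_cases X
        · exact this _
        · exact this _
        · exact this _
      · exact hqp
    · rw [hv]
      split_ifs
      · exact KeyZN.rr_cop hAB hAC hBC hall X
      · exact Nat.coprime_one_left _
  have hvprod : ∀ X, ∏ i, v X i = KeyZN.rr κ A B C X := by
    intro X
    rw [Finset.prod_eq_single ⟨0, hs0⟩]
    · rw [hv, if_pos rfl]
    · intro i _ hi
      rw [hv, if_neg hi]
    · intro h; exact absurd (Finset.mem_univ _) h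
  have hcong : A * ∏ i, v 0 i ≡ B * ∏ i, v 1 i + C * ∏ i, v 2 i [MOD KeyZN.qq κ] := by
    rw [hvprod, hvprod, hvprod]
    exact KeyZN.rr_rel (Nat.ModEq.refl _) (Nat.ModEq.refl _) (Nat.ModEq.refl _)
  have hbad := fun (j : ℕ) (hj : j ∈ Finset.range (n + 1)) => hd₀ j d (by
    rw [hd]; exact Finset.single_le_sum (f := d₀) (fun _ _ => Nat.zero_le _) hj) v hvOK hcong
  -- a point outside the bad sets
  obtain ⟨z, hz⟩ : ∃ z : Fin 3 × Fin s → Fin (2 ^ d), ∀ j ∈ Finset.range (n + 1), ∀ i,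
      Q i (fun _ => ((1 + j * (2 ^ κ).factorial : ℕ) : ℤ) • (KeyZN.x0 A B C, (0 : ℤ)) +
          (((0 : UV ℚ × UV ℚ), (1 : ℤ)) +
            ∑ x, (KeyZN.bt (KeyZN.qq κ) u d v x (z x), (0 : ℤ)))) = 0 := by
    by_contra hcon
    push Not at hcon
    set Bad : ℕ → Finset (Fin 3 × Fin s → Fin (2 ^ d)) := fun j =>
      (Finset.univ : Finset (Fin 3 × Fin s → Fin (2 ^ d))).filter fun z => ∃ i,
        Q i (fun _ => ((1 + j * (2 ^ κ).factorial : ℕ) : ℤ) • (KeyZN.x0 A B C, (0 : ℤ)) +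
          (((0 : UV ℚ × UV ℚ), (1 : ℤ)) +
            ∑ x, (KeyZN.bt (KeyZN.qq κ) u d v x (z x), (0 : ℤ)))) ≠ 0 with hBad
    have h1 : (Finset.univ : Finset (Fin 3 × Fin s → Fin (2 ^ d))) ⊆
        (Finset.range (n + 1)).biUnion Bad := by
      intro z _
      obtain ⟨j, hj, i, hi⟩ := hcon z
      exact Finset.mem_biUnion.2 ⟨j, hj, Finset.mem_filter.2 ⟨Finset.mem_univ _, i, hi⟩⟩
    have h2 := (Finset.card_le_card h1).trans Finset.card_biUnion_le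
    have h3 : ((Finset.univ : Finset (Fin 3 × Fin s → Fin (2 ^ d))).card : ℝ) ≤
        ∑ j ∈ Finset.range (n + 1), ((Bad j).card : ℝ) := by exact_mod_cast h2
    have h4 : ∑ j ∈ Finset.range (n + 1), ((Bad j).card : ℝ) ≤
        ∑ j ∈ Finset.range (n + 1), (1 / ((n : ℝ) + 3)) *
          (Fintype.card (Fin 3 × Fin s → Fin (2 ^ d)) : ℝ) :=
      Finset.sum_le_sum fun j hj => hbad j hj
    rw [Finset.sum_const, Finset.card_range, nsmul_eq_mul] at h4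
    rw [Finset.card_univ] at h3
    have h5 : (0 : ℝ) < (Fintype.card (Fin 3 × Fin s → Fin (2 ^ d)) : ℝ) := by
      exact_mod_cast Fintype.card_pos
    have h6 := h3.trans h4
    rw [← mul_assoc] at h6
    have h7 : ((n + 1 : ℕ) : ℝ) * (1 / ((n : ℝ) + 3)) < 1 := by
      rw [mul_one_div, div_lt_one (by positivity)]
      push_cast
      linarith
    nlinarith
  refine leadW (Q i) (hdeg i) (KeyZN.x0 A B C, (0 : ℤ)) (((0 : UV ℚ × UV ℚ), (1 : ℤ)) +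
    ∑ x, (KeyZN.bt (KeyZN.qq κ) u d v x (z x), (0 : ℤ)))
    (fun j => ((1 + j * (2 ^ κ).factorial : ℕ) : ℤ)) ?_ ?_
  · intro j j' hjj
    have h1 : 1 + j * (2 ^ κ).factorial = 1 + j' * (2 ^ κ).factorial := Nat.cast_injective hjj
    have h2 : j * (2 ^ κ).factorial = j' * (2 ^ κ).factorial := by omega
    exact Nat.eq_of_mul_eq_mul_right (Nat.factorial_pos _) h2
  · intro j hj
    exact hz j (Finset.mem_range.2 hj) i

/-- [KEYZ] -/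
theorem KEYZ (I : Type) [Fintype I] (n : ℕ) (deg : I → ℕ) (hdeg : ∀ i, deg i ≤ n)
    (φ : I → ℝ → ℝ) (hφc : ∀ i, ContinuousOn (φ i) (Set.Ioo 0 1))
    (hind : ∀ h : I → Fin (n + 1) → Fin (n + 1) → ℝ,
      (∀ t ∈ Set.Ioo (0 : ℝ) 1, ∑ i, ∑ a : Fin (n + 1), ∑ b : Fin (n + 1),
        h i a b * φ i t * Real.log t ^ (a : ℕ) * Real.log (1 - t) ^ (b : ℕ) = 0) → h = 0)
    (Q : ∀ i, MultilinearMap ℤ (fun _ : Fin (deg i) => UV ℚ × UV ℚ) ℝ)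
    (hQ : ∀ x : ℚ, 0 < x → x < 1 → ∑ i, φ i (x : ℝ) * Q i (fun _ => (cl x, cl (1 - x))) = 0) :
    ∃ κ₁ : ℕ, ∀ κ : ℕ, κ₁ ≤ κ → ∀ A B C : ℕ, 0 < A → 0 < B → 0 < C →
      Nat.Coprime A B → Nat.Coprime A C → Nat.Coprime B C →
      (∀ p : ℕ, p.Prime → (p ∣ A * B * C ↔ p < 2 ^ κ)) →
      (∃ p₁ p₂ : ℕ, p₁.Prime ∧ p₂.Prime ∧ p₁ ≠ p₂ ∧ p₁ ∣ A ∧ p₂ ∣ A) → B ≠ 1 → C ≠ 1 →
      ∀ i, Q i (fun _ => (cl (B : ℚ) - cl (A : ℚ), cl (C : ℚ) - cl (A : ℚ))) = 0 :=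
  KEYZ2 I n deg hdeg φ hφc hind
    (fun i => (Q i).compLinearMap fun _ => LinearMap.fst ℤ (UV ℚ × UV ℚ) ℤ) hQ

end Pool.Agent.H366.ZC
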