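import Pool.Agent.H366.ZC.TS
import Pool.Graph.R_seed8.Y775.W3.MDefs
import Pool.Agent.H366.FC.Dep

/-! # [MOT] the part of depth one of the motivic Lie coalgebra of the rational numbers -/

set_option autoImplicit false
set_option linter.unusedSectionVars false
set_option linter.unusedVariables false

namespace Pool.Agent.H366.ZC

open Pool.Agent.TH358.MC Y775.W3

/-- The motivic Lie coalgebra of `ℚ` (`Y775.W3.MotivicRat`) with the real period map
`per : C → ℝ` (only its values in odd weights `n ≥ 3` are used; there the real period of `Li_n(x)`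
is Zagier's single-valued polylogarithm `𝓛_n(x)`). -/
structure MotivicRatPer (C : Type) [AddCommGroup C] [Module ℚ C] extends MotivicRat C where
  /-- the real period -/
  per : C →ₗ[ℚ] ℝ
  per_Li : ∀ (n : ℕ) (x : ℚ), Odd n → 3 ≤ n → 0 < x → x ≤ 1 → per (Li n x) = SV n (x : ℝ)

namespace MotN

open H39Gon
open Pool.Agent.H366.FC.DepN (mk mk_apply add1 sep exists_lin retract K0 K1 toL toB toB_apply)
open scoped TensorProduct

/-! ### linear algebra -/

section lin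

/-- factorisation of a linear map -/
theorem factor {A B Y : Type} [AddCommGroup A] [Module ℚ A] [AddCommGroup B] [Module ℚ B]
    [AddCommGroup Y] [Module ℚ Y] (D : A →ₗ[ℚ] B) (L : A →ₗ[ℚ] Y)
    (h : ∀ a, D a = 0 → L a = 0) : ∃ θ : B →ₗ[ℚ] Y, ∀ a, θ (D a) = L a := by
  refine exists_lin (fun a => D a) (fun a => L a) (fun c hc => ?_)
  have h1 : ∀ (c : A →₀ ℚ), Finsupp.linearCombination ℚ (fun a => D a) c =
      D (Finsupp.linearCombination ℚ (fun a => a) c) := by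
    intro c
    rw [Finsupp.linearCombination_apply, Finsupp.linearCombination_apply, Finsupp.sum,
      Finsupp.sum, map_sum]
    exact Finset.sum_congr rfl fun a _ => (map_smul D _ _).symm
  have h2 : ∀ (c : A →₀ ℚ), Finsupp.linearCombination ℚ (fun a => L a) c =
      L (Finsupp.linearCombination ℚ (fun a => a) c) := by
    intro c
    rw [Finsupp.linearCombination_apply, Finsupp.linearCombination_apply, Finsupp.sum,
      Finsupp.sum, map_sum]
    exact Finset.sum_congr rfl fun a _ => (map_smul L _ _).symm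
  rw [h1] at hc
  rw [h2]
  exact h _ hc

end lin

/-! ### functionals on the exterior algebra -/

section alt

variable {C : Type} [AddCommGroup C] [Module ℚ C] {Y : Type} [AddCommGroup Y] [Module ℚ Y]

/-- linear maps are alternating maps in one variable -/
noncomputable def A1 : (C →ₗ[ℚ] Y) →ₗ[ℚ] (C [⋀^Fin 1]→ₗ[ℚ] Y) where
  toFun f := AlternatingMap.ofSubsingleton ℚ C Y (0 : Fin 1) f
  map_add' _ _ := rfl
  map_smul' _ _ := rfl

theorem A1_apply (f : C →ₗ[ℚ] Y) (x : C) : A1 f (fun _ => x) = f x := rfl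

/-- antisymmetrisation of bilinear forms -/
noncomputable def A2 : (C →ₗ[ℚ] C →ₗ[ℚ] Y) →ₗ[ℚ] (C [⋀^Fin 2]→ₗ[ℚ] Y) :=
  AlternatingMap.alternatizeUncurryFinLM ∘ₗ (LinearMap.compRight ℚ A1)

/-- antisymmetrisation of trilinear forms -/
noncomputable def A3 : (C →ₗ[ℚ] C →ₗ[ℚ] C →ₗ[ℚ] Y) →ₗ[ℚ] (C [⋀^Fin 3]→ₗ[ℚ] Y) :=
  AlternatingMap.alternatizeUncurryFinLM ∘ₗ (LinearMap.compRight ℚ A2)

theorem A2_apply (B : C →ₗ[ℚ] C →ₗ[ℚ] Y) (a b : C) : A2 B ![a, b] = B a b - B b a := by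
  change AlternatingMap.alternatizeUncurryFin (A1 ∘ₗ B) ![a, b] = _
  rw [AlternatingMap.alternatizeUncurryFin_apply, Fin.sum_univ_two]
  have e0 : (0 : Fin 2).removeNth ![a, b] = fun _ => b := by
    ext i; fin_cases i; rfl
  have e1 : (1 : Fin 2).removeNth ![a, b] = fun _ => a := by
    ext i; fin_cases i; rfl
  rw [e0, e1]
  simp [A1_apply]
  abel

theorem A3_apply (T : C →ₗ[ℚ] C →ₗ[ℚ] C →ₗ[ℚ] Y) (a b c : C) : A3 T ![a, b, c] =
    T a b c - T a c b - (T b a c - T b c a) + (T c a b - T c b a) := by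
  change AlternatingMap.alternatizeUncurryFin (A2 ∘ₗ T) ![a, b, c] = _
  rw [AlternatingMap.alternatizeUncurryFin_apply, Fin.sum_univ_three]
  have e0 : (0 : Fin 3).removeNth ![a, b, c] = ![b, c] := by
    ext i; fin_cases i <;> rfl
  have e1 : (1 : Fin 3).removeNth ![a, b, c] = ![a, c] := by
    ext i; fin_cases i <;> rfl
  have e2 : (2 : Fin 3).removeNth ![a, b, c] = ![a, b] := by
    ext i; fin_cases i <;> rfl
  rw [e0, e1, e2]
  simp [A2_apply]
  abel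

theorem functional_two (B : C →ₗ[ℚ] C →ₗ[ℚ] Y) : ∃ θ : ExteriorAlgebra ℚ C →ₗ[ℚ] Y,
    ∀ a b : C, θ (ExteriorAlgebra.ι ℚ a * ExteriorAlgebra.ι ℚ b) = B a b - B b a := by
  refine ⟨ExteriorAlgebra.liftAlternating (Function.update 0 2 (A2 B)), fun a b => ?_⟩
  have h := ExteriorAlgebra.liftAlternating_apply_ιMulti
    (Function.update (0 : ∀ i, C [⋀^Fin i]→ₗ[ℚ] Y) 2 (A2 B)) ![a, b]
  rw [Function.update_self, A2_apply] at h
  rw [← h]
  congr 1
  simp [ExteriorAlgebra.ιMulti_succ_apply]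

theorem functional_three (T : C →ₗ[ℚ] C →ₗ[ℚ] C →ₗ[ℚ] Y) :
    ∃ θ : ExteriorAlgebra ℚ C →ₗ[ℚ] Y, ∀ a b c : C,
      θ (ExteriorAlgebra.ι ℚ a * (ExteriorAlgebra.ι ℚ b * ExteriorAlgebra.ι ℚ c)) =
      T a b c - T a c b - (T b a c - T b c a) + (T c a b - T c b a) := by
  refine ⟨ExteriorAlgebra.liftAlternating (Function.update 0 3 (A3 T)), fun a b c => ?_⟩
  have h := ExteriorAlgebra.liftAlternating_apply_ιMulti
    (Function.update (0 : ∀ i, C [⋀^Fin i]→ₗ[ℚ] Y) 3 (A3 T)) ![a, b, c]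
  rw [Function.update_self, A3_apply] at h
  rw [← h]
  congr 1
  simp [ExteriorAlgebra.ιMulti_succ_apply]

end alt

/-! ### Koszul steps with values in a vector space -/

section koszul

variable {V : Type} [AddCommGroup V] {Y : Type} [AddCommGroup Y] [Module ℚ Y]

/-- the composition with a functional -/
noncomputable def co (f : Module.Dual ℚ Y) {n : ℕ}
    (Q : MultilinearMap ℤ (fun _ : Fin n => V) (V →ₗ[ℤ] Y)) :
    MultilinearMap ℤ (fun _ : Fin n => V) (V →ₗ[ℤ] ℚ) :=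
  mk (fun s v => f (Q s v)) (fun s i x y v => by rw [add1, map_add])
    (fun s v w => by rw [map_add, map_add])

theorem co_apply (f : Module.Dual ℚ Y) {n : ℕ}
    (Q : MultilinearMap ℤ (fun _ : Fin n => V) (V →ₗ[ℤ] Y)) (s : Fin n → V) (v : V) :
    co f Q s v = f (Q s v) := rfl

/-- a bilinear map from a biadditive function -/
noncomputable def mk2 (f : V → V → Y) (h1 : ∀ x y z, f (x + y) z = f x z + f y z)
    (h2 : ∀ x y z, f x (y + z) = f x y + f x z) : V →ₗ[ℤ] (V →ₗ[ℤ] Y) :=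
  (AddMonoidHom.mk' (fun x => (AddMonoidHom.mk' (f x) (h2 x)).toIntLinearMap)
    (fun x y => by ext z; exact h1 x y z)).toIntLinearMap

theorem mk2_apply (f : V → V → Y) (h1) (h2) (x y : V) : mk2 f h1 h2 x y = f x y := rfl

/-- a trilinear map from a triadditive function -/
noncomputable def mk3 (f : V → V → V → Y) (h1 : ∀ x y z w, f (x + y) z w = f x z w + f y z w)
    (h2 : ∀ x y z w, f x (y + z) w = f x y w + f x z w)
    (h3 : ∀ x y z w, f x y (z + w) = f x y z + f x y w) :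
    V →ₗ[ℤ] (V →ₗ[ℤ] (V →ₗ[ℤ] Y)) :=
  (AddMonoidHom.mk' (fun x => mk2 (f x) (h2 x) (h3 x))
    (fun x y => by ext z w; exact h1 x y z w)).toIntLinearMap

theorem mk3_apply (f : V → V → V → Y) (h1) (h2) (h3) (x y z : V) :
    mk3 f h1 h2 h3 x y z = f x y z := rfl

/-- a multilinear map from a function which is additive in each variable -/
noncomputable def mkM {n : ℕ} {Z : Type} [AddCommGroup Z] (T : (Fin n → V) → Z)
    (h : ∀ (s : Fin n → V) (i : Fin n) (x y : V), T (Function.update s i (x + y)) =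
      T (Function.update s i x) + T (Function.update s i y)) :
    MultilinearMap ℤ (fun _ : Fin n => V) Z where
  toFun s := T s
  map_update_add' := by
    intro inst s i x y
    have h0 : inst = instDecidableEqFin n := Subsingleton.elim _ _
    subst h0
    exact h s i x y
  map_update_smul' := by
    intro inst s i c x
    have h0 : inst = instDecidableEqFin n := Subsingleton.elim _ _
    subst h0
    let φ : V →+ Z := AddMonoidHom.mk' (fun x => T (Function.update s i x))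
      (fun x y => h s i x y)
    exact map_zsmul φ c x

theorem mkM_apply {n : ℕ} {Z : Type} [AddCommGroup Z] (T : (Fin n → V) → Z) (h)
    (s : Fin n → V) : mkM T h s = T s := rfl

theorem K0' (m : ℕ) (Q : MultilinearMap ℤ (fun _ : Fin (m + 2) => V) (V →ₗ[ℤ] Y))
    (hS : ∀ s : V, Q (fun _ => s) s = 0) :
    ∃ Q' : MultilinearMap ℤ (fun _ : Fin (m + 1) => V) (V →ₗ[ℤ] (V →ₗ[ℤ] Y)),
      (∀ s : V, Q' (fun _ => s) s = 0) ∧ ∀ s v : V, Q' (fun _ => s) v s = Q (fun _ => s) v := by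
  obtain ⟨r, hr⟩ := retract Y
  have h1 := fun f : Module.Dual ℚ Y => K0 m (co f Q) (fun s => by rw [co_apply, hS, map_zero])
  choose Q' hQ1 hQ2 using h1
  refine ⟨mkM (fun s => mk2 (fun v w => r (fun f => Q' f s v w)) ?_ ?_) ?_, ?_, ?_⟩
  · intro x y z
    rw [← map_add]
    congr 1
    funext f
    rw [map_add]
    rfl
  · intro x y z
    rw [← map_add]
    congr 1
    funext f
    rw [map_add]
    rfl
  · intro s i x y
    ext v w
    change r _ = r _ + r _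
    rw [← map_add]
    congr 1
    funext f
    rw [MultilinearMap.map_update_add]
    rfl
  · intro s
    ext w
    change r (fun f => Q' f (fun _ => s) s w) = 0
    rw [← map_zero r]
    congr 1
    funext f
    rw [hQ1]
    rfl
  · intro s v
    change r (fun f => Q' f (fun _ => s) v s) = _
    rw [← hr (Q (fun _ => s) v)]
    congr 1
    funext f
    rw [hQ2]
    rfl

theorem K1' (m : ℕ) (Q : MultilinearMap ℤ (fun _ : Fin (m + 2) => V) (V →ₗ[ℤ] (V →ₗ[ℤ] Y)))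
    (hS : ∀ s : V, Q (fun _ => s) s = 0) (hD : ∀ s v : V, Q (fun _ => s) v s = 0) :
    ∃ Q' : MultilinearMap ℤ (fun _ : Fin (m + 1) => V) (V →ₗ[ℤ] (V →ₗ[ℤ] (V →ₗ[ℤ] Y))),
      (∀ s : V, Q' (fun _ => s) s = 0) ∧
      (∀ (s : Fin (m + 1) → V) (v y y' : V), Q' s v y y' = - Q' s v y' y) ∧
      ∀ s v y : V, Q' (fun _ => s) v s y = Q (fun _ => s) v y := by
  obtain ⟨r, hr⟩ := retract Y
  have h1 := fun f : Module.Dual ℚ Y => K1 m
    (mkM (Z := V →ₗ[ℤ] (V →ₗ[ℤ] ℚ)) (fun s => mk2 (fun v w => f (Q s v w))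
      (fun x y z => by rw [map_add, LinearMap.add_apply, map_add])
      (fun x y z => by rw [map_add, map_add])) (fun s i x y => by
        ext v w
        change f _ = f _ + f _
        rw [MultilinearMap.map_update_add, LinearMap.add_apply, LinearMap.add_apply, map_add]))
    (fun s => by
      ext w
      change f (Q (fun _ => s) s w) = 0
      rw [hS, LinearMap.zero_apply, map_zero])
    (fun s v => by
      change f (Q (fun _ => s) v s) = 0
      rw [hD, map_zero])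
  choose Q' hQ1 hQ2 hQ3 using h1
  refine ⟨mkM (fun s => mk3 (fun v w z => r (fun f => Q' f s v w z)) ?_ ?_ ?_) ?_, ?_, ?_, ?_⟩
  · intro x y z w
    rw [← map_add]
    congr 1
    funext f
    rw [map_add]
    rfl
  · intro x y z w
    rw [← map_add]
    congr 1
    funext f
    rw [map_add]
    rfl
  · intro x y z w
    rw [← map_add]
    congr 1
    funext f
    rw [map_add]
    rfl
  · intro s i x y
    ext v w z
    change r _ = r _ + r _
    rw [← map_add]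
    congr 1
    funext f
    rw [MultilinearMap.map_update_add]
    rfl
  · intro s
    ext w z
    change r (fun f => Q' f (fun _ => s) s w z) = 0
    rw [← map_zero r]
    congr 1
    funext f
    rw [hQ1]
    rfl
  · intro s v y y'
    change r (fun f => Q' f s v y y') = - r (fun f => Q' f s v y' y)
    rw [← map_neg]
    congr 1
    funext f
    exact hQ2 f s v y y'
  · intro s v y
    change r (fun f => Q' f (fun _ => s) v s y) = _
    rw [← hr (Q (fun _ => s) v y)]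
    congr 1
    funext f
    rw [hQ3]
    rfl

theorem K2 (k : ℕ) (F : MultilinearMap ℤ (fun _ : Fin (k + 1) => V) (V →ₗ[ℤ] ℚ))
    (hF : ∀ s : V, F (fun _ => s) s = 0) :
    ∃ F' : MultilinearMap ℤ (fun _ : Fin k => V) (V →ₗ[ℤ] (V →ₗ[ℤ] ℚ)),
      (∀ (s : Fin k → V) (y y' : V), F' s y y' = - F' s y' y) ∧
      ∀ s y : V, F' (fun _ => s) s y = F (fun _ => s) y := by
  let R : MultilinearMap ℤ (fun _ : Fin (k + 1) => V) (V [⋀^Fin 1]→ₗ[ℤ] ℚ) :=
    mkM (fun s => AlternatingMap.ofSubsingleton ℤ V ℚ (0 : Fin 1) (F s))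
      (fun s i x y => by rw [MultilinearMap.map_update_add]; rfl)
  have hR : ∀ (s : V) (y : Fin 1 → V), AlternatingMap.alternatizeUncurryFin
      (D1_kd R (fun _ => s)) (Fin.cons s y) = ((k : ℚ) + 1 + 1) * F (fun _ => s) (y 0) := by
    intro s y
    have h := D1_hom R (fun i hi s y => by
      obtain rfl : i = 0 := by omega
      exact hF s) s y
    rw [h]
    push_cast
    rfl
  refine ⟨mkM (fun s => ((k : ℚ) + 1 + 1)⁻¹ •
    toB (AlternatingMap.alternatizeUncurryFin (D1_kd R s))) ?_, ?_, ?_⟩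
  · intro s i x y
    rw [← smul_add]
    congr 1
    rw [MultilinearMap.map_update_add]
    ext v w
    change _ = toB _ v w + toB _ v w
    rw [toB_apply, toB_apply, toB_apply, AlternatingMap.alternatizeUncurryFin_apply,
      AlternatingMap.alternatizeUncurryFin_apply, AlternatingMap.alternatizeUncurryFin_apply,
      ← Finset.sum_add_distrib]
    refine Finset.sum_congr rfl fun i _ => ?_
    rw [← smul_add]
    rfl
  · intro s y y'
    change ((k : ℚ) + 1 + 1)⁻¹ * toB _ y y' = - (((k : ℚ) + 1 + 1)⁻¹ * toB _ y' y)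
    rw [toB_apply, toB_apply]
    have h3 := (AlternatingMap.alternatizeUncurryFin (D1_kd R s)).map_swap ![y', y]
      (i := 0) (j := 1) (by decide)
    have h4 : (![y', y] : Fin 2 → V) ∘ (Equiv.swap 0 1) = ![y, y'] := by
      ext i
      fin_cases i <;> rfl
    rw [h4] at h3
    rw [h3]
    ring
  · intro s y
    change ((k : ℚ) + 1 + 1)⁻¹ * toB _ s y = _
    rw [toB_apply]
    have h3 := hR s (fun _ => y)
    have h4 : (Fin.cons s (fun _ => y) : Fin 2 → V) = ![s, y] := by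
      ext i
      fin_cases i <;> rfl
    rw [h4] at h3
    rw [h3]
    have h5 : ((k : ℚ) + 1 + 1) ≠ 0 := by positivity
    field_simp

theorem K2' (k : ℕ) (F : MultilinearMap ℤ (fun _ : Fin (k + 1) => V) (V →ₗ[ℤ] Y))
    (hF : ∀ s : V, F (fun _ => s) s = 0) :
    ∃ F' : MultilinearMap ℤ (fun _ : Fin k => V) (V →ₗ[ℤ] (V →ₗ[ℤ] Y)),
      (∀ (s : Fin k → V) (y y' : V), F' s y y' = - F' s y' y) ∧
      ∀ s y : V, F' (fun _ => s) s y = F (fun _ => s) y := by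
  obtain ⟨r, hr⟩ := retract Y
  have h1 := fun f : Module.Dual ℚ Y => K2 k (co f F) (fun s => by rw [co_apply, hF, map_zero])
  choose Q' hQ1 hQ2 using h1
  refine ⟨mkM (fun s => mk2 (fun v w => r (fun f => Q' f s v w)) ?_ ?_) ?_, ?_, ?_⟩
  · intro x y z
    rw [← map_add]
    congr 1
    funext f
    rw [map_add]
    rfl
  · intro x y z
    rw [← map_add]
    congr 1
    funext f
    rw [map_add]
    rfl
  · intro s i x y
    ext v w
    change r _ = r _ + r _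
    rw [← map_add]
    congr 1
    funext f
    rw [MultilinearMap.map_update_add]
    rfl
  · intro s y y'
    change r (fun f => Q' f s y y') = - r (fun f => Q' f s y' y)
    rw [← map_neg]
    congr 1
    funext f
    exact hQ1 f s y y'
  · intro s y
    change r (fun f => Q' f (fun _ => s) s y) = _
    rw [← hr (F (fun _ => s) y)]
    congr 1
    funext f
    rw [hQ2]
    rfl

end koszul

/-! ### homogeneous maps -/

section hm

variable {V : Type} [AddCommGroup V]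

/-- homogeneous polynomial maps of degree `k` -/
def Hm {Y : Type} [AddCommGroup Y] (k : ℕ) (f : V → Y) : Prop :=
  ∃ ψ : MultilinearMap ℤ (fun _ : Fin k => V) Y, ∀ s, f s = ψ (fun _ => s)

theorem Hm.uncurry {Y : Type} [AddCommGroup Y] {k : ℕ} {f : V → (V →ₗ[ℤ] Y)} (hf : Hm k f) :
    Hm (k + 1) (fun s => f s s) := by
  obtain ⟨ψ, hψ⟩ := hf
  refine ⟨MultilinearMap.uncurryRight (M := fun _ : Fin (k + 1) => V) ψ, fun s => ?_⟩
  change f s s = _
  rw [MultilinearMap.uncurryRight_apply, hψ]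
  rfl

/-- the version for linear maps with values in linear maps -/
theorem Hm.uncurry2 {Y : Type} [AddCommGroup Y] {k : ℕ} {f : V → (V →ₗ[ℤ] (V →ₗ[ℤ] Y))}
    (hf : Hm k f) : Hm (k + 1) (fun s => (f s).flip s) := by
  obtain ⟨ψ, hψ⟩ := hf
  have h : Hm k (fun s => (f s).flip) := by
    refine ⟨mkM (fun s => (ψ s).flip) (fun s i x y => ?_), fun s => ?_⟩
    · rw [MultilinearMap.map_update_add]
      rfl
    · change (f s).flip = _
      rw [mkM_apply, hψ]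
  exact h.uncurry

theorem Hm.zero_const {Y : Type} [AddCommGroup Y] {f : V → Y} (hf : Hm 0 f) (s t : V) :
    f s = f t := by
  obtain ⟨ψ, hψ⟩ := hf
  rw [hψ, hψ]
  congr 1
  exact Subsingleton.elim _ _

end hm

/-! ### extension of linear maps from `V` to `C` -/

section ext

variable {C : Type} [AddCommGroup C] [Module ℚ C] (M : MotivicRatPer C)

theorem phi_mem (v : ℚ ⊗[ℤ] Additive ℚˣ) : M.φ v ∈ M.W 1 := by
  rw [← M.φ_range]
  exact ⟨v, rfl⟩

theorem g_cl (x : ℚ) : gOf M.φ (cl x) = M.φ (cls x) := by rw [cls_eq]; rfl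

theorem g_mem (v : UV ℚ) : gOf M.φ v ∈ M.W 1 := phi_mem M _

theorem exists_rho : ∃ ρ : C →ₗ[ℚ] (ℚ ⊗[ℤ] UV ℚ), (∀ v, ρ (M.φ v) = v) ∧
    ∀ n, n ≠ 1 → ∀ c ∈ M.W n, ρ c = 0 := by
  obtain ⟨r, hr⟩ := M.φ.exists_leftInverse_of_injective (LinearMap.ker_eq_bot.2 M.φ_inj)
  obtain ⟨π, hπ⟩ := scale M.toLieCoalg (fun i => if i = 1 then 1 else 0)
  refine ⟨r ∘ₗ π, fun v => ?_, fun n hn c hc => ?_⟩
  · have h1 := hπ 1 (M.φ v) (phi_mem M v)
    rw [if_pos rfl, one_smul] at h1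
    rw [LinearMap.comp_apply, h1]
    exact LinearMap.congr_fun hr v
  · rw [LinearMap.comp_apply, hπ n c hc, if_neg hn, zero_smul, map_zero]

theorem exists_ext (Y : Type) [AddCommGroup Y] [Module ℚ Y] :
    ∃ E : (UV ℚ →ₗ[ℤ] Y) →ₗ[ℚ] (C →ₗ[ℚ] Y), (∀ f v, E f (gOf M.φ v) = f v) ∧
      ∀ f n, n ≠ 1 → ∀ c ∈ M.W n, E f c = 0 := by
  obtain ⟨ρ, h1, h2⟩ := exists_rho M
  refine ⟨{ toFun := fun f => (LinearMap.liftBaseChange ℚ f) ∘ₗ ρ
            map_add' := fun f g => ?_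
            map_smul' := fun c f => ?_ }, fun f v => ?_, fun f n hn c hc => ?_⟩
  · ext c
    obtain ⟨q, v, hv⟩ := pure (ρ c)
    simp only [LinearMap.comp_apply, LinearMap.add_apply, hv, LinearMap.liftBaseChange_tmul,
      smul_add]
  · ext x
    obtain ⟨q, v, hv⟩ := pure (ρ x)
    simp only [LinearMap.comp_apply, LinearMap.smul_apply, hv, LinearMap.liftBaseChange_tmul,
      RingHom.id_apply]
    rw [smul_comm]
  · change LinearMap.liftBaseChange ℚ f (ρ (gOf M.φ v)) = f v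
    rw [gOf_apply, h1, LinearMap.liftBaseChange_tmul, one_smul]
  · change LinearMap.liftBaseChange ℚ f (ρ c) = 0
    rw [h2 n hn c hc, map_zero]

/-- the step of the recursion for functionals with prescribed values -/
theorem rep_step (n : ℕ) (hn : 2 ≤ n) {Y : Type} [AddCommGroup Y] [Module ℚ Y]
    (l : C →ₗ[ℚ] (UV ℚ →ₗ[ℤ] Y)) : ∃ l' : C →ₗ[ℚ] Y, ∀ x : ℚ, x ≠ 0 →
      l' (M.Li (n + 1) x) = l (M.Li n x) (cl x) := by
  obtain ⟨E, hE, hE0⟩ := exists_ext M Y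
  obtain ⟨π, hπ, hπ'⟩ := exists_proj M.toLieCoalg
  obtain ⟨θ, hθ⟩ := functional_two (E ∘ₗ l ∘ₗ π)
  refine ⟨θ ∘ₗ M.d ∘ₗ ExteriorAlgebra.ι ℚ, fun x hx => ?_⟩
  change θ (M.d (ExteriorAlgebra.ι ℚ (M.Li (n + 1) x))) = _
  rw [M.Li_succ n x (by omega) hx, hθ, ← g_cl]
  change E (l (π (M.Li n x))) (gOf M.φ (cl x)) - E (l (π (gOf M.φ (cl x)))) (M.Li n x) = _
  rw [hπ _ (g_mem M _), hπ' n (by omega) _ (M.Li_mem n x (by omega) hx), hE,
    map_zero, map_zero, LinearMap.zero_apply, sub_zero]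

theorem repP_zero {Y : Type} [AddCommGroup Y] [Module ℚ Y] (p : UV ℚ → (UV ℚ →ₗ[ℤ] Y))
    (hp : Hm 1 p) (h0 : ∀ s, p s s = 0) : ∃ l : C →ₗ[ℚ] Y, ∀ x : ℚ, x ≠ 0 →
      l (M.Li 2 x) = p (cl x) (cl (1 - x)) := by
  obtain ⟨Q, hQ⟩ := hp
  let q : UV ℚ →ₗ[ℤ] (UV ℚ →ₗ[ℤ] Y) := (AddMonoidHom.mk' p
    (fun x y => by
      have h1 := Q.map_update_add (fun _ => 0) 0 x y
      have e : ∀ z : UV ℚ, Function.update (fun _ : Fin 1 => (0 : UV ℚ)) 0 z = fun _ => z := by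
        intro z
        ext i
        fin_cases i
        rfl
      rwa [e, e, e, ← hQ, ← hQ, ← hQ] at h1)).toIntLinearMap
  have hq : ∀ s v, q s v = p s v := fun s v => rfl
  have hq' : ∀ s v, q s v = - q v s := by
    intro s v
    have h1 : q (s + v) (s + v) = 0 := h0 _
    have h2 : q s s = 0 := h0 _
    have h3 : q v v = 0 := h0 _
    rw [map_add, map_add, LinearMap.add_apply, LinearMap.add_apply, h2, h3, zero_add,
      add_zero] at h1
    exact eq_neg_of_add_eq_zero_right h1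
  obtain ⟨E, hE, -⟩ := exists_ext M (UV ℚ →ₗ[ℤ] Y)
  obtain ⟨E', hE', -⟩ := exists_ext M Y
  obtain ⟨θ, hθ⟩ := functional_two (E' ∘ₗ (E q))
  refine ⟨(1 / 2 : ℚ) • (θ ∘ₗ M.d ∘ₗ ExteriorAlgebra.ι ℚ), fun x hx => ?_⟩
  change (1 / 2 : ℚ) • θ (M.d (ExteriorAlgebra.ι ℚ (M.Li 2 x))) = _
  rw [M.Li_succ 1 x le_rfl hx, M.Li_one x hx, hθ, ← g_cl, ← g_cl]
  change (1 / 2 : ℚ) • (E' (E q (- gOf M.φ (cl (1 - x)))) (gOf M.φ (cl x)) -
    E' (E q (gOf M.φ (cl x))) (- gOf M.φ (cl (1 - x)))) = _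
  rw [map_neg, map_neg, map_neg, LinearMap.neg_apply, hE, hE, hE', hE', hq' (cl (1 - x)), ← hq,
    neg_neg, sub_neg_eq_add, ← two_smul ℚ, smul_smul]
  norm_num

theorem repP (m : ℕ) : ∀ {Y : Type} [AddCommGroup Y] [Module ℚ Y] (p : UV ℚ → (UV ℚ →ₗ[ℤ] Y))
    (hp : Hm (m + 1) p) (h0 : ∀ s, p s s = 0), ∃ l : C →ₗ[ℚ] Y, ∀ x : ℚ, x ≠ 0 →
      l (M.Li (m + 2) x) = p (cl x) (cl (1 - x)) := by
  induction m with
  | zero => exact fun p hp h0 => repP_zero M p hp h0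
  | succ m ih =>
    intro Y _ _ p hp h0
    obtain ⟨Q, hQ⟩ := hp
    obtain ⟨Q', h1, h2⟩ := K0' m Q (fun s => by rw [← hQ]; exact h0 s)
    obtain ⟨l, hl⟩ := ih (Y := UV ℚ →ₗ[ℤ] Y) (fun s => Q' (fun _ => s)) ⟨Q', fun s => rfl⟩ h1
    obtain ⟨l', hl'⟩ := rep_step M (m + 2) (by omega) l
    refine ⟨l', fun x hx => ?_⟩
    rw [hl' x hx, hl x hx, h2, hQ]

theorem repR (i : ℕ) (hi : Odd i) (hi3 : 3 ≤ i) (k : ℕ) : ∀ {Y : Type} [AddCommGroup Y]
    [Module ℚ Y] [Module ℝ Y] (f : UV ℚ → Y) (hf : Hm k f), ∃ l : C →ₗ[ℚ] Y,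
      ∀ x : ℚ, x ≠ 0 → l (M.Li (i + k) x) = M.per (M.Li i x) • f (cl x) := by
  induction k with
  | zero =>
    intro Y _ _ _ f hf
    let h : C →+ Y := AddMonoidHom.mk' (fun c => M.per c • f 0) (fun c c' => by
      rw [map_add, add_smul])
    refine ⟨h.toRatLinearMap, fun x hx => ?_⟩
    change M.per (M.Li i x) • f 0 = _
    rw [hf.zero_const 0 (cl x)]
  | succ k ih =>
    intro Y _ _ _ f hf
    obtain ⟨ψ, hψ⟩ := hf
    obtain ⟨l, hl⟩ := ih (Y := UV ℚ →ₗ[ℤ] Y)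
      (fun s => MultilinearMap.curryRight (M := fun _ : Fin (k + 1) => UV ℚ) ψ (fun _ => s))
      ⟨_, fun s => rfl⟩
    obtain ⟨l', hl'⟩ := rep_step M (i + k) (by omega) l
    refine ⟨l', fun x hx => ?_⟩
    rw [← add_assoc, hl' x hx, hl x hx, hψ]
    change M.per (M.Li i x) • (MultilinearMap.curryRight (M := fun _ : Fin (k + 1) => UV ℚ) ψ
      (fun _ => cl x) (cl x)) = _
    congr 1
    change ψ (Fin.snoc (fun _ => cl x) (cl x)) = _
    congr 1
    ext j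
    refine Fin.lastCases ?_ (fun j => ?_) j <;> simp

/-! ### all functionals -/

theorem theta_of (n : ℕ) (hn : 2 ≤ n) {Y : Type} [AddCommGroup Y] [Module ℚ Y]
    (l : C →ₗ[ℚ] Y) (hl : Odd n → l (M.Li n 1) = 0) :
    ∃ θ : ExteriorAlgebra ℚ C →ₗ[ℚ] Y, ∀ a ∈ M.W n, θ (M.d (ExteriorAlgebra.ι ℚ a)) = l a := by
  obtain ⟨θ, hθ⟩ := factor ((M.d ∘ₗ ExteriorAlgebra.ι ℚ) ∘ₗ (M.W n).subtype)
    (l ∘ₗ (M.W n).subtype) (fun a ha => by
      change M.d (ExteriorAlgebra.ι ℚ (a : C)) = 0 at ha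
      change l (a : C) = 0
      rcases Nat.even_or_odd n with h | h
      · rw [M.ext_even n a hn h a.2 ha, map_zero]
      · obtain ⟨q, hq⟩ := M.ext_odd n a hn h a.2 ha
        rw [hq, map_smul, hl h, smul_zero])
  exact ⟨θ, fun a ha => hθ ⟨a, ha⟩⟩

/-- `c ↦ (v ↦ θ (c ∧ v))` -/
noncomputable def Th {Y : Type} [AddCommGroup Y] [Module ℚ Y]
    (θ : ExteriorAlgebra ℚ C →ₗ[ℚ] Y) : C →ₗ[ℚ] (UV ℚ →ₗ[ℤ] Y) where
  toFun c := (AddMonoidHom.mk' (fun v => θ (ExteriorAlgebra.ι ℚ c *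
    ExteriorAlgebra.ι ℚ (gOf M.φ v))) (fun v v' => by
      simp only [map_add, mul_add])).toIntLinearMap
  map_add' c c' := by
    ext v
    change θ _ = θ _ + θ _
    simp only [map_add, add_mul]
  map_smul' q c := by
    ext v
    change θ _ = q • θ _
    simp only [map_smul, smul_mul_assoc]

theorem Th_apply {Y : Type} [AddCommGroup Y] [Module ℚ Y]
    (θ : ExteriorAlgebra ℚ C →ₗ[ℚ] Y) (c : C) (v : UV ℚ) :
    Th M θ c v = θ (ExteriorAlgebra.ι ℚ c * ExteriorAlgebra.ι ℚ (gOf M.φ v)) := rfl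

theorem exists_corr (n : ℕ) (hn : 3 ≤ n) {Y : Type} [AddCommGroup Y] [Module ℚ Y] [Module ℝ Y]
    (l : C →ₗ[ℚ] Y) : ∃ (y : Y) (l' : C →ₗ[ℚ] Y), (Even n → y = 0) ∧
      (∀ c, l c = l' c + M.per c • y) ∧ (Odd n → l' (M.Li n 1) = 0) := by
  rcases Nat.even_or_odd n with h | h
  · refine ⟨0, l, fun _ => rfl, fun c => by rw [smul_zero, add_zero], fun h' => ?_⟩
    exact absurd h' (Nat.not_odd_iff_even.2 h)
  · have h1 : M.per (M.Li n 1) = SV n 1 := by
      have := M.per_Li n 1 h hn one_pos le_rfl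
      rw [this]
      norm_num
    have h2 : M.per (M.Li n 1) ≠ 0 := by
      rw [h1]
      exact SV_one_ne_zero n hn
    let y : Y := (M.per (M.Li n 1))⁻¹ • l (M.Li n 1)
    let k : C →+ Y := AddMonoidHom.mk' (fun c => l c - M.per c • y) (fun c c' => by
      rw [map_add, map_add, add_smul]
      abel)
    refine ⟨y, k.toRatLinearMap, fun h' => absurd h (Nat.not_odd_iff_even.2 h'), fun c => ?_,
      fun _ => ?_⟩
    · change l c = (l c - M.per c • y) + _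
      abel
    · change l (M.Li n 1) - M.per (M.Li n 1) • y = 0
      rw [smul_smul, mul_inv_cancel₀ h2, one_smul, sub_self]

theorem repB (m : ℕ) : ∀ {Y : Type} [AddCommGroup Y] [Module ℚ Y] [Module ℝ Y]
    (l : C →ₗ[ℚ] Y), ∃ (p : UV ℚ → (UV ℚ →ₗ[ℤ] Y)) (f : ℕ → UV ℚ → Y),
      Hm (m + 1) p ∧ (∀ s, p s s = 0) ∧
      (∀ j, 2 * j + 1 ≤ m → Hm (m - (2 * j + 1)) (f j)) ∧
      ∀ x : ℚ, x ≠ 0 → l (M.Li (m + 2) x) = p (cl x) (cl (1 - x)) +
        ∑ j ∈ Finset.range ((m + 1) / 2), M.per (M.Li (2 * j + 3) x) • f j (cl x) := by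
  induction m with
  | zero =>
    intro Y _ _ _ l
    obtain ⟨θ, hθ⟩ := theta_of M 2 le_rfl l (fun h => by
      exact absurd h (Nat.not_odd_iff_even.2 even_two))
    let B : UV ℚ →ₗ[ℤ] (UV ℚ →ₗ[ℤ] Y) := mk2 (fun s v => - θ (ExteriorAlgebra.ι ℚ (gOf M.φ v) *
      ExteriorAlgebra.ι ℚ (gOf M.φ s)))
      (fun x y z => by
        simp only [map_add, mul_add]
        abel)
      (fun x y z => by
        simp only [map_add, add_mul]
        abel)
    refine ⟨fun s => B s, fun _ _ => 0, ?_, ?_, ?_, ?_⟩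
    · refine ⟨mkM (fun s => B (s 0)) ?_, fun s => rfl⟩
      intro s i x y
      obtain rfl : i = 0 := Subsingleton.elim (α := Fin 1) _ _
      simp only [Function.update_self, map_add]
    · intro s
      change - θ _ = 0
      rw [ExteriorAlgebra.ι_sq_zero, map_zero, neg_zero]
    · intro j hj
      omega
    · intro x hx
      rw [← hθ _ (M.Li_mem 2 x (by norm_num) hx), M.Li_succ 1 x le_rfl hx, M.Li_one x hx]
      simp only [zero_add, Nat.reduceDiv, Finset.range_zero, Finset.sum_empty, add_zero]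
      change _ = - θ _
      rw [g_cl, g_cl, map_neg, neg_mul, map_neg]
  | succ m ih =>
    intro Y _ _ _ l
    obtain ⟨y, l', hy, hl, hl'⟩ := exists_corr M (m + 3) (by omega) l
    obtain ⟨θ, hθ⟩ := theta_of M (m + 3) (by omega) l' hl'
    obtain ⟨p, f, hp, hp0, hf, hx⟩ := ih (Th M θ)
    obtain ⟨G, hG⟩ : ∃ G : ℕ → UV ℚ → Y, G = fun j => if j < (m + 1) / 2 then
      (fun s => f j s s) else fun _ => y := ⟨_, rfl⟩
    have G1 : ∀ j, j < (m + 1) / 2 → G j = fun s => f j s s := by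
      intro j h
      rw [hG]
      change (if j < (m + 1) / 2 then _ else _) = _
      rw [if_pos h]
    have G2 : ∀ j, ¬ j < (m + 1) / 2 → G j = fun _ => y := by
      intro j h
      rw [hG]
      change (if j < (m + 1) / 2 then _ else _) = _
      rw [if_neg h]
    refine ⟨fun s => (p s).flip s, G, hp.uncurry2, fun s => ?_, fun j hj => ?_, fun x hx0 => ?_⟩
    · change p s s s = 0
      rw [hp0]
      rfl
    · rcases Nat.lt_or_ge j ((m + 1) / 2) with h | h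
      · rw [G1 j h]
        have h1 := (hf j (by omega)).uncurry
        have h2 : m - (2 * j + 1) + 1 = m + 1 - (2 * j + 1) := by omega
        rwa [h2] at h1
      · rw [G2 j (by omega)]
        have h2 : m + 1 - (2 * j + 1) = 0 := by omega
        rw [h2]
        exact ⟨MultilinearMap.constOfIsEmpty ℤ _ y, fun s => rfl⟩
    · have e1 : l' (M.Li (m + 3) x) = p (cl x) (cl (1 - x)) (cl x) +
          ∑ j ∈ Finset.range ((m + 1) / 2), M.per (M.Li (2 * j + 3) x) • f j (cl x) (cl x) := by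
        rw [← hθ _ (M.Li_mem (m + 3) x (by omega) hx0), M.Li_succ (m + 2) x (by omega) hx0,
          ← g_cl, ← Th_apply, hx x hx0, LinearMap.add_apply, LinearMap.sum_apply]
        rfl
      have e2 : ∑ j ∈ Finset.range ((m + 1) / 2), M.per (M.Li (2 * j + 3) x) • G j (cl x) =
          ∑ j ∈ Finset.range ((m + 1) / 2), M.per (M.Li (2 * j + 3) x) • f j (cl x) (cl x) := by
        refine Finset.sum_congr rfl fun j hj => ?_
        rw [G1 j (Finset.mem_range.1 hj)]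
      change l (M.Li (m + 3) x) = p (cl x) (cl (1 - x)) (cl x) + _
      rw [hl, e1]
      rcases Nat.even_or_odd m with h | h
      · have e3 : (m + 1 + 1) / 2 = (m + 1) / 2 + 1 := by
          obtain ⟨k, rfl⟩ := h
          omega
        have e4 : 2 * ((m + 1) / 2) + 3 = m + 3 := by
          obtain ⟨k, rfl⟩ := h
          omega
        rw [e3, Finset.sum_range_succ, e2, G2 _ (lt_irrefl _), e4, add_assoc]
      · have e3 : (m + 1 + 1) / 2 = (m + 1) / 2 := by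
          obtain ⟨k, rfl⟩ := h
          omega
        rw [e3, e2, hy (by
          obtain ⟨k, rfl⟩ := h
          exact ⟨k + 2, by ring⟩), smul_zero, add_zero]

/-! ### the homotopy -/

theorem kill_TS (m : ℕ) (θ : ExteriorAlgebra ℚ C →ₗ[ℚ] ℝ)
    (hθ : ∀ x : ℚ, x ≠ 0 → θ (ExteriorAlgebra.ι ℚ (M.Li (m + 2) x) *
      ExteriorAlgebra.ι ℚ (M.φ (cls x))) = 0) :
    ∃ (p : UV ℚ → (UV ℚ →ₗ[ℤ] (UV ℚ →ₗ[ℤ] ℝ))) (f : ℕ → UV ℚ → (UV ℚ →ₗ[ℤ] ℝ)),
      Hm (m + 1) p ∧ (∀ s, p s s = 0) ∧ (∀ s v, p s v s = 0) ∧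
      (∀ j, 2 * j + 1 ≤ m → Hm (m - (2 * j + 1)) (f j)) ∧
      (∀ j, 2 * j + 1 ≤ m → ∀ s, f j s s = 0) ∧
      ∀ x : ℚ, x ≠ 0 → ∀ y : UV ℚ, θ (ExteriorAlgebra.ι ℚ (gOf M.φ y) *
          ExteriorAlgebra.ι ℚ (M.Li (m + 2) x)) = p (cl x) (cl (1 - x)) y +
        ∑ j ∈ Finset.range ((m + 1) / 2), M.per (M.Li (2 * j + 3) x) * f j (cl x) y := by
  obtain ⟨p, f, hp, hp0, hf, hx⟩ := repB M m (- Th M θ)
  have hx' : ∀ x : ℚ, x ≠ 0 → ∀ y : UV ℚ, θ (ExteriorAlgebra.ι ℚ (gOf M.φ y) *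
      ExteriorAlgebra.ι ℚ (M.Li (m + 2) x)) = p (cl x) (cl (1 - x)) y +
        ∑ j ∈ Finset.range ((m + 1) / 2), M.per (M.Li (2 * j + 3) x) * f j (cl x) y := by
    intro x hx0 y
    have h1 := congrArg (fun l => l y) (hx x hx0)
    change (- Th M θ) (M.Li (m + 2) x) y = (p (cl x) (cl (1 - x)) +
      ∑ j ∈ Finset.range ((m + 1) / 2), M.per (M.Li (2 * j + 3) x) • f j (cl x)) y at h1
    rw [LinearMap.add_apply, LinearMap.sum_apply] at h1
    rw [swap, map_neg, ← Th_apply]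
    exact h1
  -- the restriction to `y = x`
  have h0 : ∀ x : ℚ, x ≠ 0 → p (cl x) (cl (1 - x)) (cl x) +
      ∑ j ∈ Finset.range ((m + 1) / 2), M.per (M.Li (2 * j + 3) x) * f j (cl x) (cl x) = 0 := by
    intro x hx0
    rw [← hx' x hx0 (cl x), swap, map_neg, g_cl, hθ x hx0, neg_zero]
  obtain ⟨P, hP⟩ := hp.uncurry2
  have hψ : ∀ j : Fin ((m + 1) / 2), ∃ ψ : MultilinearMap ℤ
      (fun _ : Fin (m - (2 * (j : ℕ) + 1) + 1) => UV ℚ) ℝ, ∀ s, f j s s = ψ (fun _ => s) :=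
    fun j => (hf j (by have := j.2; omega)).uncurry
  choose ψ hψ using hψ
  have hT := TS (m + 1) ((m + 1) / 2) P (fun j => m - (2 * (j : ℕ) + 1) + 1) ψ (by
    intro x hx1 hx2
    have h1 := h0 x hx1.ne'
    rw [Finset.sum_range] at h1
    rw [← h1, ← hP]
    congr 1
    refine Finset.sum_congr rfl fun j _ => ?_
    rw [← hψ, M.per_Li (2 * (j : ℕ) + 3) x ⟨j + 1, by ring⟩ (by omega) hx1 hx2.le])
  refine ⟨p, f, hp, hp0, fun s v => ?_, hf, fun j hj s => ?_, hx'⟩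
  · have h1 := hT.1 s v
    rw [← hP] at h1
    exact h1
  · have h1 := hT.2 ⟨j, by omega⟩ s
    rw [← hψ] at h1
    exact h1

theorem homotopy_zero (θ : ExteriorAlgebra ℚ C →ₗ[ℚ] ℝ)
    (hθ : ∀ x : ℚ, x ≠ 0 → θ (ExteriorAlgebra.ι ℚ (M.Li 2 x) *
      ExteriorAlgebra.ι ℚ (M.φ (cls x))) = 0) :
    ∃ Θ : ExteriorAlgebra ℚ C →ₗ[ℚ] ℝ, ∀ x : ℚ, x ≠ 0 → ∀ y : UV ℚ,
      Θ (ExteriorAlgebra.ι ℚ (gOf M.φ y) * (ExteriorAlgebra.ι ℚ (M.Li 1 x) *
        ExteriorAlgebra.ι ℚ (M.φ (cls x)))) =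
      θ (ExteriorAlgebra.ι ℚ (gOf M.φ y) * ExteriorAlgebra.ι ℚ (M.Li 2 x)) := by
  obtain ⟨p, f, hp, hp0, hp1, -, -, hx⟩ := kill_TS M 0 θ hθ
  obtain ⟨Q, hQ⟩ := hp
  let t : UV ℚ →ₗ[ℤ] (UV ℚ →ₗ[ℤ] (UV ℚ →ₗ[ℤ] ℝ)) := (AddMonoidHom.mk' p
    (fun x y => by
      have h1 := Q.map_update_add (fun _ => 0) 0 x y
      have e : ∀ z : UV ℚ, Function.update (fun _ : Fin 1 => (0 : UV ℚ)) 0 z = fun _ => z := by
        intro z
        ext i
        fin_cases i
        rfl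
      rwa [e, e, e, ← hQ, ← hQ, ← hQ] at h1)).toIntLinearMap
  have ht : ∀ s v y, t s v y = p s v y := fun s v y => rfl
  have h12 : ∀ s v y, t s v y = - t v s y := by
    have h0 : ∀ s y, t s s y = 0 := by
      intro s y
      rw [ht, hp0]
      rfl
    intro s v y
    have h1 := h0 (s + v) y
    rw [map_add, map_add, LinearMap.add_apply, LinearMap.add_apply, LinearMap.add_apply,
      LinearMap.add_apply, LinearMap.add_apply, h0, h0] at h1
    linarith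
  have h13 : ∀ s v y, t s v y = - t y v s := by
    have h0 : ∀ s v, t s v s = 0 := by
      intro s v
      rw [ht, hp1]
    intro s v y
    have h1 := h0 (s + y) v
    simp only [map_add, LinearMap.add_apply, h0] at h1
    linarith
  have h23 : ∀ s v y, t s v y = - t s y v := by
    intro s v y
    rw [h13, h12, h13 v y s, neg_neg]
  obtain ⟨E, hE, -⟩ := exists_ext M ℝ
  obtain ⟨E', hE', -⟩ := exists_ext M (UV ℚ →ₗ[ℤ] ℝ)
  obtain ⟨E'', hE'', -⟩ := exists_ext M (UV ℚ →ₗ[ℤ] (UV ℚ →ₗ[ℤ] ℝ))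
  obtain ⟨Θ, hΘ⟩ := functional_three
    ((LinearMap.compRight ℚ ((LinearMap.compRight ℚ E) ∘ₗ E')) (E'' t))
  have hT : ∀ a b c : UV ℚ, (LinearMap.compRight ℚ ((LinearMap.compRight ℚ E) ∘ₗ E')) (E'' t)
      (gOf M.φ a) (gOf M.φ b) (gOf M.φ c) = t a b c := by
    intro a b c
    change E (E' (E'' t (gOf M.φ a)) (gOf M.φ b)) (gOf M.φ c) = t a b c
    rw [hE, hE', hE'']
  refine ⟨(1 / 6 : ℚ) • Θ, fun x hx0 y => ?_⟩
  have h1 := hx x hx0 y
  simp only [zero_add, Nat.reduceDiv, Finset.range_zero, Finset.sum_empty, add_zero] at h1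
  rw [← ht] at h1
  rw [LinearMap.smul_apply, h1, M.Li_one x hx0, ← g_cl, ← g_cl, map_neg, neg_mul, mul_neg,
    map_neg, hΘ, hT, hT, hT, hT, hT, hT, Rat.smul_def]
  have e1 := h23 y (cl (1 - x)) (cl x)
  have e2 := h12 y (cl (1 - x)) (cl x)
  have e3 := h23 (cl (1 - x)) (cl x) y
  have e4 := h13 y (cl (1 - x)) (cl x)
  have e5 := h23 (cl x) y (cl (1 - x))
  push_cast
  linarith

theorem homotopy_succ (m : ℕ) (θ : ExteriorAlgebra ℚ C →ₗ[ℚ] ℝ)
    (hθ : ∀ x : ℚ, x ≠ 0 → θ (ExteriorAlgebra.ι ℚ (M.Li (m + 3) x) *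
      ExteriorAlgebra.ι ℚ (M.φ (cls x))) = 0) :
    ∃ Θ : ExteriorAlgebra ℚ C →ₗ[ℚ] ℝ, ∀ x : ℚ, x ≠ 0 → ∀ y : UV ℚ,
      Θ (ExteriorAlgebra.ι ℚ (gOf M.φ y) * (ExteriorAlgebra.ι ℚ (M.Li (m + 2) x) *
        ExteriorAlgebra.ι ℚ (M.φ (cls x)))) =
      θ (ExteriorAlgebra.ι ℚ (gOf M.φ y) * ExteriorAlgebra.ι ℚ (M.Li (m + 3) x)) := by
  obtain ⟨p, f, hp, hp0, hp1, hf, hf0, hx⟩ := kill_TS M (m + 1) θ hθ
  obtain ⟨Q, hQ⟩ := hp
  obtain ⟨Q', q1, q2, q3⟩ := K1' m Q (fun s => by rw [← hQ, hp0]) (fun s v => by rw [← hQ, hp1])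
  obtain ⟨l0, hl0⟩ := repP M m (Y := UV ℚ →ₗ[ℤ] (UV ℚ →ₗ[ℤ] ℝ)) (fun s => Q' (fun _ => s))
    ⟨Q', fun s => rfl⟩ q1
  -- the terms with the periods
  have hF : ∀ j : ℕ, ∃ l : C →ₗ[ℚ] (UV ℚ →ₗ[ℤ] (UV ℚ →ₗ[ℤ] ℝ)), j < (m + 1) / 2 →
      ∀ x : ℚ, x ≠ 0 → (∀ y y', l (M.Li (m + 2) x) y y' = - l (M.Li (m + 2) x) y' y) ∧
        ∀ y, l (M.Li (m + 2) x) (cl x) y = M.per (M.Li (2 * j + 3) x) * f j (cl x) y := by
    intro j
    rcases Nat.lt_or_ge j ((m + 1) / 2) with h | h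
    · obtain ⟨k, hk⟩ : ∃ k, m + 1 - (2 * j + 1) = k + 1 := ⟨m - (2 * j + 1), by omega⟩
      have h1 := hf j (by omega)
      rw [hk] at h1
      obtain ⟨F, hF⟩ := h1
      obtain ⟨F', f1, f2⟩ := K2' k F (fun s => by rw [← hF]; exact hf0 j (by omega) s)
      obtain ⟨l, hl⟩ := repR M (2 * j + 3) ⟨j + 1, by ring⟩ (by omega) k
        (Y := UV ℚ →ₗ[ℤ] (UV ℚ →ₗ[ℤ] ℝ)) (fun s => F' (fun _ => s)) ⟨F', fun s => rfl⟩
      have h2 : 2 * j + 3 + k = m + 2 := by omega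
      rw [h2] at hl
      refine ⟨l, fun _ x hx0 => ⟨fun y y' => ?_, fun y => ?_⟩⟩
      · rw [hl x hx0]
        change M.per (M.Li (2 * j + 3) x) * F' (fun _ => cl x) y y' =
          - (M.per (M.Li (2 * j + 3) x) * F' (fun _ => cl x) y' y)
        rw [f1]
        ring
      · rw [hl x hx0]
        change M.per (M.Li (2 * j + 3) x) * F' (fun _ => cl x) (cl x) y = _
        rw [f2, hF]
    · exact ⟨0, fun h' => by omega⟩
  choose lF hlF using hF
  let l : C →ₗ[ℚ] (UV ℚ →ₗ[ℤ] (UV ℚ →ₗ[ℤ] ℝ)) := l0 + ∑ j ∈ Finset.range ((m + 1) / 2), lF j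
  have hl : ∀ c y y', l c y y' = l0 c y y' + ∑ j ∈ Finset.range ((m + 1) / 2), lF j c y y' := by
    intro c y y'
    change (l0 + ∑ j ∈ Finset.range ((m + 1) / 2), lF j) c y y' = _
    rw [LinearMap.add_apply, LinearMap.add_apply, LinearMap.add_apply, LinearMap.sum_apply,
      LinearMap.sum_apply, LinearMap.sum_apply]
  -- antisymmetry
  have hanti : ∀ x : ℚ, x ≠ 0 → ∀ y y', l (M.Li (m + 2) x) y y' =
      - l (M.Li (m + 2) x) y' y := by
    intro x hx0 y y'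
    rw [hl, hl, hl0 x hx0, q2, neg_add, ← Finset.sum_neg_distrib]
    congr 1
    exact Finset.sum_congr rfl fun j hj => (hlF j (Finset.mem_range.1 hj) x hx0).1 y y'
  -- the values
  have hval : ∀ x : ℚ, x ≠ 0 → ∀ y, l (M.Li (m + 2) x) (cl x) y =
      θ (ExteriorAlgebra.ι ℚ (gOf M.φ y) * ExteriorAlgebra.ι ℚ (M.Li (m + 3) x)) := by
    intro x hx0 y
    rw [hx x hx0 y, hl, hl0 x hx0, q3, hQ]
    congr 1
    have e1 : ∑ j ∈ Finset.range ((m + 1) / 2), lF j (M.Li (m + 2) x) (cl x) y =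
        ∑ j ∈ Finset.range ((m + 1) / 2), M.per (M.Li (2 * j + 3) x) * f j (cl x) y :=
      Finset.sum_congr rfl fun j hj => (hlF j (Finset.mem_range.1 hj) x hx0).2 y
    rw [e1]
    rcases Nat.even_or_odd m with h | h
    · have e3 : (m + 1 + 1) / 2 = (m + 1) / 2 + 1 := by
        obtain ⟨k, rfl⟩ := h
        omega
      rw [e3, Finset.sum_range_succ]
      have e4 : f ((m + 1) / 2) (cl x) y = 0 := by
        have h5 := hf ((m + 1) / 2) (by obtain ⟨k, rfl⟩ := h; omega)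
        have h6 : m + 1 - (2 * ((m + 1) / 2) + 1) = 0 := by obtain ⟨k, rfl⟩ := h; omega
        rw [h6] at h5
        rw [h5.zero_const (cl x) y]
        exact hf0 _ (by obtain ⟨k, rfl⟩ := h; omega) y
      rw [e4, mul_zero, add_zero]
    · have e3 : (m + 1 + 1) / 2 = (m + 1) / 2 := by
        obtain ⟨k, rfl⟩ := h
        omega
      rw [e3]
  obtain ⟨E, hE, hE0⟩ := exists_ext M ℝ
  obtain ⟨E', hE', hE0'⟩ := exists_ext M (UV ℚ →ₗ[ℤ] ℝ)
  obtain ⟨π, hπ, hπ'⟩ := exists_proj M.toLieCoalg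
  obtain ⟨Θ, hΘ⟩ := functional_three
    ((LinearMap.compRight ℚ E) ∘ₗ E' ∘ₗ l ∘ₗ π)
  have hT : ∀ a b c : C, ((LinearMap.compRight ℚ E) ∘ₗ E' ∘ₗ l ∘ₗ π) a b c =
      E (E' (l (π a)) b) c := fun a b c => rfl
  refine ⟨(1 / 2 : ℚ) • Θ, fun x hx0 y => ?_⟩
  rw [LinearMap.smul_apply, ← hval x hx0 y, ← g_cl, hΘ, hT, hT, hT, hT, hT, hT,
    hπ _ (g_mem M y), hπ _ (g_mem M (cl x)),
    hπ' (m + 2) (by omega) _ (M.Li_mem (m + 2) x (by omega) hx0)]
  simp only [hE', hE, map_zero, LinearMap.zero_apply, Rat.smul_def]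
  rw [hanti x hx0 y (cl x)]
  push_cast
  ring

theorem homotopy (m : ℕ) (θ : ExteriorAlgebra ℚ C →ₗ[ℚ] ℝ)
    (hθ : ∀ x : ℚ, x ≠ 0 → θ (ExteriorAlgebra.ι ℚ (M.Li (m + 2) x) *
      ExteriorAlgebra.ι ℚ (M.φ (cls x))) = 0) :
    ∃ Θ : ExteriorAlgebra ℚ C →ₗ[ℚ] ℝ, ∀ x : ℚ, x ≠ 0 → ∀ y : UV ℚ,
      Θ (ExteriorAlgebra.ι ℚ (gOf M.φ y) * (ExteriorAlgebra.ι ℚ (M.Li (m + 1) x) *
        ExteriorAlgebra.ι ℚ (M.φ (cls x)))) =
      θ (ExteriorAlgebra.ι ℚ (gOf M.φ y) * ExteriorAlgebra.ι ℚ (M.Li (m + 2) x)) := by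
  cases m with
  | zero => exact homotopy_zero M θ hθ
  | succ m => exact homotopy_succ M m θ hθ

/-! ### the depth one part -/

/-- the space spanned by the `Li_n(x)` -/
def US (n : ℕ) : Submodule ℚ C := Submodule.span ℚ {a | ∃ x : ℚ, x ≠ 0 ∧ a = M.Li n x}

theorem US_le (n : ℕ) (hn : 1 ≤ n) : US M n ≤ M.W n := by
  rw [US, Submodule.span_le]
  rintro _ ⟨x, hx, rfl⟩
  exact M.Li_mem n x hn hx

/-- an element with the cobracket of an element of `US` is in `US` -/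
theorem mem_US (m : ℕ) (α : C) (hα : α ∈ M.W (m + 2))
    (h : M.d (ExteriorAlgebra.ι ℚ α) ∈ (US M (m + 2)).map (M.d ∘ₗ ExteriorAlgebra.ι ℚ)) :
    α ∈ US M (m + 2) := by
  obtain ⟨a, ha, h1⟩ := h
  have h2 : M.d (ExteriorAlgebra.ι ℚ (α - a)) = 0 := by
    rw [map_sub, map_sub, ← h1]
    exact sub_self _
  have h3 : α - a ∈ M.W (m + 2) := Submodule.sub_mem _ hα (US_le M (m + 2) (by omega) ha)
  have h4 : α - a ∈ US M (m + 2) := by
    rcases Nat.even_or_odd (m + 2) with h | h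
    · rw [M.ext_even (m + 2) (α - a) (by omega) h h3 h2]
      exact Submodule.zero_mem _
    · obtain ⟨q, hq⟩ := M.ext_odd (m + 2) (α - a) (by omega) h h3 h2
      rw [hq]
      exact Submodule.smul_mem _ _ (Submodule.subset_span ⟨1, one_ne_zero, rfl⟩)
  have h5 := Submodule.add_mem _ h4 ha
  rwa [sub_add_cancel] at h5

theorem kills (m : ℕ) (θ : ExteriorAlgebra ℚ C →ₗ[ℚ] ℚ)
    (hθ : ∀ w ∈ (US M (m + 2)).map (M.d ∘ₗ ExteriorAlgebra.ι ℚ), θ w = 0) (x : ℚ) (hx : x ≠ 0) :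
    θ (ExteriorAlgebra.ι ℚ (M.Li (m + 1) x) * ExteriorAlgebra.ι ℚ (M.φ (cls x))) = 0 := by
  have h1 := hθ _ ⟨M.Li (m + 1 + 1) x, Submodule.subset_span ⟨x, hx, rfl⟩, rfl⟩
  change θ (M.d (ExteriorAlgebra.ι ℚ (M.Li (m + 1 + 1) x))) = 0 at h1
  rwa [M.Li_succ (m + 1) x (by omega) hx] at h1

theorem WW_two : WW M.toLieCoalg 2 ≤ wedge (M.W 1) (M.W 1) := by
  apply WW_le
  intro i j hij a ha b hb
  rcases Nat.lt_or_ge i 1 with hi | hi
  · have h0 : i = 0 := by omega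
    rw [h0, M.W_zero, Submodule.mem_bot] at ha
    rw [ha, map_zero, zero_mul]
    exact Submodule.zero_mem _
  · rcases Nat.lt_or_ge j 1 with hj | hj
    · have h0 : j = 0 := by omega
      rw [h0, M.W_zero, Submodule.mem_bot] at hb
      rw [hb, map_zero, mul_zero]
      exact Submodule.zero_mem _
    · have h1 : i = 1 := by omega
      have h2 : j = 1 := by omega
      subst h1
      subst h2
      exact mem_wedge ha hb

theorem step_zero (α : C) (hα : α ∈ M.W 2) : α ∈ US M 2 := by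
  refine mem_US M 0 α hα (sep _ _ fun θ hθ => ?_)
  have hk := kills M 0 θ hθ
  let T : MultilinearMap ℤ (fun _ : Fin 1 => UV ℚ) (UV ℚ →ₗ[ℤ] ℚ) :=
    mk (fun s v => θ (ExteriorAlgebra.ι ℚ (gOf M.φ (s 0)) * ExteriorAlgebra.ι ℚ (gOf M.φ v)))
      (fun s i x y v => by
        obtain rfl : i = 0 := Subsingleton.elim _ _
        simp only [Function.update_self, map_add, add_mul])
      (fun s v w => by simp only [map_add, mul_add])
  have hT : ∀ s v, θ (ExteriorAlgebra.ι ℚ (gOf M.φ s) * ExteriorAlgebra.ι ℚ (gOf M.φ v)) = 0 := by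
    intro s v
    refine spanDual_rat 0 T (fun x hx _ => ?_) s v
    change θ (ExteriorAlgebra.ι ℚ (gOf M.φ (cl x)) *
      ExteriorAlgebra.ι ℚ (gOf M.φ (cl (1 - x)))) = 0
    have h1 := hk x hx
    rw [M.Li_one x hx, map_neg, neg_mul, map_neg, neg_eq_zero] at h1
    rw [swap, map_neg, g_cl, g_cl, h1, neg_zero]
  have h1 : wedge (M.W 1) (M.W 1) ≤ LinearMap.ker θ := by
    rw [wedge, Submodule.span_le]
    rintro w ⟨a, ha, b, hb, rfl⟩
    rw [← M.φ_range] at ha hb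
    obtain ⟨v, rfl⟩ := ha
    obtain ⟨v', rfl⟩ := hb
    obtain ⟨q, x, rfl⟩ := pure v
    obtain ⟨r, y, rfl⟩ := pure v'
    change θ _ = 0
    rw [phi_pure, phi_pure, map_smul, map_smul, smul_mul_assoc, mul_smul_comm, map_smul, map_smul,
      hT, smul_zero, smul_zero]
  exact h1 (WW_two M (M.d_W 2 α hα))

theorem step_all (m : ℕ) : ∀ α ∈ M.W (m + 2),
    M.d (ExteriorAlgebra.ι ℚ α) ∈ wedge (M.W 1) ⊤ → α ∈ US M (m + 2) := by
  induction m with
  | zero => exact fun α hα _ => step_zero M α hα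
  | succ m ih =>
    intro α hα hw
    have h1 : M.d (ExteriorAlgebra.ι ℚ α) ∈ WW M.toLieCoalg (m + 2 + 1) := M.d_W (m + 3) α hα
    have h2 := mem_n1 M.toLieCoalg (m + 2) _ h1 hw
    let b := Module.Basis.ofVectorSpace ℚ (M.W 1)
    obtain ⟨β, hβ, hsum⟩ := expand M.toLieCoalg b (M.W (m + 2)) _ h2
    have h3 : ∀ j, β j ∈ US M (m + 2) := fun j => ih (β j) (hβ j)
      (comp_mem M.toLieCoalg b (m + 2) β hβ (by rw [← hsum, M.d_d]) j)
    refine mem_US M (m + 1) α hα (sep _ _ fun θ hθ => ?_)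
    let θr : ExteriorAlgebra ℚ C →ₗ[ℚ] ℝ := (Algebra.linearMap ℚ ℝ) ∘ₗ θ
    have hθr : ∀ w, θr w = ((θ w : ℚ) : ℝ) := fun w => rfl
    obtain ⟨Θ, hΘ⟩ := homotopy M m θr (fun x hx => by
      rw [hθr, kills M (m + 1) θ hθ x hx]
      norm_num)
    -- the formula for all elements
    have h4 : ∀ y ∈ M.W 1, ∀ u ∈ US M (m + 2), Θ (ExteriorAlgebra.ι ℚ y *
        M.d (ExteriorAlgebra.ι ℚ u)) =
        θr (ExteriorAlgebra.ι ℚ y * ExteriorAlgebra.ι ℚ u) := by
      intro y hy u hu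
      rw [← M.φ_range] at hy
      obtain ⟨v, rfl⟩ := hy
      obtain ⟨q, s, rfl⟩ := pure v
      rw [phi_pure, map_smul, smul_mul_assoc, smul_mul_assoc, map_smul, map_smul]
      congr 1
      rw [US] at hu
      induction hu using Submodule.span_induction with
      | mem u hu =>
        obtain ⟨x, hx, rfl⟩ := hu
        have h5 := hΘ x hx s
        rw [← M.Li_succ (m + 1) x (by omega) hx] at h5
        exact h5
      | zero => simp only [map_zero, mul_zero]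
      | add u u' _ _ hu hu' => simp only [map_add, mul_add, hu, hu']
      | smul r u _ hu => simp only [map_smul, mul_smul_comm, hu]
    have h5 : M.d (M.d (ExteriorAlgebra.ι ℚ α)) = 0 := M.d_d _
    have h7 : θr (M.d (ExteriorAlgebra.ι ℚ α)) = 0 := by
      rw [hsum, Finsupp.sum, map_sum] at h5
      rw [hsum, Finsupp.sum, map_sum]
      have h6 := congrArg Θ h5
      rw [map_sum, map_zero] at h6
      rw [← neg_eq_zero, ← Finset.sum_neg_distrib, ← h6]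
      refine Finset.sum_congr rfl fun i _ => ?_
      rw [M.d_mul, d_W_one M.toLieCoalg _ (b i).2, zero_mul, zero_sub, map_neg,
        h4 _ (b i).2 _ (h3 i)]
    rw [hθr] at h7
    exact_mod_cast h7

theorem mem_D_one (α : C) : α ∈ M.toLieCoalg.D 1 ↔
    M.d (ExteriorAlgebra.ι ℚ α) ∈ wedge (M.W 1) ⊤ := by
  have h : M.toLieCoalg.D 1 = (wedge (M.W 1) ⊤ ⊔ wedge (M.W 1) (M.W 1)).comap
      (M.d ∘ₗ ExteriorAlgebra.ι ℚ) := rfl
  rw [h, sup_eq_left.2 (wedge_mono le_rfl le_top)]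
  rfl

theorem Li_mem_D (n : ℕ) (hn : 2 ≤ n) (x : ℚ) (hx : x ≠ 0) : M.Li n x ∈ M.toLieCoalg.D 1 := by
  rw [mem_D_one]
  obtain ⟨n, rfl⟩ : ∃ m, n = m + 1 := ⟨n - 1, by omega⟩
  rw [M.Li_succ n x (by omega) hx]
  exact mem_wedge' (phi_mem M _) Submodule.mem_top

end ext

end MotN

/-- [MOT1] -/
theorem depth_one_rat (C : Type) [AddCommGroup C] [Module ℚ C] (M : MotivicRatPer C) (n : ℕ)
    (hn : 2 ≤ n) : M.toLieCoalg.D 1 ⊓ M.W n =
      Submodule.span ℚ {a | ∃ x : ℚ, x ≠ 0 ∧ a = M.Li n x} := by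
  apply le_antisymm
  · rintro α ⟨h1, h2⟩
    obtain ⟨m, rfl⟩ : ∃ m, n = m + 2 := ⟨n - 2, by omega⟩
    exact MotN.step_all M m α h2 ((MotN.mem_D_one M α).1 h1)
  · rw [Submodule.span_le]
    rintro _ ⟨x, hx, rfl⟩
    exact ⟨MotN.Li_mem_D M n hn x hx, M.Li_mem n x (by omega) hx⟩

end Pool.Agent.H366.ZC
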