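import Mathlib

/-! # The single-valued polylogarithms of Zagier: definition -/

set_option autoImplicit false

namespace Pool.Agent.H366.ZC

/-- the polylogarithm `Li_k(x) = ∑_{m ≥ 1} x^m / m^k` -/
noncomputable def PL (k : ℕ) (x : ℝ) : ℝ := ∑' m : ℕ, x ^ (m + 1) / ((m : ℝ) + 1) ^ k

/-- Zagier's single-valued polylogarithm `𝓛_n(x)`, `n` odd, `0 < x ≤ 1`:
`∑_{k < n} (2^k B_k / k!) log(x)^k Li_{n-k}(x)`, `B_k` the Bernoulli numbers (`B_1 = -1/2`) -/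
noncomputable def SV (n : ℕ) (x : ℝ) : ℝ :=
  ∑ k ∈ Finset.range n, ((2 : ℝ) ^ k * ((bernoulli k : ℚ) : ℝ) / (k.factorial : ℝ)) *
    Real.log x ^ k * PL (n - k) x

/-- `1, 𝓛_3, 𝓛_5, ...` -/
noncomputable def phi (j : ℕ) (x : ℝ) : ℝ := if j = 0 then 1 else SV (2 * j + 1) x

end Pool.Agent.H366.ZC
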