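import Pool.Agent.H366.ZC.KeyZ
import Pool.Agent.H366.ZC.FinZ
import Pool.Agent.H366.ZC.Poly

/-! # [TS] identities with real coefficients between rational numbers -/

set_option autoImplicit false

namespace Pool.Agent.H366.ZC

open H39Gon

namespace TSN

/-- the degrees -/
def dg {N : ℕ} (m : ℕ) (δ : Fin N → ℕ) (i : Fin (N + 1)) : ℕ := Fin.cases (m + 2) δ i

/-- the form of degree `m + 2` -/
noncomputable def Q0 {m : ℕ} (P : MultilinearMap ℤ (fun _ : Fin (m + 1) => UV ℚ) (UV ℚ →ₗ[ℤ] ℝ)) :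
    MultilinearMap ℤ (fun _ : Fin (m + 2) => UV ℚ × UV ℚ) ℝ :=
  MultilinearMap.uncurryRight (M := fun _ : Fin (m + 1).succ => UV ℚ × UV ℚ)
    ((LinearMap.lcomp ℤ ℝ (LinearMap.snd ℤ (UV ℚ) (UV ℚ))).compMultilinearMap
      (P.compLinearMap (fun _ => LinearMap.fst ℤ (UV ℚ) (UV ℚ))))

theorem Q0_diag {m : ℕ} (P : MultilinearMap ℤ (fun _ : Fin (m + 1) => UV ℚ) (UV ℚ →ₗ[ℤ] ℝ))
    (f g : UV ℚ) : Q0 P (fun _ => (f, g)) = P (fun _ => f) g := by
  unfold Q0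
  rw [MultilinearMap.uncurryRight_apply]
  rfl

/-- all forms -/
noncomputable def QQ {m N : ℕ} (P : MultilinearMap ℤ (fun _ : Fin (m + 1) => UV ℚ) (UV ℚ →ₗ[ℤ] ℝ))
    (δ : Fin N → ℕ) (ψ : ∀ j, MultilinearMap ℤ (fun _ : Fin (δ j) => UV ℚ) ℝ) (i : Fin (N + 1)) :
    MultilinearMap ℤ (fun _ : Fin (dg m δ i) => UV ℚ × UV ℚ) ℝ :=
  Fin.cases (motive := fun i => MultilinearMap ℤ (fun _ : Fin (dg m δ i) => UV ℚ × UV ℚ) ℝ)
    (Q0 P) (fun j => (ψ j).compLinearMap (fun _ => LinearMap.fst ℤ (UV ℚ) (UV ℚ))) i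

end TSN

open TSN in
/-- [TS1] -/
theorem TS (m N : ℕ) (P : MultilinearMap ℤ (fun _ : Fin (m + 1) => UV ℚ) (UV ℚ →ₗ[ℤ] ℝ))
    (δ : Fin N → ℕ) (ψ : ∀ j, MultilinearMap ℤ (fun _ : Fin (δ j) => UV ℚ) ℝ)
    (h : ∀ x : ℚ, 0 < x → x < 1 → P (fun _ => cl x) (cl (1 - x)) +
      ∑ j : Fin N, SV (2 * (j : ℕ) + 3) (x : ℝ) * ψ j (fun _ => cl x) = 0) :
    (∀ f g : UV ℚ, P (fun _ => f) g = 0) ∧ ∀ (j : Fin N) (f : UV ℚ), ψ j (fun _ => f) = 0 := by
  obtain ⟨κ₁, hκ⟩ := KEYZ (Fin (N + 1)) (m + 2 + ∑ j, δ j) (dg m δ)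
    (by
      intro i
      refine Fin.cases ?_ (fun j => ?_) i
      · show m + 2 ≤ _
        omega
      · show δ j ≤ _
        have := Finset.single_le_sum (f := δ) (fun _ _ => Nat.zero_le _) (Finset.mem_univ j)
        omega)
    (fun i => phi (i : ℕ)) (fun i => phi_continuousOn _)
    (fun h hh => phi_indep N _ h hh) (QQ P δ ψ)
    (by
      intro x hx0 hx1
      rw [Fin.sum_univ_succ]
      have e0 : phi ((0 : Fin (N + 1)) : ℕ) (x : ℝ) = 1 := by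
        unfold phi
        rw [if_pos (by simp)]
      have e1 : ∀ j : Fin N, phi ((Fin.succ j : Fin (N + 1)) : ℕ) (x : ℝ) = SV (2 * (j : ℕ) + 3) (x : ℝ) := by
        intro j
        unfold phi
        rw [if_neg (by simp)]
        have : 2 * ((Fin.succ j : Fin (N + 1)) : ℕ) + 1 = 2 * (j : ℕ) + 3 := by
          rw [Fin.val_succ]; ring
        rw [this]
      have e2 : QQ P δ ψ 0 (fun _ => (cl x, cl (1 - x))) = P (fun _ => cl x) (cl (1 - x)) :=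
        Q0_diag P _ _
      rw [e0, one_mul, e2]
      refine Eq.trans ?_ (h x hx0 hx1)
      refine congrArg (fun y => P (fun _ => cl x) (cl (1 - x)) + y) ?_
      refine Finset.sum_congr rfl (fun j _ => ?_)
      rw [e1 j]
      rfl)
  constructor
  · refine finZ1 P κ₁ (fun κ hk A B C ht => ?_)
    have := hκ κ hk A B C ht.hA ht.hB ht.hC ht.hAB ht.hAC ht.hBC ht.small ht.two ht.B1 ht.C1 0
    rw [← Q0_diag]
    exact this
  · intro j
    refine finZ2 (ψ j) κ₁ (fun κ hk A B C ht => ?_)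
    exact hκ κ hk A B C ht.hA ht.hB ht.hC ht.hAB ht.hAC ht.hBC ht.small ht.two ht.B1 ht.C1 j.succ

/-- [TS2] -/
theorem spanDual_rat (m : ℕ) : SpanDual ℚ m := by
  intro Q hQ s v
  have h := (TS m 0 ((LinearMap.compRight ℤ (Rat.castHom ℝ).toAddMonoidHom.toIntLinearMap).compMultilinearMap Q)
    (fun _ => 0) (fun j => j.elim0)
    (by
      intro x hx0 hx1
      have h1 := hQ x (ne_of_gt hx0) (ne_of_lt hx1)
      rw [Finset.univ_eq_empty, Finset.sum_empty, add_zero]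
      show (Rat.castHom ℝ) (Q (fun _ => cl x) (cl (1 - x))) = 0
      rw [h1, map_zero])).1 s v
  have h2 : (Rat.castHom ℝ) (Q (fun _ => s) v) = 0 := h
  exact (map_eq_zero _).1 h2

end Pool.Agent.H366.ZC
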