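import Mathlib

/-! # [UNI] unisolvent points -/

set_option autoImplicit false

namespace Pool.Agent.H366.ZC

/-- `1` or a coordinate -/
def vo (v : Fin 4 → ℝ) : Option (Fin 4) → ℝ
  | none => 1
  | some j => v j

/-- the basis functions `φ_i(t) v_{g(1)} ⋯ v_{g(deg i)}` -/
noncomputable def Psi {I : Type} (deg : I → ℕ) (φ : I → ℝ → ℝ) (v : Fin 4 → ℝ) (t : ℝ)
    (ig : Σ i : I, (Fin (deg i) → Option (Fin 4))) : ℝ :=
  φ ig.1 t * ∏ k, vo v (ig.2 k)

namespace UniN

open Finset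

/-- the polynomial function -/
noncomputable def HH {n : ℕ} (y : (Fin n → Option (Fin 4)) → ℝ) (v : Fin 4 → ℝ) : ℝ :=
  ∑ g : Fin n → Option (Fin 4), (∏ k, vo v (g k)) * y g

lemma HH_ext {n : ℕ} (y : (Fin n → Option (Fin 4)) → ℝ) (j : Fin 4) (v : Fin 4 → ℝ)
    (h : ∀ x : ℝ, 0 < x → HH y (Function.update v j x) = 0) (x : ℝ) :
    HH y (Function.update v j x) = 0 := by
  classical
  let P : Polynomial ℝ := ∑ g : Fin n → Option (Fin 4),
    (∏ k, (if g k = some j then Polynomial.X else Polynomial.C (vo v (g k)))) * Polynomial.C (y g)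
  have hP : ∀ x, P.eval x = HH y (Function.update v j x) := by
    intro x
    simp only [P, HH, Polynomial.eval_finset_sum, Polynomial.eval_mul, Polynomial.eval_prod,
      Polynomial.eval_C]
    refine sum_congr rfl fun g _ => ?_
    congr 1
    refine prod_congr rfl fun k _ => ?_
    by_cases hk : g k = some j
    · rw [if_pos hk, hk]; simp [vo]
    · rw [if_neg hk, Polynomial.eval_C]
      cases hg : g k with
      | none => rfl
      | some i =>
        have hij : i ≠ j := fun h => hk (by rw [hg, h])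
        simp [vo, Function.update_of_ne hij]
  have h0 : P = 0 := Polynomial.eq_zero_of_infinite_isRoot P
    ((Set.Ioi_infinite (0 : ℝ)).mono fun x hx => by
      show P.eval x = 0
      rw [hP]
      exact h x hx)
  rw [← hP, h0, Polynomial.eval_zero]

lemma HH_all {n : ℕ} (y : (Fin n → Option (Fin 4)) → ℝ)
    (h : ∀ v : Fin 4 → ℝ, 0 < v 0 → 0 < v 1 → HH y v = 0) (v : Fin 4 → ℝ) : HH y v = 0 := by
  have h1 : ∀ v : Fin 4 → ℝ, 0 < v 1 → HH y v = 0 := by
    intro v hv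
    have := HH_ext y 0 v (fun x hx => h _ (by simpa using hx) (by simpa using hv)) (v 0)
    rwa [Function.update_eq_self] at this
  have := HH_ext y 1 v (fun x hx => h1 _ (by simpa using hx)) (v 1)
  rwa [Function.update_eq_self] at this

/-- `1`, `v 0` or `v 1` -/
def wo (v : Fin 4 → ℝ) : Option (Fin 4) → ℝ
  | none => 1
  | some j => if j = 2 ∨ j = 3 then 1 else v j

lemma vo_eq (v : Fin 4 → ℝ) (o : Option (Fin 4)) :
    vo v o = wo v o * (if o = some 2 then v 2 else 1) * (if o = some 3 then v 3 else 1) := by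
  cases o with
  | none => simp [vo, wo]
  | some j =>
    fin_cases j <;> simp [vo, wo]

lemma prod_vo {n : ℕ} (v : Fin 4 → ℝ) (g : Fin n → Option (Fin 4)) :
    ∏ k, vo v (g k) = (∏ k, wo v (g k)) * v 2 ^ (univ.filter fun k => g k = some 2).card *
      v 3 ^ (univ.filter fun k => g k = some 3).card := by
  rw [prod_congr rfl fun k _ => vo_eq v (g k), prod_mul_distrib, prod_mul_distrib]
  congr 1
  · congr 1
    rw [prod_ite, prod_const, prod_const_one, mul_one]
  · rw [prod_ite, prod_const, prod_const_one, mul_one]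

lemma collapse {G : Type} [Fintype G] {n : ℕ} (A B : G → Fin (n + 1)) (W : G → ℝ) (X Y : ℝ) :
    ∑ a : Fin (n + 1), ∑ b : Fin (n + 1), (∑ g, if A g = a ∧ B g = b then W g else 0) *
      X ^ (a : ℕ) * Y ^ (b : ℕ) = ∑ g, W g * X ^ (A g : ℕ) * Y ^ (B g : ℕ) := by
  have h1 : ∀ a b : Fin (n + 1), (∑ g, if A g = a ∧ B g = b then W g else 0) *
      X ^ (a : ℕ) * Y ^ (b : ℕ) =
      ∑ g, if A g = a then (if B g = b then W g * X ^ (a : ℕ) * Y ^ (b : ℕ) else 0) else 0 := by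
    intro a b
    rw [sum_mul, sum_mul]
    refine sum_congr rfl fun g _ => ?_
    by_cases h1 : A g = a <;> by_cases h2 : B g = b <;> simp [h1, h2]
  simp_rw [h1]
  rw [sum_congr rfl fun a _ => sum_comm, sum_comm]
  refine sum_congr rfl fun g _ => ?_
  rw [sum_eq_single (A g)]
  · rw [sum_eq_single (B g)]
    · simp
    · intro b _ hb
      simp [Ne.symm hb]
    · simp
  · intro a _ ha
    simp [Ne.symm ha]
  · simp

/-- number of `k` with `g k = some j`, as an element of `Fin (n + 1)` -/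
def cnt {m n : ℕ} (h : m ≤ n) (j : Fin 4) (g : Fin m → Option (Fin 4)) : Fin (n + 1) :=
  ⟨(univ.filter fun k => g k = some j).card, by
    have := card_le_univ (univ.filter fun k : Fin m => g k = some j)
    rw [Fintype.card_fin] at this
    omega⟩

variable {I : Type} [Fintype I]

lemma key (n : ℕ) (deg : I → ℕ) (hdeg : ∀ i, deg i ≤ n) (φ : I → ℝ → ℝ)
    (hind : ∀ h : I → Fin (n + 1) → Fin (n + 1) → ℝ,
      (∀ t ∈ Set.Ioo (0 : ℝ) 1, ∑ i, ∑ a : Fin (n + 1), ∑ b : Fin (n + 1),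
        h i a b * φ i t * Real.log t ^ (a : ℕ) * Real.log (1 - t) ^ (b : ℕ) = 0) → h = 0)
    (y : (Σ i : I, (Fin (deg i) → Option (Fin 4))) → ℝ)
    (hy : ∀ (v : Fin 4 → ℝ) (t : ℝ), 0 < t → t < 1 → 0 < v 0 → 0 < v 1 → v 2 = Real.log t →
      v 3 = Real.log (1 - t) → ∑ ig, Psi deg φ v t ig * y ig = 0)
    (i : I) (v : Fin 4 → ℝ) :
    ∑ g : Fin (deg i) → Option (Fin 4), (∏ k, vo v (g k)) * y ⟨i, g⟩ = 0 := by
  classical
  refine HH_all (fun g => y ⟨i, g⟩) ?_ v
  clear v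
  intro v hv0 hv1
  set h : I → Fin (n + 1) → Fin (n + 1) → ℝ := fun i a b =>
    ∑ g : Fin (deg i) → Option (Fin 4), if cnt (hdeg i) 2 g = a ∧ cnt (hdeg i) 3 g = b then
      (∏ k, wo v (g k)) * y ⟨i, g⟩ else 0 with hh
  have h0 : h = 0 := by
    apply hind
    intro t ht
    set v' : Fin 4 → ℝ := ![v 0, v 1, Real.log t, Real.log (1 - t)] with hv'
    have h1 := hy v' t ht.1 ht.2 hv0 hv1 rfl rfl
    rw [← h1, Fintype.sum_sigma]
    refine sum_congr rfl fun i _ => ?_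
    have h2 := collapse (cnt (hdeg i) 2) (cnt (hdeg i) 3)
      (fun g => (∏ k, wo v (g k)) * y ⟨i, g⟩) (Real.log t) (Real.log (1 - t))
    have h3 : ∀ a b : Fin (n + 1), h i a b * φ i t * Real.log t ^ (a : ℕ) *
        Real.log (1 - t) ^ (b : ℕ) = φ i t * ((∑ g : Fin (deg i) → Option (Fin 4),
          if cnt (hdeg i) 2 g = a ∧ cnt (hdeg i) 3 g = b then
          (∏ k, wo v (g k)) * y ⟨i, g⟩ else 0) * Real.log t ^ (a : ℕ) *
          Real.log (1 - t) ^ (b : ℕ)) := by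
      intro a b
      simp only [hh]
      ring
    simp_rw [h3, ← mul_sum]
    rw [h2, mul_sum]
    refine sum_congr rfl fun g _ => ?_
    unfold Psi
    simp only
    rw [prod_vo v' g]
    have h4 : ∀ o, wo v' o = wo v o := by
      intro o
      cases o with
      | none => rfl
      | some j => fin_cases j <;> simp [wo, hv']
    simp_rw [h4]
    simp only [cnt]
    show φ i t * ((∏ k, wo v (g k)) * y ⟨i, g⟩ * _ ^ _ * _ ^ _) = φ i t * ((∏ k, wo v (g k)) *
      Real.log t ^ _ * Real.log (1 - t) ^ _) * y ⟨i, g⟩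
    ring
  have h2 := collapse (cnt (hdeg i) 2) (cnt (hdeg i) 3)
    (fun g => (∏ k, wo v (g k)) * y ⟨i, g⟩) (v 2) (v 3)
  have h3 : ∀ a b, (∑ g : Fin (deg i) → Option (Fin 4),
      if cnt (hdeg i) 2 g = a ∧ cnt (hdeg i) 3 g = b then
      (∏ k, wo v (g k)) * y ⟨i, g⟩ else 0) = 0 := fun a b => congrFun (congrFun (congrFun h0 i) a) b
  simp_rw [h3, zero_mul, sum_const_zero] at h2
  rw [HH, h2]
  refine sum_congr rfl fun g _ => ?_
  rw [prod_vo v g]
  simp only [cnt]
  ring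

end UniN

open UniN Finset in
/-- [UNI] -/
theorem unisolvent (I : Type) [Fintype I] (n : ℕ) (deg : I → ℕ) (hdeg : ∀ i, deg i ≤ n)
    (φ : I → ℝ → ℝ) (hφc : ∀ i, ContinuousOn (φ i) (Set.Ioo 0 1))
    (hind : ∀ h : I → Fin (n + 1) → Fin (n + 1) → ℝ,
      (∀ t ∈ Set.Ioo (0 : ℝ) 1, ∑ i, ∑ a : Fin (n + 1), ∑ b : Fin (n + 1),
        h i a b * φ i t * Real.log t ^ (a : ℕ) * Real.log (1 - t) ^ (b : ℕ) = 0) → h = 0) :
    ∃ (N : ℕ) (vd : Fin N → Fin 4 → ℝ) (td : Fin N → ℝ),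
      (∀ d, 0 < td d ∧ td d < 1 ∧ 0 < vd d 0 ∧ 0 < vd d 1 ∧ vd d 2 = Real.log (td d) ∧
        vd d 3 = Real.log (1 - td d)) ∧
      (∀ y : (Σ i : I, (Fin (deg i) → Option (Fin 4))) → ℝ,
        (∀ d, ∑ ig, Psi deg φ (vd d) (td d) ig * y ig = 0) →
        ∀ (i : I) (v : Fin 4 → ℝ), ∑ g : Fin (deg i) → Option (Fin 4),
          (∏ k, vo v (g k)) * y ⟨i, g⟩ = 0) ∧
      ∀ ε : ℝ, 0 < ε → ∃ δ : ℝ, 0 < δ ∧ ∀ (d : Fin N) (v : Fin 4 → ℝ) (t : ℝ),
        (∀ j, |v j - vd d j| ≤ δ) → |t - td d| ≤ δ →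
        ∃ ϑ : Fin N → ℝ, (∀ c, |ϑ c| ≤ ε) ∧
          ∀ y : (Σ i : I, (Fin (deg i) → Option (Fin 4))) → ℝ,
            ∑ ig, Psi deg φ v t ig * y ig = ∑ ig, Psi deg φ (vd d) (td d) ig * y ig +
              ∑ c, ϑ c * ∑ ig, Psi deg φ (vd c) (td c) ig * y ig := by
  classical
  let J := Σ i : I, (Fin (deg i) → Option (Fin 4))
  set Ω : Set ((Fin 4 → ℝ) × ℝ) := {p | 0 < p.2 ∧ p.2 < 1 ∧ 0 < p.1 0 ∧ 0 < p.1 1 ∧
    p.1 2 = Real.log p.2 ∧ p.1 3 = Real.log (1 - p.2)} with hΩ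
  set G : Set (J → ℝ) := (fun p : (Fin 4 → ℝ) × ℝ => (Psi deg φ p.1 p.2 : J → ℝ)) '' Ω with hG
  obtain ⟨b, hbG, hspan, hli⟩ := exists_linearIndependent ℝ G
  have hfin : Finite b := hli.finite
  obtain ⟨N, ⟨e⟩⟩ := Finite.exists_equiv_fin b
  let f : Fin N → J → ℝ := fun c => (e.symm c : J → ℝ)
  have hfli : LinearIndependent ℝ f := hli.comp e.symm e.symm.injective
  have hfr : Set.range f = b := by
    ext x
    constructor
    · rintro ⟨c, rfl⟩
      exact (e.symm c).2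
    · intro hx
      exact ⟨e ⟨x, hx⟩, by simp [f]⟩
  have hex : ∀ c, ∃ p : (Fin 4 → ℝ) × ℝ, p ∈ Ω ∧ (Psi deg φ p.1 p.2 : J → ℝ) = f c := by
    intro c
    obtain ⟨p, hp, h⟩ := hbG (e.symm c).2
    exact ⟨p, hp, h⟩
  choose pd hpd hpf using hex
  -- the functional
  let dl : (J → ℝ) → (J → ℝ) →ₗ[ℝ] ℝ := fun y =>
    { toFun := fun x => ∑ ig, x ig * y ig
      map_add' := fun x x' => by simp [add_mul, sum_add_distrib]
      map_smul' := fun c x => by simp [mul_sum, mul_assoc] }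
  have hdl : ∀ y x, dl y x = ∑ ig, x ig * y ig := fun y x => rfl
  have hi : ∀ y : J → ℝ, (∀ d, ∑ ig, Psi deg φ (pd d).1 (pd d).2 ig * y ig = 0) →
      ∀ (i : I) (v : Fin 4 → ℝ), ∑ g : Fin (deg i) → Option (Fin 4),
          (∏ k, vo v (g k)) * y ⟨i, g⟩ = 0 := by
    intro y hy
    refine key n deg hdeg φ hind y ?_
    intro v t ht0 ht1 hv0 hv1 hv2 hv3
    have hmem : (Psi deg φ v t : J → ℝ) ∈ Submodule.span ℝ b := by
      rw [hspan]
      exact Submodule.subset_span ⟨(v, t), ⟨ht0, ht1, hv0, hv1, hv2, hv3⟩, rfl⟩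
    have hle : Submodule.span ℝ b ≤ LinearMap.ker (dl y) := by
      rw [Submodule.span_le]
      intro x hx
      rw [← hfr] at hx
      obtain ⟨c, rfl⟩ := hx
      show dl y (f c) = 0
      rw [hdl, ← hpf c]
      exact hy c
    exact hle hmem
  have hall : ∀ (v : Fin 4 → ℝ) (t : ℝ), (Psi deg φ v t : J → ℝ) ∈ Submodule.span ℝ b := by
    intro v t
    rw [← Subspace.forall_mem_dualAnnihilator_apply_eq_zero_iff]
    intro F hF
    have hFe : ∀ x, F x = ∑ ig, x ig * F (fun j => if ig = j then 1 else 0) := by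
      intro x
      rw [LinearMap.pi_apply_eq_sum_univ F x]
      rfl
    rw [hFe]
    have h1 := hi (fun ig => F (fun j => if ig = j then 1 else 0)) (by
      intro d
      have h2 := hFe (f d)
      rw [← hpf d] at h2
      rw [← h2, hpf d]
      rw [Submodule.mem_dualAnnihilator] at hF
      apply hF
      apply Submodule.subset_span
      rw [← hfr]
      exact ⟨d, rfl⟩)
    show ∑ ig : J, Psi deg φ v t ig * _ = 0
    rw [Fintype.sum_sigma]
    refine sum_eq_zero fun i _ => ?_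
    have h3 := h1 i v
    unfold Psi
    simp only
    simp_rw [mul_assoc]
    rw [← mul_sum, h3, mul_zero]
  -- coordinates
  let L : (Fin N → ℝ) →ₗ[ℝ] (J → ℝ) := Fintype.linearCombination ℝ f
  have hL : ∀ x, L x = ∑ c, x c • f c := fun x => rfl
  have hLi : LinearMap.ker L = ⊥ := by
    rw [LinearMap.ker_eq_bot]
    exact hfli.fintypeLinearCombination_injective
  obtain ⟨R, hR⟩ := LinearMap.exists_leftInverse_of_injective L hLi
  have hRc : Continuous R := LinearMap.continuous_of_finiteDimensional R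
  refine ⟨N, fun d => (pd d).1, fun d => (pd d).2, fun d => hpd d, hi, ?_⟩
  intro ε hε
  suffices H : ∀ d : Fin N, ∀ᶠ δ in nhdsWithin (0 : ℝ) (Set.Ioi 0), ∀ (v : Fin 4 → ℝ) (t : ℝ),
        (∀ j, |v j - (pd d).1 j| ≤ δ) → |t - (pd d).2| ≤ δ →
        ∃ ϑ : Fin N → ℝ, (∀ c, |ϑ c| ≤ ε) ∧
          ∀ y : J → ℝ,
            ∑ ig, Psi deg φ v t ig * y ig = ∑ ig, Psi deg φ (pd d).1 (pd d).2 ig * y ig +
              ∑ c, ϑ c * ∑ ig, Psi deg φ (pd c).1 (pd c).2 ig * y ig by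
    have H1 := Filter.eventually_all.2 H
    obtain ⟨δ, h1, h2⟩ := (H1.and self_mem_nhdsWithin).exists
    exact ⟨δ, h2, h1⟩
  intro d
  set Fd : (Fin 4 → ℝ) × ℝ → Fin N → ℝ := fun p => R (Psi deg φ p.1 p.2 - f d) with hFd
  have hct : ContinuousAt Fd (pd d) := by
    refine hRc.continuousAt.comp ?_
    refine ContinuousAt.sub ?_ continuousAt_const
    rw [continuousAt_pi]
    rintro ⟨i, g⟩
    show ContinuousAt (fun p : (Fin 4 → ℝ) × ℝ => φ i p.2 * ∏ k, vo p.1 (g k)) (pd d)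
    refine ContinuousAt.mul ?_ ?_
    · have h1 : ContinuousAt (φ i) (pd d).2 :=
        (hφc i).continuousAt (Ioo_mem_nhds (hpd d).1 (hpd d).2.1)
      exact ContinuousAt.comp (f := Prod.snd) h1 continuousAt_snd
    · refine Continuous.continuousAt ?_
      refine continuous_finset_prod _ fun k _ => ?_
      cases hgk : g k with
      | none => exact continuous_const
      | some j => exact (continuous_apply j).comp continuous_fst
  have hF0 : Fd (pd d) = 0 := by
    simp only [hFd]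
    rw [hpf d, sub_self, map_zero]
  rw [Metric.continuousAt_iff] at hct
  obtain ⟨δ, hδ, hδ2⟩ := hct ε hε
  filter_upwards [Ioo_mem_nhdsGT hδ] with δ' hδ' v t hv ht
  have hdist : dist (v, t) (pd d) < δ := by
    rw [Prod.dist_eq, max_lt_iff]
    constructor
    · refine lt_of_le_of_lt ((dist_pi_le_iff hδ'.1.le).2 fun j => ?_) hδ'.2
      rw [Real.dist_eq]
      exact hv j
    · rw [Real.dist_eq]
      exact lt_of_le_of_lt ht hδ'.2
  have h1 := hδ2 hdist
  rw [hF0, dist_zero_right] at h1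
  refine ⟨Fd (v, t), fun c => ?_, ?_⟩
  · have := norm_le_pi_norm (Fd (v, t)) c
    rw [Real.norm_eq_abs] at this
    linarith
  · intro y
    -- Psi v t = f d + L (Fd (v, t))
    have hm : (Psi deg φ v t - f d : J → ℝ) ∈ Submodule.span ℝ b :=
      Submodule.sub_mem _ (hall v t) (Submodule.subset_span (by rw [← hfr]; exact ⟨d, rfl⟩))
    rw [← hfr, ← Fintype.range_linearCombination] at hm
    obtain ⟨x, hx⟩ := hm
    have hx' : L x = Psi deg φ v t - f d := hx
    have h2 : Fd (v, t) = x := by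
      simp only [hFd]
      rw [← hx']
      exact LinearMap.congr_fun hR x
    rw [h2]
    have h3 : (Psi deg φ v t : J → ℝ) = f d + ∑ c, x c • f c := by
      rw [← hL, hx']
      abel
    have h4 : ∀ c, ∑ ig, Psi deg φ (pd c).1 (pd c).2 ig * y ig = dl y (f c) := by
      intro c
      rw [hdl, ← hpf c]
    have h5 : ∑ ig, Psi deg φ v t ig * y ig = dl y (Psi deg φ v t) := rfl
    rw [h5, h3, map_add, map_sum, h4]
    congr 1
    refine sum_congr rfl fun c _ => ?_
    rw [map_smul, h4, smul_eq_mul]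

end Pool.Agent.H366.ZC
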